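import Pool.Agent.GRR.Stmts

/-!
# GRR, module ACL : `acl T` is a subfield, ranks
-/

set_option autoImplicit false

open Finset
open scoped Classical

namespace Pool.Agent.GRR

namespace ACL_

theorem mem_iff (T : Set ℝ) (x : ℝ) : x ∈ acl T ↔ IsAlgebraic (Algebra.adjoin ℚ T) x := by
  unfold acl
  rw [AlgebraicIndependent.matroid_closure_eq]
  exact Iff.rfl

end ACL_

theorem acl_proof : Stmt_ACL := by
  intro T
  refine ⟨?_, ?_, ?_, ?_, ?_, ?_⟩
  · exact Matroid.subset_closure _ T (by simp)
  · intro T' h
    exact Matroid.closure_subset_closure_of_subset_closure h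
  · intro x hx y hy
    rw [ACL_.mem_iff] at hx hy
    simp only [ACL_.mem_iff]
    refine ⟨hx.add hy, hx.sub hy, hx.mul hy, ?_⟩
    exact IsAlgebraic.inv_iff.2 hx
  · intro q
    rw [ACL_.mem_iff]
    exact isAlgebraic_algebraMap (R := Algebra.adjoin ℚ T) (A := ℝ)
      (⟨(q : ℝ), (Algebra.adjoin ℚ T).algebraMap_mem q⟩ : Algebra.adjoin ℚ T)
  · intro n x hx hr m hm
    have hI : (AlgebraicIndependent.matroid ℚ ℝ).Indep (Set.range x) := by
      rw [AlgebraicIndependent.matroid_indep_iff]
      exact hx.to_subtype_range
    have h1 : (Set.range x).encard ≤ (AlgebraicIndependent.matroid ℚ ℝ).eRk (acl T) :=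
      hI.encard_le_eRk_of_subset hr
    have h2 : (AlgebraicIndependent.matroid ℚ ℝ).eRk (acl T) ≤ T.encard := by
      unfold acl
      rw [Matroid.eRk_closure_eq]
      exact Matroid.eRk_le_encard _ _
    have h3 : (Set.range x).encard = n := by
      rw [← Set.image_univ, hx.injective.encard_image, Set.encard_univ]
      simp
    rw [h3] at h1
    exact_mod_cast h1.trans (h2.trans hm)
  · intro n x hx hr hn
    have hI : (AlgebraicIndependent.matroid ℚ ℝ).Indep (Set.range x) := by
      rw [AlgebraicIndependent.matroid_indep_iff]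
      exact hx.to_subtype_range
    have h2 : (AlgebraicIndependent.matroid ℚ ℝ).eRk (acl T) ≤ T.encard := by
      unfold acl
      rw [Matroid.eRk_closure_eq]
      exact Matroid.eRk_le_encard _ _
    have h3 : (Set.range x).encard = n := by
      rw [← Set.image_univ, hx.injective.encard_image, Set.encard_univ]
      simp
    have h4 : (AlgebraicIndependent.matroid ℚ ℝ).IsBasis (Set.range x) (acl T) := by
      apply hI.isBasis_of_eRk_ge (Set.finite_range x) hr
      rw [hI.eRk_eq_encard, h3]
      exact h2.trans hn
    have h5 : acl T ⊆ acl (Set.range x) := h4.subset_closure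
    exact (Matroid.subset_closure _ T (by simp)).trans h5

end Pool.Agent.GRR
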