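import Pool.Agent.GRR.Stmts

/-!
# GRR.AFC: points with given distances to `k+1` generic points
-/

set_option autoImplicit false

open Finset
open scoped Classical

namespace Pool.Agent.GRR

namespace AFC_

theorem dot_sum {k : ℕ} {ι : Type} (s : Finset ι) (x : Fin k → ℝ) (f : ι → Fin k → ℝ) :
    dot x (∑ i ∈ s, f i) = ∑ i ∈ s, dot x (f i) := by
  induction s using Finset.induction_on with
  | empty => simp [dot_zero]
  | insert i s hi ih => rw [Finset.sum_insert hi, Finset.sum_insert hi, dot_add, ih]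

theorem sum_dot {k : ℕ} {ι : Type} (s : Finset ι) (x : Fin k → ℝ) (f : ι → Fin k → ℝ) :
    dot (∑ i ∈ s, f i) x = ∑ i ∈ s, dot (f i) x := by
  rw [dot_comm, dot_sum]
  exact Finset.sum_congr rfl fun i _ => dot_comm _ _

theorem span {V : Type} {k : ℕ} (T : Finset V) (w : V → Fin k → ℝ)
    (h : ∀ D : Fin k → ℝ, (∀ t ∈ T, dot (w t) D = 0) → D = 0) (X : Fin k → ℝ) :
    ∃ a : V → ℝ, X = ∑ t ∈ T, a t • w t := by
  let L : (V → ℝ) →ₗ[ℝ] (Fin k → ℝ) := ∑ t ∈ T, (LinearMap.proj t).smulRight (w t)
  have hL : ∀ a : V → ℝ, L a = ∑ t ∈ T, a t • w t := by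
    intro a
    simp only [L, LinearMap.sum_apply, LinearMap.smulRight_apply, LinearMap.proj_apply]
  by_cases htop : LinearMap.range L = ⊤
  · have hX : X ∈ LinearMap.range L := by rw [htop]; trivial
    obtain ⟨a, ha⟩ := hX
    exact ⟨a, by rw [← ha, hL]⟩
  · exfalso
    obtain ⟨f, hf, hle⟩ := Submodule.exists_le_ker_of_lt_top _ (lt_top_iff_ne_top.2 htop)
    have hfD : ∀ x : Fin k → ℝ, f x = dot x (fun c => f (fun j => if c = j then 1 else 0)) := by
      intro x
      rw [LinearMap.pi_apply_eq_sum_univ f x]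
      rfl
    have hD := h (fun c => f (fun j => if c = j then 1 else 0)) (by
      intro t ht
      rw [← hfD]
      have h1 : L (Pi.single t 1) = w t := by
        rw [hL, Finset.sum_eq_single t]
        · simp
        · intro s _ hs
          rw [Pi.single_eq_of_ne hs, zero_smul]
        · intro h2; exact absurd ht h2
      have h2 := hle (LinearMap.mem_range_self L (Pi.single t 1))
      rw [LinearMap.mem_ker, h1] at h2
      exact h2)
    apply hf
    ext x
    have := hfD (LinearMap.single ℝ (fun _ => ℝ) x 1)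
    rw [hD, dot_zero] at this
    simpa using this

theorem expand {V : Type} {k : ℕ} (T : Finset V) (w : V → Fin k → ℝ) (i : V) (a : V → ℝ) :
    dot (w i - ∑ t ∈ T, a t • w t) (w i - ∑ t ∈ T, a t • w t) =
      dot (w i) (w i) - 2 * (∑ t ∈ T, a t * dot (w i) (w t)) +
        ∑ s ∈ T, ∑ t ∈ T, a s * (a t * dot (w s) (w t)) := by
  have h1 : dot (w i) (∑ t ∈ T, a t • w t) = ∑ t ∈ T, a t * dot (w i) (w t) := by
    rw [dot_sum]; exact Finset.sum_congr rfl fun t _ => dot_smul _ _ _
  have h2 : dot (∑ t ∈ T, a t • w t) (∑ t ∈ T, a t • w t) =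
      ∑ s ∈ T, ∑ t ∈ T, a s * (a t * dot (w s) (w t)) := by
    rw [sum_dot]
    refine Finset.sum_congr rfl fun s _ => ?_
    rw [smul_dot, dot_sum, Finset.mul_sum]
    exact Finset.sum_congr rfl fun t _ => by rw [dot_smul]
  rw [sub_dot, dot_sub, dot_sub, h1, h2, dot_comm (∑ t ∈ T, a t • w t) (w i), h1]
  ring

theorem expand2 {V : Type} {k : ℕ} (T : Finset V) (w : V → Fin k → ℝ) (a : V → ℝ) :
    dot (∑ t ∈ T, a t • w t) (∑ t ∈ T, a t • w t) =
      ∑ s ∈ T, ∑ t ∈ T, a s * (a t * dot (w s) (w t)) := by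
  rw [sum_dot]
  refine Finset.sum_congr rfl fun s _ => ?_
  rw [smul_dot, dot_sum, Finset.mul_sum]
  exact Finset.sum_congr rfl fun t _ => by rw [dot_smul]

theorem gram {V : Type} {k : ℕ} (p : V → Fin k → ℝ) (o i j : V) :
    dot (p i - p o) (p j - p o) =
      (len p s(i, o) + len p s(j, o) - len p s(i, j)) / 2 := by
  simp only [len_mk]
  have h : p i - p j = (p i - p o) - (p j - p o) := by abel
  rw [h]
  generalize p i - p o = x
  generalize p j - p o = y
  rw [sub_dot, dot_sub, dot_sub, dot_comm y x]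
  ring

end AFC_

open AFC_ in
theorem afc_proof (hSTA : Stmt_STA) : Stmt_AFC := by
  intro V _ k p hp S hS q hq x y hx hy
  obtain ⟨o, ho⟩ : S.Nonempty := by
    rw [← Finset.card_pos]; omega
  set T := S.erase o with hT
  have hTc : k ≤ T.card := by rw [hT, Finset.card_erase_of_mem ho]; omega
  have hoT : o ∉ T := by simp [hT]
  have hspan := span T (fun t => p t - p o) (by
    intro D hD
    refine (hSTA V k p hp o T hoT).2 hTc D fun t ht => ?_
    have := hD t ht
    rw [show p o - p t = (-1 : ℝ) • (p t - p o) by simp, smul_dot, this, mul_zero])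
  -- distances to `S`
  have hlen : ∀ z : V, (∀ i ∈ S, len q s(z, i) = len p s(z, i)) → ∀ i ∈ S,
      dot (q z - q o) (q i - q o) = dot (p z - p o) (p i - p o) := by
    intro z hz i hi
    rw [gram, gram, hz o ho, hz i hi, hq i hi o ho]
  have hlen' : ∀ z : V, (∀ i ∈ S, len q s(z, i) = len p s(z, i)) →
      dot (q z - q o) (q z - q o) = dot (p z - p o) (p z - p o) := by
    intro z hz
    have := hz o ho
    simpa only [len_mk] using this
  have hTS : ∀ t ∈ T, t ∈ S := fun t ht => Finset.mem_of_mem_erase ht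
  have hG : ∀ s ∈ T, ∀ t ∈ T, dot (q s - q o) (q t - q o) = dot (p s - p o) (p t - p o) :=
    fun s hs t ht => hlen s (fun i hi => hq s (hTS s hs) i hi) t (hTS t ht)
  have key : ∀ z : V, (∀ i ∈ S, len q s(z, i) = len p s(z, i)) → ∀ a : V → ℝ,
      p z - p o = ∑ t ∈ T, a t • (p t - p o) → q z - q o = ∑ t ∈ T, a t • (q t - q o) := by
    intro z hz a ha
    have h1 := expand T (fun t => q t - q o) z a
    have h2 := expand T (fun t => p t - p o) z a
    have h3 : dot (p z - p o - ∑ t ∈ T, a t • (p t - p o))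
        (p z - p o - ∑ t ∈ T, a t • (p t - p o)) = 0 := by
      rw [← ha, sub_self, dot_zero]
    have h4 : dot (q z - q o - ∑ t ∈ T, a t • (q t - q o))
        (q z - q o - ∑ t ∈ T, a t • (q t - q o)) = 0 := by
      rw [← h3]
      refine h1.trans (Eq.trans ?_ h2.symm)
      rw [hlen' z hz]
      congr 1
      · congr 2
        exact Finset.sum_congr rfl fun t ht => by rw [hlen z hz t (hTS t ht)]
      · exact Finset.sum_congr rfl fun s hs => Finset.sum_congr rfl fun t ht => by
          rw [hG s hs t ht]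
    exact sub_eq_zero.1 (dot_self_eq_zero _ h4)
  obtain ⟨a, ha⟩ := hspan (p x - p o)
  obtain ⟨b, hb⟩ := hspan (p y - p o)
  have ha' := key x hx a ha
  have hb' := key y hy b hb
  have hdiff : ∀ r : V → Fin k → ℝ, r x - r o = ∑ t ∈ T, a t • (r t - r o) →
      r y - r o = ∑ t ∈ T, b t • (r t - r o) →
      r x - r y = ∑ t ∈ T, (fun t => a t - b t) t • (r t - r o) := by
    intro r h1 h2
    have h3 : r x - r y = (r x - r o) - (r y - r o) := by abel
    rw [h3, h1, h2, ← Finset.sum_sub_distrib]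
    exact Finset.sum_congr rfl fun t _ => by rw [sub_smul]
  rw [len_mk, len_mk, hdiff q ha' hb', hdiff p ha hb, expand2, expand2]
  exact Finset.sum_congr rfl fun s hs => Finset.sum_congr rfl fun t ht => by
    rw [hG s hs t ht]

end Pool.Agent.GRR
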