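import Pool.Agent.GRR.Stmts

set_option autoImplicit false

open Finset
open scoped Classical

namespace Pool.Agent.GRR

namespace AFF_

/-- the subfield of numbers algebraic over `S` -/
noncomputable def KF (h1 : Stmt_ACL) (S : Set ℝ) : Subfield ℝ where
  carrier := acl S
  mul_mem' := fun {x y} hx hy => ((h1 S).2.2.1 x hx y hy).2.2.1
  one_mem' := by simpa using (h1 S).2.2.2.1 1
  add_mem' := fun {x y} hx hy => ((h1 S).2.2.1 x hx y hy).1
  zero_mem' := by simpa using (h1 S).2.2.2.1 0
  neg_mem' := fun {x} hx => by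
    have h0 : (0 : ℝ) ∈ acl S := by simpa using (h1 S).2.2.2.1 0
    have := ((h1 S).2.2.1 0 h0 x hx).2.1
    simpa using this
  inv_mem' := fun x hx => ((h1 S).2.2.1 x hx x hx).2.2.2

lemma mem_KF (h1 : Stmt_ACL) (S : Set ℝ) (x : ℝ) : x ∈ KF h1 S ↔ x ∈ acl S := Iff.rfl

/-- polynomials over the subfield that vanish at a generic point vanish everywhere -/
lemma gpt' (h1 : Stmt_ACL) (h2 : Stmt_GPT) {V : Type} [Fintype V] {k : ℕ} (p : V → Fin k → ℝ)
    (hp : Gnr p) (W : Finset V) (v : V) (hv : v ∉ W)
    (g : MvPolynomial (Fin k) (KF h1 (crd p W)))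
    (h : MvPolynomial.eval₂ (KF h1 (crd p W)).subtype (p v) g = 0) : g = 0 := by
  have hinj : Function.Injective (KF h1 (crd p W)).subtype := Subtype.val_injective
  have h3 : MvPolynomial.map (KF h1 (crd p W)).subtype g = 0 := by
    apply h2 V k p hp W v hv
    · intro m
      rw [MvPolynomial.coeff_map]
      exact (g.coeff m).2
    · rw [MvPolynomial.eval_map]; exact h
  apply MvPolynomial.map_injective _ hinj
  rw [h3, map_zero]

end AFF_

open AFF_ in
theorem aff_proof (h1 : Stmt_ACL) (h2 : Stmt_GPT) (h3 : Stmt_STA) : Stmt_AFF := by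
  intro V _ k p hp W T v hv hTW hT q hq hlen
  set K := KF h1 (crd p W) with hK
  have hpK : ∀ w ∈ W, ∀ c, p w c ∈ K := by
    intro w hw c
    rw [hK, mem_KF]
    exact (h1 (crd p W)).1 ⟨w, hw, c, rfl⟩
  have hqK : ∀ w ∈ W, ∀ c, q w c ∈ K := fun w hw c => hq w hw c
  -- choose the points
  obtain ⟨w0, hw0⟩ : T.Nonempty := Finset.card_pos.1 (by omega)
  have hcard : k ≤ (T.erase w0).card := by rw [Finset.card_erase_of_mem hw0]; omega
  obtain ⟨T', hT'sub, hT'card⟩ := Finset.exists_subset_card_eq hcard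
  have e : Fin k ≃ T' := (Fintype.equivFinOfCardEq (by simpa using hT'card)).symm
  let w : Fin k → V := fun i => (e i : V)
  have hwT' : ∀ i, w i ∈ T' := fun i => (e i).2
  have hwT : ∀ i, w i ∈ T := fun i => Finset.mem_of_mem_erase (hT'sub (hwT' i))
  have hwinj : Function.Injective w := fun i j hij => e.injective (Subtype.ext hij)
  have hw0T' : w0 ∉ T' := fun h => (Finset.notMem_erase w0 T) (hT'sub h)
  have hw0W := hTW hw0
  -- matrices over K
  let P : Matrix (Fin k) (Fin k) K := fun i j =>
    ⟨p (w i) j - p w0 j, K.sub_mem (hpK _ (hTW (hwT i)) j) (hpK _ hw0W j)⟩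
  let P' : Matrix (Fin k) (Fin k) K := fun i j =>
    ⟨q (w i) j - q w0 j, K.sub_mem (hqK _ (hTW (hwT i)) j) (hqK _ hw0W j)⟩
  -- the constants
  have hsqK : ∀ (f : Fin k → ℝ), (∀ c, f c ∈ K) → dot f f ∈ K := by
    intro f hf
    unfold dot
    exact K.sum_mem (fun c _ => K.mul_mem (hf c) (hf c))
  let cc : Fin k → ℝ := fun i =>
    (dot (q (w i)) (q (w i)) - dot (q w0) (q w0) - dot (p (w i)) (p (w i)) + dot (p w0) (p w0)) / 2
  have h2K : (2 : ℝ) ∈ K := by
    have h2' : (2 : ℝ) = 1 + 1 := by norm_num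
    rw [h2']
    exact K.add_mem K.one_mem K.one_mem
  have hccK : ∀ i, cc i ∈ K := by
    intro i
    apply K.div_mem _ h2K
    apply K.add_mem
    · apply K.sub_mem
      · exact K.sub_mem (hsqK _ (hqK _ (hTW (hwT i)))) (hsqK _ (hqK _ hw0W))
      · exact hsqK _ (hpK _ (hTW (hwT i)))
    · exact hsqK _ (hpK _ hw0W)
  let C : Fin k → K := fun i => ⟨cc i, hccK i⟩
  -- the linear equations
  have hlin : ∀ i, ∑ j, (P' i j : ℝ) * q v j = ∑ j, (P i j : ℝ) * p v j + (C i : ℝ) := by
    intro i
    have ha := hlen (w i) (hwT i)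
    have hb := hlen w0 hw0
    simp only [len_mk] at ha hb
    have e1 : ∀ a b : Fin k → ℝ, dot (a - b) (a - b) = dot a a - 2 * dot a b + dot b b := by
      intro a b
      rw [dot_sub, sub_dot, sub_dot, dot_comm b a]; ring
    rw [e1, e1] at ha hb
    have e2 : ∑ j, (P' i j : ℝ) * q v j = dot (q v) (q (w i)) - dot (q v) (q w0) := by
      rw [← dot_sub]
      unfold dot
      exact Finset.sum_congr rfl (fun j _ => by
        show (q (w i) j - q w0 j) * q v j = q v j * (q (w i) - q w0) j
        rw [Pi.sub_apply]; ring)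
    have e3 : ∑ j, (P i j : ℝ) * p v j = dot (p v) (p (w i)) - dot (p v) (p w0) := by
      rw [← dot_sub]
      unfold dot
      exact Finset.sum_congr rfl (fun j _ => by
        show (p (w i) j - p w0 j) * p v j = p v j * (p (w i) - p w0) j
        rw [Pi.sub_apply]; ring)
    rw [e2, e3]
    show _ = _ + cc i
    simp only [cc]
    linarith
  -- P' is nonsingular
  have hdet : P'.det ≠ 0 := by
    intro hd
    obtain ⟨a, ha, haP⟩ := Matrix.exists_vecMul_eq_zero_iff.2 hd
    apply ha
    -- the linear relation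
    let g : MvPolynomial (Fin k) K :=
      ∑ j, MvPolynomial.C (∑ i, a i * P i j) * MvPolynomial.X j + MvPolynomial.C (∑ i, a i * C i)
    have hg : g = 0 := by
      apply gpt' h1 h2 p hp W v hv
      show MvPolynomial.eval₂ K.subtype (p v) g = 0
      simp only [g, MvPolynomial.eval₂_add, MvPolynomial.eval₂_sum, MvPolynomial.eval₂_mul,
        MvPolynomial.eval₂_C, MvPolynomial.eval₂_X, map_sum, map_mul, Subfield.coe_subtype]
      have : ∑ j, (∑ i, (a i : ℝ) * (P i j : ℝ)) * p v j + ∑ i, (a i : ℝ) * (C i : ℝ)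
          = ∑ i, (a i : ℝ) * (∑ j, (P i j : ℝ) * p v j + (C i : ℝ)) := by
        simp only [Finset.sum_mul, mul_add, Finset.sum_add_distrib, Finset.mul_sum]
        rw [Finset.sum_comm]
        congr 1
        exact Finset.sum_congr rfl (fun i _ => Finset.sum_congr rfl (fun j _ => by ring))
      rw [this]
      simp only [← hlin]
      simp only [Finset.mul_sum]
      rw [Finset.sum_comm]
      apply Finset.sum_eq_zero
      intro j _
      have h4 : ∑ i, a i * P' i j = 0 := by
        have := congrFun haP j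
        simpa [Matrix.vecMul, dotProduct] using this
      have h5 : ∑ i, (a i : ℝ) * (P' i j : ℝ) = 0 := by
        have := congrArg (fun x : K => (x : ℝ)) h4
        simpa using this
      calc ∑ i, (a i : ℝ) * ((P' i j : ℝ) * q v j)
          = (∑ i, (a i : ℝ) * (P' i j : ℝ)) * q v j := by
            rw [Finset.sum_mul]; exact Finset.sum_congr rfl (fun i _ => by ring)
        _ = 0 := by rw [h5, zero_mul]
    have hcoef : ∀ j, ∑ i, a i * P i j = 0 := by
      intro j
      have h6 : MvPolynomial.coeff (Finsupp.single j 1) g = ∑ i, a i * P i j := by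
        simp only [g, MvPolynomial.coeff_add, MvPolynomial.coeff_sum]
        rw [MvPolynomial.coeff_C]
        have hne : (0 : Fin k →₀ ℕ) ≠ Finsupp.single j 1 := by
          intro h
          have := congrArg (fun f : Fin k →₀ ℕ => f j) h
          simp at this
        rw [if_neg hne, add_zero]
        rw [Finset.sum_eq_single j]
        · rw [MvPolynomial.coeff_C_mul, MvPolynomial.coeff_X, if_pos rfl, mul_one]
        · intro b _ hb
          rw [MvPolynomial.coeff_C_mul, MvPolynomial.coeff_X, if_neg, mul_zero]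
          intro h
          exact hb (Finsupp.single_left_injective one_ne_zero h)
        · intro h; exact absurd (Finset.mem_univ _) h
      rw [← h6, hg, MvPolynomial.coeff_zero]
    funext i0
    -- use STA
    obtain ⟨D, hD⟩ := (h3 V k p hp w0 T' hw0T').1 (le_of_eq hT'card)
      (fun u => if u = w i0 then 1 else 0)
    have h7 : ∑ i, (a i : ℝ) * dot (p w0 - p (w i)) D = (a i0 : ℝ) := by
      rw [Finset.sum_eq_single i0]
      · rw [hD _ (hwT' i0), if_pos rfl, mul_one]
      · intro b _ hb
        rw [hD _ (hwT' b), if_neg (fun h => hb (hwinj h)), mul_zero]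
      · intro h; exact absurd (Finset.mem_univ _) h
    have h8 : ∑ i, (a i : ℝ) * dot (p w0 - p (w i)) D = 0 := by
      unfold dot
      simp only [Finset.mul_sum]
      rw [Finset.sum_comm]
      apply Finset.sum_eq_zero
      intro j _
      have h9 : ∑ i, (a i : ℝ) * (P i j : ℝ) = 0 := by
        have := congrArg (fun x : K => (x : ℝ)) (hcoef j)
        simpa using this
      calc ∑ i, (a i : ℝ) * ((p w0 - p (w i)) j * D j)
          = - (∑ i, (a i : ℝ) * (P i j : ℝ)) * D j := by
            rw [neg_mul, Finset.sum_mul, ← Finset.sum_neg_distrib]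
            exact Finset.sum_congr rfl (fun i _ => by
              show (a i : ℝ) * ((p w0 j - p (w i) j) * D j) = -((a i : ℝ) * (p (w i) j - p w0 j) * D j)
              ring)
        _ = 0 := by rw [h9]; ring
    have h10 : (a i0 : ℝ) = 0 := by rw [← h7, h8]
    exact Subtype.ext h10
  -- the affine map
  let B : Matrix (Fin k) (Fin k) K := P'⁻¹ * P
  let b : Fin k → K := P'⁻¹.mulVec C
  have hunit : IsUnit P'.det := isUnit_iff_ne_zero.2 hdet
  have hqv : ∀ i, q v i = ∑ j, (B i j : ℝ) * p v j + (b i : ℝ) := by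
    intro i
    have hinv : ∀ l, ∑ m, P'⁻¹ i m * P' m l = if i = l then 1 else 0 := by
      intro l
      have := congrFun (congrFun (Matrix.nonsing_inv_mul P' hunit) i) l
      rw [Matrix.mul_apply] at this
      rw [this, Matrix.one_apply]
    have hinvR : ∀ l, ∑ m, ((P'⁻¹ i m : K) : ℝ) * (P' m l : ℝ) = if i = l then 1 else 0 := by
      intro l
      have := congrArg (fun x : K => (x : ℝ)) (hinv l)
      by_cases hil : i = l
      · simpa [hil] using this
      · simpa [hil] using this
    have h11 : ∑ m, ((P'⁻¹ i m : K) : ℝ) * (∑ l, (P' m l : ℝ) * q v l) = q v i := by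
      simp only [Finset.mul_sum]
      rw [Finset.sum_comm]
      rw [Finset.sum_eq_single i]
      · calc ∑ m, ((P'⁻¹ i m : K) : ℝ) * ((P' m i : ℝ) * q v i)
            = (∑ m, ((P'⁻¹ i m : K) : ℝ) * (P' m i : ℝ)) * q v i := by
              rw [Finset.sum_mul]; exact Finset.sum_congr rfl (fun m _ => by ring)
          _ = q v i := by rw [hinvR, if_pos rfl, one_mul]
      · intro l _ hl
        calc ∑ m, ((P'⁻¹ i m : K) : ℝ) * ((P' m l : ℝ) * q v l)
            = (∑ m, ((P'⁻¹ i m : K) : ℝ) * (P' m l : ℝ)) * q v l := by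
              rw [Finset.sum_mul]; exact Finset.sum_congr rfl (fun m _ => by ring)
          _ = 0 := by rw [hinvR, if_neg (fun h => hl h.symm), zero_mul]
      · intro h; exact absurd (Finset.mem_univ _) h
    rw [← h11]
    simp only [hlin]
    have hB : ∀ j, (B i j : ℝ) = ∑ m, ((P'⁻¹ i m : K) : ℝ) * (P m j : ℝ) := by
      intro j
      show ((P'⁻¹ * P) i j : K).1 = _
      rw [Matrix.mul_apply]
      simp
    have hb' : (b i : ℝ) = ∑ m, ((P'⁻¹ i m : K) : ℝ) * (C m : ℝ) := by
      show ((P'⁻¹.mulVec C) i : K).1 = _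
      simp only [Matrix.mulVec, dotProduct]
      simp
    simp only [hB, hb', mul_add, Finset.sum_add_distrib, Finset.mul_sum, Finset.sum_mul]
    rw [Finset.sum_comm]
    congr 1
    exact Finset.sum_congr rfl (fun m _ => Finset.sum_congr rfl (fun j _ => by ring))
  -- the identity
  have hid : ∀ t ∈ T, ∀ y : Fin k → ℝ,
      ∑ c, (y c - p t c) ^ 2 = ∑ c, (∑ j, (B c j : ℝ) * y j + (b c : ℝ) - q t c) ^ 2 := by
    intro t ht y
    let g : MvPolynomial (Fin k) K :=
      ∑ c, (MvPolynomial.X c - MvPolynomial.C ⟨p t c, hpK t (hTW ht) c⟩) ^ 2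
      - ∑ c, (∑ j, MvPolynomial.C (B c j) * MvPolynomial.X j + MvPolynomial.C (b c)
          - MvPolynomial.C ⟨q t c, hqK t (hTW ht) c⟩) ^ 2
    have hev : ∀ z : Fin k → ℝ, MvPolynomial.eval₂ K.subtype z g =
        ∑ c, (z c - p t c) ^ 2 - ∑ c, (∑ j, (B c j : ℝ) * z j + (b c : ℝ) - q t c) ^ 2 := by
      intro z
      simp [g, MvPolynomial.eval₂_sub, MvPolynomial.eval₂_add, MvPolynomial.eval₂_sum,
        MvPolynomial.eval₂_mul, MvPolynomial.eval₂_pow, MvPolynomial.eval₂_C,
        MvPolynomial.eval₂_X]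
    have hg : g = 0 := by
      apply gpt' h1 h2 p hp W v hv
      show MvPolynomial.eval₂ K.subtype (p v) g = 0
      rw [hev]
      simp only [← hqv]
      have := hlen t ht
      simp only [len_mk] at this
      unfold dot at this
      simp only [Pi.sub_apply, ← sq] at this
      rw [this, sub_self]
    have := hev y
    rw [hg, MvPolynomial.eval₂_zero] at this
    linarith
  -- conclusion
  have hfix : ∀ t ∈ T, ∀ c, ∑ j, (B c j : ℝ) * p t j + (b c : ℝ) = q t c := by
    intro t ht c
    have h12 := hid t ht (p t)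
    simp only [sub_self, ne_eq, OfNat.ofNat_ne_zero, not_false_eq_true, zero_pow,
      Finset.sum_const_zero] at h12
    have h13 := (Finset.sum_eq_zero_iff_of_nonneg (fun d _ => sq_nonneg _)).1 h12.symm c
      (Finset.mem_univ c)
    have h14 := pow_eq_zero_iff (two_ne_zero) |>.1 h13
    linarith
  intro u hu u' hu'
  simp only [len_mk]
  unfold dot
  simp only [Pi.sub_apply, ← sq]
  have h15 := hid u' hu' (p u)
  rw [h15]
  refine Finset.sum_congr rfl (fun c _ => ?_)
  rw [hfix u hu c]

end Pool.Agent.GRR
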