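import Pool.Agent.GRR.Stmts

/-!
# GRR : an equivalent configuration of a rigid graph is algebraic, up to congruence
-/

set_option autoImplicit false

open Finset
open scoped Classical

namespace Pool.Agent.GRR

namespace ALG_

/-- the algebraic closure of a set of numbers as a subfield -/
noncomputable def aclF (h : Stmt_ACL) (T : Set ℝ) : Subfield ℝ where
  carrier := acl T
  mul_mem' := fun {x y} hx hy => ((h T).2.2.1 x hx y hy).2.2.1
  one_mem' := by
    have := (h T).2.2.2.1 1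
    simpa using this
  add_mem' := fun {x y} hx hy => ((h T).2.2.1 x hx y hy).1
  zero_mem' := by
    have := (h T).2.2.2.1 0
    simpa using this
  neg_mem' := fun {x} hx => by
    have h0 : (0 : ℝ) ∈ acl T := by
      have := (h T).2.2.2.1 0
      simpa using this
    have := ((h T).2.2.1 0 h0 x hx).2.1
    simpa using this
  inv_mem' := fun x hx => ((h T).2.2.1 x hx x hx).2.2.2

theorem len_mem (h : Stmt_ACL) (T : Set ℝ) {V : Type} {k : ℕ} (p : V → Fin k → ℝ) (W : Finset V)
    (hp : ∀ w ∈ W, ∀ c, p w c ∈ acl T) (e : Sym2 V) (he : ∀ i ∈ e, i ∈ W) : len p e ∈ acl T := by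
  induction e with
  | h i j =>
    have hi := he i (by simp)
    have hj := he j (by simp)
    rw [len_mk]
    have : dot (p i - p j) (p i - p j) ∈ aclF h T :=
      sum_mem (fun c _ => mul_mem (sub_mem (hp i hi c) (hp j hj c))
        (sub_mem (hp i hi c) (hp j hj c)))
    exact this

theorem inner_eq {k : ℕ} (x y : Fin k → ℝ) :
    inner ℝ (WithLp.toLp 2 x : EuclideanSpace ℝ (Fin k)) (WithLp.toLp 2 y) = dot x y := by
  rw [EuclideanSpace.inner_toLp_toLp]
  unfold dot dotProduct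
  refine Finset.sum_congr rfl (fun c _ => ?_)
  simp [mul_comm]

/-- QR decomposition: orthogonal coordinates adapted to a sequence of vectors -/
theorem qr {k : ℕ} (f : Fin k → Fin k → ℝ) : ∃ b : Fin k → Fin k → ℝ,
    (∀ x y : Fin k → ℝ, ∑ c, dot (b c) x * dot (b c) y = dot x y) ∧
    ∀ i c, i < c → dot (b c) (f i) = 0 := by
  have hfr : Module.finrank ℝ (EuclideanSpace ℝ (Fin k)) = Fintype.card (Fin k) := by simp
  obtain ⟨g, hg⟩ : ∃ g : Fin k → EuclideanSpace ℝ (Fin k), g = fun i => WithLp.toLp 2 (f i) :=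
    ⟨_, rfl⟩
  obtain ⟨B, hB⟩ : ∃ B : OrthonormalBasis (Fin k) ℝ (EuclideanSpace ℝ (Fin k)),
    B = InnerProductSpace.gramSchmidtOrthonormalBasis hfr g := ⟨_, rfl⟩
  have hBc : ∀ c, (WithLp.toLp 2 (WithLp.ofLp (B c)) : EuclideanSpace ℝ (Fin k)) = B c :=
    fun c => rfl
  refine ⟨fun c => WithLp.ofLp (B c), fun x y => ?_, fun i c hic => ?_⟩
  · have h := B.sum_inner_mul_inner (WithLp.toLp 2 x) (WithLp.toLp 2 y)
    rw [inner_eq] at h
    rw [← h]
    refine Finset.sum_congr rfl (fun c _ => ?_)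
    have e1 : inner ℝ (WithLp.toLp 2 x : EuclideanSpace ℝ (Fin k)) (B c) =
        dot (WithLp.ofLp (B c)) x := by
      rw [← hBc, inner_eq, dot_comm]
    have e2 : inner ℝ (B c) (WithLp.toLp 2 y : EuclideanSpace ℝ (Fin k)) =
        dot (WithLp.ofLp (B c)) y := by
      rw [← hBc, inner_eq]
    rw [e1, e2]
  · have h := InnerProductSpace.gramSchmidtOrthonormalBasis_inv_triangular hfr g hic
    rw [← hB] at h
    have e2 : inner ℝ (B c) (g i) = dot (WithLp.ofLp (B c)) (f i) := by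
      rw [hg, ← hBc, inner_eq]
    rw [← e2]
    exact h

/-- an isometric copy in normal position -/
theorem normal {V : Type} {k : ℕ} (q : V → Fin k → ℝ) (w : Fin (k + 1) → V) :
    ∃ q' : V → Fin k → ℝ, (∀ e : Sym2 V, len q' e = len q e) ∧
      ∀ (j : Fin (k + 1)) (c : Fin k), j.val ≤ c.val → q' (w j) c = 0 := by
  obtain ⟨b, hb1, hb2⟩ := qr (fun i : Fin k => q (w i.succ) - q (w 0))
  refine ⟨fun v c => dot (b c) (q v - q (w 0)), fun e => ?_, fun j c hjc => ?_⟩
  · induction e with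
    | h i j =>
      rw [len_mk, len_mk, ← hb1 (q i - q j) (q i - q j)]
      have e1 : (fun c => dot (b c) (q i - q (w 0))) - (fun c => dot (b c) (q j - q (w 0))) =
          fun c => dot (b c) (q i - q j) := by
        funext c
        rw [Pi.sub_apply, ← dot_sub]
        congr 1
        abel
      rw [e1]
      rfl
  · refine Fin.cases ?_ (fun i => ?_) j (motive := fun j => j.val ≤ c.val →
      dot (b c) (q (w j) - q (w 0)) = 0) hjc
    · intro _
      rw [sub_self, dot_zero]
    · intro hic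
      rw [Fin.val_succ] at hic
      exact hb2 i c (by
        rw [Fin.lt_def]
        omega)

theorem gauss (k : ℕ) : ∑ c : Fin k, (c.val + 1) = k * (k + 1) / 2 := by
  rw [Fin.sum_univ_eq_sum_range (fun c => c + 1) k]
  have h := Finset.sum_range_id (k + 1)
  rw [Finset.sum_range_succ'] at h
  rw [Nat.add_sub_cancel, add_zero, mul_comm] at h
  exact h

end ALG_

open ALG_ in
theorem alg_proof (hjac : Stmt_JAC) (hacl : Stmt_ACL) (hlin : Stmt_LIN) (hdim : Stmt_DIM) :
    Stmt_ALG := by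
  intro V _ k p _hk hp R W hR hW hcl q hq
  -- the base points
  obtain ⟨W0, hW0, hW0c⟩ := exists_subset_card_eq hW
  obtain ⟨w, hw, hwi⟩ : ∃ w : Fin (k + 1) → V, (∀ j, w j ∈ W) ∧ Function.Injective w := by
    have e := W0.equivFinOfCardEq hW0c
    exact ⟨fun j => (e.symm j).1, fun j => hW0 (e.symm j).2,
      fun i j h => e.symm.injective (Subtype.ext h)⟩
  obtain ⟨q', hq', hz⟩ := normal q w
  refine ⟨q', hq', ?_⟩
  -- a basis
  obtain ⟨B0, hB0, hB0i, hB0m⟩ := (hlin V k p (univ \ W) (sub R W) ∅).2.2.2.1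
  have hcard := (hlin V k p (univ \ W) B0 ∅).2.2.2.2.1.mp hB0i
  rw [hB0m] at hcard
  have hd := hdim V k p hp (sub R W) W hW hcl
  have huW : (univ \ (univ \ W) : Finset V) = W := by
    ext v
    simp
  rw [huW] at hcard
  -- the other coordinates
  obtain ⟨Z, hZ⟩ : ∃ Z : Finset (V × Fin k),
    Z = (univ : Finset (Σ c : Fin k, Fin (c.val + 1))).image
      (fun x => (w ⟨x.2.val, by omega⟩, x.1)) := ⟨_, rfl⟩
  have hZc : Z.card = k * (k + 1) / 2 := by
    rw [hZ, card_image_of_injective, card_univ, Fintype.card_sigma]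
    · rw [← gauss k]
      refine Finset.sum_congr rfl (fun c _ => ?_)
      simp
    · rintro ⟨c, j⟩ ⟨c', j'⟩ h
      simp only [Prod.mk.injEq] at h
      obtain ⟨h1, h2⟩ := h
      subst h2
      have h3 := hwi h1
      have h4 : j = j' := Fin.ext (by simpa using congrArg Fin.val h3)
      rw [h4]
  have hZW : Z ⊆ W ×ˢ (univ : Finset (Fin k)) := by
    intro x hx
    rw [hZ] at hx
    obtain ⟨y, _, rfl⟩ := mem_image.mp hx
    exact mem_product.mpr ⟨hw _, mem_univ _⟩
  obtain ⟨T, hT⟩ : ∃ T : Finset ℝ, T = ((W ×ˢ (univ : Finset (Fin k))) \ Z).image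
    (fun x => q' x.1 x.2) := ⟨_, rfl⟩
  have hTc : T.card ≤ B0.card := by
    rw [hT]
    refine card_image_le.trans ?_
    rw [card_sdiff_of_subset hZW, card_product, card_univ, Fintype.card_fin, hZc]
    rw [mul_comm] at hcard
    omega
  have hTW : ∀ v ∈ W, ∀ c, q' v c ∈ (T : Set ℝ) ∨ q' v c = 0 := by
    intro v hv c
    by_cases h : (v, c) ∈ Z
    · right
      rw [hZ] at h
      obtain ⟨y, _, hy⟩ := mem_image.mp h
      simp only [Prod.mk.injEq] at hy
      obtain ⟨h1, h2⟩ := hy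
      rw [← h1]
      exact hz _ _ (by
        rw [← h2]
        have := y.2.isLt
        simp only
        omega)
    · left
      rw [hT]
      exact mem_coe.mpr (mem_image.mpr ⟨(v, c), mem_sdiff.mpr ⟨mem_product.mpr ⟨hv, mem_univ _⟩, h⟩,
        rfl⟩)
  have hTa : ∀ v ∈ W, ∀ c, q' v c ∈ acl (T : Set ℝ) := by
    intro v hv c
    rcases hTW v hv c with h | h
    · exact (hacl T).1 h
    · rw [h]
      exact (aclF hacl T).zero_mem
  -- the lengths
  obtain ⟨ι⟩ : Nonempty (Fin B0.card ≃ {e : Sym2 V // e ∈ B0}) :=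
    ⟨(B0.equivFin).symm⟩
  have hB0R : B0 ⊆ pairs V := fun e he => hR ((mem_sub _ _ _).mp (hB0 he)).1
  have hB0W : ∀ e ∈ B0, ∀ i ∈ e, i ∈ W := fun e he => ((mem_sub _ _ _).mp (hB0 he)).2
  have hjac2 := hjac V k p hp (univ \ W) B0 hB0R hB0i
  have hind : AlgebraicIndependent ℚ (fun i : Fin B0.card => len p (ι i).1) :=
    hjac2.comp (fun i => Sum.inr (ι i)) (Sum.inr_injective.comp ι.injective)
  have hr1 : Set.range (fun i : Fin B0.card => len p (ι i).1) ⊆ acl (T : Set ℝ) := by
    rintro _ ⟨i, rfl⟩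
    simp only
    rw [← hq _ (hB0 (ι i).2), ← hq']
    exact len_mem hacl T q' W hTa _ (hB0W _ (ι i).2)
  have hr2 : Set.range (fun i : Fin B0.card => len p (ι i).1) ⊆ acl (crd p W) := by
    rintro _ ⟨i, rfl⟩
    exact len_mem hacl _ p W (fun v hv c => (hacl (crd p W)).1 ⟨v, hv, c, rfl⟩) _ (hB0W _ (ι i).2)
  have hT1 : (T : Set ℝ) ⊆ acl (Set.range (fun i : Fin B0.card => len p (ι i).1)) :=
    (hacl T).2.2.2.2.2 _ _ hind hr1 (by
      rw [Set.encard_coe_eq_coe_finsetCard]
      exact_mod_cast hTc)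
  have hT2 : acl (Set.range (fun i : Fin B0.card => len p (ι i).1)) ⊆ acl (crd p W) :=
    (hacl _).2.1 _ hr2
  intro v hv c
  rcases hTW v hv c with h | h
  · exact hT2 (hT1 h)
  · rw [h]
    exact (aclF hacl _).zero_mem

end Pool.Agent.GRR
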