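import Pool.Agent.GRR.Stmts

/-!
# GRR, module AVO: finitely many nonzero affine functionals have a common non-zero
-/

set_option autoImplicit false
open Finset
open scoped Classical

namespace Pool.Agent.GRR

namespace AVO_

theorem subs {a b t₀ : ℝ} (h : a + t₀ * b ≠ 0) : {t : ℝ | a + t * b = 0}.Finite := by
  apply Set.Subsingleton.finite
  intro s hs t ht
  simp only [Set.mem_setOf_eq] at hs ht
  by_contra hne
  have h1 : (s - t) * b = 0 := by linear_combination hs - ht
  rcases mul_eq_zero.mp h1 with h2 | h2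
  · exact hne (by linarith)
  · apply h
    rw [h2] at hs ⊢
    linarith

theorem main (E : Type) [AddCommGroup E] [Module ℝ E] (ι : Type) (f : ι → E → ℝ)
    (hf : ∀ i, ∃ (g : E →ₗ[ℝ] ℝ) (c : ℝ), (∀ x, f i x = g x + c) ∧ ∃ x, f i x ≠ 0)
    (s : Finset ι) : ∃ x : E, ∀ i ∈ s, f i x ≠ 0 := by
  have line : ∀ (i : ι) (x y : E) (t : ℝ), f i (x + t • (y - x)) = f i x + t * (f i y - f i x) := by
    intro i x y t
    obtain ⟨g, c, hg, -⟩ := hf i
    rw [hg, hg, hg, map_add, map_smul, map_sub, smul_eq_mul]
    ring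
  induction s using Finset.induction_on with
  | empty => exact ⟨0, fun i hi => absurd hi (Finset.notMem_empty i)⟩
  | insert i s _ ih =>
    obtain ⟨x, hx⟩ := ih
    obtain ⟨-, -, -, y, hy⟩ := hf i
    have hfin : (⋃ j ∈ insert i s, {t : ℝ | f j x + t * (f j y - f j x) = 0}).Finite := by
      apply Set.Finite.biUnion (Finset.finite_toSet _)
      intro j hj
      rcases Finset.mem_insert.mp (Finset.mem_coe.mp hj) with h | h
      · subst h
        apply subs (t₀ := 1)
        intro h0
        apply hy
        linarith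
      · apply subs (t₀ := 0)
        intro h0
        apply hx j h
        linarith
    obtain ⟨t, ht⟩ := hfin.infinite_compl.nonempty
    refine ⟨x + t • (y - x), fun j hj h0 => ht ?_⟩
    rw [line] at h0
    simp only [Set.mem_iUnion]
    exact ⟨j, hj, h0⟩

end AVO_

theorem avo_proof : Stmt_AVO := by
  intro E _ _ ι _ f hf
  obtain ⟨x, hx⟩ := AVO_.main E ι f hf Finset.univ
  exact ⟨x, fun i => hx i (Finset.mem_univ i)⟩

end Pool.Agent.GRR
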