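import Pool.Agent.GRR.Stmts

/-!
# GRR, module BAS : exchange
-/

set_option autoImplicit false

open Finset
open scoped Classical

namespace Pool.Agent.GRR

namespace BAS_

variable {V : Type} [Fintype V] {k : ℕ}

/-- `ell` as a linear map in the motion -/
def ellL (p : V → Fin k → ℝ) (e : Sym2 V) : (V → Fin k → ℝ) →ₗ[ℝ] ℝ where
  toFun X := ell p X e
  map_add' X Y := ell_add p X Y e
  map_smul' a X := by simp [ell_smul]

/-- the values on the edges of `E`, for motions of `H` -/
noncomputable def L (p : V → Fin k → ℝ) (H E : Finset (Sym2 V)) :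
    Mot p ∅ H →ₗ[ℝ] ({e // e ∈ E} → ℝ) :=
  LinearMap.pi (fun e => (ellL p e.1).comp (Mot p ∅ H).subtype)

theorem L_apply (p : V → Fin k → ℝ) (H E : Finset (Sym2 V)) (X : Mot p ∅ H) (e : {e // e ∈ E}) :
    L p H E X e = ell p X.1 e.1 := rfl

theorem L_surj (p : V → Fin k → ℝ) (H E : Finset (Sym2 V))
    (h : ∀ e ∈ E, ¬ Cl p (H ∪ E.erase e) e) : LinearMap.range (L p H E) = ⊤ := by
  by_contra hne
  obtain ⟨f, hf0, hf⟩ := Submodule.exists_le_ker_of_lt_top _ (lt_top_iff_ne_top.mpr hne)
  obtain ⟨e0, he0⟩ : ∃ e0 : {e // e ∈ E}, f (Pi.single e0 1) ≠ 0 := by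
    by_contra hall
    push Not at hall
    apply hf0
    apply LinearMap.pi_ext'
    intro i
    apply LinearMap.ext_ring
    simpa using hall i
  apply h e0.1 e0.2
  intro X hX
  have hXH : X ∈ Mot p ∅ H := Mot_mono p (subset_refl _) Finset.subset_union_left hX
  have h1 : L p H E ⟨X, hXH⟩ = ell p X e0.1 • Pi.single e0 (1 : ℝ) := by
    funext e
    rw [L_apply]
    by_cases hee : e = e0
    · subst hee
      simp
    · rw [Pi.smul_apply, Pi.single_eq_of_ne hee, smul_zero]
      apply hX.2
      apply Finset.mem_union_right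
      rw [Finset.mem_erase]
      exact ⟨fun hc => hee (Subtype.ext hc), e.2⟩
  have h2 : f (L p H E ⟨X, hXH⟩) = 0 := LinearMap.mem_ker.mp (hf ⟨_, rfl⟩)
  rw [h1, map_smul, smul_eq_mul] at h2
  exact (mul_eq_zero.mp h2).resolve_right he0

theorem card_le (p : V → Fin k → ℝ) (H S E : Finset (Sym2 V))
    (h : ∀ e ∈ E, ¬ Cl p (H ∪ E.erase e) e) (hS : ∀ e ∈ E, Cl p (H ∪ S) e) :
    E.card ≤ S.card := by
  have h1 := LinearMap.finrank_range_add_finrank_ker (L p H E)
  have h2 := LinearMap.finrank_range_add_finrank_ker (L p H S)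
  have h3 : Module.finrank ℝ (LinearMap.range (L p H E)) = E.card := by
    rw [L_surj p H E h, finrank_top, Module.finrank_fintype_fun_eq_card, Fintype.card_coe]
  have h4 : Module.finrank ℝ (LinearMap.range (L p H S)) ≤ S.card := by
    refine (Submodule.finrank_le _).trans ?_
    rw [Module.finrank_fintype_fun_eq_card, Fintype.card_coe]
  have h5 : LinearMap.ker (L p H S) ≤ LinearMap.ker (L p H E) := by
    intro X hX
    rw [LinearMap.mem_ker] at hX ⊢
    funext e
    rw [L_apply]
    apply hS e.1 e.2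
    refine ⟨fun i hi => absurd hi (Finset.notMem_empty i), fun f hf => ?_⟩
    rcases Finset.mem_union.mp hf with hf | hf
    · exact X.2.2 f hf
    · have := congrFun hX ⟨f, hf⟩
      rw [L_apply] at this
      exact this
  have h6 := Submodule.finrank_mono h5
  omega

end BAS_

theorem bas_proof : Stmt_BAS := by
  intro V _ k p H S F hF
  obtain ⟨F', hF', hmin⟩ := Finset.exists_min_image
    (F.powerset.filter (fun E => ∀ e ∈ F, Cl p (H ∪ E) e)) Finset.card
    ⟨F, Finset.mem_filter.mpr ⟨Finset.mem_powerset_self F, fun e he =>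
      Cl_of_mem (Finset.mem_union_right _ he)⟩⟩
  rw [Finset.mem_filter, Finset.mem_powerset] at hF'
  refine ⟨F', hF'.1, ?_, hF'.2⟩
  apply BAS_.card_le p H S F'
  · intro e he hcl
    have h1 : F'.erase e ∈ F.powerset.filter (fun E => ∀ e ∈ F, Cl p (H ∪ E) e) := by
      rw [Finset.mem_filter, Finset.mem_powerset]
      refine ⟨(Finset.erase_subset _ _).trans hF'.1, fun f hf => ?_⟩
      refine Cl_trans (H := H ∪ F') (fun g hg => ?_) (hF'.2 f hf)
      rcases Finset.mem_union.mp hg with hg | hg
      · exact Cl_of_mem (Finset.mem_union_left _ hg)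
      · by_cases hge : g = e
        · rw [hge]
          exact hcl
        · exact Cl_of_mem (Finset.mem_union_right _ (Finset.mem_erase.mpr ⟨hge, hg⟩))
    have h2 := hmin _ h1
    have h3 := Finset.card_erase_lt_of_mem he
    omega
  · intro e he
    exact hF e (hF'.1 he)

end Pool.Agent.GRR
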