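import Pool.Agent.GRR.Stmts

set_option autoImplicit false

open Finset
open scoped Classical

namespace Pool.Agent.GRR

namespace BDA_

variable {V : Type} [Fintype V] {k : ℕ}

lemma sub_plus {J : ℕ} (G : Finset (Sym2 V)) (f : Fin J → Sym2 V) : G ⊆ plus G f := by
  intro e he
  simp [plus, he]

lemma mem_plus {J : ℕ} (G : Finset (Sym2 V)) (f : Fin J → Sym2 V) (l : Fin J) :
    f l ∈ plus G f := by simp [plus]

lemma pairs_card_le : ((pairs V).card : ℝ) ≤ (Fintype.card V : ℝ) ^ 2 := by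
  have h1 : (pairs V).card ≤ Fintype.card V * Fintype.card V := by
    have h2 : (pairs V) ⊆ (univ : Finset (V × V)).image (fun x => s(x.1, x.2)) := by
      intro e _
      induction e with
      | h i j => exact mem_image.2 ⟨(i, j), mem_univ _, rfl⟩
    calc (pairs V).card ≤ _ := Finset.card_le_card h2
      _ ≤ (univ : Finset (V × V)).card := Finset.card_image_le
      _ = Fintype.card V * Fintype.card V := by rw [Finset.card_univ, Fintype.card_prod]
  have : ((pairs V).card : ℝ) ≤ ((Fintype.card V * Fintype.card V : ℕ) : ℝ) := by exact_mod_cast h1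
  push_cast at this
  nlinarith

/-- a one dimensional vertex is stopped by a bar that is not in the closure -/
lemma vanish (M : Submodule ℝ (V → Fin k → ℝ)) (w : V) (h1 : Module.finrank ℝ (Uat M w) = 1)
    (d : Fin k → ℝ) (Y : V → Fin k → ℝ) (hY : Y ∈ M) (hd : dot d (Y w) ≠ 0)
    (X : V → Fin k → ℝ) (hX : X ∈ M) (hX0 : dot d (X w) = 0) : X w = 0 := by
  have hY' : Y w ∈ Uat M w := ⟨Y, hY, rfl⟩
  have hX' : X w ∈ Uat M w := ⟨X, hX, rfl⟩
  have hne : (⟨Y w, hY'⟩ : Uat M w) ≠ 0 := by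
    intro h
    have h0 : Y w = 0 := congrArg Subtype.val h
    rw [h0, dot_zero] at hd
    exact hd rfl
  obtain ⟨c, hc⟩ := (finrank_eq_one_iff_of_nonzero' (⟨Y w, hY'⟩ : Uat M w) hne).1 h1 ⟨X w, hX'⟩
  have hc' : c • Y w = X w := congrArg Subtype.val hc
  rw [← hc', dot_smul] at hX0
  rcases mul_eq_zero.1 hX0 with h | h
  · rw [← hc', h, zero_smul]
  · exact absurd h hd

/-- counting -/
lemma count (i : ℕ) (Qs : Finset V) (Fam : Finset (Finset V)) (hFam : ∀ I ∈ Fam, I.card = i)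
    (hdis : ∀ I ∈ Fam, ∀ u ∈ I, u ∉ Qs) (gd : V → Finset V) (hgd : ∀ u, gd u ⊆ Qs) (m : ℕ)
    (hm : ∀ I ∈ Fam, ∀ u ∈ I, m ≤ (gd u).card) (P : (Fin i → Sym2 V) → Prop)
    (hP : ∀ I ∈ Fam, ∀ w q : Fin i → V, (∀ u ∈ I, ∃ l, w l = u) → (∀ l, w l ∈ I) →
      (∀ l, q l ∈ gd (w l)) → P (fun l => s(w l, q l))) :
    Fam.card * m ^ i ≤ ((seqs i (pairs V)).filter P).card := by
  have hex : ∀ I ∈ Fam, ∃ w : Fin i → V, (∀ l, w l ∈ I) ∧ (∀ u ∈ I, ∃ l, w l = u) := by
    intro I hI
    let e := I.equivFinOfCardEq (hFam I hI)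
    refine ⟨fun l => (e.symm l : V), fun l => (e.symm l).2, fun u hu => ⟨e ⟨u, hu⟩, ?_⟩⟩
    simp
  choose en hen1 hen2 using hex
  set T : Finset (Σ _ : {I // I ∈ Fam}, (Fin i → V)) :=
    (univ : Finset {I // I ∈ Fam}).sigma
      (fun I => Fintype.piFinset (fun l => gd (en I.1 I.2 l))) with hT
  have hcT : Fam.card * m ^ i ≤ T.card := by
    rw [hT, Finset.card_sigma]
    calc Fam.card * m ^ i = ∑ _I : {I // I ∈ Fam}, m ^ i := by
          rw [Finset.sum_const, smul_eq_mul, Finset.card_univ, Fintype.card_coe]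
      _ ≤ _ := by
        refine Finset.sum_le_sum (fun I _ => ?_)
        rw [Fintype.card_piFinset]
        calc m ^ i = ∏ _l : Fin i, m := by simp
          _ ≤ _ := Finset.prod_le_prod' (fun l _ => hm I.1 I.2 _ (hen1 I.1 I.2 l))
  refine hcT.trans ?_
  refine Finset.card_le_card_of_injOn (fun x => fun l => s(en x.1.1 x.1.2 l, x.2 l)) ?_ ?_
  · intro x hx
    rw [mem_coe, hT, mem_sigma, Fintype.mem_piFinset] at hx
    simp only [coe_filter, Set.mem_setOf_eq]
    refine ⟨?_, hP x.1.1 x.1.2 _ _ (hen2 x.1.1 x.1.2) (hen1 x.1.1 x.1.2) hx.2⟩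
    unfold seqs
    rw [Fintype.mem_piFinset]
    intro l
    rw [mem_pairs, Sym2.mk_isDiag_iff]
    intro h
    exact hdis x.1.1 x.1.2 _ (hen1 x.1.1 x.1.2 l) (h ▸ hgd _ (hx.2 l))
  · intro x hx y hy h
    rw [mem_coe, hT, mem_sigma, Fintype.mem_piFinset] at hx hy
    have key : ∀ l, en x.1.1 x.1.2 l = en y.1.1 y.1.2 l ∧ x.2 l = y.2 l := by
      intro l
      have hl : s(en x.1.1 x.1.2 l, x.2 l) = s(en y.1.1 y.1.2 l, y.2 l) := congrFun h l
      rw [Sym2.eq_iff] at hl
      rcases hl with hl | ⟨h1, _⟩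
      · exact hl
      · exact absurd (h1 ▸ hgd _ (hy.2 l)) (hdis x.1.1 x.1.2 _ (hen1 x.1.1 x.1.2 l))
    have hI : x.1 = y.1 := by
      apply Subtype.ext
      ext u
      constructor
      · intro hu
        obtain ⟨l, hl⟩ := hen2 x.1.1 x.1.2 u hu
        rw [← hl, (key l).1]
        exact hen1 y.1.1 y.1.2 l
      · intro hu
        obtain ⟨l, hl⟩ := hen2 y.1.1 y.1.2 u hu
        rw [← hl, ← (key l).1]
        exact hen1 x.1.1 x.1.2 l
    exact Sigma.ext hI (heq_of_eq (funext fun l => (key l).2))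

end BDA_

open BDA_ in
theorem bda_proof (h1 : Stmt_FRZ) (_h2 : Stmt_STA) : Stmt_BDA := by
  intro k i γ ε hk hγ hε
  refine ⟨ε * (γ / 2) ^ i, ε, by positivity, hε, ⌈2 * (k + 1) / γ⌉₊ + 1, ?_⟩
  intro V _ p hp hn G g hG hg hU hF
  set n := Fintype.card V with hnd
  have hh : (k + 1 : ℝ) ≤ γ * n / 2 := by
    have e1 : 2 * ((k : ℝ) + 1) / γ ≤ (⌈2 * ((k : ℝ) + 1) / γ⌉₊ : ℝ) := Nat.le_ceil _
    have e2 : ((⌈2 * ((k : ℝ) + 1) / γ⌉₊ + 1 : ℕ) : ℝ) ≤ n := by exact_mod_cast hn
    push_cast at e2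
    have e3 : 2 * ((k : ℝ) + 1) / γ ≤ n := by linarith
    rw [div_le_iff₀ hγ] at e3
    linarith
  have hk0 : (0 : ℝ) ≤ k := Nat.cast_nonneg k
  have hnpos : (0 : ℝ) < n := by
    by_contra hc
    have : (n : ℝ) ≤ 0 := not_lt.mp hc
    have h0 : γ * n / 2 ≤ 0 := by nlinarith
    linarith
  have hgk : k + 1 ≤ g := by
    have : (k + 1 : ℝ) ≤ g := by nlinarith
    exact_mod_cast this
  set Fam : Finset (Finset V) := (powersetCard i (univ : Finset V)).filter (fun I =>
        ε * n ≤ ((univ.filter (fun z => DetOne p g G I z)).card : ℝ)) with hFam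
  have hdet : ∀ I ∈ Fam, ∃ z, DetOne p g G I z := by
    intro I hI
    rw [hFam, mem_filter] at hI
    have h3 : 0 < ε * n := by positivity
    have h4 : (0 : ℝ) < ((univ.filter (fun z => DetOne p g G I z)).card : ℝ) := h3.trans_le hI.2
    have h5 : 0 < (univ.filter (fun z => DetOne p g G I z)).card := by exact_mod_cast h4
    obtain ⟨z, hz⟩ := Finset.card_pos.1 h5
    exact ⟨z, (mem_filter.1 hz).2⟩
  have hFne : Fam.Nonempty := by
    rw [← Finset.card_pos]
    have h3 : 0 < ε * (n : ℝ) ^ i := by positivity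
    have h4 : (0 : ℝ) < (Fam.card : ℝ) := h3.trans_le hF
    exact_mod_cast h4
  -- the giant clique
  obtain ⟨Qs, hQs, hQc⟩ := exists_mcl p G
  have hgm : g ≤ Qs.card := by
    obtain ⟨I, hI⟩ := hFne
    obtain ⟨z, Q, hQ, hQcl, _⟩ := hdet I hI
    rw [hQc]
    exact hQ.trans (le_mcl hQcl)
  obtain ⟨f1, f2, f3, f4, f5, _⟩ := h1 V k p hp G Qs (hgk.trans hgm) hQs
  have hfr : fr p Qs G = Qs :=
    (Finset.eq_of_subset_of_card_le f2 (by rw [hQc]; exact le_mcl f3)).symm
  have hstr : ∀ Q : Finset V, g ≤ Q.card → Clq p G Q → Mot p Q G = Mot p Qs G ∧ fr p Q G = Qs := by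
    intro Q hQ hQcl
    have hun := hU Qs Q hgm hQ hQs hQcl
    have hsub : Q ⊆ Qs := by
      have h3 : Qs = Qs ∪ Q := Finset.eq_of_subset_of_card_le subset_union_left
        (by rw [hQc]; exact le_mcl hun)
      intro v hv
      rw [h3]
      exact mem_union_right _ hv
    obtain ⟨_, _, h5, h6⟩ := f4 Q (hgk.trans hQ) hQcl (by
      rw [Finset.inter_eq_right.2 hsub]
      omega)
    exact ⟨h5, h6.trans hfr⟩
  have hone : ∀ I ∈ Fam, ∀ u ∈ I, u ∉ Qs ∧ Module.finrank ℝ (Uat (Mot p Qs G) u) = 1 := by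
    intro I hI u hu
    obtain ⟨z, Q, hQ, hQcl, _, _, h5, _⟩ := hdet I hI
    obtain ⟨h6, h7⟩ := hstr Q hQ hQcl
    have h8 := h5 u hu
    rw [h6, h7] at h8
    exact h8
  have hcount := count i Qs Fam (fun I hI => by
      rw [hFam, mem_filter, mem_powersetCard] at hI
      exact hI.1.2) (fun I hI u hu => (hone I hI u hu).1)
      (fun u => Qs.filter (fun q => ¬ Cl p G s(u, q))) (fun u => filter_subset _ _)
      (Qs.card - k) (fun I hI u hu => by
        have h3 := f5 u (by rw [hfr]; exact (hone I hI u hu).1)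
        have h4 := Finset.card_filter_add_card_filter_not (s := Qs) (fun q => Cl p G s(u, q))
        show Qs.card - k ≤ (Qs.filter (fun q => ¬ Cl p G s(u, q))).card
        omega)
      (fun f => (mcl p G : ℝ) / n + ε ≤ (mcl p (plus G f) : ℝ) / n) (by
      intro I hI w q hw1 hw2 hq
      set f : Fin i → Sym2 V := fun l => s(w l, q l) with hf
      show (mcl p G : ℝ) / n + ε ≤ (mcl p (plus G f) : ℝ) / n
      have hvan : ∀ X ∈ Mot p Qs (plus G f), ∀ u ∈ I, X u = 0 := by
        intro X hX u hu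
        obtain ⟨l, hl⟩ := hw1 u hu
        rw [← hl]
        have hql := hq l
        simp only [mem_filter] at hql
        have hnc : ¬ ∀ X ∈ Mot p Qs G, ell p X s(w l, q l) = 0 := fun h => hql.2 (f1 _ h)
        push Not at hnc
        obtain ⟨Y, hY, hY0⟩ := hnc
        rw [ell_mk, hY.1 _ hql.1, sub_zero] at hY0
        refine vanish (Mot p Qs G) (w l) (hone I hI _ (hw2 l)).2 _ Y hY hY0 X
          (Mot_mono p (subset_refl _) (sub_plus G f) hX) ?_
        have h3 := hX.2 _ (mem_plus G f l)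
        rw [hf] at h3
        simp only [ell_mk] at h3
        rw [hX.1 _ hql.1, sub_zero] at h3
        exact h3
      have hQs' : Clq p (plus G f) Qs := Clq_mono (sub_plus G f) (subset_refl _) hQs
      obtain ⟨_, k2, k3, _⟩ := h1 V k p hp (plus G f) Qs (hgk.trans hgm) hQs'
      have hZ : Qs ∪ univ.filter (fun z => DetOne p g G I z) ⊆ fr p Qs (plus G f) := by
        refine union_subset k2 ?_
        intro z hz
        obtain ⟨Q, hQ, hQcl, _, _, _, h7⟩ := (mem_filter.1 hz).2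
        rw [mem_fr]
        intro X hX
        refine h7 X ?_ (hvan X hX)
        rw [(hstr Q hQ hQcl).1]
        exact Mot_mono p (subset_refl _) (sub_plus G f) hX
      have hdis : Disjoint Qs (univ.filter (fun z => DetOne p g G I z)) := by
        rw [Finset.disjoint_left]
        intro z hz hz'
        obtain ⟨Q, hQ, hQcl, h7, _⟩ := (mem_filter.1 hz').2
        rw [(hstr Q hQ hQcl).2] at h7
        exact h7 hz
      have hc1 := (card_le_card hZ).trans (le_mcl k3)
      rw [Finset.card_union_of_disjoint hdis, hQc] at hc1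
      have hc2 : (mcl p G : ℝ) + ((univ.filter (fun z => DetOne p g G I z)).card : ℝ) ≤
          (mcl p (plus G f) : ℝ) := by exact_mod_cast hc1
      have hc3 : ε * n ≤ ((univ.filter (fun z => DetOne p g G I z)).card : ℝ) := by
        rw [hFam, mem_filter] at hI
        exact hI.2
      rw [div_add' _ _ _ hnpos.ne']
      refine div_le_div_of_nonneg_right ?_ hnpos.le
      linarith)
  have hcast : ((Fam.card * (Qs.card - k) ^ i : ℕ) : ℝ) ≤ (((seqs i (pairs V)).filter (fun f =>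
        (mcl p G : ℝ) / n + ε ≤ (mcl p (plus G f) : ℝ) / n)).card : ℝ) := by
    exact_mod_cast hcount
  refine le_trans ?_ hcast
  push_cast
  have hm : γ * n / 2 ≤ ((Qs.card - k : ℕ) : ℝ) := by
    have h3 : (Qs.card : ℝ) ≤ ((Qs.card - k : ℕ) : ℝ) + k := by
      have : Qs.card ≤ (Qs.card - k) + k := by omega
      exact_mod_cast this
    have h4 : (g : ℝ) ≤ Qs.card := by exact_mod_cast hgm
    linarith
  calc ε * (γ / 2) ^ i * ((pairs V).card : ℝ) ^ i ≤ ε * (γ / 2) ^ i * ((n : ℝ) ^ 2) ^ i := by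
        have := pairs_card_le (V := V)
        gcongr
    _ = (ε * (n : ℝ) ^ i) * (γ * n / 2) ^ i := by
        rw [mul_assoc, mul_assoc, ← mul_pow, ← mul_pow]
        congr 2
        ring
    _ ≤ (Fam.card : ℝ) * ((Qs.card - k : ℕ) : ℝ) ^ i := by
        have h0 : 0 ≤ γ * n / 2 := by positivity
        have h5 : (γ * n / 2) ^ i ≤ ((Qs.card - k : ℕ) : ℝ) ^ i := pow_le_pow_left₀ h0 hm i
        exact mul_le_mul hF h5 (by positivity) (Nat.cast_nonneg _)

end Pool.Agent.GRR
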