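import Pool.Agent.GRR.Stmts

/-!
# BDB (MP_9e2625_co): relations of excess 0 give one dimensional determination
-/

set_option autoImplicit false

open Finset
open scoped Classical

namespace Pool.Agent.GRR

namespace BDB_

lemma mem_Uat {V : Type} {k : ℕ} (M : Submodule ℝ (V → Fin k → ℝ)) {X : V → Fin k → ℝ}
    (hX : X ∈ M) (v : V) : X v ∈ Uat M v :=
  Submodule.mem_map.2 ⟨X, hX, rfl⟩

lemma finrank_one {V : Type} {k : ℕ} (M : Submodule ℝ (V → Fin k → ℝ)) (v : V)
    {X : V → Fin k → ℝ} (hX : X ∈ M) (hv : X v ≠ 0)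
    (h : Module.finrank ℝ (Uat M v) ≤ 1) : Module.finrank ℝ (Uat M v) = 1 := by
  have h0 : 0 < Module.finrank ℝ (Uat M v) := by
    have : Nontrivial (Uat M v) := ⟨⟨⟨X v, mem_Uat M hX v⟩, 0, fun h => hv (by
      have := congrArg Subtype.val h
      simpa using this)⟩⟩
    exact Module.finrank_pos
  omega

end BDB_

open BDB_

theorem bdb_proof : Stmt_BDB := by
  intro V _ k p _ G U g hb
  obtain ⟨Q, hg, hQ, a, ha, ⟨z, hz⟩, hs⟩ := hb
  set M := Mot p Q G with hM
  have h1 : ∀ u ∈ supp M U a, u ∈ U ∧ ∃ X ∈ M, dot (a u) (X u) ≠ 0 := by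
    intro u hu
    simpa [supp] using hu
  have h2 : ∀ u ∈ supp M U a, Module.finrank ℝ (Uat M u) ≤ 1 := by
    intro u hu
    have h3 := Finset.single_le_sum (f := fun u => Module.finrank ℝ (Uat M u) - 1)
      (fun _ _ => Nat.zero_le _) hu
    have h4 : Module.finrank ℝ (Uat M u) - 1 ≤ 0 := h3.trans hs
    omega
  have h5 : ∀ u ∈ supp M U a, ∃ X ∈ M, X u ≠ 0 := by
    intro u hu
    obtain ⟨_, X, hX, h⟩ := h1 u hu
    exact ⟨X, hX, fun h0 => h (by rw [h0, dot_zero])⟩
  have h6 : ∀ u ∈ supp M U a, Module.finrank ℝ (Uat M u) = 1 := by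
    intro u hu
    obtain ⟨X, hX, h⟩ := h5 u hu
    exact finrank_one M u hX h (h2 u hu)
  have h7 : ∀ u ∈ supp M U a, u ∉ fr p Q G := by
    intro u hu h
    obtain ⟨X, hX, h0⟩ := h5 u hu
    exact h0 ((mem_fr p Q G u).1 h X hX)
  refine ⟨z, (h1 z hz).1, (supp M U a).erase z, ?_, Q, hg, hQ, h7 z hz, Finset.notMem_erase _ _,
    fun u hu => ⟨h7 u (Finset.mem_of_mem_erase hu), h6 u (Finset.mem_of_mem_erase hu)⟩, ?_⟩
  · exact Finset.erase_subset_erase _ (Finset.filter_subset _ _)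
  · intro X hX h0
    obtain ⟨_, X', hX', hne⟩ := h1 z hz
    have h8 : dot (a z) (X z) = 0 := by
      have h9 := ha X hX
      rw [Finset.sum_eq_single_of_mem z (h1 z hz).1] at h9
      · exact h9
      · intro u hu huz
        by_cases hsu : u ∈ supp M U a
        · rw [h0 u (Finset.mem_erase.2 ⟨huz, hsu⟩), dot_zero]
        · by_contra hcon
          apply hsu
          simp only [supp, mem_filter]
          exact ⟨hu, X, hX, hcon⟩
    have hv0 : X' z ≠ 0 := fun h => hne (by rw [h, dot_zero])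
    have hnz : (⟨X' z, mem_Uat M hX' z⟩ : Uat M z) ≠ 0 := fun h => hv0 (by
      have := congrArg Subtype.val h
      simpa using this)
    obtain ⟨c, hc⟩ := (finrank_eq_one_iff_of_nonzero' _ hnz).1 (h6 z hz)
      ⟨X z, mem_Uat M hX z⟩
    have hc' : c • X' z = X z := by
      have := congrArg Subtype.val hc
      simpa using this
    rw [← hc', dot_smul] at h8
    rcases mul_eq_zero.1 h8 with h | h
    · rw [← hc', h, zero_smul]
    · exact absurd h hne

end Pool.Agent.GRR
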