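import Pool.Agent.GRR.Stmts

set_option autoImplicit false

open Finset
open scoped Classical

namespace Pool.Agent.GRR

namespace BDS_

lemma Ex_add {α : Type} (π : ℝ) (D : Finset α) (Ψ Φ : Finset α → ℝ) :
    Ex π D (fun G => Ψ G + Φ G) = Ex π D Ψ + Ex π D Φ := by
  unfold Ex
  rw [← Finset.sum_add_distrib]
  exact Finset.sum_congr rfl (fun G _ => mul_add _ _ _)

/-- `SBE` with an arbitrary decidability instance -/
lemma sbe' (hS : Stmt_SBE) {α : Type} [inst : DecidableEq α] {π : ℝ} {D : Finset α} (h0 : 0 < π)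
    (h1 : π ≤ 1) {e : α} (he : e ∈ D) (Ψ : Finset α → ℝ) :
    Ex π D (fun G => Ψ (insert e G)) = π⁻¹ * Ex π D (fun G => if e ∈ G then Ψ G else 0) := by
  have hi : inst = fun a b => Classical.propDecidable (a = b) := Subsingleton.elim _ _
  subst hi
  exact hS α π D h0 h1 e he Ψ

/-- the pointwise inequality coming from tilting -/
lemma pointwise (hT : Stmt_TLT) {V : Type} [Fintype V] {k : ℕ} (p : V → Fin k → ℝ) (hp : Gnr p)
    (G : Finset (Sym2 V)) (U : Finset V) (g s j : ℕ) (γn : ℝ) (hγn : 0 < γn) (hj : U.card = j)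
    (hk : k + 1 ≤ g) (hg : γn / 2 + j * k ≤ g) :
    (if Bad p g (s + 1) G U then (1 : ℝ) else 0) ≤
      (if Bad p g s G U then (1 : ℝ) else 0) + (2 / γn) *
        ∑ u ∈ U, ∑ q ∈ univ.filter (fun q => q ≠ u),
          (if Bad p g s (insert s(u, q) G) U then (1 : ℝ) else 0) := by
  have hnn : ∀ u : V, (0 : ℝ) ≤ ∑ q ∈ univ.filter (fun q => q ≠ u),
      (if Bad p g s (insert s(u, q) G) U then (1 : ℝ) else 0) := by
    intro u
    exact Finset.sum_nonneg (fun q _ => by split_ifs <;> norm_num)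
  have hsum : (0 : ℝ) ≤ ∑ u ∈ U, ∑ q ∈ univ.filter (fun q => q ≠ u),
      (if Bad p g s (insert s(u, q) G) U then (1 : ℝ) else 0) :=
    Finset.sum_nonneg (fun u _ => hnn u)
  have h2 : (0 : ℝ) < 2 / γn := by positivity
  by_cases hb : Bad p g (s + 1) G U
  · rw [if_pos hb]
    rcases hT V k p hp G U g s hk hb with h | ⟨u, hu, h⟩
    · rw [if_pos h]
      have := mul_nonneg h2.le hsum
      linarith
    · have hcard : γn / 2 ≤ ((univ.filter (fun q => q ≠ u ∧
          Bad p g s (insert s(u, q) G) U)).card : ℝ) := by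
        have h' : (g : ℝ) ≤ ((univ.filter (fun q => q ≠ u ∧
          Bad p g s (insert s(u, q) G) U)).card : ℝ) + (U.card : ℝ) * k := by
          exact_mod_cast h
        rw [hj] at h'
        linarith
      have heq : ((univ.filter (fun q => q ≠ u ∧
          Bad p g s (insert s(u, q) G) U)).card : ℝ) = ∑ q ∈ univ.filter (fun q => q ≠ u),
          (if Bad p g s (insert s(u, q) G) U then (1 : ℝ) else 0) := by
        rw [Finset.sum_ite, Finset.sum_const_zero, add_zero, Finset.sum_const, nsmul_eq_mul,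
          mul_one, Finset.filter_filter]
      have hle : ∑ q ∈ univ.filter (fun q => q ≠ u),
          (if Bad p g s (insert s(u, q) G) U then (1 : ℝ) else 0) ≤
          ∑ u ∈ U, ∑ q ∈ univ.filter (fun q => q ≠ u),
          (if Bad p g s (insert s(u, q) G) U then (1 : ℝ) else 0) :=
        Finset.single_le_sum (f := fun u => ∑ q ∈ univ.filter (fun q => q ≠ u),
          (if Bad p g s (insert s(u, q) G) U then (1 : ℝ) else 0)) (fun v _ => hnn v) hu
      have h3 : γn / 2 ≤ ∑ u ∈ U, ∑ q ∈ univ.filter (fun q => q ≠ u),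
          (if Bad p g s (insert s(u, q) G) U then (1 : ℝ) else 0) := by
        rw [heq] at hcard
        exact hcard.trans hle
      have h4 : (1 : ℝ) ≤ (2 / γn) * ∑ u ∈ U, ∑ q ∈ univ.filter (fun q => q ≠ u),
          (if Bad p g s (insert s(u, q) G) U then (1 : ℝ) else 0) := by
        have := mul_le_mul_of_nonneg_left h3 h2.le
        have h5 : 2 / γn * (γn / 2) = 1 := by field_simp
        linarith
      have h6 : (0 : ℝ) ≤ (if Bad p g s G U then (1 : ℝ) else 0) := by split_ifs <;> norm_num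
      linarith
  · rw [if_neg hb]
    have h6 : (0 : ℝ) ≤ (if Bad p g s G U then (1 : ℝ) else 0) := by split_ifs <;> norm_num
    have := mul_nonneg h2.le hsum
    linarith

/-- the bound for one vertex -/
lemma one_vertex (hS : Stmt_SBE) (hD : Stmt_DEG) (hE : Stmt_EXB) {V : Type} [Fintype V] {c : ℝ}
    (hc : 0 < c) (hcn : c ≤ Fintype.card V) (A : Finset (Sym2 V) → Prop) (u : V) (lam : ℝ)
    (hl : 0 < lam) :
    ∑ q ∈ univ.filter (fun q => q ≠ u), Ex (c / Fintype.card V) (pairs V)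
      (fun G => if A (insert s(u, q) G) then (1 : ℝ) else 0) ≤
      (c / Fintype.card V)⁻¹ * (lam * (c ^ 2 + c) +
        lam⁻¹ * Pr (c / Fintype.card V) (pairs V) A) := by
  have hn : (0 : ℝ) < Fintype.card V := lt_of_lt_of_le hc hcn
  have hπ : 0 < c / (Fintype.card V : ℝ) := by positivity
  have hπ1 : c / (Fintype.card V : ℝ) ≤ 1 := by rw [div_le_one hn]; exact hcn
  obtain ⟨_, hmono, _, _, _, _, _, hsumE, hmulE, _⟩ :=
    hE (Sym2 V) (c / Fintype.card V) (pairs V) hπ.le hπ1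
  have h1 : ∀ q ∈ univ.filter (fun q => q ≠ u), Ex (c / Fintype.card V) (pairs V)
      (fun G => if A (insert s(u, q) G) then (1 : ℝ) else 0) =
      (c / Fintype.card V)⁻¹ * Ex (c / Fintype.card V) (pairs V)
        (fun G => if s(u, q) ∈ G then (if A G then (1 : ℝ) else 0) else 0) := by
    intro q hq
    have hq' : q ≠ u := by simpa using hq
    have he : s(u, q) ∈ pairs V := by
      rw [mem_pairs, Sym2.mk_isDiag_iff]
      exact fun h => hq' h.symm
    exact sbe' hS hπ hπ1 he (fun G => if A G then (1 : ℝ) else 0)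
  rw [Finset.sum_congr rfl h1, ← Finset.mul_sum, ← hsumE]
  refine mul_le_mul_of_nonneg_left ?_ (inv_nonneg.2 hπ.le)
  have h2 : Ex (c / Fintype.card V) (pairs V) (fun G => ∑ q ∈ univ.filter (fun q => q ≠ u),
      (if s(u, q) ∈ G then (if A G then (1 : ℝ) else 0) else 0)) ≤
      Ex (c / Fintype.card V) (pairs V) (fun G => lam * ((nbr G u).card : ℝ) ^ 2 +
        lam⁻¹ * (if A G then (1 : ℝ) else 0)) := by
    refine hmono _ _ (fun G _ => ?_)
    have h3 : ∑ q ∈ univ.filter (fun q => q ≠ u),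
        (if s(u, q) ∈ G then (if A G then (1 : ℝ) else 0) else 0) =
        ((nbr G u).card : ℝ) * (if A G then (1 : ℝ) else 0) := by
      rw [Finset.sum_ite, Finset.sum_const_zero, add_zero, Finset.sum_const, nsmul_eq_mul,
        Finset.filter_filter]
      rfl
    rw [h3]
    split_ifs with hA
    · have hx : (0 : ℝ) ≤ ((nbr G u).card : ℝ) := Nat.cast_nonneg _
      have h4 : 0 ≤ lam * ((lam * ((nbr G u).card : ℝ) ^ 2 + lam⁻¹ * 1) -
          ((nbr G u).card : ℝ) * 1) := by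
        have h5 : lam * ((lam * ((nbr G u).card : ℝ) ^ 2 + lam⁻¹ * 1) -
          ((nbr G u).card : ℝ) * 1) = (lam * ((nbr G u).card : ℝ)) ^ 2 -
            (lam * ((nbr G u).card : ℝ)) + 1 := by
          field_simp
          ring
        rw [h5]
        nlinarith [sq_nonneg (lam * ((nbr G u).card : ℝ) - 1 / 2)]
      have h6 := nonneg_of_mul_nonneg_right h4 hl
      linarith
    · have : 0 ≤ lam * ((nbr G u).card : ℝ) ^ 2 := by positivity
      simpa using this
  refine h2.trans ?_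
  rw [Ex_add, hmulE, hmulE]
  have h7 := (hD V c hc hcn).1 u
  have h8 := mul_le_mul_of_nonneg_left h7 hl.le
  unfold Pr
  linarith

/-- the bound for one set -/
lemma one_set (hT : Stmt_TLT) (hS : Stmt_SBE) (hD : Stmt_DEG) (hE : Stmt_EXB)
    {V : Type} [Fintype V] {k : ℕ} (p : V → Fin k → ℝ) (hp : Gnr p) {c : ℝ}
    (hc : 0 < c) (hcn : c ≤ Fintype.card V) (U : Finset V) (g s j : ℕ) (γ : ℝ) (hγ : 0 < γ)
    (hj : U.card = j) (hk : k + 1 ≤ g) (hg : γ * Fintype.card V / 2 + j * k ≤ g) (lam : ℝ)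
    (hl : 0 < lam) :
    Pr (c / Fintype.card V) (pairs V) (fun G => Bad p g (s + 1) G U) ≤
      Pr (c / Fintype.card V) (pairs V) (fun G => Bad p g s G U) +
      2 * j / (γ * c) * (lam * (c ^ 2 + c) +
        lam⁻¹ * Pr (c / Fintype.card V) (pairs V) (fun G => Bad p g s G U)) := by
  have hn : (0 : ℝ) < Fintype.card V := lt_of_lt_of_le hc hcn
  have hπ : 0 < c / (Fintype.card V : ℝ) := by positivity
  have hπ1 : c / (Fintype.card V : ℝ) ≤ 1 := by rw [div_le_one hn]; exact hcn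
  obtain ⟨_, hmono, _, _, _, _, _, hsumE, hmulE, _⟩ :=
    hE (Sym2 V) (c / Fintype.card V) (pairs V) hπ.le hπ1
  have h1 : Pr (c / Fintype.card V) (pairs V) (fun G => Bad p g (s + 1) G U) ≤
      Ex (c / Fintype.card V) (pairs V) (fun G => (if Bad p g s G U then (1 : ℝ) else 0) +
        (2 / (γ * Fintype.card V)) * ∑ u ∈ U, ∑ q ∈ univ.filter (fun q => q ≠ u),
          (if Bad p g s (insert s(u, q) G) U then (1 : ℝ) else 0)) := by
    unfold Pr
    exact hmono _ _ (fun G _ => pointwise hT p hp G U g s j (γ * Fintype.card V) (by positivity)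
      hj hk hg)
  refine h1.trans ?_
  rw [Ex_add, hmulE, hsumE]
  have h2 : ∑ u ∈ U, Ex (c / Fintype.card V) (pairs V) (fun G =>
      ∑ q ∈ univ.filter (fun q => q ≠ u),
          (if Bad p g s (insert s(u, q) G) U then (1 : ℝ) else 0)) ≤
      ∑ _u ∈ U, (c / Fintype.card V)⁻¹ * (lam * (c ^ 2 + c) +
        lam⁻¹ * Pr (c / Fintype.card V) (pairs V) (fun G => Bad p g s G U)) := by
    refine Finset.sum_le_sum (fun u _ => ?_)
    rw [hsumE]
    exact one_vertex hS hD hE hc hcn (fun G => Bad p g s G U) u lam hl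
  rw [Finset.sum_const, nsmul_eq_mul, hj] at h2
  have h3 : (0 : ℝ) ≤ 2 / (γ * Fintype.card V) := by positivity
  have h4 := mul_le_mul_of_nonneg_left h2 h3
  have h5 : 2 / (γ * Fintype.card V) * ((j : ℝ) * ((c / Fintype.card V)⁻¹ * (lam * (c ^ 2 + c) +
        lam⁻¹ * Pr (c / Fintype.card V) (pairs V) (fun G => Bad p g s G U)))) =
      2 * j / (γ * c) * (lam * (c ^ 2 + c) +
        lam⁻¹ * Pr (c / Fintype.card V) (pairs V) (fun G => Bad p g s G U)) := by
    field_simp
  rw [h5] at h4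
  unfold Pr at *
  linarith

end BDS_

open BDS_ in
theorem bds_proof (h1 : Stmt_TLT) (h2 : Stmt_SBE) (h3 : Stmt_DEG) (h4 : Stmt_EXB) : Stmt_BDS := by
  intro s hs k j c γ ε hk hc hγ hε
  set lam : ℝ := ε * γ * c / (6 * (j + 1) * (c ^ 2 + c)) with hlam
  have hlp : 0 < lam := by positivity
  set ε' : ℝ := min (ε / 3) (ε * lam * γ * c / (6 * (j + 1))) with hε'
  have hε'p : 0 < ε' := by
    rw [hε']
    exact lt_min (by positivity) (by positivity)
  obtain ⟨n0, hn0⟩ := hs k j c γ ε' hk hc hγ hε'p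
  refine ⟨max n0 (max ⌈c⌉₊ (max ⌈2 * (j * k : ℝ) / γ⌉₊ ⌈((k : ℝ) + 1) / γ⌉₊)), ?_⟩
  intro V _ p hp hn g hg
  have hn1 : n0 ≤ Fintype.card V := le_trans (le_max_left _ _) hn
  have hn2' : max ⌈c⌉₊ (max ⌈2 * (j * k : ℝ) / γ⌉₊ ⌈((k : ℝ) + 1) / γ⌉₊) ≤ Fintype.card V :=
    le_trans (le_max_right _ _) hn
  have hn2 : c ≤ Fintype.card V :=
    (Nat.le_ceil c).trans (by exact_mod_cast le_trans (le_max_left _ _) hn2')
  have hn3' : max ⌈2 * (j * k : ℝ) / γ⌉₊ ⌈((k : ℝ) + 1) / γ⌉₊ ≤ Fintype.card V :=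
    le_trans (le_max_right _ _) hn2'
  have hn3 : 2 * (j * k : ℝ) / γ ≤ Fintype.card V :=
    (Nat.le_ceil _).trans (by exact_mod_cast le_trans (le_max_left _ _) hn3')
  have hn4 : ((k : ℝ) + 1) / γ ≤ Fintype.card V :=
    (Nat.le_ceil _).trans (by exact_mod_cast le_trans (le_max_right _ _) hn3')
  have hn5 : (0 : ℝ) < Fintype.card V := lt_of_lt_of_le hc hn2
  have hk1 : k + 1 ≤ g := by
    have : ((k : ℝ) + 1) ≤ g := by
      rw [div_le_iff₀ hγ] at hn4
      linarith
    exact_mod_cast this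
  have hg1 : γ * Fintype.card V / 2 + j * k ≤ g := by
    rw [div_le_iff₀ hγ] at hn3
    linarith
  have h5 : ∀ U ∈ powersetCard j (univ : Finset V),
      Pr (c / Fintype.card V) (pairs V) (fun G => Bad p g (s + 1) G U) ≤
      Pr (c / Fintype.card V) (pairs V) (fun G => Bad p g s G U) +
      2 * j / (γ * c) * (lam * (c ^ 2 + c) +
        lam⁻¹ * Pr (c / Fintype.card V) (pairs V) (fun G => Bad p g s G U)) := by
    intro U hU
    exact one_set h1 h2 h3 h4 p hp hc hn2 U g s j γ hγ (mem_powersetCard.1 hU).2 hk1 hg1 lam hlp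
  refine (Finset.sum_le_sum h5).trans ?_
  have h6 := hn0 V p hp hn1 g hg
  set S : ℝ := ∑ U ∈ powersetCard j (univ : Finset V),
    Pr (c / Fintype.card V) (pairs V) (fun G => Bad p g s G U) with hS
  have h7 : ∑ U ∈ powersetCard j (univ : Finset V),
      (Pr (c / Fintype.card V) (pairs V) (fun G => Bad p g s G U) +
      2 * j / (γ * c) * (lam * (c ^ 2 + c) +
        lam⁻¹ * Pr (c / Fintype.card V) (pairs V) (fun G => Bad p g s G U))) =
      S + 2 * j / (γ * c) * (((powersetCard j (univ : Finset V)).card : ℝ) *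
        (lam * (c ^ 2 + c)) + lam⁻¹ * S) := by
    rw [Finset.sum_add_distrib, ← Finset.mul_sum, Finset.sum_add_distrib, Finset.sum_const,
      nsmul_eq_mul, ← Finset.mul_sum]
  rw [h7]
  have h8 : ((powersetCard j (univ : Finset V)).card : ℝ) ≤ (Fintype.card V : ℝ) ^ j := by
    rw [card_powersetCard, card_univ]
    exact_mod_cast Nat.choose_le_pow _ _
  set N : ℝ := (Fintype.card V : ℝ) ^ j with hN
  have hNp : 0 < N := by positivity
  have ha : 0 ≤ 2 * (j : ℝ) / (γ * c) := by positivity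
  have h9 : ((powersetCard j (univ : Finset V)).card : ℝ) * (lam * (c ^ 2 + c)) + lam⁻¹ * S ≤
      N * (lam * (c ^ 2 + c)) + lam⁻¹ * (ε' * N) := by
    have hb : 0 ≤ lam * (c ^ 2 + c) := by positivity
    have h10 := mul_le_mul_of_nonneg_right h8 hb
    have h11 := mul_le_mul_of_nonneg_left h6 (inv_nonneg.2 hlp.le)
    linarith
  have h12 := mul_le_mul_of_nonneg_left h9 ha
  have hj1 : (0 : ℝ) < (j : ℝ) + 1 := by positivity
  have hjj : (j : ℝ) / (j + 1) ≤ 1 := by
    rw [div_le_one hj1]; linarith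
  have h13 : 2 * (j : ℝ) / (γ * c) * (N * (lam * (c ^ 2 + c))) ≤ ε / 3 * N := by
    have : 2 * (j : ℝ) / (γ * c) * (N * (lam * (c ^ 2 + c))) = (ε / 3 * N) * (j / (j + 1)) := by
      rw [hlam]; field_simp; ring
    rw [this]
    exact mul_le_of_le_one_right (by positivity) hjj
  have h14 : 2 * (j : ℝ) / (γ * c) * (lam⁻¹ * (ε' * N)) ≤ ε / 3 * N := by
    have h15 : ε' ≤ ε * lam * γ * c / (6 * (j + 1)) := min_le_right _ _
    have h16 : 2 * (j : ℝ) / (γ * c) * (lam⁻¹ * (ε' * N)) ≤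
        2 * (j : ℝ) / (γ * c) * (lam⁻¹ * ((ε * lam * γ * c / (6 * (j + 1))) * N)) := by
      gcongr
    refine h16.trans ?_
    have : 2 * (j : ℝ) / (γ * c) * (lam⁻¹ * ((ε * lam * γ * c / (6 * (j + 1))) * N)) =
        (ε / 3 * N) * (j / (j + 1)) := by
      field_simp; ring
    rw [this]
    exact mul_le_of_le_one_right (by positivity) hjj
  have h17 : S ≤ ε / 3 * N := h6.trans (by
    have : ε' ≤ ε / 3 := min_le_left _ _
    gcongr)
  have h18 : 2 * (j : ℝ) / (γ * c) * (N * (lam * (c ^ 2 + c)) + lam⁻¹ * (ε' * N)) =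
      2 * (j : ℝ) / (γ * c) * (N * (lam * (c ^ 2 + c))) +
      2 * (j : ℝ) / (γ * c) * (lam⁻¹ * (ε' * N)) := by ring
  rw [h18] at h12
  linarith

end Pool.Agent.GRR
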