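import Pool.Agent.GRR.Stmts

/-!
# BDZ (MP_9e2625_co): relations of excess 0 on random sets are rare
-/

set_option autoImplicit false

open Finset
open scoped Classical

namespace Pool.Agent.GRR

namespace BDZ_

lemma Uni_mono {V : Type} [Fintype V] {k : ℕ} {p : V → Fin k → ℝ} {g g' : ℕ}
    {G : Finset (Sym2 V)} (h : g' ≤ g) (hU : Uni p g' G) : Uni p g G :=
  fun Q R hQ hR => hU Q R (h.trans hQ) (h.trans hR)

lemma mcl_mono {V : Type} [Fintype V] {k : ℕ} {p : V → Fin k → ℝ}
    {G G' : Finset (Sym2 V)} (h : G ⊆ G') : mcl p G ≤ mcl p G' := by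
  obtain ⟨Q, hQ, hc⟩ := exists_mcl p G
  rw [← hc]
  exact le_mcl (Clq_mono h (subset_refl _) hQ)

lemma mcl_le {V : Type} [Fintype V] {k : ℕ} (p : V → Fin k → ℝ)
    (G : Finset (Sym2 V)) : mcl p G ≤ Fintype.card V := by
  obtain ⟨Q, _, hc⟩ := exists_mcl p G
  rw [← hc]
  exact Finset.card_le_univ Q

lemma card_pairs (V : Type) [Fintype V] : (pairs V).card = (Fintype.card V).choose 2 := by
  rw [← Sym2.card_subtype_not_diag, Fintype.card_subtype]
  rfl

lemma card_pairs_real (V : Type) [Fintype V] :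
    ((pairs V).card : ℝ) = (Fintype.card V : ℝ) * ((Fintype.card V : ℝ) - 1) / 2 := by
  rw [card_pairs, Nat.cast_choose_two]

/-- pairs `(I, z)` -/
noncomputable def P {V : Type} [Fintype V] (D : Finset V → V → Prop) (i : ℕ) :
    Finset (Finset V × V) :=
  ((powersetCard i (univ : Finset V)) ×ˢ (univ : Finset V)).filter (fun x => D x.1 x.2)

lemma card_P {V : Type} [Fintype V] (D : Finset V → V → Prop) (i : ℕ) (ε : ℝ)
    (hF : (((powersetCard i (univ : Finset V)).filter (fun I =>
      ε * Fintype.card V ≤ ((univ.filter (fun z => D I z)).card : ℝ))).card : ℝ) ≤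
        ε * (Fintype.card V : ℝ) ^ i) (hε : 0 < ε) :
    ((P D i).card : ℝ) ≤ 2 * ε * (Fintype.card V : ℝ) ^ (i + 1) := by
  set n : ℝ := (Fintype.card V : ℝ) with hn
  have hn0 : 0 ≤ n := Nat.cast_nonneg _
  have h1 : ((P D i).card : ℝ) =
      ∑ I ∈ powersetCard i (univ : Finset V), ((univ.filter (fun z => D I z)).card : ℝ) := by
    unfold P
    rw [Finset.card_filter, Finset.sum_product]
    push_cast
    refine Finset.sum_congr rfl (fun I _ => ?_)
    rw [Finset.card_filter]
    push_cast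
    rfl
  rw [h1]
  have h2 : ∀ I ∈ powersetCard i (univ : Finset V),
      ((univ.filter (fun z => D I z)).card : ℝ) ≤
        (if ε * n ≤ ((univ.filter (fun z => D I z)).card : ℝ) then n else 0) + ε * n := by
    intro I _
    split_ifs with h
    · have : ((univ.filter (fun z => D I z)).card : ℝ) ≤ n := by
        rw [hn]; exact_mod_cast Finset.card_le_univ _
      nlinarith [mul_nonneg hε.le hn0]
    · push Not at h
      linarith
  refine (Finset.sum_le_sum h2).trans ?_
  rw [Finset.sum_add_distrib, ← Finset.sum_filter, Finset.sum_const, Finset.sum_const,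
    nsmul_eq_mul, nsmul_eq_mul, Finset.card_powersetCard, Finset.card_univ]
  have h3 : (((Fintype.card V).choose i : ℕ) : ℝ) ≤ n ^ i := by
    rw [hn]
    exact_mod_cast Nat.choose_le_pow _ _
  have h4 : (((powersetCard i (univ : Finset V)).filter (fun I =>
      ε * n ≤ ((univ.filter (fun z => D I z)).card : ℝ))).card : ℝ) * n ≤ ε * n ^ i * n :=
    mul_le_mul_of_nonneg_right hF hn0
  have h5 : (((Fintype.card V).choose i : ℕ) : ℝ) * (ε * n) ≤ n ^ i * (ε * n) :=
    mul_le_mul_of_nonneg_right h3 (mul_nonneg hε.le hn0)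
  calc _ ≤ ε * n ^ i * n + n ^ i * (ε * n) := add_le_add h4 h5
    _ = 2 * ε * n ^ (i + 1) := by ring

lemma count {V : Type} [Fintype V] (D : Finset V → V → Prop) (j : ℕ) (ε : ℝ) (hε : 0 < ε)
    (B : Finset V → Prop)
    (hB : ∀ U : Finset V, U.card = j → B U → ∃ z ∈ U, ∃ I ⊆ U.erase z, D I z)
    (hF : ∀ i < j, (((powersetCard i (univ : Finset V)).filter (fun I =>
      ε * Fintype.card V ≤ ((univ.filter (fun z => D I z)).card : ℝ))).card : ℝ) ≤
        ε * (Fintype.card V : ℝ) ^ i) :
    (((powersetCard j (univ : Finset V)).filter B).card : ℝ) ≤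
      2 * j * ε * (Fintype.card V : ℝ) ^ j := by
  have hsub : (powersetCard j (univ : Finset V)).filter B ⊆
      (range j).biUnion (fun i => ((P D i) ×ˢ powersetCard (j - 1 - i) (univ : Finset V)).image
        (fun x => insert x.1.2 x.1.1 ∪ x.2)) := by
    intro U hU
    rw [mem_filter, mem_powersetCard_univ] at hU
    obtain ⟨hc, hb⟩ := hU
    obtain ⟨z, hz, I, hI, hD⟩ := hB U hc hb
    have hI1 : I.card ≤ j - 1 := by
      rw [← hc, ← Finset.card_erase_of_mem hz]
      exact Finset.card_le_card hI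
    have hj : 1 ≤ j := by
      rw [← hc]; exact Finset.card_pos.2 ⟨z, hz⟩
    rw [mem_biUnion]
    refine ⟨I.card, mem_range.2 (by omega), ?_⟩
    rw [mem_image]
    refine ⟨((I, z), (U.erase z) \ I), ?_, ?_⟩
    · rw [mem_product]
      refine ⟨?_, ?_⟩
      · unfold P
        rw [mem_filter, mem_product, mem_powersetCard_univ]
        exact ⟨⟨rfl, mem_univ _⟩, hD⟩
      · rw [mem_powersetCard_univ]
        show ((U.erase z) \ I).card = _
        rw [Finset.card_sdiff_of_subset hI, Finset.card_erase_of_mem hz, hc]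
    · show insert z I ∪ ((U.erase z) \ I) = U
      ext w
      rw [mem_union, mem_insert, mem_sdiff, mem_erase]
      constructor
      · rintro ((h | h) | h)
        · rw [h]; exact hz
        · exact Finset.mem_of_mem_erase (hI h)
        · exact h.1.2
      · intro hw
        by_cases h1 : w = z
        · exact Or.inl (Or.inl h1)
        · by_cases h2 : w ∈ I
          · exact Or.inl (Or.inr h2)
          · exact Or.inr ⟨⟨h1, hw⟩, h2⟩
  set n : ℝ := (Fintype.card V : ℝ) with hn
  have hn0 : 0 ≤ n := Nat.cast_nonneg _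
  have h1 : (((powersetCard j (univ : Finset V)).filter B).card : ℝ) ≤
      ∑ i ∈ range j, ((P D i).card : ℝ) * (((Fintype.card V).choose (j - 1 - i) : ℕ) : ℝ) := by
    have := (Finset.card_le_card hsub).trans Finset.card_biUnion_le
    have h2 : ∑ i ∈ range j, (((P D i) ×ˢ powersetCard (j - 1 - i) (univ : Finset V)).image
        (fun x => insert x.1.2 x.1.1 ∪ x.2)).card ≤
        ∑ i ∈ range j, (P D i).card * (Fintype.card V).choose (j - 1 - i) := by
      refine Finset.sum_le_sum (fun i _ => ?_)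
      refine Finset.card_image_le.trans ?_
      rw [Finset.card_product, Finset.card_powersetCard, Finset.card_univ]
    exact_mod_cast this.trans h2
  refine h1.trans ?_
  have h3 : ∀ i ∈ range j,
      ((P D i).card : ℝ) * (((Fintype.card V).choose (j - 1 - i) : ℕ) : ℝ) ≤ 2 * ε * n ^ j := by
    intro i hi
    rw [mem_range] at hi
    have h4 := card_P D i ε (hF i hi) hε
    have h5 : (((Fintype.card V).choose (j - 1 - i) : ℕ) : ℝ) ≤ n ^ (j - 1 - i) := by
      rw [hn]
      exact_mod_cast Nat.choose_le_pow _ _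
    calc _ ≤ (2 * ε * n ^ (i + 1)) * n ^ (j - 1 - i) :=
          mul_le_mul h4 h5 (Nat.cast_nonneg _) (by positivity)
      _ = 2 * ε * (n ^ (i + 1) * n ^ (j - 1 - i)) := by ring
      _ = 2 * ε * n ^ j := by
          rw [← pow_add]
          congr 2
          omega
  refine (Finset.sum_le_sum h3).trans ?_
  rw [Finset.sum_const, card_range, nsmul_eq_mul]
  apply le_of_eq
  ring

lemma Ex_add {α : Type} (π : ℝ) (D : Finset α) (Ψ Φ : Finset α → ℝ) :
    Ex π D (fun G => Ψ G + Φ G) = Ex π D Ψ + Ex π D Φ := by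
  unfold Ex
  rw [← Finset.sum_add_distrib]
  exact Finset.sum_congr rfl (fun G _ => by ring)

lemma large (c δ L : ℝ) (J : ℕ) (hc : 0 < c) (hδ : 0 < δ) (hL : 0 < L) :
    ∃ n0 : ℕ, ∀ (V : Type) [Fintype V], n0 ≤ Fintype.card V →
      J / (L * Real.sqrt (c / Fintype.card V * (pairs V).card)) ≤ δ := by
  set T : ℝ := J / (δ * L) with hT
  have hT0 : 0 ≤ T := by positivity
  obtain ⟨N, hN⟩ := exists_nat_gt (2 * T ^ 2 / c + 2)
  refine ⟨N, fun V _ hV => ?_⟩
  set n : ℝ := (Fintype.card V : ℝ) with hn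
  have hnN : (N : ℝ) ≤ n := by rw [hn]; exact_mod_cast hV
  have h2 : 0 ≤ 2 * T ^ 2 / c := by positivity
  have hn2 : 2 < n := by linarith
  have h3 : c / n * ((pairs V).card : ℝ) = c * (n - 1) / 2 := by
    rw [card_pairs_real, ← hn]
    have : n ≠ 0 := by linarith
    field_simp
  have h4 : T ^ 2 ≤ c * (n - 1) / 2 := by
    have h5 : 2 * T ^ 2 / c ≤ n - 1 := by linarith
    rw [div_le_iff₀ hc] at h5
    linarith
  have h6 : T ≤ Real.sqrt (c / n * ((pairs V).card : ℝ)) := by
    rw [h3]
    exact Real.le_sqrt_of_sq_le h4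
  have h7 : 0 < Real.sqrt (c / n * ((pairs V).card : ℝ)) := by
    rw [h3]
    apply Real.sqrt_pos.2
    have : 0 < n - 1 := by linarith
    positivity
  rw [div_le_iff₀ (mul_pos hL h7)]
  have h8 : (J : ℝ) = T * (δ * L) := by
    rw [hT]
    field_simp
  rw [h8]
  calc T * (δ * L) ≤ Real.sqrt (c / n * ((pairs V).card : ℝ)) * (δ * L) :=
        mul_le_mul_of_nonneg_right h6 (by positivity)
    _ = δ * (L * Real.sqrt (c / n * ((pairs V).card : ℝ))) := by ring

/-- the bad event for sets of size `i` -/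
def Ev {V : Type} [Fintype V] {k : ℕ} (p : V → Fin k → ℝ) (g i : ℕ) (ε : ℝ)
    (G : Finset (Sym2 V)) : Prop :=
  Uni p g G ∧ ε * (Fintype.card V : ℝ) ^ i ≤
      (((powersetCard i (univ : Finset V)).filter (fun I =>
        ε * Fintype.card V ≤ ((univ.filter (fun z => DetOne p g G I z)).card : ℝ))).card : ℝ)

lemma key (hBDA : Stmt_BDA) (hINC : Stmt_INC) (k : ℕ) (c γ ε δ : ℝ) (hk : 1 ≤ k) (hc : 0 < c)
    (hγ : 0 < γ) (hε : 0 < ε) (hδ : 0 < δ) (i : ℕ) :
    ∃ n1 : ℕ, ∀ (V : Type) [Fintype V] (p : V → Fin k → ℝ), Gnr p → n1 ≤ Fintype.card V →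
      ∀ g : ℕ, γ * Fintype.card V ≤ g →
      Pr (c / Fintype.card V) (pairs V) (fun G => Ev p g i ε G) ≤ δ := by
  obtain ⟨θ, κ, hθ, hκ, n0, h0⟩ := hBDA k i γ ε hk hγ hε
  obtain ⟨n1, h1⟩ := large c δ (θ * κ) i hc hδ (mul_pos hθ hκ)
  obtain ⟨n2, h2⟩ := exists_nat_gt c
  refine ⟨max (max n0 n1) (max n2 2), fun V _ p hp hV g hg => ?_⟩
  have hV0 : n0 ≤ Fintype.card V := by omega
  have hV1 : n1 ≤ Fintype.card V := by omega
  have hV2 : n2 ≤ Fintype.card V := by omega
  have hV3 : 2 ≤ Fintype.card V := by omega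
  have hn : (0 : ℝ) < (Fintype.card V : ℝ) := by exact_mod_cast (by omega : 0 < Fintype.card V)
  have hπ0 : 0 < c / (Fintype.card V : ℝ) := div_pos hc hn
  have hπ1 : c / (Fintype.card V : ℝ) ≤ 1 := by
    rw [div_le_one hn]
    have : (n2 : ℝ) ≤ Fintype.card V := by exact_mod_cast hV2
    linarith
  have hne : (pairs V).Nonempty := by
    rw [← Finset.card_pos, card_pairs]
    exact Nat.choose_pos hV3
  refine (hINC (Sym2 V) (c / (Fintype.card V : ℝ)) (pairs V) hπ0 hπ1 hne i
    (fun G => (mcl p G : ℝ) / Fintype.card V) (fun G => Ev p g i ε G) θ κ hθ hκ ?_ ?_ ?_ ?_).trans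
    (h1 V hV1)
  · intro G _
    positivity
  · intro G _
    rw [div_le_one hn]
    exact_mod_cast mcl_le p G
  · intro G G' hG _
    apply div_le_div_of_nonneg_right _ hn.le
    exact_mod_cast mcl_mono hG
  · intro G hG hA
    exact h0 V p hp hV0 G g hG hg hA.1 hA.2

end BDZ_

open BDZ_

theorem bdz_proof (h1 : Stmt_BDB) (h2 : Stmt_BDA) (h3 : Stmt_INC) (h4 : Stmt_UNI)
    (h5 : Stmt_EXB) : Stmt_BDZ := by
  intro k j c γ ε hk hc hγ hε
  set δ : ℝ := ε / (3 * (j + 1)) with hδ
  have hj0 : (0 : ℝ) < (j : ℝ) + 1 := by positivity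
  have hδ0 : 0 < δ := by positivity
  set ε' : ℝ := ε / (6 * (j + 1)) with hε'
  have hε0 : 0 < ε' := by positivity
  choose n1 hn1 using key h2 h3 k c γ ε' δ hk hc hγ hε0 hδ0
  obtain ⟨nU, hnU⟩ := h4 k c γ hk hc hγ (ε / 3) (by positivity)
  obtain ⟨n2, hn2⟩ := exists_nat_gt c
  refine ⟨max (max nU ((range j).sup n1)) (max n2 1), fun V _ p hp hV g hg => ?_⟩
  have hV0 : nU ≤ Fintype.card V := by omega
  have hV1 : (range j).sup n1 ≤ Fintype.card V := by omega
  have hV2 : n2 ≤ Fintype.card V := by omega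
  have hV3 : 1 ≤ Fintype.card V := by omega
  set n : ℝ := (Fintype.card V : ℝ) with hnn
  have hn : (0 : ℝ) < n := by rw [hnn]; exact_mod_cast (by omega : 0 < Fintype.card V)
  have hπ0 : 0 < c / n := div_pos hc hn
  have hπ1 : c / n ≤ 1 := by
    rw [div_le_one hn]
    have : (n2 : ℝ) ≤ n := by rw [hnn]; exact_mod_cast hV2
    linarith
  obtain ⟨E1, E2, -, -, -, -, -, E8, E9, -⟩ := h5 (Sym2 V) (c / n) (pairs V) hπ0.le hπ1
  -- the number of bad sets
  have hs1 : ∑ U ∈ powersetCard j (univ : Finset V),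
      Pr (c / n) (pairs V) (fun G => Bad p g 0 G U) =
      Ex (c / n) (pairs V) (fun G =>
        (((powersetCard j (univ : Finset V)).filter (fun U => Bad p g 0 G U)).card : ℝ)) := by
    have := E8 (Finset V) (powersetCard j (univ : Finset V))
      (fun U G => if Bad p g 0 G U then 1 else 0)
    unfold Pr
    rw [← this]
    congr 1
    funext G
    rw [Finset.card_filter]
    push_cast
    rfl
  rw [hs1]
  -- pointwise bound
  have hs2 : ∀ G ⊆ pairs V,
      (((powersetCard j (univ : Finset V)).filter (fun U => Bad p g 0 G U)).card : ℝ) ≤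
      (n ^ j * (if ¬ Uni p g G then 1 else 0) +
        ∑ i ∈ range j, n ^ j * (if Ev p g i ε' G then 1 else 0)) + (ε / 3 * n ^ j) * 1 := by
    intro G hG
    have hnn0 : 0 ≤ ∑ i ∈ range j, n ^ j * (if Ev p g i ε' G then (1 : ℝ) else 0) :=
      Finset.sum_nonneg (fun i _ => by split_ifs <;> positivity)
    have htriv : (((powersetCard j (univ : Finset V)).filter
        (fun U => Bad p g 0 G U)).card : ℝ) ≤ n ^ j := by
      have : ((powersetCard j (univ : Finset V)).filter (fun U => Bad p g 0 G U)).card ≤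
          (Fintype.card V) ^ j := by
        refine (Finset.card_filter_le _ _).trans ?_
        rw [Finset.card_powersetCard, Finset.card_univ]
        exact Nat.choose_le_pow _ _
      rw [hnn]
      exact_mod_cast this
    have hpos : 0 ≤ ε / 3 * n ^ j * 1 := by positivity
    by_cases hU : Uni p g G
    · by_cases hEv : ∃ i ∈ range j, Ev p g i ε' G
      · obtain ⟨i, hi, hE⟩ := hEv
        have : n ^ j * (if Ev p g i ε' G then (1 : ℝ) else 0) ≤
            ∑ i ∈ range j, n ^ j * (if Ev p g i ε' G then (1 : ℝ) else 0) :=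
          Finset.single_le_sum (f := fun i => n ^ j * (if Ev p g i ε' G then (1 : ℝ) else 0))
            (fun i _ => by split_ifs <;> positivity) hi
        rw [if_pos hE, mul_one] at this
        rw [if_neg (not_not.2 hU), mul_zero, zero_add]
        linarith
      · push Not at hEv
        have hc := count (fun I z => DetOne p g G I z) j ε' hε0 (fun U => Bad p g 0 G U)
          (fun U _ hb => h1 V k p hp G U g hb)
          (fun i hi => by
            have := hEv i (mem_range.2 hi)
            unfold Ev at this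
            by_contra hcon
            push Not at hcon
            exact this ⟨hU, hcon.le⟩)
        have hle : 2 * (j : ℝ) * ε' ≤ ε / 3 := by
          have h6 : 2 * (j : ℝ) * ε' = ε / 3 * (j / (j + 1)) := by
            rw [hε']; field_simp; ring
          rw [h6]
          have : (j : ℝ) / (j + 1) ≤ 1 := by rw [div_le_one hj0]; linarith
          nlinarith
        have h7 : 2 * (j : ℝ) * ε' * n ^ j ≤ ε / 3 * n ^ j :=
          mul_le_mul_of_nonneg_right hle (by positivity)
        have h8 : 0 ≤ n ^ j * (if ¬ Uni p g G then (1 : ℝ) else 0) := by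
          split_ifs <;> positivity
        refine hc.trans (h7.trans ?_)
        linarith
    · rw [if_pos hU, mul_one]
      linarith
  refine (E2 _ _ hs2).trans ?_
  rw [Ex_add, Ex_add, E9, E9, E1, E8]
  have hs3 : Ex (c / n) (pairs V) (fun G => if ¬ Uni p g G then (1 : ℝ) else 0) ≤ ε / 3 := by
    refine le_trans ?_ (hnU V p hp hV0)
    unfold Pr
    refine E2 _ _ (fun G _ => ?_)
    have hge : ⌈γ * (Fintype.card V : ℝ)⌉₊ ≤ g := Nat.ceil_le.2 hg
    by_cases hU : Uni p g G
    · rw [if_neg (not_not.2 hU)]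
      split_ifs <;> norm_num
    · rw [if_pos hU, if_pos (fun h => hU (Uni_mono hge h))]
  have hs4 : ∑ i ∈ range j, Ex (c / n) (pairs V)
      (fun G => n ^ j * (if Ev p g i ε' G then (1 : ℝ) else 0)) ≤ n ^ j * (ε / 3) := by
    have h9 : ∀ i ∈ range j, Ex (c / n) (pairs V)
        (fun G => n ^ j * (if Ev p g i ε' G then (1 : ℝ) else 0)) ≤ n ^ j * δ := by
      intro i hi
      rw [E9]
      refine mul_le_mul_of_nonneg_left ?_ (by positivity)
      exact hn1 i V p hp ((Finset.le_sup hi).trans hV1) g hg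
    refine (Finset.sum_le_sum h9).trans ?_
    rw [Finset.sum_const, card_range, nsmul_eq_mul]
    have h10 : (j : ℝ) * (n ^ j * δ) = n ^ j * (ε / 3) * (j / (j + 1)) := by
      rw [hδ]; field_simp
    rw [h10]
    have h11 : (j : ℝ) / (j + 1) ≤ 1 := by rw [div_le_one hj0]; linarith
    have h12 : 0 ≤ n ^ j * (ε / 3) := by positivity
    nlinarith
  have hs5 : n ^ j * Ex (c / n) (pairs V) (fun G => if ¬ Uni p g G then (1 : ℝ) else 0) ≤
      n ^ j * (ε / 3) := mul_le_mul_of_nonneg_left hs3 (by positivity)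
  calc _ ≤ n ^ j * (ε / 3) + n ^ j * (ε / 3) + ε / 3 * n ^ j * 1 := by
        gcongr
    _ = ε * n ^ j := by ring

end Pool.Agent.GRR
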