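import Pool.Agent.GRR.Stmts

/-!
# GRR: module BIG (the redundant subgraph is empty or large)
-/

set_option autoImplicit false

open Finset
open scoped Classical

namespace Pool.Agent.GRR

namespace BIG_

lemma dart_sum {V : Type} [Fintype V] (G : Finset (Sym2 V)) (hG : G ⊆ pairs V) :
    ∑ i, (nbr G i).card = 2 * G.card := by
  have h1 : ∑ i, (nbr G i).card =
      ((univ : Finset (V × V)).filter (fun x => x.2 ≠ x.1 ∧ s(x.1, x.2) ∈ G)).card := by
    rw [Finset.card_filter, Fintype.sum_prod_type]
    refine Finset.sum_congr rfl (fun i _ => ?_)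
    rw [nbr, Finset.card_filter]
  rw [h1]
  rw [Finset.card_eq_sum_card_fiberwise (f := fun x : V × V => s(x.1, x.2)) (t := G)
    (fun x hx => (Finset.mem_filter.1 hx).2.2)]
  rw [mul_comm, ← smul_eq_mul, ← Finset.sum_const]
  refine Finset.sum_congr rfl (fun f hf => ?_)
  induction f with
  | h i j =>
    have hd : i ≠ j := by
      have := hG hf
      rw [mem_pairs] at this
      simpa using this
    have hfil : ((univ : Finset (V × V)).filter
        (fun x => x.2 ≠ x.1 ∧ s(x.1, x.2) ∈ G)).filter (fun x => s(x.1, x.2) = s(i, j)) =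
        {(i, j), (j, i)} := by
      ext x
      obtain ⟨a, b⟩ := x
      simp only [Finset.mem_filter, Finset.mem_univ, true_and, Finset.mem_insert,
        Finset.mem_singleton, Prod.mk.injEq]
      constructor
      · rintro ⟨-, h2⟩
        rw [Sym2.eq_iff] at h2
        exact h2
      · intro h2
        rcases h2 with ⟨rfl, rfl⟩ | ⟨rfl, rfl⟩
        · exact ⟨⟨Ne.symm hd, hf⟩, rfl⟩
        · refine ⟨⟨hd, ?_⟩, Sym2.eq_swap⟩
          rw [Sym2.eq_swap]; exact hf
    rw [hfil, Finset.card_pair]
    intro h2
    rw [Prod.mk.injEq] at h2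
    exact hd h2.1

end BIG_

theorem big_proof (h1 : Stmt_RDF) : Stmt_BIG := by
  intro V _ k hk p hp s G hG hs hne
  obtain ⟨-, -, hdeg, -, -⟩ := h1 V k p hp G hG
  have hRG : Red p G ⊆ G := fun e he => ((mem_Red p G e).1 he).1
  have hsum := BIG_.dart_sum (Red p G) (hRG.trans hG)
  have hge : 3 * (vts (Red p G)).card ≤ 2 * (Red p G).card := by
    rw [← hsum, mul_comm, ← smul_eq_mul, ← Finset.sum_const]
    refine (Finset.sum_le_sum (fun v hv => ?_)).trans
      (Finset.sum_le_sum_of_subset (Finset.subset_univ _))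
    have := hdeg v hv
    omega
  have hpos : 0 < (Red p G).card := Finset.card_pos.2 hne
  have hlt : s < (vts (Red p G)).card := by
    by_contra hcon
    have h2 := hs (vts (Red p G)) (by omega)
    have h3 : Red p G ⊆ sub G (vts (Red p G)) := by
      intro e he
      rw [mem_sub]
      refine ⟨hRG he, fun i hi => ?_⟩
      rw [mem_vts]
      exact ⟨e, he, hi⟩
    have h4 := Finset.card_le_card h3
    omega
  exact ⟨hlt, by omega⟩

end Pool.Agent.GRR
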