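import Pool.Agent.GRR.Stmts

/-!
# GRR module BIP: large complete bipartite graphs with one side of size `k+1` are rigid
(Bolker-Roth).
-/

set_option autoImplicit false

open Finset
open scoped Classical

namespace Pool.Agent.GRR

namespace BIP_

/-- homogeneous coordinates -/
noncomputable def hat {k : ℕ} (x : Fin k → ℝ) : Fin (k + 1) → ℝ := Fin.cons 1 x

/-- homogeneous coordinates of a velocity -/
noncomputable def hatX {k : ℕ} (x X : Fin k → ℝ) : Fin (k + 1) → ℝ := Fin.cons (-dot x X) X

lemma dot_cons {k : ℕ} (a b : ℝ) (x y : Fin k → ℝ) :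
    dot (Fin.cons a x : Fin (k + 1) → ℝ) (Fin.cons b y) = a * b + dot x y := by
  unfold dot
  rw [Fin.sum_univ_succ]
  simp

lemma hat_pair {k : ℕ} (x y X Y : Fin k → ℝ) :
    dot (x - y) (X - Y) = -(dot (hat x) (hatX y Y) + dot (hat y) (hatX x X)) := by
  unfold hat hatX
  rw [dot_cons, dot_cons, sub_dot, dot_sub, dot_sub]
  ring

lemma hat_self {k : ℕ} (x X : Fin k → ℝ) : dot (hat x) (hatX x X) = 0 := by
  unfold hat hatX
  rw [dot_cons]
  ring

/-- value of the bilinear form with matrix `S` -/
noncomputable def bil {m : ℕ} (S : Fin m → Fin m → ℝ) (u v : Fin m → ℝ) : ℝ :=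
  ∑ d, ∑ e, S d e * u d * v e

lemma bil_add_left {m : ℕ} (S : Fin m → Fin m → ℝ) (u u' v : Fin m → ℝ) :
    bil S (u + u') v = bil S u v + bil S u' v := by
  unfold bil
  rw [← Finset.sum_add_distrib]
  refine Finset.sum_congr rfl fun d _ => ?_
  rw [← Finset.sum_add_distrib]
  refine Finset.sum_congr rfl fun e _ => ?_
  simp only [Pi.add_apply]
  ring

lemma bil_add_right {m : ℕ} (S : Fin m → Fin m → ℝ) (u v v' : Fin m → ℝ) :
    bil S u (v + v') = bil S u v + bil S u v' := by
  unfold bil
  rw [← Finset.sum_add_distrib]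
  refine Finset.sum_congr rfl fun d _ => ?_
  rw [← Finset.sum_add_distrib]
  refine Finset.sum_congr rfl fun e _ => ?_
  simp only [Pi.add_apply]
  ring

lemma bil_single {m : ℕ} (S : Fin m → Fin m → ℝ) (d e : Fin m) :
    bil S (Pi.single d 1) (Pi.single e 1) = S d e := by
  unfold bil
  rw [Finset.sum_eq_single d]
  · rw [Finset.sum_eq_single e]
    · simp
    · intro b _ hb
      simp [Pi.single_eq_of_ne hb]
    · intro h; exact absurd (Finset.mem_univ e) h
  · intro b _ hb
    refine Finset.sum_eq_zero fun c _ => ?_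
    simp [Pi.single_eq_of_ne hb]
  · intro h; exact absurd (Finset.mem_univ d) h

/-- the special points -/
noncomputable def fpt {k : ℕ} (i : Fin (k + 1)) : Fin k → ℝ :=
  Fin.cases 0 (fun c => Pi.single c 1) i

lemma hat_fpt_zero {k : ℕ} : hat ((fpt (0 : Fin (k + 1)) : Fin k → ℝ) + fpt (0 : Fin (k + 1))) =
    Pi.single (0 : Fin (k + 1)) 1 := by
  funext d
  refine Fin.cases ?_ (fun c => ?_) d
  · simp [hat]
  · simp [hat, fpt]

lemma single_succ {k : ℕ} (c : Fin k) :
    (Fin.cons (0 : ℝ) (Pi.single c (1 : ℝ)) : Fin (k + 1) → ℝ) = Pi.single c.succ 1 := by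
  funext d
  refine Fin.cases ?_ (fun e => ?_) d
  · rw [Fin.cons_zero, Pi.single_eq_of_ne (Fin.succ_ne_zero c).symm]
  · rw [Fin.cons_succ]
    by_cases h : e = c
    · subst h; simp
    · rw [Pi.single_eq_of_ne h, Pi.single_eq_of_ne]
      intro h2
      exact h (Fin.succ_injective _ h2)

lemma hat_fpt_one {k : ℕ} (c : Fin k) : hat (fpt c.succ + fpt (0 : Fin (k + 1))) =
    Pi.single (0 : Fin (k + 1)) (1 : ℝ) + Pi.single c.succ 1 := by
  rw [← single_succ]
  funext d
  refine Fin.cases ?_ (fun e => ?_) d
  · simp [hat]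
  · simp [hat, fpt]

lemma hat_fpt_two {k : ℕ} (c d : Fin k) : hat (fpt c.succ + fpt d.succ) =
    Pi.single (0 : Fin (k + 1)) (1 : ℝ) + Pi.single c.succ 1 + Pi.single d.succ 1 := by
  rw [← single_succ, ← single_succ]
  funext e
  refine Fin.cases ?_ (fun e => ?_) e
  · simp [hat]
  · simp [hat, fpt]

/-- a quadratic form vanishing at the special points is alternating -/
lemma skew_of_special {k : ℕ} (S : Fin (k + 1) → Fin (k + 1) → ℝ)
    (h : ∀ i j : Fin (k + 1), bil S (hat (fpt i + fpt j)) (hat (fpt i + fpt j)) = 0) :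
    ∀ d e, S d e + S e d = 0 := by
  have h0 : S 0 0 = 0 := by
    have := h 0 0
    rwa [hat_fpt_zero, bil_single] at this
  have h1 : ∀ c : Fin k, S 0 c.succ + S c.succ 0 + S c.succ c.succ = 0 := by
    intro c
    have := h c.succ 0
    rw [hat_fpt_one] at this
    simp only [bil_add_left, bil_add_right, bil_single] at this
    linarith
  have h2 : ∀ c d : Fin k, (S 0 c.succ + S c.succ 0) + (S 0 d.succ + S d.succ 0) +
      S c.succ c.succ + S d.succ d.succ + (S c.succ d.succ + S d.succ c.succ) = 0 := by
    intro c d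
    have := h c.succ d.succ
    rw [hat_fpt_two] at this
    simp only [bil_add_left, bil_add_right, bil_single] at this
    linarith
  have h3 : ∀ c : Fin k, S c.succ c.succ = 0 := by
    intro c
    have ha := h1 c
    have hb := h2 c c
    linarith
  have h4 : ∀ c : Fin k, S 0 c.succ + S c.succ 0 = 0 := by
    intro c
    have ha := h1 c
    have hb := h3 c
    linarith
  intro d e
  induction d using Fin.cases with
  | zero =>
    induction e using Fin.cases with
    | zero => linarith
    | succ e => exact h4 e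
  | succ d =>
    induction e using Fin.cases with
    | zero => have := h4 d; linarith
    | succ e =>
      have := h2 d e
      have a1 := h4 d
      have a2 := h4 e
      have a3 := h3 d
      have a4 := h3 e
      linarith

/-- the index set of the monomials -/
abbrev Mon (k : ℕ) : Type := {q : Fin (k + 1) × Fin (k + 1) // q.1 ≤ q.2}

lemma sum_mon {k : ℕ} (F : Fin (k + 1) × Fin (k + 1) → ℝ) :
    ∑ q : Mon k, F q.1 = ∑ d, ∑ e, if d ≤ e then F (d, e) else 0 := by
  rw [← Finset.sum_product', ← Finset.sum_filter]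
  rw [← Finset.sum_subtype (p := fun q : Fin (k + 1) × Fin (k + 1) => q.1 ≤ q.2)]
  intro x
  simp

/-- quadratic forms vanishing at a large generic set are alternating -/
lemma skew_of_gen (h1 : Stmt_GEN) {V : Type} [Fintype V] {k : ℕ} {p : V → Fin k → ℝ}
    (hp : Gnr p) (A : Finset V) (hA : (k + 1) * (k + 1) ≤ A.card)
    (K : Fin (k + 1) → Fin (k + 1) → ℝ)
    (hK : ∀ a ∈ A, bil K (hat (p a)) (hat (p a)) = 0) : ∀ d e, K d e + K e d = 0 := by
  have hemb : Nonempty ((Fin (k + 1) × Fin (k + 1)) ↪ A) := by
    apply Function.Embedding.nonempty_of_card_le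
    simpa using hA
  obtain ⟨φ⟩ := hemb
  let a : Fin (k + 1) × Fin (k + 1) → V := fun j => (φ j).1
  have hinj : Function.Injective a := fun i j h => φ.injective (Subtype.ext h)
  let y : V × Fin k → ℝ := fun vc =>
    Function.extend a (fun j : Fin (k + 1) × Fin (k + 1) => (fpt j.1 + fpt j.2 : Fin k → ℝ))
      (fun _ => 0) vc.1 vc.2
  have hy : ∀ j c, y (a j, c) = (fpt j.1 + fpt j.2 : Fin k → ℝ) c := by
    intro j c
    simp only [y]
    rw [hinj.extend_apply]
  let hp' : Fin (k + 1) → (Fin (k + 1) × Fin (k + 1)) → MvPolynomial (V × Fin k) ℚ :=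
    fun d j => (Fin.cons 1 (fun c => MvPolynomial.X (a j, c)) :
      Fin (k + 1) → MvPolynomial (V × Fin k) ℚ) d
  have haev : ∀ (w : V × Fin k → ℝ) (d : Fin (k + 1)) j,
      MvPolynomial.aeval w (hp' d j) = hat (fun c => w (a j, c)) d := by
    intro w d j
    refine Fin.cases ?_ (fun c => ?_) d
    · simp [hp', hat]
    · simp [hp', hat]
  let M : Mon k → (Fin (k + 1) × Fin (k + 1)) → MvPolynomial (V × Fin k) ℚ :=
    fun q j => hp' q.1.1 j * hp' q.1.2 j
  have hM : ∀ (w : V × Fin k → ℝ) (g : Mon k → ℝ) j,
      (∑ q, g q • (fun j => MvPolynomial.aeval w (M q j))) j =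
        ∑ q : Mon k, g q * hat (fun c => w (a j, c)) q.1.1 * hat (fun c => w (a j, c)) q.1.2 := by
    intro w g j
    rw [Finset.sum_apply]
    refine Finset.sum_congr rfl fun q _ => ?_
    simp only [Pi.smul_apply, smul_eq_mul, M, map_mul, haev]
    ring
  have hli := h1 (V × Fin k) (fun x => p x.1 x.2) y hp (Mon k) (Fin (k + 1) × Fin (k + 1)) M ?_
  · rw [Fintype.linearIndependent_iff] at hli
    have hz := hli (fun q => K q.1.1 q.1.2 + if q.1.1 < q.1.2 then K q.1.2 q.1.1 else 0) ?_
    · intro d e
      rcases lt_trichotomy d e with h | h | h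
      · have := hz ⟨(d, e), h.le⟩
        simpa [h] using this
      · subst h
        have := hz ⟨(d, d), le_refl d⟩
        simp only [lt_irrefl, if_false, add_zero] at this
        rw [this, add_zero]
      · have := hz ⟨(e, d), h.le⟩
        simp only [h, if_true] at this
        linarith
    · funext j
      rw [hM]
      simp only [Pi.zero_apply]
      have hKa := hK (a j) (φ j).2
      refine Eq.trans ?_ hKa
      set x := hat (p (a j)) with hx
      change ∑ q : Mon k, (K q.1.1 q.1.2 + if q.1.1 < q.1.2 then K q.1.2 q.1.1 else 0) *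
        x q.1.1 * x q.1.2 = bil K x x
      rw [sum_mon (fun q => (K q.1 q.2 + if q.1 < q.2 then K q.2 q.1 else 0) * x q.1 * x q.2)]
      have hs : ∑ d, ∑ e, (if d ≤ e then
            (K d e + if d < e then K e d else 0) * x d * x e else 0) =
          ∑ d, ∑ e, (if d ≤ e then K d e * x d * x e else 0) +
            ∑ d, ∑ e, (if d < e then K e d * x d * x e else 0) := by
        rw [← Finset.sum_add_distrib]
        refine Finset.sum_congr rfl fun d _ => ?_
        rw [← Finset.sum_add_distrib]
        refine Finset.sum_congr rfl fun e _ => ?_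
        by_cases h : d < e
        · simp [h, h.le]; ring
        · by_cases h' : d ≤ e
          · simp [h, h']
          · simp [h, h']
      rw [hs, Finset.sum_comm (f := fun d e => if d < e then K e d * x d * x e else 0)]
      unfold bil
      rw [← Finset.sum_add_distrib]
      refine Finset.sum_congr rfl fun d _ => ?_
      rw [← Finset.sum_add_distrib]
      refine Finset.sum_congr rfl fun e _ => ?_
      by_cases h : d ≤ e
      · have h' : ¬ e < d := not_lt.mpr h
        simp [h, h']
      · have h' : e < d := not_le.mp h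
        simp [h, h']; ring
  · rw [Fintype.linearIndependent_iff]
    intro g hg
    let S : Fin (k + 1) → Fin (k + 1) → ℝ := fun d e => if h : d ≤ e then g ⟨(d, e), h⟩ else 0
    have hS : ∀ d e, S d e + S e d = 0 := by
      apply skew_of_special
      intro i j
      have h2 := congrFun hg (i, j)
      rw [hM] at h2
      simp only [Pi.zero_apply] at h2
      have hw : (fun c => y (a (i, j), c)) = (fpt i + fpt j : Fin k → ℝ) := by
        funext c; exact hy (i, j) c
      rw [hw] at h2
      refine Eq.trans ?_ h2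
      set x := hat (fpt i + fpt j : Fin k → ℝ)
      have h3 : ∑ q : Mon k, g q * x q.1.1 * x q.1.2 =
          ∑ q : Mon k, (fun q : Fin (k + 1) × Fin (k + 1) => S q.1 q.2 * x q.1 * x q.2) q.1 := by
        refine Finset.sum_congr rfl fun q _ => ?_
        simp only [S]
        rw [dif_pos q.2]
      rw [h3, sum_mon (fun q : Fin (k + 1) × Fin (k + 1) => S q.1 q.2 * x q.1 * x q.2)]
      unfold bil
      refine Finset.sum_congr rfl fun d _ => ?_
      refine Finset.sum_congr rfl fun e _ => ?_
      by_cases h : d ≤ e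
      · simp [h]
      · simp [S, h]
    intro q
    rcases q with ⟨⟨d, e⟩, h⟩
    have hde := hS d e
    simp only at h
    rcases h.lt_or_eq with h' | h'
    · have : ¬ e ≤ d := not_le.mpr h'
      simp only [S, h, dif_pos, this, dif_neg, not_false_eq_true, add_zero] at hde
      exact hde
    · subst h'
      simp only [S, le_refl, dif_pos] at hde
      linarith

/-- the homogeneous positions of `k+1` generic points determine a vector -/
lemma surj (h2 : Stmt_STA) {V : Type} [Fintype V] {k : ℕ} {p : V → Fin k → ℝ} (hp : Gnr p)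
    (B : Finset V) (hB : B.card = k + 1) :
    (∀ w : Fin (k + 1) → ℝ, (∀ b ∈ B, dot (hat (p b)) w = 0) → w = 0) ∧
    ∀ r : V → ℝ, ∃ w : Fin (k + 1) → ℝ, ∀ b ∈ B, dot (hat (p b)) w = r b := by
  have hinj : ∀ w : Fin (k + 1) → ℝ, (∀ b ∈ B, dot (hat (p b)) w = 0) → w = 0 := by
    intro w hw
    obtain ⟨b0, hb0⟩ : B.Nonempty := Finset.card_pos.mp (by omega)
    have hww : w = Fin.cons (w 0) (fun c => w c.succ) := by
      funext d
      refine Fin.cases ?_ (fun c => ?_) d
      · simp
      · simp
    have hdot : ∀ b, dot (hat (p b)) w = w 0 + dot (p b) (fun c => w c.succ) := by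
      intro b
      conv_lhs => rw [hww]
      unfold hat
      rw [dot_cons, one_mul]
    have hcard : k ≤ (B.erase b0).card := by
      rw [Finset.card_erase_of_mem hb0, hB]
      omega
    have h0 : (fun c => w c.succ) = (0 : Fin k → ℝ) := by
      apply (h2 V k p hp b0 (B.erase b0) (Finset.notMem_erase b0 B)).2 hcard
      intro t ht
      have e1 := hw b0 hb0
      have e2 := hw t (Finset.mem_of_mem_erase ht)
      rw [hdot] at e1 e2
      rw [sub_dot]
      linarith
    have h00 : w 0 = 0 := by
      have e1 := hw b0 hb0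
      rw [hdot, h0, dot_zero, add_zero] at e1
      exact e1
    rw [hww, h0, h00]
    funext d
    refine Fin.cases ?_ (fun c => ?_) d
    · simp
    · simp
  refine ⟨hinj, ?_⟩
  let T : (Fin (k + 1) → ℝ) →ₗ[ℝ] (B → ℝ) :=
    { toFun := fun w b => dot (hat (p b.1)) w
      map_add' := fun w w' => by funext b; exact dot_add _ _ _
      map_smul' := fun c w => by funext b; exact dot_smul _ _ _ }
  have hTinj : Function.Injective T := by
    rw [← LinearMap.ker_eq_bot, LinearMap.ker_eq_bot']
    intro w hw
    exact hinj w fun b hb => congrFun hw ⟨b, hb⟩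
  have hTsurj : Function.Surjective T := by
    rw [← LinearMap.injective_iff_surjective_of_finrank_eq_finrank]
    · exact hTinj
    · simp [hB]
  intro r
  obtain ⟨w, hw⟩ := hTsurj (fun b => r b.1)
  exact ⟨w, fun b hb => congrFun hw ⟨b, hb⟩⟩

end BIP_

open BIP_ in
theorem bip_proof (h1 : Stmt_GEN) (h2 : Stmt_STA) : Stmt_BIP := by
  intro V _ k p hp G A B hdis hA hB hcl
  obtain ⟨hinj, hsurj⟩ := surj h2 hp B hB
  have key : ∀ X ∈ Mot p ∅ G, ∃ K : Fin (k + 1) → Fin (k + 1) → ℝ, (∀ d e, K d e + K e d = 0) ∧
      ∀ v ∈ A ∪ B, hatX (p v) (X v) = fun d => ∑ e, K d e * hat (p v) e := by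
    intro X hX
    -- column `e` of the matrix
    choose L hL using fun e : Fin (k + 1) => hsurj (fun b => -hatX (p b) (X b) e)
    let K : Fin (k + 1) → Fin (k + 1) → ℝ := fun d e => L e d
    have hKb : ∀ b ∈ B, ∀ y : Fin (k + 1) → ℝ,
        dot (hat (p b)) (fun d => ∑ e, K d e * y e) = -dot y (hatX (p b) (X b)) := by
      intro b hb y
      have e1 : dot (hat (p b)) (fun d => ∑ e, K d e * y e) =
          ∑ e, y e * dot (hat (p b)) (L e) := by
        unfold dot
        simp only [Finset.mul_sum]
        rw [Finset.sum_comm]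
        refine Finset.sum_congr rfl fun e _ => ?_
        refine Finset.sum_congr rfl fun d _ => ?_
        simp only [K]
        ring
      rw [e1]
      unfold dot
      rw [← Finset.sum_neg_distrib]
      refine Finset.sum_congr rfl fun e _ => ?_
      have := hL e b hb
      unfold dot at this
      rw [this]
      ring
    have hab : ∀ a ∈ A, ∀ b ∈ B,
        dot (hat (p b)) (hatX (p a) (X a)) = -dot (hat (p a)) (hatX (p b) (X b)) := by
      intro a ha b hb
      have h3 := hcl a ha b hb X hX
      rw [ell_mk, hat_pair] at h3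
      linarith
    have hA' : ∀ a ∈ A, hatX (p a) (X a) = fun d => ∑ e, K d e * hat (p a) e := by
      intro a ha
      rw [← sub_eq_zero]
      apply hinj
      intro b hb
      rw [dot_sub, hab a ha b hb, hKb b hb]
      ring
    have hskew : ∀ d e, K d e + K e d = 0 := by
      apply skew_of_gen h1 hp A hA
      intro a ha
      have h3 := hat_self (p a) (X a)
      rw [hA' a ha] at h3
      rw [← h3]
      unfold bil dot
      refine Finset.sum_congr rfl fun d _ => ?_
      rw [Finset.mul_sum]
      refine Finset.sum_congr rfl fun e _ => ?_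
      ring
    refine ⟨K, hskew, ?_⟩
    intro v hv
    rcases Finset.mem_union.mp hv with hv | hv
    · exact hA' v hv
    · funext d
      have h4 := hKb v hv (Pi.single d 1)
      have e1 : dot (Pi.single d 1 : Fin (k + 1) → ℝ) (hatX (p v) (X v)) =
          hatX (p v) (X v) d := by
        unfold dot
        rw [Finset.sum_eq_single d]
        · simp
        · intro b _ hb; simp [Pi.single_eq_of_ne hb]
        · intro h; exact absurd (Finset.mem_univ d) h
      have e2 : dot (hat (p v)) (fun d' => ∑ e, K d' e * (Pi.single d 1 : Fin (k + 1) → ℝ) e) =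
          ∑ d', hat (p v) d' * K d' d := by
        unfold dot
        refine Finset.sum_congr rfl fun d' _ => ?_
        show hat (p v) d' * (∑ e, K d' e * (Pi.single d 1 : Fin (k + 1) → ℝ) e) =
          hat (p v) d' * K d' d
        rw [Finset.sum_eq_single d]
        · simp
        · intro b _ hb; simp [Pi.single_eq_of_ne hb]
        · intro h; exact absurd (Finset.mem_univ d) h
      rw [e1, e2] at h4
      have h5 : hatX (p v) (X v) d = ∑ e, -(hat (p v) e * K e d) := by
        rw [Finset.sum_neg_distrib]
        linarith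
      rw [h5]
      refine Finset.sum_congr rfl fun e _ => ?_
      have := hskew d e
      have h6 : K d e = -K e d := by linarith
      rw [h6]
      ring
  intro i hi j hj X hX
  obtain ⟨K, hskew, hv⟩ := key X hX
  rw [ell_mk, hat_pair, hv i hi, hv j hj]
  have e1 : dot (hat (p i)) (fun d => ∑ e, K d e * hat (p j) e) =
      ∑ d, ∑ e, K d e * hat (p i) d * hat (p j) e := by
    unfold dot
    refine Finset.sum_congr rfl fun d _ => ?_
    rw [Finset.mul_sum]
    refine Finset.sum_congr rfl fun e _ => ?_
    ring
  have e2 : dot (hat (p j)) (fun d => ∑ e, K d e * hat (p i) e) =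
      ∑ d, ∑ e, -(K d e * hat (p i) d * hat (p j) e) := by
    unfold dot
    rw [Finset.sum_comm]
    refine Finset.sum_congr rfl fun d _ => ?_
    rw [Finset.mul_sum]
    refine Finset.sum_congr rfl fun e _ => ?_
    have := hskew d e
    have h6 : K d e = -K e d := by linarith
    rw [h6]
    ring
  rw [e1, e2]
  simp only [Finset.sum_neg_distrib]
  ring

end Pool.Agent.GRR
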