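import Pool.Agent.GRR.Stmts

/-!
# CLS: classes of vertices
-/

set_option autoImplicit false

open Finset
open scoped Classical

namespace Pool.Agent.GRR

namespace CLS_

lemma card_mem_le_two {V : Type} [Fintype V] (Y : Finset V) (e : Sym2 V) :
    (Y.filter (fun y => y ∈ e)).card ≤ 2 := by
  induction e with
  | h i j =>
    refine le_trans (card_le_card (t := {i, j}) ?_) card_le_two
    intro y hy
    simpa using (mem_filter.1 hy).2

/-- degree count -/
lemma degree_count {V : Type} [Fintype V] (E F : Finset (Sym2 V)) (Y : Finset V) (m : ℕ)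
    (hm : ∀ y ∈ Y, m ≤ (nbr E y).card) (hF : ∀ y ∈ Y, ∀ w ∈ nbr E y, s(y, w) ∈ F) :
    m * Y.card ≤ 2 * F.card := by
  have h1 : ∑ y ∈ Y, (F.filter (fun e => y ∈ e)).card = ∑ e ∈ F, (Y.filter (fun y => y ∈ e)).card := by
    have := Finset.sum_card_bipartiteAbove_eq_sum_card_bipartiteBelow
      (s := Y) (t := F) (fun (y : V) (e : Sym2 V) => y ∈ e)
    simpa [Finset.bipartiteAbove, Finset.bipartiteBelow] using this
  have h2 : ∑ e ∈ F, (Y.filter (fun y => y ∈ e)).card ≤ ∑ e ∈ F, 2 :=
    Finset.sum_le_sum (fun e _ => card_mem_le_two Y e)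
  have h3 : ∑ y ∈ Y, m ≤ ∑ y ∈ Y, (F.filter (fun e => y ∈ e)).card := by
    refine Finset.sum_le_sum (fun y hy => (hm y hy).trans ?_)
    refine Finset.card_le_card_of_injOn (fun w => s(y, w)) ?_ ?_
    · intro w hw
      have hw' : w ∈ nbr E y := hw
      simp only [coe_filter, Set.mem_ofPred_eq]
      exact ⟨hF y hy w hw', by simp⟩
    · intro w hw w' hw' h
      have h' : s(y, w) = s(y, w') := h
      exact Sym2.congr_right.1 h'
  simp only [sum_const, smul_eq_mul] at h2 h3
  have h4 := h3.trans (h1.le.trans h2)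
  rw [mul_comm m, mul_comm 2]
  exact h4

lemma nbr_sub_vts {V : Type} [Fintype V] (R : Finset (Sym2 V)) (v : V) : nbr R v ⊆ vts R := by
  intro w hw
  rw [mem_nbr] at hw
  rw [mem_vts]
  exact ⟨_, hw.2, by simp⟩

lemma Glk_symm {V : Type} [Fintype V] {k : ℕ} {R : Finset (Sym2 V)} {i j : V}
    (h : Glk k R s(i, j)) : Glk k R s(j, i) := by
  rw [Sym2.eq_swap]; exact h

lemma Glk_self {V : Type} [Fintype V] {k : ℕ} {R : Finset (Sym2 V)} (i : V) :
    Glk k R s(i, i) := by
  intro q _ q' _
  simp [len_mk, dot_zero]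

end CLS_

open CLS_ in
theorem cls_proof (hTLM : Stmt_TLM) (hINV : Stmt_INV) (hGLB : Stmt_GLB) (_hRDF : Stmt_RDF) :
    Stmt_CLS := by
  intro V _ k hk p hp R s g t hR hRne hSpr hClq hdeg hbad hUni hs
  obtain ⟨hG1, -, -, -⟩ := hGLB V k R
  -- the classes
  set A : V → Finset V := fun v => (vts R).filter (fun w => Glk k R s(v, w)) with hA
  have memA : ∀ v w, w ∈ A v ↔ w ∈ vts R ∧ Glk k R s(v, w) := by
    intro v w; simp [hA]
  set T : Finset V := (vts R).filter (fun v => Clq p (del R v) ((vts R).erase v)) with hT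
  have hTsub : T ⊆ vts R := filter_subset _ _
  have hTcard : (vts R \ T).card ≤ t := by
    refine le_trans (card_le_card ?_) hbad
    intro v hv
    rw [mem_sdiff, hT, mem_filter, not_and] at hv
    exact mem_filter.2 ⟨hv.1, hv.2 hv.1⟩
  have hGLqA : ∀ v ∈ T, GLq k R (A v) := by
    intro v hvT
    have hv := hTsub hvT
    have hvc : Clq p (del R v) ((vts R).erase v) := (mem_filter.1 hvT).2
    intro i hi j hj q hq q' hq'
    set H : Finset (Sym2 V) := (pairs V).filter (fun e => Glk k R e) with hH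
    set W : Finset V := (vts R).erase v with hW
    have hnW : nbr R v ⊆ nbr H v ∩ W := by
      intro w hw
      have hw' := (mem_nbr _ _ _).1 hw
      rw [mem_inter, mem_nbr, hW, mem_erase]
      exact ⟨⟨hw'.1, mem_filter.2 ⟨hR hw'.2, hG1 _ hw'.2⟩⟩, hw'.1, nbr_sub_vts R v hw⟩
    have hsubHW : del R v ⊆ sub H W := by
      intro e he
      rw [mem_del] at he
      rw [mem_sub]
      refine ⟨mem_filter.2 ⟨hR he.1, hG1 _ he.1⟩, fun i hi => ?_⟩
      rw [hW, mem_erase]
      exact ⟨fun h => he.2 (h ▸ hi), (mem_vts _ _).2 ⟨e, he.1, hi⟩⟩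
    have hq'H : ∀ e ∈ H, len q' e = len q e := by
      intro e he
      exact (mem_filter.1 he).2 q hq q' hq'
    have key := hTLM V k q (by omega) hq H W v (filter_subset _ _) (by simp [hW])
      ((hdeg v hv).trans (card_le_card (hnW.trans inter_subset_right)))
      (fun a ha b hb => Cl_mono hsubHW (hINV V k p q hp hq _ _ (hvc a ha b hb)))
      ((hdeg v hv).trans (card_le_card hnW)) q' hq'H
    have hins : ∀ i ∈ A v, i ∈ insert v (nbr H v ∩ W) := by
      intro i hi
      rw [memA] at hi
      by_cases hiv : i = v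
      · rw [hiv]; exact mem_insert_self _ _
      · refine mem_insert_of_mem ?_
        rw [mem_inter, mem_nbr, hW, mem_erase]
        refine ⟨⟨hiv, mem_filter.2 ⟨?_, hi.2⟩⟩, hiv, hi.1⟩
        rw [mem_pairs]
        simp only [Sym2.mk_isDiag_iff]
        exact fun h => hiv h.symm
    exact key i (hins i hi) j (hins j hj)
  have hself : ∀ v ∈ vts R, v ∈ A v := by
    intro v hv
    rw [memA]; exact ⟨hv, Glk_self v⟩
  have hAeq : ∀ v ∈ T, ∀ v' ∈ T, v' ∈ A v → A v' = A v := by
    intro v hv v' hv' h
    have hv2 := (memA _ _).1 h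
    ext w
    constructor
    · intro hw
      have hvA : v ∈ A v' := by
        rw [memA]; exact ⟨hTsub hv, Glk_symm hv2.2⟩
      exact (memA _ _).2 ⟨((memA _ _).1 hw).1, hGLqA v' hv' v hvA w hw⟩
    · intro hw
      exact (memA _ _).2 ⟨((memA _ _).1 hw).1, hGLqA v hv v' h w hw⟩
  -- neighbours lie in the class
  have hnbrA : ∀ v, nbr R v ⊆ A v := by
    intro v w hw
    rw [memA]
    exact ⟨nbr_sub_vts R v hw, hG1 _ ((mem_nbr _ _ _).1 hw).2⟩
  set Ts : Finset V := T.filter (fun v => (A v).card < g) with hTs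
  have hTsT : Ts ⊆ T := filter_subset _ _
  have hTs4 : Ts.card ≤ 4 * t := by
    by_contra hcon
    push Not at hcon
    -- closed subsets of Ts
    set C : Finset (Finset V) := Ts.powerset.filter
      (fun Y => (∀ v ∈ Y, A v ∩ T ⊆ Y) ∧ 4 * t < Y.card) with hC
    have hTsC : Ts ∈ C := by
      rw [hC, mem_filter, mem_powerset]
      refine ⟨subset_refl _, ?_, hcon⟩
      intro v hv w hw
      rw [mem_inter] at hw
      rw [hTs, mem_filter]
      refine ⟨hw.2, ?_⟩
      rw [hAeq v (hTsT hv) w hw.2 hw.1]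
      exact (mem_filter.1 hv).2
    obtain ⟨Y, hYC, hYmin⟩ := exists_min_image C card ⟨Ts, hTsC⟩
    have hY := mem_filter.1 hYC
    have hYsub : Ts.powerset.card = Ts.powerset.card := rfl
    have hYTs : Y ⊆ Ts := mem_powerset.1 hY.1
    have hYne : Y.Nonempty := card_pos.1 (by have := hY.2.2; omega)
    obtain ⟨v, hv⟩ := hYne
    have hvT : v ∈ T := hTsT (hYTs hv)
    have hsmall : (Y \ A v).card ≤ 4 * t := by
      by_contra hlt
      push Not at hlt
      have hmem : Y \ A v ∈ C := by
        rw [hC, mem_filter, mem_powerset]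
        refine ⟨sdiff_subset.trans hYTs, ?_, hlt⟩
        intro w hw x hx
        rw [mem_sdiff] at hw ⊢
        have hx2 := mem_inter.1 hx
        have hwT : w ∈ T := hTsT (hYTs hw.1)
        refine ⟨hY.2.1 w hw.1 hx, fun hxv => hw.2 ?_⟩
        have e1 := hAeq v hvT x hx2.2 hxv
        have e2 := hAeq w hwT x hx2.2 hx2.1
        rw [← e1, e2]
        exact hself w (hTsub hwT)
      have hle := hYmin _ hmem
      have hlt2 : (Y \ A v).card < Y.card := by
        apply card_lt_card
        refine ⟨sdiff_subset, fun h => ?_⟩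
        have := h hv
        rw [mem_sdiff] at this
        exact this.2 (hself v (hTsub hvT))
      omega
    have hYcard : Y.card ≤ 4 * t + g := by
      have h1 : Y.card ≤ (Y \ A v).card + (A v).card := by
        have := card_le_card (s := Y) (t := (Y \ A v) ∪ A v) (by
          intro x hx
          rw [mem_union, mem_sdiff]
          by_cases h : x ∈ A v
          · exact Or.inr h
          · exact Or.inl ⟨hx, h⟩)
        exact this.trans (card_union_le _ _)
      have h2 : (A v).card < g := (mem_filter.1 (hYTs hv)).2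
      omega
    set Z : Finset V := Y ∪ (vts R \ T) with hZ
    have hZcard : Z.card ≤ Y.card + t := (card_union_le _ _).trans (by omega)
    have hsp := hSpr Z (by omega)
    have hdc := degree_count R (sub R Z) Y (k + 1)
      (fun y hy => hdeg y (hTsub (hTsT (hYTs hy)))) (by
        intro y hy w hw
        have hw2 := (mem_nbr _ _ _).1 hw
        rw [mem_sub]
        refine ⟨hw2.2, ?_⟩
        intro i hi
        rw [Sym2.mem_iff] at hi
        rcases hi with rfl | rfl
        · rw [hZ]; exact mem_union_left _ hy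
        · rw [hZ, mem_union, mem_sdiff]
          by_cases hiT : i ∈ T
          · left
            exact hY.2.1 y hy (mem_inter.2 ⟨hnbrA y hw, hiT⟩)
          · right
            exact ⟨nbr_sub_vts R y hw, hiT⟩)
    have h4t : 4 * t < Y.card := hY.2.2
    have h3 : 3 * Y.card ≤ (k + 1) * Y.card := Nat.mul_le_mul_right _ (by omega)
    omega
  -- the vertex set is large
  have hvts : s < (vts R).card := by
    by_contra hle
    push Not at hle
    have hsp := hSpr (vts R) hle
    have hdc := degree_count R (sub R (vts R)) (vts R) (k + 1) hdeg (by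
      intro y hy w hw
      have hw2 := (mem_nbr _ _ _).1 hw
      rw [mem_sub]
      refine ⟨hw2.2, ?_⟩
      intro i hi
      exact (mem_vts _ _).2 ⟨_, hw2.2, hi⟩)
    have h3 : 3 * (vts R).card ≤ (k + 1) * (vts R).card := Nat.mul_le_mul_right _ (by omega)
    obtain ⟨e, he⟩ := hRne
    have hpos : 0 < (vts R).card := by
      apply card_pos.2
      induction e with
      | h i j => exact ⟨i, (mem_vts _ _).2 ⟨_, he, by simp⟩⟩
    omega
  have hTcard2 : (vts R).card ≤ T.card + t := by
    have := card_sdiff_add_card_eq_card hTsub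
    omega
  have hTTs : T.card ≤ (T \ Ts).card + 4 * t := by
    have := card_sdiff_add_card_eq_card hTsT
    omega
  have hne : (T \ Ts).Nonempty := card_pos.1 (by omega)
  obtain ⟨v0, hv0⟩ := hne
  have hv0' := mem_sdiff.1 hv0
  have hbig : ∀ v ∈ T \ Ts, g ≤ (A v).card := by
    intro v hv
    have hv' := mem_sdiff.1 hv
    by_contra hlt
    exact hv'.2 (mem_filter.2 ⟨hv'.1, not_le.1 hlt⟩)
  refine ⟨A v0, filter_subset _ _, hGLqA v0 hv0'.1, ?_⟩
  have hsub : T \ Ts ⊆ A v0 := by
    intro v hv
    have hv' := mem_sdiff.1 hv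
    have hU := hUni (A v0) (A v) (hbig v0 hv0) (hbig v hv) (hGLqA v0 hv0'.1) (hGLqA v hv'.1)
    rw [memA]
    exact ⟨hTsub hv'.1, hU v0 (mem_union_left _ (hself v0 (hTsub hv0'.1))) v
      (mem_union_right _ (hself v (hTsub hv'.1)))⟩
  have := card_le_card hsub
  omega

end Pool.Agent.GRR
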