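import Pool.Agent.GRR.Stmts

set_option autoImplicit false

open Finset
open scoped Classical

namespace Pool.Agent.GRR

namespace CNF_

/-- sum of probabilities bounded by a deterministic bound on the number of events that hold -/
lemma sum_Pr_le (h6 : Stmt_EXB) {α ι : Type} (π : ℝ) (D : Finset α) (h0 : 0 ≤ π) (h1 : π ≤ 1)
    (S : Finset ι) (A : ι → Finset α → Prop) (K : ℝ)
    (h : ∀ G ⊆ D, ∀ T ⊆ S, (∀ i ∈ T, A i G) → (T.card : ℝ) ≤ K) :
    ∑ i ∈ S, Pr π D (A i) ≤ K := by
  obtain ⟨hone, hmono, _, _, _, _, _, hsum, hsmul, _⟩ := h6 α π D h0 h1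
  have e1 : ∑ i ∈ S, Pr π D (A i) = Ex π D (fun G => ∑ i ∈ S, (if A i G then (1 : ℝ) else 0)) := by
    rw [hsum ι S (fun i G => if A i G then (1 : ℝ) else 0)]
    rfl
  have e2 : Ex π D (fun G => ∑ i ∈ S, (if A i G then (1 : ℝ) else 0)) ≤
      Ex π D (fun _ => K * 1) := by
    refine hmono _ _ ?_
    intro G hG
    rw [← Finset.sum_filter]
    rw [Finset.sum_const, nsmul_eq_mul, mul_one, mul_one]
    exact h G hG _ (Finset.filter_subset _ _) (fun i hi => (Finset.mem_filter.1 hi).2)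
  have e3 : Ex π D (fun _ : Finset α => K * 1) = K := by
    rw [hsmul K (fun _ => 1), hone, mul_one]
  rw [e1]
  linarith [e2, e3.le, e3.ge]

/-- deterministic part -/
lemma det (h2 : Stmt_DEC) (h4 : Stmt_STA) {V : Type} [Fintype V] {k : ℕ} {p : V → Fin k → ℝ}
    (hp : Gnr p) (g : ℕ) (G : Finset (Sym2 V)) (u : V) (T : Finset V)
    (hT : ∀ v ∈ T, Cnf p g G u v ∧ ¬ Bad p g (2 * k) G {u, v}) : T.card ≤ k := by
  by_contra hcard
  push Not at hcard
  have hne : T.Nonempty := by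
    rw [← Finset.card_pos]; omega
  obtain ⟨v0, hv0⟩ := hne
  obtain ⟨⟨_, _, Q0, hQ0, hclq, X0, hX0, hX0u⟩, _⟩ := hT v0 hv0
  have huT : u ∉ T := fun hu => (hT u hu).1.1 rfl
  apply hX0u
  refine (h4 V k p hp u T huT).2 hcard.le (X0 u) ?_
  intro t ht
  obtain ⟨⟨hut, hcl, _⟩, hbad⟩ := hT t ht
  have hdec : Dec (Mot p Q0 G) {u, t} := by
    refine h2 V k p G {u, t} g ?_ Q0 hQ0 hclq
    rw [Finset.card_pair hut]
    exact hbad
  obtain ⟨X, hX, hXv⟩ := hdec (fun w => if w = u then X0 else 0) (by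
    intro w _
    by_cases hw : w = u
    · simp only [hw, if_true]; exact hX0
    · simp only [hw, if_false]; exact Submodule.zero_mem _)
  have e1 : X u = X0 u := by
    have := hXv u (by simp)
    simpa using this
  have e2 : X t = 0 := by
    have := hXv t (by simp)
    simpa [Ne.symm hut] using this
  have e3 := hcl X (Mot_mono p (Finset.empty_subset _) (subset_refl _) hX)
  rw [ell_mk, e1, e2, sub_zero] at e3
  exact e3

/-- double counting of pairs -/
lemma pairs_sum {V : Type} [Fintype V] (F : Finset V → ℝ) (hF : ∀ U, 0 ≤ F U) :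
    ∑ u : V, ∑ v ∈ univ.filter (fun v => v ≠ u), F {u, v} ≤
      2 * ∑ U ∈ powersetCard 2 (univ : Finset V), F U := by
  have step : ∀ u : V, ∑ v ∈ univ.filter (fun v => v ≠ u), F {u, v} ≤
      ∑ U ∈ powersetCard 2 (univ : Finset V), (if u ∈ U then F U else 0) := by
    intro u
    have hinj : Set.InjOn (fun v : V => ({u, v} : Finset V)) (univ.filter (fun v => v ≠ u)) := by
      intro v hv w hw hvw
      simp only [coe_filter, mem_univ, true_and, Set.mem_ofPred_eq] at hv hw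
      have hvw' : ({u, v} : Finset V) = {u, w} := hvw
      have : v ∈ ({u, w} : Finset V) := by rw [← hvw']; simp
      rcases Finset.mem_insert.1 this with h | h
      · exact absurd h hv
      · exact Finset.mem_singleton.1 h
    rw [← Finset.sum_filter]
    rw [← Finset.sum_image (f := F) hinj]
    refine Finset.sum_le_sum_of_subset_of_nonneg ?_ (fun U _ _ => hF U)
    intro U hU
    obtain ⟨v, hv, rfl⟩ := Finset.mem_image.1 hU
    have hv' : v ≠ u := (Finset.mem_filter.1 hv).2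
    rw [Finset.mem_filter, Finset.mem_powersetCard]
    exact ⟨⟨Finset.subset_univ _, Finset.card_pair (Ne.symm hv')⟩, by simp⟩
  calc ∑ u : V, ∑ v ∈ univ.filter (fun v => v ≠ u), F {u, v}
      ≤ ∑ u : V, ∑ U ∈ powersetCard 2 (univ : Finset V), (if u ∈ U then F U else 0) :=
        Finset.sum_le_sum (fun u _ => step u)
    _ = ∑ U ∈ powersetCard 2 (univ : Finset V), ∑ u : V, (if u ∈ U then F U else 0) :=
        Finset.sum_comm
    _ = ∑ U ∈ powersetCard 2 (univ : Finset V), 2 * F U := by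
        refine Finset.sum_congr rfl (fun U hU => ?_)
        rw [← Finset.sum_filter, Finset.sum_const, nsmul_eq_mul]
        have hc : (univ.filter (fun u => u ∈ U)).card = 2 := by
          rw [Finset.filter_mem_eq_inter, Finset.univ_inter]
          exact (Finset.mem_powersetCard.1 hU).2
        rw [hc]
        norm_num
    _ = 2 * ∑ U ∈ powersetCard 2 (univ : Finset V), F U := by rw [Finset.mul_sum]

end CNF_

theorem cnf_proof (h1 : Stmt_BDX) (h2 : Stmt_DEC) (_h3 : Stmt_UNI) (h4 : Stmt_STA)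
    (_h5 : Stmt_FRZ) (h6 : Stmt_EXB) : Stmt_CNF := by
  intro k c γ ε hk hc hγ hε
  obtain ⟨n0, hn0⟩ := h1 (2 * k) k 2 c γ (ε / 4) hk hc hγ (by positivity)
  refine ⟨max (max n0 (⌈c⌉₊ + 1)) ⌈2 * k / ε⌉₊, ?_⟩
  intro V _ p hp hn g hg
  have hn1 : n0 ≤ Fintype.card V := le_trans (le_trans (le_max_left _ _) (le_max_left _ _)) hn
  have hn2 : ⌈c⌉₊ + 1 ≤ Fintype.card V :=
    le_trans (le_trans (le_max_right _ _) (le_max_left _ _)) hn
  have hn3 : ⌈2 * k / ε⌉₊ ≤ Fintype.card V := le_trans (le_max_right _ _) hn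
  have hbad := hn0 V p hp hn1 g hg
  set n : ℝ := (Fintype.card V : ℝ) with hndef
  have hcn : c ≤ n := by
    have h : ((⌈c⌉₊ + 1 : ℕ) : ℝ) ≤ n := Nat.cast_le.2 hn2
    push_cast at h
    linarith [Nat.le_ceil c]
  have hnpos : 0 < n := lt_of_lt_of_le hc hcn
  have hkn : 2 * k ≤ ε * n := by
    have h : ((⌈2 * k / ε⌉₊ : ℕ) : ℝ) ≤ n := Nat.cast_le.2 hn3
    have h' : 2 * (k : ℝ) / ε ≤ n := le_trans (Nat.le_ceil _) h
    rw [div_le_iff₀ hε] at h'
    linarith [mul_comm n ε]
  have hπ0 : 0 ≤ c / n := by positivity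
  have hπ1 : c / n ≤ 1 := by rw [div_le_one hnpos]; exact hcn
  obtain ⟨_, _, _, hPunion, hP01, _, _, _, _, _⟩ := h6 (Sym2 V) (c / n) (pairs V) hπ0 hπ1
  -- pointwise bound
  have hpt : ∀ u v : V, Pr (c / n) (pairs V) (fun G => Cnf p g G u v) ≤
      Pr (c / n) (pairs V) (fun G => Cnf p g G u v ∧ ¬ Bad p g (2 * k) G {u, v}) +
        (if v ≠ u then Pr (c / n) (pairs V) (fun G => Bad p g (2 * k) G {u, v}) else 0) := by
    intro u v
    by_cases huv : v = u
    · have hfalse : ∀ G ⊆ pairs V, Cnf p g G u v →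
          (Cnf p g G u v ∧ ¬ Bad p g (2 * k) G {u, v}) := by
        intro G _ hG
        exact absurd huv.symm hG.1
      have := (h6 (Sym2 V) (c / n) (pairs V) hπ0 hπ1).2.2.1 _ _ hfalse
      simp only [huv, ne_eq, not_true_eq_false, if_false, add_zero] at this ⊢
      exact this
    · simp only [ne_eq, huv, not_false_eq_true, if_true]
      refine hPunion _ _ _ ?_
      intro G _ hG
      by_cases hb : Bad p g (2 * k) G {u, v}
      · exact Or.inr hb
      · exact Or.inl ⟨hG, hb⟩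
  have hA : ∀ u : V, ∑ v : V,
      Pr (c / n) (pairs V) (fun G => Cnf p g G u v ∧ ¬ Bad p g (2 * k) G {u, v}) ≤ k := by
    intro u
    refine CNF_.sum_Pr_le h6 (c / n) (pairs V) hπ0 hπ1 univ
      (fun v G => Cnf p g G u v ∧ ¬ Bad p g (2 * k) G {u, v}) k ?_
    intro G _ T _ hT
    exact_mod_cast CNF_.det h2 h4 hp g G u T hT
  have hB : ∑ u : V, ∑ v : V,
      (if v ≠ u then Pr (c / n) (pairs V) (fun G => Bad p g (2 * k) G {u, v}) else 0) ≤
      2 * (ε / 4 * n ^ 2) := by
    have h := CNF_.pairs_sum (fun U => Pr (c / n) (pairs V) (fun G => Bad p g (2 * k) G U))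
      (fun U => (hP01 _).1)
    simp only [← Finset.sum_filter]
    refine le_trans h ?_
    linarith
  calc ∑ u : V, ∑ v : V, Pr (c / n) (pairs V) (fun G => Cnf p g G u v)
      ≤ ∑ u : V, ∑ v : V,
        (Pr (c / n) (pairs V) (fun G => Cnf p g G u v ∧ ¬ Bad p g (2 * k) G {u, v}) +
        (if v ≠ u then Pr (c / n) (pairs V) (fun G => Bad p g (2 * k) G {u, v}) else 0)) :=
        Finset.sum_le_sum (fun u _ => Finset.sum_le_sum (fun v _ => hpt u v))
    _ = ∑ u : V, ∑ v : V,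
        Pr (c / n) (pairs V) (fun G => Cnf p g G u v ∧ ¬ Bad p g (2 * k) G {u, v}) +
        ∑ u : V, ∑ v : V,
        (if v ≠ u then Pr (c / n) (pairs V) (fun G => Bad p g (2 * k) G {u, v}) else 0) := by
        rw [← Finset.sum_add_distrib]
        exact Finset.sum_congr rfl (fun u _ => Finset.sum_add_distrib)
    _ ≤ ∑ _u : V, (k : ℝ) + 2 * (ε / 4 * n ^ 2) :=
        add_le_add (Finset.sum_le_sum (fun u _ => hA u)) hB
    _ = n * k + 2 * (ε / 4 * n ^ 2) := by
        rw [Finset.sum_const, nsmul_eq_mul, Finset.card_univ]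
    _ ≤ ε * n ^ 2 := by nlinarith

end Pool.Agent.GRR
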