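import Pool.Agent.GRR.Stmts

set_option autoImplicit false

open Finset
open scoped Classical

namespace Pool.Agent.GRR

namespace CNT_

variable {V : Type} [Fintype V]

lemma card_nbr (E : Finset (Sym2 V)) (hE : E ⊆ pairs V) (v : V) :
    (nbr E v).card = (E.filter (fun e => v ∈ e)).card := by
  refine Finset.card_bij (fun y _ => s(v, y)) ?_ ?_ ?_
  · intro y hy
    rw [mem_nbr] at hy
    exact mem_filter.2 ⟨hy.2, by simp⟩
  · intro a _ b _ hab
    have hab' : s(v, a) = s(v, b) := hab
    rcases Sym2.eq_iff.1 hab' with h | h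
    · exact h.2
    · rw [h.2, ← h.1]
  · intro e he
    rw [mem_filter] at he
    obtain ⟨y, rfl⟩ := Sym2.mem_iff_exists.1 he.2
    refine ⟨y, ?_, rfl⟩
    rw [mem_nbr]
    refine ⟨?_, he.1⟩
    intro hyv
    have h1 := (mem_pairs _).1 (hE he.1)
    exact h1 (by rw [hyv]; simp)

lemma sum_nbr (E : Finset (Sym2 V)) (hE : E ⊆ pairs V) (S : Finset V) :
    ∑ v ∈ S, (nbr E v).card = ∑ e ∈ E, (S.filter (fun v => v ∈ e)).card := by
  have h1 : ∀ v ∈ S, (nbr E v).card = ∑ e ∈ E, if v ∈ e then 1 else 0 := by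
    intro v _
    rw [card_nbr E hE v, Finset.card_filter]
  rw [Finset.sum_congr rfl h1, Finset.sum_comm]
  refine Finset.sum_congr rfl (fun e _ => ?_)
  rw [Finset.card_filter]

lemma filt_le_two (S : Finset V) (e : Sym2 V) : (S.filter (fun v => v ∈ e)).card ≤ 2 := by
  induction e with
  | h i j =>
    have h1 : S.filter (fun v => v ∈ s(i, j)) ⊆ {i, j} := by
      intro v hv
      have h2 := (mem_filter.1 hv).2
      rw [Sym2.mem_iff] at h2
      simpa using h2
    exact le_trans (card_le_card h1) Finset.card_le_two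

lemma filt_le_one (S : Finset V) (e : Sym2 V) (a : V) (ha : a ∈ e) (haS : a ∉ S) :
    (S.filter (fun v => v ∈ e)).card ≤ 1 := by
  obtain ⟨b, rfl⟩ := Sym2.mem_iff_exists.1 ha
  have h1 : S.filter (fun v => v ∈ s(a, b)) ⊆ {b} := by
    intro v hv
    obtain ⟨h0, h2⟩ := mem_filter.1 hv
    rw [Sym2.mem_iff] at h2
    rcases h2 with h2 | h2
    · exact absurd (h2 ▸ h0) haS
    · simpa using h2
  exact le_trans (card_le_card h1) (by simp)

end CNT_

open CNT_ in
theorem cnt_proof : Stmt_CNT := by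
  intro V _ E Y hE hsp hY hout hne
  by_contra hcon
  push_neg at hcon
  have h3 : ∀ y ∈ Y, 3 ≤ (nbr E y).card := fun y hy => hcon y hy
  -- the sets
  obtain ⟨E1, hE1⟩ : ∃ E1 : Finset (Sym2 V), E1 = sub E Y := ⟨_, rfl⟩
  obtain ⟨N, hN⟩ : ∃ N : Finset V, N = vts E \ Y := ⟨_, rfl⟩
  have hE1E : E1 ⊆ E := by
    intro e he
    rw [hE1, mem_sub] at he
    exact he.1
  have hcard : E1.card + (E \ E1).card = E.card := by
    have := Finset.card_sdiff_add_card_eq_card hE1E
    omega
  have hsplit : ∀ φ : Sym2 V → ℕ, ∑ e ∈ E, φ e = ∑ e ∈ E1, φ e + ∑ e ∈ E \ E1, φ e := by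
    intro φ
    rw [add_comm, Finset.sum_sdiff hE1E]
  -- sums over Y
  have hY1 : 3 * Y.card ≤ 2 * E1.card + (E \ E1).card := by
    have h1 : 3 * Y.card ≤ ∑ v ∈ Y, (nbr E v).card := by
      have := Finset.card_nsmul_le_sum Y (fun v => (nbr E v).card) 3 h3
      simpa [mul_comm] using this
    rw [sum_nbr E hE Y, hsplit] at h1
    have h2 : ∑ e ∈ E1, (Y.filter (fun v => v ∈ e)).card ≤ 2 * E1.card := by
      have := Finset.sum_le_card_nsmul E1 (fun e => (Y.filter (fun v => v ∈ e)).card) 2
        (fun e _ => filt_le_two Y e)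
      simpa [mul_comm] using this
    have h4 : ∑ e ∈ E \ E1, (Y.filter (fun v => v ∈ e)).card ≤ (E \ E1).card := by
      have := Finset.sum_le_card_nsmul (E \ E1) (fun e => (Y.filter (fun v => v ∈ e)).card) 1
        (fun e he => by
          obtain ⟨he1, he2⟩ := Finset.mem_sdiff.1 he
          rw [hE1, mem_sub] at he2
          have h5 : ∃ a ∈ e, a ∉ Y := by
            by_contra hc
            push_neg at hc
            exact he2 ⟨he1, hc⟩
          obtain ⟨a, ha, haY⟩ := h5
          exact filt_le_one Y e a ha haY)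
      simpa using this
    omega
  have hN1 : 2 * N.card ≤ (E \ E1).card := by
    have h1 : 2 * N.card ≤ ∑ v ∈ N, (nbr E v).card := by
      have := Finset.card_nsmul_le_sum N (fun v => (nbr E v).card) 2 (fun a ha => by
        rw [hN, Finset.mem_sdiff] at ha
        exact hout a ha.2 ha.1)
      simpa [mul_comm] using this
    rw [sum_nbr E hE N, hsplit] at h1
    have h2 : ∑ e ∈ E1, (N.filter (fun v => v ∈ e)).card = 0 := by
      refine Finset.sum_eq_zero (fun e he => ?_)
      rw [hE1, mem_sub] at he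
      rw [Finset.card_eq_zero, Finset.filter_eq_empty_iff]
      intro v hv hve
      rw [hN, Finset.mem_sdiff] at hv
      exact hv.2 (he.2 v hve)
    have h4 : ∑ e ∈ E \ E1, (N.filter (fun v => v ∈ e)).card ≤ (E \ E1).card := by
      have := Finset.sum_le_card_nsmul (E \ E1) (fun e => (N.filter (fun v => v ∈ e)).card) 1
        (fun e he => by
          obtain ⟨he1, _⟩ := Finset.mem_sdiff.1 he
          obtain ⟨y, hy, hye⟩ := hY e he1
          refine filt_le_one N e y hye (fun hyN => ?_)
          rw [hN, Finset.mem_sdiff] at hyN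
          exact hyN.2 hy)
      simpa using this
    omega
  have hS := hsp (Y ∪ N)
  have hsub : sub E (Y ∪ N) = E := by
    ext e
    rw [mem_sub]
    refine ⟨fun h => h.1, fun h => ⟨h, fun i hi => ?_⟩⟩
    by_cases hiY : i ∈ Y
    · exact Finset.mem_union_left _ hiY
    · refine Finset.mem_union_right _ ?_
      rw [hN, Finset.mem_sdiff, mem_vts]
      exact ⟨⟨e, h, hi⟩, hiY⟩
  rw [hsub] at hS
  have hU : (Y ∪ N).card ≤ Y.card + N.card := Finset.card_union_le _ _
  have hYpos : 0 < Y.card := Finset.card_pos.2 hne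
  omega

end Pool.Agent.GRR
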