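import Pool.Agent.GRR.Stmts

/-! Module CVA: adding a vertex with many frozen neighbours -/

set_option autoImplicit false

open Finset
open scoped Classical

namespace Pool.Agent.GRR

theorem cva_proof (h1 : Stmt_STA) (h2 : Stmt_NVA) : Stmt_CVA := by
  intro V _ k p hp H Q U x _ hxH _ hxQ _ hxU hdec hcard
  constructor
  · rw [mem_fr]
    intro X hX
    have hXH : X ∈ Mot p Q H := Mot_mono p (subset_refl _) subset_union_left hX
    have hxT : x ∉ U ∩ fr p Q H := fun h => hxU (mem_inter.1 h).1
    refine (h1 V k p hp x (U ∩ fr p Q H) hxT).2 hcard (X x) ?_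
    intro u hu
    obtain ⟨hu1, hu2⟩ := mem_inter.1 hu
    have hu0 : X u = 0 := (mem_fr p Q H u).1 hu2 X hXH
    have he := hX.2 s(x, u) (mem_union_right _ ((mem_star x U _).2 ⟨u, hu1, rfl⟩))
    rw [ell_mk, hu0, sub_zero] at he
    exact he
  · intro u hu hfr hcl
    have hux : u ≠ x := fun h => hxU (h ▸ hu)
    have hex : ∃ X ∈ Mot p Q H, X u ≠ 0 := by
      rw [mem_fr] at hfr
      push Not at hfr
      exact hfr
    obtain ⟨X1, hX1, hx1, hd1⟩ := h2 V k p hp H Q x u hxH hux hex
    obtain ⟨X2, hX2, h2'⟩ := hdec (fun w => if w = u then X1 else 0) (by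
      intro w _
      show (if w = u then X1 else 0) ∈ Mot p Q H
      split_ifs
      · exact hX1
      · exact Submodule.zero_mem _)
    obtain ⟨X3, hX3⟩ : ∃ X3 : V → Fin k → ℝ, X3 = Function.update X2 x 0 := ⟨_, rfl⟩
    have h3x : X3 x = 0 := by rw [hX3]; exact Function.update_self x 0 X2
    have h3n : ∀ w, w ≠ x → X3 w = X2 w := by
      intro w hw
      rw [hX3]
      exact Function.update_of_ne hw 0 X2
    have h3u : X3 u = X1 u := by
      rw [h3n u hux, h2' u hu]
      simp
    have h3w : ∀ w ∈ U, w ≠ u → X3 w = 0 := by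
      intro w hw hwu
      have hwx : w ≠ x := fun h => hxU (h ▸ hw)
      rw [h3n w hwx, h2' w hw]
      simp [hwu]
    have hmot : X3 ∈ Mot p ∅ ((H ∪ star x U).erase s(x, u)) := by
      refine ⟨fun i hi => absurd hi (Finset.notMem_empty i), ?_⟩
      intro e he
      obtain ⟨hne, he⟩ := mem_erase.1 he
      rcases mem_union.1 he with he' | he
      · rw [← hX2.2 e he']
        apply ell_congr
        · intro i _
          rfl
        · intro i hi
          apply h3n
          intro hix
          rw [hix] at hi
          exact hxH e he' hi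
      · obtain ⟨w, hw, rfl⟩ := (mem_star x U e).1 he
        have hwu : w ≠ u := by
          rintro rfl
          exact hne rfl
        rw [ell_mk, h3x, h3w w hw hwu, sub_zero, dot_zero]
    have hz := hcl X3 hmot
    rw [ell_mk, h3x, h3u] at hz
    apply hd1
    have : dot (p x - p u) (0 - X1 u) = - dot (p x - p u) (X1 u) := by
      rw [dot_sub, dot_zero, zero_sub]
    rw [this] at hz
    linarith

end Pool.Agent.GRR
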