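import Pool.Agent.GRR.Stmts

set_option autoImplicit false

open Finset
open scoped Classical

namespace Pool.Agent.GRR

namespace CVB_

variable {V : Type} [Fintype V] {k : ℕ}

/-- motions of a graph without edges at `x` may be changed at `x` -/
lemma update_mem {p : V → Fin k → ℝ} {H : Finset (Sym2 V)} {Q : Finset V} {x : V}
    (hx : ∀ e ∈ H, x ∉ e) (hQ : x ∉ Q) {X : V → Fin k → ℝ} (hX : X ∈ Mot p Q H)
    (D : Fin k → ℝ) : Function.update X x D ∈ Mot p Q H := by
  rw [mem_Mot] at hX ⊢
  refine ⟨fun i hi => ?_, fun e he => ?_⟩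
  · have : i ≠ x := fun h => hQ (h ▸ hi)
    rw [Function.update_of_ne this]; exact hX.1 i hi
  · rw [← hX.2 e he]
    apply ell_congr e (fun _ _ => rfl)
    intro i hi
    have : i ≠ x := fun h => hx e he (h ▸ hi)
    rw [Function.update_of_ne this]

lemma weights_zero {p : V → Fin k → ℝ} (M : Submodule ℝ (V → Fin k → ℝ)) (U : Finset V) (x : V)
    (x0 : Fin k → ℝ) (hxU : x ∉ U)
    (hup : ∀ X ∈ M, ∀ D : Fin k → ℝ, Function.update X x D ∈ M) (hD : Dec M U)
    (hi : ∀ r : V → ℝ, ∃ D : Fin k → ℝ, ∀ u ∈ U, (∀ X ∈ M, X u = 0) → dot (x0 - p u) D = r u)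
    (hii : ∀ u ∈ U, (∃ X ∈ M, X u ≠ 0) → ∃ X ∈ M, dot (x0 - p u) (X u) ≠ 0)
    (μ : V → ℝ) (hμ : ∀ X ∈ M, ∑ u ∈ U, μ u * dot (x0 - p u) (X x - X u) = 0) :
    ∀ u ∈ U, μ u = 0 := by
  have h1 : ∀ u ∈ U, (∃ X ∈ M, X u ≠ 0) → μ u = 0 := by
    intro u hu hex
    obtain ⟨Y, hY, hYu⟩ := hii u hu hex
    obtain ⟨X, hX, hXU⟩ := hD (fun v => if v = u then Y else 0) (by
      intro v _
      by_cases h : v = u
      · simp [h, hY]
      · simp [h])
    have h0 := hμ _ (hup X hX 0)
    have h2 : ∑ v ∈ U, μ v * dot (x0 - p v) (Function.update X x 0 x - Function.update X x 0 v)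
        = μ u * (- dot (x0 - p u) (Y u)) := by
      rw [Finset.sum_eq_single u]
      · have hne : u ≠ x := fun h => hxU (h ▸ hu)
        rw [Function.update_self, Function.update_of_ne hne, hXU u hu, if_pos rfl, dot_sub,
          dot_zero, zero_sub]
      · intro v hv hvu
        have hne : v ≠ x := fun h => hxU (h ▸ hv)
        rw [Function.update_self, Function.update_of_ne hne, hXU v hv]
        simp [hvu, dot_zero]
      · intro h; exact absurd hu h
    rw [h2] at h0
    rcases mul_eq_zero.1 h0 with h | h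
    · exact h
    · exact absurd (neg_eq_zero.1 h) hYu
  obtain ⟨D, hDr⟩ := hi μ
  have h0 := hμ _ (hup 0 M.zero_mem D)
  have h2 : ∑ v ∈ U, μ v * dot (x0 - p v)
      (Function.update (0 : V → Fin k → ℝ) x D x - Function.update (0 : V → Fin k → ℝ) x D v)
        = ∑ v ∈ U, μ v * μ v := by
    apply Finset.sum_congr rfl
    intro v hv
    have hne : v ≠ x := fun h => hxU (h ▸ hv)
    rw [Function.update_self, Function.update_of_ne hne]
    by_cases hf : ∀ X ∈ M, X v = 0
    · rw [Pi.zero_apply, sub_zero, hDr v hv hf]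
    · push Not at hf
      rw [h1 v hv hf]; simp
  rw [h2] at h0
  intro u hu
  have := (Finset.sum_eq_zero_iff_of_nonneg (fun v _ => mul_self_nonneg (μ v))).1 h0 u hu
  exact mul_self_eq_zero.1 this

/-- a nonzero vector orthogonal to fewer than `k` vectors -/
lemma exists_orth (F : Finset V) (w : V → Fin k → ℝ) (hF : F.card < k) :
    ∃ ξ : Fin k → ℝ, ξ ≠ 0 ∧ ∀ u ∈ F, dot (w u) ξ = 0 := by
  let f : (Fin k → ℝ) →ₗ[ℝ] (F → ℝ) :=
    { toFun := fun ξ u => dot (w u.1) ξ
      map_add' := by intro a b; funext u; simp [dot_add]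
      map_smul' := by intro a b; funext u; simp [dot_smul] }
  have h : LinearMap.ker f ≠ ⊥ := by
    apply LinearMap.ker_ne_bot_of_finrank_lt
    simp [hF]
  obtain ⟨ξ, hξ, hne⟩ := (Submodule.ne_bot_iff _).1 h
  refine ⟨ξ, hne, fun u hu => ?_⟩
  have : f ξ = 0 := hξ
  exact congrFun this ⟨u, hu⟩

end CVB_

open CVB_ in
theorem cvb_proof (h1 : Stmt_GNE) (h2 : Stmt_LIN) (h3 : Stmt_STA) (h4 : Stmt_NVA) (h5 : Stmt_FRZ)
    (h6 : Stmt_XZR) : Stmt_CVB := by
  intro V _ k hk p hp H Q U x hHp hHx hQc hxQ hQ hxU hDec hGen hF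
  have hup : ∀ X ∈ Mot p Q H, ∀ D : Fin k → ℝ, Function.update X x D ∈ Mot p Q H :=
    fun X hX D => update_mem hHx hxQ hX D
  -- properties of `p x`
  have hii : ∀ u ∈ U, (∃ X ∈ Mot p Q H, X u ≠ 0) →
      ∃ X ∈ Mot p Q H, dot (p x - p u) (X u) ≠ 0 := by
    intro u hu hex
    have hne : u ≠ x := fun h => hxU (h ▸ hu)
    obtain ⟨X, hX, _, hX2⟩ := h4 V k p hp H Q x u hHx hne hex
    exact ⟨X, hX, hX2⟩
  have hi : ∀ r : V → ℝ, ∃ D : Fin k → ℝ, ∀ u ∈ U, (∀ X ∈ Mot p Q H, X u = 0) →
      dot (p x - p u) D = r u := by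
    intro r
    obtain ⟨D, hD⟩ := (h3 V k p hp x (U ∩ fr p Q H)
      (fun h => hxU (Finset.mem_inter.1 h).1)).1 hF.le r
    exact ⟨D, fun u hu hf => hD u (Finset.mem_inter.2 ⟨hu, (mem_fr _ _ _ _).2 hf⟩)⟩
  refine ⟨?_, ?_⟩
  · intro μ hμ
    apply weights_zero (p := p) (Mot p Q H) U x (p x) hxU hup hDec hi hii μ
    intro X hX
    have := hμ X hX
    simpa only [ell_mk] using this
  · intro z hz
    by_cases hzx : z = x
    · -- the new vertex itself
      subst hzx
      obtain ⟨ξ, hξ, hξF⟩ := exists_orth (U ∩ fr p Q H) (fun u => p z - p u) hF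
      have hch : ∀ u : V, ∃ Y ∈ Mot p Q H, u ∈ U → dot (p z - p u) (ξ - Y u) = 0 := by
        intro u
        by_cases hu : u ∈ U
        · by_cases hf : ∀ X ∈ Mot p Q H, X u = 0
          · refine ⟨0, (Mot p Q H).zero_mem, fun _ => ?_⟩
            have := hξF u (Finset.mem_inter.2 ⟨hu, (mem_fr _ _ _ _).2 hf⟩)
            simpa using this
          · push Not at hf
            obtain ⟨Y, hY, hYu⟩ := hii u hu hf
            refine ⟨(dot (p z - p u) ξ / dot (p z - p u) (Y u)) • Y,
              (Mot p Q H).smul_mem _ hY, fun _ => ?_⟩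
            rw [dot_sub, Pi.smul_apply, dot_smul, div_mul_cancel₀ _ hYu, sub_self]
        · exact ⟨0, (Mot p Q H).zero_mem, fun h => absurd h hu⟩
      choose Y hY hYU using hch
      obtain ⟨X, hX, hXU⟩ := hDec Y (fun u _ => hY u)
      refine ⟨Function.update X z ξ, ?_, ?_⟩
      · rw [mem_Mot]
        have hm := hup X hX ξ
        rw [mem_Mot] at hm
        refine ⟨hm.1, fun e he => ?_⟩
        rcases Finset.mem_union.1 he with he | he
        · exact hm.2 e he
        · obtain ⟨u, hu, rfl⟩ := (mem_star _ _ _).1 he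
          have hne : u ≠ z := fun h => hxU (h ▸ hu)
          rw [ell_mk, Function.update_self, Function.update_of_ne hne, hXU u hu]
          exact hYU u hu
      · rw [Function.update_self]; exact hξ
    · -- another vertex: special position of the new vertex
      obtain ⟨hFRZ1, -⟩ := h5 V k p hp H Q hQc hQ
      have hpair : ∀ u ∈ U, ∀ v ∈ U, u ≠ v → (∃ X ∈ Mot p Q H, X u ≠ 0) →
          ∃ X ∈ Mot p Q H, dot (p u - p v) (X u - X v) ≠ 0 := by
        intro u hu v hv huv hex
        by_contra hcon
        push Not at hcon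
        apply hGen u hu v hv huv hex
        apply hFRZ1
        intro X hX
        rw [ell_mk]; exact hcon X hX
      have hcard : (U.filter (fun u => ∀ X ∈ Mot p Q H, X u = 0)).card < k := by
        refine lt_of_le_of_lt (Finset.card_le_card ?_) hF
        intro u hu
        rw [Finset.mem_filter] at hu
        exact Finset.mem_inter.2 ⟨hu.1, (mem_fr _ _ _ _).2 hu.2⟩
      obtain ⟨x0, hx1, hx2, ξ, X, hX, hXU, hXz⟩ := h6 V k hk p hp (Mot p Q H) U hDec hpair hcard z hz
      obtain ⟨H', hH'H, hH'I, hH'M⟩ := (h2 V k p Q H ∅).2.2.2.1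
      set q : V → Fin k → ℝ := Function.update p x x0 with hq
      have hqx : q x = x0 := by rw [hq, Function.update_self]
      have hqu : ∀ u, u ≠ x → q u = p u := fun u hu => by rw [hq, Function.update_of_ne hu]
      have hell : ∀ e ∈ H, ∀ Y : V → Fin k → ℝ, ell q Y e = ell p Y e := by
        intro e he Y
        apply ell_congr e
        · intro i hi
          exact hqu i (fun h => hHx e he (h ▸ hi))
        · intro i _; rfl
      -- the star rows and the basis are independent at `q`
      have hInd : Ind q Q (H' ∪ star x U) ∅ := by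
        intro ω θ hω
        have hdisj : Disjoint H' (star x U) := by
          rw [Finset.disjoint_left]
          intro e he he'
          obtain ⟨u, hu, rfl⟩ := (mem_star _ _ _).1 he'
          exact hHx _ (hH'H he) (by simp)
        have hinj : Set.InjOn (fun u => s(x, u)) (U : Set V) := by
          intro u hu v hv huv
          have huv' : s(x, u) = s(x, v) := huv
          rw [Sym2.eq_iff] at huv'
          rcases huv' with ⟨_, h⟩ | ⟨h1', h2'⟩
          · exact h
          · rw [← h1']; exact h2'
        have hsum : ∀ Y : V → Fin k → ℝ, ∑ e ∈ H' ∪ star x U, ω e * ell q Y e =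
            ∑ e ∈ H', ω e * ell q Y e + ∑ u ∈ U, ω s(x, u) * ell q Y s(x, u) := by
          intro Y
          rw [Finset.sum_union hdisj]
          congr 1
          unfold star
          rw [Finset.sum_image hinj]
        have hstar : ∀ u ∈ U, ω s(x, u) = 0 := by
          apply weights_zero (p := p) (Mot p Q H) U x x0 hxU hup hDec hx1 hx2 (fun u => ω s(x, u))
          intro Y hY
          have h := hω Y hY.1
          rw [hsum Y] at h
          have h0 : ∑ e ∈ H', ω e * ell q Y e = 0 := by
            apply Finset.sum_eq_zero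
            intro e he
            rw [hell e (hH'H he), hY.2 e (hH'H he), mul_zero]
          rw [h0, zero_add, Finset.sum_empty, add_zero] at h
          rw [← h]
          apply Finset.sum_congr rfl
          intro u hu
          have hne : u ≠ x := fun h => hxU (h ▸ hu)
          rw [ell_mk, hqx, hqu u hne]
        have hbase : ∀ e ∈ H', ω e = 0 := by
          refine (hH'I ω (fun _ => 0) ?_).1
          intro Y hY
          have h := hω Y hY
          rw [hsum Y] at h
          have h0 : ∑ u ∈ U, ω s(x, u) * ell q Y s(x, u) = 0 := by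
            apply Finset.sum_eq_zero
            intro u hu
            rw [hstar u hu, zero_mul]
          rw [h0, add_zero, Finset.sum_empty, add_zero] at h
          rw [Finset.sum_empty, add_zero, ← h]
          apply Finset.sum_congr rfl
          intro e he
          rw [hell e (hH'H he)]
        refine ⟨fun e he => ?_, fun y hy => absurd hy (Finset.notMem_empty y)⟩
        rcases Finset.mem_union.1 he with he | he
        · exact hbase e he
        · obtain ⟨u, hu, rfl⟩ := (mem_star _ _ _).1 he
          exact hstar u hu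
      -- a motion at `q` not vanishing at `z`
      obtain ⟨c, hc⟩ : ∃ c, X z c ≠ 0 := by
        by_contra hcon
        push Not at hcon
        exact hXz (funext hcon)
      have hmot : ∃ Y ∈ Mot q Q (H' ∪ star x U), Y z c ≠ 0 := by
        refine ⟨Function.update X x ξ, ?_, ?_⟩
        · have hm := hup X hX ξ
          rw [mem_Mot] at hm ⊢
          refine ⟨hm.1, fun e he => ?_⟩
          rcases Finset.mem_union.1 he with he | he
          · rw [hell e (hH'H he)]; exact hm.2 e (hH'H he)
          · obtain ⟨u, hu, rfl⟩ := (mem_star _ _ _).1 he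
            have hne : u ≠ x := fun h => hxU (h ▸ hu)
            rw [ell_mk, Function.update_self, Function.update_of_ne hne, hqx, hqu u hne]
            exact hXU u hu
        · rw [Function.update_of_ne hzx]; exact hc
      have hInd2 : Ind q Q (H' ∪ star x U) {(z, c)} :=
        (h2 V k q Q (H' ∪ star x U) ∅).2.2.1 z c hInd hmot
      have hInd3 : Ind p Q (H' ∪ star x U) {(z, c)} :=
        h1 V k p q hp Q (H' ∪ star x U) {(z, c)} hInd2
      obtain ⟨Y, hY1, hY2, hY3⟩ := (h2 V k p Q (H' ∪ star x U) {(z, c)}).1 hInd3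
        (fun _ => 0) (fun _ => 1)
      have hYz : Y z c = 1 := hY3 (z, c) (Finset.mem_singleton_self _)
      have hYH : Y ∈ Mot p Q H := by
        rw [← hH'M]
        exact ⟨hY1, fun e he => hY2 e (Finset.mem_union_left _ he)⟩
      refine ⟨Y, ?_, ?_⟩
      · rw [mem_Mot]
        refine ⟨hY1, fun e he => ?_⟩
        rcases Finset.mem_union.1 he with he | he
        · exact hYH.2 e he
        · exact hY2 e (Finset.mem_union_right _ he)
      · intro h0
        rw [h0] at hYz
        simp at hYz

end Pool.Agent.GRR
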