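import Pool.Agent.GRR.Stmts

/-!
# GRR module DEC: no relation means independence
-/

set_option autoImplicit false

open Finset
open scoped Classical

namespace Pool.Agent.GRR

namespace DEC_

/-- a functional on `U → ℝ^k` in coordinates -/
lemma functional_eq {V : Type} {k : ℕ} (U : Finset V)
    (f : (U → Fin k → ℝ) →ₗ[ℝ] ℝ) (e : U → Fin k → ℝ) :
    f e = ∑ u : U, ∑ c, f (Pi.single u (Pi.single c 1)) * e u c := by
  have h1 : e = ∑ u : U, ∑ c, e u c • (Pi.single u (Pi.single c (1 : ℝ)) : U → Fin k → ℝ) := by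
    funext u c
    rw [Finset.sum_apply, Finset.sum_apply, Finset.sum_eq_single u]
    · rw [Finset.sum_apply, Finset.sum_apply, Finset.sum_eq_single c]
      · simp
      · intro c' _ hc'
        simp [Pi.single_eq_of_ne' hc']
      · intro h; exact absurd (Finset.mem_univ c) h
    · intro u' _ hu'
      rw [Finset.sum_apply, Finset.sum_apply]
      refine Finset.sum_eq_zero fun c' _ => ?_
      simp [Pi.single_eq_of_ne' hu']
    · intro h; exact absurd (Finset.mem_univ u) h
  conv_lhs => rw [h1]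
  rw [map_sum]
  refine Finset.sum_congr rfl fun u _ => ?_
  rw [map_sum]
  refine Finset.sum_congr rfl fun c _ => ?_
  rw [map_smul, smul_eq_mul, mul_comm]

end DEC_

open DEC_ in
theorem dec_proof : Stmt_DEC := by
  intro V _ k p G U g hbad Q hg hQ
  by_contra hdec
  apply hbad
  unfold Dec at hdec
  push Not at hdec
  obtain ⟨Z, hZ, hno⟩ := hdec
  let φ : (V → Fin k → ℝ) →ₗ[ℝ] (U → Fin k → ℝ) :=
    { toFun := fun X u => X u.1
      map_add' := fun _ _ => rfl
      map_smul' := fun _ _ => rfl }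
  let N : Submodule ℝ (U → Fin k → ℝ) := (Mot p Q G).map φ
  let z : U → Fin k → ℝ := fun u => Z u.1 u.1
  have hz : z ∉ N := by
    rintro ⟨X, hX, hXz⟩
    obtain ⟨u, hu, hne⟩ := hno X hX
    exact hne (congrFun hXz ⟨u, hu⟩)
  obtain ⟨f, hf, hfN⟩ := Submodule.exists_dual_map_eq_bot_of_notMem hz inferInstance
  let a : V → Fin k → ℝ := fun u c =>
    if hu : u ∈ U then f (Pi.single ⟨u, hu⟩ (Pi.single c 1)) else 0
  have hfa : ∀ e : V → Fin k → ℝ, f (fun u : U => e u.1) = ∑ u ∈ U, dot (a u) (e u) := by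
    intro e
    rw [functional_eq U f, ← Finset.sum_coe_sort U]
    refine Finset.sum_congr rfl fun u _ => ?_
    unfold dot
    refine Finset.sum_congr rfl fun c _ => ?_
    simp [a]
  refine ⟨Q, hg, hQ, a, ?_, ?_, ?_⟩
  · intro X hX
    rw [← hfa]
    have : f (φ X) ∈ N.map f := ⟨φ X, ⟨X, hX, rfl⟩, rfl⟩
    rw [hfN] at this
    exact (Submodule.mem_bot ℝ).mp this
  · have h1 : ∑ u ∈ U, dot (a u) ((fun v => Z v v) u) ≠ 0 := by
      rw [← hfa (fun v => Z v v)]
      exact hf
    obtain ⟨u, hu, hne⟩ := Finset.exists_ne_zero_of_sum_ne_zero h1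
    exact ⟨u, Finset.mem_filter.mpr ⟨hu, Z u, hZ u hu, hne⟩⟩
  · calc ∑ u ∈ supp (Mot p Q G) U a, (Module.finrank ℝ (Uat (Mot p Q G) u) - 1)
        ≤ ∑ u ∈ supp (Mot p Q G) U a, k := by
          refine Finset.sum_le_sum fun u _ => ?_
          have : Module.finrank ℝ (Uat (Mot p Q G) u) ≤ Module.finrank ℝ (Fin k → ℝ) :=
            Submodule.finrank_le _
          rw [Module.finrank_fin_fun] at this
          omega
      _ = (supp (Mot p Q G) U a).card * k := by rw [Finset.sum_const, smul_eq_mul]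
      _ ≤ U.card * k := Nat.mul_le_mul_right k (Finset.card_le_card (Finset.filter_subset _ _))

end Pool.Agent.GRR
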