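import Pool.Agent.GRR.Stmts

/-! DEG: degrees of the random graph -/

set_option autoImplicit false

open Finset
open scoped Classical

namespace Pool.Agent.GRR

namespace DEG_

variable {α : Type} {π : ℝ} {D : Finset α}

/-- the probability that `F ⊆ G` -/
theorem pr_sub (hE : Stmt_EXB) (hS : Stmt_SBE) (h0 : 0 < π) (h1 : π ≤ 1) (F : Finset α)
    (hF : F ⊆ D) : Pr π D (fun G => F ⊆ G) = π ^ F.card := by
  induction F using Finset.induction_on with
  | empty =>
    have h := (hE α π D h0.le h1).1
    unfold Pr
    simp only [Finset.empty_subset, if_true, Finset.card_empty, pow_zero]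
    exact h
  | insert e F he ih =>
    have heD : e ∈ D := hF (mem_insert_self e F)
    have ih' := ih (fun f hf => hF (mem_insert_of_mem hf))
    have h := hS α π D h0 h1 e heD (fun G => if F ⊆ G then 1 else 0)
    have e1 : Ex π D (fun G => if F ⊆ insert e G then (1 : ℝ) else 0) =
        Pr π D (fun G => F ⊆ G) := by
      unfold Pr
      congr 1
      funext G
      have : F ⊆ insert e G ↔ F ⊆ G := by
        constructor
        · intro hh f hf
          rcases mem_insert.1 (hh hf) with rfl | h'
          · exact absurd hf he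
          · exact h'
        · intro hh f hf
          exact mem_insert_of_mem (hh hf)
      by_cases hG : F ⊆ G
      · rw [if_pos (this.2 hG), if_pos hG]
      · rw [if_neg (fun h' => hG (this.1 h')), if_neg hG]
    have e2 : Ex π D (fun G => if e ∈ G then (if F ⊆ G then (1 : ℝ) else 0) else 0) =
        Pr π D (fun G => insert e F ⊆ G) := by
      unfold Pr
      congr 1
      funext G
      by_cases h1 : e ∈ G
      · by_cases h2 : F ⊆ G
        · rw [if_pos h1, if_pos h2, if_pos (insert_subset h1 h2)]
        · rw [if_pos h1, if_neg h2, if_neg (fun h' => h2 ((subset_insert e F).trans h'))]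
      · rw [if_neg h1, if_neg (fun h' => h1 (h' (mem_insert_self e F)))]
    rw [card_insert_of_notMem he, ← e2, pow_succ, ← ih', ← e1]
    rw [h]
    field_simp

variable {V : Type} [Fintype V]

theorem star_card (x : V) (U : Finset V) : (star x U).card = U.card := by
  unfold star
  apply card_image_of_injective
  intro a b h
  have h' : a = b ∨ x = b ∧ a = x := by simpa using h
  rcases h' with h' | ⟨h1, h2⟩
  · exact h'
  · rw [h2, h1]

theorem star_sub (x : V) (U : Finset V) (hU : x ∉ U) : star x U ⊆ pairs V := by
  intro e he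
  obtain ⟨u, hu, rfl⟩ := (mem_star x U e).1 he
  rw [mem_pairs]
  intro h
  have : x = u := by simpa using h
  exact hU (this ▸ hu)

/-- the indicator of an edge at `x` -/
noncomputable def ed (x y : V) (G : Finset (Sym2 V)) : ℝ := if s(x, y) ∈ G then 1 else 0

theorem nbr_card (G : Finset (Sym2 V)) (x : V) :
    ((nbr G x).card : ℝ) = ∑ y ∈ univ.erase x, ed x y G := by
  have : nbr G x = (univ.erase x).filter (fun y => s(x, y) ∈ G) := by
    ext y
    simp only [mem_nbr, mem_filter, mem_erase, mem_univ, and_true]
  rw [this, card_filter]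
  push_cast
  rfl

theorem ex_ed (hE : Stmt_EXB) (hS : Stmt_SBE) (h0 : 0 < π) (h1 : π ≤ 1) (x y z : V) (hy : y ≠ x)
    (hz : z ≠ x) : Ex π (pairs V) (fun G => ed x y G * ed x z G) =
      if y = z then π else π ^ 2 := by
  have h : Ex π (pairs V) (fun G => ed x y G * ed x z G) =
      Pr π (pairs V) (fun G => star x {y, z} ⊆ G) := by
    unfold Pr
    congr 1
    funext G
    have key : star x {y, z} ⊆ G ↔ s(x, y) ∈ G ∧ s(x, z) ∈ G := by
      constructor
      · intro hh
        exact ⟨hh ((mem_star _ _ _).2 ⟨y, by simp, rfl⟩), hh ((mem_star _ _ _).2 ⟨z, by simp, rfl⟩)⟩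
      · rintro ⟨ha, hb⟩ e he
        obtain ⟨u, hu, rfl⟩ := (mem_star _ _ _).1 he
        rcases mem_insert.1 hu with rfl | hu
        · exact ha
        · rw [mem_singleton.1 hu]; exact hb
    unfold ed
    by_cases ha : s(x, y) ∈ G
    · by_cases hb : s(x, z) ∈ G
      · rw [if_pos ha, if_pos hb, if_pos (key.2 ⟨ha, hb⟩), one_mul]
      · rw [if_neg hb, mul_zero, if_neg (fun h' => hb (key.1 h').2)]
    · rw [if_neg ha, zero_mul, if_neg (fun h' => ha (key.1 h').1)]
  rw [h, pr_sub hE hS h0 h1 _ (star_sub x _ (by
    rw [mem_insert, mem_singleton]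
    rintro (h' | h')
    · exact hy h'.symm
    · exact hz h'.symm)), star_card]
  by_cases hyz : y = z
  · subst hyz
    simp
  · rw [if_neg hyz, card_pair hyz]

end DEG_

open DEG_

theorem deg_proof (h1 : Stmt_EXB) (h2 : Stmt_SBE) : Stmt_DEG := by
  intro V _ c hc hcV
  have hn : (0 : ℝ) < Fintype.card V := lt_of_lt_of_le hc hcV
  have hπ0 : 0 < c / Fintype.card V := div_pos hc hn
  have hπ1 : c / Fintype.card V ≤ 1 := (div_le_one hn).2 hcV
  obtain ⟨-, hmono, hprm, -, -, -, hub, hsum, -, -⟩ :=
    h1 (Sym2 V) (c / Fintype.card V) (pairs V) hπ0.le hπ1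
  constructor
  · intro x
    have e1 : (fun G : Finset (Sym2 V) => ((nbr G x).card : ℝ) ^ 2) =
        fun G => ∑ y ∈ univ.erase x, ∑ z ∈ univ.erase x, ed x y G * ed x z G := by
      funext G
      rw [nbr_card, sq, Finset.sum_mul_sum]
    rw [e1, hsum]
    have e2 : ∀ y ∈ univ.erase x, Ex (c / Fintype.card V) (pairs V)
        (fun G => ∑ z ∈ univ.erase x, ed x y G * ed x z G) ≤
        c / Fintype.card V + c * (c / Fintype.card V) := by
      intro y hy
      rw [hsum]
      calc ∑ z ∈ univ.erase x, Ex (c / Fintype.card V) (pairs V) (fun G => ed x y G * ed x z G)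
          = ∑ z ∈ univ.erase x, (if y = z then c / Fintype.card V
              else (c / Fintype.card V) ^ 2) :=
            sum_congr rfl fun z hz => ex_ed h1 h2 hπ0 hπ1 x y z (ne_of_mem_erase hy)
              (ne_of_mem_erase hz)
        _ ≤ ∑ z ∈ univ.erase x, ((if y = z then c / Fintype.card V else 0) +
              (c / Fintype.card V) ^ 2) := by
            apply sum_le_sum
            intro z _
            split_ifs
            · have := sq_nonneg (c / (Fintype.card V : ℝ)); linarith
            · simp
        _ = c / Fintype.card V + ((univ.erase x).card : ℝ) * (c / Fintype.card V) ^ 2 := by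
            rw [sum_add_distrib, sum_ite_eq, if_pos hy, sum_const, nsmul_eq_mul]
        _ ≤ c / Fintype.card V + (Fintype.card V : ℝ) * (c / Fintype.card V) ^ 2 := by
            have : ((univ.erase x).card : ℝ) ≤ Fintype.card V := by
              exact_mod_cast (card_le_univ _)
            gcongr
        _ = c / Fintype.card V + c * (c / Fintype.card V) := by
            field_simp
    calc ∑ y ∈ univ.erase x, Ex (c / Fintype.card V) (pairs V)
          (fun G => ∑ z ∈ univ.erase x, ed x y G * ed x z G)
        ≤ ∑ _y ∈ univ.erase x, (c / Fintype.card V + c * (c / Fintype.card V)) := sum_le_sum e2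
      _ = ((univ.erase x).card : ℝ) * (c / Fintype.card V + c * (c / Fintype.card V)) := by
          rw [sum_const, nsmul_eq_mul]
      _ ≤ (Fintype.card V : ℝ) * (c / Fintype.card V + c * (c / Fintype.card V)) := by
          have : ((univ.erase x).card : ℝ) ≤ Fintype.card V := by
            exact_mod_cast (card_le_univ _)
          gcongr
      _ = c ^ 2 + c := by
          field_simp
          ring
  · intro x r
    have hle := hub (Finset V) (powersetCard r (univ.erase x)) (fun T G => star x T ⊆ G)
      (fun G => r ≤ (nbr G x).card) (by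
        intro G _ hr
        obtain ⟨T, hT, hTc⟩ := exists_subset_card_eq hr
        refine ⟨T, mem_powersetCard.2 ⟨?_, hTc⟩, ?_⟩
        · intro t ht
          exact mem_erase.2 ⟨((mem_nbr G x t).1 (hT ht)).1, mem_univ _⟩
        · intro e he
          obtain ⟨u, hu, rfl⟩ := (mem_star _ _ _).1 he
          exact ((mem_nbr G x u).1 (hT hu)).2)
    refine hle.trans ?_
    have e3 : ∀ T ∈ powersetCard r (univ.erase x),
        Pr (c / Fintype.card V) (pairs V) (fun G => star x T ⊆ G) =
          (c / Fintype.card V) ^ r := by
      intro T hT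
      obtain ⟨hT1, hT2⟩ := mem_powersetCard.1 hT
      rw [pr_sub h1 h2 hπ0 hπ1 _ (star_sub x T (fun h => absurd (hT1 h) (notMem_erase x _))),
        star_card, hT2]
    rw [sum_congr rfl e3, sum_const, card_powersetCard, nsmul_eq_mul]
    have hr0 : (0 : ℝ) < r.factorial := by exact_mod_cast Nat.factorial_pos r
    rw [le_div_iff₀ hr0]
    have h3 : (((univ.erase x).card.choose r : ℕ) : ℝ) * r.factorial ≤
        (Fintype.card V : ℝ) ^ r := by
      have h4 : (univ.erase x).card.choose r * r.factorial ≤ (univ.erase x).card ^ r := by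
        rw [mul_comm, ← Nat.descFactorial_eq_factorial_mul_choose]
        exact Nat.descFactorial_le_pow _ _
      have h5 : (univ.erase x).card ^ r ≤ Fintype.card V ^ r :=
        Nat.pow_le_pow_left (card_le_univ _) r
      exact_mod_cast h4.trans h5
    calc (((univ.erase x).card.choose r : ℕ) : ℝ) * (c / Fintype.card V) ^ r * r.factorial
        = (((univ.erase x).card.choose r : ℕ) : ℝ) * r.factorial * (c / Fintype.card V) ^ r := by
          ring
      _ ≤ (Fintype.card V : ℝ) ^ r * (c / Fintype.card V) ^ r :=
          mul_le_mul_of_nonneg_right h3 (by positivity)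
      _ = c ^ r := by
          rw [← mul_pow]
          congr 1
          field_simp

end Pool.Agent.GRR
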