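import Pool.Agent.GRR.Stmts

/-!
# GRR module DEN: a dense closure contains a clique of linear size
-/

set_option autoImplicit false

open Finset
open scoped Classical

namespace Pool.Agent.GRR

namespace DEN_

/-- the closure as a simple graph -/
def cg {V : Type} {k : ℕ} [Fintype V] (p : V → Fin k → ℝ) (G : Finset (Sym2 V)) :
    SimpleGraph V where
  Adj x y := x ≠ y ∧ Cl p G s(x, y)
  symm := ⟨fun x y h => ⟨h.1.symm, by rw [Sym2.eq_swap]; exact h.2⟩⟩
  loopless := ⟨fun x h => h.1 rfl⟩

lemma card_edges {V : Type} {k : ℕ} [Fintype V] (p : V → Fin k → ℝ) (G : Finset (Sym2 V)) :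
    (cg p G).edgeFinset.card = ((pairs V).filter (fun e => Cl p G e)).card := by
  congr 1
  ext e
  rw [SimpleGraph.mem_edgeFinset, Finset.mem_filter, mem_pairs]
  induction e with
  | h i j =>
    rw [SimpleGraph.mem_edgeSet]
    simp [cg]

lemma card_pairs (V : Type) [Fintype V] :
    ((pairs V).card : ℝ) = (Fintype.card V : ℝ) * ((Fintype.card V : ℝ) - 1) / 2 := by
  have h : (pairs V).card = (Fintype.card V).choose 2 := by
    rw [← Sym2.card_subtype_not_diag, Fintype.card_subtype]
    rfl
  rw [h, Nat.cast_choose_two]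

lemma sum_deg {V : Type} {k : ℕ} [Fintype V] (p : V → Fin k → ℝ) (G : Finset (Sym2 V)) (η : ℝ)
    (hV : 2 ≤ Fintype.card V) (h : η ≤ clc p G) :
    η * (Fintype.card V * ((Fintype.card V : ℝ) - 1)) ≤ ∑ x, ((cg p G).degree x : ℝ) := by
  have h1 : (∑ x, (cg p G).degree x : ℕ) = 2 * (cg p G).edgeFinset.card :=
    SimpleGraph.sum_degrees_eq_twice_card_edges _
  have h2 : (∑ x, ((cg p G).degree x : ℝ)) = 2 * (cg p G).edgeFinset.card := by
    exact_mod_cast h1
  have hn : (2 : ℝ) ≤ Fintype.card V := by exact_mod_cast hV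
  rw [h2, card_edges]
  unfold clc at h
  have hp : 0 < ((pairs V).card : ℝ) := by
    rw [card_pairs]
    have : 0 < (Fintype.card V : ℝ) * ((Fintype.card V : ℝ) - 1) :=
      mul_pos (by linarith) (by linarith)
    linarith
  rw [le_div_iff₀ hp, card_pairs] at h
  linarith

end DEN_

open DEN_ in
theorem den_proof (h1 : Stmt_BIP) : Stmt_DEN := by
  intro k η hη
  obtain ⟨γ, hγ⟩ : ∃ γ : ℝ, γ = 1 / 2 * (η / 2) * (η / 4) ^ (k + 1) := ⟨_, rfl⟩
  have hγ0 : 0 < γ := by rw [hγ]; positivity
  refine ⟨γ, hγ0, ⌈4 / η * (k + η / 2)⌉₊ + ⌈((k + 1 : ℝ) * (k + 1)) / γ⌉₊ + 2, ?_⟩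
  intro V _ p hp hn G hG
  obtain ⟨n, hnn⟩ : ∃ n : ℝ, n = Fintype.card V := ⟨_, rfl⟩
  have hn2 : 2 ≤ Fintype.card V := by omega
  have hn2' : (2 : ℝ) ≤ n := by rw [hnn]; exact_mod_cast hn2
  have hnA : 4 / η * (k + η / 2) ≤ n := by
    refine (Nat.le_ceil _).trans ?_
    rw [hnn]
    exact Nat.cast_le.mpr (by omega)
  have hnB : ((k + 1 : ℝ) * (k + 1)) / γ ≤ n := by
    refine (Nat.le_ceil _).trans ?_
    rw [hnn]
    exact Nat.cast_le.mpr (by omega)
  have hA1 : η / 4 * n ≤ η / 2 * (n - 1) - k := by
    have h2 : k + η / 2 ≤ η / 4 * n := by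
      have := mul_le_mul_of_nonneg_left hnA (by positivity : 0 ≤ η / 4)
      have e : η / 4 * (4 / η * (k + η / 2)) = k + η / 2 := by
        field_simp
      linarith
    linarith
  have hB1 : ((k + 1 : ℝ) * (k + 1)) ≤ γ * n := by
    rw [div_le_iff₀ hγ0] at hnB
    linarith
  -- the degrees
  set H := cg p G with hH
  let d : V → ℕ := fun x => H.degree x
  have hd : ∀ x, (d x : ℝ) ≤ n - 1 := by
    intro x
    have := H.degree_lt_card_verts x
    have h3 : ((d x + 1 : ℕ) : ℝ) ≤ Fintype.card V := by exact_mod_cast this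
    push_cast at h3
    linarith
  have hsum := sum_deg p G η hn2 hG
  rw [← hnn] at hsum
  set S := univ.filter (fun x => η / 2 * (n - 1) ≤ (d x : ℝ)) with hS
  have hScard : η / 2 * n ≤ S.card := by
    have h2 : ∑ x, (d x : ℝ) ≤ S.card * (n - 1) + n * (η / 2 * (n - 1)) := by
      rw [← Finset.sum_filter_add_sum_filter_not univ (fun x => η / 2 * (n - 1) ≤ (d x : ℝ))]
      apply add_le_add
      · calc ∑ x ∈ univ.filter (fun x => η / 2 * (n - 1) ≤ (d x : ℝ)), (d x : ℝ)
            ≤ ∑ x ∈ univ.filter (fun x => η / 2 * (n - 1) ≤ (d x : ℝ)), (n - 1) :=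
              Finset.sum_le_sum fun x _ => hd x
          _ = S.card * (n - 1) := by rw [Finset.sum_const, nsmul_eq_mul]
      · calc ∑ x ∈ univ.filter (fun x => ¬ η / 2 * (n - 1) ≤ (d x : ℝ)), (d x : ℝ)
            ≤ ∑ x ∈ univ.filter (fun x => ¬ η / 2 * (n - 1) ≤ (d x : ℝ)), (η / 2 * (n - 1)) := by
              refine Finset.sum_le_sum fun x hx => ?_
              exact (not_le.mp (Finset.mem_filter.mp hx).2).le
          _ = (univ.filter (fun x => ¬ η / 2 * (n - 1) ≤ (d x : ℝ))).card *
                (η / 2 * (n - 1)) := by rw [Finset.sum_const, nsmul_eq_mul]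
          _ ≤ n * (η / 2 * (n - 1)) := by
              apply mul_le_mul_of_nonneg_right
              · rw [hnn]
                exact_mod_cast Finset.card_le_univ _
              · have : 0 ≤ n - 1 := by linarith
                positivity
    have h3 : η * (n * (n - 1)) ≤ S.card * (n - 1) + n * (η / 2 * (n - 1)) := hsum.trans h2
    have h4 : 0 < n - 1 := by linarith
    have h5 : η / 2 * n * (n - 1) ≤ S.card * (n - 1) := by nlinarith
    exact le_of_mul_le_mul_right h5 h4
  -- double counting
  have hdc : ∑ B ∈ powersetCard (k + 1) (univ : Finset V),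
      (univ.filter (fun x => B ⊆ H.neighborFinset x)).card =
      ∑ x, (d x).choose (k + 1) := by
    have e1 : ∀ B : Finset V, (univ.filter (fun x => B ⊆ H.neighborFinset x)).card =
        ∑ x : V, if B ⊆ H.neighborFinset x then 1 else 0 := by
      intro B; rw [Finset.card_filter]
    simp_rw [e1]
    rw [Finset.sum_comm]
    refine Finset.sum_congr rfl fun x _ => ?_
    rw [← Finset.card_filter]
    have e2 : (powersetCard (k + 1) (univ : Finset V)).filter (fun B => B ⊆ H.neighborFinset x) =
        powersetCard (k + 1) (H.neighborFinset x) := by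
      ext B
      simp only [Finset.mem_filter, Finset.mem_powersetCard, Finset.subset_univ, true_and]
      tauto
    rw [e2, Finset.card_powersetCard]
    rfl
  obtain ⟨B, hB, hBcard⟩ : ∃ B ∈ powersetCard (k + 1) (univ : Finset V),
      γ * n ≤ (univ.filter (fun x => B ⊆ H.neighborFinset x)).card := by
    by_contra hcon
    push Not at hcon
    have hfac : (0 : ℝ) < (k + 1).factorial := by exact_mod_cast Nat.factorial_pos _
    have u1 : (∑ x, ((d x).choose (k + 1) : ℝ)) ≤ (Fintype.card V).choose (k + 1) * (γ * n) := by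
      have : (∑ x, ((d x).choose (k + 1) : ℝ)) =
          ∑ B ∈ powersetCard (k + 1) (univ : Finset V),
            ((univ.filter (fun x => B ⊆ H.neighborFinset x)).card : ℝ) := by
        exact_mod_cast hdc.symm
      rw [this]
      calc ∑ B ∈ powersetCard (k + 1) (univ : Finset V),
            ((univ.filter (fun x => B ⊆ H.neighborFinset x)).card : ℝ)
          ≤ ∑ B ∈ powersetCard (k + 1) (univ : Finset V), (γ * n) :=
            Finset.sum_le_sum fun B hB => (hcon B hB).le
        _ = (Fintype.card V).choose (k + 1) * (γ * n) := by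
            rw [Finset.sum_const, nsmul_eq_mul, Finset.card_powersetCard, Finset.card_univ]
    have u2 : ((Fintype.card V).choose (k + 1) : ℝ) ≤ n ^ (k + 1) / (k + 1).factorial := by
      rw [hnn]
      exact Nat.choose_le_pow_div (k + 1) (Fintype.card V)
    have l1 : η / 2 * n * (η / 4 * n) ^ (k + 1) ≤
        (k + 1).factorial * ∑ x, ((d x).choose (k + 1) : ℝ) := by
      calc η / 2 * n * (η / 4 * n) ^ (k + 1)
          ≤ S.card * (η / 4 * n) ^ (k + 1) := by
            apply mul_le_mul_of_nonneg_right hScard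
            have : 0 ≤ n := by linarith
            positivity
        _ = ∑ x ∈ S, (η / 4 * n) ^ (k + 1) := by rw [Finset.sum_const, nsmul_eq_mul]
        _ ≤ ∑ x ∈ S, (k + 1).factorial * ((d x).choose (k + 1) : ℝ) := by
            refine Finset.sum_le_sum fun x hx => ?_
            have hx' : η / 2 * (n - 1) ≤ (d x : ℝ) := (Finset.mem_filter.mp hx).2
            have h3 : ((d x + 1 - (k + 1) : ℕ) : ℝ) ^ (k + 1) ≤
                (k + 1).factorial * ((d x).choose (k + 1) : ℝ) := by
              have := Nat.pow_le_choose (α := ℝ) (k + 1) (d x)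
              have h4 : (0 : ℝ) < (k + 1).factorial := hfac
              rw [div_le_iff₀ h4] at this
              linarith
            refine le_trans ?_ h3
            have h0 : 0 ≤ n := by linarith
            apply pow_le_pow_left₀ (by positivity)
            have h5 : (d x : ℝ) - k ≤ ((d x + 1 - (k + 1) : ℕ) : ℝ) := by
              have : d x ≤ (d x + 1 - (k + 1)) + k := by omega
              have h6 : (d x : ℝ) ≤ ((d x + 1 - (k + 1) : ℕ) : ℝ) + k := by exact_mod_cast this
              linarith
            linarith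
        _ ≤ ∑ x, (k + 1).factorial * ((d x).choose (k + 1) : ℝ) := by
            apply Finset.sum_le_sum_of_subset_of_nonneg (Finset.subset_univ _)
            intro x _ _
            positivity
        _ = _ := by rw [Finset.mul_sum]
    have h0 : 0 < n := by linarith
    have u3 : (k + 1).factorial * ∑ x, ((d x).choose (k + 1) : ℝ) ≤ n ^ (k + 1) * (γ * n) := by
      calc (k + 1).factorial * ∑ x, ((d x).choose (k + 1) : ℝ)
          ≤ (k + 1).factorial * ((Fintype.card V).choose (k + 1) * (γ * n)) :=
            mul_le_mul_of_nonneg_left u1 hfac.le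
        _ ≤ (k + 1).factorial * (n ^ (k + 1) / (k + 1).factorial * (γ * n)) := by
            apply mul_le_mul_of_nonneg_left _ hfac.le
            apply mul_le_mul_of_nonneg_right u2
            positivity
        _ = n ^ (k + 1) * (γ * n) := by
            field_simp
    have h7 := l1.trans u3
    have h8 : η / 2 * n * (η / 4 * n) ^ (k + 1) = 2 * (n ^ (k + 1) * (γ * n)) := by
      rw [hγ, mul_pow]
      ring
    rw [h8] at h7
    have h9 : 0 < n ^ (k + 1) * (γ * n) := by positivity
    linarith
  set A := univ.filter (fun x => B ⊆ H.neighborFinset x) with hA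
  have hBc : B.card = k + 1 := (Finset.mem_powersetCard.mp hB).2
  have hadj : ∀ a ∈ A, ∀ b ∈ B, H.Adj a b := by
    intro a ha b hb
    have := (Finset.mem_filter.mp ha).2 hb
    rwa [SimpleGraph.mem_neighborFinset] at this
  have hdis : Disjoint A B := by
    rw [Finset.disjoint_left]
    intro a ha hb
    exact (hadj a ha a hb).ne rfl
  refine ⟨A ∪ B, ?_, ?_⟩
  · rw [← hnn]
    refine hBcard.trans ?_
    exact_mod_cast Finset.card_le_card Finset.subset_union_left
  · apply h1 V k p hp G A B hdis _ hBc
    · intro a ha b hb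
      exact (hadj a ha b hb).2
    · have : ((k + 1 : ℝ) * (k + 1)) ≤ A.card := hB1.trans hBcard
      exact_mod_cast this

end Pool.Agent.GRR
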