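import Pool.Agent.GRR.Stmts

/-!
# GRR: module DGN, a random graph is independent in all large dimensions
-/

set_option autoImplicit false

open Finset
open scoped Classical

namespace Pool.Agent.GRR

namespace DGN_

/-- the probability that `T` is contained in the random set -/
theorem pr_subset (h1 : Stmt_EXB) {α : Type} (π : ℝ) (D T : Finset α) (h0 : 0 ≤ π) (hπ : π ≤ 1)
    (hT : T ⊆ D) : Pr π D (fun G => T ⊆ G) = π ^ T.card := by
  have hone : Ex π (D \ T) (fun _ => 1) = 1 := (h1 α π (D \ T) h0 hπ).1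
  unfold Ex at hone
  have e1 : Pr π D (fun G => T ⊆ G) =
      ∑ G ∈ D.powerset.filter (fun G => T ⊆ G), wt π D G := by
    unfold Pr Ex
    rw [Finset.sum_filter]
    refine Finset.sum_congr rfl fun G _ => ?_
    by_cases h : T ⊆ G
    · simp [h]
    · simp [h]
  rw [e1]
  have e2 : ∑ G ∈ D.powerset.filter (fun G => T ⊆ G), wt π D G =
      ∑ G ∈ (D \ T).powerset, π ^ T.card * wt π (D \ T) G := by
    refine Finset.sum_nbij' (fun G => G \ T) (fun G => G ∪ T) ?_ ?_ ?_ ?_ ?_
    · intro G hG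
      rw [mem_filter, mem_powerset] at hG
      rw [mem_powerset]
      exact sdiff_subset_sdiff hG.1 (subset_refl T)
    · intro G hG
      rw [mem_powerset] at hG
      rw [mem_filter, mem_powerset]
      exact ⟨union_subset (hG.trans sdiff_subset) hT, subset_union_right⟩
    · intro G hG
      rw [mem_filter] at hG
      exact sdiff_union_of_subset hG.2
    · intro G hG
      rw [mem_powerset] at hG
      have hd : Disjoint G T := disjoint_of_subset_left hG sdiff_disjoint
      exact union_sdiff_cancel_right hd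
    · intro G hG
      rw [mem_filter, mem_powerset] at hG
      have c1 : (G \ T).card + T.card = G.card := card_sdiff_add_card_eq_card hG.2
      have c2 : (D \ T).card + T.card = D.card := card_sdiff_add_card_eq_card hT
      unfold wt
      have c3 : D.card - G.card = (D \ T).card - (G \ T).card := by omega
      rw [c3, ← c1, pow_add]
      ring
  rw [e2, ← Finset.mul_sum]
  have e3 : ∑ G ∈ (D \ T).powerset, wt π (D \ T) G = 1 := by
    rw [← hone]
    exact Finset.sum_congr rfl fun G _ => (mul_one _).symm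
  rw [e3, mul_one]

variable {V : Type} [Fintype V]

/-- pairs inside `S` -/
theorem card_sub_le (S : Finset V) : (sub (pairs V) S).card ≤ S.card ^ 2 := by
  have h : sub (pairs V) S ⊆ (S ×ˢ S).image (fun x => s(x.1, x.2)) := by
    intro e he
    rw [mem_sub] at he
    induction e with
    | h i j =>
      rw [mem_image]
      exact ⟨(i, j), mem_product.2 ⟨he.2 i (by simp), he.2 j (by simp)⟩, rfl⟩
  refine (card_le_card h).trans (card_image_le.trans ?_)
  rw [card_product, sq]

/-- degrees and edges -/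
theorem sum_deg_le (R : Finset (Sym2 V)) : ∑ v ∈ vts R, (nbr R v).card ≤ 2 * R.card := by
  have h1 : ∀ v : V, (nbr R v).card ≤ (R.filter (fun e => v ∈ e)).card := by
    intro v
    refine card_le_card_of_injOn (fun w => s(v, w)) ?_ ?_
    · intro w hw
      have hw' := (mem_nbr R v w).1 hw
      simp only [coe_filter, Set.mem_ofPred_eq]
      exact ⟨hw'.2, by simp⟩
    · intro w _ w' _ hww
      exact Sym2.congr_right.1 hww
  calc ∑ v ∈ vts R, (nbr R v).card ≤ ∑ v ∈ vts R, (R.filter (fun e => v ∈ e)).card :=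
        Finset.sum_le_sum fun v _ => h1 v
    _ ≤ ∑ v : V, (R.filter (fun e => v ∈ e)).card :=
        Finset.sum_le_sum_of_subset (subset_univ _)
    _ = ∑ v : V, ∑ e ∈ R, (if v ∈ e then 1 else 0) := by
        refine Finset.sum_congr rfl fun v _ => ?_
        rw [card_filter]
    _ = ∑ e ∈ R, ∑ v : V, (if v ∈ e then 1 else 0) := Finset.sum_comm
    _ ≤ ∑ e ∈ R, 2 := by
        refine Finset.sum_le_sum fun e _ => ?_
        rw [← card_filter]
        induction e with
        | h i j =>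
          have : (univ.filter (fun v => v ∈ s(i, j)) : Finset V) ⊆ {i, j} := by
            intro v hv
            rw [mem_filter] at hv
            have := hv.2
            rw [Sym2.mem_iff] at this
            simp only [mem_insert, mem_singleton]
            exact this
          exact (card_le_card this).trans card_le_two
    _ = 2 * R.card := by
        rw [Finset.sum_const, smul_eq_mul, mul_comm]

/-- the deterministic part -/
theorem det (h2 : Stmt_RDF) (K0 k : ℕ) (hk : 2 * K0 ≤ k) (p : V → Fin k → ℝ) (hp : Gnr p)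
    (G : Finset (Sym2 V)) (hG : G ⊆ pairs V) (hR : Red p G ≠ ∅) :
    ∃ S : Finset V, S.Nonempty ∧ K0 * S.card ≤ (sub G S).card := by
  obtain ⟨-, -, h3, -, -⟩ := h2 V k p hp G hG
  refine ⟨vts (Red p G), ?_, ?_⟩
  · obtain ⟨e, he⟩ := Finset.nonempty_iff_ne_empty.2 hR
    induction e with
    | h i j =>
      exact ⟨i, (mem_vts _ _).2 ⟨_, he, by simp⟩⟩
  · have h4 : (k + 1) * (vts (Red p G)).card ≤ 2 * (Red p G).card := by
      refine le_trans ?_ (sum_deg_le (Red p G))
      rw [mul_comm, ← smul_eq_mul, ← Finset.sum_const]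
      exact Finset.sum_le_sum fun v hv => h3 v hv
    have h5 : (Red p G).card ≤ (sub G (vts (Red p G))).card := by
      refine card_le_card fun e he => ?_
      rw [mem_sub]
      exact ⟨((mem_Red _ _ _).1 he).1, fun i hi => (mem_vts _ _).2 ⟨e, he, hi⟩⟩
    have h6 : 2 * (K0 * (vts (Red p G)).card) ≤ (k + 1) * (vts (Red p G)).card := by
      rw [← mul_assoc]
      exact Nat.mul_le_mul_right _ (by omega)
    omega

/-- one vertex set -/
theorem pr_one (h1 : Stmt_EXB) (π : ℝ) (h0 : 0 ≤ π) (hπ : π ≤ 1) (m : ℕ) (S : Finset V) :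
    Pr π (pairs V) (fun G => m ≤ (sub G S).card) ≤ ((S.card ^ 2).choose m : ℝ) * π ^ m := by
  obtain ⟨-, -, -, -, -, -, h7, -⟩ := h1 (Sym2 V) π (pairs V) h0 hπ
  refine (h7 (Finset (Sym2 V)) (powersetCard m (sub (pairs V) S)) (fun T G => T ⊆ G)
    (fun G => m ≤ (sub G S).card) ?_).trans ?_
  · intro G hG hm
    obtain ⟨T, hT, hTm⟩ := exists_subset_card_eq hm
    refine ⟨T, mem_powersetCard.2 ⟨?_, hTm⟩, hT.trans fun e he => ((mem_sub _ _ _).1 he).1⟩
    intro e he
    have := (mem_sub _ _ _).1 (hT he)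
    exact (mem_sub _ _ _).2 ⟨hG this.1, this.2⟩
  · have h8 : ∀ T ∈ powersetCard m (sub (pairs V) S),
        Pr π (pairs V) (fun G => T ⊆ G) = π ^ m := by
      intro T hT
      rw [mem_powersetCard] at hT
      rw [pr_subset h1 π (pairs V) T h0 hπ (hT.1.trans fun e he => ((mem_sub _ _ _).1 he).1), hT.2]
    rw [Finset.sum_congr rfl h8, Finset.sum_const, card_powersetCard, nsmul_eq_mul]
    have h9 : (((sub (pairs V) S).card.choose m : ℕ) : ℝ) ≤ ((S.card ^ 2).choose m : ℝ) := by
      exact_mod_cast Nat.choose_le_choose m (card_sub_le S)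
    exact mul_le_mul_of_nonneg_right h9 (pow_nonneg h0 m)

theorem choose_bd (N m : ℕ) (hm : 0 < m) :
    (N.choose m : ℝ) ≤ (Real.exp 1 * N / m) ^ m := by
  have hm' : (0 : ℝ) < m := by exact_mod_cast hm
  have h1 : (N.choose m : ℝ) ≤ (N : ℝ) ^ m / m.factorial := Nat.choose_le_pow_div m N
  have h2 : (m : ℝ) ^ m / m.factorial ≤ Real.exp m :=
    Real.pow_div_factorial_le_exp (m : ℝ) hm'.le m
  have h3 : Real.exp m = Real.exp 1 ^ m := by
    rw [← Real.exp_nat_mul, mul_one]
  rw [h3] at h2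
  have h4 : (N : ℝ) ^ m / m.factorial = ((N : ℝ) / m) ^ m * ((m : ℝ) ^ m / m.factorial) := by
    rw [div_pow]
    field_simp
  calc (N.choose m : ℝ) ≤ (N : ℝ) ^ m / m.factorial := h1
    _ = ((N : ℝ) / m) ^ m * ((m : ℝ) ^ m / m.factorial) := h4
    _ ≤ ((N : ℝ) / m) ^ m * Real.exp 1 ^ m := by gcongr
    _ = (Real.exp 1 * N / m) ^ m := by
        rw [← mul_pow]
        congr 1
        ring

/-- the estimate for the sets of size `s` -/
theorem size_bd (c : ℝ) (hc : 0 < c) (K0 : ℕ) (hK2 : 2 ≤ K0) (hK : 8 * (3 * c) ≤ K0)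
    (n s : ℕ) (hs : 0 < s) (hsn : s ≤ n) :
    (n.choose s : ℝ) * (((s ^ 2).choose (K0 * s) : ℝ) * (c / n) ^ (K0 * s)) ≤
      (s : ℝ) / n * (1 / 2) ^ s := by
  have hs' : (0 : ℝ) < s := by exact_mod_cast hs
  have hn' : (0 : ℝ) < n := by
    have : 0 < n := by omega
    exact_mod_cast this
  have hK0 : 0 < K0 := by omega
  have hK0' : (0 : ℝ) < K0 := by exact_mod_cast hK0
  have he : Real.exp 1 ≤ 3 := by
    have := Real.exp_one_lt_d9
    linarith
  have he0 : 0 < Real.exp 1 := Real.exp_pos 1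
  have hx0 : 0 < (s : ℝ) / n := by positivity
  have hx1 : (s : ℝ) / n ≤ 1 := by
    rw [div_le_one hn']
    exact_mod_cast hsn
  have h1 : (n.choose s : ℝ) ≤ (3 * n / s) ^ s := by
    refine (choose_bd n s hs).trans ?_
    gcongr
  have h2 : ((s ^ 2).choose (K0 * s) : ℝ) ≤ (3 * (s ^ 2 : ℝ) / (K0 * s)) ^ (K0 * s) := by
    have h3 := choose_bd (s ^ 2) (K0 * s) (by positivity)
    push_cast at h3
    refine h3.trans ?_
    gcongr
  have h4 : ((s ^ 2).choose (K0 * s) : ℝ) * (c / n) ^ (K0 * s) ≤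
      ((1 / 64) * (s / n) ^ 2) ^ s := by
    calc ((s ^ 2).choose (K0 * s) : ℝ) * (c / n) ^ (K0 * s)
        ≤ (3 * (s ^ 2 : ℝ) / (K0 * s)) ^ (K0 * s) * (c / n) ^ (K0 * s) := by gcongr
      _ = ((3 * c / K0 * (s / n)) ^ K0) ^ s := by
          rw [← mul_pow, ← pow_mul]
          congr 1
          field_simp
      _ ≤ ((1 / 64) * (s / n) ^ 2) ^ s := by
          gcongr
          have h50 : 3 * c / (K0 : ℝ) ≤ 1 / 8 := by
            rw [div_le_iff₀ hK0']
            linarith
          have h5 : 3 * c / (K0 : ℝ) * ((s : ℝ) / n) ≤ 1 / 8 * ((s : ℝ) / n) :=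
            mul_le_mul_of_nonneg_right h50 hx0.le
          have h6 : 0 ≤ 3 * c / K0 * ((s : ℝ) / n) := by positivity
          have h7 : 3 * c / K0 * ((s : ℝ) / n) ≤ 1 := by
            linarith
          calc (3 * c / K0 * ((s : ℝ) / n)) ^ K0 ≤ (3 * c / K0 * ((s : ℝ) / n)) ^ 2 :=
                pow_le_pow_of_le_one h6 h7 hK2
            _ ≤ (1 / 8 * ((s : ℝ) / n)) ^ 2 := by gcongr
            _ = 1 / 64 * ((s : ℝ) / n) ^ 2 := by ring
  calc (n.choose s : ℝ) * (((s ^ 2).choose (K0 * s) : ℝ) * (c / n) ^ (K0 * s))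
      ≤ (3 * n / s) ^ s * ((1 / 64) * ((s : ℝ) / n) ^ 2) ^ s := by gcongr
    _ = (3 / 64 * ((s : ℝ) / n)) ^ s := by
        rw [← mul_pow]
        congr 1
        field_simp
    _ ≤ ((1 / 2) * ((s : ℝ) / n)) ^ s := by
        refine pow_le_pow_left₀ (by positivity) ?_ s
        exact mul_le_mul_of_nonneg_right (by norm_num) hx0.le
    _ = ((s : ℝ) / n) ^ s * (1 / 2) ^ s := by
        rw [mul_pow, mul_comm]
    _ ≤ (s : ℝ) / n * (1 / 2) ^ s := by
        gcongr
        calc ((s : ℝ) / n) ^ s ≤ ((s : ℝ) / n) ^ 1 := pow_le_pow_of_le_one hx0.le hx1 hs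
          _ = (s : ℝ) / n := pow_one _

theorem sum_half (N : ℕ) : ∑ s ∈ range N, (s : ℝ) * (1 / 2) ^ s ≤ 2 := by
  have h : ∀ N : ℕ, ∑ s ∈ range N, (s : ℝ) * (1 / 2) ^ s = 2 - (N + 1) * 2 * (1 / 2) ^ N := by
    intro N
    induction N with
    | zero => simp
    | succ N ih =>
      rw [Finset.sum_range_succ, ih]
      push_cast
      ring
  rw [h]
  have : (0 : ℝ) ≤ (N + 1) * 2 * (1 / 2) ^ N := by positivity
  linarith

end DGN_

open DGN_ in
theorem dgn_proof (h1 : Stmt_EXB) (h2 : Stmt_RDF) : Stmt_DGN := by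
  intro c hc
  obtain ⟨K1, hK1⟩ := exists_nat_ge (8 * (3 * c))
  set K0 : ℕ := K1 + 2 with hK0
  have hK0c : 8 * (3 * c) ≤ (K0 : ℝ) := by
    rw [hK0]
    push_cast
    linarith
  refine ⟨2 * K0, ?_⟩
  intro ε hε
  obtain ⟨n1, hn1⟩ := exists_nat_ge c
  obtain ⟨n2, hn2⟩ := exists_nat_ge (2 / ε)
  refine ⟨n1 + n2 + 1, ?_⟩
  intro V _ hV
  set n := Fintype.card V with hn
  have hn0 : 0 < n := by omega
  have hn0' : (0 : ℝ) < n := by exact_mod_cast hn0
  have hnc : c ≤ n := hn1.trans (by exact_mod_cast (by omega : n1 ≤ n))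
  have hnε : 2 / ε ≤ n := hn2.trans (by exact_mod_cast (by omega : n2 ≤ n))
  have h0 : 0 ≤ c / (n : ℝ) := by positivity
  have hπ : c / (n : ℝ) ≤ 1 := by
    rw [div_le_one hn0']
    exact hnc
  obtain ⟨-, -, hmono, -, -, -, hun, -⟩ := h1 (Sym2 V) (c / n) (pairs V) h0 hπ
  -- the union bound
  have hA : Pr (c / n) (pairs V) (fun G => ¬ ∀ k : ℕ, 2 * K0 ≤ k →
      ∀ p : V → Fin k → ℝ, Gnr p → Red p G = ∅) ≤
      ∑ S ∈ (univ : Finset (Finset V)).filter (fun S => S.Nonempty),
        Pr (c / n) (pairs V) (fun G => K0 * S.card ≤ (sub G S).card) := by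
    refine hun (Finset V) _ (fun S G => K0 * S.card ≤ (sub G S).card) _ ?_
    intro G hG hbad
    push Not at hbad
    obtain ⟨k, hk, p, hp, hR⟩ := hbad
    obtain ⟨S, hS, hSc⟩ := det h2 K0 k hk p hp G hG hR.ne_empty
    exact ⟨S, by simp [hS], hSc⟩
  set f : ℕ → ℝ := fun s => if s = 0 then 0 else
    (((s ^ 2).choose (K0 * s) : ℝ) * (c / n) ^ (K0 * s)) with hf
  have hB : ∑ S ∈ (univ : Finset (Finset V)).filter (fun S => S.Nonempty),
        Pr (c / n) (pairs V) (fun G => K0 * S.card ≤ (sub G S).card) ≤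
      ∑ S ∈ (univ : Finset V).powerset, f S.card := by
    rw [powerset_univ]
    calc ∑ S ∈ (univ : Finset (Finset V)).filter (fun S => S.Nonempty),
        Pr (c / n) (pairs V) (fun G => K0 * S.card ≤ (sub G S).card)
        ≤ ∑ S ∈ (univ : Finset (Finset V)).filter (fun S => S.Nonempty), f S.card := by
          refine Finset.sum_le_sum fun S hS => ?_
          rw [mem_filter] at hS
          have hc0 : S.card ≠ 0 := (Finset.card_pos.2 hS.2).ne'
          simp only [hf, hc0, if_false]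
          exact pr_one h1 (c / n) h0 hπ (K0 * S.card) S
      _ ≤ ∑ S : Finset V, f S.card := by
          refine Finset.sum_le_sum_of_subset_of_nonneg (filter_subset _ _) ?_
          intro S _ _
          simp only [hf]
          split_ifs
          · exact le_rfl
          · positivity
  have hC : ∑ S ∈ (univ : Finset V).powerset, f S.card =
      ∑ s ∈ range (n + 1), n.choose s • f s := by
    rw [Finset.sum_powerset_apply_card f, card_univ]
  have hD : ∑ s ∈ range (n + 1), n.choose s • f s ≤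
      ∑ s ∈ range (n + 1), (1 / n : ℝ) * ((s : ℝ) * (1 / 2) ^ s) := by
    refine Finset.sum_le_sum fun s hs => ?_
    rw [mem_range] at hs
    rw [nsmul_eq_mul]
    by_cases hs0 : s = 0
    · simp [hf, hs0]
    · simp only [hf, hs0, if_false]
      refine (size_bd c hc K0 (by omega) hK0c n s (by omega) (by omega)).trans (le_of_eq ?_)
      ring
  calc Pr (c / n) (pairs V) (fun G => ¬ ∀ k : ℕ, 2 * K0 ≤ k →
      ∀ p : V → Fin k → ℝ, Gnr p → Red p G = ∅)
      ≤ ∑ s ∈ range (n + 1), (1 / n : ℝ) * ((s : ℝ) * (1 / 2) ^ s) := by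
        refine hA.trans (hB.trans ?_)
        rw [hC]
        exact hD
    _ = (1 / n : ℝ) * ∑ s ∈ range (n + 1), ((s : ℝ) * (1 / 2) ^ s) := by
        rw [Finset.mul_sum]
    _ ≤ (1 / n : ℝ) * 2 := by
        have := sum_half (n + 1)
        gcongr
    _ ≤ ε := by
        rw [div_le_iff₀ hε] at hnε
        rw [one_div, inv_mul_le_iff₀ hn0']
        linarith

end Pool.Agent.GRR
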