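import Pool.Agent.GRR.Stmts

/-! Module DIM: the motions of a rigid graph form a space of dimension at most `k(k+1)/2` -/

set_option autoImplicit false
open Finset
open scoped Classical

namespace Pool.Agent.GRR

namespace DIM_

noncomputable def sg {k : ℕ} (c d : Fin k) : ℝ := if c < d then 1 else if d < c then -1 else 0

noncomputable def Phi {V : Type} {k : ℕ} (p : V → Fin k → ℝ) (W : Finset V) :
    (Sym2 (Fin k) → ℝ) →ₗ[ℝ] (V → Fin k → ℝ) where
  toFun g := fun i c => if i ∈ W then ∑ d, sg c d * g s(c, d) * p i d + g s(c, c) else 0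
  map_add' g h := by
    funext i c
    simp only [Pi.add_apply]
    split_ifs
    · have : ∑ d, sg c d * (g s(c, d) + h s(c, d)) * p i d =
          ∑ d, sg c d * g s(c, d) * p i d + ∑ d, sg c d * h s(c, d) * p i d := by
        rw [← Finset.sum_add_distrib]
        exact Finset.sum_congr rfl (fun d _ => by ring)
      rw [this]; ring
    · simp
  map_smul' a g := by
    funext i c
    simp only [Pi.smul_apply, smul_eq_mul, RingHom.id_apply]
    split_ifs
    · have : ∑ d, sg c d * (a * g s(c, d)) * p i d =
          a * ∑ d, sg c d * g s(c, d) * p i d := by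
        rw [Finset.mul_sum]
        exact Finset.sum_congr rfl (fun d _ => by ring)
      rw [this]; ring
    · simp

lemma Phi_apply {V : Type} {k : ℕ} (p : V → Fin k → ℝ) (W : Finset V) (g : Sym2 (Fin k) → ℝ)
    (i : V) (c : Fin k) :
    Phi p W g i c = if i ∈ W then ∑ d, sg c d * g s(c, d) * p i d + g s(c, c) else 0 := rfl

end DIM_

open DIM_

theorem dim_proof (h1 : Stmt_TRI) : Stmt_DIM := by
  intro V _ k p hp G W hW hC
  have hle : Mot p (univ \ W) G ≤ LinearMap.range (Phi p W) := by
    intro X hX
    have hX' : X ∈ Mot p ∅ G := Mot_mono p (empty_subset _) (subset_refl G) hX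
    obtain ⟨Y, -, hYX, A, b, hA, hY⟩ := h1 V k p hp W hW X (fun i hi j hj => hC i hi j hj X hX')
    have hsk : ∀ c d, A d c = - A c d := by
      intro c d
      have := congrFun (congrFun hA c) d
      simpa [Matrix.transpose_apply] using this
    rw [LinearMap.mem_range]
    refine ⟨Sym2.lift ⟨fun c d => if c < d then A c d else if d < c then A d c else b c, ?_⟩, ?_⟩
    · intro c d
      rcases lt_trichotomy c d with h | h | h
      · simp [h, h.not_gt]
      · simp [h]
      · simp [h, h.not_gt]
    · funext i c
      rw [Phi_apply]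
      by_cases hi : i ∈ W
      · rw [if_pos hi, ← hYX i hi, hY i]
        simp only [Sym2.lift_mk, Pi.add_apply, lt_irrefl, if_false, Matrix.mulVec, dotProduct]
        congr 1
        refine Finset.sum_congr rfl (fun d _ => ?_)
        congr 1
        rcases lt_trichotomy c d with h | h | h
        · simp [sg, h]
        · subst h
          have h0 := hsk c c
          simp only [sg, lt_irrefl, if_false]
          linarith
        · rw [sg, if_neg h.not_gt, if_pos h, if_neg h.not_gt, if_pos h, hsk c d]
          ring
      · rw [if_neg hi, hX.1 i (by simp [hi])]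
        rfl
  calc Module.finrank ℝ (Mot p (univ \ W) G)
      ≤ Module.finrank ℝ (LinearMap.range (Phi p W)) := Submodule.finrank_mono hle
    _ ≤ Module.finrank ℝ (Sym2 (Fin k) → ℝ) := LinearMap.finrank_range_le _
    _ = k * (k + 1) / 2 := by
        rw [Module.finrank_fintype_fun_eq_card, Sym2.card, Fintype.card_fin, Nat.choose_two_right,
          Nat.add_sub_cancel, Nat.mul_comm]

end Pool.Agent.GRR
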