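import Pool.Agent.GRR.Stmts

/-!
# GRR, module EXI : existence of the giant clique
-/

set_option autoImplicit false

open Finset
open scoped Classical

namespace Pool.Agent.GRR

namespace EXI_

theorem card_pairs_le {V : Type} [Fintype V] :
    ((pairs V).card : ℝ) ≤ (Fintype.card V : ℝ) ^ 2 := by
  have h1 : (pairs V).card ≤ Fintype.card (Sym2 V) := Finset.card_le_univ _
  have h2 : Fintype.card (Sym2 V) ≤ Fintype.card (V × V) :=
    Fintype.card_le_of_surjective (fun x : V × V => s(x.1, x.2)) (fun e => by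
      induction e with | h i j => exact ⟨(i, j), rfl⟩)
  rw [Fintype.card_prod] at h2
  have h3 : (pairs V).card ≤ Fintype.card V * Fintype.card V := h1.trans h2
  have h4 : ((pairs V).card : ℝ) ≤ (Fintype.card V : ℝ) * Fintype.card V := by exact_mod_cast h3
  rw [pow_two]
  exact h4

theorem clc_mono {V : Type} [Fintype V] {k : ℕ} {p : V → Fin k → ℝ} {G G' : Finset (Sym2 V)}
    (h : G ⊆ G') : clc p G ≤ clc p G' := by
  unfold clc
  apply div_le_div_of_nonneg_right _ (Nat.cast_nonneg _)
  have : ((pairs V).filter (fun e => Cl p G e)).card ≤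
      ((pairs V).filter (fun e => Cl p G' e)).card := by
    apply Finset.card_le_card
    intro e he
    rw [Finset.mem_filter] at he ⊢
    exact ⟨he.1, Cl_mono h he.2⟩
  exact_mod_cast this

/-- the sum over the new closure pairs -/
theorem sum_le {V : Type} [Fintype V] {k : ℕ} {p : V → Fin k → ℝ} {G : Finset (Sym2 V)}
    {η : ℝ} (hη : 0 < η) :
    ∑ e ∈ pairs V \ G, (if Cl p G e ∧ clc p (insert e G) < η then (1 : ℝ) else 0) ≤
      η * (pairs V).card := by
  by_cases hN : (pairs V).card = 0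
  · rw [Finset.card_eq_zero] at hN
    rw [hN]
    simp
  have hN0 : (0 : ℝ) < ((pairs V).card : ℝ) := by exact_mod_cast Nat.pos_of_ne_zero hN
  by_cases hex : ∃ e ∈ pairs V \ G, Cl p G e ∧ clc p (insert e G) < η
  · obtain ⟨e, _, _, he⟩ := hex
    have h1 : clc p G < η := lt_of_le_of_lt (clc_mono (Finset.subset_insert e G)) he
    unfold clc at h1
    rw [div_lt_iff₀ hN0] at h1
    refine le_trans ?_ h1.le
    rw [Finset.sum_ite, Finset.sum_const_zero, add_zero, Finset.sum_const, nsmul_eq_mul, mul_one]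
    have : ((pairs V \ G).filter (fun e => Cl p G e ∧ clc p (insert e G) < η)).card ≤
        ((pairs V).filter (fun e => Cl p G e)).card := by
      apply Finset.card_le_card
      intro f hf
      rw [Finset.mem_filter, Finset.mem_sdiff] at hf
      rw [Finset.mem_filter]
      exact ⟨hf.1.1, hf.2.1⟩
    exact_mod_cast this
  · push Not at hex
    rw [Finset.sum_eq_zero]
    · exact mul_nonneg hη.le hN0.le
    · intro e he
      rw [if_neg]
      rintro ⟨h1, h2⟩
      exact absurd h2 (not_lt.mpr (hex e he h1))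

/-- the sum over the edges of the graph -/
theorem sum_eq {V : Type} [Fintype V] {k : ℕ} {p : V → Fin k → ℝ} {G : Finset (Sym2 V)}
    {η : ℝ} :
    ∑ e ∈ G, (if Cl p (G.erase e) e ∧ clc p (insert e (G.erase e)) < η then (1 : ℝ) else 0) =
      if clc p G < η then ((Red p G).card : ℝ) else 0 := by
  have h : ∀ e ∈ G, (if Cl p (G.erase e) e ∧ clc p (insert e (G.erase e)) < η then (1 : ℝ)
      else 0) = if Cl p (G.erase e) e ∧ clc p G < η then (1 : ℝ) else 0 := by
    intro e he
    rw [Finset.insert_erase he]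
  rw [Finset.sum_congr rfl h]
  by_cases hc : clc p G < η
  · rw [if_pos hc]
    simp only [hc, and_true]
    rw [Finset.sum_ite, Finset.sum_const_zero, add_zero, Finset.sum_const, nsmul_eq_mul, mul_one]
    rfl
  · rw [if_neg hc]
    apply Finset.sum_eq_zero
    intro e _
    rw [if_neg]
    rintro ⟨_, h2⟩
    exact hc h2

/-- the exchange formula with the usual instances -/
theorem mec' (h3 : Stmt_MEC) {V : Type} [Fintype V] (π : ℝ) (D : Finset (Sym2 V)) (hπ0 : 0 < π)
    (hπ1 : π < 1) (h : Finset (Sym2 V) → Sym2 V → ℝ) :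
    Ex π D (fun G => ∑ e ∈ G, h (G.erase e) e) =
      π / (1 - π) * Ex π D (fun G => ∑ e ∈ D \ G, h G e) := by
  have := h3 (Sym2 V) π D hπ0 hπ1 h
  have hi : (fun a b => Classical.propDecidable (a = b) : DecidableEq (Sym2 V)) =
      (inferInstance : DecidableEq (Sym2 V)) := Subsingleton.elim _ _
  rw [hi] at this
  exact this

end EXI_

theorem exi_proof (h1 : Stmt_SPA) (h2 : Stmt_DEN) (h3 : Stmt_MEC) (h4 : Stmt_BIG)
    (h5 : Stmt_EXB) : Stmt_EXI := by
  intro k c ε hk hc hε
  obtain ⟨σ, hσ0, hσ1, hSPA⟩ := h1 c hc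
  obtain ⟨η, hη0, hη⟩ : ∃ η : ℝ, 0 < η ∧ 8 * c * η = ε * σ :=
    ⟨ε * σ / (8 * c), by positivity, by field_simp⟩
  obtain ⟨γ, hγ, n1, hDEN⟩ := h2 k η hη0
  obtain ⟨n2, hn2⟩ := hSPA k (ε / 2) (by linarith)
  refine ⟨γ, hγ, max (max n1 n2) (max ⌈2 * c⌉₊ (max ⌈2 / σ⌉₊ 1)), ?_⟩
  intro V _ p hp hn
  have e1 : n1 ≤ Fintype.card V := le_trans (le_max_left _ _) (le_trans (le_max_left _ _) hn)
  have e2 : n2 ≤ Fintype.card V := le_trans (le_max_right _ _) (le_trans (le_max_left _ _) hn)
  have e3 : ⌈2 * c⌉₊ ≤ Fintype.card V :=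
    le_trans (le_max_left _ _) (le_trans (le_max_right _ _) hn)
  have e4 : max ⌈2 / σ⌉₊ 1 ≤ Fintype.card V :=
    le_trans (le_max_right _ _) (le_trans (le_max_right _ _) hn)
  have e5 : ⌈2 / σ⌉₊ ≤ Fintype.card V := le_trans (le_max_left _ _) e4
  have e3' : 2 * c ≤ Fintype.card V := (Nat.le_ceil _).trans (by exact_mod_cast e3)
  have e5' : 2 / σ ≤ Fintype.card V := (Nat.le_ceil _).trans (by exact_mod_cast e5)
  have hn0 : (0 : ℝ) < Fintype.card V := by linarith
  obtain ⟨n, hnn⟩ : ∃ n : ℝ, n = (Fintype.card V : ℝ) := ⟨_, rfl⟩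
  have e6 : 2 ≤ σ * Fintype.card V := by
    rw [div_le_iff₀ hσ0] at e5'
    linarith
  have hπ0 : 0 < c / Fintype.card V := div_pos hc hn0
  have hπh : c / Fintype.card V ≤ 1 / 2 := by
    rw [div_le_iff₀ hn0]
    linarith
  have hπ1 : c / Fintype.card V < 1 := by linarith
  obtain ⟨x1, x2, x3, x4, x5, x6, x7, x8, x9, x10⟩ :=
    h5 (Sym2 V) (c / Fintype.card V) (pairs V) hπ0.le hπ1.le
  -- the expectation
  have hE : Ex (c / Fintype.card V) (pairs V)
      (fun G => if clc p G < η then ((Red p G).card : ℝ) else 0) ≤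
      2 * c * η * Fintype.card V := by
    have k1 := EXI_.mec' h3 (c / Fintype.card V) (pairs V) hπ0 hπ1
      (fun H e => if Cl p H e ∧ clc p (insert e H) < η then (1 : ℝ) else 0)
    have k2 : (fun G : Finset (Sym2 V) => ∑ e ∈ G,
        if Cl p (G.erase e) e ∧ clc p (insert e (G.erase e)) < η then (1 : ℝ) else 0) =
        (fun G => if clc p G < η then ((Red p G).card : ℝ) else 0) := by
      funext G
      exact EXI_.sum_eq
    rw [k2] at k1
    rw [k1]
    have k3 : Ex (c / Fintype.card V) (pairs V) (fun G => ∑ e ∈ pairs V \ G,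
        if Cl p G e ∧ clc p (insert e G) < η then (1 : ℝ) else 0) ≤ η * (pairs V).card := by
      have k4 := x2 (fun G => ∑ e ∈ pairs V \ G,
        if Cl p G e ∧ clc p (insert e G) < η then (1 : ℝ) else 0)
          (fun _ => η * (pairs V).card * 1) (fun G _ => by
            rw [mul_one]
            exact EXI_.sum_le hη0)
      have k5 := x9 (η * (pairs V).card) (fun _ => 1)
      rw [k5, x1, mul_one] at k4
      exact k4
    have k6 : c / Fintype.card V / (1 - c / Fintype.card V) ≤ 2 * (c / Fintype.card V) := by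
      rw [div_le_iff₀ (by linarith)]
      nlinarith
    have k7 : (0 : ℝ) ≤ η * (pairs V).card := mul_nonneg hη0.le (Nat.cast_nonneg _)
    have k8 : (0 : ℝ) ≤ c / Fintype.card V / (1 - c / Fintype.card V) :=
      div_nonneg hπ0.le (by linarith)
    have k9 : η * ((pairs V).card : ℝ) ≤ η * (Fintype.card V : ℝ) ^ 2 :=
      mul_le_mul_of_nonneg_left EXI_.card_pairs_le hη0.le
    calc c / Fintype.card V / (1 - c / Fintype.card V) * _
        ≤ c / Fintype.card V / (1 - c / Fintype.card V) * (η * (pairs V).card) :=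
          mul_le_mul_of_nonneg_left k3 k8
      _ ≤ 2 * (c / Fintype.card V) * (η * (pairs V).card) := mul_le_mul_of_nonneg_right k6 k7
      _ ≤ 2 * (c / Fintype.card V) * (η * (Fintype.card V : ℝ) ^ 2) :=
          mul_le_mul_of_nonneg_left k9 (by linarith)
      _ = 2 * c * η * Fintype.card V := by
          field_simp
  have hσn : 0 < σ * Fintype.card V / 2 := by
    have := mul_pos hσ0 hn0
    linarith
  have hM := x6 (fun G => if clc p G < η then ((Red p G).card : ℝ) else 0)
    (σ * Fintype.card V / 2) hσn (fun G _ => by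
      show (0 : ℝ) ≤ if clc p G < η then ((Red p G).card : ℝ) else 0
      split_ifs
      · exact Nat.cast_nonneg _
      · exact le_refl _)
  have hM2 : Ex (c / Fintype.card V) (pairs V)
      (fun G => if clc p G < η then ((Red p G).card : ℝ) else 0) / (σ * Fintype.card V / 2) ≤
      ε / 2 := by
    rw [div_le_iff₀ hσn]
    refine hE.trans (le_of_eq ?_)
    have : 2 * c * η * (Fintype.card V : ℝ) = 8 * c * η * Fintype.card V / 4 := by ring
    rw [this, hη]
    ring
  have key := x4 (fun G => (Red p G).Nonempty ∧ (mcl p G : ℝ) < γ * Fintype.card V)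
    (fun G => ¬ Spr ⌊σ * Fintype.card V⌋₊ G)
    (fun G => σ * Fintype.card V / 2 ≤ if clc p G < η then ((Red p G).card : ℝ) else 0) ?_
  · refine key.trans ?_
    have := hn2 V p hp e2
    linarith
  · rintro G hG ⟨hne, hm⟩
    by_cases hs : Spr ⌊σ * Fintype.card V⌋₊ G
    · right
      have hclc : clc p G < η := by
        by_contra hc'
        rw [not_lt] at hc'
        obtain ⟨Q, hQ1, hQ2⟩ := hDEN V p hp e1 G hc'
        have : (Q.card : ℝ) ≤ mcl p G := by exact_mod_cast le_mcl hQ2
        linarith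
      show σ * Fintype.card V / 2 ≤ if clc p G < η then ((Red p G).card : ℝ) else 0
      rw [if_pos hclc]
      have h6 := (h4 V k hk p hp _ G hG hs hne).2
      have h7 : (⌊σ * Fintype.card V⌋₊ : ℝ) ≤ (Red p G).card := by exact_mod_cast h6
      have h8 : σ * Fintype.card V < (⌊σ * Fintype.card V⌋₊ : ℝ) + 1 := Nat.lt_floor_add_one _
      linarith
    · exact Or.inl hs

end Pool.Agent.GRR
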