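import Pool.Agent.GRR.Stmts

set_option autoImplicit false

open Finset
open scoped Classical

namespace Pool.Agent.GRR

namespace EXT_

open Cardinal

lemma uncountable_basis (s : Set ℝ) (hs : IsTranscendenceBasis ℚ ((↑) : s → ℝ)) : ¬ s.Countable := by
  intro hc
  have : Countable s := hc.to_subtype
  have halg := hs.isAlgebraic
  have h1 := Algebra.IsAlgebraic.cardinalMk_le_max (Algebra.adjoin ℚ (Set.range ((↑) : s → ℝ))) ℝ
  have h2 : #(Algebra.adjoin ℚ (Set.range ((↑) : s → ℝ))) = #(MvPolynomial s ℚ) :=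
    Cardinal.mk_congr hs.1.aevalEquiv.symm.toEquiv
  have h3 : #(MvPolynomial s ℚ) ≤ ℵ₀ := by
    refine (MvPolynomial.cardinalMk_le_max).trans ?_
    exact max_le (max_le (Cardinal.mk_le_aleph0) (Cardinal.mk_le_aleph0)) le_rfl
  have h4 : #ℝ ≤ ℵ₀ := h1.trans (max_le (h2 ▸ h3) le_rfl)
  rw [Cardinal.mk_real] at h4
  exact absurd h4 (not_le.2 Cardinal.aleph0_lt_continuum)

end EXT_

theorem ext_proof : Stmt_EXT := by
  intro V _ k S q hq
  set f : {x : V × Fin k // x.1 ∈ S} → ℝ := fun x => q x.1.1 x.1.2 with hf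
  have hr : AlgebraicIndepOn ℚ id (Set.range f) := hq.to_subtype_range
  obtain ⟨s, hs1, hs2⟩ := exists_isTranscendenceBasis_superset hr
  have hunc := EXT_.uncountable_basis s hs2
  have hinf : (s \ Set.range f).Infinite := by
    intro hfin
    apply hunc
    have h1 : s ⊆ (s \ Set.range f) ∪ Set.range f := by
      intro x hx
      by_cases h : x ∈ Set.range f
      · exact Or.inr h
      · exact Or.inl ⟨hx, h⟩
    exact (hfin.union (Set.finite_range f)).countable.mono h1
  have := hinf.to_subtype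
  obtain ⟨g0⟩ := nonempty_embedding_nat (V × Fin k)
  let g : (V × Fin k) ↪ ↥(s \ Set.range f) := g0.trans (Infinite.natEmbedding _)
  let p : V → Fin k → ℝ := fun v c => if h : v ∈ S then q v c else (g (v, c) : ℝ)
  refine ⟨p, ?_, ?_⟩
  · have hmem : ∀ x : V × Fin k, p x.1 x.2 ∈ s := by
      intro x
      by_cases h : x.1 ∈ S
      · simp only [p, dif_pos h]
        exact hs1 ⟨⟨x, h⟩, rfl⟩
      · simp only [p, dif_neg h]
        exact (g (x.1, x.2)).2.1
    have hinj : Function.Injective (fun x : V × Fin k => (⟨p x.1 x.2, hmem x⟩ : s)) := by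
      intro x y hxy
      have h1 : p x.1 x.2 = p y.1 y.2 := congrArg Subtype.val hxy
      by_cases hx : x.1 ∈ S
      · by_cases hy : y.1 ∈ S
        · simp only [p, dif_pos hx, dif_pos hy] at h1
          have h2 := hq.injective (a₁ := ⟨x, hx⟩) (a₂ := ⟨y, hy⟩) h1
          exact congrArg Subtype.val h2
        · simp only [p, dif_pos hx, dif_neg hy] at h1
          exact absurd ⟨⟨x, hx⟩, h1⟩ (g (y.1, y.2)).2.2
      · by_cases hy : y.1 ∈ S
        · simp only [p, dif_neg hx, dif_pos hy] at h1
          exact absurd ⟨⟨y, hy⟩, h1.symm⟩ (g (x.1, x.2)).2.2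
        · simp only [p, dif_neg hx, dif_neg hy] at h1
          exact g.injective (Subtype.ext h1)
    have h := hs2.1.comp _ hinj
    show AlgebraicIndependent ℚ (fun x : V × Fin k => p x.1 x.2)
    simpa only [Function.comp_def] using h
  · intro v hv
    funext c
    simp only [p, dif_pos hv]

end Pool.Agent.GRR
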