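import Pool.Agent.GRR.Stmts

set_option autoImplicit false

open Finset
open scoped Classical

namespace Pool.Agent.GRR

namespace FIN_

lemma edge_eq {n : ℕ} (G : SimpleGraph (Fin n)) (i1 i2 : Fintype G.edgeSet) :
    @SimpleGraph.edgeFinset _ G i1 = @SimpleGraph.edgeFinset _ G i2 := by
  have h : i1 = i2 := Subsingleton.elim _ _
  rw [h]

lemma exists_gnr (h : Stmt_EXT) (n k : ℕ) : ∃ p : Fin n → Fin k → ℝ, Gnr p := by
  obtain ⟨p, hp, _⟩ := h (Fin n) k ∅ (fun _ _ => 0) (by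
    have : IsEmpty {x : Fin n × Fin k // x.1 ∈ (∅ : Finset (Fin n))} :=
      ⟨fun x => absurd x.2 (Finset.notMem_empty _)⟩
    exact algebraicIndependent_empty_type)
  exact ⟨p, hp⟩

end FIN_

open FIN_ in
theorem fin_proof (h1 : Stmt_MAI) (h2 : Stmt_EXT) (h3 : Stmt_DGN) (h4 : Stmt_TRD)
    (h5 : Stmt_PRB) (h6 : Stmt_EXB) : Stmt_FIN := by
  intro c hc
  rw [Metric.tendsto_atTop]
  intro ε hε
  obtain ⟨K, hK⟩ := h3 c hc
  obtain ⟨n1, hn1⟩ := hK (ε / 4) (by positivity)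
  have hεK : (0 : ℝ) < ε / (4 * (K + 1)) := by positivity
  have hmai : ∀ k : ℕ, ∃ m : ℕ, 2 ≤ k → ∀ (V : Type) [Fintype V] (p : V → Fin k → ℝ), Gnr p →
    m ≤ Fintype.card V →
      Pr (c / Fintype.card V) (pairs V) (fun G => ¬ GLq k (Red p G) (vts (Red p G)))
        ≤ ε / (4 * (K + 1)) := by
    intro k
    by_cases hk : 2 ≤ k
    · obtain ⟨m, hm⟩ := h1 k c hk hc _ hεK
      exact ⟨m, fun _ => hm⟩
    · exact ⟨0, fun h => absurd h hk⟩
  choose m hm using hmai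
  refine ⟨max (max n1 (⌈c⌉₊ + 1)) ((Finset.range K).sup m), fun n hn => ?_⟩
  have hn1' : n1 ≤ n := le_trans (le_trans (le_max_left _ _) (le_max_left _ _)) hn
  have hnc : ⌈c⌉₊ + 1 ≤ n := le_trans (le_trans (le_max_right _ _) (le_max_left _ _)) hn
  have hnm : ∀ k < K, m k ≤ n := fun k hk =>
    le_trans (Finset.le_sup (f := m) (Finset.mem_range.2 hk)) (le_trans (le_max_right _ _) hn)
  have hn0 : (0 : ℝ) < n := by
    have : 0 < n := by omega
    exact_mod_cast this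
  have hcn : c ≤ n := by
    have h := Nat.le_ceil c
    have h' : ((⌈c⌉₊ : ℕ) : ℝ) ≤ n := by
      have : ⌈c⌉₊ ≤ n := by omega
      exact_mod_cast this
    linarith
  have hπ0 : 0 ≤ c / (n : ℝ) := by positivity
  have hπ1 : c / (n : ℝ) ≤ 1 := by rw [div_le_one hn0]; exact hcn
  choose p hp using fun k : ℕ => exists_gnr h2 n k
  let B1 : Finset (Sym2 (Fin n)) → Prop := fun E => ¬ ∀ k : ℕ, K ≤ k →
      ∀ p : Fin n → Fin k → ℝ, Gnr p → Red p E = ∅
  let B2 : ℕ → Finset (Sym2 (Fin n)) → Prop := fun k E => 2 ≤ k ∧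
      ¬ GLq k (Red (p k) E) (vts (Red (p k) E))
  let B3 : Finset (Sym2 (Fin n)) → Prop := fun E => ∃ k ∈ Finset.range K, B2 k E
  obtain ⟨_, _, hmono, hun, hpr, _, hUn, _, _, _⟩ := h6 (Sym2 (Fin n)) (c / n) (pairs (Fin n)) hπ0 hπ1
  have hB1 : Pr (c / (n : ℝ)) (pairs (Fin n)) B1 ≤ ε / 4 := by
    have := hn1 (Fin n) (by rw [Fintype.card_fin]; exact hn1')
    rw [Fintype.card_fin] at this
    exact this
  have hB2 : ∀ k ∈ Finset.range K, Pr (c / (n : ℝ)) (pairs (Fin n)) (B2 k) ≤ ε / (4 * (K + 1)) := by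
    intro k hk
    rw [Finset.mem_range] at hk
    by_cases hk2 : 2 ≤ k
    · have := hm k hk2 (Fin n) (p k) (hp k) (by rw [Fintype.card_fin]; exact hnm k hk)
      rw [Fintype.card_fin] at this
      exact le_trans (hmono _ _ (fun G _ h => h.2)) this
    · have h0 : Pr (c / (n : ℝ)) (pairs (Fin n)) (B2 k) = 0 := by
        unfold Pr Ex
        refine Finset.sum_eq_zero (fun G _ => ?_)
        have h9 : ¬ B2 k G := fun h => hk2 h.1
        simp [h9]
      rw [h0]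
      exact hεK.le
  have hB3 : Pr (c / (n : ℝ)) (pairs (Fin n)) B3 ≤ ε / 4 := by
    have h := hUn ℕ (Finset.range K) B2 B3 (fun G _ h => h)
    refine le_trans h (le_trans (Finset.sum_le_sum hB2) ?_)
    rw [Finset.sum_const, Finset.card_range, nsmul_eq_mul]
    have hK1 : (0 : ℝ) < K + 1 := by positivity
    rw [mul_div_assoc', div_le_div_iff₀ (by positivity) (by norm_num)]
    nlinarith [mul_pos hε hK1]
  have hmain : ∀ G : SimpleGraph (Fin n), ¬ Problem.Good G →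
      (fun E => B1 E ∨ B3 E) G.edgeFinset := by
    intro G hG
    by_contra hcon
    push Not at hcon
    obtain ⟨hc1, hc3⟩ := hcon
    have hc1' : ∀ k : ℕ, K ≤ k → ∀ p : Fin n → Fin k → ℝ, Gnr p →
        Red p G.edgeFinset = ∅ := by
      intro k hk q hq
      exact hc1 k hk q hq
    have hc3' : ∀ k < K, 2 ≤ k → GLq k (Red (p k) G.edgeFinset)
        (vts (Red (p k) G.edgeFinset)) := by
      intro k hk hk2
      by_contra hh
      refine hc3 ⟨k, Finset.mem_range.2 hk, hk2, ?_⟩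
      rw [edge_eq G _ _]
      exact hh
    apply hG
    intro d hd hd4
    by_cases hdK : K ≤ d - 1
    · exfalso
      refine hd.2 (d - 1) (by omega) ?_
      refine (h4 (Fin n) (d - 1) G).2.2.1 (fun q hq => ?_)
      rw [edge_eq G _ _]
      exact hc1' (d - 1) hdK q hq
    · refine (h4 (Fin n) (d - 1) G).2.2.2 (p (d - 1)) (hp (d - 1)) ?_
      rw [edge_eq G _ _]
      exact hc3' (d - 1) (by omega) (by omega)
  obtain ⟨hA, hA'⟩ := h5 n (c / n) (fun G => Problem.Good G) (fun E => B1 E ∨ B3 E) hπ0 hπ1 hmain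
  have h7 : Pr (c / (n : ℝ)) (pairs (Fin n)) (fun E => B1 E ∨ B3 E) ≤ ε / 4 + ε / 4 :=
    le_trans (hun _ B1 B3 (fun G _ h => h)) (add_le_add hB1 hB3)
  rw [Real.dist_eq, abs_lt]
  constructor <;> linarith

end Pool.Agent.GRR
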