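import Pool.Agent.GRR.Stmts

set_option autoImplicit false
set_option linter.unusedSectionVars false

open Finset
open scoped Classical

namespace Pool.Agent.GRR

namespace FRE_

variable {V : Type} [Fintype V] {k : ℕ}

lemma step (hLIN : Stmt_LIN) (m : ℕ) (hSR : SRIn m) (hk : 2 ≤ k) (p : V → Fin k → ℝ) (hp : Gnr p)
    (Y : Finset V) (hm : Y.card = m) (hV : (2 * k + 2) * Y.card ≤ Fintype.card V) (d : ℕ) :
    ∀ E : Finset (Sym2 V), E ⊆ pairs V →
      (∀ S : Finset V, 10 * (sub E S).card ≤ 11 * S.card) →
      ∀ y : Sym2 V → V, (∀ e ∈ E, y e ∈ Y ∧ y e ∈ e) →
        (∀ v ∈ Y, (E.filter (fun e => y e = v)).card ≤ k) → k * Y.card - E.card = d →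
        Ind p (univ \ Y) E ∅ := by
  induction d with
  | zero =>
    intro E hEp hsp y hy hyk hd
    have hcard : E.card = ∑ v ∈ Y, (E.filter (fun e => y e = v)).card :=
      Finset.card_eq_sum_card_fiberwise (f := y) (t := Y) (fun e he => (hy e he).1)
    have hle : ∑ v ∈ Y, (E.filter (fun e => y e = v)).card ≤ ∑ v ∈ Y, k :=
      Finset.sum_le_sum hyk
    have hkY : ∑ v ∈ Y, k = k * Y.card := by
      rw [Finset.sum_const, smul_eq_mul, mul_comm]
    have heq : ∑ v ∈ Y, (E.filter (fun e => y e = v)).card = ∑ v ∈ Y, k := by
      rw [hkY] at hle ⊢
      omega
    have hfib := (Finset.sum_eq_sum_iff_of_le hyk).1 heq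
    have hbot := hSR V k hk p hp E Y hm hEp hsp hV ⟨y, hy, hfib⟩
    apply ((hLIN V k p (univ \ Y) E ∅).2.2.2.2.1).2
    have h10 : (univ \ (univ \ Y) : Finset V) = Y := by
      ext i
      simp
    rw [h10, hbot, finrank_bot, hcard, heq, hkY, zero_add]
  | succ d ih =>
    intro E hEp hsp y hy hyk hd
    have hcard : E.card = ∑ v ∈ Y, (E.filter (fun e => y e = v)).card :=
      Finset.card_eq_sum_card_fiberwise (f := y) (t := Y) (fun e he => (hy e he).1)
    have hkY : ∑ v ∈ Y, k = k * Y.card := by
      rw [Finset.sum_const, smul_eq_mul, mul_comm]
    have hlt : E.card < k * Y.card := by omega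
    -- a vertex with a small fibre
    obtain ⟨v, hvY, hv⟩ : ∃ v ∈ Y, (E.filter (fun e => y e = v)).card < k := by
      apply Finset.exists_lt_of_sum_lt
      rw [← hcard, hkY]
      exact hlt
    -- an untouched vertex
    have hother : ∀ e ∈ E, ∃ w : V, e = s(y e, w) := by
      intro e he
      obtain ⟨w, hw⟩ := Sym2.mem_iff_exists.1 (hy e he).2
      exact ⟨w, hw⟩
    have hvne : Nonempty V := ⟨v⟩
    set w : Sym2 V → V := fun e => if h : e ∈ E then Classical.choose (hother e h) else v with hw
    have hwe : ∀ e ∈ E, e = s(y e, w e) := by
      intro e he
      have : w e = Classical.choose (hother e he) := by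
        rw [hw]
        simp only [dif_pos he]
      rw [this]
      exact Classical.choose_spec (hother e he)
    have hvts : Y ∪ vts E ⊆ Y ∪ E.image w := by
      intro u hu
      rw [Finset.mem_union] at hu ⊢
      rcases hu with hu | hu
      · exact Or.inl hu
      · rw [mem_vts] at hu
        obtain ⟨e, he, hue⟩ := hu
        rw [hwe e he, Sym2.mem_iff] at hue
        rcases hue with h | h
        · left
          rw [h]
          exact (hy e he).1
        · right
          rw [h]
          exact Finset.mem_image_of_mem w he
    have hc1 : (Y ∪ vts E).card ≤ Y.card + E.card :=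
      (Finset.card_le_card hvts).trans ((Finset.card_union_le _ _).trans
        (Nat.add_le_add_left Finset.card_image_le _))
    have hc2 : (Y ∪ vts E).card < (univ : Finset V).card := by
      rw [Finset.card_univ]
      have hYpos : 0 < Y.card := Finset.card_pos.2 ⟨v, hvY⟩
      nlinarith
    obtain ⟨a, _, ha⟩ := Finset.exists_mem_notMem_of_card_lt_card hc2
    rw [Finset.mem_union, not_or] at ha
    obtain ⟨haY, haE⟩ := ha
    have haE' : ∀ e ∈ E, a ∉ e := fun e he hae => haE ((mem_vts E a).2 ⟨e, he, hae⟩)
    have hva : v ≠ a := by
      rintro rfl
      exact haY hvY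
    have hnew : s(v, a) ∉ E := fun h => haE' _ h (by simp)
    have hsub : E ⊆ insert s(v, a) E := Finset.subset_insert _ _
    apply (hLIN V k p (univ \ Y) (insert s(v, a) E) ∅).2.2.2.2.2.2.2 E hsub
    apply ih (insert s(v, a) E) ?_ ?_ (Function.update y s(v, a) v)
    · intro e he
      rw [Finset.mem_insert] at he
      rcases he with rfl | he
      · rw [Function.update_self]
        exact ⟨hvY, by simp⟩
      · have hne : e ≠ s(v, a) := by
          rintro rfl
          exact hnew he
        rw [Function.update_of_ne hne]
        exact hy e he
    · intro u hu
      by_cases huv : u = v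
      · subst huv
        have hss : (insert s(u, a) E).filter (fun e => Function.update y s(u, a) u e = u)
            ⊆ insert s(u, a) (E.filter (fun e => y e = u)) := by
          intro e he
          rw [Finset.mem_filter, Finset.mem_insert] at he
          rw [Finset.mem_insert, Finset.mem_filter]
          rcases he.1 with h | h
          · exact Or.inl h
          · right
            refine ⟨h, ?_⟩
            have hne : e ≠ s(u, a) := by
              rintro rfl
              exact hnew h
            have h2 := he.2
            rw [Function.update_of_ne hne] at h2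
            exact h2
        exact (Finset.card_le_card hss).trans ((Finset.card_insert_le _ _).trans hv)
      · have hss : (insert s(v, a) E).filter (fun e => Function.update y s(v, a) v e = u)
            ⊆ E.filter (fun e => y e = u) := by
          intro e he
          rw [Finset.mem_filter, Finset.mem_insert] at he
          rw [Finset.mem_filter]
          rcases he.1 with h | h
          · exfalso
            have h2 := he.2
            rw [h, Function.update_self] at h2
            exact huv h2.symm
          · refine ⟨h, ?_⟩
            have hne : e ≠ s(v, a) := by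
              rintro rfl
              exact hnew h
            have h2 := he.2
            rw [Function.update_of_ne hne] at h2
            exact h2
        exact (Finset.card_le_card hss).trans (hyk u hu)
    · rw [Finset.card_insert_of_notMem hnew]
      omega
    · intro e he
      rw [Finset.mem_insert] at he
      rcases he with rfl | he
      · rw [mem_pairs]
        simpa using hva
      · exact hEp he
    · intro S
      by_cases haS : a ∈ S
      · have hss : sub (insert s(v, a) E) S ⊆ insert s(v, a) (sub E (S.erase a)) := by
          intro e he
          rw [mem_sub, Finset.mem_insert] at he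
          rw [Finset.mem_insert, mem_sub]
          rcases he.1 with h | h
          · exact Or.inl h
          · right
            refine ⟨h, fun i hi => Finset.mem_erase.2 ⟨?_, he.2 i hi⟩⟩
            rintro rfl
            exact haE' e h hi
        have h1 := (Finset.card_le_card hss).trans (Finset.card_insert_le _ _)
        have h2 := hsp (S.erase a)
        have h3 := Finset.card_erase_of_mem haS
        have h4 : 0 < S.card := Finset.card_pos.2 ⟨a, haS⟩
        omega
      · have hss : sub (insert s(v, a) E) S ⊆ sub E S := by
          intro e he
          rw [mem_sub, Finset.mem_insert] at he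
          rw [mem_sub]
          rcases he.1 with h | h
          · exfalso
            apply haS
            apply he.2
            rw [h]
            simp
          · exact ⟨h, he.2⟩
        have h1 := Finset.card_le_card hss
        have h2 := hsp S
        omega

end FRE_

theorem fre_proof (hLIN : Stmt_LIN) : Stmt_FRE := by
  intro m hSR V _ k hk p hp E Y hm hEp hsp hV hyex
  obtain ⟨y, hy, hyk⟩ := hyex
  exact FRE_.step hLIN m hSR hk p hp Y hm hV _ E hEp hsp y hy hyk rfl

end Pool.Agent.GRR
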