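import Pool.Agent.GRR.Stmts

set_option autoImplicit false

open Finset
open scoped Classical

namespace Pool.Agent.GRR

namespace FRZ_

variable {V : Type} [Fintype V] {k : ℕ}

/-- every pair on which all motions vanishing on the clique `Q` vanish is in the closure -/
lemma one (h2 : Stmt_TRI) (p : V → Fin k → ℝ) (hp : Gnr p) (G : Finset (Sym2 V)) (Q : Finset V)
    (hQ : k + 1 ≤ Q.card) (hC : Clq p G Q) (e : Sym2 V)
    (he : ∀ X ∈ Mot p Q G, ell p X e = 0) : Cl p G e := by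
  intro X hX
  obtain ⟨Y, hY, hYX, -⟩ := h2 V k p hp Q hQ X (fun i hi j hj => hC i hi j hj X hX)
  have h : X - Y ∈ Mot p Q G := by
    rw [mem_Mot]
    refine ⟨fun i hi => ?_, fun f hf => ?_⟩
    · show X i - Y i = 0
      rw [hYX i hi, sub_self]
    · rw [ell_sub, hX.2 f hf, hY f, sub_zero]
  have h' := he _ h
  rw [ell_sub, hY e, sub_zero] at h'
  exact h'

lemma two (p : V → Fin k → ℝ) (G : Finset (Sym2 V)) (Q : Finset V) : Q ⊆ fr p Q G := by
  intro v hv
  rw [mem_fr]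
  exact fun X hX => hX.1 v hv

/-- a vertex with at least `k` closure neighbours in `Q` is frozen -/
lemma froz (h1 : Stmt_STA) (p : V → Fin k → ℝ) (hp : Gnr p) (G : Finset (Sym2 V)) (Q T : Finset V)
    (hT : T ⊆ Q) (v : V) (hv : v ∉ T) (hk : k ≤ T.card) (hC : ∀ t ∈ T, Cl p G s(v, t)) :
    v ∈ fr p Q G := by
  rw [mem_fr]
  intro X hX
  refine (h1 V k p hp v T hv).2 hk (X v) (fun t ht => ?_)
  have h := hC t ht X (Mot_mono p (empty_subset Q) (subset_refl G) hX)
  rw [ell_mk, hX.1 t (hT ht), sub_zero] at h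
  exact h

lemma sub_fr (h1 : Stmt_STA) (p : V → Fin k → ℝ) (hp : Gnr p) (G : Finset (Sym2 V))
    (Q Q' : Finset V) (hC' : Clq p G Q') (hk : k ≤ (Q ∩ Q').card) : Q' ⊆ fr p Q G := by
  intro v hv
  by_cases hvQ : v ∈ Q
  · exact two p G Q hvQ
  · refine froz h1 p hp G Q (Q ∩ Q') inter_subset_left v (fun h => hvQ (mem_inter.1 h).1) hk ?_
    intro t ht
    exact hC' v hv t (mem_inter.1 ht).2

lemma mot_le (p : V → Fin k → ℝ) (G : Finset (Sym2 V)) (Q Q' : Finset V) (h : Q' ⊆ fr p Q G) :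
    Mot p Q G ≤ Mot p Q' G := by
  intro X hX
  exact ⟨fun i hi => (mem_fr p Q G i).1 (h hi) X hX, hX.2⟩

end FRZ_

open FRZ_ in
theorem frz_proof (h1 : Stmt_STA) (h2 : Stmt_TRI) : Stmt_FRZ := by
  intro V _ k p hp G Q hQ hC
  have H3 : Clq p G (fr p Q G) := by
    intro i hi j hj
    refine one h2 p hp G Q hQ hC _ (fun X hX => ?_)
    rw [ell_mk, (mem_fr p Q G i).1 hi X hX, (mem_fr p Q G j).1 hj X hX, sub_zero, dot_zero]
  refine ⟨one h2 p hp G Q hQ hC, two p G Q, H3, ?_, ?_, ?_⟩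
  · intro Q' hQ' hC' hk
    have ha : Q' ⊆ fr p Q G := sub_fr h1 p hp G Q Q' hC' hk
    have hb : Q ⊆ fr p Q' G := sub_fr h1 p hp G Q' Q hC (by rw [inter_comm]; exact hk)
    have hM : Mot p Q' G = Mot p Q G := le_antisymm (mot_le p G Q' Q hb) (mot_le p G Q Q' ha)
    refine ⟨ha, Clq_mono (subset_refl G) (union_subset (two p G Q) ha) H3, hM, ?_⟩
    ext z
    rw [mem_fr, mem_fr, hM]
  · intro v hv
    by_contra hcon
    apply hv
    refine froz h1 p hp G Q (Q.filter (fun q => Cl p G s(v, q))) (filter_subset _ _) v ?_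
      (not_lt.1 hcon) (fun t ht => (mem_filter.1 ht).2)
    intro h
    exact hv (two p G Q (mem_filter.1 h).1)
  · exact le_antisymm (Mot_mono p (two p G Q) (subset_refl G))
      (mot_le p G Q (fr p Q G) (subset_refl _))

end Pool.Agent.GRR
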