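import Pool.Agent.GRR.Stmts

/-! Module GDP: a random `m`-subset is in good position -/

set_option autoImplicit false

open Finset
open scoped Classical

namespace Pool.Agent.GRR

namespace GDP_

variable {V : Type} [Fintype V]

lemma not_good {k : ℕ} {p : V → Fin k → ℝ} {g : ℕ} {G : Finset (Sym2 V)} {U : Finset V}
    (hD : Stmt_DEC) (h : ¬ GoodAt p g G U) :
    Bad p g (U.card * k) G U ∨ ∃ x ∈ U.offDiag, Cnf p g G x.1 x.2 := by
  by_contra hn
  rw [not_or] at hn
  obtain ⟨h1, h2⟩ := hn
  apply h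
  intro Q hg hQ
  refine ⟨hD V k p G U g h1 Q hg hQ, ?_⟩
  intro u hu v hv huv hX hcl
  exact h2 ⟨(u, v), mem_offDiag.2 ⟨hu, hv, huv⟩, huv, hcl, Q, hg, hQ, hX⟩

lemma count (m : ℕ) {u v : V} (h : u ≠ v) :
    (((powersetCard m (univ : Finset V)).filter (fun U => u ∈ U ∧ v ∈ U)).card : ℝ) *
      (Fintype.card V : ℝ) ^ 2 ≤ (Fintype.card V : ℝ) ^ m := by
  by_cases hm : 2 ≤ m
  · obtain ⟨m', rfl⟩ := Nat.exists_eq_add_of_le' hm
    have h1 : ((powersetCard (m' + 2) (univ : Finset V)).filter (fun U => u ∈ U ∧ v ∈ U)).card ≤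
        (powersetCard m' (univ : Finset V)).card := by
      refine card_le_card_of_injOn (fun U => (U.erase u).erase v) ?_ ?_
      · intro U hU
        rw [mem_coe, mem_filter, mem_powersetCard] at hU
        obtain ⟨⟨-, hc⟩, hu, hv⟩ := hU
        rw [mem_coe, mem_powersetCard]
        refine ⟨subset_univ _, ?_⟩
        rw [card_erase_of_mem (mem_erase.2 ⟨h.symm, hv⟩), card_erase_of_mem hu, hc]
        rfl
      · intro U hU W hW hUW
        rw [mem_coe, mem_filter] at hU hW
        obtain ⟨-, hu, hv⟩ := hU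
        obtain ⟨-, hu', hv'⟩ := hW
        have e1 : insert u (insert v ((U.erase u).erase v)) = U := by
          rw [insert_erase (mem_erase.2 ⟨h.symm, hv⟩), insert_erase hu]
        have e2 : insert u (insert v ((W.erase u).erase v)) = W := by
          rw [insert_erase (mem_erase.2 ⟨h.symm, hv'⟩), insert_erase hu']
        have hUW' : (U.erase u).erase v = (W.erase u).erase v := hUW
        rw [← e1, ← e2, hUW']
    have h2 : (powersetCard m' (univ : Finset V)).card ≤ Fintype.card V ^ m' := by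
      rw [card_powersetCard, card_univ]
      exact Nat.choose_le_pow _ _
    have h3 : (((powersetCard (m' + 2) (univ : Finset V)).filter
        (fun U => u ∈ U ∧ v ∈ U)).card : ℝ) ≤ (Fintype.card V : ℝ) ^ m' := by
      exact_mod_cast h1.trans h2
    rw [pow_add]
    gcongr
  · have : (powersetCard m (univ : Finset V)).filter (fun U => u ∈ U ∧ v ∈ U) = ∅ := by
      rw [filter_eq_empty_iff]
      intro U hU hUV
      rw [mem_powersetCard] at hU
      have h1 : ({u, v} : Finset V) ⊆ U := by
        intro w hw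
        rw [mem_insert, mem_singleton] at hw
        rcases hw with rfl | rfl
        · exact hUV.1
        · exact hUV.2
      have h2 := card_le_card h1
      rw [card_pair h, hU.2] at h2
      exact hm h2
    rw [this, card_empty]
    simp

end GDP_

open GDP_ in
theorem gdp_proof (h1 : Stmt_BDX) (h2 : Stmt_DEC) (h3 : Stmt_CNF) (h4 : Stmt_EXB) : Stmt_GDP := by
  intro k m c γ ε hk hc hγ hε
  obtain ⟨na, ha⟩ := h1 (m * k) k m c γ (ε / 2) hk hc hγ (by linarith)
  obtain ⟨nb, hb⟩ := h3 k c γ (ε / 2) hk hc hγ (by linarith)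
  refine ⟨max (max na nb) (⌈c⌉₊ + 1), ?_⟩
  intro V _ p hp hn g hg
  have hna : na ≤ Fintype.card V := (le_max_left _ _).trans ((le_max_left _ _).trans hn)
  have hnb : nb ≤ Fintype.card V := (le_max_right _ _).trans ((le_max_left _ _).trans hn)
  have hnc : ⌈c⌉₊ + 1 ≤ Fintype.card V := (le_max_right _ _).trans hn
  have hcn : c ≤ Fintype.card V := by
    have : ⌈c⌉₊ ≤ Fintype.card V := by omega
    exact (Nat.le_ceil c).trans (by exact_mod_cast this)
  have hn0 : (0 : ℝ) < Fintype.card V := by
    have : 0 < Fintype.card V := by omega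
    exact_mod_cast this
  set π : ℝ := c / Fintype.card V with hπ
  have π0 : 0 ≤ π := by positivity
  have π1 : π ≤ 1 := by
    rw [hπ, div_le_one hn0]
    exact hcn
  obtain ⟨-, -, -, e4, e5, -, e7, -⟩ := h4 (Sym2 V) π (pairs V) π0 π1
  have hA := ha V p hp hna g hg
  have hB := hb V p hp hnb g hg
  set q : V × V → ℝ := fun x => Pr π (pairs V) (fun G => Cnf p g G x.1 x.2) with hq
  have q0 : ∀ x, 0 ≤ q x := fun x => (e5 _).1
  have step : ∀ U ∈ powersetCard m (univ : Finset V),
      Pr π (pairs V) (fun G => ¬ GoodAt p g G U) ≤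
        Pr π (pairs V) (fun G => Bad p g (m * k) G U) + ∑ x ∈ U.offDiag, q x := by
    intro U hU
    rw [mem_powersetCard] at hU
    refine (e4 _ (fun G => Bad p g (m * k) G U)
      (fun G => ∃ x ∈ U.offDiag, Cnf p g G x.1 x.2) ?_).trans ?_
    · intro G _ hG
      have := not_good h2 hG
      rw [hU.2] at this
      exact this
    · gcongr
      exact e7 (V × V) U.offDiag (fun x G => Cnf p g G x.1 x.2) _ (fun G _ hG => hG)
  have swap : ∑ U ∈ powersetCard m (univ : Finset V), ∑ x ∈ U.offDiag, q x =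
      ∑ x ∈ (univ : Finset V).offDiag,
        (((powersetCard m (univ : Finset V)).filter (fun U => x.1 ∈ U ∧ x.2 ∈ U)).card : ℝ) *
          q x := by
    have s1 : ∀ U ∈ powersetCard m (univ : Finset V), ∑ x ∈ U.offDiag, q x =
        ∑ x ∈ (univ : Finset V).offDiag, if x.1 ∈ U ∧ x.2 ∈ U then q x else 0 := by
      intro U _
      rw [← sum_filter]
      refine sum_congr ?_ fun _ _ => rfl
      ext x
      simp only [mem_offDiag, mem_filter, mem_univ, true_and]
      tauto
    rw [sum_congr rfl s1, sum_comm]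
    refine sum_congr rfl fun x _ => ?_
    rw [← sum_filter, sum_const, nsmul_eq_mul]
  have hB' : ∑ x ∈ (univ : Finset V).offDiag, q x ≤ ε / 2 * (Fintype.card V : ℝ) ^ 2 := by
    refine le_trans ?_ hB
    have : ∑ u : V, ∑ v : V, Pr π (pairs V) (fun G => Cnf p g G u v) =
        ∑ x ∈ (univ : Finset (V × V)), q x := by
      rw [← univ_product_univ, sum_product]
    rw [this]
    exact sum_le_sum_of_subset_of_nonneg (subset_univ _) (fun x _ _ => q0 x)
  have last : ∑ x ∈ (univ : Finset V).offDiag,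
        (((powersetCard m (univ : Finset V)).filter (fun U => x.1 ∈ U ∧ x.2 ∈ U)).card : ℝ) *
          q x ≤ ε / 2 * (Fintype.card V : ℝ) ^ m := by
    have hp2 : (0 : ℝ) < (Fintype.card V : ℝ) ^ 2 := by positivity
    have l1 : ∀ x ∈ (univ : Finset V).offDiag,
        (((powersetCard m (univ : Finset V)).filter (fun U => x.1 ∈ U ∧ x.2 ∈ U)).card : ℝ) *
          q x ≤ (Fintype.card V : ℝ) ^ m / (Fintype.card V : ℝ) ^ 2 * q x := by
      intro x hx
      rw [mem_offDiag] at hx
      have := count m hx.2.2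
      refine mul_le_mul_of_nonneg_right ?_ (q0 x)
      rw [le_div_iff₀ hp2]
      exact this
    refine (sum_le_sum l1).trans ?_
    rw [← mul_sum]
    calc (Fintype.card V : ℝ) ^ m / (Fintype.card V : ℝ) ^ 2 * ∑ x ∈ (univ : Finset V).offDiag, q x
        ≤ (Fintype.card V : ℝ) ^ m / (Fintype.card V : ℝ) ^ 2 *
          (ε / 2 * (Fintype.card V : ℝ) ^ 2) := by gcongr
      _ = ε / 2 * (Fintype.card V : ℝ) ^ m := by field_simp
  calc ∑ U ∈ powersetCard m (univ : Finset V), Pr π (pairs V) (fun G => ¬ GoodAt p g G U)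
      ≤ ∑ U ∈ powersetCard m (univ : Finset V),
        (Pr π (pairs V) (fun G => Bad p g (m * k) G U) + ∑ x ∈ U.offDiag, q x) := sum_le_sum step
    _ = ∑ U ∈ powersetCard m (univ : Finset V), Pr π (pairs V) (fun G => Bad p g (m * k) G U) +
        ∑ U ∈ powersetCard m (univ : Finset V), ∑ x ∈ U.offDiag, q x := sum_add_distrib
    _ ≤ ε / 2 * (Fintype.card V : ℝ) ^ m + ε / 2 * (Fintype.card V : ℝ) ^ m := by
        rw [swap]
        exact add_le_add hA last
    _ = ε * (Fintype.card V : ℝ) ^ m := by ring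

end Pool.Agent.GRR
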