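import Pool.Agent.GRR.Stmts

/-!
# GRR, module GEN
-/

set_option autoImplicit false

open Finset
open scoped Classical

namespace Pool.Agent.GRR

namespace GEN_

/-- the Gram matrix of the rows -/
noncomputable def gram {ι κ R : Type} [Fintype κ] [CommRing R] (M : ι → κ → R) : Matrix ι ι R :=
  Matrix.of (fun i i' => ∑ j, M i j * M i' j)

theorem vec_gram {ι κ : Type} [Fintype ι] [Fintype κ] (A : ι → κ → ℝ) (v : ι → ℝ) (i' : ι) :
    Matrix.vecMul v (gram A) i' = ∑ j, (∑ i, v i * A i j) * A i' j := by
  unfold Matrix.vecMul dotProduct gram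
  simp only [Matrix.of_apply, Finset.mul_sum, Finset.sum_mul]
  rw [Finset.sum_comm]
  exact Finset.sum_congr rfl (fun j _ => Finset.sum_congr rfl (fun i _ => by ring))

theorem det_ne {ι κ : Type} [Fintype ι] [Fintype κ] (A : ι → κ → ℝ) :
    (gram A).det ≠ 0 ↔ LinearIndependent ℝ A := by
  constructor
  · intro hdet
    rw [Fintype.linearIndependent_iff]
    intro g hg
    by_contra hne
    push Not at hne
    apply hdet
    rw [← Matrix.exists_vecMul_eq_zero_iff]
    refine ⟨g, ?_, ?_⟩
    · intro h0
      obtain ⟨i, hi⟩ := hne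
      exact hi (by rw [h0]; rfl)
    · funext i'
      rw [vec_gram]
      have : ∀ j, ∑ i, g i * A i j = 0 := by
        intro j
        have h1 := congrFun hg j
        simpa using h1
      simp [this]
  · intro hli hdet
    rw [← Matrix.exists_vecMul_eq_zero_iff] at hdet
    obtain ⟨v, hv, hv2⟩ := hdet
    apply hv
    have h1 : ∑ j, (∑ i, v i * A i j) * (∑ i, v i * A i j) = 0 := by
      have h2 : ∑ i', v i' * Matrix.vecMul v (gram A) i' = 0 := by
        rw [hv2]; simp
      rw [← h2]
      have h3 : ∀ i', v i' * Matrix.vecMul v (gram A) i' =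
          ∑ j, (∑ i, v i * A i j) * (v i' * A i' j) := by
        intro i'
        rw [vec_gram, Finset.mul_sum]
        exact Finset.sum_congr rfl (fun j _ => by ring)
      rw [Finset.sum_congr rfl (fun i' _ => h3 i'), Finset.sum_comm]
      exact Finset.sum_congr rfl (fun j _ => by rw [← Finset.mul_sum])
    have h4 := (Finset.sum_eq_zero_iff_of_nonneg
      (fun j _ => mul_self_nonneg (∑ i, v i * A i j))).1 h1
    have h5 : ∑ i, v i • A i = 0 := by
      funext j
      have h6 := mul_self_eq_zero.1 (h4 j (mem_univ j))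
      simpa using h6
    funext i
    exact Fintype.linearIndependent_iff.1 hli v h5 i

theorem map_gram {σ ι κ : Type} [Fintype ι] [Fintype κ] (M : ι → κ → MvPolynomial σ ℚ)
    (y : σ → ℝ) :
    MvPolynomial.aeval y (gram M).det =
      (gram (fun i j => MvPolynomial.aeval y (M i j))).det := by
  rw [AlgHom.map_det]
  have h1 : (MvPolynomial.aeval y : MvPolynomial σ ℚ →ₐ[ℚ] ℝ).mapMatrix (gram M) =
      gram (fun i j => MvPolynomial.aeval y (M i j)) := by
    ext i i'
    simp [gram]
  rw [h1]

end GEN_

theorem gen_proof : Stmt_GEN := by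
  intro σ _ x y hx ι κ _ _ M h
  have h1 := (GEN_.det_ne (fun i j => MvPolynomial.aeval y (M i j))).2 h
  apply (GEN_.det_ne (fun i j => MvPolynomial.aeval x (M i j))).1
  rw [← GEN_.map_gram] at h1 ⊢
  intro h2
  have h3 : (GEN_.gram M).det = 0 := by
    apply hx
    rw [map_zero]
    exact h2
  apply h1
  rw [h3, map_zero]

end Pool.Agent.GRR
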