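import Pool.Agent.GRR.Stmts

/-!
# GLB (MP_9e2625_co): basic properties of globally linked pairs
-/

set_option autoImplicit false

open Finset
open scoped Classical

namespace Pool.Agent.GRR

theorem glb_proof (h1 : Stmt_AFC) : Stmt_GLB := by
  intro V _ k R
  refine ⟨?_, ?_, ?_, ?_⟩
  · intro e he q _ q' h
    exact h e he
  · intro R' e hR he q hq q' h
    exact he q hq q' (fun f hf => hR f hf q hq q' h)
  · intro A B hA hB hc i hi j hj q hq q' h
    refine h1 V k q hq (A ∩ B) hc q' ?_ i j ?_ ?_
    · intro x hx y hy
      exact hA x (mem_inter.1 hx).1 y (mem_inter.1 hy).1 q hq q' h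
    · intro x hx
      rcases mem_union.1 hi with hi | hi
      · exact hA i hi x (mem_inter.1 hx).1 q hq q' h
      · exact hB i hi x (mem_inter.1 hx).2 q hq q' h
    · intro x hx
      rcases mem_union.1 hj with hj | hj
      · exact hA j hj x (mem_inter.1 hx).1 q hq q' h
      · exact hB j hj x (mem_inter.1 hx).2 q hq q' h
  · intro A v hA hc i hi j hj q hq q' h
    refine h1 V k q hq (A.filter (fun a => Glk k R s(v, a))) hc q' ?_ i j ?_ ?_
    · intro x hx y hy
      exact hA x (mem_filter.1 hx).1 y (mem_filter.1 hy).1 q hq q' h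
    · intro x hx
      rcases mem_insert.1 hi with hi | hi
      · rw [hi]
        exact (mem_filter.1 hx).2 q hq q' h
      · exact hA i hi x (mem_filter.1 hx).1 q hq q' h
    · intro x hx
      rcases mem_insert.1 hj with hj | hj
      · rw [hj]
        exact (mem_filter.1 hx).2 q hq q' h
      · exact hA j hj x (mem_filter.1 hx).1 q hq q' h

end Pool.Agent.GRR
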