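import Pool.Agent.GRR.Stmts

set_option autoImplicit false

open Finset
open scoped Classical

namespace Pool.Agent.GRR

namespace GLO_

lemma iso_dot {k : ℕ} (O : Matrix (Fin k) (Fin k) ℝ) (hO : O.transpose * O = 1)
    (x : Fin k → ℝ) : dot (O.transpose.mulVec x) (O.transpose.mulVec x) = dot x x := by
  have hO' : O * O.transpose = 1 := mul_eq_one_comm.1 hO
  have h0 : ∀ a b : Fin k → ℝ, dot a b = dotProduct a b := fun _ _ => rfl
  rw [h0, h0, Matrix.dotProduct_mulVec, Matrix.mulVec_transpose, Matrix.vecMul_vecMul, hO',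
    Matrix.vecMul_one]

lemma card_inc_vts {V : Type} [Fintype V] (R : Finset (Sym2 V)) :
    sub R (vts R) = R := by
  ext e
  rw [mem_sub]
  constructor
  · exact fun h => h.1
  · exact fun h => ⟨h, fun i hi => (mem_vts R i).2 ⟨e, h, hi⟩⟩

/-- number of pairs (vertex, edge at the vertex) -/
lemma double_count {V : Type} [Fintype V] (R : Finset (Sym2 V)) (hR : R ⊆ pairs V) :
    ∑ v ∈ vts R, (nbr R v).card ≤ 2 * R.card := by
  have h1 : ∀ v ∈ vts R, (nbr R v).card ≤ (R.filter (fun e => v ∈ e)).card := by
    intro v _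
    apply Finset.card_le_card_of_injOn (fun y => s(v, y))
    · intro y hy
      have hy' := (mem_nbr R v y).1 hy
      exact Finset.mem_coe.2 (Finset.mem_filter.2 ⟨hy'.2, by simp⟩)
    · intro y _ y' _ h
      have h2 : s(v, y) = s(v, y') := h
      rw [Sym2.eq_iff] at h2
      rcases h2 with h2 | h2
      · exact h2.2
      · rw [h2.2, ← h2.1]
  calc ∑ v ∈ vts R, (nbr R v).card ≤ ∑ v ∈ vts R, (R.filter (fun e => v ∈ e)).card :=
        Finset.sum_le_sum h1
    _ = ∑ v ∈ vts R, ∑ e ∈ R, (if v ∈ e then 1 else 0) := by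
        exact Finset.sum_congr rfl (fun v _ => by rw [Finset.card_filter])
    _ = ∑ e ∈ R, ∑ v ∈ vts R, (if v ∈ e then 1 else 0) := Finset.sum_comm
    _ ≤ ∑ e ∈ R, 2 := by
        apply Finset.sum_le_sum
        intro e _
        rw [← Finset.card_filter]
        induction e with
        | h i j =>
          calc ((vts R).filter (fun v => v ∈ s(i, j))).card ≤ ({i, j} : Finset V).card := by
                apply Finset.card_le_card
                intro v hv
                have := (Finset.mem_filter.1 hv).2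
                rw [Sym2.mem_iff] at this
                rcases this with h | h
                · simp [h]
                · simp [h]
            _ ≤ 2 := Finset.card_le_two
    _ = 2 * R.card := by rw [Finset.sum_const, smul_eq_mul, mul_comm]

end GLO_

open GLO_ in
theorem glo_proof (h1 : Stmt_CLS) (h2 : Stmt_SGL) (h3 : Stmt_ISM) (h4 : Stmt_RDF) : Stmt_GLO := by
  intro V _ k hk p hp R s g t hR hne hspr hclq hdeg hexc hbad huni hs1 hs2 hs3 hs4
  obtain ⟨A, hAsub, hA, hAcard⟩ := h1 V k hk p hp R s g t hR hne hspr hclq hdeg hbad huni hs1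
  -- the vertex set is large
  have hvne : (vts R).Nonempty := by
    obtain ⟨e, he⟩ := hne
    induction e with
    | h i j => exact ⟨i, (mem_vts R i).2 ⟨_, he, by simp⟩⟩
  have hlarge : s < (vts R).card := by
    by_contra hcon
    push Not at hcon
    have ha := hspr (vts R) hcon
    rw [card_inc_vts] at ha
    have hb := double_count R hR
    have hc : ∑ v ∈ vts R, (k + 1) ≤ ∑ v ∈ vts R, (nbr R v).card := Finset.sum_le_sum hdeg
    rw [Finset.sum_const, smul_eq_mul] at hc
    have hd : 0 < (vts R).card := Finset.card_pos.2 hvne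
    have he : (vts R).card * 3 ≤ (vts R).card * (k + 1) := Nat.mul_le_mul_left _ (by omega)
    omega
  have hk5 : 5 * t ≤ (k + 1) * (5 * t) := Nat.le_mul_of_pos_left _ (by omega)
  have hAk : k + 1 ≤ A.card := by omega
  intro i hi j hj p1 hp1 q' hq'
  -- the isometry
  obtain ⟨O, T, hO, hOT⟩ := h3 V k p1 hp1 A hAk q' (fun a ha b hb => hA a ha b hb p1 hp1 q' hq')
  have hlenO : ∀ a b : V, dot (O.transpose.mulVec (q' a - T) - O.transpose.mulVec (q' b - T))
      (O.transpose.mulVec (q' a - T) - O.transpose.mulVec (q' b - T))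
      = dot (q' a - q' b) (q' a - q' b) := by
    intro a b
    rw [← Matrix.mulVec_sub, iso_dot O hO]
    have : q' a - T - (q' b - T) = q' a - q' b := by abel
    rw [this]
  let q2 : V → Fin k → ℝ := fun v => if v ∈ vts R then O.transpose.mulVec (q' v - T) else p1 v
  have hq2A : ∀ a ∈ A, q2 a = p1 a := by
    intro a ha
    have : q2 a = O.transpose.mulVec (q' a - T) := if_pos (hAsub ha)
    rw [this, hOT a ha, add_sub_cancel_right, Matrix.mulVec_mulVec, hO, Matrix.one_mulVec]
  have hq2out : ∀ a, a ∉ vts R → q2 a = p1 a := fun a ha => if_neg ha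
  have hq2len : ∀ e ∈ R, len q2 e = len p1 e := by
    intro e he
    rw [← hq' e he]
    induction e with
    | h a b =>
      have ha : a ∈ vts R := (mem_vts R a).2 ⟨_, he, by simp⟩
      have hb : b ∈ vts R := (mem_vts R b).2 ⟨_, he, by simp⟩
      rw [len_mk, len_mk]
      have e1 : q2 a = O.transpose.mulVec (q' a - T) := if_pos ha
      have e2 : q2 b = O.transpose.mulVec (q' b - T) := if_pos hb
      rw [e1, e2, hlenO]
  let Y : Finset V := univ.filter (fun v => q2 v ≠ p1 v)
  have hYsub : Y ⊆ vts R \ A := by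
    intro v hv
    have hv' : q2 v ≠ p1 v := (Finset.mem_filter.1 hv).2
    rw [Finset.mem_sdiff]
    constructor
    · by_contra h
      exact hv' (hq2out v h)
    · intro h
      exact hv' (hq2A v h)
  have hYcard : Y.card ≤ 5 * t := by
    have ha := Finset.card_le_card hYsub
    rw [Finset.card_sdiff_of_subset hAsub] at ha
    omega
  have hYempty : Y = ∅ := by
    by_contra hY
    have hYne : Y.Nonempty := Finset.nonempty_iff_ne_empty.2 hY
    have hYv : Y ⊆ vts R := fun v hv => (Finset.mem_sdiff.1 (hYsub hv)).1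
    have hAY : A ⊆ vts R \ Y := by
      intro a ha
      rw [Finset.mem_sdiff]
      exact ⟨hAsub ha, fun h => (Finset.mem_sdiff.1 (hYsub h)).2 ha⟩
    have hb := hexc Y hYv hYne (le_trans hAk (Finset.card_le_card hAY))
    have hc : (k + 1) * Y.card ≤ (k + 1) * (5 * t) := Nat.mul_le_mul_left _ hYcard
    have hd : (2 * k + 2) * Y.card ≤ (2 * k + 2) * (5 * t) := Nat.mul_le_mul_left _ hYcard
    refine h2 V k hk p1 hp1 s R Y hR hspr (by omega) (by omega) hb q2 ?_ ?_ hq2len
    · intro v hv
      by_contra h
      exact hv (Finset.mem_filter.2 ⟨Finset.mem_univ _, h⟩)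
    · intro y hy
      exact (Finset.mem_filter.1 hy).2
  have hall : ∀ v, q2 v = p1 v := by
    intro v
    by_contra h
    have : v ∈ Y := Finset.mem_filter.2 ⟨Finset.mem_univ _, h⟩
    rw [hYempty] at this
    exact absurd this (Finset.notMem_empty v)
  rw [len_mk, len_mk]
  have e1 : q2 i = O.transpose.mulVec (q' i - T) := if_pos hi
  have e2 : q2 j = O.transpose.mulVec (q' j - T) := if_pos hj
  rw [← hall i, ← hall j, e1, e2, hlenO]

end Pool.Agent.GRR
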