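import Pool.Agent.GRR.Stmts

/-!
# GNE: genericity for edge functionals and coordinate functionals
-/

set_option autoImplicit false

open Finset
open scoped Classical

namespace Pool.Agent.GRR

namespace GNE_

variable {V : Type} [Fintype V] {k : ℕ}

/-- the unit configuration at `(v, c)`, zero if `v` is pinned -/
noncomputable def dl (B : Finset V) (x : V × Fin k) : V → Fin k → ℝ :=
  fun w d => if x.1 ∈ B then 0 else if w = x.1 ∧ d = x.2 then 1 else 0

lemma dl_zero (B : Finset V) (x : V × Fin k) (i : V) (hi : i ∈ B) : dl B x i = 0 := by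
  funext d
  unfold dl
  by_cases h : x.1 ∈ B
  · simp [h]
  · have : ¬ (i = x.1 ∧ d = x.2) := by
      rintro ⟨rfl, _⟩
      exact h hi
    simp [h, this]

lemma expand (B : Finset V) (X : V → Fin k → ℝ) (hX : ∀ i ∈ B, X i = 0) :
    X = ∑ x : V × Fin k, X x.1 x.2 • dl B x := by
  funext w d
  rw [Finset.sum_apply, Finset.sum_apply]
  rw [Finset.sum_eq_single (w, d)]
  · by_cases h : w ∈ B
    · simp [dl, h, hX w h]
    · simp [dl, h]
  · intro x _ hx
    have : ¬ (w = x.1 ∧ d = x.2) := by
      rintro ⟨rfl, rfl⟩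
      exact hx rfl
    simp [dl, this]
  · intro h
    exact absurd (mem_univ _) h

/-- the polynomial entry of the row of a pair -/
noncomputable def row (e : Sym2 V) (x : V × Fin k) : MvPolynomial (V × Fin k) ℚ :=
  Sym2.lift ⟨fun i j => ((if i = x.1 then 1 else 0) - (if j = x.1 then 1 else 0)) *
    (MvPolynomial.X (i, x.2) - MvPolynomial.X (j, x.2)), by
      intro i j
      ring⟩ e

/-- all rows -/
noncomputable def Mx (B : Finset V) (E : Finset (Sym2 V)) (C : Finset (V × Fin k)) :
    ({e // e ∈ E} ⊕ {x // x ∈ C}) → (V × Fin k) → MvPolynomial (V × Fin k) ℚ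
  | Sum.inl e, x => if x.1 ∈ B then 0 else row e.1 x
  | Sum.inr z, x => if x.1 ∈ B then 0 else if z.1.1 = x.1 ∧ z.1.2 = x.2 then 1 else 0

lemma aeval_inl (r : V → Fin k → ℝ) (B : Finset V) (E : Finset (Sym2 V))
    (C : Finset (V × Fin k)) (e : {e // e ∈ E}) (x : V × Fin k) :
    MvPolynomial.aeval (fun y : V × Fin k => r y.1 y.2) (Mx B E C (Sum.inl e) x) =
      ell r (dl B x) e.1 := by
  obtain ⟨e, he⟩ := e
  by_cases h : x.1 ∈ B
  · have h0 : dl B x = 0 := by
      funext w d
      simp [dl, h]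
    simp [Mx, h, h0, ell_zero]
  · induction e with
    | h i j =>
      simp only [Mx, if_neg h, row, Sym2.lift_mk, ell_mk, map_mul, map_sub, MvPolynomial.aeval_X]
      unfold dot
      rw [Finset.sum_eq_single x.2]
      · simp only [Pi.sub_apply, dl, if_neg h, and_true]
        have h1 : ∀ w : V, MvPolynomial.aeval (fun y : V × Fin k => r y.1 y.2)
            (if w = x.1 then (1 : MvPolynomial (V × Fin k) ℚ) else 0) =
            if w = x.1 then (1 : ℝ) else 0 := by
          intro w
          split_ifs <;> simp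
        rw [h1, h1]
        ring
      · intro d _ hd
        simp [dl, h, hd]
      · intro h'
        exact absurd (mem_univ _) h'

lemma aeval_inr (r : V → Fin k → ℝ) (B : Finset V) (E : Finset (Sym2 V))
    (C : Finset (V × Fin k)) (z : {x // x ∈ C}) (x : V × Fin k) :
    MvPolynomial.aeval (fun y : V × Fin k => r y.1 y.2) (Mx B E C (Sum.inr z) x) =
      dl B x z.1.1 z.1.2 := by
  simp only [Mx, dl]
  split_ifs <;> simp

/-- the two sums of `Ind` as a sum over the rows -/
lemma sum_rows (r : V → Fin k → ℝ) (B : Finset V) (E : Finset (Sym2 V))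
    (C : Finset (V × Fin k)) (ω : Sym2 V → ℝ) (θ : V × Fin k → ℝ) (x : V × Fin k) :
    ∑ e ∈ E, ω e * ell r (dl B x) e + ∑ z ∈ C, θ z * dl B x z.1 z.2 =
      ∑ i : {e // e ∈ E} ⊕ {x // x ∈ C}, Sum.elim (fun e => ω e.1) (fun z => θ z.1) i *
        MvPolynomial.aeval (fun y : V × Fin k => r y.1 y.2) (Mx B E C i x) := by
  rw [Fintype.sum_sum_type]
  congr 1
  · rw [← Finset.sum_coe_sort]
    refine Finset.sum_congr rfl (fun e _ => ?_)
    rw [aeval_inl, Sum.elim_inl]
  · rw [← Finset.sum_coe_sort]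
    refine Finset.sum_congr rfl (fun e _ => ?_)
    rw [aeval_inr, Sum.elim_inr]

lemma ell_expand (r : V → Fin k → ℝ) (B : Finset V) (X : V → Fin k → ℝ)
    (hX : ∀ i ∈ B, X i = 0) (e : Sym2 V) :
    ell r X e = ∑ x : V × Fin k, X x.1 x.2 * ell r (dl B x) e := by
  conv_lhs => rw [expand B X hX]
  rw [ell_sum]
  exact Finset.sum_congr rfl (fun x _ => ell_smul _ _ _ _)

lemma coord_expand (B : Finset V) (X : V → Fin k → ℝ)
    (hX : ∀ i ∈ B, X i = 0) (z : V × Fin k) :
    X z.1 z.2 = ∑ x : V × Fin k, X x.1 x.2 * dl B x z.1 z.2 := by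
  conv_lhs => rw [expand B X hX]
  rw [Finset.sum_apply, Finset.sum_apply]
  exact Finset.sum_congr rfl (fun x _ => rfl)

lemma ind_iff (r : V → Fin k → ℝ) (B : Finset V) (E : Finset (Sym2 V))
    (C : Finset (V × Fin k)) :
    Ind r B E C ↔ LinearIndependent ℝ (fun i => fun x =>
      MvPolynomial.aeval (fun y : V × Fin k => r y.1 y.2) (Mx B E C i x)) := by
  rw [Fintype.linearIndependent_iff]
  constructor
  · intro h g hg
    let ω : Sym2 V → ℝ := fun e => if h : e ∈ E then g (Sum.inl ⟨e, h⟩) else 0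
    let θ : V × Fin k → ℝ := fun z => if h : z ∈ C then g (Sum.inr ⟨z, h⟩) else 0
    have hgs : Sum.elim (fun e : {e // e ∈ E} => ω e.1) (fun z : {x // x ∈ C} => θ z.1) = g := by
      funext i
      rcases i with e | z
      · simp only [Sum.elim_inl, ω, dif_pos e.2]
      · simp only [Sum.elim_inr, θ, dif_pos z.2]
    have hx : ∀ x : V × Fin k,
        ∑ e ∈ E, ω e * ell r (dl B x) e + ∑ z ∈ C, θ z * dl B x z.1 z.2 = 0 := by
      intro x
      rw [sum_rows, hgs]
      have := congrFun hg x
      rw [Finset.sum_apply] at this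
      simpa [smul_eq_mul] using this
    obtain ⟨h1, h2⟩ := h ω θ (by
      intro X hX
      have e1 : ∑ e ∈ E, ω e * ell r X e =
          ∑ x : V × Fin k, X x.1 x.2 * ∑ e ∈ E, ω e * ell r (dl B x) e := by
        simp only [Finset.mul_sum]
        rw [Finset.sum_comm]
        refine Finset.sum_congr rfl (fun e _ => ?_)
        rw [ell_expand r B X hX e, Finset.mul_sum]
        exact Finset.sum_congr rfl (fun x _ => by ring)
      have e2 : ∑ z ∈ C, θ z * X z.1 z.2 =
          ∑ x : V × Fin k, X x.1 x.2 * ∑ z ∈ C, θ z * dl B x z.1 z.2 := by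
        simp only [Finset.mul_sum]
        rw [Finset.sum_comm]
        refine Finset.sum_congr rfl (fun z _ => ?_)
        rw [coord_expand B X hX z, Finset.mul_sum]
        exact Finset.sum_congr rfl (fun x _ => by ring)
      rw [e1, e2, ← Finset.sum_add_distrib]
      refine Finset.sum_eq_zero (fun x _ => ?_)
      rw [← mul_add, hx x, mul_zero])
    intro i
    rw [← hgs]
    rcases i with e | z
    · exact h1 e.1 e.2
    · exact h2 z.1 z.2
  · intro h ω θ hωθ
    have := h (Sum.elim (fun e : {e // e ∈ E} => ω e.1) (fun z : {x // x ∈ C} => θ z.1)) (by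
      funext x
      rw [Finset.sum_apply]
      have h1 := hωθ (dl B x) (fun i hi => dl_zero B x i hi)
      rw [sum_rows] at h1
      simpa [smul_eq_mul] using h1)
    exact ⟨fun e he => this (Sum.inl ⟨e, he⟩), fun z hz => this (Sum.inr ⟨z, hz⟩)⟩

end GNE_

theorem gne_proof (h1 : Stmt_GEN) : Stmt_GNE := by
  intro V _ k p q hp B E C h
  rw [GNE_.ind_iff] at h ⊢
  exact h1 (V × Fin k) (fun y => p y.1 y.2) (fun y => q y.1 y.2) hp _ _ (GNE_.Mx B E C) h

end Pool.Agent.GRR
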