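import Pool.Agent.GRR.Stmts

/-!
# GPT: a generic point is on no hypersurface over the algebraic closure of the others
-/

set_option autoImplicit false

open Finset
open scoped Classical

namespace Pool.Agent.GRR

theorem gpt_proof (_hACL : Stmt_ACL) : Stmt_GPT := by
  intro V _ k p hp W v hv f hf hev
  set x : V × Fin k → ℝ := fun x => p x.1 x.2 with hx
  set s : Set (V × Fin k) := {y | y.1 ∈ W} with hs
  set t : Set (V × Fin k) := {y | y.1 = v} with ht
  have hst : Disjoint s t := by
    rw [Set.disjoint_left]
    intro y hy hy'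
    have h1 : y.1 ∈ W := hy
    have h2 : y.1 = v := hy'
    exact hv (h2 ▸ h1)
  have himg : x '' s = crd p W := by
    ext r
    constructor
    · rintro ⟨y, hy, rfl⟩
      exact ⟨y.1, hy, y.2, rfl⟩
    · rintro ⟨w, hw, c, rfl⟩
      exact ⟨(w, c), hw, rfl⟩
  have hp' : AlgebraicIndependent ℚ x := hp
  have h1 := hp'.adjoin_of_disjoint hst
  rw [himg] at h1
  have h2 : AlgebraicIndependent (Algebra.adjoin ℚ (crd p W)) (p v) :=
    h1.comp (fun c : Fin k => (⟨(v, c), rfl⟩ : t)) (fun c c' h => by simpa using h)
  have h3 := h2.subalgebraAlgebraicClosure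
  set S := Subalgebra.algebraicClosure (Algebra.adjoin ℚ (crd p W)) ℝ with hS
  have hfS : ∀ m, f.coeff m ∈ S := by
    intro m
    have := hf m
    unfold acl at this
    rw [AlgebraicIndependent.matroid_closure_eq] at this
    exact this
  set f' : MvPolynomial (Fin k) S :=
    ∑ m ∈ f.support, MvPolynomial.monomial m (⟨f.coeff m, hfS m⟩ : S) with hf'
  have hmap : MvPolynomial.map (algebraMap S ℝ) f' = f := by
    rw [hf', map_sum]
    conv_rhs => rw [← MvPolynomial.support_sum_monomial_coeff f]
    refine Finset.sum_congr rfl (fun m _ => ?_)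
    rw [MvPolynomial.map_monomial]
    rfl
  have h4 : MvPolynomial.aeval (p v) f' = 0 := by
    rw [MvPolynomial.aeval_def, ← MvPolynomial.eval_map, hmap, hev]
  have h5 : f' = 0 := by
    have hinj : Function.Injective (MvPolynomial.aeval (R := S) (p v)) := h3
    exact hinj (by rw [h4, map_zero])
  rw [← hmap, h5, map_zero]

end Pool.Agent.GRR
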