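import Pool.Agent.GRR.Stmts

/-!
# GRR, module HAL: Hall selection
-/

set_option autoImplicit false

open Finset
open scoped Classical

namespace Pool.Agent.GRR

namespace HAL_

theorem part1 (V : Type) [Fintype V] (k : ℕ) (E : Finset (Sym2 V)) (Y : Finset V)
    (h : ∀ X ⊆ Y, k * X.card ≤ (inc E X).card) :
    ∃ E' ⊆ E, E'.card = k * Y.card ∧ ∃ y : Sym2 V → V, (∀ e ∈ E', y e ∈ Y ∧ y e ∈ e) ∧
        ∀ v ∈ Y, (E'.filter (fun e => y e = v)).card = k := by
  have hall := (Finset.all_card_le_biUnion_card_iff_exists_injective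
    (fun i : (↥Y) × Fin k => inc E {i.1.1})).1 (by
      intro s
      have h1 : s.card ≤ k * (s.image (fun i => i.1.1)).card := by
        have h2 : s ⊆ (s.image (fun i => i.1)) ×ˢ (univ : Finset (Fin k)) := by
          intro i hi
          rw [mem_product]
          exact ⟨mem_image_of_mem _ hi, mem_univ _⟩
        have h3 := card_le_card h2
        rw [card_product, card_univ, Fintype.card_fin] at h3
        have h4 : (s.image (fun i => i.1.1)).card = (s.image (fun i => i.1)).card := by
          rw [show (s.image (fun i => i.1.1)) = (s.image (fun i => i.1)).image Subtype.val by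
            rw [image_image]; rfl]
          exact card_image_of_injective _ Subtype.val_injective
        rw [h4, mul_comm]
        exact h3
      have h5 : s.image (fun i => i.1.1) ⊆ Y := by
        intro v hv
        obtain ⟨i, -, rfl⟩ := mem_image.1 hv
        exact i.1.2
      refine (h1.trans (h _ h5)).trans (card_le_card ?_)
      intro e he
      rw [mem_inc] at he
      obtain ⟨he, v, hv, hve⟩ := he
      obtain ⟨i, hi, rfl⟩ := mem_image.1 hv
      rw [mem_biUnion]
      refine ⟨i, hi, ?_⟩
      rw [mem_inc]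
      exact ⟨he, i.1.1, mem_singleton_self _, hve⟩)
  obtain ⟨f, hf, hft⟩ := hall
  have hfE : ∀ i, f i ∈ E ∧ i.1.1 ∈ f i := by
    intro i
    have := hft i
    rw [mem_inc] at this
    obtain ⟨h1, v, hv, hve⟩ := this
    rw [mem_singleton] at hv
    exact ⟨h1, hv ▸ hve⟩
  let y : Sym2 V → V := fun e => if h : ∃ i, f i = e then h.choose.1.1 else (Quot.out e).1
  have hy : ∀ i, y (f i) = i.1.1 := by
    intro i
    have hex : ∃ j, f j = f i := ⟨i, rfl⟩
    show (if h : ∃ j, f j = f i then h.choose.1.1 else (Quot.out (f i)).1) = i.1.1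
    rw [dif_pos hex]
    rw [hf hex.choose_spec]
  refine ⟨univ.image f, ?_, ?_, y, ?_, ?_⟩
  · intro e he
    obtain ⟨i, -, rfl⟩ := mem_image.1 he
    exact (hfE i).1
  · rw [card_image_of_injective _ hf, card_univ, Fintype.card_prod, Fintype.card_fin,
      Fintype.card_coe, mul_comm]
  · intro e he
    obtain ⟨i, -, rfl⟩ := mem_image.1 he
    rw [hy]
    exact ⟨i.1.2, (hfE i).2⟩
  · intro v hv
    have h1 : (univ.image f).filter (fun e => y e = v) =
        (univ : Finset (Fin k)).image (fun c => f (⟨v, hv⟩, c)) := by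
      ext e
      rw [mem_filter, mem_image, mem_image]
      constructor
      · rintro ⟨⟨i, -, rfl⟩, h2⟩
        rw [hy] at h2
        refine ⟨i.2, mem_univ _, ?_⟩
        have : i = (⟨v, hv⟩, i.2) := Prod.ext (Subtype.ext h2) rfl
        rw [← this]
      · rintro ⟨c, -, rfl⟩
        exact ⟨⟨_, mem_univ _, rfl⟩, hy _⟩
    rw [h1, card_image_of_injective, card_univ, Fintype.card_fin]
    intro c c' hcc
    exact congrArg Prod.snd (hf hcc)

theorem part2 (V : Type) [Fintype V] (k : ℕ) (E : Finset (Sym2 V)) (Y : Finset V)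
    (h : ∀ X ⊆ Y, (E.filter (fun e => (∀ i ∈ e, i ∈ Y → i ∈ X))).card ≤ k * X.card) :
    ∃ y : Sym2 V → V, (∀ e ∈ E, y e ∈ Y ∧ y e ∈ e) ∧
        ∀ v ∈ Y, (E.filter (fun e => y e = v)).card ≤ k := by
  have hall := (Finset.all_card_le_biUnion_card_iff_exists_injective
    (fun e : ↥E => (Y.filter (fun v => v ∈ e.1)) ×ˢ (univ : Finset (Fin k)))).1 (by
      intro s
      have hX : Y.filter (fun v => ∃ e ∈ s, v ∈ e.1) ⊆ Y := filter_subset _ _
      have h1 := h _ hX
      have h2 : s.card ≤ (E.filter (fun e => (∀ i ∈ e, i ∈ Y →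
          i ∈ Y.filter (fun v => ∃ e ∈ s, v ∈ e.1)))).card := by
        rw [← card_image_of_injective s Subtype.val_injective]
        refine card_le_card ?_
        intro e he
        obtain ⟨e, hes, rfl⟩ := mem_image.1 he
        rw [mem_filter]
        refine ⟨e.2, fun i hi hiY => ?_⟩
        rw [mem_filter]
        exact ⟨hiY, e, hes, hi⟩
      refine (h2.trans h1).trans ?_
      rw [show k * (Y.filter (fun v => ∃ e ∈ s, v ∈ e.1)).card =
        ((Y.filter (fun v => ∃ e ∈ s, v ∈ e.1)) ×ˢ (univ : Finset (Fin k))).card by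
          rw [card_product, card_univ, Fintype.card_fin, mul_comm]]
      refine card_le_card ?_
      rintro ⟨v, c⟩ hvc
      rw [mem_product, mem_filter] at hvc
      obtain ⟨⟨hv, e, hes, hve⟩, -⟩ := hvc
      rw [mem_biUnion]
      refine ⟨e, hes, ?_⟩
      rw [mem_product, mem_filter]
      exact ⟨⟨hv, hve⟩, mem_univ _⟩)
  obtain ⟨f, hf, hft⟩ := hall
  have hfE : ∀ e, (f e).1 ∈ Y ∧ (f e).1 ∈ e.1 := by
    intro e
    have := hft e
    rw [mem_product, mem_filter] at this
    exact this.1
  refine ⟨fun e => if h : e ∈ E then (f ⟨e, h⟩).1 else (Quot.out e).1, ?_, ?_⟩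
  · intro e he
    show (if h : e ∈ E then (f ⟨e, h⟩).1 else (Quot.out e).1) ∈ Y ∧
      (if h : e ∈ E then (f ⟨e, h⟩).1 else (Quot.out e).1) ∈ e
    rw [dif_pos he]
    exact hfE ⟨e, he⟩
  · intro v hv
    have h1 : (E.filter (fun e => (if h : e ∈ E then (f ⟨e, h⟩).1 else (Quot.out e).1) = v)) =
        (univ.filter (fun e : ↥E => (f e).1 = v)).image Subtype.val := by
      ext e
      rw [mem_filter, mem_image]
      constructor
      · rintro ⟨he, h2⟩
        rw [dif_pos he] at h2
        exact ⟨⟨e, he⟩, by rw [mem_filter]; exact ⟨mem_univ _, h2⟩, rfl⟩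
      · rintro ⟨e, he, rfl⟩
        rw [mem_filter] at he
        refine ⟨e.2, ?_⟩
        rw [dif_pos e.2]
        exact he.2
    rw [h1, card_image_of_injective _ Subtype.val_injective]
    have h3 : (univ.filter (fun e : ↥E => (f e).1 = v)).card ≤ (univ : Finset (Fin k)).card := by
      refine card_le_card_of_injOn (fun e => (f e).2) (fun _ _ => mem_univ _) ?_
      intro e he e' he' hee
      have h4 := (mem_filter.1 (mem_coe.1 he)).2
      have h5 := (mem_filter.1 (mem_coe.1 he')).2
      exact hf (Prod.ext (h4.trans h5.symm) hee)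
    rwa [card_univ, Fintype.card_fin] at h3

end HAL_

theorem hal_proof : Stmt_HAL := by
  intro V _ k E Y
  exact ⟨HAL_.part1 V k E Y, HAL_.part2 V k E Y⟩

end Pool.Agent.GRR
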