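import Pool.Agent.GRR.Stmts

/-!
# GRR, module INC: a monotone functional has no jumps
-/

set_option autoImplicit false

open Finset
open scoped Classical

namespace Pool.Agent.GRR

theorem inc_proof (hEXB : Stmt_EXB) (hSBJ : Stmt_SBJ) : Stmt_INC := by
  intro α π D hπ0 hπ1 hD J Φ A θ κ hθ hκ hΦ0 hΦ1 hmono hA
  have hN : (0 : ℝ) < (D.card : ℝ) := Nat.cast_pos.2 hD.card_pos
  have hNJ : (0 : ℝ) < (D.card : ℝ) ^ J := pow_pos hN J
  have hS := hSBJ α π D hπ0 hπ1 hD J Φ hΦ0 hΦ1
  obtain ⟨-, hmon, -, -, -, -, -, hsum, -, -⟩ := hEXB α π D hπ0.le hπ1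
  have hcard : ((seqs J D).card : ℝ) = (D.card : ℝ) ^ J := by
    unfold seqs
    rw [Fintype.card_piFinset_const]
    push_cast
    rfl
  have hpt : ∀ G ⊆ D, θ * κ * (D.card : ℝ) ^ J * (if A G then 1 else 0) +
      (D.card : ℝ) ^ J * Φ G ≤ ∑ f ∈ seqs J D, Φ (plus G f) := by
    intro G hG
    have hle : ∀ f ∈ seqs J D, Φ G ≤ Φ (plus G f) := by
      intro f hf
      unfold seqs at hf
      rw [Fintype.mem_piFinset] at hf
      refine hmono G (plus G f) subset_union_left ?_
      unfold plus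
      refine union_subset hG ?_
      intro x hx
      rw [mem_image] at hx
      obtain ⟨i, -, rfl⟩ := hx
      exact hf i
    have hbase : (D.card : ℝ) ^ J * Φ G = ∑ f ∈ seqs J D, Φ G := by
      rw [sum_const, nsmul_eq_mul, hcard]
    by_cases hAG : A G
    · rw [if_pos hAG, mul_one]
      have h1 := hA G hG hAG
      have h2 : ∑ f ∈ seqs J D, (Φ (plus G f) - Φ G) ≥
          ∑ f ∈ (seqs J D).filter (fun f => Φ G + κ ≤ Φ (plus G f)), κ := by
        have h3 : ∑ f ∈ (seqs J D).filter (fun f => Φ G + κ ≤ Φ (plus G f)), κ ≤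
            ∑ f ∈ (seqs J D).filter (fun f => Φ G + κ ≤ Φ (plus G f)),
              (Φ (plus G f) - Φ G) := by
          apply Finset.sum_le_sum
          intro f hf
          rw [mem_filter] at hf
          linarith [hf.2]
        refine le_trans h3 ?_
        apply Finset.sum_le_sum_of_subset_of_nonneg (filter_subset _ _)
        intro f hf _
        linarith [hle f hf]
      rw [sum_const, nsmul_eq_mul, Finset.sum_sub_distrib, ← hbase] at h2
      have h4 := mul_le_mul_of_nonneg_right h1 hκ.le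
      linarith
    · rw [if_neg hAG, mul_zero, zero_add, hbase]
      exact Finset.sum_le_sum hle
  have hE : Ex π D (fun G => θ * κ * (D.card : ℝ) ^ J * (if A G then 1 else 0) +
      (D.card : ℝ) ^ J * Φ G) ≤ Ex π D (fun G => ∑ f ∈ seqs J D, Φ (plus G f)) :=
    hmon _ _ hpt
  have hE2 : Ex π D (fun G => θ * κ * (D.card : ℝ) ^ J * (if A G then 1 else 0) +
      (D.card : ℝ) ^ J * Φ G) = θ * κ * (D.card : ℝ) ^ J * Pr π D A +
        (D.card : ℝ) ^ J * Ex π D Φ := by
    unfold Pr Ex
    rw [Finset.mul_sum, Finset.mul_sum, ← Finset.sum_add_distrib]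
    exact Finset.sum_congr rfl (fun G _ => by ring)
  rw [hE2, hsum (Fin J → α) (seqs J D) (fun f G => Φ (plus G f))] at hE
  have hsq : 0 < Real.sqrt (π * D.card) := Real.sqrt_pos.2 (by positivity)
  have h5 : θ * κ * Pr π D A ≤ J / Real.sqrt (π * D.card) := by
    refine le_trans ?_ ((le_abs_self _).trans hS)
    rw [le_sub_iff_add_le, le_div_iff₀ hNJ]
    linarith
  rw [le_div_iff₀ (by positivity)]
  rw [le_div_iff₀ hsq] at h5
  linarith

end Pool.Agent.GRR
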