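import Pool.Agent.GRR.Stmts

set_option autoImplicit false

open Finset
open scoped Classical

namespace Pool.Agent.GRR

namespace INS_

variable {V : Type} {k : ℕ} {p : V → Fin k → ℝ}

lemma ell_zero_of {Q : Finset V} {Z : V → Fin k → ℝ} (hZ : ∀ i ∈ Q, Z i = 0) {e : Sym2 V}
    (he : ∀ i ∈ e, i ∈ Q) : ell p Z e = 0 := by
  have : ell p Z e = ell p 0 e := ell_congr e (fun _ _ => rfl) (fun i hi => by simp [hZ i (he i hi)])
  rw [this, ell_zero]

end INS_

open INS_ in
theorem ins_proof (h1 : Stmt_OUT) (h2 : Stmt_LIN) : Stmt_INS := by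
  intro V _ k hk p hp G s g t hGG Q hQ
  have hind := h1 V k hk p hp G s g t hGG Q hQ
  have hlin := (h2 V k p Q (G \ sub G Q) ∅).1 hind
  constructor
  · intro i hi j hj X hX
    obtain ⟨Z, hZ0, hZ, -⟩ := hlin (fun e => ell p X e) 0
    have hXZ : X - Z ∈ Mot p ∅ G := by
      refine ⟨fun i hi => absurd hi (notMem_empty i), fun e he => ?_⟩
      rw [ell_sub]
      by_cases hes : e ∈ sub G Q
      · rw [hX.2 e hes, ell_zero_of hZ0 ((mem_sub G Q e).1 hes).2, sub_zero]
      · rw [hZ e (mem_sdiff.2 ⟨he, hes⟩), sub_self]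
    have h3 := hQ.1 i hi j hj (X - Z) hXZ
    rw [ell_sub, ell_zero_of hZ0 (e := s(i, j)) (by
      intro l hl
      rw [Sym2.mem_iff] at hl
      rcases hl with rfl | rfl
      · exact hi
      · exact hj), sub_zero] at h3
    exact h3
  · intro e he
    obtain ⟨heG, hecl⟩ := (mem_Red p G e).1 he
    by_contra hes
    obtain ⟨Z, hZ0, hZ, -⟩ := hlin (fun f => if f = e then 1 else 0) 0
    have hZM : Z ∈ Mot p ∅ (G.erase e) := by
      refine ⟨fun i hi => absurd hi (notMem_empty i), fun f hf => ?_⟩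
      obtain ⟨hfe, hfG⟩ := mem_erase.1 hf
      by_cases hfs : f ∈ sub G Q
      · exact ell_zero_of hZ0 ((mem_sub G Q f).1 hfs).2
      · rw [hZ f (mem_sdiff.2 ⟨hfG, hfs⟩)]
        simp [hfe]
    have h3 := hecl Z hZM
    rw [hZ e (mem_sdiff.2 ⟨heG, hes⟩)] at h3
    simp at h3

end Pool.Agent.GRR
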