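import Pool.Agent.GRR.Stmts

/-! INV: the closure does not depend on the generic configuration (MP_9e2625_co) -/

set_option autoImplicit false
set_option linter.unusedSectionVars false

open Finset
open scoped Classical

namespace Pool.Agent.GRR

theorem inv_proof (hgne : Stmt_GNE) (hlin : Stmt_LIN) : Stmt_INV := by
  intro V _ k p q hp hq G e he
  by_contra hcon
  have hcon' : ∃ X ∈ Mot q ∅ G, ell q X e ≠ 0 := by
    unfold Cl at hcon
    push Not at hcon
    exact hcon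
  -- a basis at `q`
  obtain ⟨G', hG', hi', hm'⟩ := (hlin V k q ∅ G ∅).2.2.2.1
  have hins : Ind q ∅ (insert e G') ∅ := by
    refine (hlin V k q ∅ G' ∅).2.1 e hi' ?_
    rw [hm']
    exact hcon'
  have hpi : Ind p ∅ (insert e G') ∅ := hgne V k p q hp ∅ _ ∅ hins
  have hp' : Ind p ∅ G' ∅ := hgne V k p q hp ∅ _ ∅ hi'
  have f1 := (hlin V k q ∅ G' ∅).2.2.2.2.1.1 hi'
  have f2 := (hlin V k p ∅ G' ∅).2.2.2.2.1.1 hp'
  -- a basis at `p`
  obtain ⟨G'', hG'', hi'', hm''⟩ := (hlin V k p ∅ G ∅).2.2.2.1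
  have hq'' : Ind q ∅ G'' ∅ := hgne V k q p hq ∅ _ ∅ hi''
  have f3 := (hlin V k q ∅ G'' ∅).2.2.2.2.1.1 hq''
  have f4 := (hlin V k p ∅ G'' ∅).2.2.2.2.1.1 hi''
  have l1 : Mot q ∅ G' ≤ Mot q ∅ G'' := by
    rw [hm']
    exact Mot_mono q (subset_refl _) hG''
  have l2 := Submodule.finrank_mono l1
  have l3 : Mot p ∅ G'' ≤ Mot p ∅ G' := by
    rw [hm'']
    exact Mot_mono p (subset_refl _) hG'
  have l4 : Mot p ∅ G'' = Mot p ∅ G' := Submodule.eq_of_le_of_finrank_le l3 (by omega)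
  have hmp : Mot p ∅ G' = Mot p ∅ G := by rw [← l4, hm'']
  -- a motion at `p`
  obtain ⟨X, hX0, hX1, -⟩ := (hlin V k p ∅ (insert e G') ∅).1 hpi
    (fun f => if f = e then 1 else 0) (fun _ => 0)
  have heG : e ∉ G' := by
    intro h
    obtain ⟨Y, hY, hYe⟩ := hcon'
    exact hYe (hY.2 e (hG' h))
  have hXm : X ∈ Mot p ∅ G' := by
    refine ⟨fun i hi => absurd hi (Finset.notMem_empty i), fun f hf => ?_⟩
    have hfe : f ≠ e := fun h => heG (h ▸ hf)
    rw [hX1 f (Finset.mem_insert_of_mem hf), if_neg hfe]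
  rw [hmp] at hXm
  have h1 := he X hXm
  rw [hX1 e (Finset.mem_insert_self _ _), if_pos rfl] at h1
  exact one_ne_zero h1

end Pool.Agent.GRR
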