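import Pool.Agent.GRR.Stmts

set_option autoImplicit false

open Finset
open scoped Classical

namespace Pool.Agent.GRR

namespace ISM_

/-- polarisation: the inner products of differences are determined by the lengths -/
lemma dot_of_len {V : Type} {k : ℕ} (p q : V → Fin k → ℝ) (a b o : V)
    (h1 : len q s(a, o) = len p s(a, o)) (h2 : len q s(b, o) = len p s(b, o))
    (h3 : len q s(a, b) = len p s(a, b)) :
    dot (q a - q o) (q b - q o) = dot (p a - p o) (p b - p o) := by
  have key : ∀ r : V → Fin k → ℝ, 2 * dot (r a - r o) (r b - r o) =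
      len r s(a, o) + len r s(b, o) - len r s(a, b) := by
    intro r
    simp only [len_mk, sub_dot, dot_sub]
    rw [dot_comm (r o) (r a), dot_comm (r o) (r b), dot_comm (r b) (r a)]
    ring
  have e1 := key p
  have e2 := key q
  rw [h1, h2, h3] at e2
  linarith

end ISM_

open ISM_ in
theorem ism_proof (h1 : Stmt_STA) (_h2 : Stmt_AFC) : Stmt_ISM := by
  intro V _ k p hp S hS q hq
  have hne : S.Nonempty := by
    rw [← Finset.card_pos]; omega
  obtain ⟨s0, hs0⟩ := hne
  have hcard : k ≤ (S.erase s0).card := by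
    rw [Finset.card_erase_of_mem hs0]; omega
  obtain ⟨T, hTS, hT⟩ := Finset.exists_subset_card_eq hcard
  have hs0T : s0 ∉ T := fun h => (Finset.mem_erase.1 (hTS h)).1 rfl
  have hTS' : ∀ t ∈ T, t ∈ S := fun t ht => (Finset.mem_erase.1 (hTS ht)).2
  let e : Fin k ≃ T := (Finset.equivFinOfCardEq hT).symm
  let U : Matrix (Fin k) (Fin k) ℝ := fun a c => p (e a) c - p s0 c
  let W : Matrix (Fin k) (Fin k) ℝ := fun a c => q (e a) c - q s0 c
  have hmul : ∀ (x : Fin k → ℝ) (a : Fin k), (U.mulVec x) a = dot (p (e a) - p s0) x := by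
    intro x a; rfl
  have hmulW : ∀ (x : Fin k → ℝ) (a : Fin k), (W.mulVec x) a = dot (q (e a) - q s0) x := by
    intro x a; rfl
  have hdet : U.det ≠ 0 := by
    intro h0
    obtain ⟨D, hD, hD0⟩ := Matrix.exists_mulVec_eq_zero_iff.2 h0
    apply hD
    apply (h1 V k p hp s0 T hs0T).2 hT.ge D
    intro t ht
    have h := congrFun hD0 (e.symm ⟨t, ht⟩)
    rw [hmul] at h
    simp only [Equiv.apply_symm_apply, Pi.zero_apply] at h
    have h' : dot (p s0 - p t) D = - dot (p t - p s0) D := by
      rw [sub_dot, sub_dot]; ring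
    rw [h', h, neg_zero]
  have hUu : IsUnit U.det := isUnit_iff_ne_zero.2 hdet
  have hgram : W * W.transpose = U * U.transpose := by
    ext a b
    show (W.mulVec (fun c => W b c)) a = (U.mulVec (fun c => U b c)) a
    rw [hmul, hmulW]
    exact dot_of_len p q (e a) (e b) s0 (hq _ (hTS' _ (e a).2) _ hs0)
      (hq _ (hTS' _ (e b).2) _ hs0) (hq _ (hTS' _ (e a).2) _ (hTS' _ (e b).2))
  have hUTu : IsUnit U.transpose.det := by rwa [Matrix.det_transpose]
  let O : Matrix (Fin k) (Fin k) ℝ := W.transpose * (U.transpose)⁻¹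
  have hOU : O * U.transpose = W.transpose := by
    show W.transpose * (U.transpose)⁻¹ * U.transpose = W.transpose
    rw [Matrix.mul_assoc, Matrix.nonsing_inv_mul _ hUTu, Matrix.mul_one]
  have hUO : U * O.transpose = W := by
    have := congrArg Matrix.transpose hOU
    simpa [Matrix.transpose_mul] using this
  have hOO : O.transpose * O = 1 := by
    have h : U * (O.transpose * O) * U.transpose = U * 1 * U.transpose := by
      calc U * (O.transpose * O) * U.transpose = (U * O.transpose) * (O * U.transpose) := by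
            simp only [Matrix.mul_assoc]
        _ = W * W.transpose := by rw [hUO, hOU]
        _ = U * U.transpose := hgram
        _ = U * 1 * U.transpose := by rw [Matrix.mul_one]
    have h2 : U * (O.transpose * O) = U * 1 := by
      have := congrArg (fun M => M * (U.transpose)⁻¹) h
      simpa only [Matrix.mul_assoc, Matrix.mul_nonsing_inv _ hUTu, Matrix.mul_one] using this
    have := congrArg (fun M => U⁻¹ * M) h2
    simpa only [← Matrix.mul_assoc, Matrix.nonsing_inv_mul _ hUu, Matrix.one_mul,
      Matrix.mul_one] using this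
  have hOO' : O * O.transpose = 1 := mul_eq_one_comm.1 hOO
  refine ⟨O, q s0 - O.mulVec (p s0), hOO, ?_⟩
  intro i hi
  have hw : W.mulVec (q i - q s0) = U.mulVec (p i - p s0) := by
    funext a
    rw [hmul, hmulW]
    exact dot_of_len p q (e a) i s0 (hq _ (hTS' _ (e a).2) _ hs0) (hq _ hi _ hs0)
      (hq _ (hTS' _ (e a).2) _ hi)
  have hv : O.transpose.mulVec (q i - q s0) = p i - p s0 := by
    have h3 : U.mulVec (O.transpose.mulVec (q i - q s0)) = U.mulVec (p i - p s0) := by
      rw [Matrix.mulVec_mulVec, hUO, hw]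
    have := congrArg (fun v => U⁻¹.mulVec v) h3
    simpa only [Matrix.mulVec_mulVec, ← Matrix.mul_assoc, Matrix.nonsing_inv_mul _ hUu,
      Matrix.one_mul, Matrix.one_mulVec] using this
  have hfin : q i - q s0 = O.mulVec (p i - p s0) := by
    rw [← hv, Matrix.mulVec_mulVec, hOO', Matrix.one_mulVec]
  rw [Matrix.mulVec_sub] at hfin
  have : q i = (q i - q s0) + q s0 := by abel
  rw [this, hfin]; abel

end Pool.Agent.GRR
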