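import Pool.Agent.GRR.Stmts

/-!
# GRR : ISO, splitting off a subset
-/

set_option autoImplicit false

open Finset
open scoped Classical

namespace Pool.Agent.GRR

theorem iso_proof : Stmt_ISO := by
  intro α π D S hπ0 hπ1 hS Ψ hΨ
  have h1 : 0 < 1 - π := by linarith
  have key : Ex π D (fun G => Ψ (G \ S) (G ∩ S)) =
      ∑ x ∈ (D \ S).powerset ×ˢ S.powerset, (π / (1 - π)) ^ x.2.card * (wt π D x.1 * Ψ x.1 x.2) := by
    unfold Ex
    refine Finset.sum_bij' (fun G _ => (G \ S, G ∩ S)) (fun x _ => x.1 ∪ x.2) ?_ ?_ ?_ ?_ ?_
    · intro G hG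
      rw [mem_powerset] at hG
      rw [mem_product, mem_powerset, mem_powerset]
      exact ⟨Finset.sdiff_subset_sdiff hG (subset_refl _), Finset.inter_subset_right⟩
    · intro x hx
      rw [mem_product, mem_powerset, mem_powerset] at hx
      rw [mem_powerset]
      exact Finset.union_subset (hx.1.trans Finset.sdiff_subset) (hx.2.trans hS)
    · intro G _
      exact Finset.sdiff_union_inter G S
    · intro x hx
      rw [mem_product, mem_powerset, mem_powerset] at hx
      have hd : ∀ a ∈ x.1, a ∉ S := fun a ha => (mem_sdiff.1 (hx.1 ha)).2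
      refine Prod.ext ?_ ?_
      · ext a
        simp only [mem_sdiff, mem_union]
        constructor
        · rintro ⟨h | h, h'⟩
          · exact h
          · exact absurd (hx.2 h) h'
        · intro h
          exact ⟨Or.inl h, hd a h⟩
      · ext a
        simp only [mem_inter, mem_union]
        constructor
        · rintro ⟨h | h, h'⟩
          · exact absurd h' (hd a h)
          · exact h
        · intro h
          exact ⟨Or.inr h, hx.2 h⟩
    · intro G hG
      rw [mem_powerset] at hG
      have hc : (G \ S).card + (G ∩ S).card = G.card := Finset.card_sdiff_add_card_inter G S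
      have hGD : G.card ≤ D.card := Finset.card_le_card hG
      have hw : wt π D G = (π / (1 - π)) ^ (G ∩ S).card * wt π D (G \ S) := by
        unfold wt
        have e1 : D.card - (G \ S).card = (D.card - G.card) + (G ∩ S).card := by omega
        rw [e1, ← hc, pow_add, pow_add, div_pow]
        have : (1 - π) ^ (G ∩ S).card ≠ 0 := pow_ne_zero _ h1.ne'
        field_simp
      show wt π D G * Ψ (G \ S) (G ∩ S) = (π / (1 - π)) ^ (G ∩ S).card *
        (wt π D (G \ S) * Ψ (G \ S) (G ∩ S))
      rw [hw]
      ring
  rw [key, Finset.sum_product_right]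
  refine Finset.sum_le_sum (fun U hU => ?_)
  show ∑ H ∈ (D \ S).powerset, (π / (1 - π)) ^ U.card * (wt π D H * Ψ H U) ≤ _
  rw [← Finset.mul_sum]
  refine mul_le_mul_of_nonneg_left ?_ (by positivity)
  unfold Ex
  refine Finset.sum_le_sum_of_subset_of_nonneg
    (Finset.powerset_mono.2 Finset.sdiff_subset) (fun G hG _ => ?_)
  rw [mem_powerset] at hG hU
  have hw : 0 ≤ wt π D G := by
    unfold wt
    positivity
  exact mul_nonneg hw (hΨ G hG U hU)

end Pool.Agent.GRR
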