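import Pool.Agent.GRR.Stmts

set_option autoImplicit false

open Finset
open scoped Classical

namespace Pool.Agent.GRR

namespace JAC_

open MvPolynomial

lemma chain {σ τ : Type} [Fintype τ] (F : τ → MvPolynomial σ ℚ) (P : MvPolynomial τ ℚ) (i : σ) :
    pderiv i (aeval F P) = ∑ t, aeval F (pderiv t P) * pderiv i (F t) := by
  induction P using MvPolynomial.induction_on with
  | C a => simp
  | add p q hp hq =>
    simp only [map_add, hp, hq, add_mul, Finset.sum_add_distrib]
  | mul_X p j hp =>
    simp only [map_mul, aeval_X, Derivation.leibniz, smul_eq_mul, hp, map_add, add_mul,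
      Finset.sum_add_distrib, pderiv_X]
    rw [Finset.mul_sum]
    congr 1
    · rw [Finset.sum_eq_single j]
      · simp
      · intro b _ hb
        simp [Pi.single_eq_of_ne hb.symm]
      · intro hj
        exact absurd (mem_univ j) hj
    · exact Finset.sum_congr rfl (fun t _ => by ring)

lemma deg_pderiv_lt {τ : Type} (P : MvPolynomial τ ℚ) (t : τ) (hP : P.totalDegree ≠ 0) :
    (pderiv t P).totalDegree < P.totalDegree := by
  rw [MvPolynomial.totalDegree, Finset.sup_lt_iff (Nat.pos_of_ne_zero hP)]
  intro m hm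
  rw [mem_support_iff, coeff_pderiv] at hm
  have h1 : m + Finsupp.single t 1 ∈ P.support := by
    rw [mem_support_iff]
    intro h0
    exact hm (by rw [h0, zero_mul])
  have h2 := MvPolynomial.le_totalDegree h1
  have h3 : ((m + Finsupp.single t 1).sum fun _ e => e) = (m.sum fun _ e => e) + 1 := by
    rw [Finsupp.sum_add_index' (fun _ => rfl) (fun _ _ _ => rfl)]
    simp
  omega

lemma eq_C_of_pderiv {τ : Type} (P : MvPolynomial τ ℚ) (h : ∀ t, pderiv t P = 0) :
    P = C (coeff 0 P) := by
  ext m
  rw [coeff_C]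
  split_ifs with hm
  · rw [hm]
  · obtain ⟨t, ht⟩ : ∃ t, m t ≠ 0 := by
      by_contra hcon
      push Not at hcon
      exact hm (Finsupp.ext (fun t => by simp [hcon t]))
    have h1 := coeff_pderiv (i := t) P (m - Finsupp.single t 1)
    rw [h t, coeff_zero] at h1
    have h2 : m - Finsupp.single t 1 + Finsupp.single t 1 = m := by
      apply tsub_add_cancel_of_le
      rw [Finsupp.single_le_iff]
      omega
    rw [h2] at h1
    have h3 : (((m - Finsupp.single t 1 : τ →₀ ℕ) t : ℕ) : ℚ) + 1 ≠ 0 := by positivity
    rcases mul_eq_zero.1 h1.symm with h4 | h4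
    · exact h4
    · exact absurd h4 h3

theorem jacobian {σ τ : Type} [Fintype τ] (x : σ → ℝ) (hx : AlgebraicIndependent ℚ x)
    (F : τ → MvPolynomial σ ℚ)
    (h : ∀ w : τ → ℝ, (∀ i, ∑ t, w t * aeval x (pderiv i (F t)) = 0) → ∀ t, w t = 0) :
    AlgebraicIndependent ℚ (fun t => aeval x (F t)) := by
  rw [algebraicIndependent_iff]
  have key : ∀ n : ℕ, ∀ P : MvPolynomial τ ℚ, P.totalDegree = n → aeval F P = 0 → P = 0 := by
    intro n
    induction n using Nat.strong_induction_on with
    | _ n ih =>
      intro P hn hP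
      by_cases h0 : n = 0
      · rw [h0] at hn
        have h1 := (MvPolynomial.totalDegree_eq_zero_iff_eq_C).1 hn
        rw [h1] at hP ⊢
        simp only [aeval_C, algebraMap_eq] at hP
        rw [C_eq_zero.1 hP, C_0]
      · have hd : ∀ t, aeval F (pderiv t P) = 0 := by
          have h2 := h (fun t => aeval x (aeval F (pderiv t P))) (fun i => by
            have h3 := chain F P i
            rw [hP, map_zero] at h3
            have h4 := congrArg (aeval x) h3.symm
            simpa only [map_sum, map_mul, map_zero] using h4)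
          intro t
          exact hx.eq_zero_of_aeval_eq_zero _ (h2 t)
        have hz : ∀ t, pderiv t P = 0 := by
          intro t
          exact ih _ (by rw [← hn]; exact deg_pderiv_lt P t (by rw [hn]; exact h0)) _ rfl (hd t)
        have h5 := eq_C_of_pderiv P hz
        rw [h5] at hP ⊢
        simp only [aeval_C, algebraMap_eq] at hP
        rw [C_eq_zero.1 hP, C_0]
  intro P hP
  apply key _ P rfl
  apply hx.eq_zero_of_aeval_eq_zero
  rw [← hP]
  show (aeval x) ((aeval F) P) = _
  have : ((aeval x).comp (aeval F) : MvPolynomial τ ℚ →ₐ[ℚ] ℝ) = aeval (fun t => aeval x (F t)) := by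
    ext t
    simp
  rw [← this]
  rfl

/-- the polynomial of the squared length -/
noncomputable def lenPoly {V : Type} {k : ℕ} (e : Sym2 V) : MvPolynomial (V × Fin k) ℚ :=
  Sym2.lift ⟨fun i j => ∑ c : Fin k, (X (i, c) - X (j, c)) ^ 2, by
    intro i j
    exact Finset.sum_congr rfl (fun c _ => by ring)⟩ e

lemma aeval_lenPoly {V : Type} {k : ℕ} (p : V → Fin k → ℝ) (e : Sym2 V) :
    aeval (fun x : V × Fin k => p x.1 x.2) (lenPoly e : MvPolynomial (V × Fin k) ℚ) = len p e := by
  induction e with
  | h i j =>
    simp only [lenPoly, Sym2.lift_mk, len_mk, dot, map_sum, map_pow, map_sub, aeval_X, Pi.sub_apply]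
    exact Finset.sum_congr rfl (fun c _ => by ring)

lemma sum_pderiv_lenPoly {V : Type} [Fintype V] {k : ℕ} (p Z : V → Fin k → ℝ) (e : Sym2 V) :
    ∑ y : V × Fin k, aeval (fun x : V × Fin k => p x.1 x.2)
      (pderiv y (lenPoly e : MvPolynomial (V × Fin k) ℚ)) * Z y.1 y.2 = 2 * ell p Z e := by
  induction e with
  | h i j =>
    simp only [lenPoly, Sym2.lift_mk, ell_mk, dot, map_sum, Derivation.leibniz_pow, map_sub,
      smul_eq_mul, map_mul, aeval_X, Pi.sub_apply, nsmul_eq_mul, map_pow, pderiv_X,
      Finset.sum_mul, Finset.mul_sum]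
    rw [Finset.sum_comm]
    refine Finset.sum_congr rfl (fun c _ => ?_)
    have e1 : ∀ y : V × Fin k, (aeval (fun x : V × Fin k => p x.1 x.2))
        ((Pi.single y 1 : V × Fin k → MvPolynomial (V × Fin k) ℚ) (i, c)) =
        if y = (i, c) then (1 : ℝ) else 0 := by
      intro y
      by_cases hy : y = (i, c)
      · subst hy; simp
      · rw [Pi.single_eq_of_ne (Ne.symm hy), if_neg hy, map_zero]
    have e2 : ∀ y : V × Fin k, (aeval (fun x : V × Fin k => p x.1 x.2))
        ((Pi.single y 1 : V × Fin k → MvPolynomial (V × Fin k) ℚ) (j, c)) =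
        if y = (j, c) then (1 : ℝ) else 0 := by
      intro y
      by_cases hy : y = (j, c)
      · subst hy; simp
      · rw [Pi.single_eq_of_ne (Ne.symm hy), if_neg hy, map_zero]
    have e3 : (aeval (fun x : V × Fin k => p x.1 x.2))
        (((2 : ℕ) : MvPolynomial (V × Fin k) ℚ)) = (2 : ℝ) := by
      simp
    calc _ = ∑ y : V × Fin k, ((if y = (i, c) then 2 * (p i c - p j c) * Z y.1 y.2 else 0) -
          (if y = (j, c) then 2 * (p i c - p j c) * Z y.1 y.2 else 0)) := by
          refine Finset.sum_congr rfl (fun y _ => ?_)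
          rw [e1 y, e2 y, e3]
          split_ifs <;> ring
      _ = _ := by
          rw [Finset.sum_sub_distrib, Finset.sum_ite_eq' univ (i, c), Finset.sum_ite_eq' univ (j, c),
            if_pos (mem_univ _), if_pos (mem_univ _)]
          ring

end JAC_

theorem jac_proof : Stmt_JAC := by
  intro V _ k p hp B E hE hI
  have key := JAC_.jacobian (τ := {x : V × Fin k // x.1 ∈ B} ⊕ {e : Sym2 V // e ∈ E})
    (fun x : V × Fin k => p x.1 x.2) hp
    (Sum.elim (fun x => MvPolynomial.X x.1) (fun e => JAC_.lenPoly e.1)) ?_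
  · convert key using 1
    funext t
    rcases t with y | e
    · simp
    · simp [JAC_.aeval_lenPoly]
  · intro w hw
    have hlin : ∀ Z : V → Fin k → ℝ, ∑ y : {x : V × Fin k // x.1 ∈ B}, w (Sum.inl y) * Z y.1.1 y.1.2 +
        ∑ e : {e : Sym2 V // e ∈ E}, w (Sum.inr e) * (2 * ell p Z e.1) = 0 := by
      intro Z
      have h1 : ∑ i : V × Fin k, (∑ t, w t * MvPolynomial.aeval (fun x : V × Fin k => p x.1 x.2)
          (MvPolynomial.pderiv i ((Sum.elim (fun x => MvPolynomial.X x.1)
            (fun e => JAC_.lenPoly e.1) : {x : V × Fin k // x.1 ∈ B} ⊕ {e : Sym2 V // e ∈ E} →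
              MvPolynomial (V × Fin k) ℚ) t))) * Z i.1 i.2 = 0 :=
        Finset.sum_eq_zero (fun i _ => by rw [hw i, zero_mul])
      rw [← h1]
      simp only [Finset.sum_mul]
      rw [Finset.sum_comm, Fintype.sum_sum_type]
      congr 1
      · refine Finset.sum_congr rfl (fun y _ => ?_)
        simp only [Sum.elim_inl, MvPolynomial.pderiv_X]
        rw [Finset.sum_eq_single y.1]
        · simp
        · intro b _ hb
          rw [Pi.single_eq_of_ne (Ne.symm hb), map_zero, mul_zero, zero_mul]
        · intro h
          exact absurd (mem_univ _) h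
      · refine Finset.sum_congr rfl (fun e _ => ?_)
        rw [← JAC_.sum_pderiv_lenPoly, Finset.mul_sum]
        exact Finset.sum_congr rfl (fun y _ => by simp only [Sum.elim_inr]; ring)
    have hE0 : ∀ e : {e : Sym2 V // e ∈ E}, w (Sum.inr e) = 0 := by
      have h2 := (hI (fun e => if h : e ∈ E then 2 * w (Sum.inr ⟨e, h⟩) else 0) (fun _ => 0) ?_).1
      · intro e
        have h3 := h2 e.1 e.2
        simp only [e.2, dif_pos] at h3
        linarith
      · intro Z hZ
        simp only [Finset.sum_empty, add_zero]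
        have h3 := hlin Z
        rw [Finset.sum_eq_zero (fun y _ => by rw [hZ y.1.1 y.2]; simp), zero_add] at h3
        rw [← h3, ← Finset.sum_coe_sort E]
        refine Finset.sum_congr rfl (fun e _ => ?_)
        rw [dif_pos e.2]
        ring
    intro t
    rcases t with y | e
    · have h4 := hlin (fun v c => if (v, c) = y.1 then 1 else 0)
      rw [Finset.sum_eq_zero (s := (univ : Finset {e : Sym2 V // e ∈ E}))
        (fun e _ => by rw [hE0 e, zero_mul]), add_zero, Finset.sum_eq_single y] at h4
      · simpa using h4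
      · intro b _ hb
        rw [if_neg (fun hcon => hb (Subtype.ext (by simpa using hcon))), mul_zero]
      · intro h
        exact absurd (mem_univ _) h
    · exact hE0 e

end Pool.Agent.GRR
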