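import Pool.Agent.GRR.Stmts

set_option autoImplicit false
set_option linter.unusedSectionVars false

open Finset
open scoped Classical

namespace Pool.Agent.GRR

namespace LIN_

variable {V : Type} [Fintype V] {k : ℕ}

/-- `ell p · e` as a linear map -/
noncomputable def ellL (p : V → Fin k → ℝ) (e : Sym2 V) : (V → Fin k → ℝ) →ₗ[ℝ] ℝ where
  toFun X := ell p X e
  map_add' X Y := ell_add p X Y e
  map_smul' a X := by rw [ell_smul]; rfl

/-- the coordinate functional -/
noncomputable def coL (x : V × Fin k) : (V → Fin k → ℝ) →ₗ[ℝ] ℝ where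
  toFun X := X x.1 x.2
  map_add' _ _ := rfl
  map_smul' _ _ := rfl

/-- all functionals together, restricted to the configurations vanishing on `B` -/
noncomputable def LL (p : V → Fin k → ℝ) (B : Finset V) (E : Finset (Sym2 V))
    (C : Finset (V × Fin k)) : Mot p B ∅ →ₗ[ℝ] ({e // e ∈ E} ⊕ {x // x ∈ C} → ℝ) :=
  LinearMap.pi (fun j => Sum.elim (fun e => (ellL p e.1).comp (Mot p B ∅).subtype)
    (fun x => (coL x.1).comp (Mot p B ∅).subtype) j)

theorem LL_inl (p : V → Fin k → ℝ) (B : Finset V) (E : Finset (Sym2 V)) (C : Finset (V × Fin k))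
    (X : Mot p B ∅) (e : {e // e ∈ E}) : LL p B E C X (Sum.inl e) = ell p X.1 e.1 := rfl

theorem LL_inr (p : V → Fin k → ℝ) (B : Finset V) (E : Finset (Sym2 V)) (C : Finset (V × Fin k))
    (X : Mot p B ∅) (x : {x // x ∈ C}) : LL p B E C X (Sum.inr x) = X.1 x.1.1 x.1.2 := rfl

theorem mem0 (p : V → Fin k → ℝ) (B : Finset V) (X : V → Fin k → ℝ) (h : ∀ i ∈ B, X i = 0) :
    X ∈ Mot p B ∅ := ⟨h, fun e he => absurd he (Finset.notMem_empty e)⟩

/-- part 1 -/
theorem surj {p : V → Fin k → ℝ} {B : Finset V} {E : Finset (Sym2 V)} {C : Finset (V × Fin k)}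
    (h : Ind p B E C) : Function.Surjective (LL p B E C) := by
  by_contra hs
  have hlt : LinearMap.range (LL p B E C) < ⊤ := by
    rw [lt_top_iff_ne_top]
    exact fun h => hs (LinearMap.range_eq_top.mp h)
  obtain ⟨f, hf0, hf⟩ := Submodule.exists_le_ker_of_lt_top _ hlt
  apply hf0
  have hf1 : ∀ y, f y = ∑ j, f (Pi.single j 1) * y j := by
    intro y
    have h1 : y = ∑ j, y j • (Pi.single j (1 : ℝ) : {e // e ∈ E} ⊕ {x // x ∈ C} → ℝ) := by
      funext i
      rw [Finset.sum_apply]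
      simp [Pi.single_apply]
    conv_lhs => rw [h1]
    rw [map_sum]
    refine Finset.sum_congr rfl (fun j _ => ?_)
    rw [map_smul, smul_eq_mul, mul_comm]
  obtain ⟨ω, hω⟩ : ∃ ω : Sym2 V → ℝ, ω = fun e => if he : e ∈ E then
    f (Pi.single (Sum.inl ⟨e, he⟩) 1) else 0 := ⟨_, rfl⟩
  obtain ⟨θ, hθ⟩ : ∃ θ : V × Fin k → ℝ, θ = fun x => if hx : x ∈ C then
    f (Pi.single (Sum.inr ⟨x, hx⟩) 1) else 0 := ⟨_, rfl⟩
  have hω1 : ∀ e : {e // e ∈ E}, f (Pi.single (Sum.inl e) 1) = ω e.1 := by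
    intro e
    rw [hω]
    simp only [e.2, dif_pos]
  have hθ1 : ∀ x : {x // x ∈ C}, f (Pi.single (Sum.inr x) 1) = θ x.1 := by
    intro x
    rw [hθ]
    simp only [x.2, dif_pos]
  have h2 := h ω θ (fun X hX => by
    have h3 : f (LL p B E C ⟨X, mem0 p B X hX⟩) = 0 :=
      hf (LinearMap.mem_range_self _ _)
    rw [hf1, Fintype.sum_sum_type] at h3
    simp only [LL_inl, LL_inr, hω1, hθ1] at h3
    rw [← Finset.sum_coe_sort E, ← Finset.sum_coe_sort C]
    exact h3)
  apply LinearMap.ext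
  intro y
  rw [hf1, Fintype.sum_sum_type]
  simp only [hω1, hθ1]
  rw [LinearMap.zero_apply, Finset.sum_eq_zero, Finset.sum_eq_zero, add_zero]
  · intro x _
    rw [h2.2 x.1 x.2, zero_mul]
  · intro e _
    rw [h2.1 e.1 e.2, zero_mul]

theorem part1 {p : V → Fin k → ℝ} {B : Finset V} {E : Finset (Sym2 V)} {C : Finset (V × Fin k)}
    (h : Ind p B E C) (r : Sym2 V → ℝ) (s : V × Fin k → ℝ) : ∃ X : V → Fin k → ℝ,
      (∀ i ∈ B, X i = 0) ∧ (∀ e ∈ E, ell p X e = r e) ∧ ∀ x ∈ C, X x.1 x.2 = s x := by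
  obtain ⟨X, hX⟩ := surj h (Sum.elim (fun e => r e.1) (fun x => s x.1))
  refine ⟨X.1, X.2.1, fun e he => ?_, fun x hx => ?_⟩
  · have := congrFun hX (Sum.inl ⟨e, he⟩)
    exact this
  · have := congrFun hX (Sum.inr ⟨x, hx⟩)
    exact this

theorem part2 {p : V → Fin k → ℝ} {B : Finset V} {E : Finset (Sym2 V)} (e : Sym2 V)
    (h : Ind p B E ∅) (hX : ∃ X ∈ Mot p B E, ell p X e ≠ 0) : Ind p B (insert e E) ∅ := by
  by_cases he : e ∈ E
  · rw [Finset.insert_eq_of_mem he]
    exact h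
  · intro ω θ hr
    obtain ⟨X, hX, hXe⟩ := hX
    have h0 : ω e = 0 := by
      have h1 := hr X hX.1
      rw [Finset.sum_insert he, Finset.sum_empty, add_zero,
        Finset.sum_eq_zero (fun f hf => by rw [hX.2 f hf, mul_zero]), add_zero] at h1
      exact (mul_eq_zero.mp h1).resolve_right hXe
    have h2 := h ω θ (fun Y hY => by
      have h1 := hr Y hY
      rw [Finset.sum_insert he, h0, zero_mul, zero_add] at h1
      exact h1)
    refine ⟨fun f hf => ?_, h2.2⟩
    rcases Finset.mem_insert.mp hf with hf | hf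
    · rw [hf, h0]
    · exact h2.1 f hf

theorem part3 {p : V → Fin k → ℝ} {B : Finset V} {E : Finset (Sym2 V)} (z : V) (c : Fin k)
    (h : Ind p B E ∅) (hX : ∃ X ∈ Mot p B E, X z c ≠ 0) : Ind p B E {(z, c)} := by
  intro ω θ hr
  obtain ⟨X, hX, hXe⟩ := hX
  have h0 : θ (z, c) = 0 := by
    have h1 := hr X hX.1
    rw [Finset.sum_singleton,
      Finset.sum_eq_zero (fun f hf => by rw [hX.2 f hf, mul_zero]), zero_add] at h1
    exact (mul_eq_zero.mp h1).resolve_right hXe
  have h2 := h ω θ (fun Y hY => by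
    have h1 := hr Y hY
    rw [Finset.sum_singleton, h0, zero_mul] at h1
    rw [Finset.sum_empty]
    exact h1)
  refine ⟨h2.1, fun x hx => ?_⟩
  rw [Finset.mem_singleton.mp hx]
  exact h0

theorem ind_empty (p : V → Fin k → ℝ) (B : Finset V) : Ind p B ∅ ∅ := by
  intro ω θ _
  exact ⟨fun e he => absurd he (Finset.notMem_empty e), fun x hx => absurd hx (Finset.notMem_empty x)⟩

theorem part4 (p : V → Fin k → ℝ) (B : Finset V) (E : Finset (Sym2 V)) :
    ∃ E' ⊆ E, Ind p B E' ∅ ∧ Mot p B E' = Mot p B E := by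
  obtain ⟨E', hE', hmax⟩ := Finset.exists_max_image
    (E.powerset.filter (fun E' => Ind p B E' ∅)) Finset.card
    ⟨∅, Finset.mem_filter.mpr ⟨Finset.empty_mem_powerset E, ind_empty p B⟩⟩
  rw [Finset.mem_filter, Finset.mem_powerset] at hE'
  refine ⟨E', hE'.1, hE'.2, le_antisymm ?_ (Mot_mono p (subset_refl B) hE'.1)⟩
  intro X hX
  refine ⟨hX.1, fun e he => ?_⟩
  by_contra hne
  by_cases he' : e ∈ E'
  · exact hne (hX.2 e he')
  · have h1 := part2 e hE'.2 ⟨X, hX, hne⟩
    have h2 := hmax (insert e E') (Finset.mem_filter.mpr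
      ⟨Finset.mem_powerset.mpr (Finset.insert_subset he hE'.1), h1⟩)
    rw [Finset.card_insert_of_notMem he'] at h2
    omega

/-- part 7 -/
theorem part7 {p : V → Fin k → ℝ} {B : Finset V} {E : Finset (Sym2 V)}
    (h : ∀ r : Sym2 V → ℝ, ∃ X : V → Fin k → ℝ, (∀ i ∈ B, X i = 0) ∧ ∀ e ∈ E, ell p X e = r e) :
    Ind p B E ∅ := by
  intro ω θ hr
  obtain ⟨X, hX0, hX⟩ := h ω
  have h1 := hr X hX0
  rw [Finset.sum_empty, add_zero, Finset.sum_congr rfl (fun e he => by rw [hX e he])] at h1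
  refine ⟨fun e he => ?_, fun x hx => absurd hx (Finset.notMem_empty x)⟩
  have h2 := (Finset.sum_eq_zero_iff_of_nonneg (fun e _ => mul_self_nonneg (ω e))).mp h1 e he
  exact mul_self_eq_zero.mp h2

/-- part 8 -/
theorem part8 {p : V → Fin k → ℝ} {B : Finset V} {E E' : Finset (Sym2 V)} (hE : E' ⊆ E)
    (h : Ind p B E ∅) : Ind p B E' ∅ := by
  apply part7
  intro r
  obtain ⟨X, h1, h2, _⟩ := part1 h r (fun _ => 0)
  exact ⟨X, h1, fun e he => h2 e (hE he)⟩

/-! ### dimensions -/

/-- configurations vanishing on `B` are functions on the complement -/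
noncomputable def eqv (p : V → Fin k → ℝ) (B : Finset V) :
    Mot p B ∅ ≃ₗ[ℝ] ({v // v ∈ univ \ B} → Fin k → ℝ) where
  toFun X := fun v => X.1 v.1
  map_add' _ _ := rfl
  map_smul' _ _ := rfl
  invFun Y := ⟨fun v => if h : v ∈ univ \ B then Y ⟨v, h⟩ else 0, mem0 p B _ (fun i hi => by
    simp [hi])⟩
  left_inv X := by
    apply Subtype.ext
    funext v
    by_cases h : v ∈ univ \ B
    · simp only [h, dif_pos]
    · simp only [h, dif_neg, not_false_eq_true]
      have : v ∈ B := by simpa using h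
      exact (X.2.1 v this).symm
  right_inv Y := by
    funext v
    simp only [v.2, dif_pos]

theorem finrank0 (p : V → Fin k → ℝ) (B : Finset V) :
    Module.finrank ℝ (Mot p B ∅) = k * (univ \ B).card := by
  rw [LinearEquiv.finrank_eq (eqv p B), Module.finrank_pi_fintype]
  simp [mul_comm]

theorem ker_eq (p : V → Fin k → ℝ) (B : Finset V) (E : Finset (Sym2 V)) :
    LinearMap.ker (LL p B E ∅) = (Mot p B E).comap (Mot p B ∅).subtype := by
  ext X
  rw [LinearMap.mem_ker, Submodule.mem_comap]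
  constructor
  · intro h
    refine ⟨X.2.1, fun e he => ?_⟩
    exact congrFun h (Sum.inl ⟨e, he⟩)
  · intro h
    funext j
    rcases j with e | x
    · exact h.2 e.1 e.2
    · exact absurd x.2 (Finset.notMem_empty x.1)

theorem rank_nullity (p : V → Fin k → ℝ) (B : Finset V) (E : Finset (Sym2 V)) :
    Module.finrank ℝ (LinearMap.range (LL p B E ∅)) + Module.finrank ℝ (Mot p B E) =
      k * (univ \ B).card := by
  rw [← finrank0 p B, ← LinearMap.finrank_range_add_finrank_ker (LL p B E ∅), ker_eq,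
    LinearEquiv.finrank_eq (Submodule.comapSubtypeEquivOfLe
      (Mot_mono p (subset_refl B) (Finset.empty_subset E)))]

theorem card_J (E : Finset (Sym2 V)) :
    Module.finrank ℝ ({e // e ∈ E} ⊕ {x // x ∈ (∅ : Finset (V × Fin k))} → ℝ) = E.card := by
  rw [Module.finrank_fintype_fun_eq_card, Fintype.card_sum]
  simp

theorem range_le (p : V → Fin k → ℝ) (B : Finset V) (E : Finset (Sym2 V)) :
    Module.finrank ℝ (LinearMap.range (LL p B E ∅)) ≤ E.card := by
  rw [← card_J (V := V) (k := k) E]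
  exact Submodule.finrank_le _

theorem part6 (p : V → Fin k → ℝ) (B : Finset V) (E : Finset (Sym2 V)) :
    k * (univ \ B).card ≤ Module.finrank ℝ (Mot p B E) + E.card := by
  have h1 := rank_nullity p B E
  have h2 := range_le p B E
  omega

theorem part5 (p : V → Fin k → ℝ) (B : Finset V) (E : Finset (Sym2 V)) :
    Ind p B E ∅ ↔ Module.finrank ℝ (Mot p B E) + E.card = k * (univ \ B).card := by
  have h1 := rank_nullity p B E
  have h2 := range_le p B E
  constructor
  · intro h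
    have h3 : LinearMap.range (LL p B E ∅) = ⊤ := LinearMap.range_eq_top.mpr (surj h)
    rw [h3, finrank_top, card_J] at h1
    omega
  · intro h
    have h3 : LinearMap.range (LL p B E ∅) = ⊤ := by
      apply Submodule.eq_top_of_finrank_eq
      rw [card_J]
      omega
    apply part7
    intro r
    obtain ⟨X, hX⟩ := LinearMap.range_eq_top.mp h3 (Sum.elim (fun e => r e.1) (fun _ => 0))
    exact ⟨X.1, X.2.1, fun e he => congrFun hX (Sum.inl ⟨e, he⟩)⟩

end LIN_

open LIN_ in
theorem lin_proof : Stmt_LIN := by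
  intro V _ k p B E C
  exact ⟨fun h r s => part1 h r s, fun e h hX => part2 e h hX, fun z c h hX => part3 z c h hX,
    part4 p B E, part5 p B E, part6 p B E, fun h => part7 h, fun E' hE h => part8 hE h⟩

end Pool.Agent.GRR
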