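import Pool.Agent.GRR.Stmts

/-!
# GRR, module MAI : the main assembly
-/

set_option autoImplicit false

open Finset
open scoped Classical

namespace Pool.Agent.GRR

namespace MAI_

/-- the numerical conditions -/
theorem nums {k n : ℕ} {γ σ γ1 δ : ℝ} (hk : 2 ≤ k) (hσ0 : 0 < σ) (hσ1 : σ < 1)
    (hg0 : 0 < γ1) (h1 : 3 * γ1 ≤ γ) (h2 : 4 * γ1 ≤ σ) (hδ0 : 0 < δ)
    (hδ : δ * (20 * ((k : ℝ) + 2)) = γ1) (hn : 8 * ((k : ℝ) + 4) ≤ γ1 * n) :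
    (2 * (⌈γ1 * n⌉₊ : ℝ) ≤ γ * n) ∧
    ⌊δ * n⌋₊ + k + 2 ≤ ⌈γ1 * n⌉₊ ∧
    (k + 2) * (⌊δ * n⌋₊ + 1) + 2 ≤ ⌊σ * n⌋₊ ∧
    (2 * k + 3) * (⌊δ * n⌋₊ + 1) ≤ n ∧
    5 * ⌊δ * n⌋₊ + ⌈γ1 * n⌉₊ + 1 ≤ ⌊σ * n⌋₊ ∧
    (k + 1) * (5 * ⌊δ * n⌋₊) + k + 2 ≤ ⌊σ * n⌋₊ ∧
    (2 * k + 2) * (5 * ⌊δ * n⌋₊) ≤ n ∧ ⌊σ * n⌋₊ ≤ n := by
  have hn0 : (0 : ℝ) ≤ n := Nat.cast_nonneg n
  have hk0 : (2 : ℝ) ≤ k := by exact_mod_cast hk
  have ht : (⌊δ * n⌋₊ : ℝ) ≤ δ * n := Nat.floor_le (mul_nonneg hδ0.le hn0)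
  have hg : (⌈γ1 * n⌉₊ : ℝ) < γ1 * n + 1 := Nat.ceil_lt_add_one (mul_nonneg hg0.le hn0)
  have hg' : γ1 * n ≤ (⌈γ1 * n⌉₊ : ℝ) := Nat.le_ceil _
  have hkt : 20 * ((k : ℝ) + 2) * (δ * n) = γ1 * n := by
    rw [← hδ]; ring
  have hdn : 0 ≤ δ * n := mul_nonneg hδ0.le hn0
  have a1 : 3 * (γ1 * n) ≤ γ * n := by
    have := mul_le_mul_of_nonneg_right h1 hn0
    linarith
  have a2 : 4 * (γ1 * n) ≤ σ * n := by
    have := mul_le_mul_of_nonneg_right h2 hn0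
    linarith
  have a3 : σ * n ≤ n := by
    have := mul_le_mul_of_nonneg_right hσ1.le hn0
    linarith
  have b1 : ((k : ℝ) + 2) * (⌊δ * n⌋₊ : ℝ) ≤ γ1 * n / 20 := by
    have := mul_le_mul_of_nonneg_left ht (show (0 : ℝ) ≤ (k : ℝ) + 2 by linarith)
    linarith
  have b2 : (4 : ℝ) * (⌊δ * n⌋₊ : ℝ) ≤ γ1 * n / 20 := by
    refine le_trans ?_ b1
    exact mul_le_mul_of_nonneg_right (by linarith) (Nat.cast_nonneg _)
  have hfl : (0 : ℝ) ≤ (⌊δ * n⌋₊ : ℝ) := Nat.cast_nonneg _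
  refine ⟨by linarith, ?_, ?_, ?_, ?_, ?_, ?_, ?_⟩
  · have : ((⌊δ * n⌋₊ + k + 2 : ℕ) : ℝ) ≤ (⌈γ1 * n⌉₊ : ℝ) := by
      push_cast
      linarith
    exact_mod_cast this
  · apply Nat.le_floor
    push_cast
    have e : ((k : ℝ) + 2) * ((⌊δ * n⌋₊ : ℝ) + 1) + 2 =
      ((k : ℝ) + 2) * (⌊δ * n⌋₊ : ℝ) + (k + 4) := by ring
    rw [e]
    linarith
  · have : (((2 * k + 3) * (⌊δ * n⌋₊ + 1) : ℕ) : ℝ) ≤ (n : ℝ) := by
      push_cast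
      have e : (2 * (k : ℝ) + 3) * ((⌊δ * n⌋₊ : ℝ) + 1) =
        2 * (((k : ℝ) + 2) * (⌊δ * n⌋₊ : ℝ)) - (⌊δ * n⌋₊ : ℝ) + (2 * k + 3) := by ring
      rw [e]
      linarith
    exact_mod_cast this
  · apply Nat.le_floor
    push_cast
    linarith
  · apply Nat.le_floor
    push_cast
    have e : ((k : ℝ) + 1) * (5 * (⌊δ * n⌋₊ : ℝ)) + k + 2 =
      5 * (((k : ℝ) + 2) * (⌊δ * n⌋₊ : ℝ)) - 5 * (⌊δ * n⌋₊ : ℝ) + (k + 2) := by ring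
    rw [e]
    linarith
  · have : (((2 * k + 2) * (5 * ⌊δ * n⌋₊) : ℕ) : ℝ) ≤ (n : ℝ) := by
      push_cast
      have e : (2 * (k : ℝ) + 2) * (5 * (⌊δ * n⌋₊ : ℝ)) =
        10 * (((k : ℝ) + 2) * (⌊δ * n⌋₊ : ℝ)) - 10 * (⌊δ * n⌋₊ : ℝ) := by ring
      rw [e]
      linarith
    exact_mod_cast this
  · exact Nat.floor_le_of_le a3

/-- the deterministic part -/
theorem det (h7 : Stmt_PEL) (h8 : Stmt_PIP) (h9 : Stmt_TGD) (h10 : Stmt_RDF) (h11 : Stmt_GLO)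
    {V : Type} [Fintype V] {k : ℕ} (hk : 2 ≤ k) {p : V → Fin k → ℝ} (hp : Gnr p)
    {G : Finset (Sym2 V)} {s g t : ℕ} (hG : GG p G s g t)
    (hne : (Red p G).Nonempty)
    (hU : (∃ Q : Finset V, Clq p G Q ∧ vts (Red p G) ⊆ Q) → UniG k g (Red p G))
    (n5 : 5 * t + g + 1 ≤ s) (n6 : (k + 1) * (5 * t) + k + 2 ≤ s)
    (n7 : (2 * k + 2) * (5 * t) ≤ Fintype.card V) (n8 : s ≤ Fintype.card V) :
    GLq k (Red p G) (vts (Red p G)) := by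
  obtain ⟨Q, hQ1, hQ2⟩ := exists_mcl p G
  have hQ : TopQ p G Q := ⟨hQ1, hQ2⟩
  obtain ⟨c1, c2, c3⟩ := h7 V k hk p hp G s g t hG hne Q hQ
  obtain ⟨r1, r2, r3, r4, r5⟩ := h10 V k p hp G hG.sub
  have hRG : Red p G ⊆ G := Finset.filter_subset _ _
  have hRp : Red p G ⊆ pairs V := hRG.trans hG.sub
  have hspr : Spr s (Red p G) := by
    intro S hS
    have h := hG.spr S hS
    have hsub : sub (Red p G) S ⊆ sub G S := by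
      intro e he
      rw [mem_sub] at he ⊢
      exact ⟨hRG he.1, he.2⟩
    have := Finset.card_le_card hsub
    omega
  refine h11 V k hk p hp (Red p G) s g t hRp hne hspr c3 r3 ?_ ?_ (hU ⟨Q, hQ1, c1⟩) n5 n6 n7 n8
  · exact h8 V k hk p hp (Red p G) hRp c3 r1
  · refine le_trans (Finset.card_le_card ?_) hG.few
    intro v hv
    rw [Finset.mem_filter] at hv ⊢
    refine ⟨Finset.mem_univ v, fun hgood => hv.2 ?_⟩
    exact h9 V k hk p hp G s g t hG hne v hv.1 hgood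

theorem vts_empty {V : Type} [Fintype V] : vts (∅ : Finset (Sym2 V)) = ∅ := by
  apply Finset.eq_empty_of_forall_notMem
  intro v hv
  rw [mem_vts] at hv
  obtain ⟨e, he, _⟩ := hv
  exact absurd he (Finset.notMem_empty e)

end MAI_

theorem mai_proof (h1 : Stmt_SPA) (h2 : Stmt_UNI) (h3 : Stmt_ROB) (h4 : Stmt_NGD)
    (h5 : Stmt_EXI) (h6 : Stmt_UGL) (h7 : Stmt_PEL) (h8 : Stmt_PIP) (h9 : Stmt_TGD)
    (h10 : Stmt_RDF) (h11 : Stmt_GLO) (h12 : Stmt_FRZ) (h13 : Stmt_WHB) (h14 : Stmt_EXB) :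
    Stmt_MAI := by
  intro k c hk hc ε hε
  have hk1 : 1 ≤ k := by omega
  obtain ⟨σ, hσ0, hσ1, hSPA⟩ := h1 c hc
  obtain ⟨γ, hγ0, n1, hEXI⟩ := h5 k c (ε / 2) hk hc (by linarith)
  obtain ⟨γ1, hγ1, hγ1a, hγ1b⟩ : ∃ γ1 : ℝ, 0 < γ1 ∧ 3 * γ1 ≤ γ ∧ 4 * γ1 ≤ σ := by
    refine ⟨min (γ / 3) (σ / 4), lt_min (by linarith) (by linarith), ?_, ?_⟩
    · have := min_le_left (γ / 3) (σ / 4)
      linarith
    · have := min_le_right (γ / 3) (σ / 4)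
      linarith
  have hk20 : (0 : ℝ) < 20 * ((k : ℝ) + 2) := by positivity
  obtain ⟨δ, hδ0, hδ⟩ : ∃ δ : ℝ, 0 < δ ∧ δ * (20 * ((k : ℝ) + 2)) = γ1 :=
    ⟨γ1 / (20 * ((k : ℝ) + 2)), div_pos hγ1 hk20, div_mul_cancel₀ _ hk20.ne'⟩
  obtain ⟨_, hconj, _⟩ := h13 c k hc
  have w1 := hSPA k
  have w2 := h2 k c γ1 hk1 hc hγ1
  have w3 := h3 k c δ hc hδ0
  have w4 := h4 k c γ1 δ hk1 hc hγ1 hδ0
  have w5 := h6 k c γ1 hk1 hc hγ1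
  have w := hconj _ _ w1 (hconj _ _ w2 (hconj _ _ w3 (hconj _ _ w4 w5)))
  obtain ⟨n2, hn2⟩ := w (ε / 2) (by linarith)
  refine ⟨max (max n1 n2) (max ⌈c⌉₊ ⌈8 * ((k : ℝ) + 4) / γ1⌉₊), ?_⟩
  intro V _ p hp hn
  have e1 : n1 ≤ Fintype.card V := le_trans (le_max_left _ _) (le_trans (le_max_left _ _) hn)
  have e2 : n2 ≤ Fintype.card V := le_trans (le_max_right _ _) (le_trans (le_max_left _ _) hn)
  have e3 : ⌈c⌉₊ ≤ Fintype.card V := le_trans (le_max_left _ _) (le_trans (le_max_right _ _) hn)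
  have e4 : ⌈8 * ((k : ℝ) + 4) / γ1⌉₊ ≤ Fintype.card V :=
    le_trans (le_max_right _ _) (le_trans (le_max_right _ _) hn)
  have e3' : c ≤ Fintype.card V := (Nat.le_ceil c).trans (by exact_mod_cast e3)
  have e4' : 8 * ((k : ℝ) + 4) / γ1 ≤ Fintype.card V :=
    (Nat.le_ceil _).trans (by exact_mod_cast e4)
  have hn0 : (0 : ℝ) < Fintype.card V := lt_of_lt_of_le hc e3'
  have e5 : 8 * ((k : ℝ) + 4) ≤ γ1 * Fintype.card V := by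
    rw [div_le_iff₀ hγ1] at e4'
    linarith
  have hπ0 : 0 ≤ c / Fintype.card V := div_nonneg hc.le hn0.le
  have hπ1 : c / Fintype.card V ≤ 1 := by
    rw [div_le_one hn0]
    exact e3'
  obtain ⟨_, _, _, hor, _⟩ := h14 (Sym2 V) (c / Fintype.card V) (pairs V) hπ0 hπ1
  obtain ⟨m1, m2, m3, m4, m5, m6, m7, m8⟩ :=
    MAI_.nums (n := Fintype.card V) hk hσ0 hσ1 hγ1 hγ1a hγ1b hδ0 hδ e5
  have key := hor (fun G => ¬ GLq k (Red p G) (vts (Red p G)))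
    (fun G => ¬ (Spr ⌊σ * Fintype.card V⌋₊ G ∧ Uni p ⌈γ1 * Fintype.card V⌉₊ G ∧
      Rob p ⌊δ * Fintype.card V⌋₊ G ∧
      (univ.filter (fun x => ¬ GoodAt p ⌈γ1 * Fintype.card V⌉₊ (del G x) (nbr G x))).card ≤
        ⌊δ * Fintype.card V⌋₊ ∧
      ((∃ Q : Finset V, Clq p G Q ∧ vts (Red p G) ⊆ Q) →
        UniG k ⌈γ1 * Fintype.card V⌉₊ (Red p G))))
    (fun G => (Red p G).Nonempty ∧ (mcl p G : ℝ) < γ * Fintype.card V) ?_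
  · refine key.trans ?_
    have k1 := hn2 V p hp e2
    have k2 := hEXI V p hp e1
    linarith
  · intro G hG hnot
    by_cases hne : (Red p G).Nonempty
    · by_cases hm : (mcl p G : ℝ) < γ * Fintype.card V
      · exact Or.inr ⟨hne, hm⟩
      · left
        rintro ⟨a1, a2, a3, a4, a5⟩
        apply hnot
        rw [not_lt] at hm
        have hbig : 2 * ⌈γ1 * Fintype.card V⌉₊ ≤ mcl p G := by
          have : ((2 * ⌈γ1 * Fintype.card V⌉₊ : ℕ) : ℝ) ≤ (mcl p G : ℝ) := by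
            push_cast
            linarith
          exact_mod_cast this
        have hGG : GG p G ⌊σ * Fintype.card V⌋₊ ⌈γ1 * Fintype.card V⌉₊ ⌊δ * Fintype.card V⌋₊ :=
          ⟨hG, a1, a2, hbig, a3, a4, m2, m3, m4⟩
        exact MAI_.det h7 h8 h9 h10 h11 hk hp hGG hne a5 m5 m6 m7 m8
    · exfalso
      apply hnot
      rw [Finset.not_nonempty_iff_eq_empty] at hne
      rw [hne, MAI_.vts_empty]
      intro i hi
      exact absurd hi (Finset.notMem_empty i)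

end Pool.Agent.GRR
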