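import Pool.Agent.GRR.Stmts

/-!
# GRR : exchanging an edge of the graph with a new edge
-/

set_option autoImplicit false

open Finset
open scoped Classical

namespace Pool.Agent.GRR

theorem mec_proof : Stmt_MEC := by
  intro α π D h0 h1 h
  have hne : (1 - π) ≠ 0 := by linarith
  unfold Ex
  simp_rw [Finset.mul_sum]
  rw [Finset.sum_sigma', Finset.sum_sigma']
  refine Finset.sum_nbij' (i := fun x => ⟨x.1.erase x.2, x.2⟩) (j := fun x => ⟨insert x.2 x.1, x.2⟩)
    ?_ ?_ ?_ ?_ ?_
  · rintro ⟨G, e⟩ hG
    simp only [mem_sigma, mem_powerset, mem_sdiff, mem_erase, ne_eq, not_true_eq_false,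
      false_and, not_false_eq_true, and_true] at hG ⊢
    exact ⟨(Finset.erase_subset _ _).trans hG.1, hG.1 hG.2⟩
  · rintro ⟨G, e⟩ hG
    simp only [mem_sigma, mem_powerset, mem_sdiff] at hG ⊢
    exact ⟨Finset.insert_subset hG.2.1 hG.1, Finset.mem_insert_self _ _⟩
  · rintro ⟨G, e⟩ hG
    simp only [mem_sigma, mem_powerset] at hG ⊢
    rw [Finset.insert_erase hG.2]
  · rintro ⟨G, e⟩ hG
    simp only [mem_sigma, mem_powerset, mem_sdiff] at hG ⊢
    rw [Finset.erase_insert hG.2.2]
  · rintro ⟨G, e⟩ hG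
    simp only [mem_sigma, mem_powerset] at hG ⊢
    have hc : (G.erase e).card + 1 = G.card := Finset.card_erase_add_one hG.2
    have hle : G.card ≤ D.card := Finset.card_le_card hG.1
    have hw : wt π D G = π / (1 - π) * wt π D (G.erase e) := by
      unfold wt
      have e1 : D.card - (G.erase e).card = (D.card - G.card) + 1 := by omega
      rw [← hc, pow_succ, e1, hc, pow_succ]
      field_simp
    rw [hw]
    ring

end Pool.Agent.GRR
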