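import Pool.Agent.GRR.Stmts

/-!
# GRR, module NCO: a set on which the closure is nearly complete contains a large clique
-/

set_option autoImplicit false

open Finset
open scoped Classical

namespace Pool.Agent.GRR

namespace NCO_

/-- greedy choice of common neighbours -/
theorem greedy {α : Type} (A : α → α → Prop) (R : Finset α) (k : ℕ)
    (h : ∀ S ⊆ R, S.card ≤ k + 1 → ∃ w ∈ R, w ∉ S ∧ ∀ s ∈ S, A s w ∧ A w s)
    {u v : α} (hu : u ∈ R) (hv : v ∈ R) :
    ∀ j, j ≤ k → ∃ W ⊆ R, W.card = j ∧ u ∉ W ∧ v ∉ W ∧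
      (∀ w ∈ W, A u w ∧ A w u ∧ A v w ∧ A w v) ∧ ∀ w ∈ W, ∀ w' ∈ W, w ≠ w' → A w w' := by
  intro j
  induction j with
  | zero =>
    intro _
    exact ⟨∅, by simp, by simp, by simp, by simp, by simp, by simp⟩
  | succ j ih =>
    intro hj
    obtain ⟨W, hWR, hWc, huW, hvW, h1, h2⟩ := ih (by omega)
    have hS : insert u (insert v W) ⊆ R := by
      intro x hx
      simp only [Finset.mem_insert] at hx
      rcases hx with rfl | rfl | hx
      · exact hu
      · exact hv
      · exact hWR hx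
    have hc : (insert u (insert v W)).card ≤ k + 1 := by
      have e1 := Finset.card_insert_le u (insert v W)
      have e2 := Finset.card_insert_le v W
      omega
    obtain ⟨w, hw, hwS, hws⟩ := h _ hS hc
    simp only [Finset.mem_insert, not_or] at hwS
    obtain ⟨hwu, hwv, hwW⟩ := hwS
    have a1 := hws u (by simp)
    have a2 := hws v (by simp)
    refine ⟨insert w W, ?_, ?_, ?_, ?_, ?_, ?_⟩
    · exact Finset.insert_subset hw hWR
    · rw [Finset.card_insert_of_notMem hwW, hWc]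
    · simp only [Finset.mem_insert, not_or]
      exact ⟨fun e => hwu e.symm, huW⟩
    · simp only [Finset.mem_insert, not_or]
      exact ⟨fun e => hwv e.symm, hvW⟩
    · intro x hx
      rcases Finset.mem_insert.1 hx with rfl | hx
      · exact ⟨a1.1, a1.2, a2.1, a2.2⟩
      · exact h1 x hx
    · intro x hx y hy hxy
      rcases Finset.mem_insert.1 hx with e1 | hx'
      · rcases Finset.mem_insert.1 hy with e2 | hy'
        · exact absurd (e1.trans e2.symm) hxy
        · rw [e1]; exact (hws y (by simp [hy'])).2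
      · rcases Finset.mem_insert.1 hy with e2 | hy'
        · rw [e2]; exact (hws x (by simp [hx'])).1
        · exact h2 x hx' y hy' hxy

/-- double counting of the missing pairs -/
theorem count {V : Type} [Fintype V] (A : Sym2 V → Prop) (Q : Finset V) :
    ∑ v ∈ Q, (Q.filter (fun w => v ≠ w ∧ ¬ A s(v, w))).card ≤
      2 * ((sub (pairs V) Q).filter (fun e => ¬ A e)).card := by
  have h1 : ∑ v ∈ Q, (Q.filter (fun w => v ≠ w ∧ ¬ A s(v, w))).card =
      (Q.sigma (fun v => Q.filter (fun w => v ≠ w ∧ ¬ A s(v, w)))).card := by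
    rw [Finset.card_sigma]
  rw [h1]
  set P := Q.sigma (fun v => Q.filter (fun w => v ≠ w ∧ ¬ A s(v, w))) with hP
  have h2 : P.card ≤ 2 * (P.image (fun x => s(x.1, x.2))).card := by
    apply Finset.card_le_mul_card_image
    intro e _
    induction e with
    | h a b =>
      have h3 : P.filter (fun x => s(x.1, x.2) = s(a, b)) ⊆
          {(⟨a, b⟩ : (_ : V) × V), ⟨b, a⟩} := by
        rintro ⟨x, y⟩ hx
        have h4 := (Finset.mem_filter.1 hx).2
        simp only at h4
        rcases Sym2.eq_iff.1 h4 with ⟨h5, h6⟩ | ⟨h5, h6⟩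
        · simp [h5, h6]
        · simp [h5, h6]
      exact (Finset.card_le_card h3).trans Finset.card_le_two
  have h3 : P.image (fun x => s(x.1, x.2)) ⊆ (sub (pairs V) Q).filter (fun e => ¬ A e) := by
    intro e he
    obtain ⟨⟨x, y⟩, hx, rfl⟩ := Finset.mem_image.1 he
    rw [hP, Finset.mem_sigma] at hx
    obtain ⟨hx1, hx2⟩ := hx
    obtain ⟨hy1, hy2, hy3⟩ := Finset.mem_filter.1 hx2
    rw [Finset.mem_filter, mem_sub, mem_pairs]
    refine ⟨⟨by simpa using hy2, ?_⟩, hy3⟩
    intro i hi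
    rcases Sym2.mem_iff.1 hi with rfl | rfl
    · exact hx1
    · exact hy1
  have h4 := Finset.card_le_card h3
  omega

theorem Cl_diag {V : Type} [Fintype V] {k : ℕ} (p : V → Fin k → ℝ) (G : Finset (Sym2 V)) (i : V) :
    Cl p G s(i, i) := fun X _ => ell_diag p X i

theorem Clq_insert {V : Type} [Fintype V] {k : ℕ} {p : V → Fin k → ℝ} {G : Finset (Sym2 V)}
    {W : Finset V} {u : V} (h1 : ∀ w ∈ W, Cl p G s(u, w))
    (h2 : ∀ w ∈ W, ∀ w' ∈ W, w ≠ w' → Cl p G s(w, w')) : Clq p G (insert u W) := by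
  intro i hi j hj
  by_cases hij : i = j
  · rw [hij]; exact Cl_diag p G j
  rcases Finset.mem_insert.1 hi with e1 | hi'
  · rcases Finset.mem_insert.1 hj with e2 | hj'
    · exact absurd (e1.trans e2.symm) hij
    · rw [e1]; exact h1 j hj'
  · rcases Finset.mem_insert.1 hj with e2 | hj'
    · rw [e2, Sym2.eq_swap]; exact h1 i hi'
    · exact h2 i hi' j hj' hij

end NCO_

open NCO_ in
theorem nco_proof (hFRZ : Stmt_FRZ) : Stmt_NCO := by
  intro k δ hδ
  set μ : ℝ := δ / (4 * (k + 3)) with hμ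
  have hk : (0 : ℝ) ≤ k := Nat.cast_nonneg k
  have hμ0 : 0 < μ := by positivity
  have hμ1 : (k + 1) * μ ≤ δ / 4 := by
    rw [hμ, mul_div_assoc', div_le_div_iff₀ (by positivity) (by norm_num)]
    nlinarith
  refine ⟨min (δ * μ / 8) (1 / 8), lt_min (by positivity) (by norm_num),
    lt_of_le_of_lt (min_le_right _ _) (by norm_num), ⌈4 * (k + 2) / δ⌉₊ + 1, ?_⟩
  intro V _ p hp hn G Q hQ
  set n : ℝ := (Fintype.card V : ℝ) with hndef
  have hn1 : 4 * (k + 2) / δ ≤ n := by
    have h1 := Nat.le_ceil (4 * ((k : ℝ) + 2) / δ)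
    have h2 : ((⌈4 * ((k : ℝ) + 2) / δ⌉₊ + 1 : ℕ) : ℝ) ≤ (Fintype.card V : ℝ) := by
      exact_mod_cast hn
    push_cast at h2
    linarith
  have hn2 : (k : ℝ) + 2 ≤ δ * n / 4 := by
    rw [div_le_iff₀ hδ] at hn1
    linarith
  have hn0 : 0 < n := by
    by_contra h
    have : δ * n ≤ 0 := mul_nonpos_of_nonneg_of_nonpos hδ.le (not_lt.1 h)
    linarith
  by_cases hQs : (Q.card : ℝ) ≤ δ * n
  · exact ⟨∅, by simp, Clq_empty p G, by simpa using hQs⟩
  have hQs' := not_le.1 hQs
  set M : V → Finset V := fun v => Q.filter (fun w => v ≠ w ∧ ¬ Cl p G s(v, w)) with hM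
  set B : Finset V := Q.filter (fun v => μ * n ≤ ((M v).card : ℝ)) with hB
  have hcount := count (Cl p G) Q
  have hBc : (B.card : ℝ) * (μ * n) ≤ 2 * (min (δ * μ / 8) (1 / 8) * n ^ 2) := by
    have e1 : (B.card : ℝ) * (μ * n) ≤ ∑ v ∈ B, ((M v).card : ℝ) := by
      rw [← nsmul_eq_mul]
      apply Finset.card_nsmul_le_sum
      intro v hv
      exact (Finset.mem_filter.1 hv).2
    have e2 : ∑ v ∈ B, ((M v).card : ℝ) ≤ ∑ v ∈ Q, ((M v).card : ℝ) :=
      Finset.sum_le_sum_of_subset_of_nonneg (Finset.filter_subset _ _)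
        (fun i _ _ => Nat.cast_nonneg _)
    have e3 : ∑ v ∈ Q, ((M v).card : ℝ) ≤
        2 * (((sub (pairs V) Q).filter (fun e => ¬ Cl p G e)).card : ℝ) := by
      exact_mod_cast hcount
    linarith
  have hBc2 : (B.card : ℝ) ≤ δ * n / 4 := by
    have e1 : min (δ * μ / 8) (1 / 8) * n ^ 2 ≤ δ * μ / 8 * n ^ 2 :=
      mul_le_mul_of_nonneg_right (min_le_left _ _) (sq_nonneg n)
    have e2 : (B.card : ℝ) * (μ * n) ≤ δ * n / 4 * (μ * n) := by
      calc (B.card : ℝ) * (μ * n) ≤ 2 * (min (δ * μ / 8) (1 / 8) * n ^ 2) := hBc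
        _ ≤ 2 * (δ * μ / 8 * n ^ 2) := by linarith
        _ = δ * n / 4 * (μ * n) := by ring
    exact le_of_mul_le_mul_right e2 (by positivity)
  set R := Q \ B with hR
  have hRQ : R ⊆ Q := Finset.sdiff_subset
  have hBQ : B ⊆ Q := Finset.filter_subset _ _
  have hcard : (Q.card : ℝ) = R.card + B.card := by
    have := Finset.card_sdiff_add_card_eq_card hBQ
    rw [← hR] at this
    exact_mod_cast this.symm
  have hMR : ∀ v ∈ R, ((M v).card : ℝ) < μ * n := by
    intro v hv
    rw [hR, Finset.mem_sdiff] at hv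
    by_contra h
    exact hv.2 (Finset.mem_filter.2 ⟨hv.1, not_lt.1 h⟩)
  have hgr : ∀ S ⊆ R, S.card ≤ k + 1 →
      ∃ w ∈ R, w ∉ S ∧ ∀ s ∈ S, Cl p G s(s, w) ∧ Cl p G s(w, s) := by
    intro S hS hSc
    have hT : ((S ∪ S.biUnion M).card : ℝ) < R.card := by
      have e1 : ((S ∪ S.biUnion M).card : ℝ) ≤ S.card + (S.biUnion M).card := by
        exact_mod_cast Finset.card_union_le _ _
      have e2 : ((S.biUnion M).card : ℝ) ≤ ∑ s ∈ S, ((M s).card : ℝ) := by
        exact_mod_cast Finset.card_biUnion_le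
      have e3 : ∑ s ∈ S, ((M s).card : ℝ) ≤ S.card * (μ * n) := by
        rw [← nsmul_eq_mul]
        apply Finset.sum_le_card_nsmul
        intro s hs
        exact (hMR s (hS hs)).le
      have e4 : (S.card : ℝ) ≤ k + 1 := by exact_mod_cast hSc
      have e5 : (S.card : ℝ) * (μ * n) ≤ (k + 1) * (μ * n) :=
        mul_le_mul_of_nonneg_right e4 (by positivity)
      have e6 : (k + 1) * (μ * n) ≤ δ * n / 4 := by
        have := mul_le_mul_of_nonneg_right hμ1 hn0.le
        linarith
      have e7 : 0 < δ * n := by positivity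
      linarith
    have hT' : (S ∪ S.biUnion M).card < R.card := by exact_mod_cast hT
    obtain ⟨w, hw, hwT⟩ := Finset.exists_mem_notMem_of_card_lt_card hT'
    rw [Finset.mem_union, not_or] at hwT
    refine ⟨w, hw, hwT.1, fun s hs => ?_⟩
    have hsw : Cl p G s(s, w) := by
      by_contra h
      apply hwT.2
      rw [Finset.mem_biUnion]
      refine ⟨s, hs, Finset.mem_filter.2 ⟨hRQ hw, ?_, h⟩⟩
      rintro rfl
      exact hwT.1 hs
    exact ⟨hsw, by rw [Sym2.eq_swap]; exact hsw⟩
  refine ⟨R, hRQ, ?_, ?_⟩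
  · intro u hu v hv
    obtain ⟨W, hWR, hWc, huW, hvW, h1, h2⟩ :=
      greedy (fun a b => Cl p G s(a, b)) R k hgr hu hv k le_rfl
    have c1 : Clq p G (insert u W) := Clq_insert (fun w hw => (h1 w hw).1) h2
    have c2 : Clq p G (insert v W) := Clq_insert (fun w hw => (h1 w hw).2.2.1) h2
    have n1 : k + 1 ≤ (insert u W).card := by
      rw [Finset.card_insert_of_notMem huW, hWc]
    have n2 : k + 1 ≤ (insert v W).card := by
      rw [Finset.card_insert_of_notMem hvW, hWc]
    have n3 : k ≤ (insert u W ∩ insert v W).card := by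
      have : W ⊆ insert u W ∩ insert v W := by
        intro w hw
        simp [hw]
      have := Finset.card_le_card this
      omega
    have h3 := ((hFRZ V k p hp G (insert u W) n1 c1).2.2.2.1 (insert v W) n2 c2 n3).2.1
    exact h3 u (by simp) v (by simp)
  · have e7 : 0 < δ * n := by positivity
    rw [hcard]
    linarith

end Pool.Agent.GRR
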