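import Pool.Agent.GRR.Stmts

/-! NGD: most vertices are good (MP_9e2625_co) -/

set_option autoImplicit false
set_option linter.unusedSectionVars false

open Finset
open scoped Classical

namespace Pool.Agent.GRR

namespace NGD_

/-- indicator -/
noncomputable def ind (P : Prop) : ℝ := if P then 1 else 0

theorem ind_nonneg (P : Prop) : 0 ≤ ind P := by
  unfold ind
  split_ifs <;> norm_num

theorem Pr_ind {α : Type} (π : ℝ) (D : Finset α) (A : Finset α → Prop) :
    Pr π D A = Ex π D (fun G => ind (A G)) := rfl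

section one
variable {V : Type} [Fintype V]

theorem star_sub (x : V) {U : Finset V} (hU : U ⊆ univ.erase x) :
    star x U ⊆ star x (univ.erase x) := by
  intro e he
  rw [mem_star] at he ⊢
  obtain ⟨u, hu, rfl⟩ := he
  exact ⟨u, hU hu, rfl⟩

theorem star_pairs (x : V) : star x (univ.erase x) ⊆ pairs V := by
  intro e he
  rw [mem_star] at he
  obtain ⟨u, hu, rfl⟩ := he
  rw [mem_pairs, Sym2.mk_isDiag_iff]
  exact (Ne.symm (Finset.ne_of_mem_erase hu))

theorem card_star (x : V) (U : Finset V) : (star x U).card = U.card := by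
  unfold star
  refine Finset.card_image_of_injective U (fun a b h => ?_)
  exact Sym2.congr_right.1 h

theorem nbr_star (x : V) {U : Finset V} (hU : U ⊆ univ.erase x) : nbr (star x U) x = U := by
  ext y
  rw [mem_nbr, mem_star]
  constructor
  · rintro ⟨_, u, hu, h⟩
    rw [Sym2.congr_right] at h
    rw [← h]
    exact hu
  · intro hy
    exact ⟨Finset.ne_of_mem_erase (hU hy), y, hy, rfl⟩

theorem star_nbr (x : V) {T : Finset (Sym2 V)} (hT : T ⊆ star x (univ.erase x)) :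
    star x (nbr T x) = T := by
  ext e
  rw [mem_star]
  constructor
  · rintro ⟨u, hu, rfl⟩
    rw [mem_nbr] at hu
    exact hu.2
  · intro he
    obtain ⟨u, hu, rfl⟩ := (mem_star _ _ _).1 (hT he)
    exact ⟨u, (mem_nbr _ _ _).2 ⟨Finset.ne_of_mem_erase hu, he⟩, rfl⟩

theorem nbr_sub (x : V) (T : Finset (Sym2 V)) : nbr T x ⊆ univ.erase x := by
  intro y hy
  rw [mem_nbr] at hy
  exact Finset.mem_erase.2 ⟨hy.1, mem_univ _⟩

theorem sdiff_eq (I : DecidableEq (Sym2 V)) (x : V) {G : Finset (Sym2 V)} (hG : G ⊆ pairs V) :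
    @SDiff.sdiff _ (@Finset.instSDiff _ I) G (star x (univ.erase x)) = del G x := by
  ext e
  rw [Finset.mem_sdiff, mem_del, mem_star]
  constructor
  · rintro ⟨he, hn⟩
    refine ⟨he, fun hx => hn ?_⟩
    obtain ⟨y, rfl⟩ := Sym2.mem_iff_exists.1 hx
    refine ⟨y, Finset.mem_erase.2 ⟨fun h => ?_, mem_univ _⟩, rfl⟩
    have := (mem_pairs _).1 (hG he)
    rw [Sym2.mk_isDiag_iff] at this
    exact this h.symm
  · rintro ⟨he, hx⟩
    refine ⟨he, ?_⟩
    rintro ⟨u, _, rfl⟩
    exact hx (Sym2.mem_mk_left _ _)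

theorem nbr_inter (I : DecidableEq (Sym2 V)) (x : V) (G : Finset (Sym2 V)) :
    nbr (@Inter.inter _ (@Finset.instInter _ I) G (star x (univ.erase x))) x = nbr G x := by
  ext y
  rw [mem_nbr, mem_nbr, Finset.mem_inter, mem_star]
  constructor
  · rintro ⟨h1, h2, _⟩
    exact ⟨h1, h2⟩
  · rintro ⟨h1, h2⟩
    exact ⟨h1, h2, y, Finset.mem_erase.2 ⟨h1, mem_univ _⟩, rfl⟩

theorem one_vertex (hiso : Stmt_ISO) {k : ℕ} (p : V → Fin k → ℝ) (g : ℕ) (π : ℝ) (h0 : 0 < π)
    (h1 : π < 1) (x : V) :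
    Pr π (pairs V) (fun G => ¬ GoodAt p g (del G x) (nbr G x)) ≤
      ∑ U ∈ (univ.erase x : Finset V).powerset, (π / (1 - π)) ^ U.card *
        Pr π (pairs V) (fun G => ¬ GoodAt p g G U) := by
  have key := hiso (Sym2 V) π (pairs V) (star x (univ.erase x)) h0 h1 (star_pairs x)
    (fun G T => ind (¬ GoodAt p g G (nbr T x)))
    (fun G _ U _ => ind_nonneg _)
  refine le_trans (le_of_eq ?_) (key.trans (le_of_eq ?_))
  · rw [Pr_ind]
    unfold Ex
    refine Finset.sum_congr rfl (fun G hG => ?_)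
    have hG' := Finset.mem_powerset.1 hG
    simp only
    rw [sdiff_eq _ x hG', nbr_inter]
  refine Finset.sum_bij' (fun T _ => nbr T x) (fun U _ => star x U) ?_ ?_ ?_ ?_ ?_
  · intro T _
    exact Finset.mem_powerset.2 (nbr_sub x T)
  · intro U hU
    exact Finset.mem_powerset.2 (star_sub x (Finset.mem_powerset.1 hU))
  · intro T hT
    exact star_nbr x (Finset.mem_powerset.1 hT)
  · intro U hU
    exact nbr_star x (Finset.mem_powerset.1 hU)
  · intro T hT
    have hc : (nbr T x).card = T.card := by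
      have h2 := card_star x (nbr T x)
      rw [star_nbr x (Finset.mem_powerset.1 hT)] at h2
      exact h2.symm
    rw [hc]
    rfl

end one

/-- small tails of the exponential series -/
theorem tail (c η : ℝ) (hc : 0 < c) (hη : 0 < η) :
    ∃ M : ℕ, ∀ n : ℕ, ∑ m ∈ (range (n + 1)).filter (fun m => M ≤ m),
      (2 * c) ^ m / (m.factorial : ℝ) ≤ η := by
  have hs : Summable (fun m : ℕ => (2 * c) ^ m / (m.factorial : ℝ)) :=
    Real.summable_pow_div_factorial _
  have ht := hs.hasSum.tendsto_sum_nat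
  have h1 : ∀ᶠ N in Filter.atTop, ∑' m : ℕ, (2 * c) ^ m / (m.factorial : ℝ) - η <
      ∑ i ∈ range N, (2 * c) ^ i / (i.factorial : ℝ) :=
    ht.eventually (lt_mem_nhds (by linarith))
  obtain ⟨M, hM⟩ := h1.exists
  refine ⟨M, fun n => ?_⟩
  have hd : Disjoint ((range (n + 1)).filter (fun m => M ≤ m)) (range M) := by
    rw [Finset.disjoint_left]
    intro m h2 h3
    have := (Finset.mem_filter.1 h2).2
    have := Finset.mem_range.1 h3
    omega
  have h4 := hs.sum_le_tsum ((range (n + 1)).filter (fun m => M ≤ m) ∪ range M)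
    (fun m _ => by positivity)
  rw [Finset.sum_union hd] at h4
  linarith

theorem per_m {c n : ℝ} (hn : 0 < n) (hc : 0 < c) (hnc : 2 * c ≤ n) (m : ℕ) :
    (c / n / (1 - c / n)) ^ m ≤ (2 * c) ^ m / n ^ m := by
  have h1 : c / n ≤ 1 / 2 := by
    rw [div_le_div_iff₀ hn (by norm_num)]
    linarith
  have h0 : 0 < c / n := by positivity
  rw [← div_pow]
  refine pow_le_pow_left₀ (by
    apply div_nonneg h0.le
    linarith) ?_ m
  rw [div_le_div_iff₀ (by linarith) hn]
  have e : c / n * n = c := by field_simp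
  rw [e]
  nlinarith

end NGD_

open NGD_ in
theorem ngd_proof (hgdp : Stmt_GDP) (hiso : Stmt_ISO) (hexb : Stmt_EXB) : Stmt_NGD := by
  intro k c γ δ hk hc hγ hδ ε hε
  obtain ⟨η, hη⟩ : ∃ η : ℝ, η = ε * δ / 2 := ⟨_, rfl⟩
  have hη0 : 0 < η := by rw [hη]; positivity
  obtain ⟨M, hM⟩ := tail c η hc hη0
  obtain ⟨C1, hC1⟩ : ∃ C1 : ℝ, C1 = ∑ m ∈ range M, (2 * c) ^ m := ⟨_, rfl⟩
  have hC10 : 0 ≤ C1 := by
    rw [hC1]
    exact Finset.sum_nonneg (fun m _ => by positivity)
  obtain ⟨ε1, hε1⟩ : ∃ ε1 : ℝ, ε1 = η / (C1 + 1) := ⟨_, rfl⟩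
  have hε10 : 0 < ε1 := by rw [hε1]; positivity
  have hg := fun m => hgdp k m c γ ε1 hk hc hγ hε10
  choose N hN using hg
  refine ⟨⌈2 * c⌉₊ + 1 + (range M).sup N, fun V _ p hp hn => ?_⟩
  obtain ⟨n, hnn⟩ : ∃ n : ℕ, n = Fintype.card V := ⟨_, rfl⟩
  have hn' : ⌈2 * c⌉₊ + 1 + (range M).sup N ≤ n := by rw [hnn]; exact hn
  have hn1 : 1 ≤ n := by omega
  have hnR : (0 : ℝ) < n := by exact_mod_cast hn1
  have hnc : 2 * c ≤ n := by
    have h1 := Nat.le_ceil (2 * c)
    have h2 : (⌈2 * c⌉₊ : ℝ) ≤ n := by exact_mod_cast (show ⌈2 * c⌉₊ ≤ n by omega)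
    linarith
  have hπ0 : 0 < c / (n : ℝ) := by positivity
  have hπ1 : c / (n : ℝ) < 1 := by
    rw [div_lt_one hnR]
    linarith
  obtain ⟨g, hgg⟩ : ∃ g : ℕ, g = ⌈γ * (Fintype.card V : ℝ)⌉₊ := ⟨_, rfl⟩
  have hγg : γ * (Fintype.card V : ℝ) ≤ g := by rw [hgg]; exact Nat.le_ceil _
  change Pr (c / (Fintype.card V : ℝ)) (pairs V) (fun G => ¬ (univ.filter (fun x =>
    ¬ GoodAt p ⌈γ * (Fintype.card V : ℝ)⌉₊ (del G x) (nbr G x))).card ≤
      ⌊δ * (Fintype.card V : ℝ)⌋₊) ≤ ε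
  rw [← hnn]
  obtain ⟨e1, e2, e3, e4, e5, e6, e7, e8, e9, e10⟩ := hexb (Sym2 V) (c / n) (pairs V) hπ0.le hπ1.le
  -- expectation of the number of bad vertices
  obtain ⟨a, ha⟩ : ∃ a : Finset V → ℝ, a = fun U =>
    Pr (c / (n : ℝ)) (pairs V) (fun G => ¬ GoodAt p g G U) := ⟨_, rfl⟩
  have ha0 : ∀ U, 0 ≤ a U := fun U => by rw [ha]; exact (e5 _).1
  have ha1 : ∀ U, a U ≤ 1 := fun U => by rw [ha]; exact (e5 _).2
  obtain ⟨B, hB⟩ : ∃ B : Finset (Sym2 V) → ℝ, B = fun G => ((univ.filter (fun x =>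
    ¬ GoodAt p g (del G x) (nbr G x))).card : ℝ) := ⟨_, rfl⟩
  have hE : Ex (c / (n : ℝ)) (pairs V) B =
      ∑ x ∈ (univ : Finset V), Pr (c / (n : ℝ)) (pairs V)
        (fun G => ¬ GoodAt p g (del G x) (nbr G x)) := by
    have h2 := e8 V univ (fun x G => ind (¬ GoodAt p g (del G x) (nbr G x)))
    have h3 : B = fun G => ∑ x ∈ (univ : Finset V), ind (¬ GoodAt p g (del G x) (nbr G x)) := by
      rw [hB]
      funext G
      rw [Finset.card_filter]
      push_cast
      refine Finset.sum_congr rfl (fun x _ => ?_)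
      unfold ind
      split_ifs <;> rfl
    rw [h3, h2]
    rfl
  have hr0 : 0 ≤ c / (n : ℝ) / (1 - c / n) := div_nonneg hπ0.le (by linarith)
  have hx : ∀ x : V, Pr (c / (n : ℝ)) (pairs V) (fun G => ¬ GoodAt p g (del G x) (nbr G x)) ≤
      ∑ U ∈ (univ : Finset V).powerset, (c / (n : ℝ) / (1 - c / n)) ^ U.card * a U := by
    intro x
    refine (one_vertex hiso p g _ hπ0 hπ1 x).trans ?_
    have : ∑ U ∈ (univ.erase x : Finset V).powerset, (c / (n : ℝ) / (1 - c / n)) ^ U.card *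
        Pr (c / (n : ℝ)) (pairs V) (fun G => ¬ GoodAt p g G U) =
        ∑ U ∈ (univ.erase x : Finset V).powerset, (c / (n : ℝ) / (1 - c / n)) ^ U.card * a U := by
      rw [ha]
    rw [this]
    refine Finset.sum_le_sum_of_subset_of_nonneg
      (Finset.powerset_mono.2 (Finset.erase_subset _ _)) (fun U _ _ => ?_)
    exact mul_nonneg (pow_nonneg hr0 _) (ha0 U)
  have hsum : ∑ U ∈ (univ : Finset V).powerset, (c / (n : ℝ) / (1 - c / n)) ^ U.card * a U ≤
      2 * η := by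
    rw [Finset.sum_powerset]
    have hcard : (univ : Finset V).card = n := by rw [hnn]; exact Finset.card_univ
    rw [hcard]
    have hm : ∀ m : ℕ, ∑ U ∈ powersetCard m (univ : Finset V),
        (c / (n : ℝ) / (1 - c / n)) ^ U.card * a U =
        (c / (n : ℝ) / (1 - c / n)) ^ m * ∑ U ∈ powersetCard m (univ : Finset V), a U := by
      intro m
      rw [Finset.mul_sum]
      refine Finset.sum_congr rfl (fun U hU => ?_)
      rw [(Finset.mem_powersetCard.1 hU).2]
    have hlow : ∀ m ∈ range M, ∑ U ∈ powersetCard m (univ : Finset V),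
        (c / (n : ℝ) / (1 - c / n)) ^ U.card * a U ≤ (2 * c) ^ m * ε1 := by
      intro m hmM
      rw [hm]
      have h2 : N m ≤ (range M).sup N := Finset.le_sup hmM
      have h3 := hN m V p hp (by omega) g hγg
      rw [← hnn] at h3
      have h4 : ∑ U ∈ powersetCard m (univ : Finset V), a U ≤ ε1 * (n : ℝ) ^ m := by
        rw [ha]
        exact h3
      have h5 : 0 ≤ ∑ U ∈ powersetCard m (univ : Finset V), a U :=
        Finset.sum_nonneg (fun U _ => ha0 U)
      calc (c / (n : ℝ) / (1 - c / n)) ^ m * ∑ U ∈ powersetCard m (univ : Finset V), a U ≤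
          ((2 * c) ^ m / (n : ℝ) ^ m) * (ε1 * (n : ℝ) ^ m) :=
            mul_le_mul (per_m hnR hc hnc m) h4 h5 (by positivity)
        _ = (2 * c) ^ m * ε1 := by field_simp
    have hhigh : ∀ m : ℕ, ∑ U ∈ powersetCard m (univ : Finset V),
        (c / (n : ℝ) / (1 - c / n)) ^ U.card * a U ≤ (2 * c) ^ m / (m.factorial : ℝ) := by
      intro m
      rw [hm]
      have h4 : ∑ U ∈ powersetCard m (univ : Finset V), a U ≤ (n : ℝ) ^ m / (m.factorial : ℝ) := by
        calc ∑ U ∈ powersetCard m (univ : Finset V), a U ≤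
            ∑ U ∈ powersetCard m (univ : Finset V), (1 : ℝ) :=
              Finset.sum_le_sum (fun U _ => ha1 U)
          _ = (n.choose m : ℝ) := by
              rw [Finset.sum_const, nsmul_eq_mul, mul_one, Finset.card_powersetCard, hcard]
          _ ≤ (n : ℝ) ^ m / (m.factorial : ℝ) := Nat.choose_le_pow_div m n
      have h5 : 0 ≤ ∑ U ∈ powersetCard m (univ : Finset V), a U :=
        Finset.sum_nonneg (fun U _ => ha0 U)
      calc (c / (n : ℝ) / (1 - c / n)) ^ m * ∑ U ∈ powersetCard m (univ : Finset V), a U ≤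
          ((2 * c) ^ m / (n : ℝ) ^ m) * ((n : ℝ) ^ m / (m.factorial : ℝ)) :=
            mul_le_mul (per_m hnR hc hnc m) h4 h5 (by positivity)
        _ = (2 * c) ^ m / (m.factorial : ℝ) := by field_simp
    have hnn' : ∀ m : ℕ, 0 ≤ ∑ U ∈ powersetCard m (univ : Finset V),
        (c / (n : ℝ) / (1 - c / n)) ^ U.card * a U := fun m =>
      Finset.sum_nonneg (fun U _ => mul_nonneg (pow_nonneg hr0 _) (ha0 U))
    rw [← Finset.sum_filter_add_sum_filter_not (range (n + 1)) (fun m => M ≤ m)]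
    have s1 : ∑ m ∈ (range (n + 1)).filter (fun m => M ≤ m),
        ∑ U ∈ powersetCard m (univ : Finset V), (c / (n : ℝ) / (1 - c / n)) ^ U.card * a U ≤ η :=
      (Finset.sum_le_sum (fun m _ => hhigh m)).trans (hM n)
    have s2 : ∑ m ∈ (range (n + 1)).filter (fun m => ¬ M ≤ m),
        ∑ U ∈ powersetCard m (univ : Finset V), (c / (n : ℝ) / (1 - c / n)) ^ U.card * a U ≤ η := by
      have h6 : (range (n + 1)).filter (fun m => ¬ M ≤ m) ⊆ range M := by
        intro m h7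
        have := (Finset.mem_filter.1 h7).2
        exact Finset.mem_range.2 (by omega)
      refine (Finset.sum_le_sum_of_subset_of_nonneg h6 (fun m _ _ => hnn' m)).trans ?_
      refine (Finset.sum_le_sum hlow).trans ?_
      rw [← Finset.sum_mul, ← hC1, hε1]
      rw [mul_div_assoc']
      rw [div_le_iff₀ (by positivity)]
      nlinarith
    linarith
  have hEle : Ex (c / (n : ℝ)) (pairs V) B ≤ n * (2 * η) := by
    rw [hE]
    have hcard : (univ : Finset V).card = n := by rw [hnn]; exact Finset.card_univ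
    refine (Finset.sum_le_sum (fun x _ => (hx x).trans hsum)).trans (le_of_eq ?_)
    rw [Finset.sum_const, nsmul_eq_mul, hcard]
  -- Markov
  have hfl : δ * n < (⌊δ * (n : ℝ)⌋₊ : ℝ) + 1 := Nat.lt_floor_add_one _
  have hpos : (0 : ℝ) < (⌊δ * (n : ℝ)⌋₊ : ℝ) + 1 := by positivity
  have hmk := e6 B ((⌊δ * (n : ℝ)⌋₊ : ℝ) + 1) hpos (fun G _ => by rw [hB]; positivity)
  have hfin : Pr (c / (n : ℝ)) (pairs V) (fun G => ¬ (univ.filter (fun x =>
      ¬ GoodAt p ⌈γ * (n : ℝ)⌉₊ (del G x) (nbr G x))).card ≤ ⌊δ * (n : ℝ)⌋₊) ≤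
      Pr (c / (n : ℝ)) (pairs V) (fun G => (⌊δ * (n : ℝ)⌋₊ : ℝ) + 1 ≤ B G) := by
    refine e3 _ _ (fun G _ h => ?_)
    rw [hB]
    simp only
    have hg' : g = ⌈γ * (n : ℝ)⌉₊ := by rw [hgg, hnn]
    rw [hg']
    rw [not_le] at h
    exact_mod_cast h
  refine hfin.trans (hmk.trans ?_)
  rw [div_le_iff₀ hpos]
  refine hEle.trans ?_
  have h9 : n * (2 * η) = ε * (δ * n) := by rw [hη]; ring
  rw [h9]
  exact mul_le_mul_of_nonneg_left hfl.le hε.le

end Pool.Agent.GRR
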