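import Pool.Agent.GRR.Stmts

/-!
# GRR : a free vertex moves in the direction of an isolated vertex
-/

set_option autoImplicit false

open Finset
open scoped Classical

namespace Pool.Agent.GRR

theorem nva_proof (h1 : Stmt_GNE) (h2 : Stmt_LIN) : Stmt_NVA := by
  intro V _ k p hp H Q x u hxH hux hX
  obtain ⟨X0, hX0, hu0⟩ := hX
  have hne : ∀ e ∈ H, ∀ i ∈ e, i ≠ x := fun e he i hi h => hxH e he (h ▸ hi)
  obtain ⟨Y, hY⟩ : ∃ Y, Y = Function.update X0 x 0 := ⟨_, rfl⟩
  have hYx : Y x = 0 := by rw [hY, Function.update_self]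
  have hYi : ∀ i, i ≠ x → Y i = X0 i := fun i hi => by rw [hY, Function.update_of_ne hi]
  obtain ⟨-, -, -, hL4, -⟩ := h2 V k p (insert x Q) H ∅
  obtain ⟨H', hH', hInd, hMot⟩ := hL4
  obtain ⟨q, hq⟩ : ∃ q, q = Function.update p x (p u + X0 u) := ⟨_, rfl⟩
  have hqx : q x = p u + X0 u := by rw [hq, Function.update_self]
  have hqi : ∀ i, i ≠ x → q i = p i := fun i hi => by rw [hq, Function.update_of_ne hi]
  have hell : ∀ (X : V → Fin k → ℝ), ∀ e ∈ H', ell q X e = ell p X e := fun X e he =>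
    ell_congr e (fun i hi => hqi i (hne e (hH' he) i hi)) (fun i _ => rfl)
  have hIndq : Ind q (insert x Q) H' ∅ := by
    intro ω θ h
    apply hInd ω θ
    intro X hX
    rw [← h X hX]
    congr 1
    exact Finset.sum_congr rfl fun e he => by rw [hell X e he]
  obtain ⟨-, hL2, -⟩ := h2 V k q (insert x Q) H' ∅
  have hYm : Y ∈ Mot q (insert x Q) H' := by
    rw [mem_Mot]
    constructor
    · intro i hi
      by_cases hix : i = x
      · rw [hix, hYx]
      · rw [hYi i hix]
        exact hX0.1 i ((Finset.mem_insert.1 hi).resolve_left hix)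
    · intro e he
      rw [hell Y e he, ← hX0.2 e (hH' he)]
      exact ell_congr e (fun i _ => rfl) (fun i hi => hYi i (hne e (hH' he) i hi))
  have hYe : ell q Y s(x, u) ≠ 0 := by
    rw [ell_mk, hYx, hqx, hqi u hux, hYi u hux, add_sub_cancel_left, zero_sub]
    intro h
    apply hu0
    apply dot_self_eq_zero
    have h3 : dot (X0 u) (-X0 u) = - dot (X0 u) (X0 u) := by
      have := dot_smul (X0 u) (X0 u) (-1)
      rw [neg_one_smul] at this
      rw [this]; ring
    rw [h3] at h
    linarith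
  have hI2 := h1 V k p q hp _ _ _ (hL2 s(x, u) hIndq ⟨Y, hYm, hYe⟩)
  obtain ⟨hL1, -⟩ := h2 V k p (insert x Q) (insert s(x, u) H') ∅
  obtain ⟨X, hX1, hX2, -⟩ := hL1 hI2 (fun e => if e = s(x, u) then 1 else 0) (fun _ => 0)
  have hXm : X ∈ Mot p (insert x Q) H' := by
    rw [mem_Mot]
    refine ⟨hX1, fun e he => ?_⟩
    rw [hX2 e (Finset.mem_insert_of_mem he), if_neg]
    rintro rfl
    exact hxH _ (hH' he) (Sym2.mem_mk_left x u)
  rw [hMot] at hXm
  refine ⟨X, Mot_mono p (Finset.subset_insert x Q) (subset_refl H) hXm,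
    hX1 x (Finset.mem_insert_self x Q), ?_⟩
  have h4 := hX2 s(x, u) (Finset.mem_insert_self _ _)
  rw [if_pos rfl, ell_mk, hX1 x (Finset.mem_insert_self x Q), zero_sub] at h4
  intro h5
  have h3 : dot (p x - p u) (-X u) = - dot (p x - p u) (X u) := by
    have := dot_smul (p x - p u) (X u) (-1)
    rw [neg_one_smul] at this
    rw [this]; ring
  rw [h3, h5] at h4
  norm_num at h4

end Pool.Agent.GRR
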