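import Pool.Agent.GRR.Stmts

set_option autoImplicit false

open Finset
open scoped Classical

namespace Pool.Agent.GRR

namespace SCI_

variable {V : Type} [Fintype V] {k : ℕ} {p : V → Fin k → ℝ}

lemma ind_restrict {B Y : Finset V} {E : Finset (Sym2 V)}
    (hE : ∀ e ∈ E, ∀ i ∈ e, i ∉ Y → i ∈ B) (h : Ind p B E ∅) : Ind p (univ \ Y) E ∅ := by
  intro ω θ hω
  refine ⟨(h ω 0 ?_).1, by simp⟩
  intro Z hZ
  have h1 := hω (fun i => if i ∈ Y then Z i else 0) (by
    intro i hi
    have : i ∉ Y := by simpa using hi
    simp [this])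
  simp only [sum_empty, add_zero] at h1 ⊢
  rw [← h1]
  refine sum_congr rfl (fun e he => ?_)
  congr 1
  refine ell_congr e (fun _ _ => rfl) (fun i hi => ?_)
  by_cases hiY : i ∈ Y
  · simp [hiY]
  · simp [hiY, hZ i (hE e he i hi hiY)]

lemma ind_anti {B B' : Finset V} {E : Finset (Sym2 V)} (hB : B ⊆ B') (h : Ind p B' E ∅) :
    Ind p B E ∅ := by
  intro ω θ hω
  exact h ω θ (fun X hX => hω X (fun i hi => hX i (hB hi)))

lemma ind_sub {B : Finset V} {E E' : Finset (Sym2 V)} (hE : E' ⊆ E) (h : Ind p B E ∅) :
    Ind p B E' ∅ := by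
  intro ω θ hω
  refine ⟨fun e he => ?_, by simp⟩
  have := (h (fun e => if e ∈ E' then ω e else 0) 0 (by
    intro X hX
    have h1 := hω X hX
    simp only [sum_empty, add_zero] at h1 ⊢
    refine Eq.trans ?_ h1
    symm
    refine sum_subset_zero_on_sdiff hE ?_ ?_
    · intro e he
      simp only [(mem_sdiff.1 he).2, if_false, zero_mul]
    · intro e he
      simp only [he, if_true])).1 e (hE he)
  simpa [he] using this

/-- a minimal dependent set carries a relation with all weights nonzero -/
lemma weights {B : Finset V} {C : Finset (Sym2 V)} (hC : ¬ Ind p B C ∅)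
    (hmin : ∀ e ∈ C, Ind p B (C.erase e) ∅) :
    ∃ ω : Sym2 V → ℝ, (∀ X : V → Fin k → ℝ, (∀ i ∈ B, X i = 0) → ∑ e ∈ C, ω e * ell p X e = 0) ∧
      ∀ e ∈ C, ω e ≠ 0 := by
  unfold Ind at hC
  push Not at hC
  obtain ⟨ω, θ, hω, hne⟩ := hC
  refine ⟨ω, fun X hX => by simpa using hω X hX, ?_⟩
  intro e he h0
  have h1 := (hmin e he ω 0 (by
    intro X hX
    have h2 := hω X hX
    simp only [sum_empty, add_zero] at h2 ⊢
    rw [← h2, ← add_sum_erase C _ he, h0]
    simp)).1
  obtain ⟨x, hx, -⟩ := hne (by
    intro f hf
    by_cases hfe : f = e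
    · rw [hfe, h0]
    · exact h1 f (mem_erase.2 ⟨hfe, hf⟩))
  simp at hx

end SCI_

open SCI_ in
theorem sci_proof (h1 : Stmt_HAL) (h2 : Stmt_SIA) (h3 : Stmt_LIN) (h4 : Stmt_STA) : Stmt_SCI := by
  intro V _ k hk p hp s G C B hG hspr hCG hs hn hdep hmin
  have hdiag : ∀ e ∈ C, ¬ e.IsDiag := fun e he => (mem_pairs e).1 (hG (hCG he))
  have hCne : C.Nonempty := by
    rw [nonempty_iff_ne_empty]
    rintro rfl
    exact hdep (fun ω θ _ => ⟨by simp, by simp⟩)
  obtain ⟨ω, hω, hω0⟩ := weights hdep hmin
  by_cases hA : ∃ e ∈ C, ∀ i ∈ e, i ∈ B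
  · obtain ⟨e, he, heB⟩ := hA
    have hC1 : C = {e} := by
      refine subset_antisymm ?_ (by simpa using he)
      intro f hf
      rw [mem_singleton]
      by_contra hfe
      have h5 := (hmin f hf (fun x => if x = e then 1 else 0) 0 (by
        intro X hX
        simp only [sum_empty, add_zero]
        refine sum_eq_zero (fun x _ => ?_)
        by_cases hx : x = e
        · have : ell p X e = ell p 0 e := ell_congr e (fun _ _ => rfl) (fun i hi => by
            simp [hX i (heB i hi)])
          rw [hx, this, ell_zero, mul_zero]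
        · simp [hx])).1 e (mem_erase.2 ⟨fun h => hfe h.symm, he⟩)
      simp at h5
    have hY : vts C \ B = ∅ := by
      rw [sdiff_eq_empty_iff_subset]
      intro v hv
      obtain ⟨f, hf, hvf⟩ := (mem_vts C v).1 hv
      rw [hC1, mem_singleton] at hf
      exact heB v (hf ▸ hvf)
    refine ⟨?_, ?_, ?_⟩
    · rw [hY, hC1]; simp
    · intro X _ y hy; rw [hY] at hy; simp at hy
    · intro y hy; rw [hY] at hy; simp at hy
  · push Not at hA
    set Y := vts C \ B with hYdef
    have hYB : ∀ e ∈ C, ∀ i ∈ e, i ∉ Y → i ∈ B := by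
      intro e he i hi hiY
      by_contra hiB
      exact hiY (mem_sdiff.2 ⟨(mem_vts C i).2 ⟨e, he, hi⟩, hiB⟩)
    have hBY : B ⊆ univ \ Y := by
      intro i hi
      simp only [mem_sdiff, mem_univ, true_and, hYdef]
      rintro ⟨_, h⟩
      exact h hi
    have hcompl : ∀ X : Finset V, univ \ (univ \ X) = X := by
      intro X; ext i; simp
    have hend : ∀ e ∈ C, ∃ y ∈ e, y ∈ Y := by
      intro e he
      obtain ⟨i, hi, hiB⟩ := hA e he
      exact ⟨i, hi, mem_sdiff.2 ⟨(mem_vts C i).2 ⟨e, he, hi⟩, hiB⟩⟩
    have hX : ∃ X ⊆ Y, k * X.card < (C.filter (fun e => (∀ i ∈ e, i ∈ Y → i ∈ X))).card := by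
      by_contra hcon
      push Not at hcon
      obtain ⟨y, hy, hyk⟩ := (h1 V k C Y).2 hcon
      apply hdep
      apply ind_anti hBY
      refine h2 Y.card V k hk p hp C Y rfl (hCG.trans hG) ?_ hn ⟨y, hy, hyk⟩
      -- sparseness
      have hother : ∀ e : Sym2 V, ∃ w : V, e ∈ C → ∀ v ∈ e, v ∉ Y → v = w := by
        intro e
        by_cases he : e ∈ C
        · obtain ⟨y, hye, hyY⟩ := hend e he
          induction e with
          | h a b =>
            rw [Sym2.mem_iff] at hye
            rcases hye with rfl | rfl
            · refine ⟨b, fun _ v hv hvY => ?_⟩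
              rw [Sym2.mem_iff] at hv
              rcases hv with rfl | rfl
              · exact absurd hyY hvY
              · rfl
            · refine ⟨a, fun _ v hv hvY => ?_⟩
              rw [Sym2.mem_iff] at hv
              rcases hv with rfl | rfl
              · rfl
              · exact absurd hyY hvY
        · obtain ⟨f, hf⟩ := hCne
          obtain ⟨y, _, _⟩ := hend f hf
          exact ⟨y, fun h => absurd h he⟩
      choose o ho using hother
      have hCk : C.card ≤ k * Y.card := by
        have := hcon Y (subset_refl _)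
        rwa [filter_true_of_mem (fun e _ i _ h => h)] at this
      have hvts : (vts C).card ≤ s := by
        have hsub : vts C ⊆ Y ∪ C.image o := by
          intro v hv
          obtain ⟨e, he, hve⟩ := (mem_vts C v).1 hv
          by_cases hvY : v ∈ Y
          · exact mem_union_left _ hvY
          · exact mem_union_right _ (mem_image.2 ⟨e, he, (ho e he v hve hvY).symm⟩)
        calc (vts C).card ≤ (Y ∪ C.image o).card := card_le_card hsub
          _ ≤ Y.card + (C.image o).card := card_union_le _ _
          _ ≤ Y.card + C.card := Nat.add_le_add_left card_image_le _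
          _ ≤ Y.card + k * Y.card := Nat.add_le_add_left hCk _
          _ = (k + 1) * Y.card := by ring
          _ ≤ s := hs
      intro S
      have h5 : sub C S ⊆ sub G (S ∩ vts C) := by
        intro e he
        obtain ⟨heC, heS⟩ := (mem_sub C S e).1 he
        exact (mem_sub G _ e).2 ⟨hCG heC, fun i hi => mem_inter.2 ⟨heS i hi,
          (mem_vts C i).2 ⟨e, heC, hi⟩⟩⟩
      have h6 := hspr (S ∩ vts C) ((card_le_card inter_subset_right).trans hvts)
      have h7 := card_le_card h5
      have h8 : (S ∩ vts C).card ≤ S.card := card_le_card inter_subset_left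
      omega
    obtain ⟨X, hXY, hXk⟩ := hX
    set CX := C.filter (fun e => (∀ i ∈ e, i ∈ Y → i ∈ X)) with hCX
    have hCXdep : ¬ Ind p B CX ∅ := by
      intro hind
      have h5 : Ind p (univ \ X) CX ∅ := ind_restrict (by
        intro e he i hi hiX
        rw [hCX, mem_filter] at he
        exact hYB e he.1 i hi (fun h => hiX (he.2 i hi h))) hind
      have h6 := ((h3 V k p (univ \ X) CX ∅).2.2.2.2.1).1 h5
      rw [hcompl] at h6
      omega
    have hCXC : CX = C := by
      refine subset_antisymm (filter_subset _ _) ?_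
      intro e he
      by_contra hne
      exact hCXdep (ind_sub (fun f hf => mem_erase.2 ⟨by rintro rfl; exact hne hf,
        (mem_filter.1 hf).1⟩) (hmin e he))
    have hXeq : X = Y := by
      refine subset_antisymm hXY ?_
      intro y hy
      obtain ⟨e, he, hye⟩ := (mem_vts C y).1 (mem_sdiff.1 hy).1
      have : e ∈ CX := by rw [hCXC]; exact he
      exact (mem_filter.1 this).2 y hye hy
    rw [hCXC, hXeq] at hXk
    obtain ⟨e0, he0⟩ := hCne
    have h5 : Ind p (univ \ Y) (C.erase e0) ∅ :=
      ind_restrict (fun e he i hi hiY => hYB e (mem_erase.1 he).2 i hi hiY) (hmin e0 he0)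
    have h6 := ((h3 V k p (univ \ Y) (C.erase e0) ∅).2.2.2.2.1).1 h5
    rw [hcompl, card_erase_of_mem he0] at h6
    have hcard : C.card = k * Y.card + 1 := by omega
    have hfin : Module.finrank ℝ (Mot p (univ \ Y) (C.erase e0)) = 0 := by omega
    have hbot : Mot p (univ \ Y) (C.erase e0) = ⊥ := Submodule.finrank_eq_zero.1 hfin
    refine ⟨hcard, ?_, ?_⟩
    · intro Z hZ y hy
      have hZ' : (fun i => if i ∈ Y then Z i else 0) ∈ Mot p (univ \ Y) (C.erase e0) := by
        refine ⟨fun i hi => ?_, fun e he => ?_⟩
        · have : i ∉ Y := by simpa using hi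
          simp [this]
        · rw [← hZ.2 e (mem_erase.1 he).2]
          refine ell_congr e (fun _ _ => rfl) (fun i hi => ?_)
          by_cases hiY : i ∈ Y
          · simp [hiY]
          · simp [hiY, hZ.1 i (hYB e (mem_erase.1 he).2 i hi hiY)]
      rw [hbot, Submodule.mem_bot] at hZ'
      have := congrFun hZ' y
      simpa [hy] using this
    · intro y hy
      by_contra hlt
      have hle : (nbr C y).card ≤ k := by omega
      obtain ⟨e, he, hye⟩ := (mem_vts C y).1 (mem_sdiff.1 hy).1
      obtain ⟨t1, rfl⟩ := Sym2.mem_iff_exists.1 hye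
      have ht1 : t1 ≠ y := by
        intro h
        apply hdiag _ he
        rw [h]; simp
      have ht1n : t1 ∈ nbr C y := (mem_nbr C y t1).2 ⟨ht1, he⟩
      obtain ⟨D, hD⟩ := (h4 V k p hp y (nbr C y) (by simp [mem_nbr])).1 hle
        (fun t => if t = t1 then 1 else 0)
      have h7 := hω (fun i => if i = y then D else 0) (by
        intro i hi
        have : i ≠ y := by
          rintro rfl
          exact (mem_sdiff.1 hy).2 hi
        simp [this])
      rw [sum_eq_single s(y, t1)] at h7
      · rw [ell_mk] at h7
        simp only [if_true, ht1, if_false, sub_zero] at h7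
        rw [hD t1 ht1n] at h7
        simp only [if_true, mul_one] at h7
        exact hω0 _ he h7
      · intro f hf hne
        by_cases hyf : y ∈ f
        · obtain ⟨t, rfl⟩ := Sym2.mem_iff_exists.1 hyf
          have hty : t ≠ y := by
            intro h
            apply hdiag _ hf
            rw [h]; simp
          have htt : t ≠ t1 := by
            rintro rfl
            exact hne rfl
          rw [ell_mk]
          simp only [if_true, hty, if_false, sub_zero]
          rw [hD t ((mem_nbr C y t).2 ⟨hty, hf⟩)]
          simp [htt]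
        · have : ell p (fun i => if i = y then D else 0) f = ell p 0 f :=
            ell_congr f (fun _ _ => rfl) (fun i hi => by
              have : i ≠ y := by rintro rfl; exact hyf hi
              simp [this])
          rw [this, ell_zero, mul_zero]
      · intro h; exact absurd he h

end Pool.Agent.GRR
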