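import Pool.Agent.GRR.Stmts
import Pool.Agent.GRR.SCI

set_option autoImplicit false

open Finset
open scoped Classical

namespace Pool.Agent.GRR

namespace OUT_

variable {V : Type} [Fintype V] {k : ℕ} {p : V → Fin k → ℝ}

lemma exists_min {B : Finset V} {E : Finset (Sym2 V)} (hE : ¬ Ind p B E ∅) :
    ∃ C ⊆ E, ¬ Ind p B C ∅ ∧ ∀ e ∈ C, Ind p B (C.erase e) ∅ := by
  induction E using Finset.strongInduction with
  | _ E ih =>
    by_cases h : ∀ e ∈ E, Ind p B (E.erase e) ∅
    · exact ⟨E, subset_refl _, hE, h⟩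
    · push Not at h
      obtain ⟨e, he, hne⟩ := h
      obtain ⟨C, hC, h1, h2⟩ := ih (E.erase e) (erase_ssubset he) hne
      exact ⟨C, hC.trans (erase_subset _ _), h1, h2⟩

lemma decomp {G : Finset (Sym2 V)} (hG : G ⊆ pairs V) (x : V) : del G x ∪ star x (nbr G x) = G := by
  ext e
  rw [mem_union, mem_del, mem_star]
  constructor
  · rintro (h | ⟨u, hu, rfl⟩)
    · exact h.1
    · exact ((mem_nbr G x u).1 hu).2
  · intro he
    by_cases hx : x ∈ e
    · right
      obtain ⟨u, rfl⟩ := Sym2.mem_iff_exists.1 hx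
      refine ⟨u, (mem_nbr G x u).2 ⟨?_, he⟩, rfl⟩
      rintro rfl
      exact (mem_pairs _).1 (hG he) (by simp)
    · exact Or.inl ⟨he, hx⟩

end OUT_

open OUT_ in
theorem out_proof (h1 : Stmt_SUB) (h2 : Stmt_CVA) (h3 : Stmt_CVB) (h4 : Stmt_SCI)
    (_h5 : Stmt_FRZ) (_h6 : Stmt_LIN) : Stmt_OUT := by
  intro V _ k hk p hp G s g t hGG Q hQ
  have hGsub := hGG.sub
  by_contra hdep0
  obtain ⟨C, hCsub, hdep, hmin⟩ := exists_min hdep0
  have hCG : C ⊆ G := hCsub.trans sdiff_subset
  obtain ⟨ω, hω, hω0⟩ := SCI_.weights hdep hmin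
  obtain ⟨hfrQ, hsub⟩ := h1 V k hk p hp G s g t hGG Q hQ
  have hn2 := hGG.n2
  have hn3 := hGG.n3
  have hn4 := hGG.n4
  have hbig := hGG.big
  -- every vertex of `vts C \ Q` is not good
  have hbad : ∀ x ∈ vts C \ Q, ¬ GoodAt p g (del G x) (nbr G x) := by
    intro x hx hgood
    obtain ⟨hxC, hxQ⟩ := mem_sdiff.1 hx
    obtain ⟨Q', hQ'Q, hxQ', hclq, hcard, hg, hfr, hfr'⟩ := hsub x
    obtain ⟨hDec, hGen⟩ := hgood Q' hg hclq
    have hxH : ∀ e ∈ del G x, x ∉ e := fun e he => ((mem_del G x e).1 he).2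
    have hHsub : del G x ⊆ pairs V := fun e he => hGsub ((mem_del G x e).1 he).1
    have hxU : x ∉ nbr G x := by simp [mem_nbr]
    have hk1 : k + 1 ≤ Q'.card := by omega
    by_cases hU : k ≤ (nbr G x ∩ fr p Q' (del G x)).card
    · have := (h2 V k p hp (del G x) Q' (nbr G x) x hHsub hxH hk1 hxQ' hclq hxU hDec hU).1
      rw [decomp hGsub x, hfr] at this
      exact hxQ this
    · obtain ⟨hμ, hz⟩ := h3 V k hk p hp (del G x) Q' (nbr G x) x hHsub hxH hk1 hxQ' hclq hxU hDec
        hGen (by omega)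
      rw [decomp hGsub x] at hz
      have hQQ' : Q ⊆ Q' := by
        intro z hz0
        have hz1 : z ∈ fr p Q' G := by rw [hfr]; exact hz0
        have hz2 : z ∈ fr p Q' (del G x) := by
          rw [mem_fr] at hz1 ⊢
          by_contra hcon
          push Not at hcon
          obtain ⟨X, hX, hXz⟩ := hz z hcon
          exact hXz (hz1 X hX)
        rwa [hfr'] at hz2
      have hQeq : Q' = Q := subset_antisymm hQ'Q hQQ'
      subst hQeq
      have h7 := hμ (fun u => if s(x, u) ∈ C then ω s(x, u) else 0) (by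
        intro X hX
        have h8 := hω X hX.1
        -- the sum over the edges of C through x
        have h9 : ∑ e ∈ C, ω e * ell p X e =
            ∑ e ∈ C.filter (fun e => x ∈ e), ω e * ell p X e := by
          rw [sum_filter]
          refine sum_congr rfl (fun e he => ?_)
          by_cases hxe : x ∈ e
          · simp [hxe]
          · simp only [hxe, if_false]
            rw [hX.2 e ((mem_del G x e).2 ⟨hCG he, hxe⟩), mul_zero]
        rw [h9] at h8
        refine Eq.trans ?_ h8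
        have h10 : ∀ u ∈ nbr G x, (if s(x, u) ∈ C then ω s(x, u) else 0) * ell p X s(x, u) =
            if s(x, u) ∈ C then ω s(x, u) * ell p X s(x, u) else 0 := by
          intro u _
          split_ifs <;> simp
        rw [sum_congr rfl h10, ← sum_filter]
        refine sum_bij (fun u _ => s(x, u)) ?_ ?_ ?_ ?_
        · intro u hu
          rw [mem_filter] at hu ⊢
          exact ⟨hu.2, by simp⟩
        · intro u _ v _ huv
          exact Sym2.congr_right.1 huv
        · intro e he
          rw [mem_filter] at he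
          obtain ⟨u, rfl⟩ := Sym2.mem_iff_exists.1 he.2
          refine ⟨u, mem_filter.2 ⟨(mem_nbr G x u).2 ⟨?_, hCG he.1⟩, he.1⟩, rfl⟩
          rintro rfl
          exact (mem_pairs _).1 (hGsub (hCG he.1)) (by simp)
        · intro u _
          rfl)
      obtain ⟨e, he, hxe⟩ := (mem_vts C x).1 hxC
      obtain ⟨u, rfl⟩ := Sym2.mem_iff_exists.1 hxe
      have hux : u ≠ x := by
        rintro rfl
        exact (mem_pairs _).1 (hGsub (hCG he)) (by simp)
      have h11 := h7 u ((mem_nbr G x u).2 ⟨hux, hCG he⟩)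
      simp only [he, if_true] at h11
      exact hω0 _ he h11
  have hYt : (vts C \ Q).card ≤ t := by
    refine le_trans (card_le_card ?_) hGG.few
    intro x hx
    exact mem_filter.2 ⟨mem_univ _, hbad x hx⟩
  have hs : (k + 1) * (vts C \ Q).card ≤ s := by
    have : (k + 1) * (vts C \ Q).card ≤ (k + 1) * t := Nat.mul_le_mul_left _ hYt
    nlinarith
  have hn : (2 * k + 2) * (vts C \ Q).card ≤ Fintype.card V := by
    have : (2 * k + 2) * (vts C \ Q).card ≤ (2 * k + 2) * t := Nat.mul_le_mul_left _ hYt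
    nlinarith
  obtain ⟨-, hvan, -⟩ := h4 V k hk p hp s G C Q hGsub hGG.spr hCG hs hn hdep hmin
  have hvts : vts C ⊆ Q := by
    intro v hv
    by_contra hvQ
    apply hvQ
    rw [← hfrQ, mem_fr]
    intro X hX
    exact hvan X (Mot_mono p (subset_refl _) hCG hX) v (mem_sdiff.2 ⟨hv, hvQ⟩)
  have hCe : C = ∅ := by
    rw [eq_empty_iff_forall_notMem]
    intro e he
    have h12 := mem_sdiff.1 (hCsub he)
    exact h12.2 ((mem_sub G Q e).2 ⟨h12.1, fun i hi => hvts ((mem_vts C i).2 ⟨e, he, hi⟩)⟩)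
  rw [hCe] at hdep
  exact hdep (fun ω θ _ => ⟨by simp, by simp⟩)

end Pool.Agent.GRR
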