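import Pool.Agent.GRR.Stmts

/-!
# GRR, module PEL: the redundant subgraph is rigid
-/

set_option autoImplicit false

open Finset
open scoped Classical

namespace Pool.Agent.GRR

namespace PEL_

variable {V : Type} [Fintype V] {k : ℕ}

lemma sub_subset (G : Finset (Sym2 V)) (S : Finset V) : sub G S ⊆ G :=
  fun _ he => ((mem_sub _ _ _).1 he).1

lemma sub_mono (G : Finset (Sym2 V)) {S T : Finset V} (h : S ⊆ T) : sub G S ⊆ sub G T := by
  intro e he
  rw [mem_sub] at he ⊢
  exact ⟨he.1, fun i hi => h (he.2 i hi)⟩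

/-- a clique together with a pinned set: the edge `b` is in the closure -/
lemma cl_of_pin (hTRI : Stmt_TRI) (p : V → Fin k → ℝ) (hp : Gnr p)
    (E : Finset (Sym2 V)) (A Z : Finset V) (hA : k + 1 ≤ A.card) (hAc : Clq p E A)
    (hE : ∀ e ∈ E, ∀ i ∈ e, i ∈ A ∨ i ∈ Z) (hbot : Mot p (univ \ Z) E = ⊥)
    (b : Sym2 V) (hb : ∀ i ∈ b, i ∈ A ∨ i ∈ Z) : Cl p E b := by
  intro X hX
  obtain ⟨Y, hY1, hY2, -⟩ := hTRI V k p hp A hA X (fun i hi j hj => hAc i hi j hj X hX)
  have hagree : ∀ i, i ∈ A ∨ i ∈ Z → (fun j => if j ∈ Z then X j - Y j else 0) i = (X - Y) i := by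
    intro i hi
    by_cases hz : i ∈ Z
    · simp [hz]
    · have hiA : i ∈ A := by
        rcases hi with h | h
        · exact h
        · exact absurd h hz
      simp [hz, hY2 i hiA]
  have hW : (fun j => if j ∈ Z then X j - Y j else 0) ∈ Mot p (univ \ Z) E := by
    rw [mem_Mot]
    refine ⟨?_, ?_⟩
    · intro i hi
      have hi' : i ∉ Z := by simpa using hi
      simp [hi']
    · intro e he
      rw [ell_congr (p := p) (p' := p) (X' := X - Y) e (fun _ _ => rfl)
        (fun i hi => hagree i (hE e he i hi))]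
      rw [ell_sub, hY1, ((mem_Mot _ _ _ _).1 hX).2 e he, sub_zero]
  rw [hbot, Submodule.mem_bot] at hW
  rw [ell_congr (p := p) (p' := p) (X' := Y) b (fun _ _ => rfl)]
  · exact hY1 b
  · intro i hi
    have h1 := hagree i (hb i hi)
    rw [hW] at h1
    have h2 : X i - Y i = 0 := by
      simpa using h1.symm
    exact sub_eq_zero.1 h2

lemma inc_erase (G : Finset (Sym2 V)) (b : Sym2 V) (X : Finset V) :
    (inc G X).card ≤ (inc (G.erase b) X).card + 1 := by
  have h : inc G X ⊆ insert b (inc (G.erase b) X) := by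
    intro e he
    rw [mem_inc] at he
    rw [Finset.mem_insert, mem_inc, Finset.mem_erase]
    by_cases hb : e = b
    · exact Or.inl hb
    · exact Or.inr ⟨⟨hb, he.1⟩, he.2⟩
  exact (card_le_card h).trans (card_insert_le _ _)

end PEL_

open PEL_ in
theorem pel_proof (h1 : Stmt_INS) (h2 : Stmt_TIG) (h3 : Stmt_SRG) (h4 : Stmt_RDF) (_h5 : Stmt_SUB)
    (_h6 : Stmt_FRZ) (h7 : Stmt_TRI) (h8 : Stmt_BIG) : Stmt_PEL := by
  intro V _ k hk p hp G s g t hGG hne Q hQ
  obtain ⟨hcl, hred⟩ := h1 V k hk p hp G s g t hGG Q hQ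
  obtain ⟨hr1, hr2, -, -, -⟩ := h4 V k p hp G hGG.sub
  obtain ⟨hbig, -⟩ := h8 V k hk p hp s G hGG.sub hGG.spr hne
  -- the family
  obtain ⟨Q', hQ'mem, hmin⟩ := Finset.exists_min_image
    (univ.filter (fun Q' : Finset V => Q' ⊆ Q ∧ Clq p (sub G Q') Q' ∧ Red p G ⊆ sub G Q')) card
    ⟨Q, mem_filter.2 ⟨mem_univ _, subset_refl _, hcl, hred⟩⟩
  obtain ⟨-, hQ'Q, hQ'c, hQ'r⟩ := mem_filter.1 hQ'mem
  have hvts : vts (Red p G) ⊆ Q' := by
    intro v hv
    obtain ⟨e, he, hve⟩ := (mem_vts _ _).1 hv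
    exact ((mem_sub _ _ _).1 (hQ'r he)).2 v hve
  have hQ'card : s < Q'.card := lt_of_lt_of_le hbig (card_le_card hvts)
  have hs := hGG.n3
  have hsub : sub G Q' ⊆ Red p G := by
    intro b hb
    by_contra hbr
    obtain ⟨v, hvb⟩ : ∃ v, v ∈ b := by
      induction b with
      | h i j => exact ⟨i, by simp⟩
    obtain ⟨-, hsubv⟩ := _h5 V k hk p hp G s g t hGG Q hQ
    obtain ⟨Qv, hQvQ, -, hQvc, hQvcard, -, -, -⟩ := hsubv v
    -- the two parts
    have hZcard : (Q' \ Qv).card ≤ t := by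
      have ha : (Q' \ Qv).card ≤ (Q \ Qv).card := card_le_card (sdiff_subset_sdiff hQ'Q (subset_refl _))
      have hb2 : (Q \ Qv).card + Qv.card = Q.card := card_sdiff_add_card_eq_card hQvQ
      omega
    have hpart : (Q' \ Qv).card + (Q' ∩ Qv).card = Q'.card := card_sdiff_add_card_inter Q' Qv
    have hkt : t ≤ (k + 2) * t := Nat.le_mul_of_pos_left t (by omega)
    have hexp : (k + 2) * (t + 1) + 2 = (k + 2) * t + (k + 2) + 2 := by ring
    have hAcard : k + 1 ≤ (Q' ∩ Qv).card := by omega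
    have hAc : Clq p ((sub G Q').erase b) (Q' ∩ Qv) := by
      intro i hi j hj
      have hi' := mem_inter.1 hi
      have hj' := mem_inter.1 hj
      have hx := hr2 (sub G Q') (sub_subset G Q') hQ'r {b} s(i, j) (hQ'c i hi'.1 j hj'.1)
        (Cl_mono (G := del G v) (by
          intro e he
          rw [mem_del] at he
          rw [Finset.mem_sdiff, Finset.mem_singleton]
          refine ⟨he.1, ?_⟩
          rintro rfl
          exact he.2 hvb) (hQvc i hi'.2 j hj'.2))
      rwa [Finset.sdiff_singleton_eq_erase] at hx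
    have hcover : ∀ i ∈ Q', i ∈ Q' ∩ Qv ∨ i ∈ Q' \ Qv := by
      intro i hi
      by_cases hq : i ∈ Qv
      · exact Or.inl (mem_inter.2 ⟨hi, hq⟩)
      · exact Or.inr (mem_sdiff.2 ⟨hi, hq⟩)
    by_cases hall : ∀ X ⊆ Q' \ Qv, k * X.card ≤ (inc ((sub G Q').erase b) X).card
    · -- case 1
      have hbot := h3 V k hk p hp s G ((sub G Q').erase b) (Q' \ Qv) hGG.sub hGG.spr
        ((erase_subset _ _).trans (sub_subset G Q'))
        (by
          have e1 : (k + 1) * (Q' \ Qv).card ≤ (k + 1) * t := Nat.mul_le_mul_left _ hZcard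
          have e2 : (k + 1) * t ≤ (k + 2) * t := Nat.mul_le_mul_right _ (by omega)
          omega)
        (by
          have e1 : (2 * k + 2) * (Q' \ Qv).card ≤ (2 * k + 2) * t := Nat.mul_le_mul_left _ hZcard
          have e2 : (2 * k + 2) * t ≤ (2 * k + 3) * (t + 1) := Nat.mul_le_mul (by omega) (by omega)
          have e3 := hGG.n4
          omega)
        hall
      have hclb : Cl p ((sub G Q').erase b) b := by
        refine cl_of_pin h7 p hp _ (Q' ∩ Qv) (Q' \ Qv) hAcard hAc ?_ hbot b ?_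
        · intro e he i hi
          exact hcover i (((mem_sub _ _ _).1 (mem_of_mem_erase he)).2 i hi)
        · intro i hi
          exact hcover i (((mem_sub _ _ _).1 hb).2 i hi)
      apply hbr
      rw [mem_Red]
      exact ⟨sub_subset G Q' hb, Cl_mono (erase_subset_erase _ (sub_subset G Q')) hclb⟩
    · -- case 2
      push Not at hall
      obtain ⟨X, hXZ, hXlt⟩ := hall
      have hXQ' : X ⊆ Q' := hXZ.trans sdiff_subset
      have hXcard : X.card ≤ t := (card_le_card hXZ).trans hZcard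
      have hXne : X.Nonempty := by
        rw [nonempty_iff_ne_empty]
        rintro rfl
        simp at hXlt
      have hdiff : (Q' \ X).card + X.card = Q'.card := card_sdiff_add_card_eq_card hXQ'
      have hXpos : 0 < X.card := hXne.card_pos
      obtain ⟨ht1, ht2⟩ := h2 V k (by omega) p hp G Q' X hGG.sub hXQ' hQ'c (by omega)
      have hie := inc_erase (sub G Q') b X
      obtain ⟨ht3, ht4⟩ := ht2 (by omega)
      have hnew : Red p G ⊆ sub G (Q' \ X) := by
        intro e he
        have he' := (mem_sub _ _ _).1 (hQ'r he)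
        rw [mem_sub]
        refine ⟨he'.1, fun i hi => ?_⟩
        rw [mem_sdiff]
        refine ⟨he'.2 i hi, fun hiX => ?_⟩
        refine ht4 e ((mem_inc _ _ _).2 ⟨hQ'r he, i, hiX, hi⟩) ?_
        exact Cl_mono (erase_subset_erase _ hQ'r) (hr1 e he)
      have hle := hmin (Q' \ X) (mem_filter.2 ⟨mem_univ _, sdiff_subset.trans hQ'Q, ht3, hnew⟩)
      omega
  have heq : Red p G = sub G Q' := subset_antisymm hQ'r hsub
  refine ⟨hvts.trans hQ'Q, ?_, ?_⟩
  · apply subset_antisymm
    · intro e he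
      rw [mem_sub]
      exact ⟨((mem_Red _ _ _).1 he).1, fun i hi => (mem_vts _ _).2 ⟨e, he, hi⟩⟩
    · exact (sub_mono G hvts).trans hsub
  · rw [heq] at hvts ⊢
    exact Clq_mono (subset_refl _) hvts hQ'c

end Pool.Agent.GRR
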