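import Pool.Agent.GRR.Stmts

/-!
# PRB: the probability of the problem is `Pr`
-/

set_option autoImplicit false

open Finset
open scoped Classical

namespace Pool.Agent.GRR

namespace PRB_

lemma edgeFinset_sub {n : ℕ} (G : SimpleGraph (Fin n)) : G.edgeFinset ⊆ pairs (Fin n) := by
  intro e he
  rw [mem_pairs]
  exact G.not_isDiag_of_mem_edgeSet (SimpleGraph.mem_edgeFinset.1 he)

lemma from_edge {n : ℕ} (G : SimpleGraph (Fin n)) :
    SimpleGraph.fromEdgeSet (↑G.edgeFinset : Set (Sym2 (Fin n))) = G := by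
  rw [SimpleGraph.coe_edgeFinset, SimpleGraph.fromEdgeSet_edgeSet]

lemma edge_from {n : ℕ} (S : Finset (Sym2 (Fin n))) (hS : S ⊆ pairs (Fin n))
    [Fintype (SimpleGraph.fromEdgeSet (↑S : Set (Sym2 (Fin n)))).edgeSet] :
    (SimpleGraph.fromEdgeSet (↑S : Set (Sym2 (Fin n)))).edgeFinset = S := by
  ext e
  rw [SimpleGraph.mem_edgeFinset, SimpleGraph.edgeSet_fromEdgeSet]
  constructor
  · rintro ⟨h, _⟩
    exact h
  · intro h
    refine ⟨h, ?_⟩
    have := hS h
    rw [mem_pairs] at this
    exact this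

lemma edge_from' {n : ℕ} (S : Finset (Sym2 (Fin n))) (hS : S ⊆ pairs (Fin n))
    (inst : Fintype (SimpleGraph.fromEdgeSet (↑S : Set (Sym2 (Fin n)))).edgeSet) :
    @SimpleGraph.edgeFinset (Fin n) (SimpleGraph.fromEdgeSet (↑S : Set (Sym2 (Fin n)))) inst = S :=
  edge_from S hS

lemma card_pairs (n : ℕ) : (pairs (Fin n)).card = n.choose 2 := by
  have h := Sym2.card_subtype_not_diag (α := Fin n)
  rw [Fintype.card_fin] at h
  rw [← h, Fintype.card_subtype]
  exact congrArg _ (by ext e; simp [mem_pairs])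

lemma prob_eq (n : ℕ) (π : ℝ) (A : SimpleGraph (Fin n) → Prop) :
    Problem.prob n π A =
      Pr π (pairs (Fin n)) (fun S => A (SimpleGraph.fromEdgeSet (↑S : Set (Sym2 (Fin n))))) := by
  unfold Problem.prob Pr Ex
  refine Finset.sum_bij' (fun G _ => G.edgeFinset)
    (fun S _ => SimpleGraph.fromEdgeSet (↑S : Set (Sym2 (Fin n)))) ?_ ?_ ?_ ?_ ?_
  · intro G _
    exact mem_powerset.2 (edgeFinset_sub G)
  · intro S _
    exact mem_univ _
  · intro G _
    exact from_edge G
  · intro S hS
    exact edge_from' S (mem_powerset.1 hS) _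
  · intro G _
    simp only [from_edge, wt, card_pairs]
    by_cases h : A G
    · simp [h]
    · simp [h]

end PRB_

theorem prb_proof (h1 : Stmt_EXB) : Stmt_PRB := by
  intro n π A B h0 h1' hAB
  obtain ⟨hone, _, _, hunion, hpr, _⟩ := h1 (Sym2 (Fin n)) π (pairs (Fin n)) h0 h1'
  rw [PRB_.prob_eq]
  refine ⟨?_, (hpr _).2⟩
  have h2 := hunion (fun _ => True)
    (fun S => A (SimpleGraph.fromEdgeSet (↑S : Set (Sym2 (Fin n))))) B (by
      intro S hS _
      by_cases h : A (SimpleGraph.fromEdgeSet (↑S : Set (Sym2 (Fin n))))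
      · exact Or.inl h
      · right
        have := hAB _ h
        rw [PRB_.edge_from' S hS _] at this
        exact this)
  have h3 : Pr π (pairs (Fin n)) (fun _ => True) = 1 := by
    refine Eq.trans ?_ hone
    unfold Pr
    congr 1
    funext S
    exact if_pos trivial
  rw [h3] at h2
  linarith

end Pool.Agent.GRR
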