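import Pool.Agent.GRR.Stmts

/-!
# RDF: redundant edges
-/

set_option autoImplicit false

open Finset
open scoped Classical

namespace Pool.Agent.GRR

namespace RDF_

/-- statement (2): peeling off coloops -/
lemma exchange {V : Type} [Fintype V] {k : ℕ} (p : V → Fin k → ℝ) (G : Finset (Sym2 V))
    (H : Finset (Sym2 V)) (hH : H ⊆ G) (hR : Red p G ⊆ H) (S : Finset (Sym2 V)) (e : Sym2 V)
    (h1 : Cl p H e) (h2 : Cl p (G \ S) e) : Cl p (H \ S) e := by
  have hY : ∀ b : Sym2 V, ∃ Y : V → Fin k → ℝ, b ∈ G \ H →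
      Y ∈ Mot p ∅ (G.erase b) ∧ ell p Y b = 1 := by
    intro b
    by_cases hb : b ∈ G \ H
    · have hb' := mem_sdiff.1 hb
      have hnR : b ∉ Red p G := fun h => hb'.2 (hR h)
      rw [mem_Red, not_and] at hnR
      have hnC := hnR hb'.1
      unfold Cl at hnC
      push Not at hnC
      obtain ⟨X, hX, hXb⟩ := hnC
      refine ⟨(ell p X b)⁻¹ • X, fun _ => ⟨Submodule.smul_mem _ _ hX, ?_⟩⟩
      rw [ell_smul, inv_mul_cancel₀ hXb]
    · exact ⟨0, fun h => absurd h hb⟩
  choose Y hY using hY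
  intro X hX
  set X' : V → Fin k → ℝ := X - ∑ b ∈ G \ H, ell p X b • Y b with hX'
  have hell : ∀ f : Sym2 V, ell p X' f = ell p X f - ∑ b ∈ G \ H, ell p X b * ell p (Y b) f := by
    intro f
    rw [hX', ell_sub, ell_sum]
    congr 1
    exact Finset.sum_congr rfl (fun b _ => ell_smul _ _ _ _)
  have hmem : X' ∈ Mot p ∅ (G \ S) := by
    rw [mem_Mot]
    refine ⟨fun i hi => absurd hi (Finset.notMem_empty i), fun f hf => ?_⟩
    rw [hell]
    have hf' := mem_sdiff.1 hf
    by_cases hfH : f ∈ H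
    · rw [hX.2 f (mem_sdiff.2 ⟨hfH, hf'.2⟩), zero_sub, neg_eq_zero]
      refine Finset.sum_eq_zero (fun b hb => ?_)
      rw [(hY b hb).1.2 f (mem_erase.2 ⟨fun h => (mem_sdiff.1 hb).2 (h ▸ hfH), hf'.1⟩), mul_zero]
    · have hfGH : f ∈ G \ H := mem_sdiff.2 ⟨hf'.1, hfH⟩
      rw [Finset.sum_eq_single_of_mem f hfGH, (hY f hfGH).2, mul_one, sub_self]
      intro b hb hbf
      rw [(hY b hb).1.2 f (mem_erase.2 ⟨hbf.symm, hf'.1⟩), mul_zero]
  have h3 := h2 X' hmem
  rw [hell] at h3
  have h4 : ∑ b ∈ G \ H, ell p X b * ell p (Y b) e = 0 := by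
    refine Finset.sum_eq_zero (fun b hb => ?_)
    have : Y b ∈ Mot p ∅ H := by
      refine Mot_mono p (subset_refl _) ?_ (hY b hb).1
      intro f hf
      exact mem_erase.2 ⟨fun h => (mem_sdiff.1 hb).2 (h ▸ hf), hH hf⟩
    rw [h1 _ this, mul_zero]
  rw [h4, sub_zero] at h3
  exact h3

lemma red_mono {V : Type} [Fintype V] {k : ℕ} (p : V → Fin k → ℝ) {G G' : Finset (Sym2 V)}
    (h : G ⊆ G') : Red p G ⊆ Red p G' := by
  intro e he
  rw [mem_Red] at he ⊢
  exact ⟨h he.1, Cl_mono (erase_subset_erase e h) he.2⟩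

end RDF_

open RDF_ in
theorem rdf_proof (hSTA : Stmt_STA) : Stmt_RDF := by
  intro V _ k p hp G hG
  have P1 : ∀ e ∈ Red p G, Cl p ((Red p G).erase e) e := by
    intro e he
    have he' := (mem_Red _ _ _).1 he
    have hRG : Red p G ⊆ G := filter_subset _ _
    have := exchange p G (Red p G) hRG (subset_refl _) {e} e (Cl_of_mem he) (by
      rw [sdiff_singleton_eq_erase]; exact he'.2)
    rwa [sdiff_singleton_eq_erase] at this
  refine ⟨P1, fun H hH hR S e h1 h2 => exchange p G H hH hR S e h1 h2, ?_,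
    fun G' hG' => red_mono p hG', ?_⟩
  · intro v hv
    by_contra hlt
    push Not at hlt
    obtain ⟨e, he, hve⟩ := (mem_vts _ _).1 hv
    obtain ⟨w, rfl⟩ := Sym2.mem_iff_exists.1 hve
    have heG : s(v, w) ∈ G := ((mem_Red _ _ _).1 he).1
    have hvw : v ≠ w := by
      have := hG heG
      rw [mem_pairs, Sym2.mk_isDiag_iff] at this
      exact this
    have hvT : v ∉ nbr (Red p G) v := by
      rw [mem_nbr]; exact fun h => h.1 rfl
    obtain ⟨D, hD⟩ := (hSTA V k p hp v (nbr (Red p G) v) hvT).1 (by omega)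
      (fun t => if t = w then 1 else 0)
    have hwn : w ∈ nbr (Red p G) v := (mem_nbr _ _ _).2 ⟨hvw.symm, he⟩
    set X : V → Fin k → ℝ := fun i => if i = v then D else 0 with hX
    have hXv : X v = D := by simp [hX]
    have hXo : ∀ i, i ≠ v → X i = 0 := by intro i hi; simp [hX, hi]
    have hXM : X ∈ Mot p ∅ ((Red p G).erase s(v, w)) := by
      rw [mem_Mot]
      refine ⟨fun i hi => absurd hi (Finset.notMem_empty i), fun f hf => ?_⟩
      rw [mem_erase] at hf
      by_cases hvf : v ∈ f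
      · obtain ⟨u, rfl⟩ := Sym2.mem_iff_exists.1 hvf
        have huv : v ≠ u := by
          have := hG ((mem_Red _ _ _).1 hf.2).1
          rw [mem_pairs, Sym2.mk_isDiag_iff] at this
          exact this
        have hun : u ∈ nbr (Red p G) v := (mem_nbr _ _ _).2 ⟨huv.symm, hf.2⟩
        have huw : u ≠ w := fun h => hf.1 (by rw [h])
        rw [ell_mk, hXv, hXo u huv.symm, sub_zero, hD u hun, if_neg huw]
      · have : ell p X f = ell p 0 f := by
          refine ell_congr f (fun _ _ => rfl) (fun i hi => ?_)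
          rw [hXo i (fun h => hvf (h ▸ hi))]; rfl
        rw [this, ell_zero]
    have h0 := P1 _ he X hXM
    rw [ell_mk, hXv, hXo w hvw.symm, sub_zero, hD w hwn, if_pos rfl] at h0
    exact one_ne_zero h0
  · intro H hH hR
    apply Finset.Subset.antisymm
    · exact red_mono p hH
    · intro e he
      rw [mem_Red]
      exact ⟨hR he, Cl_mono (erase_subset_erase e hR) (P1 e he)⟩

end Pool.Agent.GRR
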