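import Pool.Agent.GRR.Stmts

/-!
# GRR : ROD, deterministic part of robustness
-/

set_option autoImplicit false

open Finset
open scoped Classical

namespace Pool.Agent.GRR

namespace ROD_

/-- the entries outside `I` avoid `W f` -/
def Avo {α : Type} {S : ℕ} (I : Finset (Fin S)) (W : (Fin S → α) → Finset α) (f : Fin S → α) :
    Prop := ∀ i, i ∉ I → f i ∉ W f

/-- difference -/
noncomputable def dif {α : Type} (D W : Finset α) : Finset α := D \ W

lemma mem_dif {α : Type} (D W : Finset α) (e : α) : e ∈ dif D W ↔ e ∈ D ∧ e ∉ W := by simp [dif]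

lemma dif_card {α : Type} (D W : Finset α) (h : W ⊆ D) :
    ((dif D W).card : ℝ) = D.card - W.card := by
  unfold dif
  rw [Finset.card_sdiff_of_subset h, Nat.cast_sub (Finset.card_le_card h)]

lemma dif_self {α : Type} (D : Finset α) : (dif D D).card = 0 := by simp [dif]

/-- counting sequences that avoid a set determined by the entries in `I` -/
lemma count {α : Type} {S : ℕ} (I : Finset (Fin S)) (D : Finset α) (W : (Fin S → α) → Finset α)
    (hW : ∀ f f' : Fin S → α, (∀ i ∈ I, f i = f' i) → W f = W f') (m : ℕ)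
    (hm : ∀ f, (dif D (W f)).card ≤ m) :
    ((seqs S D).filter (fun f => Avo I W f)).card ≤
      m ^ (S - I.card) * D.card ^ I.card := by
  set T := (seqs S D).filter (fun f => Avo I W f) with hT
  let ρ : (Fin S → α) → ({i // i ∈ I} → α) := fun f i => f i.1
  have hfib : ∀ u ∈ T.image ρ, (T.filter (fun f => ρ f = u)).card ≤ m ^ (S - I.card) := by
    intro u hu
    rw [mem_image] at hu
    obtain ⟨f0, hf0, hu⟩ := hu
    have hc : (Fintype.piFinset (fun _ : {i // i ∉ I} => dif D (W f0))).card =
        (dif D (W f0)).card ^ (S - I.card) := by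
      rw [Fintype.card_piFinset, Finset.prod_const, Finset.card_univ, Fintype.card_subtype_compl]
      simp
    refine le_trans ?_ (Nat.pow_le_pow_left (hm f0) _)
    rw [← hc]
    refine Finset.card_le_card_of_injOn (fun f => fun i : {i // i ∉ I} => f i.1) ?_ ?_
    · intro f hf
      rw [mem_coe, mem_filter] at hf
      obtain ⟨hfT, hfu⟩ := hf
      rw [hT, mem_filter] at hfT
      rw [mem_coe, Fintype.mem_piFinset]
      intro i
      have hWf : W f = W f0 := by
        apply hW
        intro j hj
        have := congrFun (hfu.trans hu.symm) ⟨j, hj⟩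
        exact this
      rw [mem_dif, ← hWf]
      refine ⟨?_, hfT.2 i.1 i.2⟩
      have := hfT.1
      unfold seqs at this
      rw [Fintype.mem_piFinset] at this
      exact this i.1
    · intro f hf f' hf' h
      rw [mem_coe, mem_filter] at hf hf'
      funext i
      by_cases hi : i ∈ I
      · exact congrFun (hf.2.trans hf'.2.symm) ⟨i, hi⟩
      · exact congrFun h ⟨i, hi⟩
  refine (Finset.card_le_mul_card_image T _ hfib).trans ?_
  refine Nat.mul_le_mul_left _ ?_
  have hc : (Fintype.piFinset (fun _ : {i // i ∈ I} => D)).card = D.card ^ I.card := by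
    rw [Fintype.card_piFinset, Finset.prod_const, Finset.card_univ, Fintype.card_coe]
  rw [← hc]
  refine Finset.card_le_card ?_
  intro u hu
  rw [mem_image] at hu
  obtain ⟨f, hf, rfl⟩ := hu
  rw [hT, mem_filter] at hf
  rw [Fintype.mem_piFinset]
  intro i
  have := hf.1
  unfold seqs at this
  rw [Fintype.mem_piFinset] at this
  exact this i.1

variable {V : Type} [Fintype V] {k : ℕ}

lemma pairs_card_le : ((pairs V).card : ℝ) ≤ (Fintype.card V : ℝ) ^ 2 := by
  have h1 : (pairs V).card ≤ Fintype.card V * Fintype.card V := by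
    have h2 : (pairs V) ⊆ (univ : Finset (V × V)).image (fun x => s(x.1, x.2)) := by
      intro e _
      induction e with
      | h i j => exact mem_image.2 ⟨(i, j), mem_univ _, rfl⟩
    calc (pairs V).card ≤ _ := Finset.card_le_card h2
      _ ≤ (univ : Finset (V × V)).card := Finset.card_image_le
      _ = Fintype.card V * Fintype.card V := by rw [Finset.card_univ, Fintype.card_prod]
  have : ((pairs V).card : ℝ) ≤ ((Fintype.card V * Fintype.card V : ℕ) : ℝ) := by exact_mod_cast h1
  push_cast at this
  nlinarith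

lemma star_card (G : Finset (Sym2 V)) (x : V) (hG : G ⊆ pairs V) :
    (G \ del G x).card ≤ (nbr G x).card := by
  have h : G \ del G x ⊆ (nbr G x).image (fun y => s(x, y)) := by
    intro e he
    rw [mem_sdiff, mem_del, not_and, not_not] at he
    have hx := he.2 he.1
    obtain ⟨y, rfl⟩ := Sym2.mem_iff_exists.1 hx
    refine mem_image.2 ⟨y, ?_, rfl⟩
    rw [mem_nbr]
    refine ⟨?_, he.1⟩
    rintro rfl
    have := hG he.1
    rw [mem_pairs] at this
    exact this rfl
  exact (Finset.card_le_card h).trans Finset.card_image_le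

/-- the index set described by `g` -/
noncomputable def idx {r S : ℕ} (g : Fin r → Option (Fin S)) : Finset (Fin S) :=
  univ.filter (fun i => ∃ j, g j = some i)

lemma idx_card {r S : ℕ} (g : Fin r → Option (Fin S)) : (idx g).card ≤ r := by
  have h : ((idx g).image some) ⊆ univ.image g := by
    intro o ho
    rw [mem_image] at ho
    obtain ⟨i, hi, rfl⟩ := ho
    unfold idx at hi
    rw [mem_filter] at hi
    obtain ⟨j, hj⟩ := hi.2
    exact mem_image.2 ⟨j, mem_univ _, hj⟩
  have h2 := (Finset.card_le_card h).trans Finset.card_image_le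
  rw [Finset.card_image_of_injective _ (Option.some_injective _)] at h2
  simpa using h2

/-- image of an index set -/
noncomputable def img {α : Type} {S : ℕ} (I : Finset (Fin S)) (f : Fin S → α) : Finset α :=
  I.image f

lemma mem_img {α : Type} {S : ℕ} (I : Finset (Fin S)) (f : Fin S → α) (e : α) :
    e ∈ img I f ↔ ∃ i ∈ I, f i = e := by simp [img]

lemma img_congr {α : Type} {S : ℕ} (I : Finset (Fin S)) (f f' : Fin S → α)
    (h : ∀ i ∈ I, f i = f' i) : img I f = img I f' := by
  ext e
  rw [mem_img, mem_img]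
  constructor
  · rintro ⟨i, hi, rfl⟩
    exact ⟨i, hi, (h i hi).symm⟩
  · rintro ⟨i, hi, rfl⟩
    exact ⟨i, hi, h i hi⟩

lemma mem_plus {α : Type} {J : ℕ} (G : Finset α) (f : Fin J → α) (e : α) :
    e ∈ plus G f ↔ e ∈ G ∨ ∃ i, f i = e := by simp [plus]

/-- every small set of values is the set of values at an index set described by some `g` -/
lemma exists_idx {α : Type} {r S : ℕ} (f : Fin S → α) (F : Finset α) (hF : ∀ e ∈ F, ∃ i, f i = e)
    (hr : F.card ≤ r) : ∃ g : Fin r → Option (Fin S), img (idx g) f = F := by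
  have hF' : ∀ e : {e // e ∈ F}, ∃ i, f i = e.1 := fun e => hF e.1 e.2
  choose c hc using hF'
  -- an enumeration of `F`
  have e := F.equivFin
  refine ⟨fun j => if h : j.1 < F.card then some (c (e.symm ⟨j.1, h⟩)) else none, ?_⟩
  ext a
  rw [mem_img]
  constructor
  · rintro ⟨i, hi, rfl⟩
    unfold idx at hi
    rw [mem_filter] at hi
    obtain ⟨j, hj⟩ := hi.2
    dsimp only at hj
    by_cases h : j.1 < F.card
    · rw [dif_pos h] at hj
      have hj' := Option.some_injective _ hj
      rw [← hj', hc _]
      exact (e.symm ⟨j.1, h⟩).2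
    · rw [dif_neg h] at hj
      exact absurd hj (by simp)
  · intro ha
    refine ⟨c ⟨a, ha⟩, ?_, hc ⟨a, ha⟩⟩
    unfold idx
    rw [mem_filter]
    refine ⟨mem_univ _, ⟨(e ⟨a, ha⟩).1, lt_of_lt_of_le (e ⟨a, ha⟩).2 hr⟩, ?_⟩
    have : (e ⟨a, ha⟩).1 < F.card := (e ⟨a, ha⟩).2
    dsimp only
    rw [dif_pos this]
    simp

end ROD_

open ROD_ in
theorem rod_proof (h1 : Stmt_BAS) (h2 : Stmt_NCO) : Stmt_ROD := by
  intro k δ hδ
  obtain ⟨η, hη0, hη4, n1, hN⟩ := h2 k (δ / 2) (by positivity)
  refine ⟨η, hη0, by linarith, max n1 (⌈2 / δ⌉₊ + 1), ?_⟩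
  intro V _ p hp hn G x r S hG hr hrS
  have hn1 : n1 ≤ Fintype.card V := le_trans (le_max_left _ _) hn
  have hn2 : 1 ≤ δ / 2 * Fintype.card V := by
    have e1 : 2 / δ ≤ (⌈2 / δ⌉₊ : ℝ) := Nat.le_ceil _
    have e2 : ((⌈2 / δ⌉₊ + 1 : ℕ) : ℝ) ≤ Fintype.card V := by
      exact_mod_cast le_trans (le_max_right _ _) hn
    push_cast at e2
    have e3 : 2 / δ ≤ Fintype.card V := by linarith
    rw [div_le_iff₀ hδ] at e3
    linarith
  obtain ⟨Q, hQ, hQc⟩ := exists_mcl p G
  set Q0 := Q.erase x with hQ0
  set D := pairs V with hD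
  set N := D.card with hNd
  set m := ⌊(1 - η) * N⌋₊ with hm
  -- the graph and the exceptional set
  let H : Finset (Fin S) → (Fin S → Sym2 V) → Finset (Sym2 V) := fun I f => del G x ∪ img I f
  let W : Finset (Fin S) → (Fin S → Sym2 V) → Finset (Sym2 V) := fun I f =>
    (sub D Q0).filter (fun e => ¬ Cl p (H I f) e)
  let W' : Finset (Fin S) → (Fin S → Sym2 V) → Finset (Sym2 V) := fun I f =>
    if η * (Fintype.card V : ℝ) ^ 2 < ((W I f).card : ℝ) then W I f else D
  have hWD : ∀ I f, W I f ⊆ D := by
    intro I f e he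
    have := (mem_filter.1 he).1
    rw [mem_sub] at this
    exact this.1
  have hsub : ((seqs S D).filter (fun f =>
      (mcl p (del (plus G f) x) : ℝ) + δ * Fintype.card V < mcl p G)) ⊆
      (univ : Finset (Fin r → Option (Fin S))).biUnion (fun g =>
        (seqs S D).filter (fun f => Avo (idx g) (W' (idx g)) f)) := by
    intro f hf
    rw [mem_filter] at hf
    obtain ⟨hfs, hlt⟩ := hf
    set F := (sub D Q0).filter (fun e => ∃ i, f i = e) with hF
    have hFG : ∀ e ∈ F, Cl p (del G x ∪ (G \ del G x)) e := by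
      intro e he
      rw [hF, mem_filter, mem_sub] at he
      have hsubG : G ⊆ del G x ∪ (G \ del G x) := by
        intro e' he'
        rw [mem_union, mem_sdiff]
        by_cases h : e' ∈ del G x
        · exact Or.inl h
        · exact Or.inr ⟨he', h⟩
      refine Cl_mono hsubG ?_
      have h3 := he.1.2
      induction e with
      | h i j =>
        exact hQ i (Finset.mem_of_mem_erase (h3 i (by simp))) j
          (Finset.mem_of_mem_erase (h3 j (by simp)))
    obtain ⟨F', hF'F, hF'c, hF'⟩ := h1 V k p (del G x) (G \ del G x) F hFG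
    have hF'r : F'.card ≤ r := hF'c.trans ((star_card G x hG).trans hr)
    obtain ⟨g, hg⟩ := exists_idx (r := r) f F' (by
      intro e he
      have := hF'F he
      rw [hF, mem_filter] at this
      exact this.2) hF'r
    rw [mem_biUnion]
    refine ⟨g, mem_univ _, ?_⟩
    rw [mem_filter]
    refine ⟨hfs, ?_⟩
    have hHe : H (idx g) f = del G x ∪ F' := by
      show del G x ∪ img (idx g) f = _
      rw [hg]
    have hnot : ∀ i, f i ∉ W (idx g) f := by
      intro i hi
      have hi' := mem_filter.1 hi
      rw [hHe] at hi'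
      refine hi'.2 (hF' _ ?_)
      rw [hF, mem_filter]
      exact ⟨hi'.1, i, rfl⟩
    have hbig : η * (Fintype.card V : ℝ) ^ 2 < ((W (idx g) f).card : ℝ) := by
      by_contra hcon
      push Not at hcon
      obtain ⟨R, hRQ, hRc, hRcard⟩ := hN V p hp hn1 (H (idx g) f) Q0 hcon
      have hsubH : H (idx g) f ⊆ del (plus G f) x := by
        rw [hHe]
        intro e he
        rw [mem_union] at he
        rw [mem_del]
        rcases he with he | he
        · rw [mem_del] at he
          exact ⟨(mem_plus _ _ _).2 (Or.inl he.1), he.2⟩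
        · have h3 := hF'F he
          rw [hF, mem_filter, mem_sub] at h3
          refine ⟨(mem_plus _ _ _).2 (Or.inr h3.2), ?_⟩
          · intro hx
            have := h3.1.2 x hx
            rw [hQ0] at this
            exact (Finset.notMem_erase x Q) this
      have h4 := le_mcl (Clq_mono hsubH (subset_refl R) hRc)
      have h5 : (Q.card : ℝ) ≤ Q0.card + 1 := by
        have := Finset.pred_card_le_card_erase (s := Q) (a := x)
        rw [← hQ0] at this
        have h8 : Q.card ≤ Q0.card + 1 := by omega
        exact_mod_cast h8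
      have h6 : (R.card : ℝ) ≤ mcl p (del (plus G f) x) := by exact_mod_cast h4
      have h7 : (mcl p G : ℝ) = Q.card := by rw [hQc]
      rw [h7] at hlt
      linarith
    intro i _
    show f i ∉ (if η * (Fintype.card V : ℝ) ^ 2 < ((W (idx g) f).card : ℝ) then W (idx g) f else D)
    rw [if_pos hbig]
    exact hnot i
  have hcount : ∀ g : Fin r → Option (Fin S),
      ((seqs S D).filter (fun f => Avo (idx g) (W' (idx g)) f)).card ≤
        m ^ (S - (idx g).card) * N ^ (idx g).card := by
    intro g
    refine count (idx g) D (W' (idx g)) ?_ m ?_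
    · intro f f' hff
      have hH : H (idx g) f = H (idx g) f' := by
        show del G x ∪ img (idx g) f = del G x ∪ img (idx g) f'
        rw [img_congr _ f f' hff]
      have hWe : W (idx g) f = W (idx g) f' := by
        show (sub D Q0).filter (fun e => ¬ Cl p (H (idx g) f) e) =
          (sub D Q0).filter (fun e => ¬ Cl p (H (idx g) f') e)
        rw [hH]
      show (if η * (Fintype.card V : ℝ) ^ 2 < ((W (idx g) f).card : ℝ) then W (idx g) f else D) =
        (if η * (Fintype.card V : ℝ) ^ 2 < ((W (idx g) f').card : ℝ) then W (idx g) f' else D)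
      rw [hWe]
    · intro f
      show (dif D (if η * (Fintype.card V : ℝ) ^ 2 < ((W (idx g) f).card : ℝ)
        then W (idx g) f else D)).card ≤ m
      by_cases hb : η * (Fintype.card V : ℝ) ^ 2 < ((W (idx g) f).card : ℝ)
      · rw [if_pos hb, hm]
        apply Nat.le_floor
        have h3 : ((dif D (W (idx g) f)).card : ℝ) = N - (W (idx g) f).card :=
          dif_card _ _ (hWD _ _)
        have h4 : (N : ℝ) ≤ (Fintype.card V : ℝ) ^ 2 := pairs_card_le
        rw [h3]
        nlinarith
      · rw [if_neg hb, dif_self]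
        exact Nat.zero_le _
  have hmN : (m : ℝ) ≤ (1 - η) * N := by
    rw [hm]
    apply Nat.floor_le
    have : (0:ℝ) ≤ N := Nat.cast_nonneg _
    nlinarith
  have hreal : ∀ g : Fin r → Option (Fin S),
      ((m ^ (S - (idx g).card) * N ^ (idx g).card : ℕ) : ℝ) ≤ (1 - η) ^ (S - r) * (N : ℝ) ^ S := by
    intro g
    have hgr := idx_card g
    push_cast
    have hN0 : (0:ℝ) ≤ N := Nat.cast_nonneg _
    calc (m : ℝ) ^ (S - (idx g).card) * (N : ℝ) ^ (idx g).card
        ≤ ((1 - η) * N) ^ (S - (idx g).card) * (N : ℝ) ^ (idx g).card := by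
          gcongr
      _ = (1 - η) ^ (S - (idx g).card) * ((N : ℝ) ^ (S - (idx g).card) * (N : ℝ) ^ (idx g).card) := by
          rw [mul_pow]; ring
      _ = (1 - η) ^ (S - (idx g).card) * (N : ℝ) ^ S := by
          rw [← pow_add]; congr 2; omega
      _ ≤ (1 - η) ^ (S - r) * (N : ℝ) ^ S := by
          refine mul_le_mul_of_nonneg_right ?_ (by positivity)
          exact pow_le_pow_of_le_one (by linarith) (by linarith) (by omega)
  have hfinal : (((seqs S D).filter (fun f =>
      (mcl p (del (plus G f) x) : ℝ) + δ * Fintype.card V < mcl p G)).card : ℝ) ≤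
      ∑ _g : Fin r → Option (Fin S), (1 - η) ^ (S - r) * (N : ℝ) ^ S := by
    refine le_trans ?_ (Finset.sum_le_sum (fun g _ => hreal g))
    have h3 := (Finset.card_le_card hsub).trans Finset.card_biUnion_le
    have h4 := h3.trans (Finset.sum_le_sum (fun g _ => hcount g))
    exact_mod_cast h4
  refine hfinal.trans (le_of_eq ?_)
  rw [Finset.sum_const, Finset.card_univ, nsmul_eq_mul, Fintype.card_fun, Fintype.card_option,
    Fintype.card_fin, Fintype.card_fin]
  push_cast
  ring

end Pool.Agent.GRR
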