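import Pool.Agent.GRR.Stmts

/-!
# GRR: module SBE (forcing an element)
-/

set_option autoImplicit false

open Finset
open scoped Classical

namespace Pool.Agent.GRR

theorem sbe_proof : Stmt_SBE := by
  intro α π D hπ0 hπ1 e he Ψ
  obtain ⟨D', hD', rfl⟩ : ∃ D' : Finset α, e ∉ D' ∧ D = insert e D' :=
    ⟨D.erase e, Finset.notMem_erase e D, (Finset.insert_erase he).symm⟩
  unfold Ex
  rw [Finset.sum_powerset_insert hD', Finset.sum_powerset_insert hD', ← Finset.sum_add_distrib,
    ← Finset.sum_add_distrib, Finset.mul_sum]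
  refine Finset.sum_congr rfl (fun G hG => ?_)
  have hGD : G ⊆ D' := Finset.mem_powerset.1 hG
  have heG : e ∉ G := fun h => hD' (hGD h)
  beta_reduce
  rw [Finset.insert_idem, if_neg heG, if_pos (Finset.mem_insert_self e G)]
  have hcard : G.card ≤ D'.card := Finset.card_le_card hGD
  unfold wt
  rw [Finset.card_insert_of_notMem hD', Finset.card_insert_of_notMem heG]
  have h1 : D'.card + 1 - G.card = (D'.card - G.card) + 1 := by omega
  have h2 : D'.card + 1 - (G.card + 1) = D'.card - G.card := by omega
  rw [h1, h2, pow_succ, pow_succ]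
  field_simp
  ring

end Pool.Agent.GRR
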