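import Pool.Agent.GRR.Stmts

set_option autoImplicit false

open Finset
open scoped Classical

namespace Pool.Agent.GRR

namespace SBJ_

variable {α : Type}

lemma Ex_sub (π : ℝ) (D : Finset α) (Ψ Φ : Finset α → ℝ) :
    Ex π D (fun G => Ψ G - Φ G) = Ex π D Ψ - Ex π D Φ := by
  unfold Ex
  rw [← Finset.sum_sub_distrib]
  exact Finset.sum_congr rfl (fun G _ => by ring)

lemma Ex_congr (π : ℝ) (D : Finset α) (Ψ Φ : Finset α → ℝ) (h : ∀ G ⊆ D, Ψ G = Φ G) :
    Ex π D Ψ = Ex π D Φ := by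
  unfold Ex
  exact Finset.sum_congr rfl (fun G hG => by rw [h G (Finset.mem_powerset.1 hG)])

lemma Ex_mul (π : ℝ) (D : Finset α) (a : ℝ) (Ψ : Finset α → ℝ) :
    Ex π D (fun G => a * Ψ G) = a * Ex π D Ψ := by
  unfold Ex
  rw [Finset.mul_sum]
  exact Finset.sum_congr rfl (fun G _ => by ring)

lemma Ex_add (π : ℝ) (D : Finset α) (Ψ Φ : Finset α → ℝ) :
    Ex π D (fun G => Ψ G + Φ G) = Ex π D Ψ + Ex π D Φ := by
  unfold Ex
  rw [← Finset.sum_add_distrib]
  exact Finset.sum_congr rfl (fun G _ => by ring)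

lemma Ex_sum {ι : Type} (π : ℝ) (D : Finset α) (S : Finset ι) (Ψ : ι → Finset α → ℝ) :
    Ex π D (fun G => ∑ i ∈ S, Ψ i G) = ∑ i ∈ S, Ex π D (Ψ i) := by
  unfold Ex
  rw [Finset.sum_comm]
  exact Finset.sum_congr rfl (fun G _ => by rw [Finset.mul_sum])

/-- `|G|` as a sum of indicators -/
lemma card_eq (D G : Finset α) (h : G ⊆ D) (c : ℝ) :
    (G.card : ℝ) * c = ∑ e ∈ D, (if e ∈ G then c else 0) := by
  rw [← Finset.sum_filter]
  have : D.filter (fun e => e ∈ G) = G := by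
    ext e
    simp only [Finset.mem_filter]
    exact ⟨fun h' => h'.2, fun h' => ⟨h h', h'⟩⟩
  rw [this, Finset.sum_const, nsmul_eq_mul]

lemma sum_insert (h2 : Stmt_SBE) (π : ℝ) (D : Finset α) (h0 : 0 < π) (h1 : π ≤ 1)
    (Ψ : Finset α → ℝ) :
    ∑ e ∈ D, Ex π D (fun G => Ψ (insert e G)) = π⁻¹ * Ex π D (fun G => (G.card : ℝ) * Ψ G) := by
  have e1 : Ex π D (fun G => (G.card : ℝ) * Ψ G) =
      ∑ e ∈ D, Ex π D (fun G => if e ∈ G then Ψ G else 0) := by
    rw [← Ex_sum]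
    exact Ex_congr _ _ _ _ (fun G hG => card_eq D G hG (Ψ G))
  rw [e1, Finset.mul_sum]
  exact Finset.sum_congr rfl (fun e he => h2 α π D h0 h1 e he Ψ)

lemma ex_ind (h : Stmt_EXB) (h2 : Stmt_SBE) (π : ℝ) (D : Finset α) (h0 : 0 < π) (h1 : π ≤ 1)
    (e : α) (he : e ∈ D) : Ex π D (fun G => if e ∈ G then 1 else 0) = π := by
  have a := h2 α π D h0 h1 e he (fun _ => 1)
  have b := (h α π D h0.le h1).1
  rw [b] at a
  field_simp at a
  exact a.symm

lemma ex_card (h : Stmt_EXB) (h2 : Stmt_SBE) (π : ℝ) (D : Finset α) (h0 : 0 < π) (h1 : π ≤ 1) :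
    Ex π D (fun G => (G.card : ℝ)) = π * D.card := by
  have e1 : Ex π D (fun G => (G.card : ℝ)) =
      ∑ e ∈ D, Ex π D (fun G => if e ∈ G then 1 else 0) := by
    rw [← Ex_sum]
    exact Ex_congr _ _ _ _ (fun G hG => by
      have := card_eq D G hG 1
      rw [mul_one] at this
      exact this)
  rw [e1, Finset.sum_congr rfl (fun e he => ex_ind h h2 π D h0 h1 e he), Finset.sum_const,
    nsmul_eq_mul]
  ring

lemma ex_card_sq (h : Stmt_EXB) (h2 : Stmt_SBE) (π : ℝ) (D : Finset α) (h0 : 0 < π) (h1 : π ≤ 1) :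
    Ex π D (fun G => (G.card : ℝ) * G.card) = π * D.card * (π * D.card + 1 - π) := by
  have e1 := sum_insert h2 π D h0 h1 (fun G => (G.card : ℝ))
  have e2 : ∑ e ∈ D, Ex π D (fun G => ((insert e G).card : ℝ)) =
      ∑ e ∈ D, (π * D.card + 1 - π) := by
    refine Finset.sum_congr rfl (fun e he => ?_)
    have e3 : Ex π D (fun G => ((insert e G).card : ℝ)) =
        Ex π D (fun G => ((G.card : ℝ) + 1) - (if e ∈ G then 1 else 0)) := by
      refine Ex_congr _ _ _ _ (fun G _ => ?_)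
      by_cases heG : e ∈ G
      · rw [Finset.insert_eq_of_mem heG, if_pos heG]; ring
      · rw [Finset.card_insert_of_notMem heG, if_neg heG]; push_cast; ring
    rw [e3, Ex_sub π D (fun G => (G.card : ℝ) + 1) (fun G => if e ∈ G then 1 else 0),
      Ex_add π D (fun G => (G.card : ℝ)) (fun _ => 1), ex_card h h2 π D h0 h1,
      (h α π D h0.le h1).1, ex_ind h h2 π D h0 h1 e he]
  rw [e2, Finset.sum_const, nsmul_eq_mul] at e1
  have e4 : Ex π D (fun G => (G.card : ℝ) * G.card) =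
      π * (π⁻¹ * Ex π D (fun G => (G.card : ℝ) * G.card)) := by
    rw [← mul_assoc, mul_inv_cancel₀ h0.ne', one_mul]
  rw [e4, ← e1]
  ring

lemma step (h : Stmt_EXB) (h2 : Stmt_SBE) (π : ℝ) (D : Finset α) (h0 : 0 < π) (h1 : π ≤ 1)
    (hD : D.Nonempty) (Ψ : Finset α → ℝ) (hp : ∀ G ⊆ D, 0 ≤ Ψ G) (hq : ∀ G ⊆ D, Ψ G ≤ 1) :
    |(∑ e ∈ D, Ex π D (fun G => Ψ (insert e G))) / (D.card : ℝ) - Ex π D Ψ|
      ≤ 1 / Real.sqrt (π * D.card) := by
  have hN : (0 : ℝ) < D.card := by exact_mod_cast hD.card_pos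
  have hpN : 0 < π * D.card := mul_pos h0 hN
  have hs : 0 < Real.sqrt (π * D.card) := Real.sqrt_pos.2 hpN
  obtain ⟨x1, x2, -, -, -, -, -, -, -, x10⟩ := h α π D h0.le h1
  have e1 : (∑ e ∈ D, Ex π D (fun G => Ψ (insert e G))) / (D.card : ℝ) - Ex π D Ψ =
      (1 / (π * D.card)) * Ex π D (fun G => ((G.card : ℝ) - π * D.card) * Ψ G) := by
    rw [sum_insert h2 π D h0 h1 Ψ]
    have e2 : Ex π D (fun G => ((G.card : ℝ) - π * D.card) * Ψ G) =
        Ex π D (fun G => (G.card : ℝ) * Ψ G) - π * D.card * Ex π D Ψ := by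
      rw [← Ex_mul, ← Ex_sub]
      exact Ex_congr _ _ _ _ (fun G _ => by ring)
    rw [e2]
    field_simp
  -- the absolute value
  set W : Finset α → ℝ := fun G => |(G.card : ℝ) - π * D.card| with hW
  have e3 : |Ex π D (fun G => ((G.card : ℝ) - π * D.card) * Ψ G)| ≤
      Ex π D (fun G => Ψ G * W G) := by
    rw [abs_le]
    constructor
    · have e4 : -Ex π D (fun G => Ψ G * W G) = Ex π D (fun G => (-1) * (Ψ G * W G)) := by
        rw [Ex_mul]; ring
      rw [e4]
      refine x2 _ _ (fun G hG => ?_)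
      have := neg_abs_le ((G.card : ℝ) - π * D.card)
      have h3 := hp G hG
      show -1 * (Ψ G * |(G.card : ℝ) - π * D.card|) ≤ ((G.card : ℝ) - π * D.card) * Ψ G
      nlinarith
    · refine x2 _ _ (fun G hG => ?_)
      have := le_abs_self ((G.card : ℝ) - π * D.card)
      have h3 := hp G hG
      show ((G.card : ℝ) - π * D.card) * Ψ G ≤ Ψ G * |(G.card : ℝ) - π * D.card|
      nlinarith
  have e5 : Ex π D (fun G => W G ^ 2) ≤ π * D.card := by
    have e6 : Ex π D (fun G => W G ^ 2) =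
        Ex π D (fun G => (G.card : ℝ) * G.card) - 2 * (π * D.card) * Ex π D (fun G => (G.card : ℝ))
          + (π * D.card) ^ 2 * Ex π D (fun _ => 1) := by
      rw [← Ex_mul, ← Ex_mul, ← Ex_sub, ← Ex_add]
      refine Ex_congr _ _ _ _ (fun G _ => ?_)
      show |(G.card : ℝ) - π * D.card| ^ 2 = _
      rw [sq_abs]
      ring
    rw [e6, ex_card_sq h h2 π D h0 h1, ex_card h h2 π D h0 h1, x1]
    nlinarith [mul_pos h0 hpN]
  have e7 : Ex π D (fun G => Ψ G ^ 2) ≤ 1 := by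
    rw [← x1]
    refine x2 _ _ (fun G hG => ?_)
    have := hp G hG
    have := hq G hG
    nlinarith
  have e8 : 0 ≤ Ex π D (fun G => W G ^ 2) := by
    have e9 : Ex π D (fun _ => (0 : ℝ)) = 0 := by
      unfold Ex; simp
    rw [← e9]
    exact x2 _ _ (fun G _ => sq_nonneg _)
  have e10 : Ex π D (fun G => Ψ G * W G) ^ 2 ≤ π * D.card := by
    refine (x10 Ψ W hp (fun G _ => abs_nonneg _)).trans ?_
    calc Ex π D (fun G => Ψ G ^ 2) * Ex π D (fun G => W G ^ 2)
        ≤ 1 * Ex π D (fun G => W G ^ 2) := mul_le_mul_of_nonneg_right e7 e8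
      _ ≤ π * D.card := by rw [one_mul]; exact e5
  have e11 : Ex π D (fun G => Ψ G * W G) ≤ Real.sqrt (π * D.card) :=
    Real.le_sqrt_of_sq_le e10
  rw [e1, abs_mul, abs_of_pos (by positivity : (0 : ℝ) < 1 / (π * D.card))]
  calc 1 / (π * D.card) * |Ex π D (fun G => ((G.card : ℝ) - π * D.card) * Ψ G)|
      ≤ 1 / (π * D.card) * Real.sqrt (π * D.card) :=
        mul_le_mul_of_nonneg_left (e3.trans e11) (by positivity)
    _ = 1 / Real.sqrt (π * D.card) := by
        have hsq : Real.sqrt (π * D.card) * Real.sqrt (π * D.card) = π * D.card :=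
          Real.mul_self_sqrt hpN.le
        field_simp
        nlinarith [hsq]

lemma plus_cons {J : ℕ} (G : Finset α) (a : α) (g : Fin J → α) :
    plus G (Fin.cons a g : Fin (J + 1) → α) = plus (insert a G) g := by
  ext x
  simp only [plus, Finset.mem_union, Finset.mem_image, Finset.mem_univ, true_and,
    Finset.mem_insert, Fin.exists_fin_succ, Fin.cons_zero, Fin.cons_succ]
  constructor
  · rintro (h | h | h)
    · exact Or.inl (Or.inr h)
    · exact Or.inl (Or.inl h.symm)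
    · exact Or.inr h
  · rintro ((h | h) | h)
    · exact Or.inr (Or.inl h.symm)
    · exact Or.inl h
    · exact Or.inr (Or.inr h)

lemma sum_seqs {J : ℕ} (D : Finset α) (F : (Fin (J + 1) → α) → ℝ) :
    ∑ f ∈ seqs (J + 1) D, F f = ∑ a ∈ D, ∑ g ∈ seqs J D, F (Fin.cons a g) := by
  rw [← Finset.sum_product']
  symm
  refine Finset.sum_bij' (fun (x : α × (Fin J → α)) _ => (Fin.cons x.1 x.2 : Fin (J + 1) → α))
    (fun f _ => (f 0, Fin.tail f)) ?_ ?_ ?_ ?_ ?_
  · rintro ⟨a, g⟩ h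
    simp only [Finset.mem_product, seqs, Fintype.mem_piFinset] at h ⊢
    intro i
    refine Fin.cases ?_ (fun j => ?_) i
    · simpa using h.1
    · simpa using h.2 j
  · intro f h
    simp only [Finset.mem_product, seqs, Fintype.mem_piFinset] at h ⊢
    exact ⟨h 0, fun i => h i.succ⟩
  · rintro ⟨a, g⟩ _
    simp
  · intro f _
    simp
  · rintro ⟨a, g⟩ _
    rfl

lemma plus_subset {J : ℕ} {D G : Finset α} (hG : G ⊆ D) {g : Fin J → α} (hg : g ∈ seqs J D) :
    plus G g ⊆ D := by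
  intro x hx
  simp only [plus, Finset.mem_union, Finset.mem_image, Finset.mem_univ, true_and] at hx
  rcases hx with hx | ⟨i, rfl⟩
  · exact hG hx
  · simp only [seqs, Fintype.mem_piFinset] at hg
    exact hg i

lemma card_seqs (J : ℕ) (D : Finset α) : (seqs J D).card = D.card ^ J := by
  simp [seqs, Fintype.card_piFinset]

end SBJ_

open SBJ_ in
theorem sbj_proof (h1 : Stmt_EXB) (h2 : Stmt_SBE) : Stmt_SBJ := by
  intro α π D h0 hπ hD J
  have hN : (0 : ℝ) < D.card := by exact_mod_cast hD.card_pos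
  have hpN : 0 < π * D.card := mul_pos h0 hN
  have hs : 0 < Real.sqrt (π * D.card) := Real.sqrt_pos.2 hpN
  induction J with
  | zero =>
    intro Ψ _ _
    have : seqs 0 D = {Fin.elim0} := by
      ext f
      simp only [seqs, Fintype.mem_piFinset, Finset.mem_singleton]
      exact ⟨fun _ => by funext i; exact i.elim0, fun _ i => i.elim0⟩
    rw [this, Finset.sum_singleton]
    have e : Ex π D (fun G => Ψ (plus G (Fin.elim0 : Fin 0 → α))) = Ex π D Ψ := by
      refine Ex_congr _ _ _ _ (fun G _ => ?_)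
      congr 1
      simp [plus]
    rw [e]
    simp
  | succ J ih =>
    intro Ψ hp hq
    set Φ : Finset α → ℝ := fun G => (∑ g ∈ seqs J D, Ψ (plus G g)) / (D.card : ℝ) ^ J with hΦ
    have hΦ0 : ∀ G ⊆ D, 0 ≤ Φ G := by
      intro G hG
      refine div_nonneg (Finset.sum_nonneg (fun g hg => hp _ (plus_subset hG hg))) (by positivity)
    have hΦ1 : ∀ G ⊆ D, Φ G ≤ 1 := by
      intro G hG
      rw [hΦ]
      rw [div_le_one (by positivity)]
      calc ∑ g ∈ seqs J D, Ψ (plus G g) ≤ ∑ g ∈ seqs J D, (1 : ℝ) :=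
            Finset.sum_le_sum (fun g hg => hq _ (plus_subset hG hg))
        _ = (D.card : ℝ) ^ J := by
            rw [Finset.sum_const, nsmul_eq_mul, mul_one, card_seqs]; push_cast; rfl
    have hExΦ : Ex π D Φ = (∑ g ∈ seqs J D, Ex π D (fun G => Ψ (plus G g))) / (D.card : ℝ) ^ J := by
      rw [← Ex_sum, div_eq_inv_mul, ← Ex_mul]
      exact Ex_congr _ _ _ _ (fun G _ => by rw [hΦ]; exact div_eq_inv_mul _ _)
    have i1 := ih Ψ hp hq
    have i2 := step h1 h2 π D h0 hπ hD Φ hΦ0 hΦ1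
    have e1 : (∑ f ∈ seqs (J + 1) D, Ex π D (fun G => Ψ (plus G f))) / (D.card : ℝ) ^ (J + 1) =
        (∑ e ∈ D, Ex π D (fun G => Φ (insert e G))) / (D.card : ℝ) := by
      rw [sum_seqs]
      have e2 : ∀ e ∈ D, Ex π D (fun G => Φ (insert e G)) =
          (∑ g ∈ seqs J D, Ex π D (fun G => Ψ (plus G (Fin.cons e g : Fin (J + 1) → α)))) /
            (D.card : ℝ) ^ J := by
        intro e _
        rw [← Ex_sum, div_eq_inv_mul, ← Ex_mul]
        refine Ex_congr _ _ _ _ (fun G _ => ?_)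
        rw [hΦ]
        simp only [plus_cons]
        exact div_eq_inv_mul _ _
      rw [Finset.sum_congr rfl e2, ← Finset.sum_div, pow_succ]
      field_simp
    rw [e1]
    rw [← hExΦ] at i1
    have e3 : (∑ e ∈ D, Ex π D (fun G => Φ (insert e G))) / (D.card : ℝ) - Ex π D Ψ =
        ((∑ e ∈ D, Ex π D (fun G => Φ (insert e G))) / (D.card : ℝ) - Ex π D Φ) +
          (Ex π D Φ - Ex π D Ψ) := by ring
    rw [e3]
    refine (abs_add_le _ _).trans ?_
    calc _ ≤ 1 / Real.sqrt (π * D.card) + J / Real.sqrt (π * D.card) := add_le_add i2 i1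
      _ = ((J + 1 : ℕ) : ℝ) / Real.sqrt (π * D.card) := by push_cast; ring

end Pool.Agent.GRR
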