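import Pool.Agent.GRR.Stmts

set_option autoImplicit false

open Finset
open scoped Classical

namespace Pool.Agent.GRR

namespace SGL_

lemma exists_min {α : Type} [DecidableEq α] (E : Finset α) (P : Finset α → Prop) (h : P E) :
    ∃ C ⊆ E, P C ∧ ∀ e ∈ C, ¬ P (C.erase e) := by
  induction E using Finset.strongInduction with
  | H E ih =>
    by_cases hE : ∃ e ∈ E, P (E.erase e)
    · obtain ⟨e, he, hP⟩ := hE
      obtain ⟨C, hC, h1, h2⟩ := ih (E.erase e) (Finset.erase_ssubset he) hP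
      exact ⟨C, hC.trans (Finset.erase_subset _ _), h1, h2⟩
    · push Not at hE
      exact ⟨E, subset_refl _, h, hE⟩

/-- the other end -/
lemma other_end {V : Type} {e : Sym2 V} {a : V} (ha : a ∈ e) : ∃ b, e = s(a, b) := by
  obtain ⟨b, hb⟩ := ha
  exact ⟨b, hb⟩

end SGL_

open SGL_ in
theorem sgl_proof (h1 : Stmt_SCI) (h2 : Stmt_CNT) (h3 : Stmt_LIN) (h4 : Stmt_SGT) : Stmt_SGL := by
  intro V _ k hk p hp s G Y hG hS hs hV hinc q hq hqY hlen
  set B : Finset V := univ \ Y with hB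
  have hBY : univ \ B = Y := by rw [hB]; simp
  obtain ⟨E', hE'I, hE'c⟩ := Finset.exists_subset_card_eq hinc
  have hdep : ¬ Ind p B E' ∅ := by
    intro hI
    have := ((h3 V k p B E' ∅).2.2.2.2.1).1 hI
    rw [hBY, hE'c] at this
    omega
  obtain ⟨C, hCE, hCdep, hCmin⟩ := exists_min E' (fun D => ¬ Ind p B D ∅) hdep
  have hCmin' : ∀ e ∈ C, Ind p B (C.erase e) ∅ := fun e he => by
    have := hCmin e he
    push Not at this
    exact this
  have hCI : C ⊆ inc G Y := hCE.trans hE'I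
  have hCG : C ⊆ G := fun e he => ((mem_inc G Y e).1 (hCI he)).1
  set Y0 : Finset V := vts C \ B with hY0
  have hmemY0 : ∀ v, v ∈ Y0 ↔ v ∈ vts C ∧ v ∈ Y := by
    intro v
    rw [hY0, hB]
    simp
  have hY0Y : Y0 ⊆ Y := fun v hv => ((hmemY0 v).1 hv).2
  have hcard : Y0.card ≤ Y.card := Finset.card_le_card hY0Y
  have hk1 : (k + 1) * Y0.card ≤ (k + 1) * Y.card := Nat.mul_le_mul_left _ hcard
  have hk2 : (2 * k + 2) * Y0.card ≤ (2 * k + 2) * Y.card := Nat.mul_le_mul_left _ hcard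
  obtain ⟨hCc, -, hdeg⟩ := h1 V k hk p hp s G C B hG hS hCG (by rw [← hY0]; omega) (by rw [← hY0]; omega) hCdep hCmin'
  rw [← hY0] at hCc hdeg
  -- ends of edges of `C`
  have hend : ∀ e ∈ C, ∃ y ∈ Y0, y ∈ e := by
    intro e he
    obtain ⟨-, y, hy, hye⟩ := (mem_inc G Y e).1 (hCI he)
    exact ⟨y, (hmemY0 y).2 ⟨(mem_vts C y).2 ⟨e, he, hye⟩, hy⟩, hye⟩
  have hndiag : ∀ e ∈ C, ¬ e.IsDiag := fun e he => (mem_pairs e).1 (hG (hCG he))
  have hout : ∀ e ∈ C, ∀ v ∈ e, v ∉ Y0 → v ∉ Y := fun e he v hv hv0 hvY =>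
    hv0 ((hmemY0 v).2 ⟨(mem_vts C v).2 ⟨e, he, hv⟩, hvY⟩)
  -- an edge of `C` with an end `a` outside `Y0` is `s(y, a)` with `y ∈ Y0`
  have hform : ∀ e ∈ C, ∀ a ∈ e, a ∉ Y0 → ∃ y ∈ Y0, e = s(y, a) := by
    intro e he a hae ha
    obtain ⟨y, hy, hye⟩ := hend e he
    obtain ⟨b, rfl⟩ := other_end hye
    rcases Sym2.mem_iff.1 hae with h | h
    · subst h; exact absurd hy ha
    · subst h; exact ⟨y, hy, rfl⟩
  have hCne : C.Nonempty := by
    rw [← Finset.card_pos]; omega
  have hY0ne : Y0.Nonempty := by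
    obtain ⟨e, he⟩ := hCne
    obtain ⟨y, hy, -⟩ := hend e he
    exact ⟨y, hy⟩
  have : Nonempty V := ⟨hY0ne.choose⟩
  have : Nonempty (Sym2 V) := ⟨hCne.choose⟩
  -- number of vertices
  have hvc : (vts C \ Y0).card ≤ C.card := by
    have hex : ∀ a ∈ vts C \ Y0, ∃ e ∈ C, a ∈ e := fun a ha =>
      (mem_vts C a).1 (Finset.mem_sdiff.1 ha).1
    choose! f hf1 hf2 using hex
    refine Finset.card_le_card_of_injOn f (fun a ha => hf1 a ha) ?_
    intro a ha b hb hab
    have ha' := Finset.mem_coe.1 ha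
    have hb' := Finset.mem_coe.1 hb
    have ha0 := (Finset.mem_sdiff.1 ha').2
    have hb0 := (Finset.mem_sdiff.1 hb').2
    obtain ⟨y, hy, hye⟩ := hform (f a) (hf1 a ha') a (hf2 a ha') ha0
    have hbe : b ∈ f a := by rw [hab]; exact hf2 b hb'
    rw [hye] at hbe
    rcases Sym2.mem_iff.1 hbe with h | h
    · subst h; exact absurd hy hb0
    · exact h.symm
  have hvC : (vts C).card ≤ s := by
    have hsub : Y0 ⊆ vts C := fun v hv => ((hmemY0 v).1 hv).1
    have := Finset.card_sdiff_add_card_eq_card hsub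
    have e1 : (k + 1) * Y0.card = k * Y0.card + Y0.card := by ring
    omega
  have hsp : ∀ S : Finset V, 10 * (sub C S).card ≤ 11 * S.card := by
    intro S
    have e1 : sub C S ⊆ sub G (S ∩ vts C) := by
      intro e he
      obtain ⟨heC, heS⟩ := (mem_sub C S e).1 he
      refine (mem_sub G _ e).2 ⟨hCG heC, fun i hi => Finset.mem_inter.2 ⟨heS i hi, ?_⟩⟩
      exact (mem_vts C i).2 ⟨e, heC, hi⟩
    have e2 : (S ∩ vts C).card ≤ s :=
      (Finset.card_le_card Finset.inter_subset_right).trans hvC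
    have e3 := hS (S ∩ vts C) e2
    have e4 := Finset.card_le_card e1
    have e5 : (S ∩ vts C).card ≤ S.card := Finset.card_le_card Finset.inter_subset_left
    omega
  -- the pins with one neighbour
  set N : Finset V := (vts C \ Y0).filter (fun a => (nbr C a).card ≤ 1) with hN
  have hmemN : ∀ a, a ∈ N ↔ (a ∈ vts C ∧ a ∉ Y0) ∧ (nbr C a).card ≤ 1 := by
    intro a; rw [hN, Finset.mem_filter, Finset.mem_sdiff]
  have hNne : N.Nonempty := by
    by_contra hcon
    rw [Finset.not_nonempty_iff_eq_empty] at hcon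
    obtain ⟨y, hy, hy2⟩ := h2 V C Y0 (fun e he => hG (hCG he)) hsp hend (by
      intro a ha hav
      by_contra hlt
      have : a ∈ N := (hmemN a).2 ⟨⟨hav, ha⟩, by omega⟩
      rw [hcon] at this
      exact absurd this (Finset.notMem_empty _)) hY0ne
    have := hdeg y hy
    omega
  -- the neighbour of a pin
  have hnb : ∀ a ∈ N, ∃ y ∈ Y0, s(y, a) ∈ C := by
    intro a ha
    obtain ⟨⟨hav, ha0⟩, -⟩ := (hmemN a).1 ha
    obtain ⟨e, he, hae⟩ := (mem_vts C a).1 hav
    obtain ⟨y, hy, hye⟩ := hform e he a hae ha0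
    exact ⟨y, hy, hye ▸ he⟩
  choose! y hyY hyC using hnb
  set Gam : Finset (Sym2 V) := C.filter (fun e => ∀ a ∈ N, a ∉ e) with hGam
  have hGamC : Gam ⊆ C := Finset.filter_subset _ _
  have hcount : C.card ≤ Gam.card + N.card := by
    have e1 : (C \ Gam).card ≤ N.card := by
      have hex : ∀ e ∈ C \ Gam, ∃ a ∈ N, a ∈ e := by
        intro e he
        obtain ⟨heC, heG⟩ := Finset.mem_sdiff.1 he
        by_contra hcon
        push Not at hcon
        exact heG (Finset.mem_filter.2 ⟨heC, hcon⟩)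
      choose! f hf1 hf2 using hex
      refine Finset.card_le_card_of_injOn f (fun a ha => hf1 a ha) ?_
      intro e he e' he' hee
      have heC := (Finset.mem_sdiff.1 (Finset.mem_coe.1 he)).1
      have heC' := (Finset.mem_sdiff.1 (Finset.mem_coe.1 he')).1
      have ha := hf1 e he
      obtain ⟨⟨hav, ha0⟩, ha1⟩ := (hmemN _).1 ha
      obtain ⟨z, hz, hze⟩ := hform e heC (f e) (hf2 e he) ha0
      obtain ⟨z', hz', hze'⟩ := hform e' heC' (f e) (by rw [hee]; exact hf2 e' he') ha0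
      have m1 : z ∈ nbr C (f e) := (mem_nbr C _ _).2
        ⟨fun h => ha0 (h ▸ hz), by rw [Sym2.eq_swap, ← hze]; exact heC⟩
      have m2 : z' ∈ nbr C (f e) := (mem_nbr C _ _).2
        ⟨fun h => ha0 (h ▸ hz'), by rw [Sym2.eq_swap, ← hze']; exact heC'⟩
      have hzz : z = z' := Finset.card_le_one.1 ha1 z m1 z' m2
      rw [hze, hze', hzz]
    have e2 := Finset.card_sdiff_add_card_eq_card hGamC
    omega
  -- independence of `Gam` over `univ \ Y0`
  obtain ⟨a0, ha0⟩ := hNne
  have hGamE : Gam ⊆ C.erase s(y a0, a0) := by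
    intro e he
    refine Finset.mem_erase.2 ⟨?_, hGamC he⟩
    rintro rfl
    exact (Finset.mem_filter.1 he).2 a0 ha0 (by simp)
  have hInd : Ind p B Gam ∅ :=
    (h3 V k p B (C.erase s(y a0, a0)) ∅).2.2.2.2.2.2.2 Gam hGamE (hCmin' _ (hyC a0 ha0))
  have hInd0 : Ind p (univ \ Y0) Gam ∅ := by
    intro ω θ hrel
    refine hInd ω θ ?_
    intro X hX
    have := hrel (fun v => if v ∈ Y0 then X v else 0) (by
      intro i hi
      have : i ∉ Y0 := (Finset.mem_sdiff.1 hi).2
      simp [this])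
    have e1 : ∀ e ∈ Gam, ell p (fun v => if v ∈ Y0 then X v else 0) e = ell p X e := by
      intro e he
      refine ell_congr e (fun _ _ => rfl) ?_
      intro i hi
      by_cases hi0 : i ∈ Y0
      · simp [hi0]
      · have hiY : i ∉ Y := hout e (hGamC he) i hi hi0
        have : X i = 0 := hX i (by rw [hB]; simp [hiY])
        simp [hi0, this]
    rw [Finset.sum_congr rfl (fun e he => by rw [e1 e he])] at this
    simpa using this
  -- the new configuration
  set q' : V → Fin k → ℝ := fun v => if v ∈ Y0 then q v else p v with hq'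
  have hlen' : ∀ e ∈ C, len q' e = len p e := by
    intro e he
    rw [← hlen e (hCG he)]
    unfold len
    have e1 : ∀ i ∈ e, q' i = q i := by
      intro i hi
      by_cases hi0 : i ∈ Y0
      · simp [hq', hi0]
      · have hiY : i ∉ Y := hout e he i hi hi0
        simp [hq', hi0, hq i hiY]
    exact ell_congr e e1 e1
  have hfin := h4 V k p hp Y0 N Gam y (fun e he => hG (hCG (hGamC he))) hInd0
    (fun e he a ha => (Finset.mem_filter.1 he).2 a ha)
    (by
      rw [Finset.disjoint_left]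
      intro a ha ha2
      exact ((hmemN a).1 ha).1.2 ha2)
    hyY q' (fun v hv => by simp [hq', hv]) (fun e he => hlen' e (hGamC he))
    (fun a ha => hlen' _ (hyC a ha))
    (fun a ha => by
      have := hyY a ha
      simp only [hq', this, if_true]
      exact hqY _ (hY0Y this))
  omega

end Pool.Agent.GRR
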