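import Pool.Agent.GRR.Stmts

/-! SGT: counting transcendence degrees -/

set_option autoImplicit false

open Finset
open scoped Classical

namespace Pool.Agent.GRR

namespace SGT_

/-- the algebraic matroid of the reals over the rationals -/
noncomputable abbrev M : Matroid ℝ := AlgebraicIndependent.matroid ℚ ℝ

variable {V : Type} [Fintype V] {k : ℕ}

theorem crd_eq (p : V → Fin k → ℝ) (W : Finset V) :
    crd p W = (((W ×ˢ (univ : Finset (Fin k))).image (fun x => p x.1 x.2) : Finset ℝ) : Set ℝ) := by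
  ext x
  simp only [crd, Set.mem_setOf_eq, coe_image, coe_product, Set.mem_image, Set.mem_prod,
    mem_coe, mem_univ, and_true, Prod.exists]
  constructor
  · rintro ⟨v, hv, c, rfl⟩
    exact ⟨v, c, hv, rfl⟩
  · rintro ⟨v, c, hv, rfl⟩
    exact ⟨v, hv, c, rfl⟩

theorem encard_crd (p : V → Fin k → ℝ) (W : Finset V) :
    (crd p W).encard ≤ ((k * W.card : ℕ) : ℕ∞) := by
  rw [crd_eq, Set.encard_coe_eq_coe_finsetCard]
  have h := card_image_le (s := W ×ˢ (univ : Finset (Fin k))) (f := fun x => p x.1 x.2)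
  rw [card_product, card_univ, Fintype.card_fin, mul_comm] at h
  exact_mod_cast h

/-- a family of algebraically independent reals with values in `S` -/
theorem le_rk {ι : Type} [Finite ι] {x : ι → ℝ} (hx : AlgebraicIndependent ℚ x) {S : Set ℝ}
    (hS : ∀ i, x i ∈ S) : ((Nat.card ι : ℕ) : ℕ∞) ≤ M.eRk S := by
  haveI := Fintype.ofFinite ι
  rw [Nat.card_eq_fintype_card]
  have h1 : M.Indep (Set.range x) := by
    rw [AlgebraicIndependent.matroid_indep_iff]
    exact hx.coe_range
  have h2 : (Set.range x).encard = (Fintype.card ι : ℕ∞) := by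
    rw [← Set.image_univ, hx.injective.encard_image, Set.encard_univ, ENat.card_eq_coe_fintype_card]
  rw [← h2]
  exact h1.encard_le_eRk_of_subset (by rintro _ ⟨i, rfl⟩; exact hS i)

/-- closure properties in a convenient form -/
theorem acl_sum (hA : Stmt_ACL) {T : Set ℝ} {ι : Type} (I : Finset ι) (f : ι → ℝ)
    (hf : ∀ i ∈ I, f i ∈ acl T) : ∑ i ∈ I, f i ∈ acl T := by
  induction I using Finset.induction_on with
  | empty =>
    rw [Finset.sum_empty]
    have := (hA T).2.2.2.1 0
    simpa using this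
  | insert a I ha ih =>
    rw [Finset.sum_insert ha]
    exact ((hA T).2.2.1 _ (hf a (mem_insert_self a I)) _
      (ih (fun i hi => hf i (mem_insert_of_mem hi)))).1

theorem acl_dot (hA : Stmt_ACL) {T : Set ℝ} (x y : Fin k → ℝ) (hx : ∀ c, x c ∈ acl T)
    (hy : ∀ c, y c ∈ acl T) : dot x y ∈ acl T := by
  unfold dot
  exact acl_sum hA _ _ (fun c _ => ((hA T).2.2.1 _ (hx c) _ (hy c)).2.2.1)

theorem acl_len (hA : Stmt_ACL) {T : Set ℝ} (p : V → Fin k → ℝ) (e : Sym2 V)
    (h : ∀ i ∈ e, ∀ c, p i c ∈ acl T) : len p e ∈ acl T := by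
  induction e with
  | h i j =>
    rw [len_mk]
    have h1 : ∀ c, (p i - p j) c ∈ acl T := by
      intro c
      rw [Pi.sub_apply]
      exact ((hA T).2.2.1 _ (h i (by simp) c) _ (h j (by simp) c)).2.1
    exact acl_dot hA _ _ h1 h1

theorem acl_mono {T T' : Set ℝ} (h : T ⊆ T') : acl T ⊆ acl T' :=
  Matroid.closure_subset_closure _ h

/-- one more pin adds at most `k - 1` -/
theorem pin (hA : Stmt_ACL) (W : Set ℝ) (x a b : Fin k → ℝ) (hab : a ≠ b)
    (ha : ∀ c, a c ∈ W) (hb : ∀ c, b c ∈ W) (h : dot (a - x) (a - x) = dot (b - x) (b - x)) :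
    M.eRk (W ∪ Set.range x) ≤ M.eRk W + ((k - 1 : ℕ) : ℕ∞) := by
  obtain ⟨c0, hc0⟩ : ∃ c, a c ≠ b c := by
    by_contra hcon
    push Not at hcon
    exact hab (funext hcon)
  set R : Set ℝ := (((univ.erase c0).image x : Finset ℝ) : Set ℝ) with hR
  have hRW : R ⊆ acl (W ∪ R) := Set.subset_union_right.trans (hA _).1
  have hWW : W ⊆ acl (W ∪ R) := Set.subset_union_left.trans (hA _).1
  have hxc : ∀ c, c ≠ c0 → x c ∈ acl (W ∪ R) := by
    intro c hc
    apply hRW
    rw [hR]
    simp only [coe_image, Set.mem_image, mem_coe, mem_erase, mem_univ, and_true]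
    exact ⟨c, hc, rfl⟩
  have cl := (hA (W ∪ R)).2.2.1
  have hrel : (b c0 - a c0) * x c0 = (dot b b - dot a a) * ((1 / 2 : ℚ) : ℝ) -
      ∑ c ∈ univ.erase c0, (b c - a c) * x c := by
    have e1 : dot (a - x) (a - x) = dot a a - 2 * dot a x + dot x x := by
      rw [sub_dot, dot_sub, dot_sub, dot_comm x a]; ring
    have e2 : dot (b - x) (b - x) = dot b b - 2 * dot b x + dot x x := by
      rw [sub_dot, dot_sub, dot_sub, dot_comm x b]; ring
    have e3 : dot b x - dot a x = ∑ c, (b c - a c) * x c := by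
      unfold dot
      rw [← Finset.sum_sub_distrib]
      exact Finset.sum_congr rfl (fun c _ => by ring)
    have e4 : ∑ c, (b c - a c) * x c = (b c0 - a c0) * x c0 +
        ∑ c ∈ univ.erase c0, (b c - a c) * x c := (Finset.add_sum_erase _ _ (mem_univ c0)).symm
    rw [e1, e2] at h
    push_cast
    linarith
  have hx0 : x c0 ∈ acl (W ∪ R) := by
    have hne : b c0 - a c0 ≠ 0 := sub_ne_zero.2 (Ne.symm hc0)
    have hden : b c0 - a c0 ∈ acl (W ∪ R) := (cl _ (hWW (hb c0)) _ (hWW (ha c0))).2.1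
    have hnum : (dot b b - dot a a) * ((1 / 2 : ℚ) : ℝ) -
        ∑ c ∈ univ.erase c0, (b c - a c) * x c ∈ acl (W ∪ R) := by
      refine (cl _ ?_ _ ?_).2.1
      · refine (cl _ ?_ _ ((hA _).2.2.2.1 _)).2.2.1
        exact (cl _ (acl_dot hA _ _ (fun c => hWW (hb c)) (fun c => hWW (hb c))) _
          (acl_dot hA _ _ (fun c => hWW (ha c)) (fun c => hWW (ha c)))).2.1
      · apply acl_sum hA
        intro c hc
        exact (cl _ (cl _ (hWW (hb c)) _ (hWW (ha c))).2.1 _ (hxc c (mem_erase.1 hc).1)).2.2.1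
    have : x c0 = ((dot b b - dot a a) * ((1 / 2 : ℚ) : ℝ) -
        ∑ c ∈ univ.erase c0, (b c - a c) * x c) * (b c0 - a c0)⁻¹ := by
      rw [← hrel]
      field_simp
    rw [this]
    exact (cl _ hnum _ (cl _ hden _ hden).2.2.2).2.2.1
  have hsub : W ∪ Set.range x ⊆ M.closure (W ∪ R) := by
    rintro z (hz | ⟨c, rfl⟩)
    · exact hWW hz
    · by_cases hc : c = c0
      · rw [hc]; exact hx0
      · exact hxc c hc
  calc M.eRk (W ∪ Set.range x) ≤ M.eRk (M.closure (W ∪ R)) := M.eRk_mono hsub
    _ = M.eRk (W ∪ R) := M.eRk_closure_eq _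
    _ ≤ M.eRk W + R.encard := M.eRk_union_le_eRk_add_encard W R
    _ ≤ M.eRk W + ((k - 1 : ℕ) : ℕ∞) := by
        gcongr
        rw [hR, Set.encard_coe_eq_coe_finsetCard]
        have h := card_image_le (s := univ.erase c0) (f := x)
        rw [card_erase_of_mem (mem_univ c0), card_univ, Fintype.card_fin] at h
        exact_mod_cast h

end SGT_

open SGT_

theorem sgt_proof (hJ : Stmt_JAC) (hA : Stmt_ACL) : Stmt_SGT := by
  intro V _ k p hp Y N E y hE hInd hEN hNY hyY q hq hqE hqN hne
  set F : Set ℝ := crd p (univ \ (Y ∪ N)) with hF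
  set A : Set ℝ := crd p Y ∪ F with hAdef
  set B : Set ℝ := crd q Y ∪ F with hBdef
  set f : ℕ := k * (univ \ (Y ∪ N)).card with hf
  have hFc : F.encard ≤ (f : ℕ∞) := encard_crd p _
  have hAr : M.eRk A ≤ ((k * Y.card + f : ℕ) : ℕ∞) := by
    refine (M.eRk_le_encard A).trans ((Set.encard_union_le _ _).trans ?_)
    push_cast
    have h1 := encard_crd p Y
    push_cast at h1
    exact add_le_add h1 hFc
  have hBr : M.eRk B ≤ ((k * Y.card + f : ℕ) : ℕ∞) := by
    refine (M.eRk_le_encard B).trans ((Set.encard_union_le _ _).trans ?_)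
    push_cast
    have h1 := encard_crd q Y
    push_cast at h1
    exact add_le_add h1 hFc
  -- coordinates
  have hpA : ∀ i, i ∉ N → ∀ c, p i c ∈ acl A := by
    intro i hi c
    apply (hA A).1
    by_cases hY : i ∈ Y
    · exact Or.inl ⟨i, hY, c, rfl⟩
    · exact Or.inr ⟨i, by simp [hY, hi], c, rfl⟩
  have hqB : ∀ i, i ∉ N → ∀ c, q i c ∈ acl B := by
    intro i hi c
    apply (hA B).1
    by_cases hY : i ∈ Y
    · exact Or.inl ⟨i, hY, c, rfl⟩
    · exact Or.inr ⟨i, by simp [hY, hi], c, by rw [hq i hY]⟩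
  -- lower bound for the intersection
  have hint : ((f + E.card : ℕ) : ℕ∞) ≤ M.eRk (acl A ∩ acl B) := by
    have hj := hJ V k p hp (univ \ Y) E hE hInd
    let g : ({v : V // v ∈ univ \ (Y ∪ N)} × Fin k) ⊕ {e : Sym2 V // e ∈ E} →
        {x : V × Fin k // x.1 ∈ univ \ Y} ⊕ {e : Sym2 V // e ∈ E} :=
      Sum.map (fun x => ⟨(x.1.1, x.2), by
        have := x.1.2
        simp only [mem_sdiff, mem_univ, mem_union, true_and, not_or] at this
        simp [this.1]⟩) id
    have hg : Function.Injective g := by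
      apply Function.Injective.sumMap
      · rintro ⟨⟨v, hv⟩, c⟩ ⟨⟨v', hv'⟩, c'⟩ h
        simp only [Subtype.mk.injEq, Prod.mk.injEq] at h
        obtain ⟨rfl, rfl⟩ := h
        rfl
      · exact Function.injective_id
    have hj2 := hj.comp g hg
    have h1 := le_rk hj2 (S := acl A ∩ acl B) (by
      rintro (⟨⟨v, hv⟩, c⟩ | ⟨e, he⟩)
      · simp only [Function.comp_apply, g, Sum.map_inl, Sum.elim_inl]
        have hv' := hv
        simp only [mem_sdiff, mem_univ, mem_union, true_and, not_or] at hv'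
        have hmem : p v c ∈ F := ⟨v, hv, c, rfl⟩
        exact ⟨(hA A).1 (Or.inr hmem), (hA B).1 (Or.inr hmem)⟩
      · simp only [Function.comp_apply, g, Sum.map_inr, Sum.elim_inr, id]
        have hnotN : ∀ i ∈ e, i ∉ N := fun i hi hiN => hEN e he i hiN hi
        refine ⟨acl_len hA p e (fun i hi => hpA i (hnotN i hi)), ?_⟩
        rw [← hqE e he]
        exact acl_len hA q e (fun i hi => hqB i (hnotN i hi)))
    have hcard : Nat.card (({v : V // v ∈ univ \ (Y ∪ N)} × Fin k) ⊕ {e : Sym2 V // e ∈ E}) =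
        f + E.card := by
      have e1 : Nat.card {v : V // v ∈ univ \ (Y ∪ N)} = (univ \ (Y ∪ N)).card :=
        Nat.card_eq_card_toFinset _ |>.trans (by simp)
      have e2 : Nat.card {e : Sym2 V // e ∈ E} = E.card :=
        Nat.card_eq_card_toFinset _ |>.trans (by simp)
      rw [Nat.card_sum, Nat.card_prod, e1, e2, Nat.card_eq_fintype_card, Fintype.card_fin, hf,
        mul_comm]
    rw [hcard] at h1
    exact h1
  -- lower bound for the union
  have hpins : ∀ N' : Finset V, N' ⊆ N → M.eRk ((acl A ∪ acl B) ∪ crd p N') ≤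
      M.eRk (acl A ∪ acl B) + (((k - 1) * N'.card : ℕ) : ℕ∞) := by
    intro N'
    induction N' using Finset.induction_on with
    | empty =>
      intro _
      have : crd p (∅ : Finset V) = ∅ := by
        ext x; simp [crd]
      rw [this, Set.union_empty]
      simp
    | insert a N' ha ih =>
      intro hsub
      have haN : a ∈ N := hsub (mem_insert_self a N')
      have ih' := ih (fun x hx => hsub (mem_insert_of_mem hx))
      have haY : a ∉ Y := fun h => (Finset.disjoint_left.1 hNY haN) h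
      have hyN : y a ∉ N := fun h => (Finset.disjoint_left.1 hNY h) (hyY a haN)
      have hcrd : (acl A ∪ acl B) ∪ crd p (insert a N') =
          ((acl A ∪ acl B) ∪ crd p N') ∪ Set.range (p a) := by
        have hset : crd p (insert a N') = crd p N' ∪ Set.range (p a) := by
          ext x
          simp only [crd, mem_insert, Set.mem_setOf_eq, Set.mem_union, Set.mem_range]
          constructor
          · rintro ⟨v, rfl | hv, c, rfl⟩
            · exact Or.inr ⟨c, rfl⟩
            · exact Or.inl ⟨v, hv, c, rfl⟩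
          · rintro (⟨v, hv, c, rfl⟩ | ⟨c, rfl⟩)
            · exact ⟨v, Or.inr hv, c, rfl⟩
            · exact ⟨a, Or.inl rfl, c, rfl⟩
        rw [hset, ← Set.union_assoc]
      rw [hcrd]
      have hl := hqN a haN
      rw [len_mk, len_mk, hq a haY] at hl
      have h1 := pin hA ((acl A ∪ acl B) ∪ crd p N') (p a) (q (y a)) (p (y a)) (hne a haN)
        (fun c => Or.inl (Or.inr (hqB _ hyN c))) (fun c => Or.inl (Or.inl (hpA _ hyN c))) hl
      refine h1.trans ?_
      rw [card_insert_of_notMem ha, mul_add, mul_one]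
      push_cast
      rw [← add_assoc]
      push_cast at ih'
      exact add_le_add ih' le_rfl
  have htot : ((k * Fintype.card V : ℕ) : ℕ∞) ≤
      M.eRk (acl A ∪ acl B) + (((k - 1) * N.card : ℕ) : ℕ∞) := by
    refine le_trans ?_ (hpins N (subset_refl N))
    have h1 := le_rk hp (S := (acl A ∪ acl B) ∪ crd p N) (by
      rintro ⟨v, c⟩
      by_cases hv : v ∈ N
      · exact Or.inr ⟨v, hv, c, rfl⟩
      · exact Or.inl (Or.inl (hpA v hv c)))
    rw [Nat.card_prod, Nat.card_eq_fintype_card, Nat.card_eq_fintype_card, Fintype.card_fin,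
      mul_comm] at h1
    exact h1
  have hsubm := M.eRk_inter_add_eRk_union_le (acl A) (acl B)
  have eA : M.eRk (acl A) = M.eRk A := M.eRk_closure_eq A
  have eB : M.eRk (acl B) = M.eRk B := M.eRk_closure_eq B
  rw [eA, eB] at hsubm
  have hle : M.eRk (acl A ∩ acl B) + M.eRk (acl A ∪ acl B) ≤
      ((2 * (k * Y.card + f) : ℕ) : ℕ∞) := by
    refine hsubm.trans ((add_le_add hAr hBr).trans ?_)
    rw [two_mul]
    push_cast
    exact le_rfl
  -- finite numbers
  have hfin1 : M.eRk (acl A ∩ acl B) ≠ ⊤ := by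
    intro h
    rw [h, top_add] at hle
    exact absurd (top_le_iff.1 hle) (ENat.coe_ne_top _)
  have hfin2 : M.eRk (acl A ∪ acl B) ≠ ⊤ := by
    intro h
    rw [h, add_top] at hle
    exact absurd (top_le_iff.1 hle) (ENat.coe_ne_top _)
  obtain ⟨r1, hr1⟩ := ENat.ne_top_iff_exists.1 hfin1
  obtain ⟨r2, hr2⟩ := ENat.ne_top_iff_exists.1 hfin2
  rw [← hr1] at hint hle
  rw [← hr2] at htot hle
  have i1 : f + E.card ≤ r1 := by exact_mod_cast hint
  have i2 : r1 + r2 ≤ 2 * (k * Y.card + f) := by exact_mod_cast hle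
  have i3 : k * Fintype.card V ≤ r2 + (k - 1) * N.card := by exact_mod_cast htot
  have hcardV : Fintype.card V = (univ \ (Y ∪ N)).card + Y.card + N.card := by
    have h1 : (univ \ (Y ∪ N)).card + (Y ∪ N).card = Fintype.card V := by
      rw [card_sdiff_add_card_eq_card (subset_univ _), card_univ]
    rw [card_union_of_disjoint hNY.symm] at h1
    omega
  have i4 : k * Fintype.card V = f + k * Y.card + k * N.card := by
    rw [hcardV, hf]; ring
  rcases N.eq_empty_or_nonempty with hN | ⟨a, ha⟩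
  · subst hN
    simp only [card_empty, mul_zero, add_zero] at i3 i4 ⊢
    omega
  · have hk : 1 ≤ k := by
      by_contra hcon
      have : k = 0 := by omega
      subst this
      exact hne a ha (funext (fun c => Fin.elim0 c))
    have i5 : k * N.card = (k - 1) * N.card + N.card := by
      obtain ⟨k', rfl⟩ := Nat.exists_eq_add_of_le hk
      simp only [Nat.add_sub_cancel_left]
      ring
    omega

end Pool.Agent.GRR
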