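import Pool.Agent.GRR.Stmts

/-!
# GRR, module SPA: small sets are sparse
-/

set_option autoImplicit false

open Finset
open scoped Classical

namespace Pool.Agent.GRR
namespace SPA_

/-- probability that all elements of `T` are chosen -/
lemma pr_subset (hEXB : Stmt_EXB) {α : Type} (π : ℝ) (D T : Finset α) (h0 : 0 ≤ π) (h1 : π ≤ 1)
    (hT : T ⊆ D) : Pr π D (fun G => T ⊆ G) = π ^ T.card := by
  have hone : Ex π (D \ T) (fun _ => 1) = 1 := (hEXB α π (D \ T) h0 h1).1
  have h : ∑ G ∈ D.powerset, wt π D G * (if T ⊆ G then (1 : ℝ) else 0) =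
      ∑ G ∈ D.powerset.filter (fun G => T ⊆ G), wt π D G := by
    rw [Finset.sum_filter]
    exact Finset.sum_congr rfl (fun G _ => by split_ifs <;> simp)
  have h2 : ∑ G ∈ D.powerset.filter (fun G => T ⊆ G), wt π D G =
      ∑ H ∈ (D \ T).powerset, π ^ T.card * wt π (D \ T) H := by
    refine Finset.sum_nbij' (fun G => G \ T) (fun H => T ∪ H) ?_ ?_ ?_ ?_ ?_
    · intro G hG
      rw [mem_filter, mem_powerset] at hG
      rw [mem_powerset]
      exact sdiff_subset_sdiff hG.1 (subset_refl T)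
    · intro H hH
      rw [mem_powerset] at hH
      rw [mem_filter, mem_powerset]
      exact ⟨union_subset hT (hH.trans sdiff_subset), subset_union_left⟩
    · intro G hG
      rw [mem_filter, mem_powerset] at hG
      exact union_sdiff_of_subset hG.2
    · intro H hH
      rw [mem_powerset] at hH
      ext x
      simp only [mem_sdiff, mem_union]
      constructor
      · rintro ⟨h3 | h3, h4⟩
        · exact absurd h3 h4
        · exact h3
      · intro h3
        exact ⟨Or.inr h3, (mem_sdiff.1 (hH h3)).2⟩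
    · intro G hG
      rw [mem_filter, mem_powerset] at hG
      have c1 : (G \ T).card = G.card - T.card := card_sdiff_of_subset hG.2
      have c2 : (D \ T).card = D.card - T.card := card_sdiff_of_subset hT
      have c3 := card_le_card hG.1
      have c4 := card_le_card hG.2
      unfold wt
      rw [← mul_assoc, ← pow_add, c1, c2]
      have e1 : T.card + (G.card - T.card) = G.card := by omega
      have e2 : D.card - T.card - (G.card - T.card) = D.card - G.card := by omega
      rw [e1, e2]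
  have h3 : ∑ H ∈ (D \ T).powerset, wt π (D \ T) H = 1 := by
    rw [← hone]
    unfold Ex
    exact Finset.sum_congr rfl (fun H _ => (mul_one _).symm)
  have h4 : Pr π D (fun G => T ⊆ G) =
      ∑ G ∈ D.powerset, wt π D G * (if T ⊆ G then (1 : ℝ) else 0) := by
    unfold Pr Ex
    exact Finset.sum_congr rfl (fun G _ => by by_cases hG : T ⊆ G <;> simp [hG])
  rw [h4, h, h2, ← Finset.mul_sum, h3, mul_one]

lemma choose_bound (N m : ℕ) (hm : 0 < m) :
    (N.choose m : ℝ) ≤ (Real.exp 1 * N / m) ^ m := by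
  have h1 : (N.choose m : ℝ) ≤ (N : ℝ) ^ m / (m.factorial : ℝ) := Nat.choose_le_pow_div m N
  have h2 : (m : ℝ) ^ m / (m.factorial : ℝ) ≤ Real.exp m :=
    Real.pow_div_factorial_le_exp (m : ℝ) (Nat.cast_nonneg m) m
  have h3 : Real.exp (m : ℝ) = Real.exp 1 ^ m := by
    rw [← Real.exp_nat_mul, mul_one]
  have hm' : (0 : ℝ) < m := Nat.cast_pos.2 hm
  have hf : (0 : ℝ) < (m.factorial : ℝ) := Nat.cast_pos.2 (Nat.factorial_pos m)
  have h4 : (N : ℝ) ^ m / (m.factorial : ℝ) =
      ((N : ℝ) / m) ^ m * ((m : ℝ) ^ m / (m.factorial : ℝ)) := by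
    rw [div_pow]
    field_simp
  calc (N.choose m : ℝ) ≤ (N : ℝ) ^ m / (m.factorial : ℝ) := h1
    _ = ((N : ℝ) / m) ^ m * ((m : ℝ) ^ m / (m.factorial : ℝ)) := h4
    _ ≤ ((N : ℝ) / m) ^ m * Real.exp 1 ^ m := by
        rw [← h3]
        exact mul_le_mul_of_nonneg_left h2 (by positivity)
    _ = (Real.exp 1 * N / m) ^ m := by
        rw [← mul_pow]
        congr 1
        ring

/-- the number of edges needed -/
def mm (j : ℕ) : ℕ := 11 * j / 10 + 1

lemma mm_ge (j : ℕ) : 11 * j ≤ 10 * mm j := by unfold mm; omega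
lemma mm_ge' (j : ℕ) : j < mm j := by unfold mm; omega

/-- the main estimate -/
lemma term_bound (c : ℝ) (hc : 0 < c) (n j : ℕ) (hj : 1 ≤ j)
    (hy : Real.exp 1 * c * j / n ≤ 1) (hn : 0 < n) :
    ((n.choose j : ℝ) * (Real.exp 1 * c * j / n) ^ mm j) ^ 10 ≤
      (Real.exp 1 ^ 21 * c ^ 11 * (j / n)) ^ j := by
  have hn' : (0 : ℝ) < n := Nat.cast_pos.2 hn
  have hj' : (0 : ℝ) < j := Nat.cast_pos.2 hj
  have he : 0 < Real.exp 1 := Real.exp_pos 1
  have h1 := choose_bound n j hj
  have hy0 : 0 ≤ Real.exp 1 * c * j / n := by positivity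
  calc ((n.choose j : ℝ) * (Real.exp 1 * c * j / n) ^ mm j) ^ 10
      ≤ ((Real.exp 1 * n / j) ^ j * (Real.exp 1 * c * j / n) ^ mm j) ^ 10 := by
        apply pow_le_pow_left₀ (by positivity)
        exact mul_le_mul_of_nonneg_right h1 (by positivity)
    _ = (Real.exp 1 * n / j) ^ (10 * j) * (Real.exp 1 * c * j / n) ^ (10 * mm j) := by
        rw [mul_pow, ← pow_mul, ← pow_mul, mul_comm j 10, mul_comm (mm j) 10]
    _ ≤ (Real.exp 1 * n / j) ^ (10 * j) * (Real.exp 1 * c * j / n) ^ (11 * j) := by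
        apply mul_le_mul_of_nonneg_left _ (by positivity)
        exact pow_le_pow_of_le_one hy0 hy (mm_ge j)
    _ = (Real.exp 1 ^ 21 * c ^ 11 * (j / n)) ^ j := by
        rw [pow_mul, pow_mul, ← mul_pow]
        congr 1
        field_simp

lemma sub_card_le {V : Type} [Fintype V] (S : Finset V) :
    (sub (pairs V) S).card ≤ S.card * S.card := by
  have h : sub (pairs V) S ⊆ (S ×ˢ S).image (fun x => s(x.1, x.2)) := by
    intro e he
    rw [mem_sub] at he
    induction e with
    | h i j =>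
      rw [mem_image]
      exact ⟨(i, j), mem_product.2 ⟨he.2 i (by simp), he.2 j (by simp)⟩, rfl⟩
  calc (sub (pairs V) S).card ≤ ((S ×ˢ S).image (fun x => s(x.1, x.2))).card := card_le_card h
    _ ≤ (S ×ˢ S).card := card_image_le
    _ = S.card * S.card := card_product S S

lemma sub_empty {V : Type} [Fintype V] (G : Finset (Sym2 V)) : sub G ∅ = ∅ := by
  rw [Finset.eq_empty_iff_forall_notMem]
  intro e he
  rw [mem_sub] at he
  induction e with
  | h i j => exact absurd (he.2 i (by simp)) (Finset.notMem_empty i)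

/-- union bound -/
lemma union_bound (hEXB : Stmt_EXB) (c : ℝ) (hc : 0 < c) (V : Type) [Fintype V] (s : ℕ)
    (hn : 0 < Fintype.card V) (hcn : c ≤ Fintype.card V) :
    Pr (c / Fintype.card V) (pairs V) (fun G => ¬ Spr s G) ≤
      ∑ j ∈ range (Fintype.card V + 1), ((Fintype.card V).choose j : ℝ) *
        (if 1 ≤ j ∧ j ≤ s then (Real.exp 1 * c * j / Fintype.card V) ^ mm j else 0) := by
  set n := Fintype.card V with hnd
  have hn' : (0 : ℝ) < n := Nat.cast_pos.2 hn
  set π : ℝ := c / n with hπ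
  have hπ0 : 0 ≤ π := by positivity
  have hπ1 : π ≤ 1 := by rw [hπ, div_le_one hn']; exact hcn
  have hE := hEXB (Sym2 V) π (pairs V) hπ0 hπ1
  obtain ⟨-, -, -, -, -, -, hU, -⟩ := hE
  let I : Finset (Σ _ : Finset V, Finset (Sym2 V)) :=
    (univ.filter (fun S : Finset V => 1 ≤ S.card ∧ S.card ≤ s)).sigma
      (fun S => powersetCard (mm S.card) (sub (pairs V) S))
  have h1 := hU _ I (fun i G => i.2 ⊆ G) (fun G => ¬ Spr s G) (by
    intro G hG hS
    unfold Spr at hS
    push Not at hS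
    obtain ⟨S, hS1, hS2⟩ := hS
    have hS0 : 1 ≤ S.card := by
      rw [Nat.one_le_iff_ne_zero]
      intro h0
      rw [card_eq_zero] at h0
      subst h0
      rw [sub_empty] at hS2
      simp at hS2
    have h2 : mm S.card ≤ (sub G S).card := by unfold mm; omega
    obtain ⟨T, hT1, hT2⟩ := exists_subset_card_eq h2
    refine ⟨⟨S, T⟩, ?_, ?_⟩
    · rw [mem_sigma, mem_filter, mem_powersetCard]
      refine ⟨⟨mem_univ _, hS0, hS1⟩, ?_, hT2⟩
      intro e he
      have h3 := (mem_sub G S e).1 (hT1 he)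
      exact (mem_sub _ _ _).2 ⟨hG h3.1, h3.2⟩
    · intro e he
      exact ((mem_sub G S e).1 (hT1 he)).1)
  refine h1.trans ?_
  rw [Finset.sum_sigma]
  have h2 : ∀ S ∈ univ.filter (fun S : Finset V => 1 ≤ S.card ∧ S.card ≤ s),
      ∑ T ∈ powersetCard (mm S.card) (sub (pairs V) S),
        Pr π (pairs V) (fun G => (⟨S, T⟩ : Σ _ : Finset V, Finset (Sym2 V)).2 ⊆ G) ≤
      (fun j : ℕ => if 1 ≤ j ∧ j ≤ s then (Real.exp 1 * c * j / n) ^ mm j else 0) S.card := by
    intro S hS
    rw [mem_filter] at hS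
    have hj : (0 : ℝ) < S.card := Nat.cast_pos.2 hS.2.1
    have hm : 0 < mm S.card := by unfold mm; omega
    have hm' : (0 : ℝ) < mm S.card := Nat.cast_pos.2 hm
    have h3 : ∀ T ∈ powersetCard (mm S.card) (sub (pairs V) S),
        Pr π (pairs V) (fun G => T ⊆ G) = π ^ mm S.card := by
      intro T hT
      rw [mem_powersetCard] at hT
      rw [pr_subset hEXB π (pairs V) T hπ0 hπ1
        (hT.1.trans (fun e he => ((mem_sub _ _ _).1 he).1)), hT.2]
    rw [Finset.sum_congr rfl h3, sum_const, card_powersetCard, nsmul_eq_mul]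
    show _ ≤ (if 1 ≤ S.card ∧ S.card ≤ s then
      (Real.exp 1 * c * (S.card : ℝ) / n) ^ mm S.card else 0)
    rw [if_pos hS.2]
    have h4 := choose_bound (sub (pairs V) S).card (mm S.card) hm
    have h5 : ((sub (pairs V) S).card : ℝ) ≤ (S.card : ℝ) * S.card := by
      exact_mod_cast sub_card_le S
    have h6 : (S.card : ℝ) ≤ mm S.card := by exact_mod_cast (mm_ge' S.card).le
    have h7 : Real.exp 1 * ((sub (pairs V) S).card : ℝ) / mm S.card ≤ Real.exp 1 * S.card := by
      rw [div_le_iff₀ hm', mul_assoc]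
      apply mul_le_mul_of_nonneg_left _ (Real.exp_pos 1).le
      exact h5.trans (mul_le_mul_of_nonneg_left h6 hj.le)
    calc (((sub (pairs V) S).card.choose (mm S.card) : ℕ) : ℝ) * π ^ mm S.card
        ≤ (Real.exp 1 * (sub (pairs V) S).card / mm S.card) ^ mm S.card * π ^ mm S.card :=
          mul_le_mul_of_nonneg_right h4 (by positivity)
      _ ≤ (Real.exp 1 * S.card) ^ mm S.card * π ^ mm S.card := by
          apply mul_le_mul_of_nonneg_right _ (by positivity)
          exact pow_le_pow_left₀ (by positivity) h7 _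
      _ = (Real.exp 1 * c * S.card / n) ^ mm S.card := by
          rw [← mul_pow, hπ]
          congr 1
          ring
  refine (Finset.sum_le_sum h2).trans ?_
  have h8 : ∑ S ∈ univ.filter (fun S : Finset V => 1 ≤ S.card ∧ S.card ≤ s),
      (fun j : ℕ => if 1 ≤ j ∧ j ≤ s then (Real.exp 1 * c * j / n) ^ mm j else 0) S.card ≤
      ∑ S ∈ (univ : Finset V).powerset,
      (fun j : ℕ => if 1 ≤ j ∧ j ≤ s then (Real.exp 1 * c * j / n) ^ mm j else 0) S.card := by
    apply Finset.sum_le_sum_of_subset_of_nonneg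
    · intro S _
      exact mem_powerset.2 (subset_univ S)
    · intro S _ _
      show (0 : ℝ) ≤ (if 1 ≤ S.card ∧ S.card ≤ s then
        (Real.exp 1 * c * (S.card : ℝ) / n) ^ mm S.card else 0)
      split_ifs
      · positivity
      · exact le_rfl
  refine h8.trans (le_of_eq ?_)
  rw [Finset.sum_powerset_apply_card
    (fun j : ℕ => if 1 ≤ j ∧ j ≤ s then (Real.exp 1 * c * j / n) ^ mm j else 0), card_univ]
  exact Finset.sum_congr rfl (fun j _ => by rw [nsmul_eq_mul])

end SPA_

open SPA_ in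
theorem spa_proof (hEXB : Stmt_EXB) : Stmt_SPA := by
  intro c hc
  set E : ℝ := Real.exp 1 with hE
  have hE0 : 0 < E := Real.exp_pos 1
  set D : ℝ := E ^ 21 * c ^ 11 with hD
  have hD0 : 0 < D := by positivity
  set σ : ℝ := min (1 / 2) (min (1 / (E * c)) ((1 / 4) ^ 10 / D)) with hσ
  have hσ0 : 0 < σ := by
    rw [hσ]
    exact lt_min (by norm_num) (lt_min (by positivity) (by positivity))
  have hσ1 : σ < 1 := lt_of_le_of_lt (min_le_left _ _) (by norm_num)
  have hσ2 : E * c * σ ≤ 1 := by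
    have h1 : σ ≤ 1 / (E * c) := (min_le_right _ _).trans (min_le_left _ _)
    have h2 : 0 < E * c := by positivity
    rwa [le_div_iff₀ h2, mul_comm] at h1
  have hσ3 : D * σ ≤ (1 / 4) ^ 10 := by
    have h1 : σ ≤ (1 / 4) ^ 10 / D := (min_le_right _ _).trans (min_le_right _ _)
    rwa [le_div_iff₀ hD0, mul_comm] at h1
  refine ⟨σ, hσ0, hσ1, ?_⟩
  intro k ε hε
  obtain ⟨L, hL⟩ := exists_pow_lt_of_lt_one (show (0 : ℝ) < ε / 4 by linarith)
    (show (1 / 2 : ℝ) < 1 by norm_num)
  set δ : ℝ := min 1 (ε / (2 * (L + 1))) with hδ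
  have hL1 : (0 : ℝ) < L + 1 := by positivity
  have hδ0 : 0 < δ := lt_min one_pos (by positivity)
  have hδ1 : δ ≤ 1 := min_le_left _ _
  have hδ2 : (L + 1) * δ ≤ ε / 2 := by
    have h1 : δ ≤ ε / (2 * (L + 1)) := min_le_right _ _
    calc (L + 1) * δ ≤ (L + 1) * (ε / (2 * (L + 1))) :=
          mul_le_mul_of_nonneg_left h1 hL1.le
      _ = ε / 2 := by field_simp
  obtain ⟨n1, hn1⟩ := exists_nat_ge (D * L / δ ^ 10)
  obtain ⟨n2, hn2⟩ := exists_nat_ge c
  refine ⟨max (max n1 n2) 1, ?_⟩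
  intro V _ p _ hV
  have hV1 : n1 ≤ Fintype.card V := ((le_max_left _ _).trans (le_max_left _ _)).trans hV
  have hV2 : n2 ≤ Fintype.card V := ((le_max_right _ _).trans (le_max_left _ _)).trans hV
  have hV3 : 1 ≤ Fintype.card V := (le_max_right _ _).trans hV
  have hcn : c ≤ Fintype.card V := hn2.trans (by exact_mod_cast hV2)
  have hU := union_bound hEXB c hc V ⌊σ * Fintype.card V⌋₊ hV3 hcn
  set n := Fintype.card V with hnd
  have hn' : (0 : ℝ) < n := Nat.cast_pos.2 hV3
  refine hU.trans ?_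
  have hmain : ∀ j ∈ range (n + 1), ((n.choose j : ℕ) : ℝ) *
      (if 1 ≤ j ∧ j ≤ ⌊σ * (n : ℝ)⌋₊ then (E * c * j / n) ^ mm j else 0) ≤
      (if j ≤ L then δ else 0) + (1 / 2) ^ L * (1 / 2) ^ j := by
    intro j _
    have hpos : (0 : ℝ) ≤ (1 / 2) ^ L * (1 / 2) ^ j := by positivity
    have hpos2 : (0 : ℝ) ≤ (if j ≤ L then δ else 0) := by
      split_ifs
      · exact hδ0.le
      · exact le_rfl
    by_cases hj : 1 ≤ j ∧ j ≤ ⌊σ * (n : ℝ)⌋₊
    swap
    · rw [if_neg hj, mul_zero]
      linarith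
    rw [if_pos hj]
    have hj' : (0 : ℝ) < j := Nat.cast_pos.2 hj.1
    have hjs : (j : ℝ) ≤ σ * n := (Nat.le_floor_iff (by positivity)).1 hj.2
    have hjn : (j : ℝ) / n ≤ σ := by rw [div_le_iff₀ hn']; exact hjs
    have hy : E * c * j / n ≤ 1 := by
      calc E * c * j / n = E * c * (j / n) := by ring
        _ ≤ E * c * σ := mul_le_mul_of_nonneg_left hjn (by positivity)
        _ ≤ 1 := hσ2
    have ht := term_bound c hc n j hj.1 hy hV3
    have ht0 : 0 ≤ ((n.choose j : ℕ) : ℝ) * (E * c * j / n) ^ mm j := by positivity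
    by_cases hjL : j ≤ L
    · rw [if_pos hjL]
      have h1 : ((n.choose j : ℕ) : ℝ) * (E * c * j / n) ^ mm j ≤ δ := by
        have h2 : (((n.choose j : ℕ) : ℝ) * (E * c * j / n) ^ mm j) ^ 10 ≤ δ ^ 10 := by
          refine ht.trans ?_
          have h3 : E ^ 21 * c ^ 11 * ((j : ℝ) / n) ≤ δ ^ 10 := by
            rw [← hD, ← mul_div_assoc, div_le_iff₀ hn']
            have h4 : D * L / δ ^ 10 ≤ n := hn1.trans (by exact_mod_cast hV1)
            rw [div_le_iff₀ (by positivity)] at h4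
            have h5 : (j : ℝ) ≤ L := by exact_mod_cast hjL
            calc D * j ≤ D * L := mul_le_mul_of_nonneg_left h5 hD0.le
              _ ≤ n * δ ^ 10 := h4
              _ = δ ^ 10 * n := mul_comm _ _
          have h6 : (δ : ℝ) ^ 10 ≤ 1 := pow_le_one₀ hδ0.le hδ1
          calc (E ^ 21 * c ^ 11 * ((j : ℝ) / n)) ^ j ≤ (δ ^ 10) ^ j :=
                pow_le_pow_left₀ (by positivity) h3 _
            _ ≤ (δ ^ 10) ^ 1 := pow_le_pow_of_le_one (by positivity) h6 hj.1
            _ = δ ^ 10 := pow_one _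
        exact le_of_pow_le_pow_left₀ (by norm_num) hδ0.le h2
      linarith
    · rw [if_neg hjL, zero_add]
      have hjL' : L ≤ j := by omega
      have h1 : ((n.choose j : ℕ) : ℝ) * (E * c * j / n) ^ mm j ≤ (1 / 4) ^ j := by
        have h2 : (((n.choose j : ℕ) : ℝ) * (E * c * j / n) ^ mm j) ^ 10 ≤
            ((1 / 4) ^ j) ^ 10 := by
          refine ht.trans ?_
          have h3 : E ^ 21 * c ^ 11 * ((j : ℝ) / n) ≤ (1 / 4) ^ 10 := by
            rw [← hD]
            exact (mul_le_mul_of_nonneg_left hjn hD0.le).trans hσ3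
          calc (E ^ 21 * c ^ 11 * ((j : ℝ) / n)) ^ j ≤ ((1 / 4) ^ 10) ^ j :=
                pow_le_pow_left₀ (by positivity) h3 _
            _ = ((1 / 4) ^ j) ^ 10 := by rw [← pow_mul, ← pow_mul, mul_comm]
        exact le_of_pow_le_pow_left₀ (by norm_num) (by positivity) h2
      refine h1.trans ?_
      have h4 : (1 / 4 : ℝ) ^ j = (1 / 2) ^ j * (1 / 2) ^ j := by
        rw [← mul_pow]; norm_num
      rw [h4]
      apply mul_le_mul_of_nonneg_right _ (by positivity)
      exact pow_le_pow_of_le_one (by norm_num) (by norm_num) hjL'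
  refine (Finset.sum_le_sum hmain).trans ?_
  rw [Finset.sum_add_distrib, ← Finset.mul_sum, ← Finset.sum_filter, sum_const, nsmul_eq_mul]
  have hc1 : (((range (n + 1)).filter (fun j => j ≤ L)).card : ℝ) ≤ L + 1 := by
    have : ((range (n + 1)).filter (fun j => j ≤ L)).card ≤ (range (L + 1)).card := by
      apply card_le_card
      intro j hj
      rw [mem_filter] at hj
      rw [mem_range]
      omega
    rw [card_range] at this
    exact_mod_cast this
  have h9 : ∑ i ∈ range (n + 1), (1 / 2 : ℝ) ^ i ≤ 2 := sum_geometric_two_le (n + 1)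
  have h10 : (1 / 2 : ℝ) ^ L * ∑ i ∈ range (n + 1), (1 / 2 : ℝ) ^ i ≤ (1 / 2) ^ L * 2 :=
    mul_le_mul_of_nonneg_left h9 (by positivity)
  have h11 : (((range (n + 1)).filter (fun j => j ≤ L)).card : ℝ) * δ ≤ (L + 1) * δ :=
    mul_le_mul_of_nonneg_right hc1 hδ0.le
  linarith

end Pool.Agent.GRR
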