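import Pool.Agent.GRR.Stmts

set_option autoImplicit false

open Finset
open scoped Classical

namespace Pool.Agent.GRR

theorem srg_proof (h1 : Stmt_HAL) (h2 : Stmt_SRA) : Stmt_SRG := by
  intro V _ k hk p hp s G E Y hG hspr hEG hs hn hX
  obtain ⟨E', hE'E, hcard, y, hy1, hy2⟩ := (h1 V k E Y).1 hX
  -- number of vertices touched by E'
  have hvts : (vts E').card ≤ (k + 1) * Y.card := by
    have hsub : vts E' ⊆ Y ∪ E'.image
        (fun e => if h : y e ∈ e then Sym2.Mem.other h else y e) := by
      intro v hv
      rw [mem_vts] at hv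
      obtain ⟨e, he, hve⟩ := hv
      obtain ⟨hyY, hye⟩ := hy1 e he
      by_cases hvy : v = y e
      · rw [hvy]; exact Finset.mem_union_left _ hyY
      · refine Finset.mem_union_right _ (Finset.mem_image.2 ⟨e, he, ?_⟩)
        simp only [dif_pos hye]
        have h3 := Sym2.other_spec hye
        rw [← h3] at hve
        rcases Sym2.mem_iff.1 hve with h4 | h4
        · exact absurd h4 hvy
        · exact h4.symm
    have h3 := le_trans (card_le_card hsub) (Finset.card_union_le _ _)
    have h4 : (E'.image (fun e => if h : y e ∈ e then Sym2.Mem.other h else y e)).card ≤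
        E'.card := Finset.card_image_le
    have h5 : (k + 1) * Y.card = k * Y.card + Y.card := by ring
    omega
  have hsp : ∀ S : Finset V, 10 * (sub E' S).card ≤ 11 * S.card := by
    intro S
    have h3 : sub E' S ⊆ sub G (S ∩ vts E') := by
      intro e he
      rw [mem_sub] at he ⊢
      refine ⟨hEG (hE'E he.1), fun i hi => Finset.mem_inter.2 ⟨he.2 i hi, ?_⟩⟩
      rw [mem_vts]
      exact ⟨e, he.1, hi⟩
    have h4 : (S ∩ vts E').card ≤ s :=
      le_trans (card_le_card Finset.inter_subset_right) (le_trans hvts hs)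
    have h5 := hspr _ h4
    have h6 := card_le_card h3
    have h7 : (S ∩ vts E').card ≤ S.card := card_le_card Finset.inter_subset_left
    omega
  have h3 : Mot p (univ \ Y) E' = ⊥ :=
    h2 Y.card V k hk p hp E' Y rfl (fun e he => hG (hEG (hE'E he))) hsp hn ⟨y, hy1, hy2⟩
  refine le_antisymm ?_ bot_le
  rw [← h3]
  exact Mot_mono p (Finset.Subset.refl _) hE'E

end Pool.Agent.GRR
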