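import Pool.Agent.GRR.Stmts

/-!
# GRR, module STA : stars at a generic configuration
-/

set_option autoImplicit false

open Finset
open scoped Classical

namespace Pool.Agent.GRR

namespace STA_

theorem sum_star {V : Type} (v : V) (T : Finset V) (f : Sym2 V → ℝ) :
    ∑ e ∈ star v T, f e = ∑ t ∈ T, f s(v, t) := by
  unfold star
  rw [Finset.sum_image]
  intro a _ b _ h
  exact Sym2.congr_right.1 h

theorem ind_q {V : Type} [Fintype V] {k : ℕ} (v : V) (T : Finset V) (hv : v ∉ T) (f : V → Fin k)
    (hf : ∀ a ∈ T, ∀ b ∈ T, f a = f b → a = b) :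
    Ind (fun w : V => if w ∈ T then (fun c => if c = f w then (-1 : ℝ) else 0) else 0)
      (univ \ {v}) (star v T) ∅ := by
  intro ω θ h
  refine ⟨?_, by simp⟩
  intro e he
  rw [mem_star] at he
  obtain ⟨t0, ht0, rfl⟩ := he
  have h1 := h (fun w => if w = v then (fun c => if c = f t0 then (1 : ℝ) else 0) else 0) (by
    intro i hi
    have : i ≠ v := by simpa using hi
    simp [this])
  rw [sum_star, Finset.sum_empty, add_zero] at h1
  rw [Finset.sum_eq_single_of_mem t0 ht0] at h1
  · have hne : t0 ≠ v := fun hh => hv (hh ▸ ht0)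
    have h2 : ell (fun w : V => if w ∈ T then (fun c => if c = f w then (-1 : ℝ) else 0) else 0)
        (fun w => if w = v then (fun c => if c = f t0 then (1 : ℝ) else 0) else 0) s(v, t0) = 1 := by
      rw [ell_mk]
      simp only [hv, ht0, hne, if_true, if_false]
      unfold dot
      rw [Finset.sum_eq_single (f t0)]
      · simp
      · intro b _ hb
        simp [hb]
      · intro hh
        exact absurd (mem_univ _) hh
    rw [h2, mul_one] at h1
    exact h1
  · intro b hb hbt
    have hne : b ≠ v := fun hh => hv (hh ▸ hb)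
    have hfb : f b ≠ f t0 := fun hh => hbt (hf b hb t0 ht0 hh)
    rw [ell_mk]
    simp only [hv, hb, hne, if_true, if_false]
    unfold dot
    rw [Finset.sum_eq_zero]
    · ring
    · intro c _
      by_cases hc : c = f t0
      · subst hc
        simp [Ne.symm hfb]
      · simp [hc]

end STA_

theorem sta_proof (h1 : Stmt_GNE) (h2 : Stmt_LIN) : Stmt_STA := by
  intro V _ k p hp v
  have key : ∀ T : Finset V, v ∉ T → T.card ≤ k → ∀ r : V → ℝ, ∃ D : Fin k → ℝ, ∀ t ∈ T,
      dot (p v - p t) D = r t := by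
    intro T hv hT r
    rcases T.eq_empty_or_nonempty with rfl | hne
    · exact ⟨0, by simp⟩
    have hk : 0 < k := lt_of_lt_of_le hne.card_pos hT
    obtain ⟨g, hg⟩ : ∃ g : V → Fin k, ∀ a ∈ T, ∀ b ∈ T, g a = g b → a = b := by
      let e : T ≃ Fin T.card := T.equivFin
      refine ⟨fun w => if hw : w ∈ T then Fin.castLE hT (e ⟨w, hw⟩) else ⟨0, hk⟩, ?_⟩
      intro a ha b hb hab
      simp only [ha, hb, dif_pos] at hab
      have := e.injective (Fin.castLE_injective hT hab)
      exact congrArg Subtype.val this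
    have hInd := h1 V k p _ hp _ _ _ (STA_.ind_q v T hv g hg)
    obtain ⟨hl1, -⟩ := h2 V k p (univ \ {v}) (star v T) ∅
    obtain ⟨X, hX0, hXe, -⟩ := hl1 hInd (fun e => ∑ t ∈ T, if s(v, t) = e then r t else 0)
      (fun _ => 0)
    refine ⟨X v, fun t ht => ?_⟩
    have h3 := hXe s(v, t) (by rw [mem_star]; exact ⟨t, ht, rfl⟩)
    have hne : t ≠ v := fun hh => hv (hh ▸ ht)
    rw [ell_mk, hX0 t (by simp [hne]), sub_zero] at h3
    rw [h3, Finset.sum_eq_single_of_mem t ht]
    · simp
    · intro b _ hbt
      rw [if_neg]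
      intro hh
      exact hbt (Sym2.congr_right.1 hh)
  intro T hv
  refine ⟨key T hv, ?_⟩
  intro hT D hD
  obtain ⟨T', hT'T, hT'⟩ := Finset.exists_subset_card_eq hT
  let L : (Fin k → ℝ) →ₗ[ℝ] (T' → ℝ) :=
    { toFun := fun D t => dot (p v - p t.1) D
      map_add' := fun x y => by funext t; exact dot_add _ _ _
      map_smul' := fun a x => by funext t; simp only [dot_smul]; rfl }
  have hsurj : Function.Surjective L := by
    intro r
    obtain ⟨D', hD'⟩ := key T' (fun hh => hv (hT'T hh)) hT'.le
      (fun w => if hw : w ∈ T' then r ⟨w, hw⟩ else 0)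
    refine ⟨D', ?_⟩
    funext t
    have := hD' t.1 t.2
    simp only [t.2, dif_pos] at this
    exact this
  have hfin : Module.finrank ℝ (Fin k → ℝ) = Module.finrank ℝ (T' → ℝ) := by
    rw [Module.finrank_fintype_fun_eq_card, Module.finrank_fintype_fun_eq_card]
    simp [hT']
  have hinj := (LinearMap.injective_iff_surjective_of_finrank_eq_finrank hfin).2 hsurj
  apply hinj
  rw [map_zero]
  funext t
  exact hD t.1 (hT'T t.2)

end Pool.Agent.GRR
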