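import Pool.Agent.GRR.Stmts

set_option autoImplicit false
set_option linter.unusedSectionVars false

open Finset
open scoped Classical

namespace Pool.Agent.GRR

namespace STP_

variable {V : Type} [Fintype V] {k : ℕ}

lemma sub_mono {E E' : Finset (Sym2 V)} (h : E' ⊆ E) (S : Finset V) : sub E' S ⊆ sub E S := by
  intro e he
  rw [mem_sub] at he ⊢
  exact ⟨h he.1, he.2⟩

lemma sparse_mono {E E' : Finset (Sym2 V)} (h : E' ⊆ E)
    (hE : ∀ S : Finset V, 10 * (sub E S).card ≤ 11 * S.card) (S : Finset V) :
    10 * (sub E' S).card ≤ 11 * S.card :=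
  (Nat.mul_le_mul_left 10 (Finset.card_le_card (sub_mono h S))).trans (hE S)

/-- (A): a motion vanishing at one vertex of `Y` is zero -/
lemma partA (m : ℕ) (IH : ∀ m' < m, SRIn m') (hk : 2 ≤ k) (p : V → Fin k → ℝ) (hp : Gnr p)
    (E : Finset (Sym2 V)) (Y : Finset V) (hm : Y.card = m) (hEp : E ⊆ pairs V)
    (hsp : ∀ S : Finset V, 10 * (sub E S).card ≤ 11 * S.card)
    (hV : (2 * k + 2) * Y.card ≤ Fintype.card V)
    (y : Sym2 V → V) (hy : ∀ e ∈ E, y e ∈ Y ∧ y e ∈ e)
    (hyk : ∀ v ∈ Y, (E.filter (fun e => y e = v)).card = k)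
    (D : V → Fin k → ℝ) (hD : D ∈ Mot p (univ \ Y) E) (v : V) (hv : v ∈ Y) (hDv : D v = 0) :
    D = 0 := by
  set Y1 : Finset V := Y.filter (fun w => D w ≠ 0) with hY1
  have hsub : Y1 ⊆ Y := Finset.filter_subset _ _
  have hlt : Y1.card < m := by
    rw [← hm]
    apply Finset.card_lt_card
    refine (Finset.ssubset_iff_of_subset hsub).2 ⟨v, hv, ?_⟩
    rw [hY1, Finset.mem_filter]
    exact fun h => h.2 hDv
  set E1 : Finset (Sym2 V) := E.filter (fun e => y e ∈ Y1) with hE1
  have hE1s : E1 ⊆ E := Finset.filter_subset _ _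
  have key := IH Y1.card hlt V k hk p hp E1 Y1 rfl (hE1s.trans hEp) (sparse_mono hE1s hsp)
    ((Nat.mul_le_mul_left _ (Finset.card_le_card hsub)).trans hV)
    ⟨y, fun e he => by
      rw [hE1, Finset.mem_filter] at he
      exact ⟨he.2, (hy e he.1).2⟩, fun w hw => by
      rw [← hyk w (hsub hw)]
      congr 1
      ext e
      constructor
      · intro h
        have h1 := Finset.mem_filter.1 h
        have h2 := Finset.mem_filter.1 h1.1
        exact Finset.mem_filter.2 ⟨h2.1, h1.2⟩
      · intro h
        have h1 := Finset.mem_filter.1 h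
        refine Finset.mem_filter.2 ⟨Finset.mem_filter.2 ⟨h1.1, ?_⟩, h1.2⟩
        rw [h1.2]
        exact hw⟩
  have hmem : D ∈ Mot p (univ \ Y1) E1 := by
    rw [mem_Mot] at hD ⊢
    refine ⟨fun i hi => ?_, fun e he => hD.2 e (hE1s he)⟩
    by_cases hiY : i ∈ Y
    · by_contra hne
      rw [Finset.mem_sdiff] at hi
      exact hi.2 (by rw [hY1, Finset.mem_filter]; exact ⟨hiY, hne⟩)
    · exact hD.1 i (by rw [Finset.mem_sdiff]; exact ⟨Finset.mem_univ _, hiY⟩)
  rw [key] at hmem
  simpa using hmem

/-- adding a vertex of small degree keeps independence -/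
lemma add_vertex (hSTA : Stmt_STA) (p : V → Fin k → ℝ) (hp : Gnr p) (G : Finset (Sym2 V))
    (hGp : G ⊆ pairs V) (Y : Finset V) (v : V) (hv : v ∈ Y) (hdeg : (nbr G v).card ≤ k)
    (hind : Ind p (univ \ (Y.erase v)) (del G v) ∅) : Ind p (univ \ Y) G ∅ := by
  intro ω θ hrel
  refine ⟨?_, fun x hx => absurd hx (Finset.notMem_empty x)⟩
  -- test with a vector at v
  have hvn : v ∉ nbr G v := by
    rw [mem_nbr]
    exact fun h => h.1 rfl
  obtain ⟨D, hD⟩ := (hSTA V k p hp v (nbr G v) hvn).1 hdeg (fun t => ω s(v, t))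
  have h1 := hrel (fun w => if w = v then D else 0) (by
    intro i hi
    have : i ≠ v := by
      rintro rfl
      rw [Finset.mem_sdiff] at hi
      exact hi.2 hv
    simp [this])
  simp only [Finset.sum_empty, add_zero] at h1
  have hterm : ∀ e ∈ G, ω e * ell p (fun w => if w = v then D else 0) e
      = if v ∈ e then ω e * ω e else 0 := by
    intro e he
    by_cases hve : v ∈ e
    · rw [if_pos hve]
      obtain ⟨w, rfl⟩ := Sym2.mem_iff_exists.1 hve
      have hwv : w ≠ v := by
        rintro rfl
        have := hGp he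
        rw [mem_pairs] at this
        exact this (by simp)
      have hw : w ∈ nbr G v := by
        rw [mem_nbr]
        exact ⟨hwv, he⟩
      rw [ell_mk]
      simp only [if_true, if_neg hwv, sub_zero]
      rw [hD w hw]
    · rw [if_neg hve]
      have : ell p (fun w => if w = v then D else 0) e = ell p 0 e := by
        apply ell_congr
        · intro i _
          rfl
        · intro i hi
          have : i ≠ v := by
            rintro rfl
            exact hve hi
          simp [this]
      rw [this, ell_zero, mul_zero]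
  rw [Finset.sum_congr rfl hterm] at h1
  have hnn : ∀ e ∈ G, 0 ≤ (if v ∈ e then ω e * ω e else 0) := by
    intro e _
    split_ifs
    · exact mul_self_nonneg _
    · exact le_refl _
  have h2 := (Finset.sum_eq_zero_iff_of_nonneg hnn).1 h1
  have hω : ∀ e ∈ G, v ∈ e → ω e = 0 := by
    intro e he hve
    have := h2 e he
    rw [if_pos hve] at this
    exact mul_self_eq_zero.1 this
  -- the rest
  have h3 := (hind ω θ (by
    intro X hX
    simp only [Finset.sum_empty, add_zero]
    have h4 := hrel X (by
      intro i hi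
      apply hX
      rw [Finset.mem_sdiff] at hi ⊢
      exact ⟨hi.1, fun h => hi.2 (Finset.mem_of_mem_erase h)⟩)
    simp only [Finset.sum_empty, add_zero] at h4
    rw [← h4]
    apply Finset.sum_subset
    · intro e he
      rw [mem_del] at he
      exact he.1
    · intro e he hne
      rw [mem_del] at hne
      have hve : v ∈ e := by
        by_contra hh
        exact hne ⟨he, hh⟩
      rw [hω e he hve, zero_mul])).1
  intro e he
  by_cases hve : v ∈ e
  · exact hω e he hve
  · exact h3 e (by rw [mem_del]; exact ⟨he, hve⟩)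

/-- adding a pendant edge at a pin -/
lemma add_pendant (hGNE : Stmt_GNE) (hLIN : Stmt_LIN) (p : V → Fin k → ℝ) (hp : Gnr p)
    (E : Finset (Sym2 V)) (Y : Finset V) (w a : V) (hw : w ∈ Y) (ha : a ∉ Y)
    (hEa : ∀ e ∈ E, a ∉ e) (hind : Ind p (univ \ Y) E ∅)
    (D : V → Fin k → ℝ) (hD : D ∈ Mot p (univ \ Y) E) (hDw : D w ≠ 0) :
    Ind p (univ \ Y) (insert s(w, a) E) ∅ := by
  have hwa : w ≠ a := by
    rintro rfl
    exact ha hw
  set q : V → Fin k → ℝ := Function.update p a (p w - D w) with hq
  have hqE : ∀ (X : V → Fin k → ℝ), ∀ e ∈ E, ell q X e = ell p X e := by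
    intro X e he
    apply ell_congr
    · intro i hi
      have : i ≠ a := by
        rintro rfl
        exact hEa e he hi
      rw [hq, Function.update_of_ne this]
    · intro i _
      rfl
  have hindq : Ind q (univ \ Y) E ∅ := by
    intro ω θ hrel
    apply hind ω θ
    intro X hX
    rw [← hrel X hX]
    congr 1
    exact Finset.sum_congr rfl (fun e he => by rw [hqE X e he])
  have hDq : D ∈ Mot q (univ \ Y) E := by
    rw [mem_Mot] at hD ⊢
    exact ⟨hD.1, fun e he => by rw [hqE D e he]; exact hD.2 e he⟩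
  have hDa : D a = 0 := (mem_Mot _ _ _ _).1 hD |>.1 a (by
    rw [Finset.mem_sdiff]
    exact ⟨Finset.mem_univ _, ha⟩)
  have hne : ell q D s(w, a) ≠ 0 := by
    rw [ell_mk, hDa, hq, Function.update_of_ne hwa, Function.update_self]
    intro h0
    apply hDw
    apply dot_self_eq_zero
    rw [← h0]
    congr 1
    · abel
    · abel
  have h1 := (hLIN V k q (univ \ Y) E ∅).2.1 s(w, a) hindq ⟨D, hDq, hne⟩
  exact hGNE V k p q hp _ _ _ h1

end STP_

open STP_ in
theorem stp_proof (hGNE : Stmt_GNE) (hLIN : Stmt_LIN) (hSTA : Stmt_STA) (hCNT : Stmt_CNT) :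
    Stmt_STP := by
  intro m IH V _ k hk p hp E Y hm hEp hsp hV hyex
  obtain ⟨y, hy, hyk⟩ := hyex
  have hA := partA m (fun m' h => (IH m' h).1) hk p hp E Y hm hEp hsp hV y hy hyk
  rcases Finset.eq_empty_or_nonempty Y with hY0 | hYne
  · rw [Submodule.eq_bot_iff]
    intro X hX
    funext i
    exact ((mem_Mot _ _ _ _).1 hX).1 i (by rw [hY0]; simp)
  -- number of edges
  have hcard : E.card = k * Y.card := by
    rw [Finset.card_eq_sum_card_fiberwise (f := y) (t := Y) (fun e he => (hy e he).1),
      Finset.sum_congr rfl hyk, Finset.sum_const, smul_eq_mul, mul_comm]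
  -- pins with exactly one neighbour
  set N : Finset V := univ.filter (fun a => a ∉ Y ∧ (nbr E a).card = 1) with hN
  set Γ : Finset (Sym2 V) := E.filter (fun e => ∀ a ∈ N, a ∉ e) with hΓ
  have hΓE : Γ ⊆ E := Finset.filter_subset _ _
  -- (B)
  obtain ⟨v, hvY, hvdeg⟩ := hCNT V Γ Y (hΓE.trans hEp) (sparse_mono hΓE hsp)
    (fun e he => ⟨y e, (hy e (hΓE he)).1, (hy e (hΓE he)).2⟩) (by
      intro a haY hav
      rw [mem_vts] at hav
      obtain ⟨e, he, hae⟩ := hav
      have he' := he
      rw [hΓ, Finset.mem_filter] at he'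
      have haN : a ∉ N := fun h => he'.2 a h hae
      have hnb : nbr Γ a = nbr E a := by
        ext w
        rw [mem_nbr, mem_nbr]
        constructor
        · rintro ⟨h1, h2⟩
          exact ⟨h1, hΓE h2⟩
        · rintro ⟨h1, h2⟩
          refine ⟨h1, ?_⟩
          rw [hΓ, Finset.mem_filter]
          refine ⟨h2, ?_⟩
          intro b hb hbe
          rw [Sym2.mem_iff] at hbe
          rcases hbe with rfl | rfl
          · exact haN hb
          · have h3 := hy _ h2
            rw [Sym2.mem_iff] at h3
            rw [hN, Finset.mem_filter] at hb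
            rcases h3.2 with h4 | h4
            · rw [h4] at h3
              exact haY h3.1
            · rw [h4] at h3
              exact hb.2.1 h3.1
      have hpos : 0 < (nbr E a).card := by
        apply Finset.card_pos.2
        obtain ⟨w, rfl⟩ := Sym2.mem_iff_exists.1 hae
        refine ⟨w, ?_⟩
        rw [mem_nbr]
        refine ⟨?_, hΓE he⟩
        rintro rfl
        have := hEp (hΓE he)
        rw [mem_pairs] at this
        exact this (by simp)
      have hne1 : (nbr E a).card ≠ 1 := by
        intro h1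
        apply haN
        rw [hN, Finset.mem_filter]
        exact ⟨Finset.mem_univ _, haY, h1⟩
      rw [hnb]
      omega) hYne
  have hvk : (nbr Γ v).card ≤ k := hvdeg.trans hk
  have hYe : (Y.erase v).card = m - 1 := by rw [Finset.card_erase_of_mem hvY, hm]
  have hmpos : 0 < m := by
    rw [← hm]
    exact Finset.card_pos.2 hYne
  have hdelE : del Γ v ⊆ E := by
    intro e he
    rw [mem_del] at he
    exact hΓE he.1
  have hind0 : Ind p (univ \ (Y.erase v)) (del Γ v) ∅ := by
    refine (IH (m - 1) (by omega)).2 V k hk p hp (del Γ v) (Y.erase v) hYe (hdelE.trans hEp)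
      (sparse_mono hdelE hsp) ?_ ⟨y, ?_, ?_⟩
    · exact (Nat.mul_le_mul_left _ (Finset.card_le_card (Finset.erase_subset _ _))).trans hV
    · intro e he
      rw [mem_del] at he
      have h1 := hy e (hΓE he.1)
      refine ⟨Finset.mem_erase.2 ⟨?_, h1.1⟩, h1.2⟩
      intro h2
      rw [h2] at h1
      exact he.2 h1.2
    · intro w hw
      rw [← hyk w (Finset.mem_of_mem_erase hw)]
      exact Finset.card_le_card (Finset.filter_subset_filter _ hdelE)
  have hindΓ : Ind p (univ \ Y) Γ ∅ := add_vertex hSTA p hp Γ (hΓE.trans hEp) Y v hvY hvk hind0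
  -- (C)
  by_cases hbot : Mot p (univ \ Y) E = ⊥
  · exact hbot
  have hC : ∀ F : Finset (Sym2 V), F ⊆ E \ Γ → Ind p (univ \ Y) (Γ ∪ F) ∅ := by
    intro F
    induction F using Finset.induction_on with
    | empty =>
      intro _
      rw [Finset.union_empty]
      exact hindΓ
    | insert e F heF ih =>
      intro hsubF
      have hFs : F ⊆ E \ Γ := fun f hf => hsubF (Finset.mem_insert_of_mem hf)
      have ihF := ih hFs
      have he := hsubF (Finset.mem_insert_self e F)
      rw [Finset.mem_sdiff] at he
      have hΓF : Γ ∪ F ⊆ E := Finset.union_subset hΓE (fun f hf => (Finset.mem_sdiff.1 (hFs hf)).1)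
      obtain ⟨a, haN, hae⟩ : ∃ a ∈ N, a ∈ e := by
        by_contra hcon
        push Not at hcon
        exact he.2 (by rw [hΓ, Finset.mem_filter]; exact ⟨he.1, hcon⟩)
      rw [hN, Finset.mem_filter] at haN
      obtain ⟨w, hwe⟩ := Sym2.mem_iff_exists.1 hae
      have hwa : w ≠ a := by
        rintro rfl
        have := hEp he.1
        rw [mem_pairs, hwe] at this
        exact this (by simp)
      have hwY : w ∈ Y := by
        have h3 := hy e he.1
        rw [hwe, Sym2.mem_iff] at h3
        rcases h3.2 with h4 | h4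
        · rw [h4] at h3
          exact absurd h3.1 haN.2.1
        · rw [h4] at h3
          exact h3.1
      obtain ⟨b, hb⟩ := Finset.card_eq_one.1 haN.2.2
      have honly : ∀ f ∈ E, a ∈ f → f = e := by
        intro f hf haf
        obtain ⟨w', rfl⟩ := Sym2.mem_iff_exists.1 haf
        have hw'a : w' ≠ a := by
          rintro rfl
          have := hEp hf
          rw [mem_pairs] at this
          exact this (by simp)
        have h5 : w' ∈ nbr E a := by
          rw [mem_nbr]
          exact ⟨hw'a, hf⟩
        have h6 : w ∈ nbr E a := by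
          rw [mem_nbr]
          exact ⟨hwa, by rw [← hwe]; exact he.1⟩
        rw [hb, Finset.mem_singleton] at h5 h6
        rw [hwe, h5, h6]
      have heNot : e ∉ Γ ∪ F := by
        rw [Finset.mem_union]
        rintro (h | h)
        · exact he.2 h
        · exact heF h
      have hEa : ∀ f ∈ Γ ∪ F, a ∉ f := by
        intro f hf haf
        have := honly f (hΓF hf) haf
        rw [this] at hf
        exact heNot hf
      -- a motion which is nonzero at w
      obtain ⟨D, hD, hD0⟩ := (Submodule.ne_bot_iff _).1 hbot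
      have hDw : D w ≠ 0 := fun h => hD0 (hA D hD w hwY h)
      have hD' : D ∈ Mot p (univ \ Y) (Γ ∪ F) := Mot_mono p (subset_refl _) hΓF hD
      have h7 := add_pendant hGNE hLIN p hp (Γ ∪ F) Y w a hwY haN.2.1 hEa ihF D hD' hDw
      have h8 : (s(w, a) : Sym2 V) = e := by rw [hwe, Sym2.eq_swap]
      rw [h8] at h7
      rw [Finset.union_insert]
      exact h7
  -- (D)
  have hfin := hC (E \ Γ) (subset_refl _)
  rw [Finset.union_sdiff_of_subset hΓE] at hfin
  have h9 := ((hLIN V k p (univ \ Y) E ∅).2.2.2.2.1).1 hfin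
  have h10 : (univ \ (univ \ Y) : Finset V) = Y := by
    ext i
    simp
  rw [h10, hcard] at h9
  have h11 : Module.finrank ℝ (Mot p (univ \ Y) E) = 0 := by omega
  exact Submodule.finrank_eq_zero.1 h11

end Pool.Agent.GRR
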