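import Pool.Agent.GRR.Stmts

/-!
# GRR: module STR (duality of stresses and the closure)
-/

set_option autoImplicit false

open Finset
open scoped Classical

namespace Pool.Agent.GRR

namespace STR_

lemma dart_sum {V : Type} [Fintype V] (G : Finset (Sym2 V)) (hG : G ⊆ pairs V)
    (F : V → V → ℝ) (H : Sym2 V → ℝ)
    (h : ∀ i j, i ≠ j → s(i, j) ∈ G → F i j + F j i = H s(i, j)) :
    ∑ f ∈ G, H f = ∑ i, ∑ j ∈ nbr G i, F i j := by
  have h1 : ∑ i, ∑ j ∈ nbr G i, F i j =
      ∑ x ∈ (univ : Finset (V × V)).filter (fun x => x.2 ≠ x.1 ∧ s(x.1, x.2) ∈ G),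
        F x.1 x.2 := by
    rw [Finset.sum_filter, Fintype.sum_prod_type]
    refine Finset.sum_congr rfl (fun i _ => ?_)
    rw [nbr, Finset.sum_filter]
  rw [h1]
  rw [← Finset.sum_fiberwise_of_maps_to (s := (univ : Finset (V × V)).filter
    (fun x => x.2 ≠ x.1 ∧ s(x.1, x.2) ∈ G)) (t := G) (g := fun x => s(x.1, x.2))
    (fun x hx => (Finset.mem_filter.1 hx).2.2)]
  refine Finset.sum_congr rfl (fun f hf => ?_)
  induction f with
  | h i j =>
    have hd : i ≠ j := by
      have := hG hf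
      rw [mem_pairs] at this
      simpa using this
    have hfil : ((univ : Finset (V × V)).filter
        (fun x => x.2 ≠ x.1 ∧ s(x.1, x.2) ∈ G)).filter (fun x => s(x.1, x.2) = s(i, j)) =
        {(i, j), (j, i)} := by
      ext x
      obtain ⟨a, b⟩ := x
      simp only [Finset.mem_filter, Finset.mem_univ, true_and, Finset.mem_insert,
        Finset.mem_singleton, Prod.mk.injEq]
      constructor
      · rintro ⟨-, h2⟩
        rw [Sym2.eq_iff] at h2
        exact h2
      · intro h2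
        rcases h2 with ⟨rfl, rfl⟩ | ⟨rfl, rfl⟩
        · exact ⟨⟨Ne.symm hd, hf⟩, rfl⟩
        · refine ⟨⟨hd, ?_⟩, Sym2.eq_swap⟩
          rw [Sym2.eq_swap]; exact hf
    rw [hfil, Finset.sum_pair]
    · exact (h i j hd hf).symm
    · intro h2
      rw [Prod.mk.injEq] at h2
      exact hd h2.1

/-- the stress vector at `i` -/
noncomputable def sv {V : Type} [Fintype V] {k : ℕ} (p : V → Fin k → ℝ) (G : Finset (Sym2 V))
    (ω : Sym2 V → ℝ) (i : V) : Fin k → ℝ := ∑ j ∈ nbr G i, ω s(i, j) • (p i - p j)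

lemma sum_dot {k : ℕ} {ι : Type} (s : Finset ι) (f : ι → Fin k → ℝ) (y : Fin k → ℝ) :
    dot (∑ i ∈ s, f i) y = ∑ i ∈ s, dot (f i) y := by
  induction s using Finset.induction_on with
  | empty => simp [zero_dot]
  | insert i s hi ih => rw [Finset.sum_insert hi, Finset.sum_insert hi, add_dot, ih]

lemma stress_sum {V : Type} [Fintype V] {k : ℕ} (p X : V → Fin k → ℝ) (G : Finset (Sym2 V))
    (hG : G ⊆ pairs V) (ω : Sym2 V → ℝ) :
    ∑ f ∈ G, ω f * ell p X f = ∑ i, dot (sv p G ω i) (X i) := by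
  rw [dart_sum G hG (fun i j => ω s(i, j) * dot (p i - p j) (X i)) (fun f => ω f * ell p X f)]
  · refine Finset.sum_congr rfl (fun i _ => ?_)
    rw [sv, sum_dot]
    refine Finset.sum_congr rfl (fun j _ => ?_)
    rw [smul_dot]
  · intro i j _ _
    have h1 : s(j, i) = s(i, j) := Sym2.eq_swap
    simp only [ell_mk, h1]
    rw [dot_sub, ← dot_neg_neg (p j - p i) (X j), neg_sub]
    have h2 : dot (p i - p j) (-X j) = - dot (p i - p j) (X j) := by
      have := dot_smul (p i - p j) (X j) (-1)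
      simpa using this
    rw [h2]
    ring

/-- `ell` as a linear map -/
noncomputable def L {V : Type} {k : ℕ} (p : V → Fin k → ℝ) (e : Sym2 V) :
    (V → Fin k → ℝ) →ₗ[ℝ] ℝ where
  toFun X := ell p X e
  map_add' X Y := ell_add p X Y e
  map_smul' a X := by simpa using ell_smul p X a e

lemma exists_stress {V : Type} [Fintype V] {k : ℕ} (p : V → Fin k → ℝ) (G : Finset (Sym2 V))
    (hG : G ⊆ pairs V) (e : Sym2 V) (he : e ∈ G) (h : Cl p (G.erase e) e) :
    ∃ ω : Sym2 V → ℝ, ω e ≠ 0 ∧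
      ∀ i : V, ∑ j ∈ nbr G i, ω s(i, j) • (p i - p j) = 0 := by
  have h1 : L p e ∈ Submodule.span ℝ (Set.range (fun f : {f // f ∈ G.erase e} => L p f.1)) := by
    apply mem_span_of_iInf_ker_le_ker
    intro X hX
    rw [LinearMap.mem_ker]
    apply h X
    rw [mem_Mot]
    refine ⟨fun i hi => absurd hi (Finset.notMem_empty i), fun f hf => ?_⟩
    have := (Submodule.mem_iInf _).1 hX ⟨f, hf⟩
    exact LinearMap.mem_ker.1 this
  obtain ⟨c, hc⟩ := (Submodule.mem_span_range_iff_exists_fun ℝ).1 h1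
  let ω : Sym2 V → ℝ := fun f => if hf : f ∈ G.erase e then -c ⟨f, hf⟩ else 1
  have hωe : ω e = 1 := by simp [ω]
  have hsum : ∀ X : V → Fin k → ℝ, ∑ f ∈ G, ω f * ell p X f = 0 := by
    intro X
    rw [← Finset.add_sum_erase G _ he, hωe]
    have h2 : ∑ f ∈ G.erase e, ω f * ell p X f =
        ∑ f : {f // f ∈ G.erase e}, (-c f) * ell p X f.1 := by
      rw [← Finset.sum_attach (G.erase e)]
      rw [← Finset.univ_eq_attach]
      refine Finset.sum_congr rfl (fun f _ => ?_)
      have : ω f.1 = -c f := by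
        simp only [ω]
        rw [dif_pos f.2]
      rw [this]
    rw [h2]
    have h3 := congrArg (fun T : (V → Fin k → ℝ) →ₗ[ℝ] ℝ => T X) hc
    simp only [LinearMap.sum_apply, LinearMap.smul_apply, smul_eq_mul] at h3
    have h4 : ∑ f : {f // f ∈ G.erase e}, c f * ell p X f.1 = ell p X e := h3
    rw [← h4]
    rw [one_mul, ← Finset.sum_add_distrib]
    apply Finset.sum_eq_zero
    intro f _
    ring
  refine ⟨ω, by rw [hωe]; exact one_ne_zero, fun i => ?_⟩
  have h5 := hsum (sv p G ω)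
  rw [stress_sum p _ G hG ω] at h5
  have h6 := (Finset.sum_eq_zero_iff_of_nonneg
    (fun i _ => dot_self_nonneg (sv p G ω i))).1 h5 i (Finset.mem_univ i)
  exact dot_self_eq_zero _ h6

lemma cl_of_stress {V : Type} [Fintype V] {k : ℕ} (p : V → Fin k → ℝ) (G : Finset (Sym2 V))
    (hG : G ⊆ pairs V) (e : Sym2 V) (he : e ∈ G) (ω : Sym2 V → ℝ) (hω : ω e ≠ 0)
    (h : ∀ i : V, ∑ j ∈ nbr G i, ω s(i, j) • (p i - p j) = 0) : Cl p (G.erase e) e := by
  intro X hX
  have h1 := stress_sum p X G hG ω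
  have h2 : ∑ i, dot (sv p G ω i) (X i) = 0 := by
    apply Finset.sum_eq_zero
    intro i _
    have : sv p G ω i = 0 := h i
    rw [this, zero_dot]
  rw [h2, ← Finset.add_sum_erase G _ he] at h1
  have h3 : ∑ f ∈ G.erase e, ω f * ell p X f = 0 := by
    apply Finset.sum_eq_zero
    intro f hf
    rw [hX.2 f hf, mul_zero]
  rw [h3, add_zero] at h1
  rcases mul_eq_zero.1 h1 with h4 | h4
  · exact absurd h4 hω
  · exact h4

end STR_

theorem str_proof (h1 : Stmt_INV) (_h2 : Stmt_LIN) : Stmt_STR := by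
  intro V _ k p q G hG
  refine ⟨fun e he => ⟨fun h => STR_.exists_stress p G hG e he h, ?_⟩, fun hp hq => ?_⟩
  · rintro ⟨ω, hω, h⟩
    exact STR_.cl_of_stress p G hG e he ω hω h
  · ext e
    rw [mem_Red, mem_Red]
    constructor
    · rintro ⟨he, h⟩
      exact ⟨he, h1 V k p q hp hq _ _ h⟩
    · rintro ⟨he, h⟩
      exact ⟨he, h1 V k q p hq hp _ _ h⟩

end Pool.Agent.GRR
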