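import Pool.Agent.GRR.Stmts

set_option autoImplicit false

open Finset
open scoped Classical

namespace Pool.Agent.GRR

namespace SUB_

variable {V : Type} [Fintype V] {k : ℕ}

/-- an isolated vertex is in no clique with at least two vertices -/
lemma isol (h2 : Stmt_STA) (hk : 1 ≤ k) (p : V → Fin k → ℝ) (hp : Gnr p) (G : Finset (Sym2 V))
    (v : V) (Q : Finset V) (hQ : 2 ≤ Q.card) (hC : Clq p (del G v) Q) : v ∉ Q := by
  intro hv
  obtain ⟨q, hq, hqv⟩ := Finset.exists_mem_ne (by omega : 1 < Q.card) v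
  obtain ⟨D, hD⟩ := (h2 V k p hp v {q} (by simpa using hqv.symm)).1 (by simpa using hk) (fun _ => 1)
  have hD' := hD q (mem_singleton_self q)
  have hX : (fun i => if i = v then D else 0 : V → Fin k → ℝ) ∈ Mot p ∅ (del G v) := by
    rw [mem_Mot]
    refine ⟨fun i hi => absurd hi (notMem_empty i), fun e he => ?_⟩
    rw [mem_del] at he
    rw [← ell_zero p e]
    refine ell_congr e (fun i _ => rfl) (fun i hi => ?_)
    have hne : i ≠ v := fun h => he.2 (h ▸ hi)
    show (if i = v then D else 0) = 0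
    rw [if_neg hne]
  have h := hC v hv q hq _ hX
  rw [ell_mk] at h
  rw [if_pos rfl, if_neg hqv, sub_zero, hD'] at h
  exact one_ne_zero h

lemma two (p : V → Fin k → ℝ) (G : Finset (Sym2 V)) (Q : Finset V) : Q ⊆ fr p Q G := by
  intro v hv
  rw [mem_fr]
  exact fun X hX => hX.1 v hv

/-- a largest clique is frozen -/
lemma top_fr (h1 : Stmt_FRZ) (p : V → Fin k → ℝ) (hp : Gnr p) (G : Finset (Sym2 V)) (Q : Finset V)
    (hk : k + 1 ≤ Q.card) (hC : Clq p G Q) (hm : Q.card = mcl p G) : fr p Q G = Q := by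
  have h := (h1 V k p hp G Q hk hC).2.2.1
  exact (eq_of_subset_of_card_le (two p G Q) (by rw [hm]; exact le_mcl h)).symm

end SUB_

open SUB_ in
theorem sub_proof (h1 : Stmt_FRZ) (h2 : Stmt_STA) : Stmt_SUB := by
  intro V _ k hk p hp G s g t hG Q hQ
  have hbig := hG.big
  have hn2 := hG.n2
  have hQk : k + 1 ≤ Q.card := by rw [hQ.2]; omega
  have hfr : fr p Q G = Q := top_fr h1 p hp G Q hQk hQ.1 hQ.2
  refine ⟨hfr, fun v => ?_⟩
  obtain ⟨Q', hC', hm'⟩ := exists_mcl p (del G v)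
  have hrob := hG.rob v
  have hQ2 := hQ.2
  have hdel : del G v ⊆ G := filter_subset _ _
  have hCG : Clq p G Q' := Clq_mono hdel (subset_refl _) hC'
  have hg' : g ≤ Q'.card := by omega
  have hU : Clq p G (Q ∪ Q') := hG.uni Q Q' (by omega) hg' hQ.1 hCG
  have hUQ : Q = Q ∪ Q' := eq_of_subset_of_card_le subset_union_left (by rw [hQ2]; exact le_mcl hU)
  have hsub : Q' ⊆ Q := by
    rw [hUQ]; exact subset_union_right
  have hinter : Q ∩ Q' = Q' := inter_eq_right.2 hsub
  refine ⟨Q', hsub, isol h2 (by omega) p hp G v Q' (by omega) hC', hC', by omega, hg', ?_, ?_⟩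
  · have h4 := (h1 V k p hp G Q hQk hQ.1).2.2.2.1 Q' (by omega) hCG (by rw [hinter]; omega)
    rw [h4.2.2.2, hfr]
  · exact top_fr h1 p hp (del G v) Q' (by omega) hC' hm'

end Pool.Agent.GRR
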