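import Pool.Agent.GRR.Stmts

/-!
# TGD: deleting a good vertex keeps the redundant subgraph rigid
-/

set_option autoImplicit false

open Finset
open scoped Classical

namespace Pool.Agent.GRR

namespace TGD_

variable {V : Type} [Fintype V]

/-- deleting the edges at `v` and adding the star again gives back the graph -/
lemma del_union_star {G : Finset (Sym2 V)} (hG : G ⊆ pairs V) (v : V) :
    del G v ∪ star v (nbr G v) = G := by
  ext e
  simp only [mem_union, mem_del, mem_star, mem_nbr]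
  constructor
  · rintro (⟨h, _⟩ | ⟨u, ⟨_, hu⟩, rfl⟩)
    · exact h
    · exact hu
  · intro he
    by_cases hv : v ∈ e
    · right
      obtain ⟨u, rfl⟩ := hv
      refine ⟨u, ⟨?_, he⟩, rfl⟩
      rintro rfl
      have h1 := hG he
      rw [mem_pairs] at h1
      exact h1 (by simp)
    · left
      exact ⟨he, hv⟩

/-- `G` without the edges at `v` as a difference -/
lemma sdiff_inc (G G' : Finset (Sym2 V)) (hG : G' ⊆ G) (v : V) :
    G' \ inc G {v} = del G' v := by
  ext e
  simp only [mem_sdiff, mem_inc, mem_del, mem_singleton, exists_eq_left]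
  constructor
  · rintro ⟨h1, h2⟩
    exact ⟨h1, fun h3 => h2 ⟨hG h1, h3⟩⟩
  · rintro ⟨h1, h2⟩
    exact ⟨h1, fun h3 => h2 h3.2⟩

/-- an isolated vertex outside `Q` is free -/
lemma free_isolated {k : ℕ} (hk : 1 ≤ k) (p : V → Fin k → ℝ) (H : Finset (Sym2 V)) (Q : Finset V)
    (v : V) (hv : v ∉ Q) (hH : ∀ e ∈ H, v ∉ e) : ∃ X ∈ Mot p Q H, X v ≠ 0 := by
  let X : V → Fin k → ℝ := fun w => if w = v then (fun _ => 1) else 0
  have hX : ∀ w, w ≠ v → X w = 0 := fun w hw => by simp only [X, if_neg hw]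
  refine ⟨X, ?_, ?_⟩
  · rw [mem_Mot]
    refine ⟨fun i hi => hX i (fun h => hv (h ▸ hi)), fun e he => ?_⟩
    rw [ell_congr (p := p) (X := X) (p' := p) (X' := 0) e (fun _ _ => rfl)
      (fun i hi => hX i (fun h => hH e he (h ▸ hi)))]
    exact ell_zero p e
  · intro h
    have h1 := congrFun h ⟨0, hk⟩
    simp only [X, if_pos rfl, Pi.zero_apply] at h1
    exact one_ne_zero h1

end TGD_

open TGD_

theorem tgd_proof (h1 : Stmt_SUB) (h2 : Stmt_CVA) (h3 : Stmt_CVB) (h4 : Stmt_RDF)
    (h5 : Stmt_SRG) (h6 : Stmt_PEL) (h7 : Stmt_PIP) (h8 : Stmt_TRI) (h9 : Stmt_BIG)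
    (_h10 : Stmt_FRZ) : Stmt_TGD := by
  intro V _ k hk p hp G s g t hGG hne v hv hgood
  obtain ⟨Q, hQ1, hQ2⟩ := exists_mcl p G
  have hTop : TopQ p G Q := ⟨hQ1, hQ2⟩
  obtain ⟨hWQ, hRsub, hRcl⟩ := h6 V k hk p hp G s g t hGG hne Q hTop
  obtain ⟨_, hS⟩ := h1 V k hk p hp G s g t hGG Q hTop
  obtain ⟨Q', hQ'Q, hvQ', hclQ', hcard, hg, hfrG, hfrH⟩ := hS v
  have hG := hGG.sub
  obtain ⟨hDec, hGen⟩ := hgood Q' hg hclQ'
  have hRG : Red p G ⊆ G := fun e he => ((mem_Red p G e).1 he).1
  have hHp : del G v ⊆ pairs V := fun e he => hG ((mem_del G v e).1 he).1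
  have hHv : ∀ e ∈ del G v, v ∉ e := fun e he => ((mem_del G v e).1 he).2
  have hk1 : k + 1 ≤ Q'.card := by have := hGG.n2; omega
  have hvU : v ∉ nbr G v := fun h => ((mem_nbr G v v).1 h).1 rfl
  have hvQ : v ∈ Q := hWQ hv
  -- at least k frozen neighbours
  have hF : k ≤ (nbr G v ∩ fr p Q' (del G v)).card := by
    by_contra hlt
    obtain ⟨_, hb⟩ := h3 V k hk p hp (del G v) Q' (nbr G v) v hHp hHv hk1 hvQ' hclQ' hvU hDec hGen
      (not_le.1 hlt)
    obtain ⟨X, hX, hXv⟩ := hb v (free_isolated (by omega) p (del G v) Q' v hvQ' hHv)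
    rw [del_union_star hG v] at hX
    have : v ∈ fr p Q' G := by rw [hfrG]; exact hvQ
    exact hXv ((mem_fr p Q' G v).1 this X hX)
  obtain ⟨_, hcol⟩ := h2 V k p hp (del G v) Q' (nbr G v) v hHp hHv hk1 hvQ' hclQ' hvU hDec hF
  rw [del_union_star hG v, hfrH] at hcol
  -- the neighbours of `v` in `Red` are in `Q'`
  have hN : ∀ u, s(v, u) ∈ Red p G → u ∈ Q' := by
    intro u hu
    by_contra hu'
    have hu1 := (mem_Red p G _).1 hu
    have hne : u ≠ v := by
      rintro rfl
      have h1 := hG hu1.1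
      rw [mem_pairs] at h1
      exact h1 (by simp)
    exact hcol u ((mem_nbr G v u).2 ⟨hne, hu1.1⟩) hu' hu1.2
  -- the part of `vts (Red p G)` in `Q'` is a clique
  obtain ⟨_, hR2, _, _, _⟩ := h4 V k p hp G hG
  have hcl1 : Clq p (del (Red p G) v) (vts (Red p G) ∩ Q') := by
    intro i hi j hj
    rw [mem_inter] at hi hj
    have h := hR2 (Red p G) hRG (subset_refl _) (inc G {v}) s(i, j) (hRcl i hi.1 j hj.1)
      (by rw [sdiff_inc G G (subset_refl _) v]; exact hclQ' i hi.2 j hj.2)
    rw [sdiff_inc G (Red p G) hRG v] at h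
    exact h
  -- sizes
  obtain ⟨hbig, _⟩ := h9 V k hk p hp s G hG hGG.spr hne
  have hn3 := hGG.n3
  have hn4 := hGG.n4
  let Y : Finset V := (vts (Red p G)).erase v \ Q'
  have hYQ : Y ⊆ Q \ Q' := by
    intro y hy
    simp only [Y, mem_sdiff, mem_erase] at hy
    exact mem_sdiff.2 ⟨hWQ hy.1.2, hy.2⟩
  have hYt : Y.card ≤ t := by
    have h := card_le_card hYQ
    have h' := card_sdiff_add_card_eq_card hQ'Q
    omega
  have hWQ' : k + 1 ≤ (vts (Red p G) ∩ Q').card := by
    have h := card_le_card (sdiff_subset_sdiff hWQ (subset_refl Q'))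
    have h' := card_sdiff_add_card_eq_card hQ'Q
    have h'' := card_sdiff_add_card_inter (vts (Red p G)) Q'
    have : (k + 2) * (t + 1) = k * t + k + 2 * t + 2 := by ring
    omega
  -- Y is pinned
  have hYM : Mot p (univ \ Y) (del (Red p G) v) = ⊥ := by
    refine h5 V k hk p hp s G (del (Red p G) v) Y hG hGG.spr
      (fun e he => hRG ((mem_del _ v e).1 he).1) ?_ ?_ ?_
    · have : (k + 1) * Y.card ≤ (k + 1) * t := Nat.mul_le_mul_left _ hYt
      have h' : (k + 2) * (t + 1) = (k + 1) * t + t + k + 2 := by ring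
      omega
    · have : (2 * k + 2) * Y.card ≤ (2 * k + 2) * t := Nat.mul_le_mul_left _ hYt
      have h' : (2 * k + 3) * (t + 1) = (2 * k + 2) * t + t + (2 * k + 3) := by ring
      omega
    · intro X hX
      by_cases hXe : X.Nonempty
      · have hXW : X ⊆ vts (Red p G) := by
          intro x hx
          have := hX hx
          simp only [Y, mem_sdiff, mem_erase] at this
          exact this.1.2
        have hX2 : k + 1 ≤ (vts (Red p G) \ X).card := by
          refine le_trans hWQ' (card_le_card ?_)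
          intro w hw
          rw [mem_inter] at hw
          refine mem_sdiff.2 ⟨hw.1, fun hwX => ?_⟩
          have := hX hwX
          simp only [Y, mem_sdiff, mem_erase] at this
          exact this.2 hw.2
        have h := h7 V k hk p hp (Red p G) (fun e he => hG (hRG he)) hRcl
          (fun e he => (h4 V k p hp G hG).1 e he) X hXW hXe hX2
        have heq : inc (Red p G) X ⊆ inc (del (Red p G) v) X := by
          intro e he
          obtain ⟨heR, i, hiX, hie⟩ := (mem_inc _ _ _).1 he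
          refine (mem_inc _ _ _).2 ⟨(mem_del _ _ _).2 ⟨heR, fun hve => ?_⟩, i, hiX, hie⟩
          obtain ⟨u, rfl⟩ := hve
          have hu := hN u heR
          have hiY := hX hiX
          simp only [Y, mem_sdiff, mem_erase] at hiY
          rcases Sym2.mem_iff.1 hie with rfl | rfl
          · exact hiY.1.1 rfl
          · exact hiY.2 hu
        have := card_le_card heq
        omega
      · rw [not_nonempty_iff_eq_empty] at hXe
        subst hXe
        simp
  -- conclusion
  intro i hi j hj X hX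
  obtain ⟨T, hT, hTX, _⟩ := h8 V k p hp (vts (Red p G) ∩ Q') hWQ' X
    (fun a ha b hb => hcl1 a ha b hb X hX)
  let Z : V → Fin k → ℝ := fun w => if w ∈ Y then X w - T w else 0
  have hXT : ∀ w ∈ (vts (Red p G)).erase v, Z w = (X - T) w := by
    intro w hw
    by_cases hwY : w ∈ Y
    · simp only [Z, if_pos hwY, Pi.sub_apply]
    · have hwQ : w ∈ Q' := by
        by_contra h
        exact hwY (mem_sdiff.2 ⟨hw, h⟩)
      have := hTX w (mem_inter.2 ⟨(mem_erase.1 hw).2, hwQ⟩)
      simp only [Z, if_neg hwY, Pi.sub_apply, this, sub_self]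
  have hZ : Z ∈ Mot p (univ \ Y) (del (Red p G) v) := by
    rw [mem_Mot]
    refine ⟨fun w hw => ?_, fun e he => ?_⟩
    · have : w ∉ Y := (mem_sdiff.1 hw).2
      simp only [Z, if_neg this]
    · have he' := (mem_del _ v e).1 he
      rw [ell_congr (p := p) (X := Z) (p' := p) (X' := X - T) e (fun _ _ => rfl) (fun w hw =>
        hXT w (mem_erase.2 ⟨fun h => he'.2 (h ▸ hw), (mem_vts _ _).2 ⟨e, he'.1, hw⟩⟩)), ell_sub,
        hT e, hX.2 e he, sub_zero]
  rw [hYM, Submodule.mem_bot] at hZ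
  have hfin : ∀ w ∈ (vts (Red p G)).erase v, X w = T w := by
    intro w hw
    have h := hXT w hw
    rw [hZ] at h
    simp only [Pi.zero_apply, Pi.sub_apply] at h
    exact (sub_eq_zero.1 h.symm)
  rw [ell_congr (p := p) (X := X) (p' := p) (X' := T) s(i, j) (fun _ _ => rfl) (fun w hw => ?_)]
  · exact hT _
  · rcases Sym2.mem_iff.1 hw with rfl | rfl
    · exact hfin _ hi
    · exact hfin _ hj

end Pool.Agent.GRR
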