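import Pool.Agent.GRR.Stmts

/-!
# GRR, module TIG : peeling a tight set off a rigid graph
-/

set_option autoImplicit false

open Finset
open scoped Classical

namespace Pool.Agent.GRR

namespace TIG_

/-- a configuration supported on `X` does not see the edges that miss `X` -/
theorem ell_supp {V : Type} [Fintype V] {k : ℕ} (p Z : V → Fin k → ℝ) (X : Finset V)
    (hZ : ∀ i ∈ univ \ X, Z i = 0) (e : Sym2 V) (he : ∀ i ∈ e, i ∉ X) : ell p Z e = 0 := by
  have h1 : ell p Z e = ell p 0 e := by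
    apply ell_congr e (fun i _ => rfl)
    intro i hi
    rw [hZ i (by simp [he i hi])]
    rfl
  rw [h1, ell_zero]

end TIG_

theorem tig_proof (h1 : Stmt_FRZ) (h2 : Stmt_LIN) : Stmt_TIG := by
  intro V _ k hk p hp G Q X hG hXQ hQ hc
  have hcQ : Clq p (sub G Q) (Q \ X) := Clq_mono (subset_refl _) sdiff_subset hQ
  -- the kernel is zero
  have hker : ∀ Z : V → Fin k → ℝ, (∀ i ∈ univ \ X, Z i = 0) →
      (∀ e ∈ inc (sub G Q) X, ell p Z e = 0) → Z = 0 := by
    intro Z hZ hZe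
    obtain ⟨-, -, -, h4, -, -⟩ := h1 V k p hp (sub G Q) (Q \ X) hc hcQ
    have hint : Q \ X ∩ Q = Q \ X := by
      ext v; simp only [mem_inter, mem_sdiff]; tauto
    have hQc : k + 1 ≤ Q.card := hc.trans (card_le_card sdiff_subset)
    obtain ⟨h5, -, -, -⟩ := h4 Q hQc hQ (by rw [hint]; omega)
    have hM : Z ∈ Mot p (Q \ X) (sub G Q) := by
      rw [mem_Mot]
      refine ⟨fun i hi => hZ i (by simp [(mem_sdiff.1 hi).2]), fun e he => ?_⟩
      by_cases hx : ∃ i ∈ X, i ∈ e
      · exact hZe e (by rw [mem_inc]; exact ⟨he, hx⟩)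
      · push Not at hx
        exact TIG_.ell_supp p Z X hZ e (fun i hi hiX => hx i hiX hi)
    funext i
    by_cases hi : i ∈ X
    · have := h5 (hXQ hi)
      rw [mem_fr] at this
      exact this Z hM
    · exact hZ i (by simp [hi])
  have hbot : Mot p (univ \ X) (inc (sub G Q) X) = ⊥ := by
    rw [eq_bot_iff]
    intro Z hZ
    rw [mem_Mot] at hZ
    rw [Submodule.mem_bot]
    exact hker Z hZ.1 hZ.2
  obtain ⟨hl1, -, -, -, hl5, hl6, -, -⟩ := h2 V k p (univ \ X) (inc (sub G Q) X) ∅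
  have hcard : (univ \ (univ \ X) : Finset V).card = X.card := by
    congr 1; ext v; simp
  rw [hbot, hcard, finrank_bot] at hl5 hl6
  refine ⟨by omega, fun heq => ?_⟩
  have hInd : Ind p (univ \ X) (inc (sub G Q) X) ∅ := hl5.2 (by omega)
  have hsurj : ∀ r : Sym2 V → ℝ, ∃ Z : V → Fin k → ℝ, (∀ i ∈ univ \ X, Z i = 0) ∧
      ∀ e ∈ inc (sub G Q) X, ell p Z e = r e := by
    intro r
    obtain ⟨Z, ha, hb, -⟩ := hl1 hInd r (fun _ => 0)
    exact ⟨Z, ha, hb⟩
  constructor
  · intro i hi j hj Y hY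
    obtain ⟨Z, hZ0, hZe⟩ := hsurj (fun e => - ell p Y e)
    have hM : Y + Z ∈ Mot p ∅ (sub G Q) := by
      rw [mem_Mot]
      refine ⟨fun i hi => absurd hi (notMem_empty i), fun e he => ?_⟩
      rw [ell_add]
      by_cases hx : ∃ i ∈ X, i ∈ e
      · rw [hZe e (by rw [mem_inc]; exact ⟨he, hx⟩)]; ring
      · push Not at hx
        rw [TIG_.ell_supp p Z X hZ0 e (fun i hi hiX => hx i hiX hi), add_zero]
        apply hY.2 e
        rw [mem_sub] at he ⊢
        refine ⟨he.1, fun i hi => ?_⟩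
        rw [mem_sdiff]
        exact ⟨he.2 i hi, fun hiX => hx i hiX hi⟩
    have h3 := hQ i (mem_sdiff.1 hi).1 j (mem_sdiff.1 hj).1 (Y + Z) hM
    rw [ell_add, TIG_.ell_supp p Z X hZ0 s(i, j), add_zero] at h3
    · exact h3
    · intro v hv
      rw [Sym2.mem_iff] at hv
      rcases hv with rfl | rfl
      · exact (mem_sdiff.1 hi).2
      · exact (mem_sdiff.1 hj).2
  · intro e he hcl
    obtain ⟨Z, hZ0, hZe⟩ := hsurj (fun f => if f = e then 1 else 0)
    have hM : Z ∈ Mot p ∅ ((sub G Q).erase e) := by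
      rw [mem_Mot]
      refine ⟨fun i hi => absurd hi (notMem_empty i), fun f hf => ?_⟩
      by_cases hx : ∃ i ∈ X, i ∈ f
      · rw [hZe f (by rw [mem_inc]; exact ⟨(mem_erase.1 hf).2, hx⟩), if_neg (mem_erase.1 hf).1]
      · push Not at hx
        exact TIG_.ell_supp p Z X hZ0 f (fun i hi hiX => hx i hiX hi)
    have h3 := hcl Z hM
    rw [hZe e he, if_pos rfl] at h3
    exact one_ne_zero h3

end Pool.Agent.GRR
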