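import Pool.Agent.GRR.Stmts

/-! Module TLM: the neighbourhood of a vertex whose deletion leaves a rigid graph is congruent -/

set_option autoImplicit false
open Finset
open scoped Classical

namespace Pool.Agent.GRR

theorem tlm_proof (h1 : Stmt_ALG) (h2 : Stmt_AFF) : Stmt_TLM := by
  intro V _ k p hk hp R W v hR hv hW hC hT q hq
  obtain ⟨q', hq', hacl⟩ := h1 V k p hk hp R W hR hW hC q (fun e he => hq e ((mem_sub R W e).1 he).1)
  have hnb : ∀ w ∈ nbr R v ∩ W, s(v, w) ∈ R := fun w hw =>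
    ((mem_nbr R v w).1 (mem_inter.1 hw).1).2
  have h3 := h2 V k p hp W (nbr R v ∩ W) v hv inter_subset_right hT q' hacl (fun w hw => by
    rw [hq', hq _ (hnb w hw)])
  have h4 : ∀ w ∈ nbr R v ∩ W, ∀ w' ∈ nbr R v ∩ W, len q s(w, w') = len p s(w, w') := by
    intro w hw w' hw'
    rw [← hq', h3 w hw w' hw']
  have h5 : ∀ w ∈ nbr R v ∩ W, len q s(v, w) = len p s(v, w) := fun w hw => hq _ (hnb w hw)
  intro i hi j hj
  rcases mem_insert.1 hi with hi | hi <;> rcases mem_insert.1 hj with hj | hj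
  · subst hi; subst hj
    simp [len_mk, dot_zero]
  · subst hi; exact h5 j hj
  · subst hj; rw [Sym2.eq_swap]; exact h5 i hi
  · exact h4 i hi j hj

end Pool.Agent.GRR
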