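import Pool.Agent.GRR.Stmts

set_option autoImplicit false

open Finset
open scoped Classical

namespace Pool.Agent.GRR

namespace TLT_

lemma dot_sub_smul {k : ℕ} (b x y : Fin k → ℝ) (t : ℝ) :
    dot b (x - t • y) = dot b x - t * dot b y := by
  rw [dot_sub, dot_smul]

/-- a functional that vanishes on the kernel of another one is a multiple -/
lemma multiple {V : Type} {k : ℕ} (M : Submodule ℝ (V → Fin k → ℝ)) (b a : Fin k → ℝ) (u v : V)
    (hv : ∃ X ∈ M, dot a (X v) ≠ 0)
    (h : ∀ X ∈ M, dot b (X u) = 0 → dot a (X v) = 0) :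
    ∃ c : ℝ, ∀ X ∈ M, dot b (X u) = c * dot a (X v) := by
  obtain ⟨X1, hX1, hX1v⟩ := hv
  have h0 : dot b (X1 u) ≠ 0 := fun h0 => hX1v (h X1 hX1 h0)
  refine ⟨dot b (X1 u) / dot a (X1 v), fun X hX => ?_⟩
  have h2 := h (X - (dot b (X u) / dot b (X1 u)) • X1) (M.sub_mem hX (M.smul_mem _ hX1)) (by
    rw [Pi.sub_apply, Pi.smul_apply, dot_sub_smul, div_mul_cancel₀ _ h0, sub_self])
  rw [Pi.sub_apply, Pi.smul_apply, dot_sub_smul] at h2
  have h3 : dot a (X v) = dot b (X u) / dot b (X1 u) * dot a (X1 v) := by linarith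
  rw [h3]
  field_simp

/-- an element of `M` with nonzero value at `u` in the kernel of the functional at `v` -/
lemma exists_ker {V : Type} {k : ℕ} (M : Submodule ℝ (V → Fin k → ℝ)) (a : Fin k → ℝ) (u v : V)
    (hv : ∃ X ∈ M, dot a (X v) ≠ 0) (h2 : 2 ≤ Module.finrank ℝ (Uat M u)) :
    ∃ X ∈ M, X u ≠ 0 ∧ dot a (X v) = 0 := by
  by_contra hcon
  push Not at hcon
  obtain ⟨X1, hX1, hX1v⟩ := hv
  have hle : Uat M u ≤ Submodule.span ℝ {X1 u} := by
    rintro y ⟨X, hX, rfl⟩
    rw [Submodule.mem_span_singleton]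
    refine ⟨dot a (X v) / dot a (X1 v), ?_⟩
    have h3 := hcon (X - (dot a (X v) / dot a (X1 v)) • X1) (M.sub_mem hX (M.smul_mem _ hX1))
    by_contra h4
    apply h3
    · rw [Pi.sub_apply, Pi.smul_apply, sub_ne_zero]
      exact fun h5 => h4 h5.symm
    · rw [Pi.sub_apply, Pi.smul_apply, dot_sub_smul, div_mul_cancel₀ _ hX1v, sub_self]
  have h5 := Submodule.finrank_mono hle
  have h6 := finrank_span_le_card (R := ℝ) ({X1 u} : Set (Fin k → ℝ))
  simp only [Set.toFinset_singleton, Finset.card_singleton] at h6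
  omega

end TLT_

theorem tlt_proof (hS : Stmt_STA) : Stmt_TLT := by
  intro V _ k p hp G U g s hg hB
  obtain ⟨Q, hQg, hQ, a, hrel, hne, hsum⟩ := hB
  by_cases hs : ∑ u ∈ supp (Mot p Q G) U a, (Module.finrank ℝ (Uat (Mot p Q G) u) - 1) ≤ s
  · exact Or.inl ⟨Q, hQg, hQ, a, hrel, hne, hs⟩
  right
  push Not at hs
  obtain ⟨u, hu, hu2⟩ : ∃ u ∈ supp (Mot p Q G) U a,
      Module.finrank ℝ (Uat (Mot p Q G) u) - 1 ≠ 0 := by
    by_contra hcon
    push Not at hcon
    rw [Finset.sum_eq_zero hcon] at hs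
    omega
  have hu3 : 2 ≤ Module.finrank ℝ (Uat (Mot p Q G) u) := by omega
  have huU : u ∈ U := (mem_filter.1 hu).1
  obtain ⟨Xu, hXu, hXu0⟩ := (mem_filter.1 hu).2
  have huQ : u ∉ Q := by
    intro h
    apply hXu0
    rw [hXu.1 u h, dot_zero]
  refine ⟨u, huU, ?_⟩
  -- bad elements
  set M := Mot p Q G with hM
  let bad : V → V → Prop := fun u' q => ∃ c : ℝ, ∀ X ∈ M, dot (p u - p q) (X u) = c * dot (a u') (X u')
  have hbad : ∀ u' ∈ supp M U a, (Q.filter (fun q => bad u' q)).card ≤ k := by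
    intro u' hu'
    by_contra hcon
    push Not at hcon
    obtain ⟨X, hX, hXu1, hX0⟩ := TLT_.exists_ker M (a u') u u' (mem_filter.1 hu').2 hu3
    apply hXu1
    have hnot : u ∉ Q.filter (fun q => bad u' q) := fun h => huQ (mem_filter.1 h).1
    refine (hS V k p hp u (Q.filter (fun q => bad u' q)) hnot).2 hcon.le (X u) ?_
    intro t ht
    obtain ⟨c, hc⟩ := (mem_filter.1 ht).2
    rw [hc X hX, hX0, mul_zero]
  have hgood : ∀ q ∈ Q, (∀ u' ∈ supp M U a, ¬ bad u' q) →
      Bad p g s (insert s(u, q) G) U := by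
    intro q hq hnb
    set M' := Mot p Q (insert s(u, q) G) with hM'
    have hM'M : M' ≤ M := Mot_mono p (subset_refl _) (subset_insert _ _)
    have hmem : ∀ X ∈ M, dot (p u - p q) (X u) = 0 → X ∈ M' := by
      intro X hX h0
      refine ⟨hX.1, fun e he => ?_⟩
      rcases mem_insert.1 he with rfl | he
      · rw [ell_mk, hX.1 q hq, sub_zero]
        exact h0
      · exact hX.2 e he
    have hmem' : ∀ X ∈ M', dot (p u - p q) (X u) = 0 := by
      intro X hX
      have h0 := hX.2 s(u, q) (mem_insert_self _ _)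
      rw [ell_mk, hX.1 q hq, sub_zero] at h0
      exact h0
    have hsupp : supp M' U a = supp M U a := by
      apply Finset.Subset.antisymm
      · intro v hv
        obtain ⟨h1, X, hX, h2⟩ := mem_filter.1 hv
        exact mem_filter.2 ⟨h1, X, hM'M hX, h2⟩
      · intro v hv
        refine mem_filter.2 ⟨(mem_filter.1 hv).1, ?_⟩
        by_contra hcon
        push Not at hcon
        exact hnb v hv (TLT_.multiple M (p u - p q) (a v) u v (mem_filter.1 hv).2
          (fun X hX h0 => hcon X (hmem X hX h0)))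
    have hmono : ∀ v, Module.finrank ℝ (Uat M' v) ≤ Module.finrank ℝ (Uat M v) :=
      fun v => Submodule.finrank_mono (Submodule.map_mono hM'M)
    have hlt : Module.finrank ℝ (Uat M' u) < Module.finrank ℝ (Uat M u) := by
      apply Submodule.finrank_lt_finrank_of_lt
      refine lt_of_le_of_ne (Submodule.map_mono hM'M) ?_
      intro heq
      apply hnb u hu
      refine ⟨0, fun X hX => ?_⟩
      have h1 : X u ∈ Uat M' u := by
        rw [heq]
        exact ⟨X, hX, rfl⟩
      obtain ⟨X', hX', h2⟩ := h1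
      have h3 : X' u = X u := h2
      rw [zero_mul, ← h3]
      exact hmem' X' hX'
    refine ⟨Q, hQg, Clq_mono (subset_insert _ _) (subset_refl _) hQ, a,
      fun X hX => hrel X (hM'M hX), ?_, ?_⟩
    · rw [← hM', hsupp]
      exact hne
    · rw [← hM', hsupp]
      have h1 : ∑ v ∈ supp M U a, (Module.finrank ℝ (Uat M' v) - 1) <
          ∑ v ∈ supp M U a, (Module.finrank ℝ (Uat M v) - 1) := by
        apply Finset.sum_lt_sum
        · intro v _
          have := hmono v
          omega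
        · exact ⟨u, hu, by omega⟩
      omega
  have hcover : Q ⊆ (univ.filter (fun q => q ≠ u ∧ Bad p g s (insert s(u, q) G) U)) ∪
      (supp M U a).biUnion (fun u' => Q.filter (fun q => bad u' q)) := by
    intro q hq
    by_cases h : ∀ u' ∈ supp M U a, ¬ bad u' q
    · apply mem_union_left
      exact mem_filter.2 ⟨mem_univ _, fun h' => huQ (h' ▸ hq), hgood q hq h⟩
    · push Not at h
      obtain ⟨u', hu', hb⟩ := h
      apply mem_union_right
      exact mem_biUnion.2 ⟨u', hu', mem_filter.2 ⟨hq, hb⟩⟩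
  have h1 := Finset.card_le_card hcover
  have h2 := Finset.card_union_le (univ.filter (fun q => q ≠ u ∧ Bad p g s (insert s(u, q) G) U))
      ((supp M U a).biUnion (fun u' => Q.filter (fun q => bad u' q)))
  have h3 := Finset.card_biUnion_le_card_mul (supp M U a) (fun u' => Q.filter (fun q => bad u' q))
    k hbad
  have h4 : (supp M U a).card * k ≤ U.card * k :=
    Nat.mul_le_mul_right k (Finset.card_le_card (Finset.filter_subset _ _))
  omega

end Pool.Agent.GRR
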