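import Pool.Agent.GRR.Stmts

set_option autoImplicit false

open Finset
open scoped Classical

namespace Pool.Agent.GRR

namespace TRD_

noncomputable section

/-- coordinates of a framework -/
def pr {V : Type} {k : ℕ} (p : V → EuclideanSpace ℝ (Fin k)) : V → Fin k → ℝ := fun v c => p v c

/-- framework with given coordinates -/
def un {V : Type} {k : ℕ} (p : V → Fin k → ℝ) : V → EuclideanSpace ℝ (Fin k) :=
  fun v => WithLp.toLp 2 (p v)

lemma pr_un {V : Type} {k : ℕ} (p : V → Fin k → ℝ) : pr (un p) = p := by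
  funext v c
  simp [pr, un]

lemma generic_iff {V : Type} {k : ℕ} (p : V → EuclideanSpace ℝ (Fin k)) :
    Problem.Generic Set.univ p ↔ Gnr (pr p) := by
  unfold Problem.Generic Gnr
  let e : ({v : V // v ∈ (Set.univ : Set V)} × Fin k) ≃ (V × Fin k) :=
    Equiv.prodCongr (Equiv.Set.univ V) (Equiv.refl _)
  have h : (fun x : {v : V // v ∈ (Set.univ : Set V)} × Fin k => p x.1 x.2)
      = (fun x : V × Fin k => pr p x.1 x.2) ∘ e := by
    funext x
    rfl
  rw [h]
  exact algebraicIndependent_equiv e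

lemma dist_iff {V : Type} {k : ℕ} (q q' : V → EuclideanSpace ℝ (Fin k)) (i j : V) :
    dist (q' i) (q' j) = dist (q i) (q j) ↔ len (pr q') s(i, j) = len (pr q) s(i, j) := by
  have key : ∀ r : V → EuclideanSpace ℝ (Fin k), len (pr r) s(i, j) = dist (r i) (r j) ^ 2 := by
    intro r
    rw [EuclideanSpace.dist_eq, Real.sq_sqrt (Finset.sum_nonneg (fun _ _ => sq_nonneg _))]
    rw [len_mk]
    unfold dot
    refine Finset.sum_congr rfl (fun c _ => ?_)
    rw [Real.dist_eq, sq_abs]
    simp only [pr, Pi.sub_apply]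
    ring
  rw [key, key]
  constructor
  · intro h
    rw [h]
  · intro h
    exact (pow_left_inj₀ dist_nonneg dist_nonneg (by norm_num)).1 h

lemma sum_iff {V : Type} [Fintype V] {k : ℕ} (p : V → EuclideanSpace ℝ (Fin k))
    (ω : V → V → ℝ) (i : V) :
    ∑ j, ω i j • (p i - p j) = 0 ↔ ∑ j, ω i j • (pr p i - pr p j) = 0 := by
  constructor
  · intro h
    funext c
    have := congrArg (fun x : EuclideanSpace ℝ (Fin k) => x c) h
    simpa [pr, Finset.sum_apply] using this
  · intro h
    ext c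
    have := congrFun h c
    simpa [pr, Finset.sum_apply] using this

lemma sub_pairs {V : Type} [Fintype V] (G : SimpleGraph V) : G.edgeFinset ⊆ pairs V := by
  intro e he
  rw [mem_pairs]
  exact G.not_isDiag_of_mem_edgeFinset he

/-- a stress that is not zero on `ij` makes `ij` redundant -/
lemma red_of_stress (h1 : Stmt_STR) {V : Type} [Fintype V] {k : ℕ} (G : SimpleGraph V)
    (p : V → EuclideanSpace ℝ (Fin k)) (ω : V → V → ℝ) (hω : Problem.IsStress G p ω) (i j : V)
    (hij : ω i j ≠ 0) : s(i, j) ∈ Red (pr p) G.edgeFinset := by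
  obtain ⟨hs, h0, hsum⟩ := hω
  have hadj : G.Adj i j := by
    by_contra h
    exact hij (h0 i j h)
  have hE : s(i, j) ∈ G.edgeFinset := by
    rw [SimpleGraph.mem_edgeFinset]; exact hadj
  rw [mem_Red]
  refine ⟨hE, ?_⟩
  rw [(h1 V k (pr p) (pr p) G.edgeFinset (sub_pairs G)).1 _ hE]
  refine ⟨Sym2.lift ⟨ω, hs⟩, by simpa using hij, ?_⟩
  intro a
  have h2 := (sum_iff p ω a).1 (hsum a)
  rw [← h2]
  have h3 : ∑ b ∈ nbr G.edgeFinset a, (Sym2.lift ⟨ω, hs⟩ : Sym2 V → ℝ) s(a, b) • (pr p a - pr p b)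
      = ∑ b ∈ nbr G.edgeFinset a, ω a b • (pr p a - pr p b) :=
    Finset.sum_congr rfl (fun b _ => by simp)
  rw [h3]
  refine Finset.sum_subset (Finset.subset_univ _) (fun b _ hb => ?_)
  rw [mem_nbr] at hb
  have h4 : ¬ G.Adj a b := by
    intro h
    exact hb ⟨h.ne', by rw [SimpleGraph.mem_edgeFinset]; exact h⟩
  rw [h0 a b h4, zero_smul]

lemma stress_of_red (h1 : Stmt_STR) {V : Type} [Fintype V] {k : ℕ} (G : SimpleGraph V)
    (p : V → Fin k → ℝ) (i j : V) (h : s(i, j) ∈ Red p G.edgeFinset) :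
    G.Adj i j ∧ ∃ ω : V → V → ℝ, Problem.IsStress G (un p) ω ∧ ω i j ≠ 0 := by
  rw [mem_Red] at h
  obtain ⟨hE, hc⟩ := h
  have hadj : G.Adj i j := by
    rw [SimpleGraph.mem_edgeFinset] at hE; exact hE
  refine ⟨hadj, ?_⟩
  rw [(h1 V k p p G.edgeFinset (sub_pairs G)).1 _ hE] at hc
  obtain ⟨w, hw, hsum⟩ := hc
  refine ⟨fun a b => if G.Adj a b then w s(a, b) else 0, ⟨?_, ?_, ?_⟩, by simpa [hadj] using hw⟩
  · intro a b
    simp only [G.adj_comm a b, Sym2.eq_swap (a := a) (b := b)]
  · intro a b hab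
    simp [hab]
  · intro a
    refine (sum_iff (un p) (fun a b => if G.Adj a b then w s(a, b) else 0) a).2 ?_
    rw [pr_un, ← hsum a]
    symm
    show ∑ b ∈ nbr G.edgeFinset a, w s(a, b) • (p a - p b)
      = ∑ b, (if G.Adj a b then w s(a, b) else 0) • (p a - p b)
    have h3 : ∑ b ∈ nbr G.edgeFinset a, w s(a, b) • (p a - p b)
      = ∑ b ∈ nbr G.edgeFinset a, (if G.Adj a b then w s(a, b) else 0) • (p a - p b) := by
      refine Finset.sum_congr rfl (fun b hb => ?_)
      rw [mem_nbr, SimpleGraph.mem_edgeFinset] at hb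
      have : G.Adj a b := hb.2
      simp [this]
    rw [h3]
    refine Finset.sum_subset (Finset.subset_univ _) (fun b _ hb => ?_)
    rw [mem_nbr] at hb
    have h4 : ¬ G.Adj a b := by
      intro h
      exact hb ⟨h.ne', by rw [SimpleGraph.mem_edgeFinset]; exact h⟩
    simp [h4]

lemma redundant_iff (h1 : Stmt_STR) {V : Type} [Fintype V] {k : ℕ} (G : SimpleGraph V)
    (p : V → Fin k → ℝ) (hp : Gnr p) (i j : V) :
    Problem.Redundant k G i j ↔ s(i, j) ∈ Red p G.edgeFinset := by
  constructor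
  · rintro ⟨_, q, hq, ω, hω, hij⟩
    have h2 := red_of_stress h1 G q ω hω i j hij
    rw [(h1 V k p (pr q) G.edgeFinset (sub_pairs G)).2 hp ((generic_iff q).1 hq)]
    exact h2
  · intro h
    obtain ⟨hadj, ω, hω, hij⟩ := stress_of_red h1 G p i j h
    refine ⟨hadj, un p, ?_, ω, hω, hij⟩
    rw [generic_iff, pr_un]
    exact hp

end

end TRD_

open TRD_ in
theorem trd_proof (h1 : Stmt_STR) (h2 : Stmt_EXT) (_h3 : Stmt_RDF) : Stmt_TRD := by
  intro V _ k G
  refine ⟨sub_pairs G, fun p hp i j => redundant_iff h1 G p hp i j, ?_, ?_⟩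
  · intro h p hp ω hω
    funext i j
    by_contra hij
    have h5 := red_of_stress h1 G p ω hω i j hij
    rw [h (pr p) ((generic_iff p).1 hp)] at h5
    exact absurd h5 (Finset.notMem_empty _)
  · intro p hp hR q hq q' hqq i hi j hj
    set R := Red p G.edgeFinset with hRdef
    have hadj : ∀ a b, (Problem.redundantSubgraph k G).Adj a b ↔ s(a, b) ∈ R :=
      fun a b => redundant_iff h1 G p hp a b
    have hsup : ∀ v, v ∈ (Problem.redundantSubgraph k G).support ↔ v ∈ vts R := by
      intro v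
      rw [SimpleGraph.mem_support, mem_vts]
      constructor
      · rintro ⟨w, hw⟩
        exact ⟨s(v, w), (hadj v w).1 hw, by simp⟩
      · rintro ⟨e, he, hv⟩
        obtain ⟨w, rfl⟩ := Sym2.mem_iff_exists.1 hv
        exact ⟨w, (hadj v w).2 he⟩
    have hgen : AlgebraicIndependent ℚ
        (fun x : {x : V × Fin k // x.1 ∈ vts R} => pr q x.1.1 x.1.2) := by
      let e : {x : V × Fin k // x.1 ∈ vts R} ≃
          ({v : V // v ∈ (Problem.redundantSubgraph k G).support} × Fin k) :=
        { toFun := fun x => (⟨x.1.1, (hsup _).2 x.2⟩, x.1.2)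
          invFun := fun x => ⟨(x.1.1, x.2), (hsup _).1 x.1.2⟩
          left_inv := fun x => rfl
          right_inv := fun x => rfl }
      have h : (fun x : {x : V × Fin k // x.1 ∈ vts R} => pr q x.1.1 x.1.2)
          = (fun x : {v : V // v ∈ (Problem.redundantSubgraph k G).support} × Fin k =>
              q x.1 x.2) ∘ e := by
        funext x
        rfl
      rw [h]
      exact (algebraicIndependent_equiv e).2 hq
    obtain ⟨p2, hp2, hp2q⟩ := h2 V k (vts R) (pr q) hgen
    rw [dist_iff]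
    have hi' := (hsup i).1 hi
    have hj' := (hsup j).1 hj
    have hg := hR i hi' j hj' p2 hp2 (pr q') ?_
    · rw [hg]
      simp only [len_mk]
      rw [hp2q i hi', hp2q j hj']
    · intro f hf
      induction f with
      | h a b =>
        have ha : a ∈ vts R := by rw [mem_vts]; exact ⟨_, hf, by simp⟩
        have hb : b ∈ vts R := by rw [mem_vts]; exact ⟨_, hf, by simp⟩
        have h6 := (dist_iff q q' a b).1 (hqq a b ((hadj a b).2 hf))
        rw [h6]
        simp only [len_mk]
        rw [hp2q a ha, hp2q b hb]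

end Pool.Agent.GRR
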