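import Pool.Agent.GRR.Stmts

set_option autoImplicit false
set_option linter.unusedSectionVars false

open Finset
open scoped Classical

namespace Pool.Agent.GRR

namespace TRI_

variable {k : ℕ}

lemma dot_eq (x y : Fin k → ℝ) : dot x y = x ⬝ᵥ y := rfl

lemma skew_dot (A : Matrix (Fin k) (Fin k) ℝ) (hA : A.transpose = -A) (w : Fin k → ℝ) :
    dot w (A.mulVec w) = 0 := by
  have h1 : w ⬝ᵥ A.mulVec w = (A.transpose.mulVec w) ⬝ᵥ w := by
    rw [Matrix.mulVec_transpose, Matrix.dotProduct_mulVec]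
  have h2 : (A.transpose.mulVec w) ⬝ᵥ w = -(w ⬝ᵥ A.mulVec w) := by
    rw [hA, Matrix.neg_mulVec, neg_dotProduct, dotProduct_comm]
  rw [dot_eq]
  linarith [h1.trans h2]

end TRI_

open TRI_ in
theorem tri_proof (hSTA : Stmt_STA) : Stmt_TRI := by
  intro V _ k p hp Q hQ X hX
  have hQne : Q.Nonempty := Finset.card_pos.1 (by omega)
  obtain ⟨q0, hq0⟩ := hQne
  have hce : k ≤ (Q.erase q0).card := by
    rw [Finset.card_erase_of_mem hq0]
    omega
  obtain ⟨T, hTs, hTc⟩ := Finset.exists_subset_card_eq hce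
  have hq0T : q0 ∉ T := fun h => (Finset.notMem_erase q0 Q) (hTs h)
  have hTQ : ∀ t ∈ T, t ∈ Q := fun t ht => Finset.mem_of_mem_erase (hTs ht)
  set τ : Fin k → V := fun t => ((T.equivFinOfCardEq hTc).symm t : V) with hτ
  have hτT : ∀ t, τ t ∈ T := fun t => ((T.equivFinOfCardEq hTc).symm t).2
  have hτinj : Function.Injective τ := by
    intro s t hst
    have : (T.equivFinOfCardEq hTc).symm s = (T.equivFinOfCardEq hTc).symm t := Subtype.ext hst
    exact (T.equivFinOfCardEq hTc).symm.injective this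
  have hτsurj : ∀ t ∈ T, ∃ s, τ s = t := by
    intro t ht
    refine ⟨T.equivFinOfCardEq hTc ⟨t, ht⟩, ?_⟩
    simp [hτ]
  -- dual basis
  have hdual : ∀ t : Fin k, ∃ D : Fin k → ℝ, ∀ s : Fin k,
      dot (p (τ s) - p q0) D = if s = t then 1 else 0 := by
    intro t
    obtain ⟨D, hD⟩ := (hSTA V k p hp q0 T hq0T).1 hTc.le (fun w => if w = τ t then -1 else 0)
    refine ⟨D, fun s => ?_⟩
    have h1 := hD (τ s) (hτT s)
    have h2 : p (τ s) - p q0 = -(p q0 - p (τ s)) := by abel
    rw [h2]
    have h3 : dot (-(p q0 - p (τ s))) D = -dot (p q0 - p (τ s)) D := by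
      rw [dot_eq, dot_eq, neg_dotProduct]
    rw [h3, h1]
    by_cases hst : s = t
    · simp [hst]
    · have : τ s ≠ τ t := fun h => hst (hτinj h)
      simp [hst, this]
  choose D hD using hdual
  let U : Matrix (Fin k) (Fin k) ℝ := Matrix.of (fun s c => p (τ s) c - p q0 c)
  let Dm : Matrix (Fin k) (Fin k) ℝ := Matrix.of (fun c t => D t c)
  let Xm : Matrix (Fin k) (Fin k) ℝ := Matrix.of (fun t c => X (τ t) c - X q0 c)
  have hUD : U * Dm = 1 := by
    ext s t
    rw [Matrix.mul_apply, Matrix.one_apply, ← hD t s]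
    rfl
  have hDU : Dm * U = 1 := mul_eq_one_comm.1 hUD
  let A : Matrix (Fin k) (Fin k) ℝ := Xm.transpose * Dm.transpose
  have hself : ∀ s : Fin k, dot (p (τ s) - p q0) (X (τ s) - X q0) = 0 := by
    intro s
    have := hX (τ s) (hTQ _ (hτT s)) q0 hq0
    rwa [ell_mk] at this
  have hS : U * Xm.transpose + Xm * U.transpose = 0 := by
    ext s t
    rw [Matrix.add_apply, Matrix.mul_apply, Matrix.mul_apply, Matrix.zero_apply]
    have e1 : ∑ c, U s c * Xm.transpose c t = dot (p (τ s) - p q0) (X (τ t) - X q0) := rfl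
    have e2 : ∑ c, Xm s c * U.transpose c t = dot (X (τ s) - X q0) (p (τ t) - p q0) := rfl
    rw [e1, e2, dot_comm (X (τ s) - X q0)]
    have h1 := hX (τ s) (hTQ _ (hτT s)) (τ t) (hTQ _ (hτT t))
    rw [ell_mk] at h1
    have h2 : p (τ s) - p (τ t) = (p (τ s) - p q0) - (p (τ t) - p q0) := by abel
    have h3 : X (τ s) - X (τ t) = (X (τ s) - X q0) - (X (τ t) - X q0) := by abel
    have h4 := hself s
    have h5 := hself t
    rw [h2, h3] at h1
    generalize p (τ s) - p q0 = a at h1 h4 ⊢
    generalize p (τ t) - p q0 = a' at h1 h5 ⊢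
    generalize X (τ s) - X q0 = x at h1 h4 ⊢
    generalize X (τ t) - X q0 = x' at h1 h5 ⊢
    rw [sub_dot, dot_sub, dot_sub] at h1
    linarith
  have hA : A.transpose = -A := by
    have h1 : Dm * (U * Xm.transpose + Xm * U.transpose) * Dm.transpose = 0 := by
      rw [hS, Matrix.mul_zero, Matrix.zero_mul]
    have h2 : Dm * (U * Xm.transpose + Xm * U.transpose) * Dm.transpose
        = Xm.transpose * Dm.transpose + Dm * Xm := by
      rw [Matrix.mul_add, Matrix.add_mul, ← Matrix.mul_assoc, hDU, Matrix.one_mul]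
      congr 1
      rw [Matrix.mul_assoc, Matrix.mul_assoc, ← Matrix.transpose_mul, hDU, Matrix.transpose_one,
        Matrix.mul_one]
    rw [h2] at h1
    have h3 : A.transpose = Dm * Xm := by
      show (Xm.transpose * Dm.transpose).transpose = Dm * Xm
      rw [Matrix.transpose_mul, Matrix.transpose_transpose, Matrix.transpose_transpose]
    rw [h3]
    exact eq_neg_of_add_eq_zero_right h1
  have hAu : ∀ t : Fin k, A.mulVec (p (τ t) - p q0) = X (τ t) - X q0 := by
    intro t
    have h1 : A * U.transpose = Xm.transpose := by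
      show Xm.transpose * Dm.transpose * U.transpose = Xm.transpose
      rw [Matrix.mul_assoc, ← Matrix.transpose_mul, hUD, Matrix.transpose_one, Matrix.mul_one]
    funext c
    have h2 := congrFun (congrFun h1 c) t
    rw [Matrix.mul_apply] at h2
    exact h2
  set b : Fin k → ℝ := X q0 - A.mulVec (p q0) with hb
  set Y : V → Fin k → ℝ := fun i => A.mulVec (p i) + b with hY
  have hYell : ∀ e : Sym2 V, ell p Y e = 0 := by
    intro e
    induction e with
    | h i j =>
      rw [ell_mk]
      have h1 : Y i - Y j = A.mulVec (p i - p j) := by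
        rw [hY, Matrix.mulVec_sub]
        simp only
        abel
      rw [h1]
      exact skew_dot A hA _
  have hYq0 : Y q0 = X q0 := by
    rw [hY, hb]
    simp only
    abel
  have hYτ : ∀ t, Y (τ t) = X (τ t) := by
    intro t
    have h1 := hAu t
    rw [Matrix.mulVec_sub] at h1
    rw [hY, hb]
    simp only
    have h2 : A.mulVec (p (τ t)) = X (τ t) - X q0 + A.mulVec (p q0) := by
      rw [← h1]
      abel
    rw [h2]
    abel
  refine ⟨Y, hYell, ?_, A, b, hA, fun i => rfl⟩
  intro i hi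
  by_cases hiT : i ∈ T
  · obtain ⟨s, rfl⟩ := hτsurj i hiT
    exact hYτ s
  · have h0 : X i - Y i = 0 := by
      apply (hSTA V k p hp i T hiT).2 hTc.ge
      intro t ht
      obtain ⟨s, rfl⟩ := hτsurj t ht
      have h1 := hX i hi (τ s) (hTQ _ ht)
      have h2 := hYell s(i, τ s)
      rw [ell_mk] at h1 h2
      rw [hYτ s] at h2
      have h3 : X i - Y i = (X i - X (τ s)) - (Y i - X (τ s)) := by abel
      rw [h3, dot_sub, h1, h2, sub_zero]
    exact (sub_eq_zero.1 h0).symm

end Pool.Agent.GRR
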