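import Pool.Agent.GRR.Stmts

set_option autoImplicit false

open Finset
open scoped Classical

namespace Pool.Agent.GRR

namespace TWO_

open MvPolynomial

/-- the coefficient matrix -/
noncomputable def MM (k J : ℕ) : (Fin k × Fin k) ⊕ Fin k → Fin J ⊕ (Fin k × Fin k) →
    MvPolynomial ((Fin J ⊕ Fin J) × Fin k) ℚ
  | Sum.inl cd, Sum.inl l =>
      (X (Sum.inl l, cd.1) - X (Sum.inr l, cd.1)) * X (Sum.inr l, cd.2)
  | Sum.inr c, Sum.inl l => X (Sum.inl l, c) - X (Sum.inr l, c)
  | Sum.inl cd, Sum.inr cd' =>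
      (if cd = cd' then 1 else 0) + (if cd = (cd'.2, cd'.1) then 1 else 0)
  | Sum.inr _, Sum.inr _ => 0

lemma sum_inl {k J : ℕ} (x : (Fin J ⊕ Fin J) × Fin k → ℝ) (g : (Fin k × Fin k) ⊕ Fin k → ℝ)
    (l : Fin J) :
    ∑ i, g i * aeval x (MM k J i (Sum.inl l)) =
      ∑ c, (x (Sum.inl l, c) - x (Sum.inr l, c)) *
        (∑ d, g (Sum.inl (c, d)) * x (Sum.inr l, d) + g (Sum.inr c)) := by
  rw [Fintype.sum_sum_type]
  simp only [MM, map_mul, map_sub, aeval_X]
  rw [Fintype.sum_prod_type, ← Finset.sum_add_distrib]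
  refine Finset.sum_congr rfl (fun c _ => ?_)
  rw [mul_add, Finset.mul_sum]
  congr 1
  · exact Finset.sum_congr rfl (fun d _ => by ring)
  · ring

lemma sum_inr {k J : ℕ} (x : (Fin J ⊕ Fin J) × Fin k → ℝ) (g : (Fin k × Fin k) ⊕ Fin k → ℝ)
    (c d : Fin k) :
    ∑ i, g i * aeval x (MM k J i (Sum.inr (c, d))) = g (Sum.inl (c, d)) + g (Sum.inl (d, c)) := by
  rw [Fintype.sum_sum_type]
  simp only [MM, map_zero, mul_zero, Finset.sum_const_zero, add_zero, map_add, mul_add,
    Finset.sum_add_distrib, apply_ite (aeval x), map_one, mul_ite, mul_one]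
  rw [Finset.sum_ite_eq' univ (c, d), Finset.sum_ite_eq' univ (d, c), if_pos (mem_univ _),
    if_pos (mem_univ _)]

/-- the special positions -/
noncomputable def yy (k : ℕ) (x : (Fin (k * k + k) ⊕ Fin (k * k + k)) × Fin k) : ℝ :=
  match x with
  | (Sum.inl l, c) =>
    match (finSumFinEquiv (m := k * k) (n := k)).symm l with
    | Sum.inl m => if (finProdFinEquiv.symm m).1 = c then 1 else 0
    | Sum.inr d => if d = c then 1 else 0
  | (Sum.inr l, c) =>
    match (finSumFinEquiv (m := k * k) (n := k)).symm l with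
    | Sum.inl m => if (finProdFinEquiv.symm m).2 = c then 1 else 0
    | Sum.inr _ => 0

lemma special (k : ℕ) :
    LinearIndependent ℝ (fun i => fun j => aeval (yy k) (MM k (k * k + k) i j)) := by
  rw [Fintype.linearIndependent_iff]
  intro g hg
  have h1 : ∀ j, ∑ i, g i * aeval (yy k) (MM k (k * k + k) i j) = 0 := by
    intro j
    have := congrFun hg j
    simpa [Finset.sum_apply] using this
  have hskew : ∀ c d, g (Sum.inl (c, d)) + g (Sum.inl (d, c)) = 0 := by
    intro c d
    rw [← h1 (Sum.inr (c, d)), sum_inr]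
  have hb : ∀ c, g (Sum.inr c) = 0 := by
    intro c
    have h2 := h1 (Sum.inl (finSumFinEquiv (Sum.inr c)))
    rw [sum_inl] at h2
    simpa [yy, -finSumFinEquiv_apply_right] using h2
  have hA : ∀ c d, g (Sum.inl (c, d)) = 0 := by
    intro c d
    have h2 := h1 (Sum.inl (finSumFinEquiv (Sum.inl (finProdFinEquiv (c, d)))))
    rw [sum_inl] at h2
    simp only [yy, Equiv.symm_apply_apply, hb, add_zero] at h2
    simp only [mul_ite, mul_one, mul_zero, Finset.sum_ite_eq, mem_univ, if_true, sub_mul, ite_mul,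
      one_mul, zero_mul, Finset.sum_sub_distrib] at h2
    have h3 := hskew d d
    linarith
  rintro (⟨c, d⟩ | c)
  · exact hA c d
  · exact hb c

end TWO_

theorem two_proof (h1 : Stmt_GEN) (h2 : Stmt_TRI) : Stmt_TWO := by
  intro V _ k p hp G Q R hQ hR hcQ hcR a b hab ha hb hcl i hi j hj X hX
  obtain ⟨Y1, hY1, hY1Q, -⟩ := h2 V k p hp Q hQ X (fun i hi j hj => hcQ i hi j hj X hX)
  obtain ⟨Y2, hY2, hY2R, A, b', hA, hAb⟩ := h2 V k p hp R hR (X - Y1) (fun i hi j hj => by
    rw [ell_sub, hcR i hi j hj X hX, hY1, sub_zero])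
  have hx : AlgebraicIndependent ℚ (fun x : (Fin (k * k + k) ⊕ Fin (k * k + k)) × Fin k =>
      p (Sum.elim a b x.1) x.2) := by
    have hinj : Function.Injective (fun x : (Fin (k * k + k) ⊕ Fin (k * k + k)) × Fin k =>
        ((Sum.elim a b x.1, x.2) : V × Fin k)) := by
      rintro ⟨u, c⟩ ⟨v, d⟩ h
      simp only [Prod.mk.injEq] at h
      rw [hab h.1, h.2]
    have hp' : AlgebraicIndependent ℚ (fun x : V × Fin k => p x.1 x.2) := hp
    have h := hp'.comp _ hinj
    simpa only [Function.comp_def] using h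
  have key := h1 _ _ (TWO_.yy k) hx _ _ (TWO_.MM k (k * k + k)) (TWO_.special k)
  rw [Fintype.linearIndependent_iff] at key
  have hg := key (Sum.elim (fun cd : Fin k × Fin k => A cd.1 cd.2) b') ?_
  · have hA0 : A = 0 := by
      ext c d
      exact hg (Sum.inl (c, d))
    have hb0 : b' = 0 := by
      ext c
      exact hg (Sum.inr c)
    have hZ : ∀ i ∈ Q ∪ R, X i = Y1 i := by
      intro i hi
      rcases mem_union.1 hi with hi | hi
      · exact (hY1Q i hi).symm
      · have h3 := hY2R i hi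
        rw [hAb i, hA0, hb0] at h3
        have h4 : (X - Y1) i = 0 := by rw [← h3]; simp
        rw [Pi.sub_apply, sub_eq_zero] at h4
        exact h4
    rw [← hY1 s(i, j)]
    apply ell_congr
    · intro _ _; rfl
    · intro u hu
      rcases Sym2.mem_iff.1 hu with rfl | rfl
      · exact hZ _ hi
      · exact hZ _ hj
  · funext t
    rw [Finset.sum_apply]
    simp only [Pi.smul_apply, smul_eq_mul, Pi.zero_apply]
    rcases t with l | ⟨c, d⟩
    · rw [TWO_.sum_inl]
      have h3 := hcl l X hX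
      have h4 := hY1 s(a l, b l)
      have h5 : ell p (X - Y1) s(a l, b l) = 0 := by rw [ell_sub, h3, h4, sub_zero]
      rw [ell_mk] at h5
      have h6 : (X - Y1) (a l) = 0 := by
        rw [Pi.sub_apply, hY1Q _ (ha l), sub_self]
      have h7 : (X - Y1) (b l) = A.mulVec (p (b l)) + b' := by
        rw [← hY2R _ (hb l), hAb]
      rw [h6, h7, zero_sub, ← neg_one_smul ℝ, dot_smul] at h5
      have h8 : dot (p (a l) - p (b l)) (A.mulVec (p (b l)) + b') = 0 := by linarith
      rw [← h8]
      rfl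
    · rw [TWO_.sum_inr]
      have h3 := congrFun (congrFun hA c) d
      simp only [Matrix.transpose_apply, Matrix.neg_apply] at h3
      simp only [Sum.elim_inl]
      linarith

end Pool.Agent.GRR
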