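import Pool.Agent.GRR.Stmts

set_option autoImplicit false

open Finset
open scoped Classical

namespace Pool.Agent.GRR

namespace UGD_

section
variable {V : Type} {J : ℕ}

lemma sub_plus (G : Finset (Sym2 V)) (f : Fin J → Sym2 V) : G ⊆ plus G f := by
  intro e he
  simp [plus, he]

lemma mem_plus (G : Finset (Sym2 V)) (f : Fin J → Sym2 V) (l : Fin J) :
    f l ∈ plus G f := by simp [plus]

lemma mem_plus_iff (G : Finset (Sym2 V)) (f : Fin J → Sym2 V) (e : Sym2 V) :
    e ∈ plus G f ↔ e ∈ G ∨ ∃ l, f l = e := by simp [plus]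
end

variable {V : Type} [Fintype V] {k : ℕ}

/-- number of sequences with an entry in a given set -/
lemma badcount (J : ℕ) (D G : Finset (Sym2 V)) (l : Fin J) :
    ((seqs J D).filter (fun f => f l ∈ G)).card ≤ G.card * D.card ^ (J - 1) := by
  have hsub : (seqs J D).filter (fun f => f l ∈ G) ⊆
      Fintype.piFinset (fun i => if i = l then G else D) := by
    intro f hf
    rw [mem_filter] at hf
    unfold seqs at hf
    rw [Fintype.mem_piFinset] at hf ⊢
    intro i
    by_cases h : i = l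
    · rw [if_pos h, h]; exact hf.2
    · rw [if_neg h]; exact hf.1 i
  refine (card_le_card hsub).trans ?_
  rw [Fintype.card_piFinset]
  rw [← Finset.mul_prod_erase univ _ (mem_univ l), if_pos rfl]
  have : ∏ x ∈ univ.erase l, (if x = l then G else D).card = D.card ^ (J - 1) := by
    rw [Finset.prod_congr rfl (g := fun _ => D.card) (fun x hx => by
      rw [if_neg (Finset.ne_of_mem_erase hx)])]
    rw [Finset.prod_const, Finset.card_erase_of_mem (mem_univ l), Finset.card_univ,
      Fintype.card_fin]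
  rw [this]

/-- number of sequences joining two disjoint sets and avoiding a given graph -/
lemma count {J : ℕ} (A B : Finset V) (hAB : Disjoint A B) (G : Finset (Sym2 V))
    (P : (Fin J → Sym2 V) → Prop)
    (hP : ∀ a b : Fin J → V, (∀ l, a l ∈ A) → (∀ l, b l ∈ B) → Function.Injective a →
      Function.Injective b → (∀ l, s(a l, b l) ∉ G) → P (fun l => s(a l, b l))) :
    A.card.descFactorial J * B.card.descFactorial J ≤
      ((seqs J (pairs V)).filter P).card + J * (G.card * (pairs V).card ^ (J - 1)) := by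
  have hc : Fintype.card ((Fin J ↪ A) × (Fin J ↪ B)) =
      A.card.descFactorial J * B.card.descFactorial J := by
    rw [Fintype.card_prod, Fintype.card_embedding_eq, Fintype.card_embedding_eq]
    simp
  have h1 : Fintype.card ((Fin J ↪ A) × (Fin J ↪ B)) ≤
      ((seqs J (pairs V)).filter P ∪
        univ.biUnion (fun l => (seqs J (pairs V)).filter (fun f => f l ∈ G))).card := by
    rw [← Finset.card_univ]
    refine Finset.card_le_card_of_injOn
      (fun x => fun l => s(((x.1 l : A) : V), ((x.2 l : B) : V))) ?_ ?_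
    · intro x _
      have hs : (fun l => s(((x.1 l : A) : V), ((x.2 l : B) : V))) ∈ seqs J (pairs V) := by
        unfold seqs
        rw [Fintype.mem_piFinset]
        intro l
        rw [mem_pairs, Sym2.mk_isDiag_iff]
        intro h
        exact Finset.disjoint_left.1 hAB (x.1 l).2 (h ▸ (x.2 l).2)
      rw [mem_coe, mem_union]
      by_cases hG : ∀ l, s(((x.1 l : A) : V), ((x.2 l : B) : V)) ∉ G
      · left
        rw [mem_filter]
        refine ⟨hs, hP (fun l => ((x.1 l : A) : V)) (fun l => ((x.2 l : B) : V))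
          (fun l => (x.1 l).2) (fun l => (x.2 l).2) ?_ ?_ hG⟩
        · intro i j h
          exact x.1.injective (Subtype.ext h)
        · intro i j h
          exact x.2.injective (Subtype.ext h)
      · right
        push Not at hG
        obtain ⟨l, hl⟩ := hG
        rw [mem_biUnion]
        exact ⟨l, mem_univ l, mem_filter.2 ⟨hs, hl⟩⟩
    · intro x _ y _ h
      have key : ∀ l, x.1 l = y.1 l ∧ x.2 l = y.2 l := by
        intro l
        have hl : s(((x.1 l : A) : V), ((x.2 l : B) : V)) =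
            s(((y.1 l : A) : V), ((y.2 l : B) : V)) := congrFun h l
        rw [Sym2.eq_iff] at hl
        rcases hl with ⟨h1, h2⟩ | ⟨h1, _⟩
        · exact ⟨Subtype.ext h1, Subtype.ext h2⟩
        · exact absurd (h1 ▸ (y.2 l).2) (Finset.disjoint_left.1 hAB (x.1 l).2)
      refine Prod.ext ?_ ?_
      · ext l; exact congrArg Subtype.val (key l).1
      · ext l; exact congrArg Subtype.val (key l).2
  rw [← hc]
  refine h1.trans ((card_union_le _ _).trans ?_)
  gcongr
  refine (card_biUnion_le).trans ?_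
  calc ∑ l : Fin J, ((seqs J (pairs V)).filter (fun f => f l ∈ G)).card ≤
      ∑ _l : Fin J, (G.card * (pairs V).card ^ (J - 1)) :=
        Finset.sum_le_sum (fun l _ => badcount J (pairs V) G l)
    _ = J * (G.card * (pairs V).card ^ (J - 1)) := by
        rw [Finset.sum_const, Finset.card_univ, Fintype.card_fin, smul_eq_mul]

/-- new pairs -/
lemma newpairs (P P' : Sym2 V → Prop) (hPP : ∀ e, P e → P' e) (A B : Finset V)
    (hAB : Disjoint A B) (hH : ∀ a ∈ A, ∀ b ∈ B, P' s(a, b))
    (hA : ∀ a ∈ A, (B.filter (fun q => P s(a, q))).card ≤ k) :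
    ((pairs V).filter P).card + A.card * (B.card - k) ≤ ((pairs V).filter P').card := by
  set T : Finset (V × V) := (A ×ˢ B).filter (fun x => ¬ P s(x.1, x.2)) with hT
  have hcT : A.card * (B.card - k) ≤ T.card := by
    rw [hT, Finset.card_filter, Finset.sum_product]
    calc A.card * (B.card - k) = ∑ _a ∈ A, (B.card - k) := by
          rw [Finset.sum_const, smul_eq_mul]
      _ ≤ _ := by
        refine Finset.sum_le_sum (fun a ha => ?_)
        have h1 := hA a ha
        have h2 := Finset.card_filter_add_card_filter_not (s := B) (fun q => P s(a, q))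
        have h3 : ∑ i ∈ B, (if ¬ P s((a, i).1, (a, i).2) then 1 else 0) =
            (B.filter (fun q => ¬ P s(a, q))).card := by
          rw [Finset.card_filter]
        rw [h3]
        omega
  have hinj : Set.InjOn (fun x : V × V => s(x.1, x.2)) (T : Set (V × V)) := by
    rintro ⟨a, b⟩ hx ⟨a', b'⟩ hy h
    rw [hT, mem_coe, mem_filter, mem_product] at hx hy
    simp only [Sym2.eq_iff] at h
    rcases h with ⟨h1, h2⟩ | ⟨h1, _⟩
    · rw [h1, h2]
    · exact absurd (h1 ▸ hy.1.2) (Finset.disjoint_left.1 hAB hx.1.1)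
  have hS : (T.image (fun x : V × V => s(x.1, x.2))).card = T.card :=
    Finset.card_image_of_injOn hinj
  have hdis : Disjoint ((pairs V).filter P) (T.image (fun x : V × V => s(x.1, x.2))) := by
    rw [Finset.disjoint_left]
    intro e he he'
    rw [mem_filter] at he
    rw [mem_image] at he'
    obtain ⟨x, hx, rfl⟩ := he'
    rw [hT, mem_filter] at hx
    exact hx.2 he.2
  have hsub : (pairs V).filter P ∪ T.image (fun x : V × V => s(x.1, x.2)) ⊆
      (pairs V).filter P' := by
    intro e he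
    rw [mem_union] at he
    rcases he with he | he
    · rw [mem_filter] at he ⊢
      exact ⟨he.1, hPP e he.2⟩
    · rw [mem_image] at he
      obtain ⟨⟨a, b⟩, hx, rfl⟩ := he
      rw [hT, mem_filter, mem_product] at hx
      rw [mem_filter]
      refine ⟨?_, hH a hx.1.1 b hx.1.2⟩
      rw [mem_pairs, Sym2.mk_isDiag_iff]
      intro h
      simp only at h
      exact Finset.disjoint_left.1 hAB hx.1.1 (h ▸ hx.1.2)
  have := Finset.card_le_card hsub
  rw [Finset.card_union_of_disjoint hdis, hS] at this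
  omega

lemma pairs_card_le : ((pairs V).card : ℝ) ≤ (Fintype.card V : ℝ) ^ 2 := by
  have h1 : (pairs V).card ≤ Fintype.card V * Fintype.card V := by
    have h2 : (pairs V) ⊆ (univ : Finset (V × V)).image (fun x => s(x.1, x.2)) := by
      intro e _
      induction e with
      | h i j => exact mem_image.2 ⟨(i, j), mem_univ _, rfl⟩
    calc (pairs V).card ≤ _ := Finset.card_le_card h2
      _ ≤ (univ : Finset (V × V)).card := Finset.card_image_le
      _ = Fintype.card V * Fintype.card V := by rw [Finset.card_univ, Fintype.card_prod]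
  have : ((pairs V).card : ℝ) ≤ ((Fintype.card V * Fintype.card V : ℕ) : ℝ) := by exact_mod_cast h1
  push_cast at this
  nlinarith

/-- a clique of `Glk` is contained in a maximal one -/
lemma exists_max (R : Finset (Sym2 V)) (A0 : Finset V) (h : GLq k R A0) :
    ∃ A : Finset V, A0 ⊆ A ∧ GLq k R A ∧ ∀ v, GLq k R (insert v A) → v ∈ A := by
  obtain ⟨A, hA, hmax⟩ := Finset.exists_max_image
    (univ.filter (fun A : Finset V => A0 ⊆ A ∧ GLq k R A)) card
    ⟨A0, mem_filter.2 ⟨mem_univ _, subset_refl _, h⟩⟩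
  rw [mem_filter] at hA
  refine ⟨A, hA.2.1, hA.2.2, fun v hv => ?_⟩
  by_contra hvA
  have := hmax (insert v A) (mem_filter.2 ⟨mem_univ _, hA.2.1.trans (subset_insert v A), hv⟩)
  rw [card_insert_of_notMem hvA] at this
  omega

/-- the vertices of a clique with at least two vertices are touched by the graph -/
lemma clique_sub_vts (hk : 1 ≤ k) (p : V → Fin k → ℝ) (hp : Gnr p) (R : Finset (Sym2 V))
    (A : Finset V) (hA : GLq k R A) (h2 : 2 ≤ A.card) : A ⊆ vts R := by
  intro v hv
  by_contra hvR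
  obtain ⟨w, hw, hwv⟩ : ∃ w ∈ A, w ≠ v := by
    by_contra hc
    push Not at hc
    have : A ⊆ {v} := fun w hw => mem_singleton.2 (hc w hw)
    have := card_le_card this
    rw [card_singleton] at this
    omega
  have hG := hA v hv w hw p hp (Function.update p v (p w)) (by
    intro f hf
    have hvf : v ∉ f := by
      intro h
      exact hvR ((mem_vts R v).2 ⟨f, hf, h⟩)
    unfold len
    refine ell_congr f ?_ ?_ <;>
    · intro i hi
      rw [Function.update_of_ne]
      rintro rfl
      exact hvf hi)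
  rw [len_mk, len_mk, Function.update_self, Function.update_of_ne hwv, sub_self, dot_zero] at hG
  have h0 := dot_self_eq_zero _ hG.symm
  have h3 : p v = p w := sub_eq_zero.1 h0
  have hinj := hp.injective
  have := @hinj (v, ⟨0, hk⟩) (w, ⟨0, hk⟩) (congrFun h3 _)
  exact hwv (congrArg Prod.fst this).symm

end UGD_

open UGD_ in
theorem ugd_proof (h1 : Stmt_TWG) (h2 : Stmt_GLB) (h3 : Stmt_RDF) : Stmt_UGD := by
  intro k γ hk hγ
  set J := k * k + 2 * k + 1 with hJ
  refine ⟨1 / 2 * (γ / 2) ^ (2 * J), γ ^ 2 / 4, by positivity, by positivity,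
    (⌈2 * (2 * k + (J : ℝ) + 2) / γ⌉₊ + 1) + ⌈(2 * J / (γ / 2) ^ (2 * J)) ^ 2⌉₊, ?_⟩
  intro V _ p hp hn G g Q hG hg hGc hQ hRQ hU
  set n := Fintype.card V with hnd
  have hh : (2 * k + J + 2 : ℝ) ≤ γ * n / 2 := by
    have e1 : 2 * (2 * (k : ℝ) + J + 2) / γ ≤ (⌈2 * (2 * (k : ℝ) + J + 2) / γ⌉₊ : ℝ) :=
      Nat.le_ceil _
    have e2 : ((⌈2 * (2 * (k : ℝ) + J + 2) / γ⌉₊ + 1 : ℕ) : ℝ) ≤ n := by
      exact_mod_cast (Nat.le_add_right _ _).trans hn
    push_cast at e2
    have e3 : 2 * (2 * (k : ℝ) + J + 2) / γ ≤ n := by linarith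
    rw [div_le_iff₀ hγ] at e3
    linarith
  have k0 : (0 : ℝ) ≤ k := Nat.cast_nonneg k
  have J0 : (0 : ℝ) ≤ J := Nat.cast_nonneg J
  have hnpos : (0 : ℝ) < n := by
    by_contra hc
    have : (n : ℝ) ≤ 0 := not_lt.mp hc
    have h0 : γ * n / 2 ≤ 0 := by nlinarith
    linarith
  have hs : 2 * J / (γ / 2) ^ (2 * J) ≤ √(n : ℝ) := by
    refine Real.le_sqrt_of_sq_le ?_
    have e1 : (2 * J / (γ / 2) ^ (2 * J)) ^ 2 ≤ (⌈(2 * J / (γ / 2) ^ (2 * J)) ^ 2⌉₊ : ℝ) :=
      Nat.le_ceil _
    have e2 : (⌈(2 * J / (γ / 2) ^ (2 * J)) ^ 2⌉₊ : ℝ) ≤ n := by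
      exact_mod_cast (Nat.le_add_left _ _).trans hn
    linarith
  -- two large cliques
  set R := Red p G with hR
  obtain ⟨hb1, hb2, hb3, hb4⟩ := h2 V k R
  unfold UniG at hU
  push Not at hU
  obtain ⟨A0, B0, hA0, hB0, hA0c, hB0c, hAB0⟩ := hU
  obtain ⟨A1, hA01, hA1c, hA1m⟩ := exists_max R A0 hA0c
  obtain ⟨B1, hB01, hB1c, hB1m⟩ := exists_max R B0 hB0c
  have hgk : (k + 1 : ℝ) ≤ g := by linarith
  have hgk' : k + 1 ≤ g := by exact_mod_cast hgk
  have hA1g : g ≤ A1.card := hA0.trans (card_le_card hA01)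
  have hB1g : g ≤ B1.card := hB0.trans (card_le_card hB01)
  have hint : (A1 ∩ B1).card ≤ k := by
    by_contra hc
    rw [not_le] at hc
    have := hb3 A1 B1 hA1c hB1c hc
    exact hAB0 (fun i hi j hj => this i (union_subset_union hA01 hB01 hi) j
      (union_subset_union hA01 hB01 hj))
  have hA1v : A1 ⊆ Q := (clique_sub_vts hk p hp R A1 hA1c (by omega)).trans hRQ
  have hB1v : B1 ⊆ Q := (clique_sub_vts hk p hp R B1 hB1c (by omega)).trans hRQ
  set A := A1 \ B1 with hA
  set B := B1 \ A1 with hB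
  have hAB : Disjoint A B := by
    rw [Finset.disjoint_left]
    intro v hv hv'
    rw [hA, mem_sdiff] at hv
    rw [hB, mem_sdiff] at hv'
    exact hv.2 hv'.1
  have cA : g ≤ A.card + k := by
    have : A.card + (A1 ∩ B1).card = A1.card := Finset.card_sdiff_add_card_inter A1 B1
    omega
  have cB : g ≤ B.card + k := by
    have : B.card + (B1 ∩ A1).card = B1.card := Finset.card_sdiff_add_card_inter B1 A1
    rw [Finset.inter_comm] at this
    omega
  have hrdf := h3 V k p hp G hG
  -- the density grows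
  have hglc : ∀ a b : Fin J → V, (∀ l, a l ∈ A) → (∀ l, b l ∈ B) → Function.Injective a →
      Function.Injective b → (∀ l, s(a l, b l) ∉ G) →
      glc p G + γ ^ 2 / 4 ≤ glc p (plus G (fun l => s(a l, b l))) := by
    intro a b ha hb hai hbi hnG
    set f : Fin J → Sym2 V := fun l => s(a l, b l) with hf
    set R' := Red p (plus G f) with hR'
    have hRR : R ⊆ R' := hrdf.2.2.2.1 (plus G f) (sub_plus G f)
    obtain ⟨hc1, _, _, _⟩ := h2 V k R'
    have hmono : ∀ e, Glk k R e → Glk k R' e := fun e he =>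
      hb2 R' e (fun f hf => hc1 f (hRR hf)) he
    have hfR : ∀ l, f l ∈ R' := by
      intro l
      rw [hR', mem_Red]
      refine ⟨mem_plus G f l, ?_⟩
      have e1 : Cl p G (f l) :=
        hQ (a l) (hA1v (mem_sdiff.1 (ha l)).1) (b l) (hB1v (mem_sdiff.1 (hb l)).1)
      refine Cl_mono ?_ e1
      intro e he
      rw [mem_erase]
      refine ⟨?_, sub_plus G f he⟩
      rintro rfl
      exact hnG l he
    have hcl : GLq k R' (A1 ∪ B1) :=
      h1 V k R' A1 B1 (hgk'.trans hA1g) (hgk'.trans hB1g)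
        (fun i hi j hj => hmono _ (hA1c i hi j hj)) (fun i hi j hj => hmono _ (hB1c i hi j hj))
        a b (by
          rw [Sum.elim_injective]
          refine ⟨hai, hbi, fun i j h => ?_⟩
          exact Finset.disjoint_left.1 hAB (ha i) (h ▸ hb j))
        (fun l => (mem_sdiff.1 (ha l)).1) (fun l => (mem_sdiff.1 (hb l)).1)
        (fun l => hc1 _ (hfR l))
    have hnew := newpairs (k := k) (Glk k R) (Glk k R') hmono A B hAB
      (fun a ha b hb => hcl a (mem_union_left _ (mem_sdiff.1 ha).1) b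
        (mem_union_right _ (mem_sdiff.1 hb).1))
      (fun a ha => by
        by_contra hc
        rw [not_le] at hc
        have h4 : k + 1 ≤ (B1.filter (fun b => Glk k R s(a, b))).card := by
          refine le_trans hc (card_le_card ?_)
          intro q hq
          rw [mem_filter] at hq ⊢
          exact ⟨(mem_sdiff.1 hq.1).1, hq.2⟩
        exact (mem_sdiff.1 ha).2 (hB1m a (hb4 B1 a hB1c h4)))
    have hN := pairs_card_le (V := V)
    have hcast : (((pairs V).filter (fun e => Glk k R e)).card : ℝ) + (A.card : ℝ) *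
        ((B.card - k : ℕ) : ℝ) ≤ (((pairs V).filter (fun e => Glk k R' e)).card : ℝ) := by
      exact_mod_cast hnew
    have rA : γ * n / 2 ≤ (A.card : ℝ) := by
      have : (g : ℝ) ≤ A.card + k := by exact_mod_cast cA
      linarith
    have rB : γ * n / 2 ≤ ((B.card - k : ℕ) : ℝ) := by
      have h5 : (g : ℝ) ≤ B.card + k := by exact_mod_cast cB
      have h6 : (B.card : ℝ) ≤ ((B.card - k : ℕ) : ℝ) + k := by
        have : B.card ≤ (B.card - k) + k := by omega
        exact_mod_cast this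
      linarith
    have hprod : (γ * n / 2) * (γ * n / 2) ≤ (A.card : ℝ) * ((B.card - k : ℕ) : ℝ) := by
      have : 0 ≤ γ * n / 2 := by positivity
      exact mul_le_mul rA rB this (this.trans rA)
    have hNpos : (0 : ℝ) < (pairs V).card := by
      have h7 : (((pairs V).filter (fun e => Glk k R' e)).card : ℝ) ≤ (pairs V).card := by
        exact_mod_cast card_filter_le _ _
      have h8 : (0 : ℝ) ≤ (((pairs V).filter (fun e => Glk k R e)).card : ℝ) := Nat.cast_nonneg _
      have h9 : 0 < (γ * n / 2) * (γ * n / 2) := by positivity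
      linarith
    unfold glc
    rw [div_add' _ _ _ hNpos.ne']
    refine div_le_div_of_nonneg_right ?_ hNpos.le
    have h10 : γ ^ 2 / 4 * ((pairs V).card : ℝ) ≤ (γ * n / 2) * (γ * n / 2) := by
      calc γ ^ 2 / 4 * ((pairs V).card : ℝ) ≤ γ ^ 2 / 4 * (n : ℝ) ^ 2 := by gcongr
        _ = (γ * n / 2) * (γ * n / 2) := by ring
    linarith
  -- counting
  have hcount := count (J := J) A B hAB G (fun f => glc p G + γ ^ 2 / 4 ≤ glc p (plus G f)) hglc
  have hcast : ((A.card.descFactorial J * B.card.descFactorial J : ℕ) : ℝ) ≤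
      ((((seqs J (pairs V)).filter (fun f => glc p G + γ ^ 2 / 4 ≤ glc p (plus G f))).card +
        J * (G.card * (pairs V).card ^ (J - 1)) : ℕ) : ℝ) := by
    exact_mod_cast hcount
  push_cast at hcast
  have hd : ∀ m : ℕ, g ≤ m + k → (γ * n / 2) ^ J ≤ (m.descFactorial J : ℝ) := by
    intro m hm
    have h3 : (m + 1 - J) ^ J ≤ m.descFactorial J := Nat.pow_sub_le_descFactorial m J
    have h4 : (((m + 1 - J) ^ J : ℕ) : ℝ) ≤ (m.descFactorial J : ℝ) := by exact_mod_cast h3
    refine le_trans ?_ h4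
    push_cast
    have h5 : γ * n / 2 ≤ ((m + 1 - J : ℕ) : ℝ) := by
      have h6 : (m : ℝ) + 1 ≤ ((m + 1 - J : ℕ) : ℝ) + J := by
        have : m + 1 ≤ (m + 1 - J) + J := by omega
        exact_mod_cast this
      have h7 : (g : ℝ) ≤ m + k := by exact_mod_cast hm
      linarith
    gcongr
  have dA := hd _ cA
  have dB := hd _ cB
  have h0 : 0 ≤ (γ * n / 2) ^ J := by positivity
  have dAB : (γ * n / 2) ^ J * (γ * n / 2) ^ J ≤
      (A.card.descFactorial J : ℝ) * (B.card.descFactorial J : ℝ) :=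
    mul_le_mul dA dB h0 (h0.trans dA)
  set s := √(n : ℝ) with hsd
  have hss : s ^ 2 = n := Real.sq_sqrt hnpos.le
  have hs0 : 0 < s := Real.sqrt_pos.mpr hnpos
  have hGs : (G.card : ℝ) ≤ s ^ 3 := by
    have e1 : ((G.card ^ 2 : ℕ) : ℝ) ≤ ((n ^ 3 : ℕ) : ℝ) := by exact_mod_cast hGc
    push_cast at e1
    rw [← hss] at e1
    have e2 : (G.card : ℝ) ^ 2 ≤ (s ^ 3) ^ 2 := by
      calc (G.card : ℝ) ^ 2 ≤ (s ^ 2) ^ 3 := e1
        _ = (s ^ 3) ^ 2 := by ring
    exact le_of_sq_le_sq e2 (by positivity)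
  have hJ1 : 1 ≤ J := by rw [hJ]; omega
  have hbad : (J : ℝ) * ((G.card : ℝ) * ((pairs V).card : ℝ) ^ (J - 1)) ≤
      1 / 2 * (γ / 2) ^ (2 * J) * s ^ (4 * J) := by
    have hN := pairs_card_le (V := V)
    have e1 : ((pairs V).card : ℝ) ^ (J - 1) ≤ (s ^ 4) ^ (J - 1) := by
      have : ((pairs V).card : ℝ) ≤ s ^ 4 := by
        calc ((pairs V).card : ℝ) ≤ (n : ℝ) ^ 2 := hN
          _ = s ^ 4 := by rw [← hss]; ring
      gcongr
    have e2 : (J : ℝ) * ((G.card : ℝ) * ((pairs V).card : ℝ) ^ (J - 1)) ≤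
        J * (s ^ 3 * (s ^ 4) ^ (J - 1)) := by gcongr
    have e3 : s ^ 3 * (s ^ 4) ^ (J - 1) * s = s ^ (4 * J) := by
      obtain ⟨m, hm⟩ : ∃ m, J = m + 1 := ⟨J - 1, by omega⟩
      rw [hm, Nat.add_sub_cancel, ← pow_mul, ← pow_add, ← pow_succ]
      congr 1
      ring
    have e4 : 2 * J ≤ s * (γ / 2) ^ (2 * J) := by
      rwa [div_le_iff₀ (by positivity)] at hs
    have e5 : 0 ≤ s ^ 3 * (s ^ 4) ^ (J - 1) := by positivity
    calc (J : ℝ) * ((G.card : ℝ) * ((pairs V).card : ℝ) ^ (J - 1)) ≤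
        J * (s ^ 3 * (s ^ 4) ^ (J - 1)) := e2
      _ ≤ 1 / 2 * (s * (γ / 2) ^ (2 * J)) * (s ^ 3 * (s ^ 4) ^ (J - 1)) := by
          refine mul_le_mul_of_nonneg_right ?_ e5
          linarith
      _ = 1 / 2 * (γ / 2) ^ (2 * J) * (s ^ 3 * (s ^ 4) ^ (J - 1) * s) := by ring
      _ = 1 / 2 * (γ / 2) ^ (2 * J) * s ^ (4 * J) := by rw [e3]
  have hgood : (γ * n / 2) ^ J * (γ * n / 2) ^ J = (γ / 2) ^ (2 * J) * s ^ (4 * J) := by
    rw [← hss, ← mul_pow, pow_mul, pow_mul, ← mul_pow]
    congr 1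
    ring
  have hθ : 1 / 2 * (γ / 2) ^ (2 * J) * ((pairs V).card : ℝ) ^ J ≤
      1 / 2 * (γ / 2) ^ (2 * J) * s ^ (4 * J) := by
    have hN := pairs_card_le (V := V)
    have : ((pairs V).card : ℝ) ≤ s ^ 4 := by
      calc ((pairs V).card : ℝ) ≤ (n : ℝ) ^ 2 := hN
        _ = s ^ 4 := by rw [← hss]; ring
    rw [pow_mul s 4 J]
    gcongr
  rw [hgood] at dAB
  linarith

end Pool.Agent.GRR
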