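import Pool.Agent.GRR.Stmts

/-!
# UGL: uniqueness of the giant globally rigid clique
-/

set_option autoImplicit false

open Finset
open scoped Classical

namespace Pool.Agent.GRR

namespace UGL_

/-- few edges -/
def A1 (k : ℕ) : (V : Type) → [Fintype V] → (V → Fin k → ℝ) → Finset (Sym2 V) → Prop :=
  fun V _ _ G => G.card ^ 2 ≤ Fintype.card V ^ 3

/-- the bad event of the module -/
def A2 (k : ℕ) (γ : ℝ) : (V : Type) → [Fintype V] → (V → Fin k → ℝ) → Finset (Sym2 V) → Prop :=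
  fun V _ p G => ¬ (G.card ^ 2 ≤ Fintype.card V ^ 3 ∧
    (∃ Q : Finset V, Clq p G Q ∧ vts (Red p G) ⊆ Q) ∧ ¬ UniG k ⌈γ * Fintype.card V⌉₊ (Red p G))

lemma ex_ind (hEXB : Stmt_EXB) {α : Type} (π : ℝ) (D : Finset α) (h0 : 0 ≤ π) (h1 : π ≤ 1)
    (e : α) (he : e ∈ D) : Ex π D (fun G => if e ∈ G then 1 else 0) = π := by
  obtain ⟨D', he', rfl⟩ : ∃ D', e ∉ D' ∧ insert e D' = D :=
    ⟨D.erase e, notMem_erase _ _, insert_erase he⟩
  unfold Ex
  rw [Finset.sum_powerset_insert he']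
  have hz : ∑ G ∈ D'.powerset, wt π (insert e D') G * (if e ∈ G then (1 : ℝ) else 0) = 0 := by
    refine Finset.sum_eq_zero (fun G hG => ?_)
    rw [if_neg (fun h => he' ((mem_powerset.1 hG) h)), mul_zero]
  rw [hz, zero_add]
  have h2 : ∀ G ∈ D'.powerset, wt π (insert e D') (insert e G) *
      (if e ∈ insert e G then (1 : ℝ) else 0) = π * (wt π D' G * 1) := by
    intro G hG
    have heG : e ∉ G := fun h => he' ((mem_powerset.1 hG) h)
    rw [if_pos (mem_insert_self _ _), mul_one, mul_one]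
    unfold wt
    rw [card_insert_of_notMem he', card_insert_of_notMem heG, pow_succ, Nat.add_sub_add_right]
    ring
  rw [Finset.sum_congr rfl h2, ← Finset.mul_sum]
  have h3 := (hEXB α π D' h0 h1).1
  unfold Ex at h3
  rw [h3, mul_one]

lemma ex_card (hEXB : Stmt_EXB) {α : Type} (π : ℝ) (D : Finset α) (h0 : 0 ≤ π) (h1 : π ≤ 1) :
    Ex π D (fun G => (G.card : ℝ)) = π * D.card := by
  obtain ⟨-, -, -, -, -, -, -, hsum, -, -⟩ := hEXB α π D h0 h1
  have h2 : Ex π D (fun G => (G.card : ℝ)) =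
      Ex π D (fun G => ∑ e ∈ D, if e ∈ G then (1 : ℝ) else 0) := by
    unfold Ex
    refine Finset.sum_congr rfl (fun G hG => ?_)
    have hG' := mem_powerset.1 hG
    have h5 : D.filter (fun e => e ∈ G) = G := by
      ext e
      rw [mem_filter]
      exact ⟨fun h => h.2, fun h => ⟨hG' h, h⟩⟩
    have h6 : (G.card : ℝ) = ∑ e ∈ D, if e ∈ G then (1 : ℝ) else 0 := by
      rw [← Finset.sum_filter, Finset.sum_const, nsmul_eq_mul, mul_one, h5]
    show wt π D G * (G.card : ℝ) = wt π D G * (∑ e ∈ D, if e ∈ G then (1 : ℝ) else 0)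
    rw [h6]
  rw [h2, hsum α D (fun e G => if e ∈ G then (1 : ℝ) else 0),
    Finset.sum_congr rfl (fun e he => ex_ind hEXB π D h0 h1 e he), Finset.sum_const, nsmul_eq_mul,
    mul_comm]

lemma card_pairs_le (V : Type) [Fintype V] : (pairs V).card ≤ Fintype.card V ^ 2 := by
  have h : pairs V ⊆ (univ : Finset (V × V)).image (fun x => s(x.1, x.2)) := by
    intro e _
    induction e with
    | h i j => exact mem_image.2 ⟨(i, j), mem_univ _, rfl⟩
  refine (card_le_card h).trans (card_image_le.trans ?_)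
  rw [card_univ, Fintype.card_prod, sq]

lemma pairs_nonempty (V : Type) [Fintype V] (h : 2 ≤ Fintype.card V) : (pairs V).Nonempty := by
  obtain ⟨a, b, hab⟩ := Fintype.one_lt_card_iff.1 (by omega : 1 < Fintype.card V)
  exact ⟨s(a, b), by rw [mem_pairs, Sym2.mk_isDiag_iff]; exact hab⟩

lemma whp_A1 (hEXB : Stmt_EXB) (k : ℕ) (c : ℝ) (hc : 0 < c) : Whp c k (A1 k) := by
  intro ε hε
  refine ⟨max (max 1 ⌈c⌉₊) ⌈(c / ε) ^ 2⌉₊, ?_⟩
  intro V _ p _ hn
  set n : ℕ := Fintype.card V with hnn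
  have hn1 : 1 ≤ n := (le_max_left _ _).trans ((le_max_left _ _).trans hn)
  have hnR : (1 : ℝ) ≤ n := by exact_mod_cast hn1
  have hn0 : (0 : ℝ) < n := by linarith
  have hcn : c ≤ n := (Nat.le_ceil c).trans (by
    exact_mod_cast (le_max_right _ _).trans ((le_max_left _ _).trans hn))
  have hce : (c / ε) ^ 2 ≤ n := (Nat.le_ceil _).trans (by
    exact_mod_cast (le_max_right _ _).trans hn)
  have hπ0 : 0 ≤ c / n := by positivity
  have hπ1 : c / n ≤ 1 := by rw [div_le_one hn0]; exact hcn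
  obtain ⟨-, -, hmono, -, -, hMar, -, -, -, -⟩ := hEXB (Sym2 V) (c / n) (pairs V) hπ0 hπ1
  have hsq : 0 < Real.sqrt n := Real.sqrt_pos.2 hn0
  have ha : 0 < (n : ℝ) * Real.sqrt n := by positivity
  have step1 : Pr (c / n) (pairs V) (fun G => ¬ A1 k V p G) ≤
      Pr (c / n) (pairs V) (fun G => (n : ℝ) * Real.sqrt n ≤ (G.card : ℝ)) := by
    refine hmono _ _ (fun G _ hG => ?_)
    unfold A1 at hG
    rw [not_le] at hG
    have hG' : ((n : ℝ)) ^ 3 < (G.card : ℝ) ^ 2 := by exact_mod_cast hG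
    by_contra hlt
    rw [not_le] at hlt
    have : (G.card : ℝ) ^ 2 ≤ ((n : ℝ) * Real.sqrt n) ^ 2 :=
      pow_le_pow_left₀ (by positivity) hlt.le 2
    rw [mul_pow, Real.sq_sqrt hn0.le] at this
    nlinarith
  have step2 := hMar (fun G => (G.card : ℝ)) _ ha (fun G _ => by positivity)
  rw [ex_card hEXB _ _ hπ0 hπ1] at step2
  have hcard : ((pairs V).card : ℝ) ≤ (n : ℝ) ^ 2 := by exact_mod_cast card_pairs_le V
  have step3 : c / n * ((pairs V).card : ℝ) / ((n : ℝ) * Real.sqrt n) ≤ ε := by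
    rw [div_le_iff₀ ha]
    have h1 : c / n * ((pairs V).card : ℝ) ≤ c * n := by
      calc c / n * ((pairs V).card : ℝ) ≤ c / n * (n : ℝ) ^ 2 :=
            mul_le_mul_of_nonneg_left hcard hπ0
        _ = c * n := by field_simp
    have h2 : c ≤ ε * Real.sqrt n := by
      have h3 : c / ε ≤ Real.sqrt n := Real.le_sqrt_of_sq_le hce
      rw [div_le_iff₀ hε] at h3
      linarith
    nlinarith
  exact step1.trans (step2.trans step3)

lemma glc_mono (hRDF : Stmt_RDF) (hGLB : Stmt_GLB) {V : Type} [Fintype V] {k : ℕ}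
    (p : V → Fin k → ℝ) (hp : Gnr p) (G G' : Finset (Sym2 V)) (h : G ⊆ G') (h' : G' ⊆ pairs V) :
    glc p G ≤ glc p G' := by
  unfold glc
  refine div_le_div_of_nonneg_right ?_ (by positivity)
  have : (pairs V).filter (fun e => Glk k (Red p G) e) ⊆
      (pairs V).filter (fun e => Glk k (Red p G') e) := by
    intro e he
    rw [mem_filter] at he ⊢
    refine ⟨he.1, (hGLB V k (Red p G)).2.1 (Red p G') e (fun f hf => ?_) he.2⟩
    exact (hGLB V k (Red p G')).1 f ((hRDF V k p hp G (h.trans h')).2.2.2.1 G' h hf)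
  exact_mod_cast card_le_card this

end UGL_

open UGL_ in
theorem ugl_proof (hUGD : Stmt_UGD) (hINC : Stmt_INC) (hEXB : Stmt_EXB) (hWHB : Stmt_WHB)
    (hRDF : Stmt_RDF) (hGLB : Stmt_GLB) : Stmt_UGL := by
  intro k c γ hk hc hγ
  obtain ⟨W1, W2, W3⟩ := hWHB c k hc
  obtain ⟨θ, κ, hθ, hκ, n0, hU⟩ := hUGD k γ hk hγ
  have hA2 : Whp c k (A2 k γ) := by
    refine W3 (A2 k γ) ⟨k * k + 2 * k + 1, θ * κ, max n0 (max 2 ⌈c⌉₊), ?_⟩
    intro V _ p hp hn
    refine ⟨?_, by positivity⟩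
    have hn0 : n0 ≤ Fintype.card V := (le_max_left _ _).trans hn
    have hn2 : 2 ≤ Fintype.card V := (le_max_left _ _).trans ((le_max_right _ _).trans hn)
    have hcn : c ≤ (Fintype.card V : ℝ) := (Nat.le_ceil c).trans (by
      exact_mod_cast (le_max_right _ _).trans ((le_max_right _ _).trans hn))
    have hnpos : (0 : ℝ) < Fintype.card V := by linarith
    have h1 := hINC (Sym2 V) (c / Fintype.card V) (pairs V) (by positivity)
      (by rw [div_le_one hnpos]; exact hcn) (pairs_nonempty V hn2) (k * k + 2 * k + 1)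
      (fun G => glc p G) (fun G => ¬ A2 k γ V p G) θ κ hθ hκ
      (fun G _ => by simp only [glc]; positivity)
      (fun G _ => by
        simp only [glc]
        refine div_le_one_of_le₀ ?_ (by positivity)
        exact_mod_cast card_le_card (filter_subset _ _))
      (fun G G' h h' => glc_mono hRDF hGLB p hp G G' h h')
      (by
        intro G hG hA
        unfold A2 at hA
        rw [not_not] at hA
        obtain ⟨hc1, ⟨Q, hQ1, hQ2⟩, hc3⟩ := hA
        exact hU V p hp hn0 G _ Q hG (Nat.le_ceil _) hc1 hQ1 hQ2 hc3)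
    exact_mod_cast h1
  refine W1 (fun V _ p G => A1 k V p G ∧ A2 k γ V p G) _ ⟨0, ?_⟩
    (W2 (A1 k) (A2 k γ) (whp_A1 hEXB k c hc) hA2)
  intro V _ p _ _ G _ hA hQ
  by_contra hcon
  exact hA.2 ⟨hA.1, hQ, hcon⟩

end Pool.Agent.GRR
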