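import Pool.Agent.GRR.Stmts

set_option autoImplicit false

open Finset
open scoped Classical

namespace Pool.Agent.GRR

namespace UND_

variable {V : Type} [Fintype V] {k : ℕ}

lemma sub_plus {J : ℕ} (G : Finset (Sym2 V)) (f : Fin J → Sym2 V) : G ⊆ plus G f := by
  intro e he
  simp [plus, he]

lemma mem_plus {J : ℕ} (G : Finset (Sym2 V)) (f : Fin J → Sym2 V) (l : Fin J) :
    f l ∈ plus G f := by simp [plus]

/-- number of sequences joining two disjoint sets -/
lemma count {J : ℕ} (A B : Finset V) (hAB : Disjoint A B) (P : (Fin J → Sym2 V) → Prop)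
    (hP : ∀ a b : Fin J → V, (∀ l, a l ∈ A) → (∀ l, b l ∈ B) → Function.Injective a →
      Function.Injective b → P (fun l => s(a l, b l))) :
    A.card.descFactorial J * B.card.descFactorial J ≤
      ((seqs J (pairs V)).filter P).card := by
  have hc : Fintype.card ((Fin J ↪ A) × (Fin J ↪ B)) =
      A.card.descFactorial J * B.card.descFactorial J := by
    rw [Fintype.card_prod, Fintype.card_embedding_eq, Fintype.card_embedding_eq]
    simp
  rw [← hc, ← Finset.card_univ]
  refine Finset.card_le_card_of_injOn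
    (fun x => fun l => s(((x.1 l : A) : V), ((x.2 l : B) : V))) ?_ ?_
  · intro x _
    simp only [coe_filter, Set.mem_setOf_eq]
    refine ⟨?_, ?_⟩
    · unfold seqs
      rw [Fintype.mem_piFinset]
      intro l
      rw [mem_pairs, Sym2.mk_isDiag_iff]
      intro h
      exact Finset.disjoint_left.1 hAB (x.1 l).2 (h ▸ (x.2 l).2)
    · refine hP (fun l => ((x.1 l : A) : V)) (fun l => ((x.2 l : B) : V)) (fun l => (x.1 l).2)
        (fun l => (x.2 l).2) ?_ ?_
      · intro i j h
        exact x.1.injective (Subtype.ext h)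
      · intro i j h
        exact x.2.injective (Subtype.ext h)
  · intro x _ y _ h
    have key : ∀ l, x.1 l = y.1 l ∧ x.2 l = y.2 l := by
      intro l
      have hl : s(((x.1 l : A) : V), ((x.2 l : B) : V)) = s(((y.1 l : A) : V), ((y.2 l : B) : V)) :=
        congrFun h l
      rw [Sym2.eq_iff] at hl
      rcases hl with ⟨h1, h2⟩ | ⟨h1, _⟩
      · exact ⟨Subtype.ext h1, Subtype.ext h2⟩
      · exact absurd (h1 ▸ (y.2 l).2) (Finset.disjoint_left.1 hAB (x.1 l).2)
    refine Prod.ext ?_ ?_
    · ext l; exact congrArg Subtype.val (key l).1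
    · ext l; exact congrArg Subtype.val (key l).2

/-- new closure pairs -/
lemma newpairs (p : V → Fin k → ℝ) (G H : Finset (Sym2 V)) (hGH : G ⊆ H) (A B : Finset V)
    (hAB : Disjoint A B) (hH : ∀ a ∈ A, ∀ b ∈ B, Cl p H s(a, b))
    (hA : ∀ a ∈ A, (B.filter (fun q => Cl p G s(a, q))).card ≤ k) :
    ((pairs V).filter (fun e => Cl p G e)).card + A.card * (B.card - k) ≤
      ((pairs V).filter (fun e => Cl p H e)).card := by
  set T : Finset (V × V) := (A ×ˢ B).filter (fun x => ¬ Cl p G s(x.1, x.2)) with hT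
  have hcT : A.card * (B.card - k) ≤ T.card := by
    rw [hT, Finset.card_filter, Finset.sum_product]
    calc A.card * (B.card - k) = ∑ _a ∈ A, (B.card - k) := by
          rw [Finset.sum_const, smul_eq_mul]
      _ ≤ _ := by
        refine Finset.sum_le_sum (fun a ha => ?_)
        have h1 := hA a ha
        have h2 := Finset.card_filter_add_card_filter_not (s := B) (fun q => Cl p G s(a, q))
        have h3 : ∑ i ∈ B, (if ¬ Cl p G s((a, i).1, (a, i).2) then 1 else 0) =
            (B.filter (fun q => ¬ Cl p G s(a, q))).card := by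
          rw [Finset.card_filter]
        rw [h3]
        omega
  have hinj : Set.InjOn (fun x : V × V => s(x.1, x.2)) (T : Set (V × V)) := by
    rintro ⟨a, b⟩ hx ⟨a', b'⟩ hy h
    rw [hT, mem_coe, mem_filter, mem_product] at hx hy
    simp only [Sym2.eq_iff] at h
    rcases h with ⟨h1, h2⟩ | ⟨h1, _⟩
    · rw [h1, h2]
    · exact absurd (h1 ▸ hy.1.2) (Finset.disjoint_left.1 hAB hx.1.1)
  have hS : (T.image (fun x : V × V => s(x.1, x.2))).card = T.card :=
    Finset.card_image_of_injOn hinj
  have hdis : Disjoint ((pairs V).filter (fun e => Cl p G e))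
      (T.image (fun x : V × V => s(x.1, x.2))) := by
    rw [Finset.disjoint_left]
    intro e he he'
    rw [mem_filter] at he
    rw [mem_image] at he'
    obtain ⟨x, hx, rfl⟩ := he'
    rw [hT, mem_filter] at hx
    exact hx.2 he.2
  have hsub : (pairs V).filter (fun e => Cl p G e) ∪ T.image (fun x : V × V => s(x.1, x.2)) ⊆
      (pairs V).filter (fun e => Cl p H e) := by
    intro e he
    rw [mem_union] at he
    rcases he with he | he
    · rw [mem_filter] at he ⊢
      exact ⟨he.1, Cl_mono hGH he.2⟩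
    · rw [mem_image] at he
      obtain ⟨⟨a, b⟩, hx, rfl⟩ := he
      rw [hT, mem_filter, mem_product] at hx
      rw [mem_filter]
      refine ⟨?_, hH a hx.1.1 b hx.1.2⟩
      rw [mem_pairs, Sym2.mk_isDiag_iff]
      intro h
      simp only at h
      exact Finset.disjoint_left.1 hAB hx.1.1 (h ▸ hx.1.2)
  have := Finset.card_le_card hsub
  rw [Finset.card_union_of_disjoint hdis, hS] at this
  omega

lemma pairs_card_le : ((pairs V).card : ℝ) ≤ (Fintype.card V : ℝ) ^ 2 := by
  have h1 : (pairs V).card ≤ Fintype.card V * Fintype.card V := by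
    have h2 : (pairs V) ⊆ (univ : Finset (V × V)).image (fun x => s(x.1, x.2)) := by
      intro e _
      induction e with
      | h i j => exact mem_image.2 ⟨(i, j), mem_univ _, rfl⟩
    calc (pairs V).card ≤ _ := Finset.card_le_card h2
      _ ≤ (univ : Finset (V × V)).card := Finset.card_image_le
      _ = Fintype.card V * Fintype.card V := by rw [Finset.card_univ, Fintype.card_prod]
  have : ((pairs V).card : ℝ) ≤ ((Fintype.card V * Fintype.card V : ℕ) : ℝ) := by exact_mod_cast h1
  push_cast at this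
  nlinarith

end UND_

open UND_ in
theorem und_proof (h1 : Stmt_TWO) (h2 : Stmt_FRZ) : Stmt_UND := by
  intro k γ hk hγ
  refine ⟨(γ ^ 2 / 4) ^ (k * k + k), γ ^ 2 / 4, by positivity, by positivity,
    ⌈2 * (2 * k + (k * k + k) + 2) / γ⌉₊ + 1, ?_⟩
  intro V _ p hp hn G g hG hg hU
  set J := k * k + k with hJ
  set n := Fintype.card V with hnd
  have hh : (2 * k + J + 2 : ℝ) ≤ γ * n / 2 := by
    have e1 : 2 * (2 * (k : ℝ) + (k * k + k) + 2) / γ ≤ (⌈2 * (2 * (k : ℝ) + (k * k + k) + 2) / γ⌉₊ : ℝ) :=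
      Nat.le_ceil _
    have e2 : ((⌈2 * (2 * (k : ℝ) + (k * k + k) + 2) / γ⌉₊ + 1 : ℕ) : ℝ) ≤ n := by exact_mod_cast hn
    push_cast at e2
    have e3 : 2 * (2 * (k : ℝ) + (k * k + k) + 2) / γ ≤ n := by linarith
    rw [div_le_iff₀ hγ] at e3
    have e4 : (J : ℝ) = k * k + k := by rw [hJ]; push_cast; ring
    rw [e4]
    linarith
  have hnpos : (0 : ℝ) < n := by
    by_contra hc
    have : (n : ℝ) ≤ 0 := not_lt.mp hc
    have h0 : γ * n / 2 ≤ 0 := by nlinarith
    have : (0 : ℝ) ≤ k := Nat.cast_nonneg k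
    have : (0 : ℝ) ≤ J := Nat.cast_nonneg J
    linarith
  -- two large cliques
  unfold Uni at hU
  push Not at hU
  obtain ⟨Q, R, hQ, hR, hQc, hRc, hQR⟩ := hU
  have hgk : (k + 1 : ℝ) ≤ g := by
    have : (0 : ℝ) ≤ k := Nat.cast_nonneg k
    have : (0 : ℝ) ≤ J := Nat.cast_nonneg J
    nlinarith
  have hgk' : k + 1 ≤ g := by exact_mod_cast hgk
  obtain ⟨_, qsub, qcl, _, qnb, _⟩ := h2 V k p hp G Q (hgk'.trans hQ) hQc
  obtain ⟨_, rsub, rcl, _, rnb, _⟩ := h2 V k p hp G R (hgk'.trans hR) hRc
  set Qb := fr p Q G with hQb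
  set Rb := fr p R G with hRb
  have hQbc : g ≤ Qb.card := hQ.trans (card_le_card qsub)
  have hRbc : g ≤ Rb.card := hR.trans (card_le_card rsub)
  have hint : (Qb ∩ Rb).card < k := by
    by_contra hc
    rw [not_lt] at hc
    obtain ⟨_, _, _, q4, _, _⟩ := h2 V k p hp G Qb (hgk'.trans hQbc) qcl
    have := (q4 Rb (hgk'.trans hRbc) rcl hc).2.1
    exact hQR (Clq_mono (subset_refl _) (union_subset_union qsub rsub) this)
  set A := Qb \ Rb with hA
  set B := Rb \ Qb with hB
  have hAB : Disjoint A B := by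
    rw [Finset.disjoint_left]
    intro v hv hv'
    rw [hA, mem_sdiff] at hv
    rw [hB, mem_sdiff] at hv'
    exact hv.2 hv'.1
  have cA : g ≤ A.card + k := by
    have : A.card + (Qb ∩ Rb).card = Qb.card := Finset.card_sdiff_add_card_inter Qb Rb
    omega
  have cB : g ≤ B.card + k := by
    have : B.card + (Rb ∩ Qb).card = Rb.card := Finset.card_sdiff_add_card_inter Rb Qb
    rw [Finset.inter_comm] at this
    omega
  -- the closure grows
  set B' := R \ Qb with hB'
  have cB' : g ≤ B'.card + k := by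
    have : B'.card + (R ∩ Qb).card = R.card := Finset.card_sdiff_add_card_inter R Qb
    have h3 : (R ∩ Qb).card ≤ (Qb ∩ Rb).card := by
      refine card_le_card ?_
      intro v hv
      rw [mem_inter] at hv ⊢
      exact ⟨hv.2, rsub hv.1⟩
    omega
  have hAB' : Disjoint A B' := by
    rw [Finset.disjoint_left]
    intro v hv hv'
    rw [hA, mem_sdiff] at hv
    rw [hB', mem_sdiff] at hv'
    exact hv'.2 hv.1
  have hclc : ∀ f : Fin J → Sym2 V, Clq p (plus G f) (Qb ∪ Rb) →
      clc p G + γ ^ 2 / 4 ≤ clc p (plus G f) := by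
    intro f hf
    have hnew := newpairs p G (plus G f) (sub_plus G f) A B' hAB'
      (fun a ha b hb => hf a (mem_union_left _ (by rw [hA, mem_sdiff] at ha; exact ha.1)) b
        (mem_union_right _ (by rw [hB', mem_sdiff] at hb; exact rsub hb.1)))
      (fun a ha => by
        have ha' : a ∉ Rb := by rw [hA, mem_sdiff] at ha; exact ha.2
        have h3 := rnb a ha'
        refine le_trans (card_le_card ?_) h3.le
        intro q hq
        rw [mem_filter] at hq ⊢
        rw [hB', mem_sdiff] at hq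
        exact ⟨hq.1.1, hq.2⟩)
    have hN := pairs_card_le (V := V)
    have hcast : (((pairs V).filter (fun e => Cl p G e)).card : ℝ) + (A.card : ℝ) *
        ((B'.card - k : ℕ) : ℝ) ≤ (((pairs V).filter (fun e => Cl p (plus G f) e)).card : ℝ) := by
      exact_mod_cast hnew
    have rA : γ * n / 2 ≤ (A.card : ℝ) := by
      have : (g : ℝ) ≤ A.card + k := by exact_mod_cast cA
      have : (0 : ℝ) ≤ k := Nat.cast_nonneg k
      have : (0 : ℝ) ≤ J := Nat.cast_nonneg J
      linarith
    have rB : γ * n / 2 ≤ ((B'.card - k : ℕ) : ℝ) := by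
      have h5 : (g : ℝ) ≤ B'.card + k := by exact_mod_cast cB'
      have h6 : (B'.card : ℝ) ≤ ((B'.card - k : ℕ) : ℝ) + k := by
        have : B'.card ≤ (B'.card - k) + k := by omega
        exact_mod_cast this
      have : (0 : ℝ) ≤ k := Nat.cast_nonneg k
      have : (0 : ℝ) ≤ J := Nat.cast_nonneg J
      linarith
    have hprod : (γ * n / 2) * (γ * n / 2) ≤ (A.card : ℝ) * ((B'.card - k : ℕ) : ℝ) := by
      have : 0 ≤ γ * n / 2 := by positivity
      exact mul_le_mul rA rB this (this.trans rA)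
    have hNpos : (0 : ℝ) < (pairs V).card := by
      have h7 : (((pairs V).filter (fun e => Cl p (plus G f) e)).card : ℝ) ≤ (pairs V).card := by
        exact_mod_cast card_filter_le _ _
      have h8 : (0 : ℝ) ≤ (((pairs V).filter (fun e => Cl p G e)).card : ℝ) := Nat.cast_nonneg _
      have h9 : 0 < (γ * n / 2) * (γ * n / 2) := by positivity
      linarith
    unfold clc
    rw [div_add' _ _ _ hNpos.ne']
    refine div_le_div_of_nonneg_right ?_ hNpos.le
    have h10 : γ ^ 2 / 4 * ((pairs V).card : ℝ) ≤ (γ * n / 2) * (γ * n / 2) := by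
      calc γ ^ 2 / 4 * ((pairs V).card : ℝ) ≤ γ ^ 2 / 4 * (n : ℝ) ^ 2 := by gcongr
        _ = (γ * n / 2) * (γ * n / 2) := by ring
    linarith
  -- counting
  have hcount := count (J := J) A B hAB (fun f => clc p G + γ ^ 2 / 4 ≤ clc p (plus G f)) (by
    intro a b ha hb hai hbi
    apply hclc
    refine h1 V k p hp (plus G _) Qb Rb (hgk'.trans hQbc) (hgk'.trans hRbc)
      (Clq_mono (sub_plus G _) (subset_refl _) qcl) (Clq_mono (sub_plus G _) (subset_refl _) rcl)
      a b ?_ (fun l => (mem_sdiff.1 (ha l)).1) (fun l => (mem_sdiff.1 (hb l)).1)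
      (fun l => Cl_of_mem (mem_plus G (fun l => s(a l, b l)) l))
    rw [Sum.elim_injective]
    refine ⟨hai, hbi, fun i j h => ?_⟩
    exact Finset.disjoint_left.1 hAB (ha i) (h ▸ hb j))
  have hcast : ((A.card.descFactorial J * B.card.descFactorial J : ℕ) : ℝ) ≤
      (((seqs J (pairs V)).filter (fun f => clc p G + γ ^ 2 / 4 ≤ clc p (plus G f))).card : ℝ) := by
    exact_mod_cast hcount
  refine le_trans ?_ hcast
  have hd : ∀ m : ℕ, g ≤ m + k → (γ * n / 2) ^ J ≤ (m.descFactorial J : ℝ) := by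
    intro m hm
    have h3 : (m + 1 - J) ^ J ≤ m.descFactorial J := Nat.pow_sub_le_descFactorial m J
    have h4 : (((m + 1 - J) ^ J : ℕ) : ℝ) ≤ (m.descFactorial J : ℝ) := by exact_mod_cast h3
    refine le_trans ?_ h4
    push_cast
    have h5 : γ * n / 2 ≤ ((m + 1 - J : ℕ) : ℝ) := by
      have h6 : (m : ℝ) + 1 ≤ ((m + 1 - J : ℕ) : ℝ) + J := by
        have : m + 1 ≤ (m + 1 - J) + J := by omega
        exact_mod_cast this
      have h7 : (g : ℝ) ≤ m + k := by exact_mod_cast hm
      have : (0 : ℝ) ≤ k := Nat.cast_nonneg k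
      linarith
    gcongr
  have dA := hd _ cA
  have dB := hd _ cB
  push_cast
  calc (γ ^ 2 / 4) ^ J * ((pairs V).card : ℝ) ^ J = (γ ^ 2 / 4 * ((pairs V).card : ℝ)) ^ J := by
        rw [mul_pow]
    _ ≤ (γ ^ 2 / 4 * (n : ℝ) ^ 2) ^ J := by
        have := pairs_card_le (V := V)
        gcongr
    _ = (γ * n / 2) ^ J * (γ * n / 2) ^ J := by
        rw [← mul_pow]; congr 1; ring
    _ ≤ _ := by
        have h0 : 0 ≤ (γ * n / 2) ^ J := by positivity
        exact mul_le_mul dA dB h0 (h0.trans dA)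

end Pool.Agent.GRR
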