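import Pool.Agent.GRR.Stmts

set_option autoImplicit false

open Finset
open scoped Classical

namespace Pool.Agent.GRR

namespace UNI_

variable {V : Type} [Fintype V] {k : ℕ}

lemma clc_nonneg (p : V → Fin k → ℝ) (G : Finset (Sym2 V)) : 0 ≤ clc p G := by
  unfold clc
  positivity

lemma clc_le_one (p : V → Fin k → ℝ) (G : Finset (Sym2 V)) : clc p G ≤ 1 := by
  unfold clc
  refine div_le_one_of_le₀ ?_ (Nat.cast_nonneg _)
  exact Nat.cast_le.2 (Finset.card_le_card (Finset.filter_subset _ _))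

lemma clc_mono (p : V → Fin k → ℝ) {G G' : Finset (Sym2 V)} (h : G ⊆ G') : clc p G ≤ clc p G' := by
  unfold clc
  refine div_le_div_of_nonneg_right ?_ (Nat.cast_nonneg _)
  refine Nat.cast_le.2 (Finset.card_le_card ?_)
  intro e he
  rw [Finset.mem_filter] at he ⊢
  exact ⟨he.1, Cl_mono h he.2⟩

lemma pairs_nonempty (h : 2 ≤ Fintype.card V) : (pairs V).Nonempty := by
  have h1 : 1 < Fintype.card V := h
  obtain ⟨a, b, hab⟩ := Fintype.one_lt_card_iff.1 h1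
  exact ⟨s(a, b), by simpa using hab⟩

end UNI_

theorem uni_proof (h1 : Stmt_UND) (h2 : Stmt_INC) (h3 : Stmt_WHB) : Stmt_UNI := by
  intro k c γ hk hc hγ
  obtain ⟨θ, κ, hθ, hκ, n0, hn0⟩ := h1 k γ hk hγ
  refine (h3 c k hc).2.2 _ ⟨k * k + k, θ * κ, max n0 (⌈c⌉₊ + 2), ?_⟩
  intro V _ p hp hn
  refine ⟨?_, by positivity⟩
  have hn1 : n0 ≤ Fintype.card V := le_trans (le_max_left _ _) hn
  have hn2 : ⌈c⌉₊ + 2 ≤ Fintype.card V := le_trans (le_max_right _ _) hn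
  have hcn : c ≤ (Fintype.card V : ℝ) := by
    have h : ((⌈c⌉₊ + 2 : ℕ) : ℝ) ≤ (Fintype.card V : ℝ) := Nat.cast_le.2 hn2
    push_cast at h
    linarith [Nat.le_ceil c]
  have hnpos : 0 < (Fintype.card V : ℝ) := lt_of_lt_of_le hc hcn
  have hπ0 : 0 < c / (Fintype.card V : ℝ) := by positivity
  have hπ1 : c / (Fintype.card V : ℝ) ≤ 1 := by rw [div_le_one hnpos]; exact hcn
  refine h2 (Sym2 V) (c / Fintype.card V) (pairs V) hπ0 hπ1
    (UNI_.pairs_nonempty (by omega)) (k * k + k) (fun G => clc p G)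
    (fun G => ¬ Uni p ⌈γ * Fintype.card V⌉₊ G) θ κ hθ hκ
    (fun G _ => UNI_.clc_nonneg p G) (fun G _ => UNI_.clc_le_one p G)
    (fun G G' hGG' _ => UNI_.clc_mono p hGG') ?_
  intro G hG hA
  exact hn0 V p hp hn1 G _ hG (Nat.le_ceil _) hA

end Pool.Agent.GRR
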