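import Pool.Agent.GRR.Stmts

/-!
# GRR, module WHB : calculus of `Whp`
-/

set_option autoImplicit false

open Finset
open scoped Classical

namespace Pool.Agent.GRR

namespace WHB_

theorem card_pairs (V : Type) [Fintype V] :
    (pairs V).card = (Fintype.card V).choose 2 := by
  rw [← Sym2.card_subtype_not_diag (α := V), Fintype.card_subtype]
  unfold pairs
  congr

theorem card_pairs_real (V : Type) [Fintype V] :
    ((pairs V).card : ℝ) = (Fintype.card V : ℝ) * ((Fintype.card V : ℝ) - 1) / 2 := by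
  rw [card_pairs, Nat.cast_choose_two]

theorem pi_range (c : ℝ) (hc : 0 < c) (n : ℕ) (hn : ⌈c⌉₊ + 1 ≤ n) :
    0 ≤ c / (n : ℝ) ∧ c / (n : ℝ) ≤ 1 := by
  have h1 : c ≤ (⌈c⌉₊ : ℝ) := Nat.le_ceil c
  have h2 : ((⌈c⌉₊ : ℝ) + 1) ≤ n := by exact_mod_cast hn
  have h3 : (0 : ℝ) < n := by linarith
  exact ⟨by positivity, by rw [div_le_one h3]; linarith⟩

end WHB_

theorem whb_proof (h1 : Stmt_EXB) : Stmt_WHB := by
  intro c k hc
  refine ⟨?_, ?_, ?_⟩
  · rintro A B ⟨n0, hAB⟩ hA ε hε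
    obtain ⟨n1, hn1⟩ := hA ε hε
    refine ⟨max (max n0 n1) (⌈c⌉₊ + 1), ?_⟩
    intro V _ p hp hV
    have ha : n0 ≤ Fintype.card V := le_trans (le_trans (le_max_left _ _) (le_max_left _ _)) hV
    have hb : n1 ≤ Fintype.card V := le_trans (le_trans (le_max_right _ _) (le_max_left _ _)) hV
    obtain ⟨hp0, hp1⟩ := WHB_.pi_range c hc _ (le_trans (le_max_right _ _) hV)
    obtain ⟨-, -, hmono, -⟩ := h1 (Sym2 V) (c / Fintype.card V) (pairs V) hp0 hp1
    refine le_trans (hmono _ _ ?_) (hn1 V p hp hb)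
    intro G hG hnB hAG
    exact hnB (hAB V p hp ha G hG hAG)
  · intro A B hA hB ε hε
    obtain ⟨n1, hn1⟩ := hA (ε / 2) (by positivity)
    obtain ⟨n2, hn2⟩ := hB (ε / 2) (by positivity)
    refine ⟨max (max n1 n2) (⌈c⌉₊ + 1), ?_⟩
    intro V _ p hp hV
    have ha : n1 ≤ Fintype.card V := le_trans (le_trans (le_max_left _ _) (le_max_left _ _)) hV
    have hb : n2 ≤ Fintype.card V := le_trans (le_trans (le_max_right _ _) (le_max_left _ _)) hV
    obtain ⟨hp0, hp1⟩ := WHB_.pi_range c hc _ (le_trans (le_max_right _ _) hV)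
    obtain ⟨-, -, -, hun, -⟩ := h1 (Sym2 V) (c / Fintype.card V) (pairs V) hp0 hp1
    have h3 := hun (fun G => ¬ (A V p G ∧ B V p G)) (fun G => ¬ A V p G) (fun G => ¬ B V p G) (by
      intro G _ hG
      by_cases hh : A V p G
      · right
        intro hB'
        exact hG ⟨hh, hB'⟩
      · left; exact hh)
    have h4 := hn1 V p hp ha
    have h5 := hn2 V p hp hb
    calc Pr (c / Fintype.card V) (pairs V) (fun G => ¬ (A V p G ∧ B V p G)) ≤ _ := h3
      _ ≤ ε / 2 + ε / 2 := add_le_add h4 h5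
      _ = ε := by ring
  · rintro A ⟨J, L, n0, h⟩ ε hε
    refine ⟨max n0 (⌈2 * (J / (L * ε)) ^ 2 / c⌉₊ + 2), ?_⟩
    intro V _ p hp hV
    obtain ⟨h2, hL⟩ := h V p hp (le_trans (le_max_left _ _) hV)
    refine h2.trans ?_
    have hn : ⌈2 * (J / (L * ε)) ^ 2 / c⌉₊ + 2 ≤ Fintype.card V := le_trans (le_max_right _ _) hV
    have h3 : 2 * ((J : ℝ) / (L * ε)) ^ 2 / c ≤ (⌈2 * ((J : ℝ) / (L * ε)) ^ 2 / c⌉₊ : ℝ) :=
      Nat.le_ceil _
    have h4 : (⌈2 * ((J : ℝ) / (L * ε)) ^ 2 / c⌉₊ : ℝ) + 2 ≤ (Fintype.card V : ℝ) := by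
      exact_mod_cast hn
    set n : ℝ := (Fintype.card V : ℝ) with hndef
    have h0 : (0 : ℝ) ≤ (⌈2 * ((J : ℝ) / (L * ε)) ^ 2 / c⌉₊ : ℝ) := Nat.cast_nonneg _
    have hnpos : 0 < n := by linarith
    have h5 : c / n * ((pairs V).card : ℝ) = c * (n - 1) / 2 := by
      rw [WHB_.card_pairs_real, ← hndef]
      field_simp
    rw [h5]
    have h6 : ((J : ℝ) / (L * ε)) ^ 2 ≤ c * (n - 1) / 2 := by
      have : 2 * ((J : ℝ) / (L * ε)) ^ 2 / c ≤ n - 1 := by linarith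
      rw [div_le_iff₀ hc] at this
      linarith
    have h7 : (J : ℝ) / (L * ε) ≤ Real.sqrt (c * (n - 1) / 2) := Real.le_sqrt_of_sq_le h6
    have h8 : 0 < Real.sqrt (c * (n - 1) / 2) := by
      apply Real.sqrt_pos.2
      have : 0 < n - 1 := by linarith
      positivity
    rw [div_le_iff₀ (by positivity)] at h7 ⊢
    calc (J : ℝ) ≤ _ := h7
      _ = ε * (L * Real.sqrt (c * (n - 1) / 2)) := by ring

end Pool.Agent.GRR
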