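import Pool.Agent.GRR.Stmts

/-! # GRR : XZR, a special position of the new vertex -/

set_option autoImplicit false
set_option linter.unusedSectionVars false

open Finset
open scoped Classical

namespace Pool.Agent.GRR

namespace XZR_

/-- `dot a` as a linear map -/
noncomputable def dotL {k : ℕ} (a : Fin k → ℝ) : (Fin k → ℝ) →ₗ[ℝ] ℝ where
  toFun := dot a
  map_add' := dot_add a
  map_smul' := by
    intro m x
    rw [dot_smul]
    rfl

theorem dot_self_pos {k : ℕ} {x : Fin k → ℝ} (h : x ≠ 0) : 0 < dot x x :=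
  lt_of_le_of_ne (dot_self_nonneg x) (fun e => h (dot_self_eq_zero x e.symm))

/-- finitely many nonzero affine functionals -/
theorem avoid (h : Stmt_AVO) {k : ℕ} {ι : Type} [Fintype ι] (a : ι → Fin k → ℝ) (c : ι → ℝ)
    (h0 : ∀ i, ∃ x, dot (a i) x + c i ≠ 0) : ∃ x : Fin k → ℝ, ∀ i, dot (a i) x + c i ≠ 0 :=
  h (Fin k → ℝ) ι (fun i x => dot (a i) x + c i) (fun i => ⟨dotL (a i), c i, fun _ => rfl, h0 i⟩)

/-- fewer than `k` vectors have a common nonzero orthogonal vector -/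
theorem orth {V : Type} {k : ℕ} (T : Finset V) (hT : T.card < k) (b : V → Fin k → ℝ) :
    ∃ n : Fin k → ℝ, n ≠ 0 ∧ ∀ t ∈ T, dot (b t) n = 0 := by
  obtain ⟨f, hf⟩ : ∃ f : (Fin k → ℝ) →ₗ[ℝ] (T → ℝ), f = LinearMap.pi (fun t : T => dotL (b t)) := ⟨_, rfl⟩
  have h1 : Module.finrank ℝ (T → ℝ) < Module.finrank ℝ (Fin k → ℝ) := by
    rw [Module.finrank_fintype_fun_eq_card, Module.finrank_fintype_fun_eq_card]
    simpa using hT
  have h2 := LinearMap.ker_ne_bot_of_finrank_lt (f := f) h1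
  obtain ⟨n, hn, hn0⟩ := (Submodule.ne_bot_iff _).1 h2
  refine ⟨n, hn0, fun t ht => ?_⟩
  have h3 : f n = 0 := hn
  have h4 := congrFun h3 ⟨t, ht⟩
  rw [hf] at h4
  exact h4

/-- the star at `x` over `insert u0 T` is independent -/
theorem indep (h : Stmt_STA) {V : Type} [Fintype V] {k : ℕ} {p : V → Fin k → ℝ} (hp : Gnr p) {u0 : V}
    {T : Finset V} (hu : u0 ∉ T) (hT : T.card ≤ k) {n x : Fin k → ℝ}
    (hn : ∀ t ∈ T, dot (p u0 - p t) n = 0) (hx : dot (x - p u0) n ≠ 0) (r : V → ℝ) :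
    ∃ D : Fin k → ℝ, ∀ u ∈ insert u0 T, dot (x - p u) D = r u := by
  obtain ⟨D1, hD1⟩ := (h V k p hp u0 T hu).1 hT (fun t => r t - r u0)
  refine ⟨D1 + ((r u0 - dot (x - p u0) D1) / dot (x - p u0) n) • n, ?_⟩
  have e0 : dot (x - p u0) (D1 + ((r u0 - dot (x - p u0) D1) / dot (x - p u0) n) • n) = r u0 := by
    rw [dot_add, dot_smul, div_mul_cancel₀ _ hx]
    ring
  intro u hu'
  rcases Finset.mem_insert.1 hu' with rfl | hu'
  · exact e0
  · have e1 : x - p u = (x - p u0) + (p u0 - p u) := by abel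
    rw [e1, add_dot, e0, dot_add, dot_smul, hn u hu', hD1 u hu']
    ring

/-- the frozen neighbours -/
theorem frozen (h : Stmt_STA) {V : Type} [Fintype V] {k : ℕ} {p : V → Fin k → ℝ} (hp : Gnr p)
    (F : Finset V) (hF : F.card < k) : ∃ (n : Fin k → ℝ) (c : ℝ), (∃ x, dot n x + c ≠ 0) ∧
      ∀ x, dot n x + c ≠ 0 → ∀ r : V → ℝ, ∃ D : Fin k → ℝ, ∀ u ∈ F, dot (x - p u) D = r u := by
  rcases F.eq_empty_or_nonempty with rfl | ⟨u0, hu0⟩
  · refine ⟨0, 1, ⟨0, by rw [zero_dot]; norm_num⟩, fun x _ r => ⟨0, fun u hu => ?_⟩⟩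
    exact absurd hu (Finset.notMem_empty u)
  · obtain ⟨T, hT⟩ : ∃ T, T = F.erase u0 := ⟨_, rfl⟩
    have hTc : T.card < F.card := by rw [hT]; exact Finset.card_erase_lt_of_mem hu0
    have huT : u0 ∉ T := by rw [hT]; exact Finset.notMem_erase u0 F
    have hFT : insert u0 T = F := by rw [hT]; exact Finset.insert_erase hu0
    obtain ⟨n, hn0, hn⟩ := orth T (by omega) (fun t => p u0 - p t)
    refine ⟨n, - dot n (p u0), ⟨n + p u0, ?_⟩, fun x hx r => ?_⟩
    · rw [dot_add]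
      have := dot_self_pos hn0
      intro h0
      linarith
    · rw [← hFT]
      refine indep h hp huT (by omega) hn ?_ r
      rw [dot_comm, dot_sub]
      intro h0
      apply hx
      linarith

theorem lift {V : Type} [Fintype V] {k : ℕ} {M : Submodule ℝ (V → Fin k → ℝ)} {U : Finset V} (hD : Dec M U)
    {u : V} {X : V → Fin k → ℝ} (hu : u ∈ U) (hX : X ∈ M) :
    ∃ Y ∈ M, Y u = X u ∧ ∀ v ∈ U, v ≠ u → Y v = 0 := by
  obtain ⟨Y, hY, hY2⟩ := hD (fun v => if v = u then X else 0) (fun v _ => by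
    split_ifs
    · exact hX
    · exact M.zero_mem)
  refine ⟨Y, hY, ?_, fun v hv hvu => ?_⟩
  · rw [hY2 u hu, if_pos rfl]
  · rw [hY2 v hv, if_neg hvu]
    rfl

/-- the projection (times `|ν|²`) to the orthogonal complement of `ν` -/
def pr {k : ℕ} (ν y : Fin k → ℝ) : Fin k → ℝ := dot ν ν • y - dot ν y • ν

theorem dot_pr {k : ℕ} (ν y : Fin k → ℝ) : dot ν (pr ν y) = 0 := by
  unfold pr
  rw [dot_sub, dot_smul, dot_smul]
  ring

theorem dot_pr2 {k : ℕ} (ν a y : Fin k → ℝ) : dot a (pr ν y) = dot (dot ν ν • a - dot a ν • ν) y := by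
  unfold pr
  rw [dot_sub, dot_smul, dot_smul, sub_dot, smul_dot, smul_dot]
  ring

/-- a vector orthogonal to the complement of `ν` is a multiple of `ν` -/
theorem par {k : ℕ} {ν y : Fin k → ℝ} (hν : ν ≠ 0) (h : dot y (pr ν y) = 0) :
    y = (dot ν y / dot ν ν) • ν := by
  have h0 := dot_self_pos hν
  have h1 : dot (pr ν y) (pr ν y) = 0 := by
    have : dot (pr ν y) (pr ν y) = dot ν ν * dot y (pr ν y) - dot ν y * dot ν (pr ν y) := by
      conv_lhs => enter [1]; unfold pr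
      rw [sub_dot, smul_dot, smul_dot]
    rw [this, h, dot_pr]
    ring
  have h2 := dot_self_eq_zero _ h1
  unfold pr at h2
  rw [sub_eq_zero] at h2
  have h3 : y = (dot ν ν)⁻¹ • (dot ν ν • y) := by rw [smul_smul, inv_mul_cancel₀ h0.ne', one_smul]
  calc y = (dot ν ν)⁻¹ • (dot ν ν • y) := h3
    _ = (dot ν ν)⁻¹ • (dot ν y • ν) := by rw [h2]
    _ = (dot ν y / dot ν ν) • ν := by rw [smul_smul, div_eq_inv_mul]

/-- admissible positions -/
theorem adm (h1 : Stmt_AVO) (h2 : Stmt_STA) {V : Type} [Fintype V] {k : ℕ} {p : V → Fin k → ℝ} (hp : Gnr p)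
    {M : Submodule ℝ (V → Fin k → ℝ)} {U : Finset V}
    (hF : (U.filter (fun u => ∀ X ∈ M, X u = 0)).card < k) (a : Fin k → ℝ) (c : ℝ)
    (hac : ∃ x, dot a x + c ≠ 0) : ∃ x0 : Fin k → ℝ,
      (∀ r : V → ℝ, ∃ D : Fin k → ℝ, ∀ u ∈ U, (∀ X ∈ M, X u = 0) → dot (x0 - p u) D = r u) ∧
      (∀ u ∈ U, (∃ X ∈ M, X u ≠ 0) → ∃ X ∈ M, dot (x0 - p u) (X u) ≠ 0) ∧ dot a x0 + c ≠ 0 := by
  obtain ⟨n, cn, hn, hn2⟩ := frozen h2 hp _ hF
  have hY : ∀ u : V, ∃ Y : V → Fin k → ℝ, Y ∈ M ∧ ((∃ X ∈ M, X u ≠ 0) → Y u ≠ 0) := by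
    intro u
    by_cases h : ∃ X ∈ M, X u ≠ 0
    · obtain ⟨X, hX, hXu⟩ := h
      exact ⟨X, hX, fun _ => hXu⟩
    · exact ⟨0, M.zero_mem, fun h' => absurd h' h⟩
  choose Y hYM hYu using hY
  obtain ⟨x0, hx0⟩ := avoid h1 (ι := Option (Option V))
    (fun i => match i with
      | none => a
      | some none => n
      | some (some u) => if (∃ X ∈ M, X u ≠ 0) then Y u u else 0)
    (fun i => match i with
      | none => c
      | some none => cn
      | some (some u) => if (∃ X ∈ M, X u ≠ 0) then - dot (Y u u) (p u) else 1)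
    (fun i => by
      match i with
      | none => exact hac
      | some none => exact hn
      | some (some u) =>
        by_cases h : ∃ X ∈ M, X u ≠ 0
        · refine ⟨Y u u + p u, ?_⟩
          simp only [if_pos h]
          rw [dot_add]
          have := dot_self_pos (hYu u h)
          intro h0
          linarith
        · refine ⟨0, ?_⟩
          simp only [if_neg h]
          rw [dot_zero]
          norm_num)
  refine ⟨x0, fun r => ?_, fun u hu h => ?_, hx0 none⟩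
  · obtain ⟨D, hD⟩ := hn2 x0 (hx0 (some none)) r
    exact ⟨D, fun u hu h => hD u (by simp only [mem_filter]; exact ⟨hu, h⟩)⟩
  · refine ⟨Y u, hYM u, ?_⟩
    have := hx0 (some (some u))
    simp only [if_pos h] at this
    rw [dot_comm, dot_sub]
    intro h0
    apply this
    linarith

end XZR_

open XZR_ in
theorem xzr_proof (h1 : Stmt_AVO) (h2 : Stmt_STA) : Stmt_XZR := by
  intro V _ k hk p hp M U hD hcl hF z hz
  by_cases hA : ∃ X ∈ M, (∀ u ∈ U, X u = 0) ∧ X z ≠ 0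
  · -- case A
    obtain ⟨X, hX, hXU, hXz⟩ := hA
    obtain ⟨x0, a1, a2, _⟩ := adm h1 h2 hp hF 0 1 ⟨0, by rw [zero_dot]; norm_num⟩
    refine ⟨x0, a1, a2, 0, X, hX, fun u hu => ?_, hXz⟩
    rw [hXU u hu, sub_zero, dot_zero]
  have hA' : ∀ X ∈ M, (∀ u ∈ U, X u = 0) → X z = 0 := by
    intro X hX hXU
    by_contra h
    exact hA ⟨X, hX, hXU, h⟩
  -- lifts
  have hex : ∃ u0 ∈ U, ∃ X ∈ M, (∀ v ∈ U, v ≠ u0 → X v = 0) ∧ X z ≠ 0 := by
    by_contra hcon
    obtain ⟨X, hX, hXz⟩ := hz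
    have hl : ∀ u : V, ∃ Y : V → Fin k → ℝ, u ∈ U → (Y ∈ M ∧ Y u = X u ∧ ∀ v ∈ U, v ≠ u → Y v = 0) := by
      intro u
      by_cases hu : u ∈ U
      · obtain ⟨Y, hY⟩ := lift hD hu hX
        exact ⟨Y, fun _ => hY⟩
      · exact ⟨0, fun h => absurd h hu⟩
    choose Y hY using hl
    have hS : ∑ u ∈ U, Y u ∈ M := Submodule.sum_mem M (fun u hu => (hY u hu).1)
    have hz0 := hA' (X - ∑ u ∈ U, Y u) (M.sub_mem hX hS) (fun v hv => by
      rw [Pi.sub_apply, Finset.sum_apply, Finset.sum_eq_single v (fun u hu huv => (hY u hu).2.2 v hv huv.symm)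
        (fun h => absurd hv h), (hY v hv).2.1, sub_self])
    rw [Pi.sub_apply, Finset.sum_apply, Finset.sum_eq_zero (fun u hu => by
      by_contra hne
      exact hcon ⟨u, hu, Y u, (hY u hu).1, (hY u hu).2.2, hne⟩), sub_zero] at hz0
    exact hXz hz0
  by_cases hB : ∃ u ∈ U, ∃ X ∈ M, ∃ Y ∈ M, (∀ v ∈ U, v ≠ u → X v = 0) ∧ (∀ v ∈ U, v ≠ u → Y v = 0) ∧
      X z ≠ 0 ∧ ∀ c : Fin k, (X z c) • Y u - (Y z c) • X u = 0 → X z c = 0
  · -- case B1
    obtain ⟨u, hu, X, hX, Y, hY, hX0, hY0, hXz, hind⟩ := hB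
    obtain ⟨c, hc⟩ : ∃ c, X z c ≠ 0 := by
      by_contra hcon
      apply hXz
      funext c
      by_contra hne
      exact hcon ⟨c, hne⟩
    obtain ⟨w, hw⟩ : ∃ w, w = (X z c) • Y u - (Y z c) • X u := ⟨_, rfl⟩
    have hw0 : w ≠ 0 := by
      intro h0
      exact hc (hind c (by rw [← hw, h0]))
    obtain ⟨x0, a1, a2, a3⟩ := adm h1 h2 hp hF w (- dot w (p u)) ⟨w + p u, by
      rw [dot_add]
      have := dot_self_pos hw0
      intro h0
      linarith⟩
    refine ⟨x0, a1, a2, 0, dot (x0 - p u) (Y u) • X - dot (x0 - p u) (X u) • Y,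
      M.sub_mem (M.smul_mem _ hX) (M.smul_mem _ hY), fun v hv => ?_, ?_⟩
    · rw [zero_sub, ← zero_sub, dot_sub, dot_zero, zero_sub, neg_eq_zero]
      rcases eq_or_ne v u with rfl | hvu
      · rw [Pi.sub_apply, Pi.smul_apply, Pi.smul_apply, dot_sub, dot_smul, dot_smul]
        ring
      · rw [Pi.sub_apply, Pi.smul_apply, Pi.smul_apply, hX0 v hv hvu, hY0 v hv hvu, smul_zero, smul_zero,
          sub_zero, dot_zero]
    · intro h0
      have h3 := congrFun h0 c
      apply a3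
      rw [Pi.sub_apply, Pi.smul_apply, Pi.smul_apply, Pi.sub_apply, Pi.smul_apply, Pi.smul_apply] at h3
      have h4 : dot w x0 + - dot w (p u) = dot (x0 - p u) w := by
        rw [dot_comm (x0 - p u), dot_sub]
        ring
      rw [h4, hw, dot_sub, dot_smul, dot_smul]
      simp only [smul_eq_mul, Pi.zero_apply] at h3
      linarith
  -- case B2
  obtain ⟨u0, hu0, X0, hX0, hX0v, hX0z⟩ := hex
  obtain ⟨c0, hc0⟩ : ∃ c, X0 z c ≠ 0 := by
    by_contra hcon
    apply hX0z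
    funext c
    by_contra hne
    exact hcon ⟨c, hne⟩
  obtain ⟨ν, hν⟩ : ∃ ν, ν = X0 u0 := ⟨_, rfl⟩
  have hν0 : ν ≠ 0 := by
    intro h0
    apply hX0z
    refine hA' X0 hX0 (fun u hu => ?_)
    rcases eq_or_ne u u0 with rfl | hne
    · rw [← hν, h0]
    · exact hX0v u hu hne
  have hνν := dot_self_pos hν0
  have hpar : ∀ Y ∈ M, ∃ ρ : ℝ, Y u0 = ρ • ν := by
    intro Y hY
    obtain ⟨Y', hY', e1, e2⟩ := lift hD hu0 hY
    by_contra hcon
    apply hB
    refine ⟨u0, hu0, X0, hX0, Y', hY', hX0v, e2, hX0z, fun c hc => ?_⟩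
    by_contra hne
    apply hcon
    refine ⟨(X0 z c)⁻¹ * Y' z c, ?_⟩
    rw [sub_eq_zero] at hc
    rw [← e1, mul_smul, hν, ← hc, smul_smul, inv_mul_cancel₀ hne, one_smul]
  -- the contradiction
  have hcon : ∀ u ∈ U, u ≠ u0 → dot (p u0 - p u) ν = 0 → ∃ X ∈ M, ∀ ρ : ℝ, X u ≠ ρ • ν := by
    intro u hu hne h0
    obtain ⟨X, hX, hX'⟩ := hcl u0 hu0 u hu hne.symm ⟨X0, hX0, by rw [← hν]; exact hν0⟩
    refine ⟨X, hX, fun ρ hρ => hX' ?_⟩
    obtain ⟨ρ', hρ'⟩ := hpar X hX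
    rw [hρ, hρ', ← sub_smul, dot_smul, h0, mul_zero]
  obtain ⟨F, hFd⟩ : ∃ F, F = U.filter (fun u => ∀ X ∈ M, X u = 0) := ⟨_, rfl⟩
  rw [← hFd] at hF
  have memF : ∀ u, u ∈ F ↔ u ∈ U ∧ ∀ X ∈ M, X u = 0 := by
    intro u
    rw [hFd, mem_filter]
  have hu0F : u0 ∉ F := by
    intro h
    exact hν0 (by rw [hν]; exact ((memF u0).1 h).2 X0 hX0)
  -- the functional vanishing at `p u0` and on the frozen neighbours
  obtain ⟨n, hn, y1, hy1⟩ : ∃ n : Fin k → ℝ, (∀ u ∈ F, dot (p u0 - p u) n = 0) ∧ ∃ y, dot n (pr ν y) ≠ 0 := by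
    rcases F.eq_empty_or_nonempty with hFe | ⟨u, hu⟩
    · obtain ⟨n, hn0, hn⟩ := orth (k := k) {u0} (by rw [Finset.card_singleton]; omega) (fun _ => ν)
      refine ⟨n, fun u hu => by rw [hFe] at hu; exact absurd hu (Finset.notMem_empty u), n, ?_⟩
      have h3 := hn u0 (Finset.mem_singleton_self u0)
      have h4 := dot_self_pos hn0
      unfold pr
      rw [dot_sub, dot_smul, dot_smul, h3]
      have := mul_pos hνν h4
      intro h0
      linarith
    · obtain ⟨n, hn0, hn⟩ := orth F hF (fun u => p u0 - p u)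
      refine ⟨n, hn, ?_⟩
      by_contra hno
      have h3 : dot n (pr ν n) = 0 := by
        by_contra hne
        exact hno ⟨n, hne⟩
      have h4 := par hν0 h3
      have h5 := hn u hu
      have h6 : dot ν n / dot ν ν ≠ 0 := by
        intro h0
        rw [h0, zero_smul] at h4
        exact hn0 h4
      rw [h4, dot_smul] at h5
      have h7 := (mul_eq_zero.1 h5).resolve_left h6
      obtain ⟨X, hX, hX'⟩ := hcon u ((memF u).1 hu).1 (by rintro rfl; exact hu0F hu) h7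
      exact hX' 0 (by rw [zero_smul]; exact ((memF u).1 hu).2 X hX)
  -- the directions of the free neighbours
  obtain ⟨J, hJ⟩ : ∃ J, J = U.filter (fun u => u ≠ u0 ∧ ∃ X ∈ M, X u ≠ 0) := ⟨_, rfl⟩
  have memJ : ∀ u, u ∈ J ↔ u ∈ U ∧ u ≠ u0 ∧ ∃ X ∈ M, X u ≠ 0 := by
    intro u
    rw [hJ, mem_filter]
  have hYex : ∀ u : V, ∃ Y : V → Fin k → ℝ, u ∈ J → (Y ∈ M ∧ (∀ v ∈ U, v ≠ u → Y v = 0) ∧
      ∃ y, dot (Y u) (pr ν y) + dot (Y u) (p u0 - p u) ≠ 0) := by
    intro u
    by_cases hu : u ∈ J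
    · obtain ⟨huU, hne, X, hX, hXu⟩ := (memJ u).1 hu
      by_contra hno
      have key : ∀ Y ∈ M, (∀ v ∈ U, v ≠ u → Y v = 0) → dot (Y u) (p u0 - p u) = 0 ∧ ∃ ρ : ℝ, Y u = ρ • ν := by
        intro Y hY hYv
        have h3 : ∀ y, dot (Y u) (pr ν y) + dot (Y u) (p u0 - p u) = 0 := by
          intro y
          by_contra hne'
          exact hno ⟨Y, fun _ => ⟨hY, hYv, y, hne'⟩⟩
        have h4 := h3 0
        have h5 : pr ν (0 : Fin k → ℝ) = 0 := by
          unfold pr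
          rw [dot_zero, smul_zero, zero_smul, sub_zero]
        rw [h5, dot_zero, zero_add] at h4
        have h6 := h3 (Y u)
        rw [h4, add_zero] at h6
        exact ⟨h4, _, par hν0 h6⟩
      have hnu : dot (p u0 - p u) ν = 0 := by
        obtain ⟨Y, hY, e1, e2⟩ := lift hD huU hX
        obtain ⟨h3, ρ, h4⟩ := key Y hY e2
        have hρ : ρ ≠ 0 := by
          rintro rfl
          rw [zero_smul, e1] at h4
          exact hXu h4
        rw [h4, smul_dot, mul_eq_zero] at h3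
        rw [dot_comm]
        exact h3.resolve_left hρ
      obtain ⟨X', hX', hX'ρ⟩ := hcon u huU hne hnu
      obtain ⟨Y, hY, e1, e2⟩ := lift hD huU hX'
      obtain ⟨_, ρ, h4⟩ := key Y hY e2
      rw [e1] at h4
      exact hX'ρ ρ h4
    · exact ⟨0, fun h => absurd h hu⟩
  choose Y hY using hYex
  -- the position `x1`
  obtain ⟨y, hy⟩ := avoid h1 (k := k) (ι := Option V)
    (fun i => match i with
      | none => dot ν ν • n - dot n ν • ν
      | some u => if u ∈ J then dot ν ν • Y u u - dot (Y u u) ν • ν else 0)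
    (fun i => match i with
      | none => 0
      | some u => if u ∈ J then dot (Y u u) (p u0 - p u) else 1)
    (fun i => by
      match i with
      | none =>
        refine ⟨y1, ?_⟩
        dsimp only
        rw [add_zero, ← dot_pr2]
        exact hy1
      | some u =>
        by_cases h : u ∈ J
        · obtain ⟨y, hy⟩ := (hY u h).2.2
          refine ⟨y, ?_⟩
          simp only [if_pos h]
          rw [← dot_pr2]
          exact hy
        · refine ⟨0, ?_⟩
          simp only [if_neg h]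
          rw [dot_zero]
          norm_num)
  obtain ⟨x1, hx1⟩ : ∃ x1, x1 = p u0 + pr ν y := ⟨_, rfl⟩
  have hq : x1 - p u0 = pr ν y := by rw [hx1]; abel
  have f1 : dot (x1 - p u0) ν = 0 := by rw [hq, dot_comm, dot_pr]
  have f2 : dot (x1 - p u0) n ≠ 0 := by
    have h3 := hy none
    dsimp only at h3
    rw [add_zero, ← dot_pr2] at h3
    rw [hq, dot_comm]
    exact h3
  have f3 : ∀ u ∈ J, dot (x1 - p u) (Y u u) ≠ 0 := by
    intro u hu
    have h3 := hy (some u)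
    simp only [if_pos hu] at h3
    rw [← dot_pr2, ← dot_add] at h3
    have e : x1 - p u = pr ν y + (p u0 - p u) := by rw [hx1]; abel
    rw [e, dot_comm]
    exact h3
  obtain ⟨ξ, hξ⟩ := indep h2 hp hu0F hF.le hn f2 (fun v => if v = u0 then 1 else 0)
  have ξ0 : dot (x1 - p u0) ξ = 1 := by
    rw [hξ u0 (Finset.mem_insert_self _ _), if_pos rfl]
  have ξF : ∀ u ∈ F, dot (x1 - p u) ξ = 0 := by
    intro u hu
    rw [hξ u (Finset.mem_insert_of_mem hu), if_neg (by rintro rfl; exact hu0F hu)]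
  obtain ⟨w, hw⟩ : ∃ w, w = (dot ν ν)⁻¹ • (ν - dot ν ξ • (x1 - p u0)) := ⟨_, rfl⟩
  have w1 : dot w ξ = 0 := by
    rw [hw, smul_dot, sub_dot, smul_dot, ξ0]
    ring
  have w2 : dot w ν = 1 := by
    rw [hw, smul_dot, sub_dot, smul_dot, f1]
    field_simp
    ring
  -- small perturbation
  obtain ⟨A, hAd⟩ : ∃ A : V → ℝ, A = fun u => dot (x1 - p u) (Y u u) := ⟨_, rfl⟩
  obtain ⟨B, hBd⟩ : ∃ B : V → ℝ, B = fun u => dot w (Y u u) := ⟨_, rfl⟩
  obtain ⟨C, hCd⟩ : ∃ C : V → ℝ, C = fun u => dot (x1 - p u) ξ * Y u z c0 := ⟨_, rfl⟩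
  have hA0 : ∀ u ∈ J, A u ≠ 0 := by
    intro u hu
    rw [hAd]
    exact f3 u hu
  have ev1 : ∀ᶠ s in nhds (0 : ℝ), dot (x1 - p u0) n + s * dot w n ≠ 0 := by
    have hc : ContinuousAt (fun s : ℝ => dot (x1 - p u0) n + s * dot w n) 0 :=
      continuousAt_const.add (continuousAt_id.mul continuousAt_const)
    refine hc.eventually_ne ?_
    simp only [zero_mul, add_zero]
    exact f2
  have ev2 : ∀ᶠ s in nhds (0 : ℝ), ∀ u ∈ J, A u + s * B u ≠ 0 := by
    rw [Filter.eventually_all_finset]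
    intro u hu
    have hc : ContinuousAt (fun s : ℝ => A u + s * B u) 0 :=
      continuousAt_const.add (continuousAt_id.mul continuousAt_const)
    refine hc.eventually_ne ?_
    simp only [zero_mul, add_zero]
    exact hA0 u hu
  have ev3 : ∀ᶠ s in nhds (0 : ℝ), X0 z c0 + s * ∑ u ∈ J, C u / (A u + s * B u) ≠ 0 := by
    have hc : ContinuousAt (fun s : ℝ => X0 z c0 + s * ∑ u ∈ J, C u / (A u + s * B u)) 0 := by
      refine continuousAt_const.add (continuousAt_id.mul (tendsto_finsetSum _ (fun u hu => ?_)))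
      have hc : ContinuousAt (fun s : ℝ => A u + s * B u) 0 :=
        continuousAt_const.add (continuousAt_id.mul continuousAt_const)
      exact (continuousAt_const (y := C u)).div hc (by simp only [zero_mul, add_zero]; exact hA0 u hu)
    refine hc.eventually_ne ?_
    simp only [zero_mul, add_zero]
    exact hc0
  have ev : ∀ᶠ s in nhdsWithin (0 : ℝ) {0}ᶜ, s ≠ 0 ∧ dot (x1 - p u0) n + s * dot w n ≠ 0 ∧
      (∀ u ∈ J, A u + s * B u ≠ 0) ∧ X0 z c0 + s * ∑ u ∈ J, C u / (A u + s * B u) ≠ 0 := by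
    have h3 : ∀ᶠ s in nhdsWithin (0 : ℝ) {0}ᶜ, s ≠ 0 := by
      filter_upwards [self_mem_nhdsWithin] with s hs
      exact hs
    filter_upwards [h3, (ev1.filter_mono nhdsWithin_le_nhds), (ev2.filter_mono nhdsWithin_le_nhds),
      (ev3.filter_mono nhdsWithin_le_nhds)] with s a b c d
    exact ⟨a, b, c, d⟩
  obtain ⟨s, s0, s1, s2, s3⟩ := ev.exists
  have hxw : ∀ (v : V) (q : Fin k → ℝ), dot (x1 + s • w - p v) q = dot (x1 - p v) q + s * dot w q := by
    intro v q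
    have e : x1 + s • w - p v = (x1 - p v) + s • w := by abel
    rw [e, add_dot, smul_dot]
  have hJM : ∀ u ∈ J, Y u ∈ M := fun u hu => (hY u hu).1
  obtain ⟨Xs, hXs⟩ : ∃ Xs : V → Fin k → ℝ, Xs = s⁻¹ • X0 +
    ∑ u ∈ J, (dot (x1 - p u) ξ / (A u + s * B u)) • Y u := ⟨_, rfl⟩
  have hXsM : Xs ∈ M := by
    rw [hXs]
    exact M.add_mem (M.smul_mem _ hX0) (Submodule.sum_mem M (fun u hu => M.smul_mem _ (hJM u hu)))
  refine ⟨x1 + s • w, fun r => ?_, fun u hu hfree => ?_, ξ, Xs, hXsM, fun v hv => ?_, ?_⟩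
  · obtain ⟨D, hD'⟩ := indep h2 hp (x := x1 + s • w) hu0F hF.le hn (by rw [hxw]; exact s1) r
    exact ⟨D, fun u hu h => hD' u (Finset.mem_insert_of_mem ((memF u).2 ⟨hu, h⟩))⟩
  · rcases eq_or_ne u u0 with rfl | hne
    · refine ⟨X0, hX0, ?_⟩
      rw [hxw, ← hν, f1, w2]
      simpa using s0
    · have huJ : u ∈ J := (memJ u).2 ⟨hu, hne, hfree⟩
      refine ⟨Y u, hJM u huJ, ?_⟩
      have := s2 u huJ
      rw [hAd, hBd] at this
      rw [hxw]
      exact this
  · rcases eq_or_ne v u0 with rfl | hne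
    · have e1 : Xs v = s⁻¹ • ν := by
        rw [hXs, Pi.add_apply, Pi.smul_apply, Finset.sum_apply, Finset.sum_eq_zero (fun u hu => ?_), add_zero, hν]
        rw [Pi.smul_apply, (hY u hu).2.1 v hv ((memJ u).1 hu).2.1.symm, smul_zero]
      rw [e1, dot_sub, dot_smul, hxw, hxw, w1, w2, f1, ξ0]
      field_simp
      ring
    · by_cases hfree : ∃ X ∈ M, X v ≠ 0
      · have hvJ : v ∈ J := (memJ v).2 ⟨hv, hne, hfree⟩
        have e1 : Xs v = (dot (x1 - p v) ξ / (A v + s * B v)) • Y v v := by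
          rw [hXs, Pi.add_apply, Pi.smul_apply, hX0v v hv hne, smul_zero, zero_add, Finset.sum_apply,
            Finset.sum_eq_single v (fun u hu huv => ?_) (fun h => absurd hvJ h), Pi.smul_apply]
          rw [Pi.smul_apply, (hY u hu).2.1 v hv huv.symm, smul_zero]
        have e2 : dot (x1 + s • w - p v) (Y v v) = A v + s * B v := by
          rw [hxw, hAd, hBd]
        rw [e1, dot_sub, dot_smul, e2, div_mul_cancel₀ _ (s2 v hvJ), hxw, w1]
        ring
      · have hall : ∀ X ∈ M, X v = 0 := by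
          intro X hX
          by_contra hne'
          exact hfree ⟨X, hX, hne'⟩
        rw [hall Xs hXsM, sub_zero, hxw, w1, ξF v ((memF v).2 ⟨hv, hall⟩)]
        ring
  · intro h0
    have h3 := congrFun h0 c0
    rw [hXs, Pi.add_apply, Pi.add_apply, Pi.smul_apply, Pi.smul_apply, Finset.sum_apply, Finset.sum_apply] at h3
    simp only [Pi.smul_apply, smul_eq_mul, Pi.zero_apply] at h3
    apply s3
    have h4 : s * (s⁻¹ * X0 z c0 + ∑ u ∈ J, dot (x1 - p u) ξ / (A u + s * B u) * Y u z c0) = 0 := by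
      rw [h3, mul_zero]
    rw [mul_add, mul_inv_cancel_left₀ s0] at h4
    rw [← h4]
    congr 2
    refine Finset.sum_congr rfl (fun u _ => ?_)
    rw [hCd]
    ring

end Pool.Agent.GRR
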