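import Pool.Agent.GRR.EXB
import Pool.Agent.GRR.SPA
import Pool.Agent.GRR.GEN
import Pool.Agent.GRR.GNE
import Pool.Agent.GRR.LIN
import Pool.Agent.GRR.STA
import Pool.Agent.GRR.TRI
import Pool.Agent.GRR.TWO
import Pool.Agent.GRR.FRZ
import Pool.Agent.GRR.UND
import Pool.Agent.GRR.SBE
import Pool.Agent.GRR.SBJ
import Pool.Agent.GRR.INC
import Pool.Agent.GRR.WHB
import Pool.Agent.GRR.UNI
import Pool.Agent.GRR.BAS
import Pool.Agent.GRR.NCO
import Pool.Agent.GRR.ROD
import Pool.Agent.GRR.DEG
import Pool.Agent.GRR.ROB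
import Pool.Agent.GRR.BDB
import Pool.Agent.GRR.BDA
import Pool.Agent.GRR.BDZ
import Pool.Agent.GRR.TLT
import Pool.Agent.GRR.BDS
import Pool.Agent.GRR.DEC
import Pool.Agent.GRR.CNF
import Pool.Agent.GRR.GDP
import Pool.Agent.GRR.ISO
import Pool.Agent.GRR.NGD
import Pool.Agent.GRR.BIP
import Pool.Agent.GRR.DEN
import Pool.Agent.GRR.MEC
import Pool.Agent.GRR.RDF
import Pool.Agent.GRR.BIG
import Pool.Agent.GRR.EXI
import Pool.Agent.GRR.AFC
import Pool.Agent.GRR.ISM
import Pool.Agent.GRR.ACL
import Pool.Agent.GRR.TWG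
import Pool.Agent.GRR.GLB
import Pool.Agent.GRR.UGD
import Pool.Agent.GRR.UGL
import Pool.Agent.GRR.SUB
import Pool.Agent.GRR.NVA
import Pool.Agent.GRR.CVA
import Pool.Agent.GRR.AVO
import Pool.Agent.GRR.XZR
import Pool.Agent.GRR.CVB
import Pool.Agent.GRR.HAL
import Pool.Agent.GRR.FRE
import Pool.Agent.GRR.CNT
import Pool.Agent.GRR.STP
import Pool.Agent.GRR.SCI
import Pool.Agent.GRR.OUT
import Pool.Agent.GRR.INS
import Pool.Agent.GRR.TIG
import Pool.Agent.GRR.SRG
import Pool.Agent.GRR.PEL
import Pool.Agent.GRR.PIP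
import Pool.Agent.GRR.TGD
import Pool.Agent.GRR.JAC
import Pool.Agent.GRR.DIM
import Pool.Agent.GRR.ALG
import Pool.Agent.GRR.GPT
import Pool.Agent.GRR.AFF
import Pool.Agent.GRR.TLM
import Pool.Agent.GRR.INV
import Pool.Agent.GRR.CLS
import Pool.Agent.GRR.SGT
import Pool.Agent.GRR.SGL
import Pool.Agent.GRR.GLO
import Pool.Agent.GRR.MAI
import Pool.Agent.GRR.EXT
import Pool.Agent.GRR.DGN
import Pool.Agent.GRR.STR
import Pool.Agent.GRR.TRD
import Pool.Agent.GRR.PRB
import Pool.Agent.GRR.FIN
import Pool.Agent.GRR.IND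

set_option autoImplicit false

namespace Pool.Agent.GRR

theorem all_exb : Stmt_EXB := exb_proof 
theorem all_spa : Stmt_SPA := spa_proof all_exb
theorem all_gen : Stmt_GEN := gen_proof 
theorem all_gne : Stmt_GNE := gne_proof all_gen
theorem all_lin : Stmt_LIN := lin_proof 
theorem all_sta : Stmt_STA := sta_proof all_gne all_lin
theorem all_tri : Stmt_TRI := tri_proof all_sta
theorem all_two : Stmt_TWO := two_proof all_gen all_tri
theorem all_frz : Stmt_FRZ := frz_proof all_sta all_tri
theorem all_und : Stmt_UND := und_proof all_two all_frz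
theorem all_sbe : Stmt_SBE := sbe_proof 
theorem all_sbj : Stmt_SBJ := sbj_proof all_exb all_sbe
theorem all_inc : Stmt_INC := inc_proof all_exb all_sbj
theorem all_whb : Stmt_WHB := whb_proof all_exb
theorem all_uni : Stmt_UNI := uni_proof all_und all_inc all_whb
theorem all_bas : Stmt_BAS := bas_proof 
theorem all_nco : Stmt_NCO := nco_proof all_frz
theorem all_rod : Stmt_ROD := rod_proof all_bas all_nco
theorem all_deg : Stmt_DEG := deg_proof all_exb all_sbe
theorem all_rob : Stmt_ROB := rob_proof all_rod all_sbj all_exb all_deg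
theorem all_bdb : Stmt_BDB := bdb_proof 
theorem all_bda : Stmt_BDA := bda_proof all_frz all_sta
theorem all_bdz : Stmt_BDZ := bdz_proof all_bdb all_bda all_inc all_uni all_exb
theorem all_tlt : Stmt_TLT := tlt_proof all_sta
theorem all_bds : Stmt_BDS := bds_proof all_tlt all_sbe all_deg all_exb
theorem all_bdx : Stmt_BDX := bdx_proof all_bdz all_bds
theorem all_dec : Stmt_DEC := dec_proof 
theorem all_cnf : Stmt_CNF := cnf_proof all_bdx all_dec all_uni all_sta all_frz all_exb
theorem all_gdp : Stmt_GDP := gdp_proof all_bdx all_dec all_cnf all_exb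
theorem all_iso : Stmt_ISO := iso_proof 
theorem all_ngd : Stmt_NGD := ngd_proof all_gdp all_iso all_exb
theorem all_bip : Stmt_BIP := bip_proof all_gen all_sta
theorem all_den : Stmt_DEN := den_proof all_bip
theorem all_mec : Stmt_MEC := mec_proof 
theorem all_rdf : Stmt_RDF := rdf_proof all_sta
theorem all_big : Stmt_BIG := big_proof all_rdf
theorem all_exi : Stmt_EXI := exi_proof all_spa all_den all_mec all_big all_exb
theorem all_afc : Stmt_AFC := afc_proof all_sta
theorem all_ism : Stmt_ISM := ism_proof all_sta all_afc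
theorem all_acl : Stmt_ACL := acl_proof 
theorem all_twg : Stmt_TWG := twg_proof all_ism all_acl all_sta all_afc
theorem all_glb : Stmt_GLB := glb_proof all_afc
theorem all_ugd : Stmt_UGD := ugd_proof all_twg all_glb all_rdf
theorem all_ugl : Stmt_UGL := ugl_proof all_ugd all_inc all_exb all_whb all_rdf all_glb
theorem all_sub : Stmt_SUB := sub_proof all_frz all_sta
theorem all_nva : Stmt_NVA := nva_proof all_gne all_lin
theorem all_cva : Stmt_CVA := cva_proof all_sta all_nva
theorem all_avo : Stmt_AVO := avo_proof 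
theorem all_xzr : Stmt_XZR := xzr_proof all_avo all_sta
theorem all_cvb : Stmt_CVB := cvb_proof all_gne all_lin all_sta all_nva all_frz all_xzr
theorem all_hal : Stmt_HAL := hal_proof 
theorem all_fre : Stmt_FRE := fre_proof all_lin
theorem all_cnt : Stmt_CNT := cnt_proof 
theorem all_stp : Stmt_STP := stp_proof all_gne all_lin all_sta all_cnt
theorem all_sia : Stmt_SIA := sia_proof all_fre all_stp
theorem all_sci : Stmt_SCI := sci_proof all_hal all_sia all_lin all_sta
theorem all_out : Stmt_OUT := out_proof all_sub all_cva all_cvb all_sci all_frz all_lin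
theorem all_ins : Stmt_INS := ins_proof all_out all_lin
theorem all_tig : Stmt_TIG := tig_proof all_frz all_lin
theorem all_sra : Stmt_SRA := sra_proof all_fre all_stp
theorem all_srg : Stmt_SRG := srg_proof all_hal all_sra
theorem all_pel : Stmt_PEL := pel_proof all_ins all_tig all_srg all_rdf all_sub all_frz all_tri all_big
theorem all_pip : Stmt_PIP := pip_proof all_tig
theorem all_tgd : Stmt_TGD := tgd_proof all_sub all_cva all_cvb all_rdf all_srg all_pel all_pip all_tri all_big all_frz
theorem all_jac : Stmt_JAC := jac_proof 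
theorem all_dim : Stmt_DIM := dim_proof all_tri
theorem all_alg : Stmt_ALG := alg_proof all_jac all_acl all_lin all_dim
theorem all_gpt : Stmt_GPT := gpt_proof all_acl
theorem all_aff : Stmt_AFF := aff_proof all_acl all_gpt all_sta
theorem all_tlm : Stmt_TLM := tlm_proof all_alg all_aff
theorem all_inv : Stmt_INV := inv_proof all_gne all_lin
theorem all_cls : Stmt_CLS := cls_proof all_tlm all_inv all_glb all_rdf
theorem all_sgt : Stmt_SGT := sgt_proof all_jac all_acl
theorem all_sgl : Stmt_SGL := sgl_proof all_sci all_cnt all_lin all_sgt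
theorem all_glo : Stmt_GLO := glo_proof all_cls all_sgl all_ism all_rdf
theorem all_mai : Stmt_MAI := mai_proof all_spa all_uni all_rob all_ngd all_exi all_ugl all_pel all_pip all_tgd all_rdf all_glo all_frz all_whb all_exb
theorem all_ext : Stmt_EXT := ext_proof 
theorem all_dgn : Stmt_DGN := dgn_proof all_exb all_rdf
theorem all_str : Stmt_STR := str_proof all_inv all_lin
theorem all_trd : Stmt_TRD := trd_proof all_str all_ext all_rdf
theorem all_prb : Stmt_PRB := prb_proof all_exb
theorem all_fin : Stmt_FIN := fin_proof all_mai all_ext all_dgn all_trd all_prb all_exb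

end Pool.Agent.GRR
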