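import Mathlib

/-!
# Definitions for the project GRR (MP_9e2625_co)

`V` is the (finite) vertex set, graphs are `G : Finset (Sym2 V)` (normally `G ⊆ pairs V`),
configurations are `p X : V → Fin k → ℝ`.
-/

set_option autoImplicit false
set_option linter.unusedSectionVars false

open Finset
open scoped Classical

namespace Pool.Agent.GRR

noncomputable section

/-- dot product -/
def dot {k : ℕ} (x y : Fin k → ℝ) : ℝ := ∑ c, x c * y c

/-- generic configuration: all coordinates algebraically independent over ℚ -/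
def Gnr {V : Type} {k : ℕ} (p : V → Fin k → ℝ) : Prop :=
  AlgebraicIndependent ℚ (fun x : V × Fin k => p x.1 x.2)

lemma dot_neg_neg {k : ℕ} (x y : Fin k → ℝ) : dot (-x) (-y) = dot x y := by
  unfold dot; exact Finset.sum_congr rfl (fun c _ => by simp)

lemma dot_comm {k : ℕ} (x y : Fin k → ℝ) : dot x y = dot y x := by
  unfold dot; exact Finset.sum_congr rfl (fun c _ => mul_comm _ _)

/-- (half of) the derivative of the squared length of the pair `e` at `p` in direction `X`:
`(p i - p j) · (X i - X j)` -/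
def ell {V : Type} {k : ℕ} (p X : V → Fin k → ℝ) (e : Sym2 V) : ℝ :=
  Sym2.lift ⟨fun i j => dot (p i - p j) (X i - X j), by
    intro i j
    show dot (p i - p j) (X i - X j) = dot (p j - p i) (X j - X i)
    rw [← dot_neg_neg (p i - p j) (X i - X j), neg_sub, neg_sub]⟩ e

@[simp] lemma ell_mk {V : Type} {k : ℕ} (p X : V → Fin k → ℝ) (i j : V) :
    ell p X s(i, j) = dot (p i - p j) (X i - X j) := rfl

/-- squared length of the pair `e` -/
def len {V : Type} {k : ℕ} (p : V → Fin k → ℝ) (e : Sym2 V) : ℝ := ell p p e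

@[simp] lemma len_mk {V : Type} {k : ℕ} (p : V → Fin k → ℝ) (i j : V) :
    len p s(i, j) = dot (p i - p j) (p i - p j) := rfl

section dotlemmas
variable {k : ℕ} (x y z : Fin k → ℝ) (a : ℝ)
lemma dot_add : dot x (y + z) = dot x y + dot x z := by
  unfold dot; rw [← Finset.sum_add_distrib]; exact Finset.sum_congr rfl (fun c _ => by simp [mul_add])
lemma dot_sub : dot x (y - z) = dot x y - dot x z := by
  unfold dot; rw [← Finset.sum_sub_distrib]; exact Finset.sum_congr rfl (fun c _ => by simp [mul_sub])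
lemma dot_smul : dot x (a • y) = a * dot x y := by
  unfold dot; rw [Finset.mul_sum]; exact Finset.sum_congr rfl (fun c _ => by simp; ring)
lemma dot_zero : dot x 0 = 0 := by unfold dot; simp
lemma zero_dot : dot 0 x = 0 := by unfold dot; simp
lemma add_dot : dot (x + y) z = dot x z + dot y z := by
  rw [dot_comm, dot_add, dot_comm z x, dot_comm z y]
lemma sub_dot : dot (x - y) z = dot x z - dot y z := by
  rw [dot_comm, dot_sub, dot_comm z x, dot_comm z y]
lemma smul_dot : dot (a • x) z = a * dot x z := by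
  rw [dot_comm, dot_smul, dot_comm z x]
lemma dot_self_nonneg : 0 ≤ dot x x := Finset.sum_nonneg (fun _ _ => mul_self_nonneg _)
lemma dot_self_eq_zero (h : dot x x = 0) : x = 0 := by
  funext c
  have := (Finset.sum_eq_zero_iff_of_nonneg (fun d _ => mul_self_nonneg (x d))).1 h c (mem_univ c)
  simpa using this
end dotlemmas

section elllemmas
variable {V : Type} {k : ℕ} (p X Y : V → Fin k → ℝ) (a : ℝ) (e : Sym2 V)
lemma ell_add : ell p (X + Y) e = ell p X e + ell p Y e := by
  induction e with | h i j => simp only [ell_mk, Pi.add_apply]; rw [← dot_add]; congr 1; abel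
lemma ell_sub : ell p (X - Y) e = ell p X e - ell p Y e := by
  induction e with | h i j => simp only [ell_mk, Pi.sub_apply]; rw [← dot_sub]; congr 1; abel
lemma ell_smul : ell p (a • X) e = a * ell p X e := by
  induction e with | h i j => simp only [ell_mk, Pi.smul_apply]; rw [← dot_smul, smul_sub]
lemma ell_zero : ell p 0 e = 0 := by
  induction e with | h i j => simp [ell_mk, dot_zero]
lemma ell_diag (i : V) : ell p X s(i, i) = 0 := by simp [dot_zero]
lemma ell_sum {ι : Type} (s : Finset ι) (Z : ι → V → Fin k → ℝ) :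
    ell p (∑ i ∈ s, Z i) e = ∑ i ∈ s, ell p (Z i) e := by
  induction s using Finset.induction_on with
  | empty => simp [ell_zero]
  | insert i s hi ih => rw [Finset.sum_insert hi, Finset.sum_insert hi, ell_add, ih]
/-- `ell` depends only on the values at the two ends -/
lemma ell_congr {p X p' X' : V → Fin k → ℝ} (e : Sym2 V) (hp : ∀ i ∈ e, p i = p' i)
    (hX : ∀ i ∈ e, X i = X' i) : ell p X e = ell p' X' e := by
  induction e with
  | h i j =>
    simp only [ell_mk]
    rw [hp i (by simp), hp j (by simp), hX i (by simp), hX j (by simp)]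
end elllemmas

section fintypeV
variable {V : Type} [Fintype V] {k : ℕ}

/-- all (non diagonal) pairs -/
def pairs (V : Type) [Fintype V] : Finset (Sym2 V) := univ.filter (fun e => ¬ e.IsDiag)

@[simp] lemma mem_pairs (e : Sym2 V) : e ∈ pairs V ↔ ¬ e.IsDiag := by simp [pairs]

/-- infinitesimal motions of `G` that vanish on `B` -/
def Mot (p : V → Fin k → ℝ) (B : Finset V) (G : Finset (Sym2 V)) :
    Submodule ℝ (V → Fin k → ℝ) where
  carrier := {X | (∀ i ∈ B, X i = 0) ∧ ∀ e ∈ G, ell p X e = 0}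
  add_mem' := by
    rintro X Y ⟨hX, hX'⟩ ⟨hY, hY'⟩
    refine ⟨fun i hi => ?_, fun e he => ?_⟩
    · simp [hX i hi, hY i hi]
    · rw [ell_add, hX' e he, hY' e he, add_zero]
  zero_mem' := ⟨fun i _ => rfl, fun e _ => ell_zero p e⟩
  smul_mem' := by
    rintro a X ⟨hX, hX'⟩
    refine ⟨fun i hi => ?_, fun e he => ?_⟩
    · simp [hX i hi]
    · rw [ell_smul, hX' e he, mul_zero]

lemma mem_Mot (p : V → Fin k → ℝ) (B : Finset V) (G : Finset (Sym2 V)) (X : V → Fin k → ℝ) :
    X ∈ Mot p B G ↔ (∀ i ∈ B, X i = 0) ∧ ∀ e ∈ G, ell p X e = 0 := Iff.rfl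

/-- `e` is in the closure of `G` (in the generic rigidity matroid, when `p` is generic) -/
def Cl (p : V → Fin k → ℝ) (G : Finset (Sym2 V)) (e : Sym2 V) : Prop :=
  ∀ X ∈ Mot p ∅ G, ell p X e = 0

/-- `Q` is a clique of the closure of `G` -/
def Clq (p : V → Fin k → ℝ) (G : Finset (Sym2 V)) (Q : Finset V) : Prop :=
  ∀ i ∈ Q, ∀ j ∈ Q, Cl p G s(i, j)

lemma Mot_mono (p : V → Fin k → ℝ) {B B' : Finset V} {G G' : Finset (Sym2 V)} (hB : B ⊆ B')
    (hG : G ⊆ G') : Mot p B' G' ≤ Mot p B G :=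
  fun _ hX => ⟨fun i hi => hX.1 i (hB hi), fun e he => hX.2 e (hG he)⟩

lemma Cl_mono {p : V → Fin k → ℝ} {G G' : Finset (Sym2 V)} {e : Sym2 V} (hG : G ⊆ G')
    (h : Cl p G e) : Cl p G' e :=
  fun _ hX => h _ (Mot_mono p (subset_refl _) hG hX)

lemma Cl_of_mem {p : V → Fin k → ℝ} {G : Finset (Sym2 V)} {e : Sym2 V} (h : e ∈ G) : Cl p G e :=
  fun X hX => hX.2 e h

/-- the closure is idempotent -/
lemma Cl_trans {p : V → Fin k → ℝ} {G H : Finset (Sym2 V)} {e : Sym2 V} (h : ∀ f ∈ H, Cl p G f)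
    (he : Cl p H e) : Cl p G e :=
  fun X hX => he X ⟨hX.1, fun f hf => h f hf X hX⟩

lemma Clq_mono {p : V → Fin k → ℝ} {G G' : Finset (Sym2 V)} {Q Q' : Finset V} (hG : G ⊆ G')
    (hQ : Q' ⊆ Q) (h : Clq p G Q) : Clq p G' Q' :=
  fun i hi j hj => Cl_mono hG (h i (hQ hi) j (hQ hj))

lemma Clq_empty (p : V → Fin k → ℝ) (G : Finset (Sym2 V)) : Clq p G ∅ :=
  fun i hi => absurd hi (Finset.notMem_empty i)

/-- the vertices at which every motion vanishing on `Q` vanishes -/
def fr (p : V → Fin k → ℝ) (Q : Finset V) (G : Finset (Sym2 V)) : Finset V :=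
  univ.filter (fun z => ∀ X ∈ Mot p Q G, X z = 0)

lemma mem_fr (p : V → Fin k → ℝ) (Q : Finset V) (G : Finset (Sym2 V)) (z : V) :
    z ∈ fr p Q G ↔ ∀ X ∈ Mot p Q G, X z = 0 := by simp [fr]

/-- edges of `G` that meet `X` -/
def inc (G : Finset (Sym2 V)) (X : Finset V) : Finset (Sym2 V) :=
  G.filter (fun e => ∃ i ∈ X, i ∈ e)

lemma mem_inc (G : Finset (Sym2 V)) (X : Finset V) (e : Sym2 V) :
    e ∈ inc G X ↔ e ∈ G ∧ ∃ i ∈ X, i ∈ e := by simp [inc]

/-- edges of `G` inside `S` -/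
def sub (G : Finset (Sym2 V)) (S : Finset V) : Finset (Sym2 V) :=
  G.filter (fun e => ∀ i ∈ e, i ∈ S)

lemma mem_sub (G : Finset (Sym2 V)) (S : Finset V) (e : Sym2 V) :
    e ∈ sub G S ↔ e ∈ G ∧ ∀ i ∈ e, i ∈ S := by simp [sub]

/-- `G` without the edges at `x` -/
def del (G : Finset (Sym2 V)) (x : V) : Finset (Sym2 V) := G.filter (fun e => x ∉ e)

lemma mem_del (G : Finset (Sym2 V)) (x : V) (e : Sym2 V) : e ∈ del G x ↔ e ∈ G ∧ x ∉ e := by
  simp [del]

/-- neighbours of `x` -/
def nbr (G : Finset (Sym2 V)) (x : V) : Finset V := univ.filter (fun y => y ≠ x ∧ s(x, y) ∈ G)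

lemma mem_nbr (G : Finset (Sym2 V)) (x y : V) : y ∈ nbr G x ↔ y ≠ x ∧ s(x, y) ∈ G := by
  simp [nbr]

/-- the star with centre `x` and leaves `U` -/
def star (x : V) (U : Finset V) : Finset (Sym2 V) := U.image (fun u => s(x, u))

lemma mem_star (x : V) (U : Finset V) (e : Sym2 V) : e ∈ star x U ↔ ∃ u ∈ U, s(x, u) = e := by
  simp [star]

/-- the redundant edges of `G` -/
def Red (p : V → Fin k → ℝ) (G : Finset (Sym2 V)) : Finset (Sym2 V) :=
  G.filter (fun e => Cl p (G.erase e) e)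

lemma mem_Red (p : V → Fin k → ℝ) (G : Finset (Sym2 V)) (e : Sym2 V) :
    e ∈ Red p G ↔ e ∈ G ∧ Cl p (G.erase e) e := by simp [Red]

/-- the vertices touched by `G` -/
def vts (G : Finset (Sym2 V)) : Finset V := univ.filter (fun v => ∃ e ∈ G, v ∈ e)

lemma mem_vts (G : Finset (Sym2 V)) (v : V) : v ∈ vts G ↔ ∃ e ∈ G, v ∈ e := by simp [vts]

/-- the functionals `ell p · e` (`e ∈ E`) and the coordinate functionals `X ↦ X v c` (`(v,c) ∈ C`)
are linearly independent on the space of configurations vanishing on `B` -/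
def Ind (p : V → Fin k → ℝ) (B : Finset V) (E : Finset (Sym2 V)) (C : Finset (V × Fin k)) : Prop :=
  ∀ (ω : Sym2 V → ℝ) (θ : V × Fin k → ℝ),
    (∀ X : V → Fin k → ℝ, (∀ i ∈ B, X i = 0) →
      ∑ e ∈ E, ω e * ell p X e + ∑ x ∈ C, θ x * X x.1 x.2 = 0) →
    (∀ e ∈ E, ω e = 0) ∧ ∀ x ∈ C, θ x = 0

/-- the sets of at most `s` vertices span at most `1.1` times as many edges -/
def Spr (s : ℕ) (G : Finset (Sym2 V)) : Prop :=
  ∀ S : Finset V, S.card ≤ s → 10 * (sub G S).card ≤ 11 * S.card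

/-- the values of the elements of `M` at the vertices of `U` are independent of each other -/
def Dec (M : Submodule ℝ (V → Fin k → ℝ)) (U : Finset V) : Prop :=
  ∀ Z : V → (V → Fin k → ℝ), (∀ u ∈ U, Z u ∈ M) → ∃ X ∈ M, ∀ u ∈ U, X u = Z u u

/-- no pair of `U` with a free end is in the closure -/
def GenC (p : V → Fin k → ℝ) (G : Finset (Sym2 V)) (Q U : Finset V) : Prop :=
  ∀ u ∈ U, ∀ v ∈ U, u ≠ v → (∃ X ∈ Mot p Q G, X u ≠ 0) → ¬ Cl p G s(u, v)

/-- the set `U` is in good position for `G` -/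
def GoodAt (p : V → Fin k → ℝ) (g : ℕ) (G : Finset (Sym2 V)) (U : Finset V) : Prop :=
  ∀ Q : Finset V, g ≤ Q.card → Clq p G Q → Dec (Mot p Q G) U ∧ GenC p G Q U

/-- uniqueness of the giant clique -/
def Uni (p : V → Fin k → ℝ) (g : ℕ) (G : Finset (Sym2 V)) : Prop :=
  ∀ Q R : Finset V, g ≤ Q.card → g ≤ R.card → Clq p G Q → Clq p G R → Clq p G (Q ∪ R)

/-- the size of the largest clique of the closure -/
def mcl (p : V → Fin k → ℝ) (G : Finset (Sym2 V)) : ℕ :=
  (univ.filter (fun Q : Finset V => Clq p G Q)).sup card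

lemma le_mcl {p : V → Fin k → ℝ} {G : Finset (Sym2 V)} {Q : Finset V} (h : Clq p G Q) :
    Q.card ≤ mcl p G :=
  Finset.le_sup (f := card) (mem_filter.2 ⟨mem_univ _, h⟩)

lemma exists_mcl (p : V → Fin k → ℝ) (G : Finset (Sym2 V)) :
    ∃ Q : Finset V, Clq p G Q ∧ Q.card = mcl p G := by
  obtain ⟨Q, hQ, h⟩ := Finset.exists_mem_eq_sup (univ.filter (fun Q : Finset V => Clq p G Q))
    ⟨∅, mem_filter.2 ⟨mem_univ _, Clq_empty p G⟩⟩ card
  exact ⟨Q, (mem_filter.1 hQ).2, h.symm⟩

/-- the density of the closure of `G` -/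
def clc (p : V → Fin k → ℝ) (G : Finset (Sym2 V)) : ℝ :=
  (((pairs V).filter (fun e => Cl p G e)).card : ℝ) / (pairs V).card

/-- robustness: deleting the edges at any vertex makes the largest clique smaller by at most `t` -/
def Rob (p : V → Fin k → ℝ) (t : ℕ) (G : Finset (Sym2 V)) : Prop :=
  ∀ x : V, mcl p G ≤ mcl p (del G x) + t

/-- the values of `M` at `v` -/
def Uat (M : Submodule ℝ (V → Fin k → ℝ)) (v : V) : Submodule ℝ (Fin k → ℝ) :=
  M.map (LinearMap.proj v)

/-- the part of `U` on which the functional `a` is not zero on `M` -/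
def supp (M : Submodule ℝ (V → Fin k → ℝ)) (U : Finset V) (a : V → Fin k → ℝ) : Finset V :=
  U.filter (fun u => ∃ X ∈ M, dot (a u) (X u) ≠ 0)

/-- `U` carries a nontrivial linear relation, of excess dimension at most `s` -/
def Bad (p : V → Fin k → ℝ) (g s : ℕ) (G : Finset (Sym2 V)) (U : Finset V) : Prop :=
  ∃ Q : Finset V, g ≤ Q.card ∧ Clq p G Q ∧ ∃ a : V → Fin k → ℝ,
    (∀ X ∈ Mot p Q G, ∑ u ∈ U, dot (a u) (X u) = 0) ∧
    (supp (Mot p Q G) U a).Nonempty ∧
    ∑ u ∈ supp (Mot p Q G) U a, (Module.finrank ℝ (Uat (Mot p Q G) u) - 1) ≤ s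

/-- a pair `u v` of `U` with `u` free which is in the closure of `G` -/
def Cnf (p : V → Fin k → ℝ) (g : ℕ) (G : Finset (Sym2 V)) (u v : V) : Prop :=
  u ≠ v ∧ Cl p G s(u, v) ∧
    ∃ Q : Finset V, g ≤ Q.card ∧ Clq p G Q ∧ ∃ X ∈ Mot p Q G, X u ≠ 0

/-- a graph satisfying all the properties of a typical graph -/
structure GG (p : V → Fin k → ℝ) (G : Finset (Sym2 V)) (s g t : ℕ) : Prop where
  sub : G ⊆ pairs V
  spr : Spr s G
  uni : Uni p g G
  big : 2 * g ≤ mcl p G
  rob : Rob p t G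
  few : (univ.filter (fun x => ¬ GoodAt p g (del G x) (nbr G x))).card ≤ t
  n2 : t + k + 2 ≤ g
  n3 : (k + 2) * (t + 1) + 2 ≤ s
  n4 : (2 * k + 3) * (t + 1) ≤ Fintype.card V

/-- `Q` is a largest clique of the closure of `G` -/
def TopQ (p : V → Fin k → ℝ) (G : Finset (Sym2 V)) (Q : Finset V) : Prop :=
  Clq p G Q ∧ Q.card = mcl p G

/-! ### global rigidity -/

/-- pairs whose length is determined by the lengths of `R`, in every generic configuration -/
def Glk (k : ℕ) (R : Finset (Sym2 V)) (e : Sym2 V) : Prop :=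
  ∀ q : V → Fin k → ℝ, Gnr q → ∀ q' : V → Fin k → ℝ,
    (∀ f ∈ R, len q' f = len q f) → len q' e = len q e

/-- cliques of `Glk` -/
def GLq (k : ℕ) (R : Finset (Sym2 V)) (A : Finset V) : Prop :=
  ∀ i ∈ A, ∀ j ∈ A, Glk k R s(i, j)

/-- uniqueness of the giant clique of `Glk` -/
def UniG (k g : ℕ) (R : Finset (Sym2 V)) : Prop :=
  ∀ A B : Finset V, g ≤ A.card → g ≤ B.card → GLq k R A → GLq k R B → GLq k R (A ∪ B)

end fintypeV

/-! ### random subsets -/

section random
variable {α : Type}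

/-- weight of `G ⊆ D` when every element of `D` is chosen with probability `π` -/
def wt (π : ℝ) (D G : Finset α) : ℝ := π ^ G.card * (1 - π) ^ (D.card - G.card)

/-- expectation -/
def Ex (π : ℝ) (D : Finset α) (Ψ : Finset α → ℝ) : ℝ := ∑ G ∈ D.powerset, wt π D G * Ψ G

/-- probability -/
def Pr (π : ℝ) (D : Finset α) (A : Finset α → Prop) : ℝ := Ex π D (fun G => if A G then 1 else 0)

/-- the union of `G` and the values of `f` -/
def plus {J : ℕ} (G : Finset α) (f : Fin J → α) : Finset α := G ∪ univ.image f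

/-- all sequences of length `J` in `D` -/
def seqs (J : ℕ) (D : Finset α) : Finset (Fin J → α) := Fintype.piFinset (fun _ => D)

end random

/-- an event holds with probability tending to one for `G(n, c/n)`, uniformly in the generic
configuration `p` -/
def Whp (c : ℝ) (k : ℕ)
    (A : (V : Type) → [Fintype V] → (V → Fin k → ℝ) → Finset (Sym2 V) → Prop) : Prop :=
  ∀ ε : ℝ, 0 < ε → ∃ n0 : ℕ, ∀ (V : Type) [Fintype V] (p : V → Fin k → ℝ), Gnr p →
    n0 ≤ Fintype.card V →
      Pr (c / Fintype.card V) (pairs V) (fun G => ¬ A V p G) ≤ ε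

end

end Pool.Agent.GRR
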