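import Pool.Agent.GRR.Stmts

/-! Module EXB: basics of Ex and Pr -/

set_option autoImplicit false

open Finset
open scoped Classical

namespace Pool.Agent.GRR

namespace EXB_

variable {α : Type}

lemma wt_nonneg {π : ℝ} (h0 : 0 ≤ π) (h1 : π ≤ 1) (D G : Finset α) : 0 ≤ wt π D G := by
  unfold wt
  have : 0 ≤ 1 - π := by linarith
  positivity

lemma Ex_one (π : ℝ) (D : Finset α) : Ex π D (fun _ => 1) = 1 := by
  unfold Ex wt
  simp only [mul_one]
  rw [Finset.sum_pow_mul_eq_add_pow]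
  simp

lemma Ex_mono {π : ℝ} {D : Finset α} (h0 : 0 ≤ π) (h1 : π ≤ 1) {Ψ Φ : Finset α → ℝ}
    (h : ∀ G ⊆ D, Ψ G ≤ Φ G) : Ex π D Ψ ≤ Ex π D Φ := by
  unfold Ex
  apply Finset.sum_le_sum
  intro G hG
  exact mul_le_mul_of_nonneg_left (h G (Finset.mem_powerset.1 hG)) (wt_nonneg h0 h1 D G)

lemma Ex_sum (π : ℝ) (D : Finset α) {ι : Type} (S : Finset ι) (Ψ : ι → Finset α → ℝ) :
    Ex π D (fun G => ∑ i ∈ S, Ψ i G) = ∑ i ∈ S, Ex π D (Ψ i) := by
  unfold Ex
  rw [Finset.sum_comm]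
  apply Finset.sum_congr rfl
  intro G _
  rw [Finset.mul_sum]

lemma Ex_mul (π : ℝ) (D : Finset α) (a : ℝ) (Ψ : Finset α → ℝ) :
    Ex π D (fun G => a * Ψ G) = a * Ex π D Ψ := by
  unfold Ex
  rw [Finset.mul_sum]
  apply Finset.sum_congr rfl
  intro G _
  ring

lemma Ex_add (π : ℝ) (D : Finset α) (Ψ Φ : Finset α → ℝ) :
    Ex π D (fun G => Ψ G + Φ G) = Ex π D Ψ + Ex π D Φ := by
  unfold Ex
  rw [← Finset.sum_add_distrib]
  apply Finset.sum_congr rfl
  intro G _
  ring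

lemma ind_nonneg (P : Prop) : (0 : ℝ) ≤ if P then 1 else 0 := by
  split_ifs
  · exact zero_le_one
  · exact le_rfl

lemma ind_le_one (P : Prop) : (if P then (1 : ℝ) else 0) ≤ 1 := by
  split_ifs
  · exact le_rfl
  · exact zero_le_one

lemma Ex_zero (π : ℝ) (D : Finset α) : Ex π D (fun _ => 0) = 0 := by
  unfold Ex
  simp

lemma cs (π : ℝ) (D : Finset α) (h0 : 0 ≤ π) (h1 : π ≤ 1) (Ψ Φ : Finset α → ℝ) :
    Ex π D (fun G => Ψ G * Φ G) ^ 2 ≤ Ex π D (fun G => Ψ G ^ 2) * Ex π D (fun G => Φ G ^ 2) := by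
  have h := Finset.sum_mul_sq_le_sq_mul_sq D.powerset
    (fun G => Real.sqrt (wt π D G) * Ψ G) (fun G => Real.sqrt (wt π D G) * Φ G)
  have e1 : ∑ G ∈ D.powerset, Real.sqrt (wt π D G) * Ψ G * (Real.sqrt (wt π D G) * Φ G) =
      Ex π D (fun G => Ψ G * Φ G) := by
    unfold Ex
    apply Finset.sum_congr rfl
    intro G _
    have := Real.mul_self_sqrt (wt_nonneg h0 h1 D G)
    linear_combination (Ψ G * Φ G) * this
  have e2 : ∀ Θ : Finset α → ℝ, ∑ G ∈ D.powerset, (Real.sqrt (wt π D G) * Θ G) ^ 2 =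
      Ex π D (fun G => Θ G ^ 2) := by
    intro Θ
    unfold Ex
    apply Finset.sum_congr rfl
    intro G _
    rw [mul_pow, Real.sq_sqrt (wt_nonneg h0 h1 D G)]
  rw [e1, e2, e2] at h
  exact h

end EXB_

open EXB_

theorem exb_proof : Stmt_EXB := by
  intro α π D h0 h1
  have pr_mono : ∀ A B : Finset α → Prop, (∀ G ⊆ D, A G → B G) → Pr π D A ≤ Pr π D B := by
    intro A B h
    unfold Pr
    apply Ex_mono h0 h1
    intro G hG
    by_cases hA : A G
    · rw [if_pos hA, if_pos (h G hG hA)]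
    · rw [if_neg hA]
      exact ind_nonneg _
  refine ⟨Ex_one π D, fun Ψ Φ h => Ex_mono h0 h1 h, pr_mono, ?_, ?_, ?_, ?_, ?_, ?_, ?_⟩
  · intro A B C h
    unfold Pr
    rw [← Ex_add]
    apply Ex_mono h0 h1
    intro G hG
    by_cases hA : A G
    · rw [if_pos hA]
      rcases h G hG hA with hB | hC
      · rw [if_pos hB]
        have := ind_nonneg (C G)
        linarith
      · rw [if_pos hC]
        have := ind_nonneg (B G)
        linarith
    · rw [if_neg hA]
      exact add_nonneg (ind_nonneg _) (ind_nonneg _)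
  · intro A
    constructor
    · have := Ex_mono (D := D) h0 h1 (Ψ := fun _ => (0 : ℝ)) (Φ := fun G => if A G then 1 else 0)
        (fun G _ => ind_nonneg _)
      rw [Ex_zero] at this
      exact this
    · have := Ex_mono (D := D) h0 h1 (Φ := fun _ => (1 : ℝ)) (Ψ := fun G => if A G then 1 else 0)
        (fun G _ => ind_le_one _)
      rw [Ex_one] at this
      exact this
  · intro Ψ a ha h
    have e : Ex π D Ψ / a = Ex π D (fun G => a⁻¹ * Ψ G) := by
      rw [Ex_mul, div_eq_inv_mul]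
    rw [e]
    unfold Pr
    apply Ex_mono h0 h1
    intro G hG
    by_cases hA : a ≤ Ψ G
    · rw [if_pos hA]
      have : a⁻¹ * a ≤ a⁻¹ * Ψ G := mul_le_mul_of_nonneg_left hA (inv_nonneg.2 ha.le)
      rwa [inv_mul_cancel₀ ha.ne'] at this
    · rw [if_neg hA]
      exact mul_nonneg (inv_nonneg.2 ha.le) (h G hG)
  · intro ι S A B h
    unfold Pr
    rw [← Ex_sum]
    apply Ex_mono h0 h1
    intro G hG
    by_cases hB : B G
    · rw [if_pos hB]
      obtain ⟨i, hi, hA⟩ := h G hG hB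
      have := Finset.single_le_sum (f := fun i => if A i G then (1 : ℝ) else 0)
        (fun j _ => ind_nonneg (A j G)) hi
      simp only [if_pos hA] at this
      exact this
    · rw [if_neg hB]
      exact Finset.sum_nonneg (fun i _ => ind_nonneg _)
  · intro ι S Ψ
    exact Ex_sum π D S Ψ
  · intro a Ψ
    exact Ex_mul π D a Ψ
  · intro Ψ Φ _ _
    exact cs π D h0 h1 Ψ Φ

end Pool.Agent.GRR
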