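import Pool.Agent.GRR.Stmts

set_option autoImplicit false

open Finset
open scoped Classical

namespace Pool.Agent.GRR

theorem ind_all (h1 : Stmt_FRE) (h2 : Stmt_STP) (m : ℕ) : SRIn m ∧ SINn m := by
  induction m using Nat.strong_induction_on with
  | _ m ih =>
    have a : SRIn m := h2 m (fun m' hm' => ih m' hm')
    exact ⟨a, h1 m a⟩

theorem sra_proof (h1 : Stmt_FRE) (h2 : Stmt_STP) : Stmt_SRA := fun m => (ind_all h1 h2 m).1

theorem sia_proof (h1 : Stmt_FRE) (h2 : Stmt_STP) : Stmt_SIA := fun m => (ind_all h1 h2 m).2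

theorem bdx_proof (h1 : Stmt_BDZ) (h2 : Stmt_BDS) : Stmt_BDX := by
  intro s
  induction s with
  | zero => exact h1
  | succ s ih => exact h2 s ih

end Pool.Agent.GRR
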