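import Pool.Agent.GRR.Stmts

/-!
# GRR: module PIP (small sets have excess)
-/

set_option autoImplicit false

open Finset
open scoped Classical

namespace Pool.Agent.GRR

namespace PIP_

lemma sub_vts {V : Type} [Fintype V] (R : Finset (Sym2 V)) : sub R (vts R) = R := by
  ext e
  rw [mem_sub]
  constructor
  · exact fun h => h.1
  · intro h
    refine ⟨h, fun i hi => ?_⟩
    rw [mem_vts]
    exact ⟨e, h, hi⟩

end PIP_

theorem pip_proof (h1 : Stmt_TIG) : Stmt_PIP := by
  intro V _ k hk p hp R hR hC hred X hX hXn hcard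
  have hs := PIP_.sub_vts R
  have hC' : Clq p (sub R (vts R)) (vts R) := by rw [hs]; exact hC
  have h := h1 V k (by omega) p hp R (vts R) X hR hX hC' hcard
  rw [hs] at h
  obtain ⟨hle, heq⟩ := h
  by_contra hcon
  have hce : (inc R X).card = k * X.card := by omega
  obtain ⟨-, hno⟩ := heq hce
  have hpos : 0 < (inc R X).card := by
    rw [hce]
    exact Nat.mul_pos (by omega) (Finset.card_pos.2 hXn)
  obtain ⟨e, he⟩ := Finset.card_pos.1 hpos
  exact hno e he (hred e ((mem_inc R X e).1 he).1)

end Pool.Agent.GRR
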