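import Mathlib

/-!
# MP_9e2625_co: the definitions of the problem

Graphs are `SimpleGraph V` with `V` finite; a `k`-dimensional framework of a graph on `V` is a map
`p : V → EuclideanSpace ℝ (Fin k)`.
-/

set_option autoImplicit false

open Filter Topology
open scoped Classical

namespace Pool.Agent.GRR.Problem

noncomputable section

/-- the `k |S|` coordinates of `p` on `S` are algebraically independent over `ℚ` -/
def Generic {V : Type} {k : ℕ} (S : Set V) (p : V → EuclideanSpace ℝ (Fin k)) : Prop :=
  AlgebraicIndependent ℚ (fun x : {v : V // v ∈ S} × Fin k => p x.1.1 x.2)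

/-- `ω` is an equilibrium stress of the framework `(G, p)` (stresses are symmetric functions of
two vertices, zero outside the edges of `G`) -/
def IsStress {V : Type} [Fintype V] {k : ℕ} (G : SimpleGraph V) (p : V → EuclideanSpace ℝ (Fin k))
    (ω : V → V → ℝ) : Prop :=
  (∀ i j, ω i j = ω j i) ∧ (∀ i j, ¬ G.Adj i j → ω i j = 0) ∧
    ∀ i, ∑ j, ω i j • (p i - p j) = 0

/-- the pair `ij` is a `k`-redundant edge of `G`: some generic framework has an equilibrium stress
which is not zero on `ij` -/
def Redundant {V : Type} [Fintype V] (k : ℕ) (G : SimpleGraph V) (i j : V) : Prop :=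
  G.Adj i j ∧ ∃ p : V → EuclideanSpace ℝ (Fin k), Generic Set.univ p ∧
    ∃ ω : V → V → ℝ, IsStress G p ω ∧ ω i j ≠ 0

/-- the `k`-redundant subgraph (its vertices are those of its support, the endpoints of the
redundant edges) -/
def redundantSubgraph {V : Type} [Fintype V] (k : ℕ) (G : SimpleGraph V) : SimpleGraph V where
  Adj i j := Redundant k G i j
  symm := ⟨by
    rintro i j ⟨h, p, hp, ω, hω, h0⟩
    exact ⟨h.symm, p, hp, ω, hω, by rw [hω.1 j i]; exact h0⟩⟩
  loopless := ⟨fun i h => G.loopless.irrefl i h.1⟩

/-- generic `k`-dimensional frameworks of `G` carry only the zero stress -/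
def GenericallyIndependent {V : Type} [Fintype V] (k : ℕ) (G : SimpleGraph V) : Prop :=
  ∀ p : V → EuclideanSpace ℝ (Fin k), Generic Set.univ p → ∀ ω : V → V → ℝ, IsStress G p ω →
    ω = 0

/-- the generic completion rank of `G` is `d + 1`: `d` is the least dimension in which `G` is
generically independent -/
def GCREq {V : Type} [Fintype V] (G : SimpleGraph V) (d : ℕ) : Prop :=
  GenericallyIndependent d G ∧ ∀ d' < d, ¬ GenericallyIndependent d' G

/-- for every generic `k`-dimensional framework `(H, q)`, every framework `(H, q')` with the same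
edge lengths is congruent to it (the vertices of `H` are those of its support) -/
def GenericallyGloballyRigid {V : Type} (k : ℕ) (H : SimpleGraph V) : Prop :=
  ∀ q : V → EuclideanSpace ℝ (Fin k), Generic H.support q →
  ∀ q' : V → EuclideanSpace ℝ (Fin k), (∀ i j, H.Adj i j → dist (q' i) (q' j) = dist (q i) (q j)) →
    ∀ i ∈ H.support, ∀ j ∈ H.support, dist (q' i) (q' j) = dist (q i) (q j)

/-- the probability that `G(n, π)` has the property `A` -/
def prob (n : ℕ) (π : ℝ) (A : SimpleGraph (Fin n) → Prop) : ℝ :=
  ∑ G : SimpleGraph (Fin n),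
    if A G then π ^ G.edgeFinset.card * (1 - π) ^ (n.choose 2 - G.edgeFinset.card) else 0

/-- the property of the problem: if the generic completion rank of `G` is `d + 1 ≥ 4` then the
`(d - 1)`-redundant subgraph of `G` is generically globally `(d - 1)`-rigid -/
def Good {V : Type} [Fintype V] (G : SimpleGraph V) : Prop :=
  ∀ d : ℕ, GCREq G d → 4 ≤ d + 1 →
    GenericallyGloballyRigid (d - 1) (redundantSubgraph (d - 1) G)

end

end Pool.Agent.GRR.Problem
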