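import Pool.Agent.GRR.Stmts

/-!
# GRR : ROB, robustness
-/

set_option autoImplicit false

open Finset
open scoped Classical

namespace Pool.Agent.GRR

namespace ROB_

lemma pow8 (t : ℕ) : ((t : ℝ) + 1) ^ 8 ≤ 256 ^ t := by
  have h : ((t : ℝ) + 1) ≤ 2 ^ t := by
    have := Nat.lt_two_pow_self (n := t)
    have h2 : t + 1 ≤ 2 ^ t := this
    exact_mod_cast h2
  calc ((t : ℝ) + 1) ^ 8 ≤ (2 ^ t) ^ 8 := by gcongr
    _ = (2 ^ 8) ^ t := by rw [← pow_mul, ← pow_mul, mul_comm]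
    _ = 256 ^ t := by norm_num

lemma lim1 (c ε : ℝ) (hc : 0 ≤ c) (hε : 0 < ε) :
    ∃ T : ℕ, ∀ t : ℕ, T ≤ t → ((t : ℝ) + 1) ^ 8 * (c ^ t / t.factorial) ≤ ε := by
  have h := FloorSemiring.tendsto_pow_div_factorial_atTop (256 * c)
  obtain ⟨T, hT⟩ := Metric.tendsto_atTop.1 h ε hε
  refine ⟨T, fun t ht => ?_⟩
  have h1 := hT t ht
  rw [Real.dist_eq, sub_zero] at h1
  have h2 := (le_abs_self _).trans h1.le
  calc ((t : ℝ) + 1) ^ 8 * (c ^ t / t.factorial) ≤ 256 ^ t * (c ^ t / t.factorial) := by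
        gcongr
        exact pow8 t
    _ = (256 * c) ^ t / t.factorial := by rw [mul_pow]; ring
    _ ≤ ε := h2

lemma lim2 (a ε : ℝ) (ha0 : 0 ≤ a) (ha1 : a < 1) (hε : 0 < ε) :
    ∃ T : ℕ, ∀ t : ℕ, T ≤ t → ((t : ℝ) + 1) ^ 8 * (((t : ℝ) ^ 2 + 1) ^ t * a ^ (t ^ 2 - t)) ≤ ε := by
  have h1 := tendsto_pow_const_mul_const_pow_of_abs_lt_one 2 (r := a)
    (by rw [abs_of_nonneg ha0]; exact ha1)
  have h2 := tendsto_pow_atTop_nhds_zero_of_lt_one ha0 ha1
  have h3 : Filter.Tendsto (fun n : ℕ => 512 * ((n : ℝ) ^ 2 * a ^ n) + 768 * a ^ n) Filter.atTop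
      (nhds (512 * 0 + 768 * 0)) := (h1.const_mul 512).add (h2.const_mul 768)
  rw [mul_zero, mul_zero, add_zero] at h3
  obtain ⟨T1, hT1⟩ := Metric.tendsto_atTop.1 h3 (1 / 2) (by norm_num)
  have h4 := tendsto_pow_atTop_nhds_zero_of_lt_one (r := (1 / 2 : ℝ)) (by norm_num) (by norm_num)
  obtain ⟨T2, hT2⟩ := Metric.tendsto_atTop.1 h4 ε hε
  refine ⟨max (T1 + 1) T2, fun t ht => ?_⟩
  have ht1 : T1 + 1 ≤ t := le_trans (le_max_left _ _) ht
  have ht2 : T2 ≤ t := le_trans (le_max_right _ _) ht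
  obtain ⟨u, rfl⟩ : ∃ u, t = u + 1 := ⟨t - 1, by omega⟩
  have h5 := hT1 u (by omega)
  rw [Real.dist_eq, sub_zero] at h5
  have h6 := (le_abs_self _).trans h5.le
  have h7 := hT2 (u + 1) ht2
  rw [Real.dist_eq, sub_zero] at h7
  have h8 := (le_abs_self _).trans h7.le
  have e1 : (u + 1) ^ 2 - (u + 1) = u * (u + 1) := by
    have : (u + 1) ^ 2 = u * (u + 1) + (u + 1) := by ring
    omega
  have hau : 0 ≤ a ^ u := pow_nonneg ha0 u
  calc (((u + 1 : ℕ) : ℝ) + 1) ^ 8 * ((((u + 1 : ℕ) : ℝ) ^ 2 + 1) ^ (u + 1) *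
        a ^ ((u + 1) ^ 2 - (u + 1)))
      ≤ 256 ^ (u + 1) * ((((u + 1 : ℕ) : ℝ) ^ 2 + 1) ^ (u + 1) * a ^ (u * (u + 1))) := by
        rw [e1]
        gcongr
        exact pow8 (u + 1)
    _ = (256 * ((((u + 1 : ℕ) : ℝ) ^ 2 + 1) * a ^ u)) ^ (u + 1) := by
        rw [mul_pow, mul_pow, pow_mul]
    _ ≤ (1 / 2) ^ (u + 1) := by
        apply pow_le_pow_left₀ (by positivity)
        refine le_trans ?_ h6
        push_cast
        have : ((u : ℝ) + 1) ^ 2 + 1 ≤ 2 * (u : ℝ) ^ 2 + 3 := by nlinarith [sq_nonneg ((u : ℝ) - 1)]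
        nlinarith [mul_le_mul_of_nonneg_right this hau]
    _ ≤ ε := h8

section expectation
variable {α : Type} (π : ℝ) (D : Finset α)

lemma Ex_add (Ψ Φ : Finset α → ℝ) :
    Ex π D (fun G => Ψ G + Φ G) = Ex π D Ψ + Ex π D Φ := by
  unfold Ex
  rw [← Finset.sum_add_distrib]
  exact Finset.sum_congr rfl (fun G _ => by ring)

lemma Ex_mul (a : ℝ) (Ψ : Finset α → ℝ) : Ex π D (fun G => a * Ψ G) = a * Ex π D Ψ := by
  unfold Ex
  rw [Finset.mul_sum]
  exact Finset.sum_congr rfl (fun G _ => by ring)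

lemma Ex_sum {ι : Type} (S : Finset ι) (Ψ : ι → Finset α → ℝ) :
    Ex π D (fun G => ∑ i ∈ S, Ψ i G) = ∑ i ∈ S, Ex π D (Ψ i) := by
  unfold Ex
  rw [Finset.sum_comm]
  exact Finset.sum_congr rfl (fun G _ => by rw [Finset.mul_sum])

end expectation

variable {V : Type} [Fintype V] {k : ℕ}

lemma plus_sup {α : Type} {J : ℕ} (G : Finset α) (f : Fin J → α) : G ⊆ plus G f := by
  intro e he
  simp [plus, he]

lemma mcl_mono (p : V → Fin k → ℝ) {G G' : Finset (Sym2 V)} (h : G ⊆ G') :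
    mcl p G ≤ mcl p G' := by
  obtain ⟨Q, hQ, hc⟩ := exists_mcl p G
  rw [← hc]
  exact le_mcl (Clq_mono h (subset_refl _) hQ)

lemma mcl_le (p : V → Fin k → ℝ) (G : Finset (Sym2 V)) : mcl p G ≤ Fintype.card V := by
  obtain ⟨Q, _, hc⟩ := exists_mcl p G
  rw [← hc]
  exact Finset.card_le_univ Q

lemma pairs_card : ((pairs V).card : ℝ) = (Fintype.card V : ℝ) * ((Fintype.card V : ℝ) - 1) / 2 := by
  have h : (pairs V).card = (Fintype.card V).choose 2 := by
    rw [← Sym2.card_subtype_not_diag, Fintype.card_subtype]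
    rfl
  rw [h, Nat.cast_choose_two]

lemma sum_const_seqs {α : Type} (S : ℕ) (D : Finset α) (a : ℝ) :
    ∑ _f ∈ seqs S D, a = (D.card : ℝ) ^ S * a := by
  rw [Finset.sum_const, nsmul_eq_mul]
  unfold seqs
  rw [Fintype.card_piFinset]
  simp

/-- not robust -/
def NR (p : V → Fin k → ℝ) (t : ℕ) (G : Finset (Sym2 V)) : Prop := ¬ Rob p t G

/-- some degree is at least `r` -/
def BG (r : ℕ) (G : Finset (Sym2 V)) : Prop := ∃ x : V, r ≤ (nbr G x).card

/-- the estimate for one graph -/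
lemma pointwise (p : V → Fin k → ℝ) (δ K : ℝ) (hδ : 0 < δ) (hV : 0 < Fintype.card V)
    (G : Finset (Sym2 V)) (r S : ℕ) (hK : 0 ≤ K)
    (hrod : ∀ x : V, (nbr G x).card ≤ r →
      (((seqs S (pairs V)).filter (fun f =>
        (mcl p (del (plus G f) x) : ℝ) + δ / 2 * Fintype.card V < mcl p G)).card : ℝ) ≤
      K * ((pairs V).card : ℝ) ^ S) :
    ∑ f ∈ seqs S (pairs V), (if NR p ⌊δ * Fintype.card V⌋₊ (plus G f) then (1 : ℝ) else 0) ≤
      2 / δ * (∑ f ∈ seqs S (pairs V), (mcl p (plus G f) : ℝ) / Fintype.card V) +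
      (-(2 / δ) * ((pairs V).card : ℝ) ^ S * ((mcl p G : ℝ) / Fintype.card V) +
      (((pairs V).card : ℝ) ^ S * (if BG r G then (1 : ℝ) else 0) +
      ((pairs V).card : ℝ) ^ S * (Fintype.card V * K) * 1)) := by
  set n : ℝ := (Fintype.card V : ℝ) with hn
  have hn0 : 0 < n := by rw [hn]; exact_mod_cast hV
  set N : ℝ := ((pairs V).card : ℝ) ^ S with hN
  have hN0 : 0 ≤ N := by positivity
  have hdiff : 2 / δ * (∑ f ∈ seqs S (pairs V), (mcl p (plus G f) : ℝ) / n) +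
      -(2 / δ) * N * ((mcl p G : ℝ) / n) =
      ∑ f ∈ seqs S (pairs V), 2 / δ * (((mcl p (plus G f) : ℝ) - mcl p G) / n) := by
    have e1 : ∑ _f ∈ seqs S (pairs V), (2 / δ * ((mcl p G : ℝ) / n)) =
        N * (2 / δ * ((mcl p G : ℝ) / n)) := sum_const_seqs S (pairs V) _
    have e2 : ∑ f ∈ seqs S (pairs V), 2 / δ * (((mcl p (plus G f) : ℝ) - mcl p G) / n) =
        ∑ f ∈ seqs S (pairs V), 2 / δ * ((mcl p (plus G f) : ℝ) / n) -
          ∑ _f ∈ seqs S (pairs V), (2 / δ * ((mcl p G : ℝ) / n)) := by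
      rw [← Finset.sum_sub_distrib]
      exact Finset.sum_congr rfl (fun f _ => by ring)
    rw [e2, e1, Finset.mul_sum]
    ring
  have hterm : ∀ f : Fin S → Sym2 V, 0 ≤ 2 / δ * (((mcl p (plus G f) : ℝ) - mcl p G) / n) := by
    intro f
    have : (mcl p G : ℝ) ≤ mcl p (plus G f) := by exact_mod_cast mcl_mono p (plus_sup G f)
    have h2 : 0 ≤ (mcl p (plus G f) : ℝ) - mcl p G := by linarith
    positivity
  by_cases hB : BG r G
  · rw [if_pos hB]
    have h1 : ∑ f ∈ seqs S (pairs V), (if NR p ⌊δ * n⌋₊ (plus G f) then (1 : ℝ) else 0) ≤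
        ∑ _f ∈ seqs S (pairs V), (1 : ℝ) := by
      refine Finset.sum_le_sum (fun f _ => ?_)
      split_ifs <;> norm_num
    rw [sum_const_seqs] at h1
    have h2 : 0 ≤ ∑ f ∈ seqs S (pairs V), 2 / δ * (((mcl p (plus G f) : ℝ) - mcl p G) / n) :=
      Finset.sum_nonneg (fun f _ => hterm f)
    have h3 : 0 ≤ N * (n * K) := by positivity
    linarith
  · rw [if_neg hB]
    unfold BG at hB
    push Not at hB
    have hpt : ∀ f ∈ seqs S (pairs V),
        (if NR p ⌊δ * n⌋₊ (plus G f) then (1 : ℝ) else 0) ≤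
        2 / δ * (((mcl p (plus G f) : ℝ) - mcl p G) / n) +
        ∑ x : V, (if (mcl p (del (plus G f) x) : ℝ) + δ / 2 * n < mcl p G then (1 : ℝ) else 0) := by
      intro f _
      have hs0 : 0 ≤ ∑ x : V, (if (mcl p (del (plus G f) x) : ℝ) + δ / 2 * n < mcl p G
          then (1 : ℝ) else 0) :=
        Finset.sum_nonneg (fun x _ => by split_ifs <;> norm_num)
      by_cases hR : Rob p ⌊δ * n⌋₊ (plus G f)
      · rw [if_neg (show ¬ NR p ⌊δ * n⌋₊ (plus G f) from not_not.2 hR)]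
        linarith [hterm f]
      · rw [if_pos (show NR p ⌊δ * n⌋₊ (plus G f) from hR)]
        unfold Rob at hR
        push Not at hR
        obtain ⟨x, hx⟩ := hR
        have hx' : (mcl p (del (plus G f) x) : ℝ) + δ * n < mcl p (plus G f) := by
          have h1 : mcl p (del (plus G f) x) + ⌊δ * n⌋₊ + 1 ≤ mcl p (plus G f) := hx
          have h2 : ((mcl p (del (plus G f) x) + ⌊δ * n⌋₊ + 1 : ℕ) : ℝ) ≤ mcl p (plus G f) := by
            exact_mod_cast h1
          push_cast at h2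
          have h3 := Nat.lt_floor_add_one (δ * n)
          linarith
        by_cases hc : δ / 2 * n ≤ (mcl p (plus G f) : ℝ) - mcl p G
        · have h4 : 1 ≤ 2 / δ * (((mcl p (plus G f) : ℝ) - mcl p G) / n) := by
            have h5 : δ / 2 ≤ ((mcl p (plus G f) : ℝ) - mcl p G) / n := by
              rw [le_div_iff₀ hn0]; exact hc
            calc (1 : ℝ) = 2 / δ * (δ / 2) := by field_simp
              _ ≤ _ := by gcongr
          linarith
        · push Not at hc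
          have h4 : (mcl p (del (plus G f) x) : ℝ) + δ / 2 * n < mcl p G := by linarith
          have h5 : (1 : ℝ) ≤ ∑ x : V, (if (mcl p (del (plus G f) x) : ℝ) + δ / 2 * n < mcl p G
              then (1 : ℝ) else 0) := by
            refine le_trans (le_of_eq ?_) (Finset.single_le_sum
              (f := fun x : V => if (mcl p (del (plus G f) x) : ℝ) + δ / 2 * n < mcl p G
                then (1 : ℝ) else 0) (fun y _ => by split_ifs <;> norm_num) (mem_univ x))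
            rw [if_pos h4]
          linarith [hterm f]
    have h1 := Finset.sum_le_sum hpt
    rw [Finset.sum_add_distrib, ← hdiff] at h1
    have h2 : ∑ f ∈ seqs S (pairs V), ∑ x : V,
        (if (mcl p (del (plus G f) x) : ℝ) + δ / 2 * n < mcl p G then (1 : ℝ) else 0) ≤
        N * (n * K) := by
      rw [Finset.sum_comm]
      have h3 : ∀ x ∈ (univ : Finset V), ∑ f ∈ seqs S (pairs V),
          (if (mcl p (del (plus G f) x) : ℝ) + δ / 2 * n < mcl p G then (1 : ℝ) else 0) ≤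
          K * N := by
        intro x _
        have h4 := hrod x (hB x).le
        rw [Finset.card_filter] at h4
        push_cast at h4
        exact h4
      refine (Finset.sum_le_sum h3).trans (le_of_eq ?_)
      rw [Finset.sum_const, Finset.card_univ, nsmul_eq_mul]
      ring
    linarith

end ROB_

open ROB_ in
theorem rob_proof (h1 : Stmt_ROD) (h2 : Stmt_SBJ) (h3 : Stmt_EXB) (h4 : Stmt_DEG) : Stmt_ROB := by
  intro k c δ hc hδ ε hε
  obtain ⟨η, hη0, hη1, n1, hrod⟩ := h1 k (δ / 2) (by positivity)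
  obtain ⟨T1, hT1⟩ := lim1 c (ε / 3) hc.le (by positivity)
  obtain ⟨T2, hT2⟩ := lim2 (1 - η) (ε / 3) (by linarith) (by linarith) (by positivity)
  set C : ℝ := (1 + 2 / δ) * (2 / Real.sqrt c) with hC
  have hsc : 0 < Real.sqrt c := Real.sqrt_pos.2 hc
  have hC0 : 0 < C := by positivity
  obtain ⟨T3, hT3⟩ := exists_nat_ge (C / (ε / 3))
  set T := max (max T1 T2) (T3 + 1) with hT
  refine ⟨max (max n1 (T ^ 8)) (max 2 ⌈c⌉₊), ?_⟩
  intro V _ p hp hn
  have hn1 : n1 ≤ Fintype.card V := le_trans (le_trans (le_max_left _ _) (le_max_left _ _)) hn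
  have hnT : T ^ 8 ≤ Fintype.card V := le_trans (le_trans (le_max_right _ _) (le_max_left _ _)) hn
  have hn2 : 2 ≤ Fintype.card V := le_trans (le_trans (le_max_left _ _) (le_max_right _ _)) hn
  have hnc' : ⌈c⌉₊ ≤ Fintype.card V :=
    le_trans (le_trans (le_max_right _ _) (le_max_right _ _)) hn
  have hnc : c ≤ Fintype.card V := by
    have := Nat.le_ceil c
    have h5 : ((⌈c⌉₊ : ℕ) : ℝ) ≤ Fintype.card V := by exact_mod_cast hnc'
    linarith
  set n := Fintype.card V with hnd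
  -- the eighth root
  set s1 := Nat.sqrt n with hs1
  set s2 := Nat.sqrt s1 with hs2
  set t := Nat.sqrt s2 with ht
  have a1 : s1 * s1 ≤ n := Nat.sqrt_le n
  have a2 : s2 * s2 ≤ s1 := Nat.sqrt_le s1
  have a3 : t * t ≤ s2 := Nat.sqrt_le s2
  have b1 : n < (s1 + 1) * (s1 + 1) := Nat.lt_succ_sqrt n
  have b2 : s1 < (s2 + 1) * (s2 + 1) := Nat.lt_succ_sqrt s1
  have b3 : s2 < (t + 1) * (t + 1) := Nat.lt_succ_sqrt s2
  have ht8 : t ^ 8 ≤ n := by
    calc t ^ 8 = ((t * t) * (t * t)) * ((t * t) * (t * t)) := by ring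
      _ ≤ (s2 * s2) * (s2 * s2) := by gcongr
      _ ≤ s1 * s1 := by gcongr
      _ ≤ n := a1
  have hn8 : n < (t + 1) ^ 8 := by
    have c3 : s2 + 1 ≤ (t + 1) * (t + 1) := b3
    have c2 : s1 + 1 ≤ (s2 + 1) * (s2 + 1) := b2
    calc n < (s1 + 1) * (s1 + 1) := b1
      _ ≤ ((s2 + 1) * (s2 + 1)) * ((s2 + 1) * (s2 + 1)) := by gcongr
      _ ≤ (((t + 1) * (t + 1)) * ((t + 1) * (t + 1))) *
          (((t + 1) * (t + 1)) * ((t + 1) * (t + 1))) := by gcongr
      _ = (t + 1) ^ 8 := by ring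
  have hTt : T ≤ t := by
    by_contra hcon
    push Not at hcon
    have h5 : (t + 1) ^ 8 ≤ T ^ 8 := Nat.pow_le_pow_left hcon 8
    omega
  have hT1t : T1 ≤ t := le_trans (le_trans (le_max_left _ _) (le_max_left _ _)) hTt
  have hT2t : T2 ≤ t := le_trans (le_trans (le_max_right _ _) (le_max_left _ _)) hTt
  have hT3t : T3 + 1 ≤ t := le_trans (le_max_right _ _) hTt
  have htpos : 1 ≤ t := by omega
  have htr : (0 : ℝ) < t := by exact_mod_cast htpos
  have hn8r : (n : ℝ) ≤ ((t : ℝ) + 1) ^ 8 := by exact_mod_cast hn8.le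
  have ht8r : (t : ℝ) ^ 8 ≤ n := by exact_mod_cast ht8
  have hnr : (2 : ℝ) ≤ n := by exact_mod_cast hn2
  have hn0 : (0 : ℝ) < n := by linarith
  set D := pairs V with hD
  set N : ℝ := (D.card : ℝ) with hN
  have hNc : N = (n : ℝ) * ((n : ℝ) - 1) / 2 := pairs_card
  have hN0 : 0 < N := by
    rw [hNc]
    have : 0 < (n : ℝ) - 1 := by linarith
    positivity
  have hDne : D.Nonempty := by
    rw [← Finset.card_pos]
    have : (0 : ℝ) < (D.card : ℝ) := hN0
    exact_mod_cast this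
  set π : ℝ := c / n with hπ
  have hπ0 : 0 < π := by positivity
  have hπ1 : π ≤ 1 := by
    rw [hπ, div_le_one hn0]; exact hnc
  have hpiN : c * (t : ℝ) ^ 8 / 4 ≤ π * N := by
    rw [hπ, hNc]
    have e1 : c / (n : ℝ) * ((n : ℝ) * ((n : ℝ) - 1) / 2) = c * ((n : ℝ) - 1) / 2 := by
      field_simp
    rw [e1]
    nlinarith
  set q : ℝ := ((t ^ 2 : ℕ) : ℝ) / Real.sqrt (π * N) with hq
  have hq1 : q ≤ (2 / Real.sqrt c) / t := by
    have e1 : Real.sqrt c / 2 * (t : ℝ) ^ 4 ≤ Real.sqrt (π * N) := by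
      apply Real.le_sqrt_of_sq_le
      have : (Real.sqrt c / 2 * (t : ℝ) ^ 4) ^ 2 = Real.sqrt c ^ 2 * (t : ℝ) ^ 8 / 4 := by ring
      rw [this, Real.sq_sqrt hc.le]
      exact hpiN
    have e2 : 0 < Real.sqrt c / 2 * (t : ℝ) ^ 4 := by positivity
    rw [hq]
    calc ((t ^ 2 : ℕ) : ℝ) / Real.sqrt (π * N) ≤ ((t ^ 2 : ℕ) : ℝ) / (Real.sqrt c / 2 * (t : ℝ) ^ 4) := by
          gcongr
      _ = (2 / Real.sqrt c) / (t : ℝ) ^ 2 := by
          push_cast
          field_simp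
      _ ≤ (2 / Real.sqrt c) / t := by
          have e3 : (t : ℝ) ≤ (t : ℝ) ^ 2 := by
            have : (1 : ℝ) ≤ t := by exact_mod_cast htpos
            nlinarith
          gcongr
  have hCq : (1 + 2 / δ) * q ≤ ε / 3 := by
    have e1 : (1 + 2 / δ) * q ≤ (1 + 2 / δ) * ((2 / Real.sqrt c) / t) := by gcongr
    have e2 : (1 + 2 / δ) * ((2 / Real.sqrt c) / t) = C / t := by rw [hC]; ring
    have e3 : C / (ε / 3) ≤ t := by
      have : ((T3 + 1 : ℕ) : ℝ) ≤ t := by exact_mod_cast hT3t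
      push_cast at this
      linarith
    rw [e2] at e1
    refine e1.trans ?_
    rw [div_le_iff₀ htr]
    rw [div_le_iff₀ (by positivity)] at e3
    linarith
  have htt : t ≤ t ^ 2 := by nlinarith
  set K : ℝ := ((t : ℝ) ^ 2 + 1) ^ t * (1 - η) ^ (t ^ 2 - t) with hK
  have hη : 0 ≤ 1 - η := by linarith
  have hK0 : 0 ≤ K := by positivity
  have hnK : n * K ≤ ε / 3 := by
    refine le_trans ?_ (hT2 t hT2t)
    exact mul_le_mul_of_nonneg_right hn8r hK0
  set t0 := ⌊δ * n⌋₊ with ht0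
  -- the probability of a large degree
  have hPB : Pr π D (BG t) ≤ ε / 3 := by
    have e1 := (h3 (Sym2 V) π D hπ0.le hπ1).2.2.2.2.2.2.1 V univ
      (fun x G => t ≤ (nbr G x).card) (BG t) (by
        intro G _ hG
        obtain ⟨x, hx⟩ := hG
        exact ⟨x, mem_univ _, hx⟩)
    refine e1.trans ?_
    have e2 : ∀ x ∈ (univ : Finset V), Pr π D (fun G => t ≤ (nbr G x).card) ≤
        c ^ t / t.factorial := fun x _ => (h4 V c hc hnc).2 x t
    refine (Finset.sum_le_sum e2).trans ?_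
    rw [Finset.sum_const, Finset.card_univ, nsmul_eq_mul]
    refine le_trans ?_ (hT1 t hT1t)
    refine mul_le_mul_of_nonneg_right hn8r (by positivity)
  -- the main inequality
  have hmain : ∑ f ∈ seqs (t ^ 2) D, Ex π D (fun G => if NR p t0 (plus G f) then (1 : ℝ) else 0) ≤
      2 / δ * (∑ f ∈ seqs (t ^ 2) D, Ex π D (fun G => (mcl p (plus G f) : ℝ) / n)) +
      (-(2 / δ) * N ^ (t ^ 2) * Ex π D (fun G => (mcl p G : ℝ) / n) +
      (N ^ (t ^ 2) * Pr π D (BG t) + N ^ (t ^ 2) * (n * K) * 1)) := by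
    have e1 := (h3 (Sym2 V) π D hπ0.le hπ1).2.1
      (fun G => ∑ f ∈ seqs (t ^ 2) D, (if NR p t0 (plus G f) then (1 : ℝ) else 0))
      (fun G => 2 / δ * (∑ f ∈ seqs (t ^ 2) D, (mcl p (plus G f) : ℝ) / n) +
      (-(2 / δ) * N ^ (t ^ 2) * ((mcl p G : ℝ) / n) +
      (N ^ (t ^ 2) * (if BG t G then (1 : ℝ) else 0) + N ^ (t ^ 2) * (n * K) * 1))) (by
        intro G hG
        exact pointwise p δ K hδ (by omega) G t (t ^ 2) hK0 (by
          intro x hx
          have e2 := hrod V p hp hn1 G x t (t ^ 2) hG hx htt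
          push_cast at e2
          exact e2))
    rw [Ex_sum, Ex_add, Ex_add, Ex_add, Ex_mul, Ex_mul, Ex_mul, Ex_mul, Ex_sum,
      (h3 (Sym2 V) π D hπ0.le hπ1).1] at e1
    exact e1
  have hs1' := h2 (Sym2 V) π D hπ0 hπ1 hDne (t ^ 2)
    (fun G => if NR p t0 G then (1 : ℝ) else 0)
    (fun G _ => by split_ifs <;> norm_num)
    (fun G _ => by split_ifs <;> norm_num)
  have hs2' := h2 (Sym2 V) π D hπ0 hπ1 hDne (t ^ 2)
    (fun G => (mcl p G : ℝ) / n)
    (fun G _ => by positivity)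
    (fun G _ => by
      rw [div_le_one hn0]
      exact_mod_cast mcl_le p G)
  have hx1 := (abs_le.1 hs1').1
  have hx2 := (abs_le.1 hs2').2
  have hNS : 0 < N ^ (t ^ 2) := by positivity
  have hgoal : Pr π D (NR p t0) ≤ ε := by
    have g0 : Pr π D (NR p t0) = Ex π D (fun G => if NR p t0 G then (1 : ℝ) else 0) := rfl
    rw [g0]
    set E1 := Ex π D (fun G => if NR p t0 G then (1 : ℝ) else 0)
    set E2 := Ex π D (fun G => (mcl p G : ℝ) / n)
    set A1 := ∑ f ∈ seqs (t ^ 2) D, Ex π D (fun G => if NR p t0 (plus G f) then (1 : ℝ) else 0)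
    set A2 := ∑ f ∈ seqs (t ^ 2) D, Ex π D (fun G => (mcl p (plus G f) : ℝ) / n)
    have g1 : A1 / N ^ (t ^ 2) ≤ 2 / δ * (A2 / N ^ (t ^ 2) - E2) + Pr π D (BG t) + n * K := by
      rw [div_le_iff₀ hNS]
      have g2 : (2 / δ * (A2 / N ^ (t ^ 2) - E2) + Pr π D (BG t) + n * K) * N ^ (t ^ 2) =
          2 / δ * A2 + (-(2 / δ) * N ^ (t ^ 2) * E2 +
          (N ^ (t ^ 2) * Pr π D (BG t) + N ^ (t ^ 2) * (n * K) * 1)) := by
        field_simp
        ring
      rw [g2]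
      exact hmain
    have g3 : 2 / δ * (A2 / N ^ (t ^ 2) - E2) ≤ 2 / δ * q := by
      have : 0 < 2 / δ := by positivity
      exact mul_le_mul_of_nonneg_left hx2 this.le
    have g4 : -q ≤ A1 / N ^ (t ^ 2) - E1 := hx1
    linarith
  exact hgoal

end Pool.Agent.GRR
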