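import Pool.Agent.GRR.Defs
import Pool.Agent.GRR.Problem

/-!
# Statements of the modules of project GRR (MP_9e2625_co)
Recipes: /team-store/MP_9e2625_GRR.md
-/

set_option autoImplicit false

open Finset
open scoped Classical

namespace Pool.Agent.GRR

/-! ## Part L: generic positions, linear algebra -/

/-- GEN: rows with rational polynomial entries that are independent somewhere are independent at
an algebraically independent point -/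
def Stmt_GEN : Prop :=
  ∀ (σ : Type) [Fintype σ] (x y : σ → ℝ), AlgebraicIndependent ℚ x →
  ∀ (ι κ : Type) [Fintype ι] [Fintype κ] (M : ι → κ → MvPolynomial σ ℚ),
    LinearIndependent ℝ (fun i => fun j => MvPolynomial.aeval y (M i j)) →
    LinearIndependent ℝ (fun i => fun j => MvPolynomial.aeval x (M i j))

/-- GNE: the same for edge functionals and coordinate functionals -/
def Stmt_GNE : Prop :=
  ∀ (V : Type) [Fintype V] (k : ℕ) (p q : V → Fin k → ℝ), Gnr p →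
  ∀ (B : Finset V) (E : Finset (Sym2 V)) (C : Finset (V × Fin k)), Ind q B E C → Ind p B E C

/-- LIN: linear algebra of `Ind` -/
def Stmt_LIN : Prop :=
  ∀ (V : Type) [Fintype V] (k : ℕ) (p : V → Fin k → ℝ) (B : Finset V) (E : Finset (Sym2 V))
    (C : Finset (V × Fin k)),
    (Ind p B E C → ∀ (r : Sym2 V → ℝ) (s : V × Fin k → ℝ), ∃ X : V → Fin k → ℝ,
      (∀ i ∈ B, X i = 0) ∧ (∀ e ∈ E, ell p X e = r e) ∧ ∀ x ∈ C, X x.1 x.2 = s x) ∧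
    (∀ e : Sym2 V, Ind p B E ∅ → (∃ X ∈ Mot p B E, ell p X e ≠ 0) → Ind p B (insert e E) ∅) ∧
    (∀ (z : V) (c : Fin k), Ind p B E ∅ → (∃ X ∈ Mot p B E, X z c ≠ 0) → Ind p B E {(z, c)}) ∧
    (∃ E' ⊆ E, Ind p B E' ∅ ∧ Mot p B E' = Mot p B E) ∧
    (Ind p B E ∅ ↔ Module.finrank ℝ (Mot p B E) + E.card = k * (univ \ B).card) ∧
    (k * (univ \ B).card ≤ Module.finrank ℝ (Mot p B E) + E.card) ∧
    ((∀ r : Sym2 V → ℝ, ∃ X : V → Fin k → ℝ, (∀ i ∈ B, X i = 0) ∧ ∀ e ∈ E, ell p X e = r e) →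
      Ind p B E ∅) ∧
    (∀ E' ⊆ E, Ind p B E ∅ → Ind p B E' ∅)

/-- STA: at a generic configuration at most `k` edges of a star are independent, and at least
`k` edges determine the centre -/
def Stmt_STA : Prop :=
  ∀ (V : Type) [Fintype V] (k : ℕ) (p : V → Fin k → ℝ), Gnr p → ∀ (v : V) (T : Finset V), v ∉ T →
    (T.card ≤ k → ∀ r : V → ℝ, ∃ D : Fin k → ℝ, ∀ t ∈ T, dot (p v - p t) D = r t) ∧
    (k ≤ T.card → ∀ D : Fin k → ℝ, (∀ t ∈ T, dot (p v - p t) D = 0) → D = 0)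

/-- TRI: motions of a complete graph are trivial -/
def Stmt_TRI : Prop :=
  ∀ (V : Type) [Fintype V] (k : ℕ) (p : V → Fin k → ℝ), Gnr p → ∀ Q : Finset V, k + 1 ≤ Q.card →
  ∀ X : V → Fin k → ℝ, (∀ i ∈ Q, ∀ j ∈ Q, ell p X s(i, j) = 0) →
    ∃ Y : V → Fin k → ℝ, (∀ e : Sym2 V, ell p Y e = 0) ∧ (∀ i ∈ Q, Y i = X i) ∧
      ∃ (A : Matrix (Fin k) (Fin k) ℝ) (b : Fin k → ℝ), A.transpose = -A ∧
        ∀ i, Y i = A.mulVec (p i) + b

/-- FRZ: cliques of the closure and frozen vertices -/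
def Stmt_FRZ : Prop :=
  ∀ (V : Type) [Fintype V] (k : ℕ) (p : V → Fin k → ℝ), Gnr p →
  ∀ (G : Finset (Sym2 V)) (Q : Finset V), k + 1 ≤ Q.card → Clq p G Q →
    (∀ e : Sym2 V, (∀ X ∈ Mot p Q G, ell p X e = 0) → Cl p G e) ∧
    Q ⊆ fr p Q G ∧ Clq p G (fr p Q G) ∧
    (∀ Q' : Finset V, k + 1 ≤ Q'.card → Clq p G Q' → k ≤ (Q ∩ Q').card →
      Q' ⊆ fr p Q G ∧ Clq p G (Q ∪ Q') ∧ Mot p Q' G = Mot p Q G ∧ fr p Q' G = fr p Q G) ∧
    (∀ v, v ∉ fr p Q G → (Q.filter (fun q => Cl p G s(v, q))).card < k) ∧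
    (Mot p (fr p Q G) G = Mot p Q G)

/-- DIM: the motions of a rigid graph on `W` form a space of dimension at most `k(k+1)/2` -/
def Stmt_DIM : Prop :=
  ∀ (V : Type) [Fintype V] (k : ℕ) (p : V → Fin k → ℝ), Gnr p →
  ∀ (G : Finset (Sym2 V)) (W : Finset V), k + 1 ≤ W.card → Clq p G W →
    Module.finrank ℝ (Mot p (univ \ W) G) ≤ k * (k + 1) / 2

/-- TWO: two rigid bodies joined by many bars -/
def Stmt_TWO : Prop :=
  ∀ (V : Type) [Fintype V] (k : ℕ) (p : V → Fin k → ℝ), Gnr p →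
  ∀ (G : Finset (Sym2 V)) (Q R : Finset V), k + 1 ≤ Q.card → k + 1 ≤ R.card →
    Clq p G Q → Clq p G R → ∀ a b : Fin (k * k + k) → V,
      Function.Injective (Sum.elim a b) → (∀ l, a l ∈ Q) → (∀ l, b l ∈ R) →
      (∀ l, Cl p G s(a l, b l)) → Clq p G (Q ∪ R)

/-- BIP: large complete bipartite graphs with one side of size `k+1` are rigid -/
def Stmt_BIP : Prop :=
  ∀ (V : Type) [Fintype V] (k : ℕ) (p : V → Fin k → ℝ), Gnr p →
  ∀ (G : Finset (Sym2 V)) (A B : Finset V), Disjoint A B → (k + 1) * (k + 1) ≤ A.card →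
    B.card = k + 1 → (∀ a ∈ A, ∀ b ∈ B, Cl p G s(a, b)) → Clq p G (A ∪ B)

/-- DEN: a dense closure contains a clique of linear size -/
def Stmt_DEN : Prop :=
  ∀ (k : ℕ) (η : ℝ), 0 < η → ∃ γ : ℝ, 0 < γ ∧ ∃ n0 : ℕ,
  ∀ (V : Type) [Fintype V] (p : V → Fin k → ℝ), Gnr p → n0 ≤ Fintype.card V →
  ∀ G : Finset (Sym2 V), η ≤ clc p G →
    ∃ Q : Finset V, γ * Fintype.card V ≤ Q.card ∧ Clq p G Q

/-- NCO: a set on which the closure is nearly complete contains a clique of nearly its size -/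
def Stmt_NCO : Prop :=
  ∀ (k : ℕ) (δ : ℝ), 0 < δ → ∃ δ' : ℝ, 0 < δ' ∧ δ' < 1 / 4 ∧ ∃ n0 : ℕ,
  ∀ (V : Type) [Fintype V] (p : V → Fin k → ℝ), Gnr p → n0 ≤ Fintype.card V →
  ∀ (G : Finset (Sym2 V)) (Q : Finset V),
    ((((sub (pairs V) Q).filter (fun e => ¬ Cl p G e)).card : ℝ) ≤ δ' * (Fintype.card V : ℝ) ^ 2) →
    ∃ R ⊆ Q, Clq p G R ∧ (Q.card : ℝ) ≤ R.card + δ * Fintype.card V

/-- BAS: if every element of `F` is in the closure of `H ∪ S` then at most `|S|` elements of `F`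
suffice, together with `H`, to span `F` -/
def Stmt_BAS : Prop :=
  ∀ (V : Type) [Fintype V] (k : ℕ) (p : V → Fin k → ℝ) (H S F : Finset (Sym2 V)),
    (∀ e ∈ F, Cl p (H ∪ S) e) → ∃ F' ⊆ F, F'.card ≤ S.card ∧ ∀ e ∈ F, Cl p (H ∪ F') e

/-- RDF: redundant edges -/
def Stmt_RDF : Prop :=
  ∀ (V : Type) [Fintype V] (k : ℕ) (p : V → Fin k → ℝ), Gnr p →
  ∀ G : Finset (Sym2 V), G ⊆ pairs V →
    (∀ e ∈ Red p G, Cl p ((Red p G).erase e) e) ∧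
    (∀ H ⊆ G, Red p G ⊆ H → ∀ (S : Finset (Sym2 V)) (e : Sym2 V), Cl p H e → Cl p (G \ S) e →
      Cl p (H \ S) e) ∧
    (∀ v ∈ vts (Red p G), k + 1 ≤ (nbr (Red p G) v).card) ∧
    (∀ G' : Finset (Sym2 V), G ⊆ G' → Red p G ⊆ Red p G') ∧
    (∀ H ⊆ G, Red p G ⊆ H → Red p H = Red p G)

/-- INV: the closure does not depend on the generic configuration -/
def Stmt_INV : Prop :=
  ∀ (V : Type) [Fintype V] (k : ℕ) (p q : V → Fin k → ℝ), Gnr p → Gnr q →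
  ∀ (G : Finset (Sym2 V)) (e : Sym2 V), Cl p G e → Cl q G e

/-! ## Part S: small sets -/

/-- CNT: in a sparse graph whose outer vertices have at least two neighbours some inner vertex has
at most two neighbours -/
def Stmt_CNT : Prop :=
  ∀ (V : Type) [Fintype V] (E : Finset (Sym2 V)) (Y : Finset V), E ⊆ pairs V →
    (∀ S : Finset V, 10 * (sub E S).card ≤ 11 * S.card) → (∀ e ∈ E, ∃ y ∈ Y, y ∈ e) →
    (∀ a, a ∉ Y → a ∈ vts E → 2 ≤ (nbr E a).card) → Y.Nonempty →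
    ∃ y ∈ Y, (nbr E y).card ≤ 2

/-- HAL: Hall selection -/
def Stmt_HAL : Prop :=
  ∀ (V : Type) [Fintype V] (k : ℕ) (E : Finset (Sym2 V)) (Y : Finset V),
    ((∀ X ⊆ Y, k * X.card ≤ (inc E X).card) →
      ∃ E' ⊆ E, E'.card = k * Y.card ∧ ∃ y : Sym2 V → V, (∀ e ∈ E', y e ∈ Y ∧ y e ∈ e) ∧
        ∀ v ∈ Y, (E'.filter (fun e => y e = v)).card = k) ∧
    ((∀ X ⊆ Y, (E.filter (fun e => (∀ i ∈ e, i ∈ Y → i ∈ X))).card ≤ k * X.card) →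
      ∃ y : Sym2 V → V, (∀ e ∈ E, y e ∈ Y ∧ y e ∈ e) ∧
        ∀ v ∈ Y, (E.filter (fun e => y e = v)).card ≤ k)

/-- small sets, rigid version, core form, for sets of `m` vertices -/
def SRIn (m : ℕ) : Prop :=
  ∀ (V : Type) [Fintype V] (k : ℕ), 2 ≤ k → ∀ p : V → Fin k → ℝ, Gnr p →
  ∀ (E : Finset (Sym2 V)) (Y : Finset V), Y.card = m → E ⊆ pairs V →
    (∀ S : Finset V, 10 * (sub E S).card ≤ 11 * S.card) →
    (2 * k + 2) * Y.card ≤ Fintype.card V →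
    (∃ y : Sym2 V → V, (∀ e ∈ E, y e ∈ Y ∧ y e ∈ e) ∧
        ∀ v ∈ Y, (E.filter (fun e => y e = v)).card = k) →
    Mot p (univ \ Y) E = ⊥

/-- small sets, independence version, for sets of `m` vertices -/
def SINn (m : ℕ) : Prop :=
  ∀ (V : Type) [Fintype V] (k : ℕ), 2 ≤ k → ∀ p : V → Fin k → ℝ, Gnr p →
  ∀ (E : Finset (Sym2 V)) (Y : Finset V), Y.card = m → E ⊆ pairs V →
    (∀ S : Finset V, 10 * (sub E S).card ≤ 11 * S.card) →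
    (2 * k + 2) * Y.card ≤ Fintype.card V →
    (∃ y : Sym2 V → V, (∀ e ∈ E, y e ∈ Y ∧ y e ∈ e) ∧
        ∀ v ∈ Y, (E.filter (fun e => y e = v)).card ≤ k) →
    Ind p (univ \ Y) E ∅

/-- FRE: fresh pins -/
def Stmt_FRE : Prop := ∀ m : ℕ, SRIn m → SINn m

/-- STP: the induction step -/
def Stmt_STP : Prop := ∀ m : ℕ, (∀ m' < m, SRIn m' ∧ SINn m') → SRIn m

/-- SRA: consequence of FRE and STP -/
def Stmt_SRA : Prop := ∀ m : ℕ, SRIn m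

/-- SIA: consequence of FRE and STP -/
def Stmt_SIA : Prop := ∀ m : ℕ, SINn m

/-- SRG: small sets, rigid version -/
def Stmt_SRG : Prop :=
  ∀ (V : Type) [Fintype V] (k : ℕ), 2 ≤ k → ∀ p : V → Fin k → ℝ, Gnr p →
  ∀ (s : ℕ) (G E : Finset (Sym2 V)) (Y : Finset V), G ⊆ pairs V → Spr s G → E ⊆ G →
    (k + 1) * Y.card ≤ s → (2 * k + 2) * Y.card ≤ Fintype.card V →
    (∀ X ⊆ Y, k * X.card ≤ (inc E X).card) → Mot p (univ \ Y) E = ⊥

/-- SCI: circuits on small sets -/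
def Stmt_SCI : Prop :=
  ∀ (V : Type) [Fintype V] (k : ℕ), 2 ≤ k → ∀ p : V → Fin k → ℝ, Gnr p →
  ∀ (s : ℕ) (G C : Finset (Sym2 V)) (B : Finset V), G ⊆ pairs V → Spr s G → C ⊆ G →
    (k + 1) * (vts C \ B).card ≤ s → (2 * k + 2) * (vts C \ B).card ≤ Fintype.card V →
    ¬ Ind p B C ∅ → (∀ e ∈ C, Ind p B (C.erase e) ∅) →
    C.card = k * (vts C \ B).card + 1 ∧
    (∀ X ∈ Mot p B C, ∀ y ∈ vts C \ B, X y = 0) ∧
    (∀ y ∈ vts C \ B, k + 1 ≤ (nbr C y).card)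

/-! ## Part C: one vertex -/

/-- AVO: finitely many nonzero affine functionals have a common non-zero -/
def Stmt_AVO : Prop :=
  ∀ (E : Type) [AddCommGroup E] [Module ℝ E] (ι : Type) [Fintype ι] (f : ι → E → ℝ),
    (∀ i, ∃ (g : E →ₗ[ℝ] ℝ) (c : ℝ), (∀ x, f i x = g x + c) ∧ ∃ x, f i x ≠ 0) →
    ∃ x : E, ∀ i, f i x ≠ 0

/-- NVA: a free vertex moves in the direction of an isolated vertex -/
def Stmt_NVA : Prop :=
  ∀ (V : Type) [Fintype V] (k : ℕ) (p : V → Fin k → ℝ), Gnr p →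
  ∀ (H : Finset (Sym2 V)) (Q : Finset V) (x u : V), (∀ e ∈ H, x ∉ e) → u ≠ x →
    (∃ X ∈ Mot p Q H, X u ≠ 0) → ∃ X ∈ Mot p Q H, X x = 0 ∧ dot (p x - p u) (X u) ≠ 0

/-- XZR: a special position of the new vertex -/
def Stmt_XZR : Prop :=
  ∀ (V : Type) [Fintype V] (k : ℕ), 2 ≤ k → ∀ p : V → Fin k → ℝ, Gnr p →
  ∀ (M : Submodule ℝ (V → Fin k → ℝ)) (U : Finset V), Dec M U →
    (∀ u ∈ U, ∀ v ∈ U, u ≠ v → (∃ X ∈ M, X u ≠ 0) → ∃ X ∈ M, dot (p u - p v) (X u - X v) ≠ 0) →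
    (U.filter (fun u => ∀ X ∈ M, X u = 0)).card < k →
    ∀ z : V, (∃ X ∈ M, X z ≠ 0) →
    ∃ x0 : Fin k → ℝ,
      (∀ r : V → ℝ, ∃ D : Fin k → ℝ, ∀ u ∈ U, (∀ X ∈ M, X u = 0) → dot (x0 - p u) D = r u) ∧
      (∀ u ∈ U, (∃ X ∈ M, X u ≠ 0) → ∃ X ∈ M, dot (x0 - p u) (X u) ≠ 0) ∧
      ∃ ξ : Fin k → ℝ, ∃ X ∈ M, (∀ u ∈ U, dot (x0 - p u) (ξ - X u) = 0) ∧ X z ≠ 0

/-- CVA: adding a vertex with at least `k` frozen neighbours -/
def Stmt_CVA : Prop :=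
  ∀ (V : Type) [Fintype V] (k : ℕ) (p : V → Fin k → ℝ), Gnr p →
  ∀ (H : Finset (Sym2 V)) (Q U : Finset V) (x : V), H ⊆ pairs V → (∀ e ∈ H, x ∉ e) →
    k + 1 ≤ Q.card → x ∉ Q → Clq p H Q → x ∉ U → Dec (Mot p Q H) U →
    k ≤ (U ∩ fr p Q H).card →
    x ∈ fr p Q (H ∪ star x U) ∧
    ∀ u ∈ U, u ∉ fr p Q H → ¬ Cl p ((H ∪ star x U).erase s(x, u)) s(x, u)

/-- CVB: adding a vertex with fewer than `k` frozen neighbours -/
def Stmt_CVB : Prop :=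
  ∀ (V : Type) [Fintype V] (k : ℕ), 2 ≤ k → ∀ p : V → Fin k → ℝ, Gnr p →
  ∀ (H : Finset (Sym2 V)) (Q U : Finset V) (x : V), H ⊆ pairs V → (∀ e ∈ H, x ∉ e) →
    k + 1 ≤ Q.card → x ∉ Q → Clq p H Q → x ∉ U → Dec (Mot p Q H) U → GenC p H Q U →
    (U ∩ fr p Q H).card < k →
    (∀ μ : V → ℝ, (∀ X ∈ Mot p Q H, ∑ u ∈ U, μ u * ell p X s(x, u) = 0) → ∀ u ∈ U, μ u = 0) ∧
    (∀ z, (∃ X ∈ Mot p Q H, X z ≠ 0) → ∃ X ∈ Mot p Q (H ∪ star x U), X z ≠ 0)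

/-- TLT: tilting a relation -/
def Stmt_TLT : Prop :=
  ∀ (V : Type) [Fintype V] (k : ℕ) (p : V → Fin k → ℝ), Gnr p →
  ∀ (G : Finset (Sym2 V)) (U : Finset V) (g s : ℕ), k + 1 ≤ g → Bad p g (s + 1) G U →
    Bad p g s G U ∨
    ∃ u ∈ U, g ≤ (univ.filter (fun q => q ≠ u ∧ Bad p g s (insert s(u, q) G) U)).card + U.card * k

/-- DEC: no relation means independence -/
def Stmt_DEC : Prop :=
  ∀ (V : Type) [Fintype V] (k : ℕ) (p : V → Fin k → ℝ) (G : Finset (Sym2 V)) (U : Finset V)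
    (g : ℕ), ¬ Bad p g (U.card * k) G U → ∀ Q : Finset V, g ≤ Q.card → Clq p G Q →
    Dec (Mot p Q G) U

/-! ## Part P: probability, general -/

/-- EXB: basic properties of expectation and probability -/
def Stmt_EXB : Prop :=
  ∀ (α : Type) (π : ℝ) (D : Finset α), 0 ≤ π → π ≤ 1 →
    Ex π D (fun _ => 1) = 1 ∧
    (∀ Ψ Φ : Finset α → ℝ, (∀ G ⊆ D, Ψ G ≤ Φ G) → Ex π D Ψ ≤ Ex π D Φ) ∧
    (∀ A B : Finset α → Prop, (∀ G ⊆ D, A G → B G) → Pr π D A ≤ Pr π D B) ∧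
    (∀ A B C : Finset α → Prop, (∀ G ⊆ D, A G → B G ∨ C G) → Pr π D A ≤ Pr π D B + Pr π D C) ∧
    (∀ A : Finset α → Prop, 0 ≤ Pr π D A ∧ Pr π D A ≤ 1) ∧
    (∀ (Ψ : Finset α → ℝ) (a : ℝ), 0 < a → (∀ G ⊆ D, 0 ≤ Ψ G) →
      Pr π D (fun G => a ≤ Ψ G) ≤ Ex π D Ψ / a) ∧
    (∀ (ι : Type) (S : Finset ι) (A : ι → Finset α → Prop) (B : Finset α → Prop),
      (∀ G ⊆ D, B G → ∃ i ∈ S, A i G) → Pr π D B ≤ ∑ i ∈ S, Pr π D (A i)) ∧
    (∀ (ι : Type) (S : Finset ι) (Ψ : ι → Finset α → ℝ),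
      Ex π D (fun G => ∑ i ∈ S, Ψ i G) = ∑ i ∈ S, Ex π D (Ψ i)) ∧
    (∀ (a : ℝ) (Ψ : Finset α → ℝ), Ex π D (fun G => a * Ψ G) = a * Ex π D Ψ) ∧
    (∀ Ψ Φ : Finset α → ℝ, (∀ G ⊆ D, 0 ≤ Ψ G) → (∀ G ⊆ D, 0 ≤ Φ G) →
      Ex π D (fun G => Ψ G * Φ G) ^ 2 ≤ Ex π D (fun G => Ψ G ^ 2) * Ex π D (fun G => Φ G ^ 2))

/-- WHB: calculus of `Whp` -/
def Stmt_WHB : Prop :=
  ∀ (c : ℝ) (k : ℕ), 0 < c →
    (∀ A B : (V : Type) → [Fintype V] → (V → Fin k → ℝ) → Finset (Sym2 V) → Prop,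
      (∃ n0 : ℕ, ∀ (V : Type) [Fintype V] (p : V → Fin k → ℝ), Gnr p → n0 ≤ Fintype.card V →
        ∀ G : Finset (Sym2 V), G ⊆ pairs V → A V p G → B V p G) → Whp c k A → Whp c k B) ∧
    (∀ A B : (V : Type) → [Fintype V] → (V → Fin k → ℝ) → Finset (Sym2 V) → Prop,
      Whp c k A → Whp c k B → Whp c k (fun V _ p G => A V p G ∧ B V p G)) ∧
    (∀ A : (V : Type) → [Fintype V] → (V → Fin k → ℝ) → Finset (Sym2 V) → Prop,
      (∃ (J : ℕ) (L : ℝ) (n0 : ℕ), ∀ (V : Type) [Fintype V] (p : V → Fin k → ℝ), Gnr p →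
        n0 ≤ Fintype.card V → Pr (c / Fintype.card V) (pairs V) (fun G => ¬ A V p G) ≤
          J / (L * Real.sqrt (c / Fintype.card V * (pairs V).card)) ∧ 0 < L) → Whp c k A)

/-- SBE: forcing an element -/
def Stmt_SBE : Prop :=
  ∀ (α : Type) (π : ℝ) (D : Finset α), 0 < π → π ≤ 1 → ∀ e ∈ D, ∀ Ψ : Finset α → ℝ,
    Ex π D (fun G => Ψ (insert e G)) = π⁻¹ * Ex π D (fun G => if e ∈ G then Ψ G else 0)

/-- SBJ: adding `J` uniformly random elements changes the law by at most `J / √(π |D|)` -/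
def Stmt_SBJ : Prop :=
  ∀ (α : Type) (π : ℝ) (D : Finset α), 0 < π → π ≤ 1 → D.Nonempty →
  ∀ (J : ℕ) (Ψ : Finset α → ℝ), (∀ G ⊆ D, 0 ≤ Ψ G) → (∀ G ⊆ D, Ψ G ≤ 1) →
    |(∑ f ∈ seqs J D, Ex π D (fun G => Ψ (plus G f))) / (D.card : ℝ) ^ J - Ex π D Ψ|
      ≤ J / Real.sqrt (π * D.card)

/-- INC: a monotone functional has no jumps at a typical graph -/
def Stmt_INC : Prop :=
  ∀ (α : Type) (π : ℝ) (D : Finset α), 0 < π → π ≤ 1 → D.Nonempty →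
  ∀ (J : ℕ) (Φ : Finset α → ℝ) (A : Finset α → Prop) (θ κ : ℝ), 0 < θ → 0 < κ →
    (∀ G ⊆ D, 0 ≤ Φ G) → (∀ G ⊆ D, Φ G ≤ 1) →
    (∀ G G' : Finset α, G ⊆ G' → G' ⊆ D → Φ G ≤ Φ G') →
    (∀ G ⊆ D, A G → θ * (D.card : ℝ) ^ J ≤
      (((seqs J D).filter (fun f => Φ G + κ ≤ Φ (plus G f))).card : ℝ)) →
    Pr π D A ≤ J / (θ * κ * Real.sqrt (π * D.card))

/-- MEC: exchanging an edge of the graph with a new edge -/
def Stmt_MEC : Prop :=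
  ∀ (α : Type) (π : ℝ) (D : Finset α), 0 < π → π < 1 → ∀ h : Finset α → α → ℝ,
    Ex π D (fun G => ∑ e ∈ G, h (G.erase e) e) =
      π / (1 - π) * Ex π D (fun G => ∑ e ∈ D \ G, h G e)

/-- ISO: splitting off a subset `S` of `D` -/
def Stmt_ISO : Prop :=
  ∀ (α : Type) (π : ℝ) (D S : Finset α), 0 < π → π < 1 → S ⊆ D →
  ∀ (Ψ : Finset α → Finset α → ℝ), (∀ G ⊆ D, ∀ U ⊆ S, 0 ≤ Ψ G U) →
    Ex π D (fun G => Ψ (G \ S) (G ∩ S)) ≤
      ∑ U ∈ S.powerset, (π / (1 - π)) ^ U.card * Ex π D (fun G => Ψ G U)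

/-- DEG: degrees -/
def Stmt_DEG : Prop :=
  ∀ (V : Type) [Fintype V] (c : ℝ), 0 < c → c ≤ Fintype.card V →
    (∀ x : V, Ex (c / Fintype.card V) (pairs V) (fun G => ((nbr G x).card : ℝ) ^ 2) ≤ c ^ 2 + c) ∧
    (∀ (x : V) (r : ℕ), Pr (c / Fintype.card V) (pairs V) (fun G => r ≤ (nbr G x).card) ≤
      c ^ r / r.factorial)

/-! ## Part R: the random graph -/

/-- SPA: small sets are sparse -/
def Stmt_SPA : Prop :=
  ∀ c : ℝ, 0 < c → ∃ σ : ℝ, 0 < σ ∧ σ < 1 ∧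
    ∀ k : ℕ, Whp c k (fun V _ _ G => Spr ⌊σ * Fintype.card V⌋₊ G)

/-- UND: counting sequences of pairs that join two giant cliques -/
def Stmt_UND : Prop :=
  ∀ (k : ℕ) (γ : ℝ), 1 ≤ k → 0 < γ → ∃ θ κ : ℝ, 0 < θ ∧ 0 < κ ∧ ∃ n0 : ℕ,
  ∀ (V : Type) [Fintype V] (p : V → Fin k → ℝ), Gnr p → n0 ≤ Fintype.card V →
  ∀ (G : Finset (Sym2 V)) (g : ℕ), G ⊆ pairs V → γ * Fintype.card V ≤ g → ¬ Uni p g G →
    θ * ((pairs V).card : ℝ) ^ (k * k + k) ≤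
      (((seqs (k * k + k) (pairs V)).filter (fun f => clc p G + κ ≤ clc p (plus G f))).card : ℝ)

/-- UNI: uniqueness of the giant clique -/
def Stmt_UNI : Prop :=
  ∀ (k : ℕ) (c γ : ℝ), 1 ≤ k → 0 < c → 0 < γ →
    Whp c k (fun V _ p G => Uni p ⌈γ * Fintype.card V⌉₊ G)

/-- ROD: deterministic part of robustness -/
def Stmt_ROD : Prop :=
  ∀ (k : ℕ) (δ : ℝ), 0 < δ → ∃ δ' : ℝ, 0 < δ' ∧ δ' < 1 ∧ ∃ n0 : ℕ,
  ∀ (V : Type) [Fintype V] (p : V → Fin k → ℝ), Gnr p → n0 ≤ Fintype.card V →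
  ∀ (G : Finset (Sym2 V)) (x : V) (r S : ℕ), G ⊆ pairs V → (nbr G x).card ≤ r → r ≤ S →
    (((seqs S (pairs V)).filter (fun f =>
        (mcl p (del (plus G f) x) : ℝ) + δ * Fintype.card V < mcl p G)).card : ℝ) ≤
      ((S : ℝ) + 1) ^ r * (1 - δ') ^ (S - r) * ((pairs V).card : ℝ) ^ S

/-- ROB: robustness -/
def Stmt_ROB : Prop :=
  ∀ (k : ℕ) (c δ : ℝ), 0 < c → 0 < δ →
    Whp c k (fun V _ p G => Rob p ⌊δ * Fintype.card V⌋₊ G)

/-- BIG: the redundant subgraph is empty or large -/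
def Stmt_BIG : Prop :=
  ∀ (V : Type) [Fintype V] (k : ℕ), 2 ≤ k → ∀ p : V → Fin k → ℝ, Gnr p →
  ∀ (s : ℕ) (G : Finset (Sym2 V)), G ⊆ pairs V → Spr s G → (Red p G).Nonempty →
    s < (vts (Red p G)).card ∧ s ≤ (Red p G).card

/-- EXI: if there is a redundant edge then there is a giant clique -/
def Stmt_EXI : Prop :=
  ∀ (k : ℕ) (c ε : ℝ), 2 ≤ k → 0 < c → 0 < ε → ∃ γ : ℝ, 0 < γ ∧ ∃ n0 : ℕ,
  ∀ (V : Type) [Fintype V] (p : V → Fin k → ℝ), Gnr p → n0 ≤ Fintype.card V →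
    Pr (c / Fintype.card V) (pairs V)
      (fun G => (Red p G).Nonempty ∧ (mcl p G : ℝ) < γ * Fintype.card V) ≤ ε

/-- BD (for a fixed excess `s`): a random `j`-subset carries no relation -/
def BDst (s : ℕ) : Prop :=
  ∀ (k j : ℕ) (c γ ε : ℝ), 1 ≤ k → 0 < c → 0 < γ → 0 < ε → ∃ n0 : ℕ,
  ∀ (V : Type) [Fintype V] (p : V → Fin k → ℝ), Gnr p → n0 ≤ Fintype.card V →
  ∀ g : ℕ, γ * Fintype.card V ≤ g →
    ∑ U ∈ powersetCard j (univ : Finset V),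
      Pr (c / Fintype.card V) (pairs V) (fun G => Bad p g s G U) ≤ ε * (Fintype.card V : ℝ) ^ j

/-- the set `I` of one dimensional vertices determines the further vertex `z` -/
def DetOne {V : Type} [Fintype V] {k : ℕ} (p : V → Fin k → ℝ) (g : ℕ) (G : Finset (Sym2 V))
    (I : Finset V) (z : V) : Prop :=
  ∃ Q : Finset V, g ≤ Q.card ∧ Clq p G Q ∧ z ∉ fr p Q G ∧ z ∉ I ∧
    (∀ u ∈ I, u ∉ fr p Q G ∧ Module.finrank ℝ (Uat (Mot p Q G) u) = 1) ∧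
    ∀ X ∈ Mot p Q G, (∀ u ∈ I, X u = 0) → X z = 0

/-- BDA: counting sequences of pairs that enlarge the giant clique -/
def Stmt_BDA : Prop :=
  ∀ (k i : ℕ) (γ ε : ℝ), 1 ≤ k → 0 < γ → 0 < ε → ∃ θ κ : ℝ, 0 < θ ∧ 0 < κ ∧ ∃ n0 : ℕ,
  ∀ (V : Type) [Fintype V] (p : V → Fin k → ℝ), Gnr p → n0 ≤ Fintype.card V →
  ∀ (G : Finset (Sym2 V)) (g : ℕ), G ⊆ pairs V → γ * Fintype.card V ≤ g → Uni p g G →
    ε * (Fintype.card V : ℝ) ^ i ≤
      (((powersetCard i (univ : Finset V)).filter (fun I =>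
        ε * Fintype.card V ≤ ((univ.filter (fun z => DetOne p g G I z)).card : ℝ))).card : ℝ) →
    θ * ((pairs V).card : ℝ) ^ i ≤
      (((seqs i (pairs V)).filter (fun f =>
        (mcl p G : ℝ) / Fintype.card V + κ ≤ (mcl p (plus G f) : ℝ) / Fintype.card V)).card : ℝ)

/-- BDB: relations of excess `0` give one dimensional determination -/
def Stmt_BDB : Prop :=
  ∀ (V : Type) [Fintype V] (k : ℕ) (p : V → Fin k → ℝ), Gnr p →
  ∀ (G : Finset (Sym2 V)) (U : Finset V) (g : ℕ), Bad p g 0 G U →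
    ∃ z ∈ U, ∃ I ⊆ U.erase z, DetOne p g G I z

/-- BDZ: excess 0 -/
def Stmt_BDZ : Prop := BDst 0

/-- BDS: excess `s` to excess `s+1` -/
def Stmt_BDS : Prop := ∀ s : ℕ, BDst s → BDst (s + 1)

/-- BDX: consequence of BDZ and BDS -/
def Stmt_BDX : Prop := ∀ s : ℕ, BDst s

/-- CNF: few closure pairs with a free end -/
def Stmt_CNF : Prop :=
  ∀ (k : ℕ) (c γ ε : ℝ), 1 ≤ k → 0 < c → 0 < γ → 0 < ε → ∃ n0 : ℕ,
  ∀ (V : Type) [Fintype V] (p : V → Fin k → ℝ), Gnr p → n0 ≤ Fintype.card V →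
  ∀ g : ℕ, γ * Fintype.card V ≤ g →
    ∑ u : V, ∑ v : V, Pr (c / Fintype.card V) (pairs V) (fun G => Cnf p g G u v) ≤
      ε * (Fintype.card V : ℝ) ^ 2

/-- GDP: a random `m`-subset is in good position -/
def Stmt_GDP : Prop :=
  ∀ (k m : ℕ) (c γ ε : ℝ), 1 ≤ k → 0 < c → 0 < γ → 0 < ε → ∃ n0 : ℕ,
  ∀ (V : Type) [Fintype V] (p : V → Fin k → ℝ), Gnr p → n0 ≤ Fintype.card V →
  ∀ g : ℕ, γ * Fintype.card V ≤ g →
    ∑ U ∈ powersetCard m (univ : Finset V),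
      Pr (c / Fintype.card V) (pairs V) (fun G => ¬ GoodAt p g G U) ≤ ε * (Fintype.card V : ℝ) ^ m

/-- NGD: most vertices are good -/
def Stmt_NGD : Prop :=
  ∀ (k : ℕ) (c γ δ : ℝ), 1 ≤ k → 0 < c → 0 < γ → 0 < δ →
    Whp c k (fun V _ p G =>
      (univ.filter (fun x => ¬ GoodAt p ⌈γ * Fintype.card V⌉₊ (del G x) (nbr G x))).card ≤
        ⌊δ * Fintype.card V⌋₊)

/-! ## Part T: structure of a typical graph -/

/-- SUB: the large clique without a vertex -/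
def Stmt_SUB : Prop :=
  ∀ (V : Type) [Fintype V] (k : ℕ), 2 ≤ k → ∀ p : V → Fin k → ℝ, Gnr p →
  ∀ (G : Finset (Sym2 V)) (s g t : ℕ), GG p G s g t → ∀ Q : Finset V, TopQ p G Q →
    fr p Q G = Q ∧
    ∀ v : V, ∃ Q' ⊆ Q, v ∉ Q' ∧ Clq p (del G v) Q' ∧ Q.card ≤ Q'.card + t ∧ g ≤ Q'.card ∧
      fr p Q' G = Q ∧ fr p Q' (del G v) = Q'

/-- OUT: the edges outside the large clique are independent over it -/
def Stmt_OUT : Prop :=
  ∀ (V : Type) [Fintype V] (k : ℕ), 2 ≤ k → ∀ p : V → Fin k → ℝ, Gnr p →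
  ∀ (G : Finset (Sym2 V)) (s g t : ℕ), GG p G s g t → ∀ Q : Finset V, TopQ p G Q →
    Ind p Q (G \ sub G Q) ∅

/-- INS: the graph inside the large clique is rigid and contains the redundant edges -/
def Stmt_INS : Prop :=
  ∀ (V : Type) [Fintype V] (k : ℕ), 2 ≤ k → ∀ p : V → Fin k → ℝ, Gnr p →
  ∀ (G : Finset (Sym2 V)) (s g t : ℕ), GG p G s g t → ∀ Q : Finset V, TopQ p G Q →
    Clq p (sub G Q) Q ∧ Red p G ⊆ sub G Q

/-- TIG: peeling a tight set off a rigid graph -/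
def Stmt_TIG : Prop :=
  ∀ (V : Type) [Fintype V] (k : ℕ), 1 ≤ k → ∀ p : V → Fin k → ℝ, Gnr p →
  ∀ (G : Finset (Sym2 V)) (Q X : Finset V), G ⊆ pairs V → X ⊆ Q → Clq p (sub G Q) Q →
    k + 1 ≤ (Q \ X).card → k * X.card ≤ (inc (sub G Q) X).card ∧
    ((inc (sub G Q) X).card = k * X.card →
      Clq p (sub G (Q \ X)) (Q \ X) ∧
      ∀ e ∈ inc (sub G Q) X, ¬ Cl p ((sub G Q).erase e) e)

/-- PEL: the redundant subgraph is rigid -/
def Stmt_PEL : Prop :=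
  ∀ (V : Type) [Fintype V] (k : ℕ), 2 ≤ k → ∀ p : V → Fin k → ℝ, Gnr p →
  ∀ (G : Finset (Sym2 V)) (s g t : ℕ), GG p G s g t → (Red p G).Nonempty →
  ∀ Q : Finset V, TopQ p G Q →
    vts (Red p G) ⊆ Q ∧ Red p G = sub G (vts (Red p G)) ∧ Clq p (Red p G) (vts (Red p G))

/-- PIP: small sets have excess -/
def Stmt_PIP : Prop :=
  ∀ (V : Type) [Fintype V] (k : ℕ), 2 ≤ k → ∀ p : V → Fin k → ℝ, Gnr p →
  ∀ R : Finset (Sym2 V), R ⊆ pairs V → Clq p R (vts R) → (∀ e ∈ R, Cl p (R.erase e) e) →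
  ∀ X ⊆ vts R, X.Nonempty → k + 1 ≤ (vts R \ X).card → k * X.card + 1 ≤ (inc R X).card

/-- TGD: deleting a good vertex keeps the redundant subgraph rigid -/
def Stmt_TGD : Prop :=
  ∀ (V : Type) [Fintype V] (k : ℕ), 2 ≤ k → ∀ p : V → Fin k → ℝ, Gnr p →
  ∀ (G : Finset (Sym2 V)) (s g t : ℕ), GG p G s g t → (Red p G).Nonempty →
  ∀ v ∈ vts (Red p G), GoodAt p g (del G v) (nbr G v) →
    Clq p (del (Red p G) v) ((vts (Red p G)).erase v)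

/-! ## Part G: global rigidity -/

/-- JAC: independent edges have algebraically independent lengths -/
def Stmt_JAC : Prop :=
  ∀ (V : Type) [Fintype V] (k : ℕ) (p : V → Fin k → ℝ), Gnr p →
  ∀ (B : Finset V) (E : Finset (Sym2 V)), E ⊆ pairs V → Ind p B E ∅ →
    AlgebraicIndependent ℚ (Sum.elim
      (fun x : {x : V × Fin k // x.1 ∈ B} => p x.1.1 x.1.2)
      (fun e : {e : Sym2 V // e ∈ E} => len p e.1))

/-- the coordinates of `p` at the vertices of `W` -/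
def crd {V : Type} {k : ℕ} (p : V → Fin k → ℝ) (W : Finset V) : Set ℝ :=
  {x | ∃ v ∈ W, ∃ c : Fin k, x = p v c}

/-- numbers algebraic over `T` -/
noncomputable def acl (T : Set ℝ) : Set ℝ := (AlgebraicIndependent.matroid ℚ ℝ).closure T

/-- ACL: `acl T` is a subfield -/
def Stmt_ACL : Prop :=
  ∀ T : Set ℝ, T ⊆ acl T ∧ (∀ T' : Set ℝ, T ⊆ acl T' → acl T ⊆ acl T') ∧
    (∀ x ∈ acl T, ∀ y ∈ acl T, x + y ∈ acl T ∧ x - y ∈ acl T ∧ x * y ∈ acl T ∧ x⁻¹ ∈ acl T) ∧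
    (∀ q : ℚ, (q : ℝ) ∈ acl T) ∧
    (∀ (n : ℕ) (x : Fin n → ℝ), AlgebraicIndependent ℚ x → (Set.range x ⊆ acl T) →
      ∀ m : ℕ, T.encard ≤ m → n ≤ m) ∧
    (∀ (n : ℕ) (x : Fin n → ℝ), AlgebraicIndependent ℚ x → (Set.range x ⊆ acl T) →
      T.encard ≤ n → T ⊆ acl (Set.range x))

/-- GPT: a generic point is on no hypersurface over the algebraic closure of the others -/
def Stmt_GPT : Prop :=
  ∀ (V : Type) [Fintype V] (k : ℕ) (p : V → Fin k → ℝ), Gnr p → ∀ (W : Finset V) (v : V), v ∉ W →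
  ∀ f : MvPolynomial (Fin k) ℝ, (∀ m, f.coeff m ∈ acl (crd p W)) →
    MvPolynomial.eval (p v) f = 0 → f = 0

/-- SGT: counting transcendence degrees -/
def Stmt_SGT : Prop :=
  ∀ (V : Type) [Fintype V] (k : ℕ) (p : V → Fin k → ℝ), Gnr p →
  ∀ (Y N : Finset V) (E : Finset (Sym2 V)) (y : V → V), E ⊆ pairs V → Ind p (univ \ Y) E ∅ →
    (∀ e ∈ E, ∀ a ∈ N, a ∉ e) → Disjoint N Y → (∀ a ∈ N, y a ∈ Y) →
  ∀ q : V → Fin k → ℝ, (∀ v, v ∉ Y → q v = p v) → (∀ e ∈ E, len q e = len p e) →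
    (∀ a ∈ N, len q s(y a, a) = len p s(y a, a)) → (∀ a ∈ N, q (y a) ≠ p (y a)) →
    E.card + N.card ≤ k * Y.card

/-- SGL: small sets, global version -/
def Stmt_SGL : Prop :=
  ∀ (V : Type) [Fintype V] (k : ℕ), 2 ≤ k → ∀ p : V → Fin k → ℝ, Gnr p →
  ∀ (s : ℕ) (G : Finset (Sym2 V)) (Y : Finset V), G ⊆ pairs V → Spr s G →
    (k + 1) * Y.card + 1 ≤ s → (2 * k + 2) * Y.card ≤ Fintype.card V →
    k * Y.card + 1 ≤ (inc G Y).card →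
  ∀ q : V → Fin k → ℝ, (∀ v, v ∉ Y → q v = p v) → (∀ y ∈ Y, q y ≠ p y) →
    (∀ e ∈ G, len q e = len p e) → False

/-- ALG: an equivalent configuration of a rigid graph is algebraic, up to congruence -/
def Stmt_ALG : Prop :=
  ∀ (V : Type) [Fintype V] (k : ℕ) (p : V → Fin k → ℝ), 1 ≤ k → Gnr p →
  ∀ (R : Finset (Sym2 V)) (W : Finset V), R ⊆ pairs V → k + 1 ≤ W.card →
    Clq p (sub R W) W → ∀ q : V → Fin k → ℝ, (∀ e ∈ sub R W, len q e = len p e) →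
    ∃ q' : V → Fin k → ℝ, (∀ e : Sym2 V, len q' e = len q e) ∧
      ∀ w ∈ W, ∀ c, q' w c ∈ acl (crd p W)

/-- AFF: the affine argument -/
def Stmt_AFF : Prop :=
  ∀ (V : Type) [Fintype V] (k : ℕ) (p : V → Fin k → ℝ), Gnr p →
  ∀ (W T : Finset V) (v : V), v ∉ W → T ⊆ W → k + 1 ≤ T.card →
  ∀ q : V → Fin k → ℝ, (∀ w ∈ W, ∀ c, q w c ∈ acl (crd p W)) →
    (∀ w ∈ T, len q s(v, w) = len p s(v, w)) →
    ∀ w ∈ T, ∀ w' ∈ T, len q s(w, w') = len p s(w, w')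

/-- TLM: the neighbourhood of a vertex whose deletion leaves a rigid graph is congruent -/
def Stmt_TLM : Prop :=
  ∀ (V : Type) [Fintype V] (k : ℕ) (p : V → Fin k → ℝ), 1 ≤ k → Gnr p →
  ∀ (R : Finset (Sym2 V)) (W : Finset V) (v : V), R ⊆ pairs V → v ∉ W → k + 1 ≤ W.card →
    Clq p (sub R W) W → k + 1 ≤ (nbr R v ∩ W).card →
  ∀ q : V → Fin k → ℝ, (∀ e ∈ R, len q e = len p e) →
    ∀ i ∈ insert v (nbr R v ∩ W), ∀ j ∈ insert v (nbr R v ∩ W), len q s(i, j) = len p s(i, j)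

/-- AFC: points with given distances to `k+1` generic points -/
def Stmt_AFC : Prop :=
  ∀ (V : Type) [Fintype V] (k : ℕ) (p : V → Fin k → ℝ), Gnr p →
  ∀ S : Finset V, k + 1 ≤ S.card →
  ∀ q : V → Fin k → ℝ, (∀ i ∈ S, ∀ j ∈ S, len q s(i, j) = len p s(i, j)) →
  ∀ x y : V, (∀ i ∈ S, len q s(x, i) = len p s(x, i)) → (∀ i ∈ S, len q s(y, i) = len p s(y, i)) →
    len q s(x, y) = len p s(x, y)

/-- ISM: congruent generic configurations differ by an isometry -/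
def Stmt_ISM : Prop :=
  ∀ (V : Type) [Fintype V] (k : ℕ) (p : V → Fin k → ℝ), Gnr p →
  ∀ S : Finset V, k + 1 ≤ S.card →
  ∀ q : V → Fin k → ℝ, (∀ i ∈ S, ∀ j ∈ S, len q s(i, j) = len p s(i, j)) →
  ∃ (O : Matrix (Fin k) (Fin k) ℝ) (t : Fin k → ℝ), O.transpose * O = 1 ∧
    ∀ i ∈ S, q i = O.mulVec (p i) + t

/-- GLB: basic properties of globally linked pairs -/
def Stmt_GLB : Prop :=
  ∀ (V : Type) [Fintype V] (k : ℕ) (R : Finset (Sym2 V)),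
    (∀ e ∈ R, Glk k R e) ∧
    (∀ (R' : Finset (Sym2 V)) (e : Sym2 V), (∀ f ∈ R, Glk k R' f) → Glk k R e → Glk k R' e) ∧
    (∀ A B : Finset V, GLq k R A → GLq k R B → k + 1 ≤ (A ∩ B).card → GLq k R (A ∪ B)) ∧
    (∀ (A : Finset V) (v : V), GLq k R A → k + 1 ≤ (A.filter (fun a => Glk k R s(v, a))).card →
      GLq k R (insert v A))

/-- TWG: two globally rigid bodies joined by many bars -/
def Stmt_TWG : Prop :=
  ∀ (V : Type) [Fintype V] (k : ℕ) (R : Finset (Sym2 V)) (A B : Finset V),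
    k + 1 ≤ A.card → k + 1 ≤ B.card → GLq k R A → GLq k R B →
  ∀ a b : Fin (k * k + 2 * k + 1) → V, Function.Injective (Sum.elim a b) →
    (∀ l, a l ∈ A) → (∀ l, b l ∈ B) → (∀ l, Glk k R s(a l, b l)) → GLq k R (A ∪ B)

/-- the density of the globally linked pairs of the redundant subgraph -/
noncomputable def glc {V : Type} [Fintype V] {k : ℕ} (p : V → Fin k → ℝ) (G : Finset (Sym2 V)) :
    ℝ :=
  (((pairs V).filter (fun e => Glk k (Red p G) e)).card : ℝ) / (pairs V).card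

/-- UGD: counting sequences of pairs that join two giant globally rigid cliques -/
def Stmt_UGD : Prop :=
  ∀ (k : ℕ) (γ : ℝ), 1 ≤ k → 0 < γ → ∃ θ κ : ℝ, 0 < θ ∧ 0 < κ ∧ ∃ n0 : ℕ,
  ∀ (V : Type) [Fintype V] (p : V → Fin k → ℝ), Gnr p → n0 ≤ Fintype.card V →
  ∀ (G : Finset (Sym2 V)) (g : ℕ) (Q : Finset V), G ⊆ pairs V → γ * Fintype.card V ≤ g →
    G.card ^ 2 ≤ Fintype.card V ^ 3 →
    Clq p G Q → vts (Red p G) ⊆ Q → ¬ UniG k g (Red p G) →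
    θ * ((pairs V).card : ℝ) ^ (k * k + 2 * k + 1) ≤
      (((seqs (k * k + 2 * k + 1) (pairs V)).filter
        (fun f => glc p G + κ ≤ glc p (plus G f))).card : ℝ)

/-- UGL: uniqueness of the giant globally rigid clique -/
def Stmt_UGL : Prop :=
  ∀ (k : ℕ) (c γ : ℝ), 1 ≤ k → 0 < c → 0 < γ →
    Whp c k (fun V _ p G => (∃ Q : Finset V, Clq p G Q ∧ vts (Red p G) ⊆ Q) →
      UniG k ⌈γ * Fintype.card V⌉₊ (Red p G))

/-- CLS: classes of vertices -/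
def Stmt_CLS : Prop :=
  ∀ (V : Type) [Fintype V] (k : ℕ), 2 ≤ k → ∀ p : V → Fin k → ℝ, Gnr p →
  ∀ (R : Finset (Sym2 V)) (s g t : ℕ), R ⊆ pairs V → R.Nonempty → Spr s R →
    Clq p R (vts R) → (∀ v ∈ vts R, k + 1 ≤ (nbr R v).card) →
    ((vts R).filter (fun v => ¬ Clq p (del R v) ((vts R).erase v))).card ≤ t →
    UniG k g R → 5 * t + g + 1 ≤ s →
    ∃ A ⊆ vts R, GLq k R A ∧ (vts R).card ≤ A.card + 5 * t

/-- GLO: global rigidity of the redundant subgraph of a typical graph -/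
def Stmt_GLO : Prop :=
  ∀ (V : Type) [Fintype V] (k : ℕ), 2 ≤ k → ∀ p : V → Fin k → ℝ, Gnr p →
  ∀ (R : Finset (Sym2 V)) (s g t : ℕ), R ⊆ pairs V → R.Nonempty → Spr s R →
    Clq p R (vts R) → (∀ v ∈ vts R, k + 1 ≤ (nbr R v).card) →
    (∀ X ⊆ vts R, X.Nonempty → k + 1 ≤ (vts R \ X).card → k * X.card + 1 ≤ (inc R X).card) →
    ((vts R).filter (fun v => ¬ Clq p (del R v) ((vts R).erase v))).card ≤ t →
    UniG k g R → 5 * t + g + 1 ≤ s → (k + 1) * (5 * t) + k + 2 ≤ s →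
    (2 * k + 2) * (5 * t) ≤ Fintype.card V → s ≤ Fintype.card V →
    GLq k R (vts R)

/-- MAI: the main theorem, for every dimension at least two -/
def Stmt_MAI : Prop :=
  ∀ (k : ℕ) (c : ℝ), 2 ≤ k → 0 < c → Whp c k (fun V _ p G => GLq k (Red p G) (vts (Red p G)))

/-! ## Part F: final statement -/

/-- EXT: generic configurations exist and extend partially generic ones -/
def Stmt_EXT : Prop :=
  ∀ (V : Type) [Fintype V] (k : ℕ) (S : Finset V) (q : V → Fin k → ℝ),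
    AlgebraicIndependent ℚ (fun x : {x : V × Fin k // x.1 ∈ S} => q x.1.1 x.1.2) →
    ∃ p : V → Fin k → ℝ, Gnr p ∧ ∀ v ∈ S, p v = q v

/-- STR: stresses and the closure -/
def Stmt_STR : Prop :=
  ∀ (V : Type) [Fintype V] (k : ℕ) (p q : V → Fin k → ℝ) (G : Finset (Sym2 V)), G ⊆ pairs V →
    (∀ e ∈ G, (Cl p (G.erase e) e ↔ ∃ ω : Sym2 V → ℝ, ω e ≠ 0 ∧
      ∀ i : V, ∑ j ∈ nbr G i, ω s(i, j) • (p i - p j) = 0)) ∧
    (Gnr p → Gnr q → Red p G = Red q G)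

/-- DGN: a random graph is independent in all large dimensions -/
def Stmt_DGN : Prop :=
  ∀ c : ℝ, 0 < c → ∃ K : ℕ, ∀ ε : ℝ, 0 < ε → ∃ n0 : ℕ,
  ∀ (V : Type) [Fintype V], n0 ≤ Fintype.card V →
    Pr (c / Fintype.card V) (pairs V) (fun G => ¬ ∀ k : ℕ, K ≤ k →
      ∀ p : V → Fin k → ℝ, Gnr p → Red p G = ∅) ≤ ε

/-- TRD: a simple graph as a set of pairs, translation of the definitions of the problem -/
def Stmt_TRD : Prop :=
  ∀ (V : Type) [Fintype V] (k : ℕ) (G : SimpleGraph V),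
    G.edgeFinset ⊆ pairs V ∧
    (∀ p : V → Fin k → ℝ, Gnr p → ∀ i j : V,
      (Problem.Redundant k G i j ↔ s(i, j) ∈ Red p G.edgeFinset)) ∧
    ((∀ p : V → Fin k → ℝ, Gnr p → Red p G.edgeFinset = ∅) →
      Problem.GenericallyIndependent k G) ∧
    (∀ p : V → Fin k → ℝ, Gnr p → GLq k (Red p G.edgeFinset) (vts (Red p G.edgeFinset)) →
      Problem.GenericallyGloballyRigid k (Problem.redundantSubgraph k G))

/-- PRB: the probability of the problem is `Pr` -/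
def Stmt_PRB : Prop :=
  ∀ (n : ℕ) (π : ℝ) (A : SimpleGraph (Fin n) → Prop) (B : Finset (Sym2 (Fin n)) → Prop),
    0 ≤ π → π ≤ 1 → (∀ G : SimpleGraph (Fin n), ¬ A G → B G.edgeFinset) →
    1 - Problem.prob n π A ≤ Pr π (pairs (Fin n)) B ∧ Problem.prob n π A ≤ 1

/-- FIN: the final theorem -/
def Stmt_FIN : Prop :=
  ∀ c : ℝ, 0 < c →
    Filter.Tendsto (fun n : ℕ => Problem.prob n (c / n) (fun G => Problem.Good G)) Filter.atTop
      (nhds 1)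

end Pool.Agent.GRR
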