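import Pool.Agent.GRR.Stmts

/-!
# GRR : two globally rigid bodies joined by many bars
-/

set_option autoImplicit false

open Finset
open scoped Classical

namespace Pool.Agent.GRR

namespace TWG_

/-- the algebraic closure of a set of numbers as a subfield -/
noncomputable def aclF (h : Stmt_ACL) (T : Set ℝ) : Subfield ℝ where
  carrier := acl T
  mul_mem' := fun {x y} hx hy => ((h T).2.2.1 x hx y hy).2.2.1
  one_mem' := by
    have := (h T).2.2.2.1 1
    simpa using this
  add_mem' := fun {x y} hx hy => ((h T).2.2.1 x hx y hy).1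
  zero_mem' := by
    have := (h T).2.2.2.1 0
    simpa using this
  neg_mem' := fun {x} hx => by
    have h0 : (0 : ℝ) ∈ acl T := by
      have := (h T).2.2.2.1 0
      simpa using this
    have := ((h T).2.2.1 0 h0 x hx).2.1
    simpa using this
  inv_mem' := fun x hx => ((h T).2.2.1 x hx x hx).2.2.2

theorem mem_aclF (h : Stmt_ACL) (T : Set ℝ) (x : ℝ) : x ∈ aclF h T ↔ x ∈ acl T := Iff.rfl

theorem orth' {k : ℕ} {O : Matrix (Fin k) (Fin k) ℝ} (h : O.transpose * O = 1) :
    O * O.transpose = 1 := mul_eq_one_comm.mp h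

theorem dot_eq {k : ℕ} (x y : Fin k → ℝ) : dot x y = dotProduct x y := rfl

theorem dot_orth {k : ℕ} {O : Matrix (Fin k) (Fin k) ℝ} (h : O.transpose * O = 1)
    (x y : Fin k → ℝ) : dot (O.mulVec x) (O.mulVec y) = dot x y := by
  rw [dot_eq, dot_eq, Matrix.dotProduct_mulVec, Matrix.vecMul_mulVec, h, Matrix.vecMul_one]

/-- a bar that is not fixed gives a relation -/
theorem rel {k : ℕ} {x y z : Fin k → ℝ} (h : dot (x - z) (x - z) = dot (x - y) (x - y)) :
    2 * dot x (z - y) = dot z z - dot y y := by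
  rw [dot_sub, sub_dot, sub_dot, dot_sub, sub_dot, sub_dot] at h
  rw [dot_sub]
  have h1 := dot_comm x y
  have h2 := dot_comm x z
  linarith

/-- solving for one coordinate -/
theorem solve {k : ℕ} {x w : Fin k → ℝ} {r : ℝ} {c0 : Fin k} (h : 2 * dot x w = r)
    (hw : w c0 ≠ 0) : x c0 = (r / 2 - ∑ c ∈ univ.erase c0, x c * w c) / w c0 := by
  rw [eq_div_iff hw]
  unfold dot at h
  rw [← Finset.add_sum_erase univ (fun c => x c * w c) (mem_univ c0)] at h
  linarith

/-- counting transcendence degrees -/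
theorem count (hacl : Stmt_ACL) {V : Type} [Fintype V] {k : ℕ} {q : V → Fin k → ℝ} (hq : Gnr q)
    {L : ℕ} {a b : Fin L → V} (hinj : Function.Injective (Sum.elim a b))
    (O : Matrix (Fin k) (Fin k) ℝ) (t : Fin k → ℝ) (S : Finset (Fin L))
    (hS : ∀ l ∈ S, O.mulVec (q (b l)) + t ≠ q (b l) ∧
      2 * dot (q (a l)) (O.mulVec (q (b l)) + t - q (b l)) =
        dot (O.mulVec (q (b l)) + t) (O.mulVec (q (b l)) + t) - dot (q (b l)) (q (b l))) :
    S.card ≤ k * k + k := by
  rcases S.eq_empty_or_nonempty with rfl | ⟨l0, hl0⟩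
  · simp
  have hc : ∀ l : Fin L, ∃ c : Fin k, l ∈ S → (O.mulVec (q (b l)) + t - q (b l)) c ≠ 0 := by
    intro l
    by_cases hl : l ∈ S
    · by_contra hcon
      push Not at hcon
      apply (hS l hl).1
      funext c
      have := (hcon c).2
      simp only [Pi.sub_apply] at this
      linarith
    · have hc0 : ∃ c : Fin k, (O.mulVec (q (b l0)) + t - q (b l0)) c ≠ 0 := by
        by_contra hcon
        push Not at hcon
        apply (hS l0 hl0).1
        funext c
        have := hcon c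
        simp only [Pi.sub_apply] at this
        linarith
      obtain ⟨c, _⟩ := hc0
      exact ⟨c, fun h => absurd h hl⟩
  choose c0 hc0 using hc
  have hk : 1 ≤ k := Nat.succ_le_of_lt (lt_of_le_of_lt (Nat.zero_le _) (c0 l0).2)
  -- the generating set
  obtain ⟨T, hT⟩ : ∃ T : Finset ℝ, T = ((((univ : Finset (Fin k × Fin k)).image
      (fun x => O x.1 x.2)) ∪ ((univ : Finset (Fin k)).image t)) ∪
      ((S ×ˢ (univ : Finset (Fin k))).image (fun x => q (b x.1) x.2))) ∪
      (S.biUnion (fun l => (univ.erase (c0 l)).image (fun c => q (a l) c))) := ⟨_, rfl⟩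
  have hTc : T.card ≤ k * k + k + S.card * k + S.card * (k - 1) := by
    rw [hT]
    refine (card_union_le _ _).trans (Nat.add_le_add ((card_union_le _ _).trans
      (Nat.add_le_add ((card_union_le _ _).trans (Nat.add_le_add ?_ ?_)) ?_)) ?_)
    · refine card_image_le.trans ?_
      simp
    · refine card_image_le.trans ?_
      simp
    · refine card_image_le.trans ?_
      rw [card_product]
      simp
    · refine card_biUnion_le_card_mul _ _ _ (fun l _ => ?_)
      refine card_image_le.trans ?_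
      rw [card_erase_of_mem (mem_univ _)]
      simp
  -- the independent family
  obtain ⟨f, hf⟩ : ∃ f : ({l // l ∈ S} × Fin k) ⊕ ({l // l ∈ S} × Fin k) → V × Fin k,
    f = Sum.elim (fun x => (a x.1.1, x.2)) (fun x => (b x.1.1, x.2)) := ⟨_, rfl⟩
  have hfi : Function.Injective f := by
    rw [hf]
    intro x y hxy
    rcases x with ⟨x1, x2⟩ | ⟨x1, x2⟩ <;> rcases y with ⟨y1, y2⟩ | ⟨y1, y2⟩ <;>
      simp only [Sum.elim_inl, Sum.elim_inr, Prod.mk.injEq] at hxy
    · have := hinj (a₁ := Sum.inl x1.1) (a₂ := Sum.inl y1.1) hxy.1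
      have h2 : x1 = y1 := Subtype.ext (Sum.inl.inj this)
      rw [h2, hxy.2]
    · exact absurd (hinj (a₁ := Sum.inl x1.1) (a₂ := Sum.inr y1.1) hxy.1) (by simp)
    · exact absurd (hinj (a₁ := Sum.inr x1.1) (a₂ := Sum.inl y1.1) hxy.1) (by simp)
    · have := hinj (a₁ := Sum.inr x1.1) (a₂ := Sum.inr y1.1) hxy.1
      have h2 : x1 = y1 := Subtype.ext (Sum.inr.inj this)
      rw [h2, hxy.2]
  obtain ⟨n, hn⟩ : ∃ n, n = Fintype.card (({l // l ∈ S} × Fin k) ⊕ ({l // l ∈ S} × Fin k)) :=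
    ⟨_, rfl⟩
  have hn2 : n = S.card * k + S.card * k := by
    rw [hn]
    simp
  obtain ⟨ι⟩ : Nonempty (Fin n ≃ (({l // l ∈ S} × Fin k) ⊕ ({l // l ∈ S} × Fin k))) := by
    rw [hn]
    exact ⟨(Fintype.equivFin _).symm⟩
  have hind : AlgebraicIndependent ℚ (fun i : Fin n => q (f (ι i)).1 (f (ι i)).2) :=
    hq.comp (fun i => f (ι i)) (hfi.comp ι.injective)
  have hsub : (T : Set ℝ) ⊆ acl (T : Set ℝ) := (hacl T).1
  have hO : ∀ i j, O i j ∈ aclF hacl (T : Set ℝ) := fun i j => hsub (by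
    rw [hT]
    simp only [coe_union, Set.mem_union, coe_image, Set.mem_image, mem_coe]
    exact Or.inl (Or.inl (Or.inl ⟨(i, j), mem_univ _, rfl⟩)))
  have ht : ∀ i, t i ∈ aclF hacl (T : Set ℝ) := fun i => hsub (by
    rw [hT]
    simp only [coe_union, Set.mem_union, coe_image, Set.mem_image, mem_coe]
    exact Or.inl (Or.inl (Or.inr ⟨i, mem_univ _, rfl⟩)))
  have hb : ∀ l ∈ S, ∀ c, q (b l) c ∈ aclF hacl (T : Set ℝ) := fun l hl c => hsub (by
    rw [hT]
    simp only [coe_union, Set.mem_union, coe_image, Set.mem_image, mem_coe]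
    exact Or.inl (Or.inr ⟨(l, c), mem_product.mpr ⟨hl, mem_univ _⟩, rfl⟩))
  have ha : ∀ l ∈ S, ∀ c, c ≠ c0 l → q (a l) c ∈ aclF hacl (T : Set ℝ) := fun l hl c hc =>
    hsub (by
      rw [hT]
      refine mem_coe.mpr (mem_union_right _ (mem_biUnion.mpr ⟨l, hl, mem_image.mpr
        ⟨c, mem_erase.mpr ⟨hc, mem_univ _⟩, rfl⟩⟩)))
  have hg : ∀ l ∈ S, ∀ c, (O.mulVec (q (b l)) + t) c ∈ aclF hacl (T : Set ℝ) := by
    intro l hl c
    rw [Pi.add_apply]
    have e : O.mulVec (q (b l)) c = ∑ d, O c d * q (b l) d := rfl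
    rw [e]
    exact add_mem (sum_mem (fun d _ => mul_mem (hO c d) (hb l hl d))) (ht c)
  have hdot : ∀ x y : Fin k → ℝ, (∀ c, x c ∈ aclF hacl (T : Set ℝ)) →
      (∀ c, y c ∈ aclF hacl (T : Set ℝ)) → dot x y ∈ aclF hacl (T : Set ℝ) :=
    fun x y hx hy => sum_mem (fun c _ => mul_mem (hx c) (hy c))
  have ha0 : ∀ l ∈ S, ∀ c, q (a l) c ∈ aclF hacl (T : Set ℝ) := by
    intro l hl c
    by_cases hc : c = c0 l
    · rw [hc, solve (hS l hl).2 (hc0 l hl)]
      have hw : ∀ d, (O.mulVec (q (b l)) + t - q (b l)) d ∈ aclF hacl (T : Set ℝ) := fun d =>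
        sub_mem (hg l hl d) (hb l hl d)
      refine div_mem (sub_mem (div_mem (sub_mem (hdot _ _ (hg l hl) (hg l hl))
        (hdot _ _ (hb l hl) (hb l hl))) ?_) (sum_mem (fun d hd => ?_))) (hw _)
      · exact ofNat_mem _ 2
      · exact mul_mem (ha l hl d (mem_erase.mp hd).1) (hw d)
    · exact ha l hl c hc
  have hrange : Set.range (fun i : Fin n => q (f (ι i)).1 (f (ι i)).2) ⊆ acl (T : Set ℝ) := by
    rintro _ ⟨i, rfl⟩
    simp only
    obtain ⟨z, hz⟩ : ∃ z, z = ι i := ⟨_, rfl⟩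
    rw [← hz, hf]
    rcases z with ⟨x1, x2⟩ | ⟨x1, x2⟩
    · exact ha0 x1.1 x1.2 x2
    · exact hb x1.1 x1.2 x2
  have hfin := (hacl T).2.2.2.2.1 n _ hind hrange (k * k + k + S.card * k + S.card * (k - 1)) (by
    rw [Set.encard_coe_eq_coe_finsetCard]
    exact_mod_cast hTc)
  rw [hn2] at hfin
  obtain ⟨k', rfl⟩ : ∃ k', k = k' + 1 := ⟨k - 1, by omega⟩
  rw [Nat.add_sub_cancel] at hfin
  nlinarith

/-- a matrix fixing `k + 1` generic points is the identity -/
theorem ident (hsta : Stmt_STA) {V : Type} [Fintype V] {k : ℕ} {q : V → Fin k → ℝ} (hq : Gnr q)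
    (O : Matrix (Fin k) (Fin k) ℝ) (t : Fin k → ℝ) (T : Finset V) (hT : k + 1 ≤ T.card)
    (h : ∀ v ∈ T, O.mulVec (q v) + t = q v) : ∀ x, O.mulVec x + t = x := by
  obtain ⟨v0, hv0⟩ : T.Nonempty := card_pos.mp (by omega)
  have h1 : ∀ c, (O - 1) c = 0 := by
    intro c
    refine (hsta V k q hq v0 (T.erase v0) (notMem_erase _ _)).2 ?_ _ ?_
    · rw [card_erase_of_mem hv0]
      omega
    · intro v hv
      have e1 := h v0 hv0
      have e2 := h v (mem_of_mem_erase hv)
      have e3 : O.mulVec (q v0 - q v) = q v0 - q v := by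
        rw [Matrix.mulVec_sub]
        have : O.mulVec (q v0) + t - (O.mulVec (q v) + t) = q v0 - q v := by rw [e1, e2]
        rw [← this]
        abel
      have e4 : (O - 1).mulVec (q v0 - q v) = 0 := by
        rw [Matrix.sub_mulVec, e3, Matrix.one_mulVec, sub_self]
      have e5 := congrFun e4 c
      rw [dot_comm]
      exact e5
  have h2 : O = 1 := by
    have : O - 1 = 0 := by
      funext c
      exact h1 c
    exact sub_eq_zero.mp this
  have h3 : t = 0 := by
    have := h v0 hv0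
    rw [h2, Matrix.one_mulVec] at this
    exact add_eq_left.mp this
  intro x
  rw [h2, h3, Matrix.one_mulVec, add_zero]

end TWG_

theorem twg_proof (hism : Stmt_ISM) (hacl : Stmt_ACL) (hsta : Stmt_STA) (_hafc : Stmt_AFC) :
    Stmt_TWG := by
  intro V _ k R A B hA hB hGA hGB a b hinj ha hb hab i hi j hj q hq q' hlen
  obtain ⟨OA, tA, hOA, hqA⟩ := hism V k q hq A hA q' (fun i hi j hj => hGA i hi j hj q hq q' hlen)
  obtain ⟨OB, tB, hOB, hqB⟩ := hism V k q hq B hB q' (fun i hi j hj => hGB i hi j hj q hq q' hlen)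
  have hbar : ∀ l, len q' s(a l, b l) = len q s(a l, b l) := fun l => hab l q hq q' hlen
  obtain ⟨O, hO⟩ : ∃ O, O = OA.transpose * OB := ⟨_, rfl⟩
  obtain ⟨t, ht⟩ : ∃ t, t = OA.transpose.mulVec (tB - tA) := ⟨_, rfl⟩
  have hOA' := TWG_.orth' hOA
  have key : ∀ x, OA.mulVec (O.mulVec x + t) + tA = OB.mulVec x + tB := by
    intro x
    rw [Matrix.mulVec_add, Matrix.mulVec_mulVec, hO, ht, Matrix.mulVec_mulVec, ← Matrix.mul_assoc,
      hOA', Matrix.one_mul, Matrix.one_mulVec]
    abel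
  have hb1 : ∀ l, dot (q (a l) - (O.mulVec (q (b l)) + t)) (q (a l) - (O.mulVec (q (b l)) + t)) =
      dot (q (a l) - q (b l)) (q (a l) - q (b l)) := by
    intro l
    have h1 := hbar l
    rw [len_mk, len_mk, hqA _ (ha l), hqB _ (hb l), ← key] at h1
    rw [← h1, ← TWG_.dot_orth hOA]
    have e : OA.mulVec (q (a l)) + tA - (OA.mulVec (O.mulVec (q (b l)) + t) + tA) =
        OA.mulVec (q (a l) - (O.mulVec (q (b l)) + t)) := by
      rw [Matrix.mulVec_sub]
      abel
    rw [e]
  -- the bars with a fixed end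
  obtain ⟨F, hF⟩ : ∃ F : Finset (Fin (k * k + 2 * k + 1)),
    F = univ.filter (fun l => O.mulVec (q (b l)) + t = q (b l)) := ⟨_, rfl⟩
  have hid : ∀ x, O.mulVec x + t = x := by
    rcases Nat.lt_or_ge F.card (k + 1) with h | h
    · exfalso
      have h1 := TWG_.count hacl hq hinj O t (univ \ F) (fun l hl => by
        have hl1 : l ∉ F := (mem_sdiff.mp hl).2
        refine ⟨fun h => hl1 (by rw [hF]; exact mem_filter.mpr ⟨mem_univ _, h⟩), ?_⟩
        exact TWG_.rel (hb1 l))
      rw [card_sdiff_of_subset (subset_univ _), card_univ, Fintype.card_fin] at h1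
      have : k * k + 2 * k + 1 - F.card ≥ k * k + k + 1 := by omega
      omega
    · refine TWG_.ident hsta hq O t (F.image b) ?_ ?_
      · rw [card_image_of_injective F (fun x y hxy => by
          have := hinj (a₁ := Sum.inr x) (a₂ := Sum.inr y) hxy
          exact Sum.inr.inj this)]
        exact h
      · intro v hv
        obtain ⟨l, hl, rfl⟩ := mem_image.mp hv
        rw [hF] at hl
        exact (mem_filter.mp hl).2
  have hall : ∀ v ∈ A ∪ B, q' v = OA.mulVec (q v) + tA := by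
    intro v hv
    rcases mem_union.mp hv with h | h
    · exact hqA v h
    · rw [hqB v h, ← key, hid]
  rw [len_mk, len_mk, hall i hi, hall j hj]
  have e : OA.mulVec (q i) + tA - (OA.mulVec (q j) + tA) = OA.mulVec (q i - q j) := by
    rw [Matrix.mulVec_sub]
    abel
  rw [e, TWG_.dot_orth hOA]

end Pool.Agent.GRR
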